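import Pool.Agent.Lib.MP_10e396_an.Par

/-! The errors of the two models of the major arc pieces. -/

set_option autoImplicit false

namespace Pool.Agent.Lib.MP_10e396_an

open Finset Polynomial

noncomputable section

namespace Apx

theorem av_shift (N r : ℕ) (G : ℕ → ℂ) :
    av N (fun n => G (n + r)) - av N G = (N : ℝ)⁻¹ • ∑ j ∈ range r, (G (N + j) - G j) := by
  have h1 := sum_range_add G N r
  have h2 := sum_range_add G r N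
  rw [add_comm r N, h1] at h2
  simp only [av, ← smul_sub, sum_sub_distrib, add_comm _ r]
  congr 1
  linear_combination -h2

section lp

variable {X : Type} [Fintype X] {p : ℝ}

theorem lp_tri (hp : 1 ≤ p) (f g k : X → ℂ) {a b : ℝ} (h1 : lp p (fun x => f x - g x) ≤ a)
    (h2 : lp p (fun x => g x - k x) ≤ b) : lp p (fun x => f x - k x) ≤ a + b := by
  refine le_trans ?_ (add_le_add h1 h2)
  refine le_trans (le_of_eq ?_) (lp_add_le hp _ _)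
  simp only [sub_add_sub_cancel]

theorem lp_av_sub (hp : 1 ≤ p) {N : ℕ} {G G' : ℕ → X → ℂ} {B : ℝ} (hB : 0 ≤ B)
    (h : ∀ n < N, lp p (fun x => G n x - G' n x) ≤ B) :
    lp p (fun x => av N (fun n => G n x) - av N fun n => G' n x) ≤ B := by
  simp only [← av_sub]
  exact lp_av_le' hp hB h

theorem lp_shift_av (hp : 1 ≤ p) {N r : ℕ} {G : ℕ → X → ℂ} {B : ℝ} (h : ∀ n, lp p (G n) ≤ B) :
    lp p (fun x => av N (fun n => G n x) - av N fun n => G (n + r) x) ≤ 2 * r / N * B := by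
  have e : ∀ x, ‖av N (fun n => G n x) - av N fun n => G (n + r) x‖ =
      (N : ℝ)⁻¹ * ‖∑ j ∈ range r, (G (N + j) x - G j x)‖ := fun x => by
    rw [norm_sub_rev, av_shift N r fun n => G n x, norm_smul, norm_inv, Real.norm_natCast]
  rw [lp_const_mul (by linarith) (by positivity) e]
  have := (lp_sum_le hp (range r) fun j x => G (N + j) x - G j x).trans
    (sum_le_card_nsmul _ _ (B + B) fun j _ => (lp_sub_le hp _ _).trans (add_le_add (h _) (h _)))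
  rw [card_range, nsmul_eq_mul] at this
  calc _ ≤ (N : ℝ)⁻¹ * (r * (B + B)) := mul_le_mul_of_nonneg_left this (by positivity)
    _ = _ := by ring

theorem lp_prod {p₁ p₂ B₁ B₂ δ : ℝ} (hp : 1 ≤ p) (h₁ : 0 < p₁) (h₂ : 0 < p₂)
    (e : p₁⁻¹ + p₂⁻¹ = p⁻¹) {φ φ' ψ ψ' : X → ℂ} (b1 : lp p₁ φ ≤ B₁) (b2 : lp p₂ ψ ≤ B₂)
    (d1 : lp p₁ (fun x => φ' x - φ x) ≤ δ * B₁) (d2 : lp p₂ (fun x => ψ' x - ψ x) ≤ δ * B₂)
    (δ0 : 0 ≤ δ) (δ1 : δ ≤ 1) : lp p (fun x => φ' x * ψ' x - φ x * ψ x) ≤ 3 * δ * (B₁ * B₂) := by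
  have B1 := (lp_nonneg _ _).trans b1
  have B2 := (lp_nonneg _ _).trans b2
  have k : ∀ {a b : X → ℂ} {A B : ℝ}, lp p₁ a ≤ A → lp p₂ b ≤ B →
      lp p (fun x => a x * b x) ≤ A * B := fun {a b A B} ha hb =>
    (lp_mul_le h₁ h₂ e fun x => (norm_mul _ _).le).trans
      (mul_le_mul ha hb (lp_nonneg _ _) ((lp_nonneg _ _).trans ha))
  have s : (fun x => φ' x * ψ' x - φ x * ψ x) = fun x => ((φ' x - φ x) * (ψ' x - ψ x) +
      (φ' x - φ x) * ψ x) + φ x * (ψ' x - ψ x) := funext fun x => by ring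
  rw [s]
  refine (lp_add_le hp _ _).trans ((add_le_add ((lp_add_le hp _ _).trans
    (add_le_add (k d1 d2) (k d1 b2))) (k b1 d2)).trans ?_)
  nlinarith [mul_nonneg (mul_nonneg δ0 (sub_nonneg.2 δ1)) (mul_nonneg B1 B2)]

end lp

variable {M : ℕ} [NeZero M] {p : ℝ}

/-- `φ` changes little under offsets of size at most `R` -/
def Slow (p : ℝ) (R : ℕ) (φ : ZMod M → ℂ) (D : ℝ) : Prop :=
  ∀ (s : ZMod M) (a : ZMod M → ZMod M), (∀ x, ab (a x) ≤ R) →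
    lp p (fun x => φ (x + s + a x) - φ (x + s)) ≤ D

theorem slow_of (hp : 1 ≤ p) (R : ℕ) (φ : ZMod M → ℂ) :
    Slow p R φ (2 * R * lp p fun x => φ (x + 1) - φ x) := by
  intro s a ha
  have k : ∀ x, ‖φ (x + s + a x) - φ (x + s)‖ ≤ ∑ j ∈ range (2 * R),
      ‖φ (x + (s - R + j) + 1) - φ (x + (s - R + j))‖ := fun x => by
    obtain ⟨k, hk, hk'⟩ := ab_rep (a x)
    have hR := ha x
    set g : ℕ → ℂ := fun j => φ (x + (s - R + j)) with hg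
    have d : ∀ u v : ℕ, u ≤ v → v ≤ 2 * R → dist (g u) (g v) ≤ ∑ j ∈ range (2 * R),
        ‖φ (x + (s - R + j) + 1) - φ (x + (s - R + j))‖ := fun u v h1 h2 => by
      refine (dist_le_Ico_sum_dist g h1).trans (le_trans (sum_le_sum_of_subset_of_nonneg
        (t := range (2 * R)) (fun j hj => ?_) fun _ _ _ => dist_nonneg) (le_of_eq ?_))
      · have := mem_Ico.1 hj
        exact mem_range.2 (by omega)
      · refine sum_congr rfl fun j _ => ?_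
        rw [dist_comm, dist_eq_norm, hg]
        simp only [Nat.cast_add, Nat.cast_one, add_assoc]
    obtain ⟨v, hv⟩ := Int.eq_ofNat_of_zero_le (show 0 ≤ (R : ℤ) + k by omega)
    have e1 : φ (x + s) = g R := by simp [hg]
    have e2 : φ (x + s + a x) = g v := by
      have : (v : ZMod M) = R + a x := by
        rw [← hk, ← Int.cast_natCast, ← hv]; push_cast; rfl
      simp only [hg, this]
      congr 1
      ring
    rw [e1, e2, ← dist_eq_norm]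
    rcases le_total v R with h | h
    · exact d _ _ h (by omega)
    · rw [dist_comm]; exact d _ _ h (by omega)
  refine (lp_mono' (by linarith) k).trans ((lp_sum_le hp _ _).trans (le_of_eq ?_))
  rw [sum_congr rfl (g := fun _ => lp p fun x => φ (x + 1) - φ x), sum_const, card_range,
    nsmul_eq_mul]
  · push_cast; ring
  · intro j _
    rw [lp_norm]
    exact lp_shift (fun x => φ (x + 1) - φ x) _

/-- the amplitude at the frequency `θ` -/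
def amp (K : ℕ) (f : ZMod M → ℂ) (θ : ZMod M) : ZMod M → ℂ :=
  conv (cx (fej K)) fun z => ch (-(θ * z)) * f z

theorem lp_mod (f : ZMod M → ℂ) (θ : ZMod M) : lp p (fun z => ch (-(θ * z)) * f z) = lp p f :=
  lp_congr fun z => by rw [norm_mul, norm_ch, one_mul]

theorem lp_amp (hp : 1 ≤ p) {K : ℕ} (h1 : 1 ≤ K) (h2 : 2 * K ≤ M) (f : ZMod M → ℂ) (θ : ZMod M) :
    lp p (amp K f θ) ≤ lp p f := by
  have := sum_norm_fej h1 h2 (0 : ZMod M)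
  simp only [add_zero] at this
  refine (lp_conv_le hp _ _).trans ?_
  rw [this, one_mul, lp_mod]

theorem slow_amp (hp : 1 ≤ p) {K R : ℕ} (h1 : 1 ≤ K) (h2 : 2 * K ≤ M) (f : ZMod M → ℂ)
    (θ : ZMod M) {δ : ℝ} (hδ : 28 * (K * R) ≤ δ * M) : Slow p R (amp K f θ) (δ * lp p f) := by
  intro s a ha
  refine (slow_of hp R _ s a ha).trans ?_
  have e : (fun x => amp K f θ (x + 1) - amp K f θ x) =
      conv (cx fun t => fej K (t + (0 + 1)) - fej K (t + 0)) fun z => ch (-(θ * z)) * f z := by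
    funext x
    simp only [amp, conv, cx, ← sum_sub_distrib, ← sub_smul, zero_add, add_zero, add_sub_right_comm,
      Complex.ofReal_sub]
  have l := lip_fej h1 (show K ≤ M by omega) (0 : ZMod M) 1
  have a1 : (ab (1 : ZMod M) : ℝ) ≤ 1 := by exact_mod_cast (by simpa using ab_natCast_le (M := M) 1)
  have hM := Mpos M
  have l2 : ∑ t, ‖cx (fun t : ZMod M => fej K (t + (0 + 1)) - fej K (t + 0)) t‖ ≤ 14 * K / M := by
    simp only [cx, Complex.norm_real, Real.norm_eq_abs]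
    refine l.trans (div_le_div_of_nonneg_right ?_ hM.le)
    nlinarith [Nat.cast_nonneg (α := ℝ) K]
  rw [e]
  have f0 := lp_nonneg p f
  have := (lp_conv_le hp _ fun z => ch (-(θ * z)) * f z).trans
    (mul_le_mul_of_nonneg_right l2 (lp_nonneg _ _))
  rw [lp_mod] at this
  refine (mul_le_mul_of_nonneg_left this (by positivity)).trans ?_
  rw [← mul_assoc]
  refine mul_le_mul_of_nonneg_right ?_ f0
  rw [← mul_div_assoc, div_le_iff₀ hM]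
  linarith

/-- one pair of frequencies -/
theorem core {p₁ p₂ B₁ B₂ δ ω : ℝ} (hp : 1 ≤ p) (h₁ : 0 < p₁) (h₂ : 0 < p₂)
    (e : p₁⁻¹ + p₂⁻¹ = p⁻¹) {φ ψ : ZMod M → ℂ} {u : ℕ → ℂ} {s₁ s₂ : ℕ → ZMod M}
    {a₁ a₂ : ℕ → ZMod M → ZMod M} {N N₀ R₁ R₂ : ℕ} (hN : 1 ≤ N₀) (hu : ∀ n, ‖u n‖ ≤ 1)
    (hω : ∀ n, ‖av N₀ (fun m => u (n + m)) - av N₀ u‖ ≤ ω) (b1 : lp p₁ φ ≤ B₁) (b2 : lp p₂ ψ ≤ B₂)
    (d1 : Slow p₁ R₁ φ (δ * B₁)) (d2 : Slow p₂ R₂ ψ (δ * B₂)) (δ0 : 0 ≤ δ) (δ1 : δ ≤ 1)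
    (hs₁ : ∀ n < N, ∀ m < N₀, ab (s₁ (n + m) - s₁ n) ≤ R₁)
    (hs₂ : ∀ n < N, ∀ m < N₀, ab (s₂ (n + m) - s₂ n) ≤ R₂)
    (ha₁ : ∀ m < N₀, ∀ x, ab (a₁ m x) ≤ R₁) (ha₂ : ∀ m < N₀, ∀ x, ab (a₂ m x) ≤ R₂) :
    lp p (fun x => av N (fun n => u n * (φ (x + s₁ n) * ψ (x + s₂ n))) -
      av N fun n => av N₀ fun m => u m * (φ (x + s₁ n + a₁ m x) * ψ (x + s₂ n + a₂ m x))) ≤
      (2 * (N₀ / N) + 6 * δ + ω) * (B₁ * B₂) := by
  have p0 : 0 < p := by linarith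
  have B1 := (lp_nonneg _ _).trans b1
  have B2 := (lp_nonneg _ _).trans b2
  have B0 := mul_nonneg B1 B2
  have ω0 : 0 ≤ ω := (norm_nonneg _).trans (hω 0)
  have c1 : ∀ s, lp p₁ (fun x => φ (x + s)) ≤ B₁ := fun s => (lp_shift φ s).trans_le b1
  have c2 : ∀ s, lp p₂ (fun x => ψ (x + s)) ≤ B₂ := fun s => (lp_shift ψ s).trans_le b2
  have hF : ∀ n, lp p (fun x => φ (x + s₁ n) * ψ (x + s₂ n)) ≤ B₁ * B₂ := fun n =>
    (lp_mul_le h₁ h₂ e fun x => (norm_mul _ _).le).trans (mul_le_mul (c1 _) (c2 _)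
      (lp_nonneg _ _) B1)
  have um : ∀ (c : ℂ) (w : ℝ) (F G : ZMod M → ℂ) (B : ℝ), ‖c‖ ≤ w → lp p (fun x => F x - G x) ≤ B →
      lp p (fun x => c * F x - c * G x) ≤ w * B := fun c w F G B hc h => by
    have w0 := (norm_nonneg _).trans hc
    refine (lp_le_mul p0 w0 (f := fun x => F x - G x) fun x => ?_).trans
      (mul_le_mul_of_nonneg_left h w0)
    rw [← mul_sub, norm_mul]
    exact mul_le_mul_of_nonneg_right hc (norm_nonneg _)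
  have t1 : lp p (fun x => av N (fun n => u n * (φ (x + s₁ n) * ψ (x + s₂ n))) -
      av N fun n => av N₀ fun m => u (n + m) * (φ (x + s₁ (n + m)) * ψ (x + s₂ (n + m)))) ≤
      2 * (N₀ / N) * (B₁ * B₂) := by
    have := lp_av_sub hp (N := N₀) (B := 2 * (N₀ / N) * (B₁ * B₂))
      (G := fun _ x => av N fun n => u n * (φ (x + s₁ n) * ψ (x + s₂ n)))
      (G' := fun m x => av N fun n => u (n + m) * (φ (x + s₁ (n + m)) * ψ (x + s₂ (n + m))))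
      (by positivity) fun m hm => (lp_shift_av hp
        (G := fun n x => u n * (φ (x + s₁ n) * ψ (x + s₂ n))) (B := B₁ * B₂) fun n =>
          (lp_mono p0 fun x => by
            rw [norm_mul]
            exact mul_le_of_le_one_left (norm_nonneg _) (hu n)).trans (hF n)).trans (by
          rw [mul_div_assoc]
          gcongr)
    simp only [av_const hN] at this
    refine le_trans (le_of_eq ?_) this
    congr 1
    funext x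
    rw [av_comm]
  have t2 : lp p (fun x =>
      (av N fun n => av N₀ fun m => u (n + m) * (φ (x + s₁ (n + m)) * ψ (x + s₂ (n + m)))) -
      av N fun n => av N₀ fun m => u (n + m) * (φ (x + s₁ n) * ψ (x + s₂ n))) ≤
      1 * (3 * δ * (B₁ * B₂)) :=
    lp_av_sub hp (by positivity) fun n hn => lp_av_sub hp (by positivity) fun m hm =>
      um _ _ _ _ _ (hu _) (lp_prod hp h₁ h₂ e (c1 _) (c2 _)
        (by simpa using d1 (s₁ n) (fun _ => s₁ (n + m) - s₁ n) fun _ => hs₁ n hn m hm)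
        (by simpa using d2 (s₂ n) (fun _ => s₂ (n + m) - s₂ n) fun _ => hs₂ n hn m hm) δ0 δ1)
  have t3 : lp p (fun x =>
      (av N fun n => av N₀ fun m => u (n + m) * (φ (x + s₁ n) * ψ (x + s₂ n))) -
      av N fun n => av N₀ fun m => u m * (φ (x + s₁ n) * ψ (x + s₂ n))) ≤ ω * (B₁ * B₂) := by
    refine lp_av_sub hp (by positivity) fun n _ => ?_
    refine (lp_le_mul p0 ω0 (f := fun x => φ (x + s₁ n) * ψ (x + s₂ n)) fun x => ?_).trans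
      (mul_le_mul_of_nonneg_left (hF n) ω0)
    rw [av_mul_right, av_mul_right, ← sub_mul, norm_mul]
    exact mul_le_mul_of_nonneg_right (hω n) (norm_nonneg _)
  have t4 : lp p (fun x =>
      (av N fun n => av N₀ fun m => u m * (φ (x + s₁ n) * ψ (x + s₂ n))) -
      av N fun n => av N₀ fun m => u m * (φ (x + s₁ n + a₁ m x) * ψ (x + s₂ n + a₂ m x))) ≤
      1 * (3 * δ * (B₁ * B₂)) :=
    lp_av_sub hp (by positivity) fun n _ => lp_av_sub hp (by positivity) fun m hm =>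
      um _ _ _ _ _ (hu _) ((lp_congr fun x => norm_sub_rev _ _).trans_le
        (lp_prod hp h₁ h₂ e (c1 _) (c2 _) (d1 _ _ (ha₁ m hm)) (d2 _ _ (ha₂ m hm)) δ0 δ1))
  refine (lp_tri hp _ _ _ (lp_tri hp _ _ _ (lp_tri hp _ _ _ t1 t2) t3) t4).trans (le_of_eq ?_)
  ring

omit [NeZero M] in
theorem pe_per (P : ℤ[X]) {q : ℕ} {θ : ZMod M} (h : (q : ZMod M) * θ = 0) (n k : ℕ) :
    θ * pe P (n + q * k) = θ * pe P n := by
  obtain ⟨c, hc⟩ := (Dvd.intro (k : ℤ) (by push_cast; ring)).trans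
    (Polynomial.sub_dvd_eval_sub ((n + q * k : ℕ) : ℤ) (n : ℤ) P : _ ∣ _) |>
      fun h : (q : ℤ) ∣ _ => h
  have : pe (M := M) P (n + q * k) - pe P n = (q : ZMod M) * (c : ZMod M) := by
    rw [pe, pe, ← Int.cast_sub, hc]; push_cast; rfl
  linear_combination θ * this + (c : ZMod M) * h

/-- the oscillating factor -/
def osc (P₁ P₂ : ℤ[X]) (θ₁ θ₂ : ZMod M) (n : ℕ) : ℂ := ch (θ₁ * pe P₁ n) * ch (θ₂ * pe P₂ n)

theorem norm_osc (P₁ P₂ : ℤ[X]) (θ₁ θ₂ : ZMod M) (n : ℕ) : ‖osc P₁ P₂ θ₁ θ₂ n‖ ≤ 1 := by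
  rw [osc, norm_mul, norm_ch, norm_ch, mul_one]

theorem osc_per (P₁ P₂ : ℤ[X]) {q : ℕ} {θ₁ θ₂ : ZMod M} (h1 : (q : ZMod M) * θ₁ = 0)
    (h2 : (q : ZMod M) * θ₂ = 0) (n k : ℕ) : osc P₁ P₂ θ₁ θ₂ (n + q * k) = osc P₁ P₂ θ₁ θ₂ n := by
  rw [osc, osc, pe_per P₁ h1, pe_per P₂ h2]

/-- the averages of the oscillating factors are almost invariant under shifts -/
def Osc (P₁ P₂ : ℤ[X]) (M : ℕ) [NeZero M] (H N₀ : ℕ) (ω : ℝ) : Prop :=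
  ∀ θ₁ ∈ Sg M H, ∀ θ₂ ∈ Sg M H, ∀ n,
    ‖av N₀ (fun m => osc P₁ P₂ θ₁ θ₂ (n + m)) - av N₀ (osc P₁ P₂ θ₁ θ₂)‖ ≤ ω

theorem osc_small (P₁ P₂ : ℤ[X]) (H N₀ : ℕ) : Osc P₁ P₂ M H N₀ (2 * H ^ 2 / N₀) := by
  intro θ₁ h1 θ₂ h2 n
  obtain ⟨q₁, a1, b1, c1⟩ := mem_Sg.1 h1
  obtain ⟨q₂, a2, b2, c2⟩ := mem_Sg.1 h2
  have e : (fun m => osc P₁ P₂ θ₁ θ₂ (n + m)) = fun m => osc P₁ P₂ θ₁ θ₂ (m + n % (q₁ * q₂)) :=
    funext fun m => by
      rw [← osc_per P₁ P₂ (q := q₁ * q₂) (by push_cast; linear_combination (q₂ : ZMod M) * c1)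
        (by push_cast; linear_combination (q₁ : ZMod M) * c2) (m + _) (n / (q₁ * q₂)), add_assoc,
        Nat.mod_add_div, add_comm]
  have r : ((n % (q₁ * q₂) : ℕ) : ℝ) ≤ H ^ 2 := by
    have := (Nat.mod_lt n (Nat.mul_pos a1 a2)).le.trans (Nat.mul_le_mul b1 b2)
    rw [sq]; exact_mod_cast this
  rw [e, av_shift, norm_smul, norm_inv, Real.norm_natCast, mul_comm, ← div_eq_mul_inv]
  refine div_le_div_of_nonneg_right ((norm_sum_le _ _).trans ((sum_le_card_nsmul _ _ 2 fun j _ =>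
    (norm_sub_le _ _).trans ?_).trans ?_)) (Nat.cast_nonneg _)
  · linarith [norm_osc P₁ P₂ θ₁ θ₂ (N₀ + j), norm_osc P₁ P₂ θ₁ θ₂ j]
  · rw [card_range, nsmul_eq_mul]
    linarith

theorem osc_large (P₁ P₂ : ℤ[X]) {M' Q h N₀ : ℕ} (H : Large M M' Q h N₀) :
    Osc P₁ P₂ M (2 ^ h) N₀ 0 := by
  intro θ₁ h1 θ₂ h2 n
  obtain ⟨k, hk⟩ := H.dvd
  simp only [add_comm n]
  rw [av_shift, sum_eq_zero, smul_zero, norm_zero]
  intro j _
  rw [add_comm, hk, osc_per P₁ P₂ (H.per _ h1) (H.per _ h2), sub_self]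

/-- the general model at one scale -/
def GM (P₁ P₂ : ℤ[X]) (N N₀ K₁ K₂ : ℕ) (A₁ A₂ : Finset (ZMod M)) (f g : ZMod M → ℂ)
    (a₁ a₂ : ℕ → ZMod M → ZMod M) (x : ZMod M) : ℂ :=
  av N fun n => av N₀ fun m =>
    (∑ θ ∈ A₁, ch (θ * (x + pe P₁ m)) * amp K₁ f θ (x + pe P₁ n + a₁ m x)) *
      ∑ θ ∈ A₂, ch (θ * (x + pe P₂ m)) * amp K₂ g θ (x + pe P₂ n + a₂ m x)

theorem expand (P₁ P₂ : ℤ[X]) (A₁ A₂ : Finset (ZMod M)) (α β : ZMod M → ℂ) (x : ZMod M) (m : ℕ) :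
    (∑ θ ∈ A₁, ch (θ * (x + pe P₁ m)) * α θ) * ∑ θ ∈ A₂, ch (θ * (x + pe P₂ m)) * β θ =
      ∑ θ ∈ A₁ ×ˢ A₂, ch (θ.1 * x) * ch (θ.2 * x) * (osc P₁ P₂ θ.1 θ.2 m * (α θ.1 * β θ.2)) := by
  rw [sum_mul_sum, sum_product]
  refine sum_congr rfl fun θ₁ _ => sum_congr rfl fun θ₂ _ => ?_
  simp only [mul_add, ch_add, osc]
  ring

theorem scale {P₁ P₂ : ℤ[X]} {p₁ p₂ δ ω : ℝ} (hp : 1 ≤ p) (h₁ : 0 < p₁) (h₂ : 0 < p₂)
    (e : p₁⁻¹ + p₂⁻¹ = p⁻¹) {N N₀ K₁ K₂ R₁ R₂ H : ℕ} {A₁ A₂ : Finset (ZMod M)} (f g : ZMod M → ℂ)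
    {a₁ a₂ : ℕ → ZMod M → ZMod M} (hN : 1 ≤ N₀) (hA₁ : A₁ ⊆ Sg M H) (hA₂ : A₂ ⊆ Sg M H)
    (hω : Osc P₁ P₂ M H N₀ ω) (ω0 : 0 ≤ ω) (k1 : 1 ≤ K₁) (k2 : 1 ≤ K₂) (m1 : 2 * K₁ ≤ M)
    (m2 : 2 * K₂ ≤ M) (d1 : 28 * (K₁ * R₁) ≤ δ * M) (d2 : 28 * (K₂ * R₂) ≤ δ * M) (δ0 : 0 ≤ δ)
    (δ1 : δ ≤ 1) (hs₁ : ∀ n < N, ∀ m < N₀, ab (pe P₁ (n + m) - pe P₁ n : ZMod M) ≤ R₁)
    (hs₂ : ∀ n < N, ∀ m < N₀, ab (pe P₂ (n + m) - pe P₂ n : ZMod M) ≤ R₂)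
    (ha₁ : ∀ m < N₀, ∀ x, ab (a₁ m x) ≤ R₁) (ha₂ : ∀ m < N₀, ∀ x, ab (a₂ m x) ≤ R₂) :
    lp p (fun x => av N (fun n =>
      (∑ θ ∈ A₁, ch (θ * (x + pe P₁ n)) * amp K₁ f θ (x + pe P₁ n)) *
        ∑ θ ∈ A₂, ch (θ * (x + pe P₂ n)) * amp K₂ g θ (x + pe P₂ n)) -
      GM P₁ P₂ N N₀ K₁ K₂ A₁ A₂ f g a₁ a₂ x) ≤
      (H : ℝ) ^ 4 * ((2 * (N₀ / N) + 6 * δ + ω) * (lp p₁ f * lp p₂ g)) := by
  have q : ∀ {a b : ℝ}, 0 < a → 0 < b → a⁻¹ + b⁻¹ = p⁻¹ → 1 ≤ a := fun {a b} ha hb e => by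
    have := inv_pos.2 hb
    have := inv_le_one_of_one_le₀ hp
    exact (inv_le_one₀ ha).1 (by linarith)
  have q1 := q h₁ h₂ e
  have q2 := q h₂ h₁ (by linarith)
  have f0 := lp_nonneg p₁ f
  have g0 := lp_nonneg p₂ g
  simp only [GM, expand, av_sum, av_mul_left, ← sum_sub_distrib, ← mul_sub]
  refine (lp_sum_le hp _ _).trans ((sum_le_card_nsmul _ _
    ((2 * (N₀ / N) + 6 * δ + ω) * (lp p₁ f * lp p₂ g)) fun θ hθ => ?_).trans ?_)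
  · obtain ⟨t1, t2⟩ := mem_product.1 hθ
    refine (lp_congr fun x => ?_).trans_le (core hp h₁ h₂ e (u := osc P₁ P₂ θ.1 θ.2)
      (s₁ := pe P₁) (s₂ := pe P₂) hN (norm_osc _ _ _ _) (hω _ (hA₁ t1) _ (hA₂ t2))
      (lp_amp q1 k1 m1 f θ.1) (lp_amp q2 k2 m2 g θ.2) (slow_amp q1 k1 m1 f θ.1 d1)
      (slow_amp q2 k2 m2 g θ.2 d2) δ0 δ1 hs₁ hs₂ ha₁ ha₂)
    rw [norm_mul, norm_mul, norm_ch, norm_ch, one_mul, one_mul]
  · rw [nsmul_eq_mul, card_product]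
    refine mul_le_mul_of_nonneg_right ?_ (by positivity)
    have := Nat.mul_le_mul ((card_le_card hA₁).trans (card_Sg H)) ((card_le_card hA₂).trans (card_Sg H))
    rw [← pow_add] at this
    exact_mod_cast this

theorem Ad_fm {i₀ i₁ i : ℕ} (hi : i ∈ Ico i₀ i₁) (A : Finset (ZMod M)) (K : ℕ → ℕ) (s : ℕ → ZMod M)
    (f : ZMod M → ℂ) (x y : ZMod M) :
    Ad A (fm i₀ i₁ K s i) f x y = ∑ θ ∈ A, ch (θ * y) * amp (K i) f θ (x + s i) := by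
  rw [Ad_eq]
  simp only [fm, if_pos hi, amp, conv, cx, add_sub_right_comm]

omit [NeZero M] in
theorem sum_lac {c L i₀ i₁ h N₀ : ℕ} {N : ℕ → ℕ} (H : Par c M L i₀ i₁ h N₀ N) :
    ∑ i ∈ Ico i₀ i₁, (N₀ : ℝ) / N i ≤ 2 * L * ((2 : ℝ) ^ (c * h))⁻¹ := by
  have L0 := H.one
  have g : ∀ k i, 2 ^ k * N i ≤ N (i + L * k) := fun k i => by
    induction k with
    | zero => simp
    | succ k ih =>
      rw [pow_succ', mul_assoc, Nat.mul_succ, ← add_assoc]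
      exact (Nat.mul_le_mul_left _ ih).trans (H.lac _)
  have b : ∀ j, (N₀ : ℝ) / N (i₀ + j) ≤ ((2 : ℝ) ^ (c * h))⁻¹ * (1 / 2) ^ (j / L) := fun j => by
    have a1 : 2 ^ (j / L) * (2 ^ (c * h) * N₀) ≤ N (i₀ + j) :=
      ((Nat.mul_le_mul_left _ (H.big _ H.mem₀)).trans (g _ _)).trans
        (H.mono (Nat.add_le_add_left (Nat.mul_div_le j L) _))
    have a2 : (2 : ℝ) ^ (j / L) * (2 ^ (c * h) * N₀) ≤ N (i₀ + j) := by exact_mod_cast a1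
    have a3 : (0 : ℝ) < N₀ := by exact_mod_cast H.N₀_pos
    refine (div_le_div_of_nonneg_left a3.le (by positivity) a2).trans (le_of_eq ?_)
    rw [one_div, inv_pow]
    field_simp
  have s : ∀ n : ℕ, ∑ j ∈ range (L * n), (1 / 2 : ℝ) ^ (j / L) = L * ∑ k ∈ range n, (1 / 2) ^ k := by
    intro n
    induction n with
    | zero => simp
    | succ n ih =>
      rw [Nat.mul_succ, sum_range_add, ih, sum_range_succ, mul_add]
      congr 1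
      rw [sum_congr rfl (g := fun _ => (1 / 2 : ℝ) ^ n), sum_const, card_range, nsmul_eq_mul]
      intro x hx
      rw [add_comm, Nat.add_mul_div_left _ _ L0, Nat.div_eq_of_lt (mem_range.1 hx), zero_add]
  rw [sum_Ico_eq_sum_range]
  refine (sum_le_sum fun j _ => b j).trans ?_
  rw [← mul_sum, mul_comm]
  refine mul_le_mul_of_nonneg_right ((sum_le_sum_of_subset_of_nonneg (range_subset_range.2
    (Nat.le_mul_of_pos_left (i₁ - i₀) L0)) fun _ _ _ => by positivity).trans ?_) (by positivity)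
  rw [s, mul_comm]
  exact mul_le_mul_of_nonneg_right (sum_geometric_two_le _) (Nat.cast_nonneg _)

/-- growth of a polynomial -/
def Sl (P : ℤ[X]) (k : ℕ) : Prop :=
  (∀ n N : ℕ, n < N → (P.eval (n : ℤ)).natAbs ≤ 2 ^ k * N ^ P.natDegree) ∧
    ∀ n m N N₀ : ℕ, n < N → m < N₀ → N₀ ≤ N →
      (P.eval ((n + m : ℕ) : ℤ) - P.eval (n : ℤ)).natAbs ≤ 2 ^ k * N ^ (P.natDegree - 1) * N₀

theorem Sl.mono {P : ℤ[X]} {k l : ℕ} (h : Sl P k) (e : k ≤ l) : Sl P l :=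
  have := Nat.pow_le_pow_right two_pos e
  ⟨fun n N a => (h.1 n N a).trans (by gcongr), fun n m N N₀ a b c =>
    (h.2 n m N N₀ a b c).trans (by gcongr)⟩

theorem sl_two {P₁ P₂ : ℤ[X]} (h1 : 1 ≤ P₁.natDegree) (h2 : 1 ≤ P₂.natDegree) :
    ∃ k, Sl P₁ k ∧ Sl P₂ k := by
  obtain ⟨a, ha⟩ := slot P₁ h1
  obtain ⟨b, hb⟩ := slot P₂ h2
  exact ⟨a + b, Sl.mono ha (by omega), Sl.mono hb (by omega)⟩

section par

variable {P P₁ P₂ : ℤ[X]} {k c L i₀ i₁ h N₀ i : ℕ} {N K K₁ K₂ : ℕ → ℕ}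

theorem slot_facts (H : Par c M L i₀ i₁ h N₀ N) (hc : k + 9 ≤ c) (d : 1 ≤ P.natDegree) (s : Sl P k)
    (hK : KF M i₀ i₁ h P.natDegree N K) (hi : i ∈ Ico i₀ i₁) : 1 ≤ K i ∧ 2 * K i ≤ M ∧
      28 * ((K i : ℝ) * (2 ^ k * N i ^ (P.natDegree - 1) * N₀ : ℕ)) ≤
        28 * 2 ^ (h + k) * ((N₀ : ℝ) / N i) * M ∧
      ∀ n < N i, ∀ m < N₀,
        ab (pe P (n + m) - pe P n : ZMod M) ≤ 2 ^ k * N i ^ (P.natDegree - 1) * N₀ := by
  refine ⟨hK.pos hi, ?_, ?_, fun n hn m hm => ?_⟩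
  · have a1 := hK.small H d hi (k := 1) (by omega)
    have := H.N₀_pos
    have : 2 ^ 1 ≤ 2 ^ (1 * h) := Nat.pow_le_pow_right two_pos (by have := H.hpos; omega)
    nlinarith [Nat.mul_le_mul_left (K i) (show 2 ≤ 2 ^ (1 * h) * N₀ by nlinarith)]
  · have a1 : (K i : ℝ) * (N i ^ (P.natDegree - 1) * N i) ≤ 2 ^ h * M := by
      rw [← pow_succ, Nat.sub_add_cancel d]
      exact_mod_cast hK.le hi
    have a2 : (0 : ℝ) < N i := by exact_mod_cast H.N_pos hi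
    rw [← mul_div_assoc, div_mul_eq_mul_div, le_div_iff₀ a2]
    push_cast
    rw [pow_add]
    nlinarith [mul_le_mul_of_nonneg_left a1 (show (0 : ℝ) ≤ 2 ^ k * N₀ by positivity)]
  · rw [pe, pe, ← Int.cast_sub]
    exact (ab_intCast_le _).trans (s.2 n m _ _ hn hm (H.N₀_le hi))

theorem par_scale {p₁ p₂ ω : ℝ} (hp : 1 ≤ p) (h₁ : 0 < p₁) (h₂ : 0 < p₂) (e : p₁⁻¹ + p₂⁻¹ = p⁻¹)
    (H : Par c M L i₀ i₁ h N₀ N) (hc : k + 9 ≤ c) (d₁ : 1 ≤ P₁.natDegree) (d₂ : 1 ≤ P₂.natDegree)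
    (s₁ : Sl P₁ k) (s₂ : Sl P₂ k) (hK₁ : KF M i₀ i₁ h P₁.natDegree N K₁)
    (hK₂ : KF M i₀ i₁ h P₂.natDegree N K₂) {A₁ A₂ : Finset (ZMod M)} (hA₁ : A₁ ⊆ Sg M (2 ^ h))
    (hA₂ : A₂ ⊆ Sg M (2 ^ h)) (hω : Osc P₁ P₂ M (2 ^ h) N₀ ω) (ω0 : 0 ≤ ω) (f g : ZMod M → ℂ)
    (hi : i ∈ Ico i₀ i₁) {a₁ a₂ : ℕ → ZMod M → ZMod M}
    (ha₁ : ∀ m < N₀, ∀ x, ab (a₁ m x) ≤ 2 ^ k * N i ^ (P₁.natDegree - 1) * N₀)
    (ha₂ : ∀ m < N₀, ∀ x, ab (a₂ m x) ≤ 2 ^ k * N i ^ (P₂.natDegree - 1) * N₀) :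
    lp p (fun x => AC P₁ P₂ i₀ i₁ N A₁ A₂ K₁ K₂ f g i x -
      GM P₁ P₂ (N i) N₀ (K₁ i) (K₂ i) A₁ A₂ f g a₁ a₂ x) ≤
      ((2 : ℝ) ^ h) ^ 4 * ((170 * 2 ^ (h + k) * ((N₀ : ℝ) / N i) + ω) * (lp p₁ f * lp p₂ g)) := by
  obtain ⟨a1, a2, a3, a4⟩ := slot_facts H hc d₁ s₁ hK₁ hi
  obtain ⟨b1, b2, b3, b4⟩ := slot_facts H hc d₂ s₂ hK₂ hi
  have n0 : (0 : ℝ) < N i := by exact_mod_cast H.N_pos hi
  have δ1 : 28 * 2 ^ (h + k) * ((N₀ : ℝ) / N i) ≤ 1 := by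
    rw [← mul_div_assoc, div_le_one n0]
    have : 28 * 2 ^ (h + k) * N₀ ≤ N i := by
      refine le_trans (Nat.mul_le_mul_right _ ?_) (H.big i hi)
      have := H.hpos
      calc 28 * 2 ^ (h + k) ≤ 2 ^ 5 * 2 ^ (h + k) := Nat.mul_le_mul_right _ (by norm_num)
        _ = 2 ^ (5 + (h + k)) := (pow_add _ _ _).symm
        _ ≤ _ := Nat.pow_le_pow_right two_pos (by nlinarith)
    exact_mod_cast this
  have := scale hp h₁ h₂ e f g H.N₀_pos hA₁ hA₂ hω ω0 a1 b1 a2 b2 a3 b3 (by positivity) δ1 a4 b4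
    ha₁ ha₂
  simp only [AC, AA, TT, Ad_fm hi, Pi.zero_apply, add_zero]
  refine this.trans ?_
  have f0 := mul_nonneg (lp_nonneg p₁ f) (lp_nonneg p₂ g)
  have o : (1 : ℝ) ≤ 2 ^ (h + k) := one_le_pow₀ one_le_two
  push_cast
  refine mul_le_mul_of_nonneg_left (mul_le_mul_of_nonneg_right ?_ f0) (by positivity)
  nlinarith [mul_le_mul_of_nonneg_right o (show 0 ≤ (N₀ : ℝ) / N i by positivity)]

omit [NeZero M] in
theorem N_dvd (H : Par c M L i₀ i₁ h N₀ N) (hc : 1 ≤ c) (hi : i ∈ Ico i₀ i₁) : N i ∣ M := by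
  obtain ⟨b, _, b2, b3⟩ := H.dv
  exact b3 _ (H.N_pos hi) ((b2 i hi).trans
    (Nat.pow_le_pow_right two_pos (Nat.le_mul_of_pos_right _ hc)))

omit [NeZero M] in
theorem total (H : Par c M L i₀ i₁ h N₀ N) (hc : k + 9 ≤ c) {ω W B : ℝ} {E : ℕ → ℝ} (B0 : 0 ≤ B)
    (hW : ((2 : ℝ) ^ h) ^ 5 * ((Ico i₀ i₁).card * ω) ≤ W)
    (hE : ∀ i ∈ Ico i₀ i₁,
      E i ≤ ((2 : ℝ) ^ h) ^ 4 * ((170 * 2 ^ (h + k) * ((N₀ : ℝ) / N i) + ω) * B)) :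
    ∑ i ∈ Ico i₀ i₁, E i ≤ (340 * L * 2 ^ k + W) * (2 ^ h)⁻¹ * B := by
  refine (sum_le_sum hE).trans ?_
  rw [← mul_sum, ← sum_mul, sum_add_distrib, ← mul_sum, sum_const, nsmul_eq_mul, ← mul_assoc]
  refine mul_le_mul_of_nonneg_right ?_ B0
  have a0 : (0 : ℝ) < 2 ^ h := by positivity
  have a1 := sum_lac H
  have a2 : ((2 : ℝ) ^ h) ^ 6 * (2 ^ (c * h))⁻¹ ≤ 1 := by
    rw [← div_eq_mul_inv, div_le_one (by positivity), ← pow_mul, mul_comm]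
    exact pow_le_pow_right₀ one_le_two (Nat.mul_le_mul_right _ (by omega))
  rw [← div_eq_mul_inv, le_div_iff₀ a0, pow_add]
  nlinarith [mul_le_mul_of_nonneg_left a1 (show 0 ≤ 170 * 2 ^ k * ((2 : ℝ) ^ h) ^ 6 by positivity),
    mul_le_mul_of_nonneg_left a2 (show 0 ≤ 340 * (L : ℝ) * 2 ^ k by positivity)]

end par

end Apx

open Apx

theorem stErrS : StErrS := by
  intro P₁ P₂ d₁ d₂
  obtain ⟨k, s₁, s₂⟩ := sl_two d₁ d₂
  refine ⟨k + 9, fun L L' => ⟨340 * L * 2 ^ k + (2 * L' + 1), by positivity, ?_⟩⟩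
  intro p₁ p₂ p M _ i₀ i₁ h N₀ N K₁ K₂ A₁ A₂ f g h₁ h₂ hp e H R hK₁ hK₂ hA₁ hA₂
  obtain ⟨ω, ω0, hω, hW⟩ : ∃ ω : ℝ, 0 ≤ ω ∧ Osc P₁ P₂ M (2 ^ h) N₀ ω ∧
      ((2 : ℝ) ^ h) ^ 5 * ((Ico i₀ i₁).card * ω) ≤ 2 * L' + 1 := by
    rcases R with R | ⟨M', Q, R⟩
    · refine ⟨_, by positivity, osc_small P₁ P₂ _ _, ?_⟩
      have a1 : ((Ico i₀ i₁).card : ℝ) ≤ L' * (2 ^ h) ^ 2 := by
        have : (Ico i₀ i₁).card ≤ L' * (2 ^ h) ^ 2 := by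
          rw [Nat.card_Ico, ← pow_mul, mul_comm h, pow_mul, show 2 ^ 2 = 4 from rfl]; omega
        exact_mod_cast this
      have a2 : ((2 : ℝ) ^ h) ^ 9 ≤ N₀ := by
        have : (2 ^ h) ^ 9 ≤ N₀ := by
          rw [← pow_mul, mul_comm]
          exact (Nat.pow_le_pow_right two_pos (Nat.mul_le_mul_right _ (by omega))).trans H.low
        exact_mod_cast this
      have a3 : (0 : ℝ) < N₀ := lt_of_lt_of_le (by positivity) a2
      rw [← mul_div_assoc, ← mul_div_assoc, div_le_iff₀ a3]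
      push_cast
      nlinarith [mul_le_mul_of_nonneg_left a1 (show 0 ≤ 2 * ((2 : ℝ) ^ h) ^ 7 by positivity),
        mul_le_mul_of_nonneg_left a2 (show 0 ≤ 2 * (L' : ℝ) by positivity)]
    · exact ⟨0, le_rfl, osc_large P₁ P₂ R, by simp; positivity⟩
  rw [mul_assoc _ (lp p₁ f)]
  refine total H le_rfl (mul_nonneg (lp_nonneg _ _) (lp_nonneg _ _)) hW fun i hi => ?_
  have a : ∀ {P : ℤ[X]}, 1 ≤ P.natDegree → Sl P k → ∀ m < N₀, ∀ _ : ZMod M,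
      ab (pe P m : ZMod M) ≤ 2 ^ k * N i ^ (P.natDegree - 1) * N₀ := fun {P} d s m hm _ => by
    refine (ab_intCast_le _).trans ((s.1 m N₀ hm).trans ?_)
    rw [mul_assoc, ← Nat.sub_add_cancel d, pow_succ, Nat.add_sub_cancel]
    have := H.N₀_le hi
    gcongr
  refine le_trans (le_of_eq ?_) (par_scale hp h₁ h₂ e H le_rfl d₁ d₂ s₁ s₂ hK₁ hK₂ hA₁ hA₂ hω ω0 f g
    hi (a₁ := fun m _ => pe P₁ m) (a₂ := fun m _ => pe P₂ m) (a d₁ s₁) (a d₂ s₂))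
  congr 1
  funext x
  rw [GM, ← av_tau (NeZero.pos M) (N_dvd H (by omega) hi)]
  simp only [MS, AA, TT, Ad_fm hi, sh, add_right_comm x]

theorem stErrL : StErrL := by
  intro P₁ P₂ d₁ d₂
  obtain ⟨k, s₁, s₂⟩ := sl_two d₁ d₂
  refine ⟨k + 9, fun L => ⟨340 * L * 2 ^ k + 1, by positivity, ?_⟩⟩
  intro p₁ p₂ p M _ M' Q i₀ i₁ h N₀ N K₁ K₂ A₁ A₂ f g h₁ h₂ hp e H R hK₁ hK₂ hA₁ hA₂
  have f0 := mul_nonneg (lp_nonneg p₁ f) (lp_nonneg p₂ g)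
  rw [mul_assoc _ (lp p₁ f)]
  refine total H le_rfl f0 (ω := 0) (by simp) fun i hi => ?_
  have Q1 : 1 ≤ Q := Nat.pos_of_dvd_of_pos R.dvd H.N₀_pos
  have Q2 : Q ≤ N₀ := Nat.le_of_dvd H.N₀_pos R.dvd
  have a : ∀ ρ < Q, ∀ d, ∀ m < N₀, ∀ x : ZMod M,
      ab ((ρ : ZMod M) - ((x.val % Q : ℕ) : ZMod M)) ≤ 2 ^ k * N i ^ d * N₀ := fun ρ hρ d _ _ x => by
    have := ab_intCast_le (M := M) ((ρ : ℤ) - (x.val % Q : ℕ))
    rw [Int.cast_sub, Int.cast_natCast, Int.cast_natCast] at this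
    have b := Nat.mod_lt x.val Q1
    have := H.N_pos hi
    exact le_trans (by omega) (Nat.le_mul_of_pos_left N₀ (by positivity))
  have := lp_av_sub hp (N := Q) (by positivity) fun ρ hρ =>
    par_scale hp h₁ h₂ e H le_rfl d₁ d₂ s₁ s₂ hK₁ hK₂ hA₁ hA₂ (osc_large P₁ P₂ R) le_rfl f g
      hi (a ρ hρ _) (a ρ hρ _)
  refine le_trans (le_of_eq ?_) this
  congr 1
  funext x
  rw [av_const Q1, ML, av_comm]
  congr 1
  refine av_congr fun ρ _ => ?_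
  rw [GM, ← av_tau (NeZero.pos M) (N_dvd H (by omega) hi)]
  have b : ∀ s : ZMod M, bp Q ρ x + s = x + s + ((ρ : ZMod M) - ((x.val % Q : ℕ) : ZMod M)) := fun s => by
    rw [bp]; ring
  simp only [AA, Ad_fm hi, sh, b]

end

end Pool.Agent.Lib.MP_10e396_an
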