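import Pool.Agent.Lib.MP_10e396_an.ND

/-! Abstract lemmas for the assembly of the pieces. -/

set_option autoImplicit false

namespace Pool.Agent.Lib.MP_10e396_an

open Finset Polynomial ND

noncomputable section

namespace Asm

theorem exps {p₁ p₂ p : ℝ} (h₁ : 1 < p₁) (h₂ : 1 < p₂) (hp : 1 ≤ p) (hpp : p₁⁻¹ + p₂⁻¹ = p⁻¹) :
    ∃ θ q₁ q₂ q : ℝ, 0 < θ ∧ θ < 1 ∧ 1 < q₁ ∧ 1 < q₂ ∧ 1 ≤ q ∧ q₁⁻¹ + q₂⁻¹ = q⁻¹ ∧
      p₁⁻¹ = (1 - θ) * 2⁻¹ + θ * q₁⁻¹ ∧ p₂⁻¹ = (1 - θ) * 2⁻¹ + θ * q₂⁻¹ ∧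
      θ * (1 - q⁻¹) = 1 - p⁻¹ ∧ 1 - p⁻¹ < θ * (1 - q₂⁻¹) ∧ θ * (1 - q₂⁻¹) < 1 := by
  have a1 : 0 < p₁⁻¹ := by positivity
  have a2 : 0 < p₂⁻¹ := by positivity
  have b1 := inv_lt_one_of_one_lt₀ h₁
  have b2 := inv_lt_one_of_one_lt₀ h₂
  have b3 := inv_le_one_of_one_le₀ hp
  generalize p₁⁻¹ = α₁ at *
  generalize p₂⁻¹ = α₂ at *
  generalize p⁻¹ = α at *
  set m := max |1 - 2 * α₁| |1 - 2 * α₂| with hm
  have m1 : |1 - 2 * α₁| ≤ m := le_max_left _ _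
  have m2 : |1 - 2 * α₂| ≤ m := le_max_right _ _
  have m3 : m < 1 := max_lt (abs_lt.2 ⟨by linarith, by linarith⟩) (abs_lt.2 ⟨by linarith, by linarith⟩)
  have m0 : 0 ≤ m := (abs_nonneg _).trans m1
  obtain ⟨c1, c2⟩ := abs_le.1 m1
  obtain ⟨c3, c4⟩ := abs_le.1 m2
  set θ := (1 + m) / 2 with hθ
  have t0 : 0 < θ := by linarith
  set β₁ := (α₁ - (1 - θ) / 2) / θ with hβ₁
  set β₂ := (α₂ - (1 - θ) / 2) / θ with hβ₂
  have e1 : θ * β₁ = α₁ - (1 - θ) / 2 := mul_div_cancel₀ _ t0.ne'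
  have e2 : θ * β₂ = α₂ - (1 - θ) / 2 := mul_div_cancel₀ _ t0.ne'
  have u1 : 0 < β₁ := div_pos (by linarith) t0
  have u2 : 0 < β₂ := div_pos (by linarith) t0
  have v1 : β₁ < 1 := (div_lt_one t0).2 (by linarith)
  have v2 : β₂ < 1 := (div_lt_one t0).2 (by linarith)
  have v3 : β₁ + β₂ ≤ 1 := by
    rw [hβ₁, hβ₂, ← add_div, div_le_one t0]; linarith
  refine ⟨θ, β₁⁻¹, β₂⁻¹, (β₁ + β₂)⁻¹, t0, by linarith, (one_lt_inv₀ u1).2 v1,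
    (one_lt_inv₀ u2).2 v2, (one_le_inv₀ (by linarith)).2 v3, ?_⟩
  simp only [inv_inv]
  have := mul_pos t0 u1
  have := mul_pos t0 u2
  refine ⟨trivial, by linarith, by linarith, by linarith, by linarith, by linarith⟩

section abs

variable {X X' Y : Type} [Fintype X] [Fintype X'] [Fintype Y] {p : ℝ}

theorem lp_err (hp : 1 ≤ p) (I : Finset ℕ) (b : ℕ → X → ℂ) :
    lp p (fun x => 2 * ∑ i ∈ I, ‖b i x‖) ≤ 2 * ∑ i ∈ I, lp p (b i) := by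
  refine (lp_le_mul (by linarith) two_pos.le (f := fun x => ∑ i ∈ I, ‖b i x‖)
    fun x => by rw [norm_mul]; simp).trans (mul_le_mul_of_nonneg_left ?_ two_pos.le)
  simpa only [lp_norm] using lp_sum_le hp I fun i x => ‖b i x‖

theorem JB_err (hp : 1 ≤ p) {I : Finset ℕ} {b : ℕ → X → ℂ} (h0 : ∀ i x, i ∉ I → b i x = 0) {E : ℝ}
    (h : ∑ i ∈ I, lp p (b i) ≤ E) : JB p b (4 * E) :=
  JB_mono (JB_of_Wb hp fun x => wb_l1 _ I fun i hi => h0 i x hi) (by linarith [lp_err hp I b])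

theorem DB_err (e : X' × Y ≃ X) {I : Finset ℕ} {b : ℕ → X → ℂ} (h0 : ∀ i x, i ∉ I → b i x = 0)
    {E : ℝ} (h : ∑ i ∈ I, lp 1 (b i) ≤ E) : DB e 0 0 b (2 * E) :=
  DB_mono (DB_zero fun x => wb_l1 _ I fun i hi => h0 i x hi) (by linarith [lp_err le_rfl I b])

theorem DB_sq (e : X' × Y ≃ X) {I : Finset ℕ} {b : ℕ → X → ℂ} (h0 : ∀ i x, i ∉ I → b i x = 0)
    {E : ℝ} (h : lp 1 (fun x => √(∑ i ∈ I, ‖b i x‖ ^ 2)) ≤ E) : DB e 0 0 b (2 * E) := by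
  refine DB_mono (DB_zero fun x => Mart.wb_sq _ I fun i hi => h0 i x hi) ?_
  refine (lp_le_mul one_pos two_pos.le (f := fun x => √(∑ i ∈ I, ‖b i x‖ ^ 2))
    fun x => by rw [norm_mul]; simp).trans (by linarith)

theorem JB_congr {a b : ℕ → X → ℂ} {B : ℝ} (h : JB p a B) (e : ∀ i x, b i x = a i x) :
    JB p b B := by
  obtain rfl : b = a := by funext i x; exact e i x
  exact h

omit [Fintype X] in
theorem DB_congr {e : X' × Y ≃ X} {γ β : ℝ} {a b : ℕ → X → ℂ} {B : ℝ} (h : DB e γ β a B)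
    (h' : ∀ i x, b i x = a i x) : DB e γ β b B := by
  obtain rfl : b = a := by funext i x; exact h' i x
  exact h

theorem base_abs (e : X' × Y ≃ X) (hp : 1 ≤ p) {β CJ : ℝ}
    (hJ : ∀ (a : ℕ → X → ℂ) (B : ℝ), 0 ≤ B → DB e (1 - p⁻¹) β a B → JB p a (CJ * B))
    {I : Finset ℕ} {a m : ℕ → X → ℂ} (h0 : ∀ i x, i ∉ I → a i x - m i x = 0) {B E : ℝ} (hB : 0 ≤ B)
    (hm : DB e (1 - p⁻¹) β m B) (he : ∑ i ∈ I, lp p (fun x => a i x - m i x) ≤ E) :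
    JB p a (2 * (CJ * B) + 2 * (4 * E)) :=
  JB_congr (JB_add hp (hJ m B hB hm) (JB_err hp h0 he)) fun i x => by ring

theorem piece_abs (e : X' × Y ≃ X) (hp : 1 ≤ p) {p₁ p₂ θ q₁ q₂ γ β CJ E B : ℝ} (hq₁ : 1 ≤ q₁)
    (hq₂ : 1 ≤ q₂) (t0 : 0 ≤ θ) (t1 : θ ≤ 1) (e₁ : p₁⁻¹ = (1 - θ) * 2⁻¹ + θ * q₁⁻¹)
    (e₂ : p₂⁻¹ = (1 - θ) * 2⁻¹ + θ * q₂⁻¹) (e₃ : θ * γ = 1 - p⁻¹) (hE : 0 < E) (hB : 0 < B)
    (hJ : ∀ (a : ℕ → X → ℂ) (B : ℝ), 0 ≤ B → DB e (1 - p⁻¹) (θ * β) a B → JB p a (CJ * B))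
    (I : Finset ℕ) (m m' m₁ m₂ m₃ a a' a₃ a₄ : (X → ℂ) → (X → ℂ) → ℕ → X → ℂ)
    (l₁ : ∀ g i x, IsLinearMap ℂ fun f => m f g i x - m' f g i x)
    (l₂ : ∀ f i x, IsLinearMap ℂ fun g => m f g i x - m' f g i x)
    (split : ∀ f g i x, m f g i x = m₁ f g i x + m₂ f g i x + m₃ f g i x)
    (z : ∀ f g i x, i ∉ I → m f g i x = 0 ∧ m' f g i x = 0 ∧ m₃ f g i x = 0 ∧ a f g i x = 0 ∧
      a' f g i x = 0 ∧ a₃ f g i x = 0 ∧ a₄ f g i x = 0)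
    (t1a : ∀ f g, DB e 0 0 (m₁ f g) (E * lp 2 f * lp 2 g))
    (t1b : ∀ f g, DB e 0 0 (m₂ f g) (E * lp 2 f * lp 2 g))
    (t2a : ∀ f g, lp 1 (fun x => √(∑ i ∈ I, ‖a₃ f g i x - a₄ f g i x‖ ^ 2)) ≤ E * lp 2 f * lp 2 g)
    (t2b : ∀ f g, lp 1 (fun x => √(∑ i ∈ I, ‖a₄ f g i x - a' f g i x‖ ^ 2)) ≤ E * lp 2 f * lp 2 g)
    (r₃ : ∀ f g, ∑ i ∈ I, lp 1 (fun x => a₃ f g i x - m₃ f g i x) ≤ E * lp 2 f * lp 2 g)
    (r' : ∀ f g, ∑ i ∈ I, lp 1 (fun x => a' f g i x - m' f g i x) ≤ E * lp 2 f * lp 2 g)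
    (n : ∀ f g, DB e γ β (m f g) (B * lp q₁ f * lp q₂ g))
    (n' : ∀ f g, DB e γ β (m' f g) (B * lp q₁ f * lp q₂ g))
    (f g : X → ℂ)
    (s : ∑ i ∈ I, lp p (fun x => a f g i x - m f g i x) ≤ E * lp p₁ f * lp p₂ g)
    (s' : ∑ i ∈ I, lp p (fun x => a' f g i x - m' f g i x) ≤ E * lp p₁ f * lp p₂ g) :
    JB p (fun i x => a f g i x - a' f g i x)
      ((2 * CJ * ((10 * E) ^ (1 - θ) * (2 * B) ^ θ) + 16 * E) * lp p₁ f * lp p₂ g) := by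
  have d0 : ∀ f g, DB e 0 0 (fun i x => m f g i x - m' f g i x) (10 * E * lp 2 f * lp 2 g) := by
    intro f g
    have k1 := DB_sq e (b := fun i x => a₃ f g i x - a₄ f g i x)
      (fun i x hi => by simp [z f g i x hi]) (t2a f g)
    have k2 := DB_sq e (b := fun i x => a₄ f g i x - a' f g i x)
      (fun i x hi => by simp [z f g i x hi]) (t2b f g)
    have k3 := DB_err e (b := fun i x => a₃ f g i x - m₃ f g i x)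
      (fun i x hi => by simp [z f g i x hi]) (r₃ f g)
    have k4 := DB_err e (b := fun i x => a' f g i x - m' f g i x)
      (fun i x hi => by simp [z f g i x hi]) (r' f g)
    have k := DB_add (DB_add (t1a f g) (t1b f g)) (DB_add (DB_sub (DB_add k1 k2) k3) k4)
    exact DB_congr (DB_mono k (le_of_eq (by ring))) fun i x => by rw [split]; ring
  have d1 : ∀ f g, DB e γ β (fun i x => m f g i x - m' f g i x) (2 * B * lp q₁ f * lp q₂ g) :=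
    fun f g => DB_mono (DB_sub (n f g) (n' f g)) (le_of_eq (by ring))
  have d := stDBI stInterp X X' Y X X e (fun f g i x => m f g i x - m' f g i x) γ β q₁ q₂ p₁ p₂ θ
    (10 * E) (2 * B) l₁ l₂ hq₁ hq₂ t0 t1 e₁ e₂ (by positivity) (by positivity) d0 d1 f g
  rw [e₃] at d
  have := lp_nonneg p₁ f
  have := lp_nonneg p₂ g
  have k := base_abs e hp hJ (I := I) (a := fun i x => a f g i x - a' f g i x)
    (fun i x hi => by simp [z f g i x hi]) (by positivity) d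
    (E := 2 * (E * lp p₁ f * lp p₂ g)) (by
      refine le_trans (sum_le_sum fun i _ => ?_) (by
        rw [two_mul]; exact (sum_add_distrib.le.trans (add_le_add s s')))
      refine le_trans (le_of_eq (lp_congr fun x => ?_)) (lp_sub_le hp _ _)
      congr 1; ring)
  exact JB_mono k (le_of_eq (by ring))

theorem JB_geom (hp : 1 ≤ p) (s : Finset ℕ) (a : ℕ → ℕ → X → ℂ) {B ρ : ℝ} (hB : 0 ≤ B) (h0 : 0 < ρ)
    (h1 : ρ < 1) (h : ∀ k ∈ s, JB p (a k) (B * (ρ ^ k * ρ ^ k))) :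
    JB p (fun i x => ∑ k ∈ s, a k i x) (B * ((1 - ρ)⁻¹ * (1 - ρ)⁻¹)) := by
  have g : ∑ k ∈ s, ρ ^ k ≤ (1 - ρ)⁻¹ := by
    rw [← tsum_geometric_of_lt_one h0.le h1]
    exact (summable_geometric_of_lt_one h0.le h1).sum_le_tsum _ fun _ _ => by positivity
  have h2 : 0 < 1 - ρ := by linarith
  refine JB_mono (stJSum X p s a (fun k => (1 - ρ) * ρ ^ k) _ hp (fun k _ => by positivity) ?_ h) ?_
  · rw [← mul_sum, ← le_div_iff₀' h2, one_div]; exact g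
  · have : ∀ k : ℕ, B * (ρ ^ k * ρ ^ k) / ((1 - ρ) * ρ ^ k) = B * (1 - ρ)⁻¹ * ρ ^ k := fun k => by
      field_simp
    simp only [this, ← mul_sum]
    rw [← mul_assoc]
    gcongr

end abs

theorem sum_div_le (n k : ℕ) (hk : 1 ≤ k) {ρ : ℝ} (h0 : 0 ≤ ρ) (h1 : ρ < 1) :
    ∑ i ∈ range n, ρ ^ (i / k) ≤ k * (1 - ρ)⁻¹ := by
  have s : ∀ n : ℕ, ∑ τ ∈ range (n * k), ρ ^ (τ / k) = k * ∑ j ∈ range n, ρ ^ j := by
    intro n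
    induction n with
    | zero => simp
    | succ n ih =>
      rw [add_mul, one_mul, sum_range_add, ih, sum_range_succ, mul_add]
      congr 1
      rw [sum_congr rfl (g := fun _ => ρ ^ n), sum_const, card_range, nsmul_eq_mul]
      intro x hx
      rw [add_comm, Nat.add_mul_div_right _ _ hk, Nat.div_eq_of_lt (mem_range.1 hx), zero_add]
  calc _ ≤ ∑ τ ∈ range (n * k), ρ ^ (τ / k) := sum_le_sum_of_subset_of_nonneg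
        (range_subset_range.2 (Nat.le_mul_of_pos_right _ hk)) fun _ _ _ => by positivity
    _ = _ := s n
    _ ≤ _ := by
        gcongr
        rw [← tsum_geometric_of_lt_one h0 h1]
        exact (summable_geometric_of_lt_one h0 h1).sum_le_tsum _ fun _ _ => by positivity

theorem dec_le {C C' δ δ' : ℝ} (h : ℕ) (hC : C ≤ C') (hC' : 0 ≤ C') (hδ : δ' ≤ δ) {u v : ℝ}
    (hu : 0 ≤ u) (hv : 0 ≤ v) :
    C * ((2 : ℝ) ^ h) ^ (-δ) * u * v ≤ C' * ((2 : ℝ) ^ h) ^ (-δ') * u * v := by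
  have : ((2 : ℝ) ^ h) ^ (-δ) ≤ ((2 : ℝ) ^ h) ^ (-δ') :=
    Real.rpow_le_rpow_of_exponent_le (one_le_pow₀ one_le_two) (by linarith)
  gcongr

theorem final_num {CE CB CJ δ θ : ℝ} (h : ℕ) (hE : 0 < CE) (hB : 0 < CB) (hJ : 0 < CJ) (hδ : 0 < δ)
    (t0 : 0 < θ) (t1 : θ < 1) :
    2 * CJ * ((10 * (CE * ((2 : ℝ) ^ h) ^ (-δ))) ^ (1 - θ) *
        (2 * (CB * ((2 : ℝ) ^ h) ^ ((1 - θ) * δ / 2))) ^ θ) + 16 * (CE * ((2 : ℝ) ^ h) ^ (-δ)) ≤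
      (2 * CJ * ((10 * CE) ^ (1 - θ) * (2 * CB) ^ θ) + 16 * CE) *
        ((2 : ℝ) ^ h) ^ (-((1 - θ) * δ / 2)) := by
  have h1 : (1 : ℝ) ≤ 2 ^ h := one_le_pow₀ one_le_two
  generalize (2 : ℝ) ^ h = H at *
  have h0 : 0 < H := by linarith
  have a : 0 < (1 - θ) * δ := mul_pos (by linarith) hδ
  have e1 : H ^ (-δ) ≤ H ^ (-((1 - θ) * δ / 2)) :=
    Real.rpow_le_rpow_of_exponent_le h1 (by nlinarith)
  have e2 : (H ^ (-δ)) ^ (1 - θ) * (H ^ ((1 - θ) * δ / 2)) ^ θ ≤ H ^ (-((1 - θ) * δ / 2)) := by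
    rw [← Real.rpow_mul h0.le, ← Real.rpow_mul h0.le, ← Real.rpow_add h0]
    exact Real.rpow_le_rpow_of_exponent_le h1 (by nlinarith)
  rw [← mul_assoc 10, ← mul_assoc 2 CB, Real.mul_rpow (by positivity) (by positivity),
    Real.mul_rpow (x := 2 * CB) (by positivity) (by positivity)]
  have k1 := mul_le_mul_of_nonneg_left e2
    (show 0 ≤ 2 * CJ * ((10 * CE) ^ (1 - θ) * (2 * CB) ^ θ) by positivity)
  have k2 := mul_le_mul_of_nonneg_left e1 (show 0 ≤ 16 * CE by positivity)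
  linarith

section lin

variable {M : ℕ} [NeZero M]

theorem Ad_add (A : Finset (ZMod M)) (κ f g : ZMod M → ℂ) (x : ZMod M) :
    Ad A κ (f + g) x = Ad A κ f x + Ad A κ g x := by
  funext y; simp [Ad, mul_add, sum_add_distrib]

theorem Ad_smul (A : Finset (ZMod M)) (κ f : ZMod M → ℂ) (c : ℂ) (x : ZMod M) :
    Ad A κ (c • f) x = c • Ad A κ f x := by
  funext y; simp [Ad, mul_sum, mul_left_comm]

theorem TT_add (A : Finset (ZMod M)) (κ f g : ZMod M → ℂ) :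
    TT A κ (f + g) = TT A κ f + TT A κ g := by
  funext y; simp [TT, Ad_add]

theorem TT_smul (A : Finset (ZMod M)) (κ f : ZMod M → ℂ) (c : ℂ) :
    TT A κ (c • f) = c • TT A κ f := by
  funext y; simp [TT, Ad_smul]

theorem Ad_sdiff {A B : Finset (ZMod M)} (h : B ⊆ A) (κ f : ZMod M → ℂ) (x : ZMod M) :
    Ad A κ f x = Ad (A \ B) κ f x + Ad B κ f x := by
  funext y; exact (sum_sdiff h).symm

theorem TT_sdiff {A B : Finset (ZMod M)} (h : B ⊆ A) (κ f : ZMod M → ℂ) :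
    TT A κ f = TT (A \ B) κ f + TT B κ f := by
  funext y; exact (sum_sdiff h).symm

omit [NeZero M] in
theorem AA_swap (P₁ P₂ : ℤ[X]) (N : ℕ) (f g : ZMod M → ℂ) (x : ZMod M) :
    AA P₁ P₂ N f g x = AA P₂ P₁ N g f x := by simp only [AA, mul_comm]

omit [NeZero M] in
theorem AA_add (P₁ P₂ : ℤ[X]) (N : ℕ) (f f' g : ZMod M → ℂ) (x : ZMod M) :
    AA P₁ P₂ N (f + f') g x = AA P₁ P₂ N f g x + AA P₁ P₂ N f' g x := by
  simp only [AA, Pi.add_apply, add_mul, av_add]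

omit [NeZero M] in
theorem AA_add' (P₁ P₂ : ℤ[X]) (N : ℕ) (f g g' : ZMod M → ℂ) (x : ZMod M) :
    AA P₁ P₂ N f (g + g') x = AA P₁ P₂ N f g x + AA P₁ P₂ N f g' x := by
  simp only [AA, Pi.add_apply, mul_add, av_add]

omit [NeZero M] in
theorem AA_smul (P₁ P₂ : ℤ[X]) (N : ℕ) (c : ℂ) (f g : ZMod M → ℂ) (x : ZMod M) :
    AA P₁ P₂ N (c • f) g x = c * AA P₁ P₂ N f g x := by
  simp only [AA, Pi.smul_apply, smul_eq_mul, mul_assoc, av_mul_left]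

variable (P₁ P₂ : ℤ[X]) (Q N₀ i₀ i₁ : ℕ) (N : ℕ → ℕ) (A₁ A₂ : Finset (ZMod M)) (K₁ K₂ : ℕ → ℕ)

theorem AC_swap (f g : ZMod M → ℂ) (i : ℕ) (x : ZMod M) :
    AC P₁ P₂ i₀ i₁ N A₁ A₂ K₁ K₂ f g i x = AC P₂ P₁ i₀ i₁ N A₂ A₁ K₂ K₁ g f i x := AA_swap ..

theorem MS_swap (f g : ZMod M → ℂ) (i : ℕ) (x : ZMod M) :
    MS P₁ P₂ N₀ i₀ i₁ N A₁ A₂ K₁ K₂ f g i x = MS P₂ P₁ N₀ i₀ i₁ N A₂ A₁ K₂ K₁ g f i x := by
  simp only [MS, AA_swap P₁ P₂]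

theorem ML_swap (f g : ZMod M → ℂ) (i : ℕ) (x : ZMod M) :
    ML P₁ P₂ Q N₀ i₀ i₁ N A₁ A₂ K₁ K₂ f g i x = ML P₂ P₁ Q N₀ i₀ i₁ N A₂ A₁ K₂ K₁ g f i x := by
  simp only [ML, AA_swap P₁ P₂]

theorem MS_lin (g : ZMod M → ℂ) (i : ℕ) (x : ZMod M) :
    IsLinearMap ℂ fun f => MS P₁ P₂ N₀ i₀ i₁ N A₁ A₂ K₁ K₂ f g i x :=
  ⟨fun u v => by simp only [MS, TT_add, AA_add, av_add],
    fun c u => by simp only [MS, TT_smul, AA_smul, av_mul_left, smul_eq_mul]⟩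

theorem ML_lin (g : ZMod M → ℂ) (i : ℕ) (x : ZMod M) :
    IsLinearMap ℂ fun f => ML P₁ P₂ Q N₀ i₀ i₁ N A₁ A₂ K₁ K₂ f g i x :=
  ⟨fun u v => by simp only [ML, Ad_add, AA_add, av_add],
    fun c u => by simp only [ML, Ad_smul, AA_smul, av_mul_left, smul_eq_mul]⟩

theorem MS_lin' (f : ZMod M → ℂ) (i : ℕ) (x : ZMod M) :
    IsLinearMap ℂ fun g => MS P₁ P₂ N₀ i₀ i₁ N A₁ A₂ K₁ K₂ f g i x := by
  simp only [MS_swap P₁ P₂]; exact MS_lin ..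

theorem ML_lin' (f : ZMod M → ℂ) (i : ℕ) (x : ZMod M) :
    IsLinearMap ℂ fun g => ML P₁ P₂ Q N₀ i₀ i₁ N A₁ A₂ K₁ K₂ f g i x := by
  simp only [ML_swap P₁ P₂]; exact ML_lin ..

theorem lin_sub {V : Type} [AddCommGroup V] [Module ℂ V] {φ ψ : V → ℂ} (h : IsLinearMap ℂ φ)
    (h' : IsLinearMap ℂ ψ) : IsLinearMap ℂ fun v => φ v - ψ v :=
  ⟨fun u v => by rw [h.map_add, h'.map_add]; ring,
    fun c u => by rw [h.map_smul, h'.map_smul, smul_sub]⟩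

variable {A₁}

theorem MS_split {B : Finset (ZMod M)} (h : B ⊆ A₁) (f g : ZMod M → ℂ) (i : ℕ) (x : ZMod M) :
    MS P₁ P₂ N₀ i₀ i₁ N A₁ A₁ K₁ K₂ f g i x = MS P₁ P₂ N₀ i₀ i₁ N (A₁ \ B) A₁ K₁ K₂ f g i x +
      MS P₁ P₂ N₀ i₀ i₁ N B (A₁ \ B) K₁ K₂ f g i x + MS P₁ P₂ N₀ i₀ i₁ N B B K₁ K₂ f g i x := by
  simp only [MS, ← av_add]
  refine av_congr fun τ _ => ?_
  rw [add_assoc, ← AA_add', ← TT_sdiff h, ← AA_add, ← TT_sdiff h]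

theorem ML_split {B : Finset (ZMod M)} (h : B ⊆ A₁) (f g : ZMod M → ℂ) (i : ℕ) (x : ZMod M) :
    ML P₁ P₂ Q N₀ i₀ i₁ N A₁ A₁ K₁ K₂ f g i x = ML P₁ P₂ Q N₀ i₀ i₁ N (A₁ \ B) A₁ K₁ K₂ f g i x +
      ML P₁ P₂ Q N₀ i₀ i₁ N B (A₁ \ B) K₁ K₂ f g i x +
      ML P₁ P₂ Q N₀ i₀ i₁ N B B K₁ K₂ f g i x := by
  simp only [ML, ← av_add]
  refine av_congr fun τ _ => av_congr fun ρ _ => ?_
  rw [add_assoc, ← AA_add', ← Ad_sdiff h, ← AA_add, ← Ad_sdiff h]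

variable {i₀ i₁} (A₁)

theorem Ad_fm_zero {i : ℕ} (hi : i ∉ Ico i₀ i₁) (s : ℕ → ZMod M) (f : ZMod M → ℂ) (x y : ZMod M) :
    Ad A₁ (fm i₀ i₁ K₁ s i) f x y = 0 := by
  simp only [Ad, fm, cx, if_neg hi]; simp

theorem AC_zero {i : ℕ} (hi : i ∉ Ico i₀ i₁) (f g : ZMod M → ℂ) (x : ZMod M) :
    AC P₁ P₂ i₀ i₁ N A₁ A₂ K₁ K₂ f g i x = 0 := by
  simp [AC, AA, TT, Ad_fm_zero A₁ K₁ hi, av]

theorem MS_zero {i : ℕ} (hi : i ∉ Ico i₀ i₁) (f g : ZMod M → ℂ) (x : ZMod M) :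
    MS P₁ P₂ N₀ i₀ i₁ N A₁ A₂ K₁ K₂ f g i x = 0 := by
  simp [MS, AA, TT, Ad_fm_zero A₁ K₁ hi, av]

theorem ML_zero {i : ℕ} (hi : i ∉ Ico i₀ i₁) (f g : ZMod M → ℂ) (x : ZMod M) :
    ML P₁ P₂ Q N₀ i₀ i₁ N A₁ A₂ K₁ K₂ f g i x = 0 := by
  simp [ML, AA, Ad_fm_zero A₁ K₁ hi, av]

theorem AC_mem {i : ℕ} (hi : i ∈ Ico i₀ i₁) (f g : ZMod M → ℂ) (x : ZMod M) :
    AC P₁ P₂ i₀ i₁ N A₁ A₂ K₁ K₂ f g i x =
      AA P₁ P₂ (N i) (TT A₁ (cx (fej (K₁ i))) f) (TT A₂ (cx (fej (K₂ i))) g) x := by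
  simp only [AC, fm, if_pos hi, Pi.zero_apply, add_zero]

end lin

end Asm

end

end Pool.Agent.Lib.MP_10e396_an
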