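import Pool.Agent.Lib.MP_10e396_an.Asm1

/-! Jump bounds for the pieces at one level. -/

set_option autoImplicit false

namespace Pool.Agent.Lib.MP_10e396_an

open Finset Polynomial ND

noncomputable section

namespace Asm

/-- band widths at level `k` -/
def Kk (M : ℕ) (N : ℕ → ℕ) (e k i : ℕ) : ℕ := 2 ^ k * (M / N i ^ e)

section

variable {c M L i₀ i₁ h N₀ e k : ℕ} {N : ℕ → ℕ}

theorem Kk_mul (H : Par c M L i₀ i₁ h N₀ N) (he : e + 2 ≤ c) (k : ℕ) :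
    ∀ i ∈ Ico i₀ i₁, Kk M N e k i * N i ^ e = 2 ^ k * M := fun i hi => by
  have h1 := H.N_pos hi
  have : N i ^ e ∣ M := H.dv_pow hi he _ (Nat.one_le_pow _ _ h1) (by
    have : 0 < 2 ^ h := by positivity
    nlinarith [Nat.zero_le (N i ^ e)])
  rw [Kk, mul_assoc, Nat.div_mul_cancel this]

theorem two_pow_pred (h : ℕ) : 2 ^ (h - 1) ≤ 2 ^ h := Nat.pow_le_pow_right two_pos (by omega)

theorem KF_Kk (H : Par c M L i₀ i₁ h N₀ N) (he : e + 2 ≤ c) (hk : k ≤ h) :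
    KF M i₀ i₁ h e N (Kk M N e k) :=
  ⟨2 ^ k, 1, Nat.one_le_two_pow, Nat.pow_le_pow_right two_pos hk, le_rfl, Nat.one_le_two_pow,
    fun i hi => by rw [one_mul]; exact Kk_mul H he k i hi⟩

end

theorem inv_eq (h : ℕ) : ((2 : ℝ) ^ h)⁻¹ = ((2 : ℝ) ^ h) ^ (-1 : ℝ) := (Real.rpow_neg_one _).symm

/-- the level `k` term -/
def AK {M : ℕ} [NeZero M] (P : ℤ[X]) (i₀ i₁ : ℕ) (N : ℕ → ℕ) (k : ℕ) (f g : ZMod M → ℂ) :
    ℕ → ZMod M → ℂ :=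
  AC X P i₀ i₁ N (Sg M (2 ^ k)) (Sg M (2 ^ k)) (Kk M N 1 k) (Kk M N P.natDegree k) f g

theorem small_piece (hES : StErrS) (hD : StLinD) (hT1 : StT1S) (hT2 : StT2) (P : ℤ[X])
    (hd : 1 ≤ P.natDegree) (s₁ : SSP X P) (s₂ : SSP P X) {p₁ p₂ p : ℝ} (h₁ : 1 < p₁) (h₂ : 1 < p₂)
    (hp : 1 ≤ p) (hpp : p₁⁻¹ + p₂⁻¹ = p⁻¹) :
    ∃ (c : ℕ) (δ : ℝ), 0 < δ ∧ ∀ L L' : ℕ, ∃ C : ℝ, 0 < C ∧
      ∀ (M : ℕ) [NeZero M] (i₀ i₁ h N₀ : ℕ) (N : ℕ → ℕ) (f g : ZMod M → ℂ),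
        Par c M L i₀ i₁ h N₀ N → i₁ ≤ i₀ + L' * 4 ^ h →
        JB p (fun i x => AK P i₀ i₁ N h f g i x - AK P i₀ i₁ N (h - 1) f g i x)
          (C * ((2 : ℝ) ^ h) ^ (-δ) * lp p₁ f * lp p₂ g) ∧
        JB p (AK P i₀ i₁ N (h - 1) f g) (C * 2 ^ h * lp p₁ f * lp p₂ g) := by
  obtain ⟨θ, q₁, q₂, q, t0, t1, hq₁, hq₂, hq, hqq, e₁, e₂, e₃, e₄, e₅⟩ := exps h₁ h₂ hp hpp
  have hX : 1 ≤ (X : ℤ[X]).natDegree := by simp
  obtain ⟨ca, δa, hδa, ka⟩ := hT1 X P hX hd s₁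
  obtain ⟨cb, δb, hδb, kb⟩ := hT1 P X hd hX s₂
  obtain ⟨cc, δc, hδc, kc⟩ := hT2 X P hX hd s₁
  obtain ⟨cd, δd, hδd, kd⟩ := hT2 P X hd hX s₂
  obtain ⟨ce, ke⟩ := hES X P hX hd
  obtain ⟨δ, hδ, da, db, dc, dd, de⟩ : ∃ δ : ℝ, 0 < δ ∧ δ ≤ δa ∧ δ ≤ δb ∧ δ ≤ δc ∧ δ ≤ δd ∧ δ ≤ 1 :=
    ⟨min (min (min δa δb) (min δc δd)) 1, by positivity, by simp, by simp, by simp, by simp,
      by simp⟩
  have hε : 0 < (1 - θ) * δ / 2 := by have := sub_pos.2 t1; positivity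
  obtain ⟨cn, kn⟩ := nd_small hD X P hX hd hq₁ hq₂ hq hqq hε
  obtain ⟨cm, km⟩ := nd_small hD X P hX hd h₁ h₂ hp hpp one_pos
  obtain ⟨CJ, hCJ, kJ⟩ := stJump stLayer p _ hp e₄ e₅
  refine ⟨ca + cb + cc + cd + ce + cn + cm + P.natDegree + 3, _, hε, fun L L' => ?_⟩
  obtain ⟨Ca, hCa, ka⟩ := ka L L'
  obtain ⟨Cb, hCb, kb⟩ := kb L L'
  obtain ⟨Cc, hCc, kc⟩ := kc L L'
  obtain ⟨Cd, hCd, kd⟩ := kd L L'
  obtain ⟨Ce, hCe, ke⟩ := ke L L'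
  obtain ⟨Cn, hCn, kn⟩ := kn L L'
  obtain ⟨Cm, hCm, km⟩ := km L L'
  obtain ⟨CE, hCE, ua, ub, uc, ud, ue⟩ :
      ∃ C : ℝ, 0 < C ∧ Ca ≤ C ∧ Cb ≤ C ∧ Cc ≤ C ∧ Cd ≤ C ∧ Ce ≤ C :=
    ⟨Ca + Cb + Cc + Cd + Ce, by positivity, by linarith, by linarith, by linarith, by linarith,
      by linarith⟩
  have hC1 : 0 < 2 * CJ * ((10 * CE) ^ (1 - θ) * (2 * Cn) ^ θ) + 16 * CE := by positivity
  refine ⟨2 * CJ * ((10 * CE) ^ (1 - θ) * (2 * Cn) ^ θ) + 16 * CE + (4 * Cm + 8 * Ce),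
    by positivity, ?_⟩
  intro M _ i₀ i₁ h N₀ N f g hP hS
  have hR : Rng M L' i₀ i₁ h N₀ := Or.inl hS
  have F₁ : ∀ k, k ≤ h → KF M i₀ i₁ h (X : ℤ[X]).natDegree N (Kk M N 1 k) := fun k hk => by
    rw [natDegree_X]; exact KF_Kk hP (by omega) hk
  have F₂ : ∀ k, k ≤ h → KF M i₀ i₁ h P.natDegree N (Kk M N P.natDegree k) := fun k hk =>
    KF_Kk hP (by omega) hk
  have G₁ : ∀ k, ∀ i ∈ Ico i₀ i₁, Kk M N 1 k i * N i ^ (X : ℤ[X]).natDegree = 2 ^ k * M := fun k => by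
    rw [natDegree_X]; exact Kk_mul hP (by omega) k
  have G₂ := Kk_mul hP (e := P.natDegree) (by omega)
  have sub : Sg M (2 ^ (h - 1)) ⊆ Sg M (2 ^ h) := Sg_mono (two_pow_pred h)
  have o : ∀ k : ℕ, 1 ≤ 2 ^ k := fun k => Nat.one_le_two_pow
  have n2 := fun u : ZMod M → ℂ => lp_nonneg 2 u
  have np₁ := lp_nonneg p₁ f
  have np₂ := lp_nonneg p₂ g
  have err : ∀ (r₁ r₂ r : ℝ) (k k₁ k₂ : ℕ) (u v : ZMod M → ℂ), 0 < r₁ → 0 < r₂ → 1 ≤ r →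
      r₁⁻¹ + r₂⁻¹ = r⁻¹ → k ≤ h → k₁ ≤ h → k₂ ≤ h →
      ∑ i ∈ Ico i₀ i₁, lp r (fun x => AC X P i₀ i₁ N (Sg M (2 ^ k)) (Sg M (2 ^ k)) (Kk M N 1 k₁)
        (Kk M N P.natDegree k₂) u v i x - MS X P N₀ i₀ i₁ N (Sg M (2 ^ k)) (Sg M (2 ^ k))
        (Kk M N 1 k₁) (Kk M N P.natDegree k₂) u v i x) ≤
        Ce * ((2 : ℝ) ^ h) ^ (-1 : ℝ) * lp r₁ u * lp r₂ v := by
    intro r₁ r₂ r k k₁ k₂ u v a1 a2 a3 a4 b0 b1 b2
    have sb : Sg M (2 ^ k) ⊆ Sg M (2 ^ h) := Sg_mono (Nat.pow_le_pow_right two_pos b0)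
    rw [← inv_eq]
    exact ke r₁ r₂ r M i₀ i₁ h N₀ N _ _ _ _ u v a1 a2 a3 a4 (hP.anti (by omega)) hR (F₁ _ b1)
      (F₂ _ b2) sb sb
  have hh : h - 1 ≤ h := by omega
  have H1 : (1 : ℝ) ≤ 2 ^ h := one_le_pow₀ one_le_two
  constructor
  · have key := piece_abs (Equiv.prodUnique (ZMod M) Unit) hp hq₁.le hq₂.le t0.le t1.le e₁ e₂ e₃
      (E := CE * ((2 : ℝ) ^ h) ^ (-δ)) (B := Cn * ((2 : ℝ) ^ h) ^ ((1 - θ) * δ / 2))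
      (by positivity) (by positivity) (kJ _ _ _ _) (Ico i₀ i₁)
      (MS X P N₀ i₀ i₁ N (Sg M (2 ^ h)) (Sg M (2 ^ h)) (Kk M N 1 h) (Kk M N P.natDegree h))
      (MS X P N₀ i₀ i₁ N (Sg M (2 ^ (h - 1))) (Sg M (2 ^ (h - 1))) (Kk M N 1 (h - 1))
        (Kk M N P.natDegree (h - 1)))
      (MS X P N₀ i₀ i₁ N (Sg M (2 ^ h) \ Sg M (2 ^ (h - 1))) (Sg M (2 ^ h)) (Kk M N 1 h)
        (Kk M N P.natDegree h))
      (MS X P N₀ i₀ i₁ N (Sg M (2 ^ (h - 1))) (Sg M (2 ^ h) \ Sg M (2 ^ (h - 1))) (Kk M N 1 h)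
        (Kk M N P.natDegree h))
      (MS X P N₀ i₀ i₁ N (Sg M (2 ^ (h - 1))) (Sg M (2 ^ (h - 1))) (Kk M N 1 h)
        (Kk M N P.natDegree h))
      (AK P i₀ i₁ N h) (AK P i₀ i₁ N (h - 1))
      (AC X P i₀ i₁ N (Sg M (2 ^ (h - 1))) (Sg M (2 ^ (h - 1))) (Kk M N 1 h) (Kk M N P.natDegree h))
      (AC X P i₀ i₁ N (Sg M (2 ^ (h - 1))) (Sg M (2 ^ (h - 1))) (Kk M N 1 (h - 1))
        (Kk M N P.natDegree h))
      (fun g i x => lin_sub (MS_lin ..) (MS_lin ..)) (fun f i x => lin_sub (MS_lin' ..) (MS_lin' ..))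
      (fun f g i x => MS_split X P N₀ i₀ i₁ N _ _ sub f g i x)
      (fun f g i x hi => ⟨MS_zero _ _ _ _ _ _ _ _ hi _ _ _, MS_zero _ _ _ _ _ _ _ _ hi _ _ _,
        MS_zero _ _ _ _ _ _ _ _ hi _ _ _, AC_zero _ _ _ _ _ _ _ hi _ _ _,
        AC_zero _ _ _ _ _ _ _ hi _ _ _, AC_zero _ _ _ _ _ _ _ hi _ _ _,
        AC_zero _ _ _ _ _ _ _ hi _ _ _⟩)
      (fun u v => by
        obtain ⟨w, w1, w2⟩ := ka M i₀ i₁ h N₀ N _ _ _ u v (hP.anti (by omega)) hS (F₁ h le_rfl)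
          (F₂ h le_rfl) subset_rfl
        exact DB_mono (DB_zero w1) (w2.trans (dec_le h ua hCE.le da (n2 u) (n2 v))))
      (fun u v => by
        obtain ⟨w, w1, w2⟩ := kb M i₀ i₁ h N₀ N _ _ _ v u (hP.anti (by omega)) hS (F₂ h le_rfl)
          (F₁ h le_rfl) sub
        refine DB_mono (DB_congr (DB_zero w1) fun i x => MS_swap ..) (w2.trans ?_)
        rw [mul_right_comm]
        exact dec_le h ub hCE.le db (n2 u) (n2 v))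
      (fun u v => (kc M i₀ i₁ h N₀ (2 ^ h) N _ _ _ u v (hP.anti (by omega)) hR (G₁ h) (G₁ (h - 1))
        (o h) le_rfl (G₂ h)).trans (dec_le h uc hCE.le dc (n2 u) (n2 v)))
      (fun u v => by
        have w2 := kd M i₀ i₁ h N₀ (2 ^ (h - 1)) N _ _ _ v u (hP.anti (by omega)) hR (G₂ h)
          (G₂ (h - 1)) (o _) (two_pow_pred h) (G₁ (h - 1))
        simp only [AC_swap P X] at w2
        refine w2.trans ?_
        rw [mul_right_comm]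
        exact dec_le h ud hCE.le dd (n2 u) (n2 v))
      (fun u v => (err 2 2 1 _ _ _ u v two_pos two_pos le_rfl (by norm_num) hh le_rfl le_rfl).trans
        (dec_le h ue hCE.le de (n2 u) (n2 v)))
      (fun u v => (err 2 2 1 _ _ _ u v two_pos two_pos le_rfl (by norm_num) hh hh hh).trans
        (dec_le h ue hCE.le de (n2 u) (n2 v)))
      (fun u v => by
        obtain ⟨w, w1, w2⟩ := kn M i₀ i₁ h N₀ _ _ N _ _ u v (hP.anti (by omega)) hR (F₁ h le_rfl)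
          (F₂ h le_rfl) (o h) le_rfl (o h) le_rfl
        exact DB_mono (DB_unit hq hq₂.le w1) w2)
      (fun u v => by
        obtain ⟨w, w1, w2⟩ := kn M i₀ i₁ h N₀ _ _ N _ _ u v (hP.anti (by omega)) hR (F₁ _ hh)
          (F₂ _ hh) (o _) (two_pow_pred h) (o _) (two_pow_pred h)
        exact DB_mono (DB_unit hq hq₂.le w1) w2)
      f g
      ((err p₁ p₂ p _ _ _ f g (by linarith) (by linarith) hp hpp le_rfl le_rfl le_rfl).trans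
        (dec_le h ue hCE.le de np₁ np₂))
      ((err p₁ p₂ p _ _ _ f g (by linarith) (by linarith) hp hpp hh hh hh).trans
        (dec_le h ue hCE.le de np₁ np₂))
    refine JB_mono key ?_
    refine mul_le_mul_of_nonneg_right (mul_le_mul_of_nonneg_right
      ((final_num h hCE hCn hCJ hδ t0 t1).trans ?_) np₁) np₂
    exact mul_le_mul_of_nonneg_right (le_add_of_nonneg_right (by positivity)) (by positivity)
  · obtain ⟨w, w1, w2⟩ := km M i₀ i₁ h N₀ _ _ N _ _ f g (hP.anti (by omega)) hR (F₁ _ hh)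
      (F₂ _ hh) (o _) (two_pow_pred h) (o _) (two_pow_pred h)
    have k1 := JB_of_Wb hp w1
    have k2 := JB_err hp (fun i x hi => by rw [AC_zero _ _ _ _ _ _ _ hi, MS_zero _ _ _ _ _ _ _ _ hi,
      sub_zero]) (err p₁ p₂ p _ _ _ f g (by linarith) (by linarith) hp hpp hh hh hh)
    refine JB_mono (JB_congr (JB_add hp k1 k2) fun i x => by rw [AK]; ring) ?_
    rw [Real.rpow_one] at w2
    have k3 : ((2 : ℝ) ^ h) ^ (-1 : ℝ) ≤ 2 ^ h := by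
      rw [← inv_eq]; exact (inv_le_one_of_one_le₀ H1).trans H1
    have k4 : Ce * ((2 : ℝ) ^ h) ^ (-1 : ℝ) * lp p₁ f * lp p₂ g ≤ Ce * 2 ^ h * lp p₁ f * lp p₂ g := by
      gcongr
    have k5 : 0 ≤ (2 * CJ * ((10 * CE) ^ (1 - θ) * (2 * Cn) ^ θ) + 16 * CE) * 2 ^ h * lp p₁ f *
      lp p₂ g := by positivity
    linarith

theorem large_piece (hEL : StErrL) (hL : StLinL) (hT1 : StT1L) (hT2 : StT2) (P : ℤ[X])
    (hd : 1 ≤ P.natDegree) (s₁ : SSP X P) (s₂ : SSP P X) {p₁ p₂ p : ℝ} (h₁ : 1 < p₁) (h₂ : 1 < p₂)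
    (hp : 1 ≤ p) (hpp : p₁⁻¹ + p₂⁻¹ = p⁻¹) :
    ∃ (c : ℕ) (δ : ℝ), 0 < δ ∧ ∀ L : ℕ, ∃ C : ℝ, 0 < C ∧
      ∀ (M : ℕ) [NeZero M] (M' Q i₀ i₁ h N₀ : ℕ) (N : ℕ → ℕ) (f g : ZMod M → ℂ),
        Par c M L i₀ i₁ h N₀ N → Large M M' Q h N₀ →
        JB p (fun i x => AK P i₀ i₁ N h f g i x - AK P i₀ i₁ N (h - 1) f g i x)
          (C * ((2 : ℝ) ^ h) ^ (-δ) * lp p₁ f * lp p₂ g) ∧
        JB p (AK P i₀ i₁ N (h - 1) f g) (C * 2 ^ h * lp p₁ f * lp p₂ g) := by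
  obtain ⟨θ, q₁, q₂, q, t0, t1, hq₁, hq₂, hq, hqq, e₁, e₂, e₃, e₄, e₅⟩ := exps h₁ h₂ hp hpp
  have hX : 1 ≤ (X : ℤ[X]).natDegree := by simp
  obtain ⟨ca, δa, hδa, ka⟩ := hT1 X P hX hd (Or.inl rfl) s₁
  obtain ⟨cb, δb, hδb, kb⟩ := hT1 P X hd hX (Or.inr rfl) s₂
  obtain ⟨cc, δc, hδc, kc⟩ := hT2 X P hX hd s₁
  obtain ⟨cd, δd, hδd, kd⟩ := hT2 P X hd hX s₂
  obtain ⟨ce, ke⟩ := hEL X P hX hd
  obtain ⟨δ, hδ, da, db, dc, dd, de⟩ : ∃ δ : ℝ, 0 < δ ∧ δ ≤ δa ∧ δ ≤ δb ∧ δ ≤ δc ∧ δ ≤ δd ∧ δ ≤ 1 :=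
    ⟨min (min (min δa δb) (min δc δd)) 1, by positivity, by simp, by simp, by simp, by simp,
      by simp⟩
  have hε : 0 < (1 - θ) * δ / 2 := by have := sub_pos.2 t1; positivity
  obtain ⟨cn, kn⟩ := nd_large hL P hd hq₁ hq₂ hq hqq hε
  obtain ⟨cm, km⟩ := nd_large hL P hd h₁ h₂ hp hpp one_pos
  obtain ⟨CJ, hCJ, kJ⟩ := stJump stLayer p _ hp e₄ e₅
  have i1 : 0 < p₁⁻¹ := by positivity
  have i2 : 0 < p₂⁻¹ := by positivity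
  obtain ⟨CI, hCI, kI⟩ := stJump stLayer p (1 - p₂⁻¹) hp (by linarith) (by linarith)
  refine ⟨ca + cb + cc + cd + ce + cn + cm + P.natDegree + 3, _, hε, fun L => ?_⟩
  obtain ⟨Ca, hCa, ka⟩ := ka L
  obtain ⟨Cb, hCb, kb⟩ := kb L
  obtain ⟨Cc, hCc, kc⟩ := kc L 0
  obtain ⟨Cd, hCd, kd⟩ := kd L 0
  obtain ⟨Ce, hCe, ke⟩ := ke L
  obtain ⟨Cn, hCn, kn⟩ := kn L
  obtain ⟨Cm, hCm, km⟩ := km L
  obtain ⟨CE, hCE, ua, ub, uc, ud, ue⟩ :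
      ∃ C : ℝ, 0 < C ∧ Ca ≤ C ∧ Cb ≤ C ∧ Cc ≤ C ∧ Cd ≤ C ∧ Ce ≤ C :=
    ⟨Ca + Cb + Cc + Cd + Ce, by positivity, by linarith, by linarith, by linarith, by linarith,
      by linarith⟩
  have hC1 : 0 < 2 * CJ * ((10 * CE) ^ (1 - θ) * (2 * Cn) ^ θ) + 16 * CE := by positivity
  refine ⟨2 * CJ * ((10 * CE) ^ (1 - θ) * (2 * Cn) ^ θ) + 16 * CE + (2 * (CI * Cm) + 8 * Ce),
    by positivity, ?_⟩
  intro M _ M' Q i₀ i₁ h N₀ N f g hP hS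
  have : NeZero M' := ⟨by
    rintro rfl
    exact NeZero.ne M (by simpa using hS.eq)⟩
  obtain ⟨e, he, hv⟩ := exists_win hS.eq
  have hR : Rng M 0 i₀ i₁ h N₀ := Or.inr ⟨M', Q, hS⟩
  have F₀ : ∀ k, k ≤ h → KF M i₀ i₁ h 1 N (Kk M N 1 k) := fun k hk => KF_Kk hP (by omega) hk
  have F₁ : ∀ k, k ≤ h → KF M i₀ i₁ h (X : ℤ[X]).natDegree N (Kk M N 1 k) := fun k hk => by
    rw [natDegree_X]; exact F₀ k hk
  have F₂ : ∀ k, k ≤ h → KF M i₀ i₁ h P.natDegree N (Kk M N P.natDegree k) := fun k hk =>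
    KF_Kk hP (by omega) hk
  have G₁ : ∀ k, ∀ i ∈ Ico i₀ i₁, Kk M N 1 k i * N i ^ (X : ℤ[X]).natDegree = 2 ^ k * M := fun k => by
    rw [natDegree_X]; exact Kk_mul hP (by omega) k
  have G₂ := Kk_mul hP (e := P.natDegree) (by omega)
  have sub : Sg M (2 ^ (h - 1)) ⊆ Sg M (2 ^ h) := Sg_mono (two_pow_pred h)
  have o : ∀ k : ℕ, 1 ≤ 2 ^ k := fun k => Nat.one_le_two_pow
  have n2 := fun u : ZMod M → ℂ => lp_nonneg 2 u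
  have np₁ := lp_nonneg p₁ f
  have np₂ := lp_nonneg p₂ g
  have err : ∀ (r₁ r₂ r : ℝ) (k k₁ k₂ : ℕ) (u v : ZMod M → ℂ), 0 < r₁ → 0 < r₂ → 1 ≤ r →
      r₁⁻¹ + r₂⁻¹ = r⁻¹ → k ≤ h → k₁ ≤ h → k₂ ≤ h →
      ∑ i ∈ Ico i₀ i₁, lp r (fun x => AC X P i₀ i₁ N (Sg M (2 ^ k)) (Sg M (2 ^ k)) (Kk M N 1 k₁)
        (Kk M N P.natDegree k₂) u v i x - ML X P Q N₀ i₀ i₁ N (Sg M (2 ^ k)) (Sg M (2 ^ k))
        (Kk M N 1 k₁) (Kk M N P.natDegree k₂) u v i x) ≤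
        Ce * ((2 : ℝ) ^ h) ^ (-1 : ℝ) * lp r₁ u * lp r₂ v := by
    intro r₁ r₂ r k k₁ k₂ u v a1 a2 a3 a4 b0 b1 b2
    have sb : Sg M (2 ^ k) ⊆ Sg M (2 ^ h) := Sg_mono (Nat.pow_le_pow_right two_pos b0)
    rw [← inv_eq]
    exact ke r₁ r₂ r M M' Q i₀ i₁ h N₀ N _ _ _ _ u v a1 a2 a3 a4 (hP.anti (by omega)) hS (F₁ _ b1)
      (F₂ _ b2) sb sb
  have hh : h - 1 ≤ h := by omega
  have H1 : (1 : ℝ) ≤ 2 ^ h := one_le_pow₀ one_le_two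
  constructor
  · have key := piece_abs e hp hq₁.le hq₂.le t0.le t1.le e₁ e₂ e₃
      (E := CE * ((2 : ℝ) ^ h) ^ (-δ)) (B := Cn * ((2 : ℝ) ^ h) ^ ((1 - θ) * δ / 2))
      (by positivity) (by positivity) (kJ _ _ _ _) (Ico i₀ i₁)
      (ML X P Q N₀ i₀ i₁ N (Sg M (2 ^ h)) (Sg M (2 ^ h)) (Kk M N 1 h) (Kk M N P.natDegree h))
      (ML X P Q N₀ i₀ i₁ N (Sg M (2 ^ (h - 1))) (Sg M (2 ^ (h - 1))) (Kk M N 1 (h - 1))
        (Kk M N P.natDegree (h - 1)))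
      (ML X P Q N₀ i₀ i₁ N (Sg M (2 ^ h) \ Sg M (2 ^ (h - 1))) (Sg M (2 ^ h)) (Kk M N 1 h)
        (Kk M N P.natDegree h))
      (ML X P Q N₀ i₀ i₁ N (Sg M (2 ^ (h - 1))) (Sg M (2 ^ h) \ Sg M (2 ^ (h - 1))) (Kk M N 1 h)
        (Kk M N P.natDegree h))
      (ML X P Q N₀ i₀ i₁ N (Sg M (2 ^ (h - 1))) (Sg M (2 ^ (h - 1))) (Kk M N 1 h)
        (Kk M N P.natDegree h))
      (AK P i₀ i₁ N h) (AK P i₀ i₁ N (h - 1))
      (AC X P i₀ i₁ N (Sg M (2 ^ (h - 1))) (Sg M (2 ^ (h - 1))) (Kk M N 1 h) (Kk M N P.natDegree h))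
      (AC X P i₀ i₁ N (Sg M (2 ^ (h - 1))) (Sg M (2 ^ (h - 1))) (Kk M N 1 (h - 1))
        (Kk M N P.natDegree h))
      (fun g i x => lin_sub (ML_lin ..) (ML_lin ..)) (fun f i x => lin_sub (ML_lin' ..) (ML_lin' ..))
      (fun f g i x => ML_split X P Q N₀ i₀ i₁ N _ _ sub f g i x)
      (fun f g i x hi => ⟨ML_zero _ _ _ _ _ _ _ _ _ hi _ _ _, ML_zero _ _ _ _ _ _ _ _ _ hi _ _ _,
        ML_zero _ _ _ _ _ _ _ _ _ hi _ _ _, AC_zero _ _ _ _ _ _ _ hi _ _ _,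
        AC_zero _ _ _ _ _ _ _ hi _ _ _, AC_zero _ _ _ _ _ _ _ hi _ _ _,
        AC_zero _ _ _ _ _ _ _ hi _ _ _⟩)
      (fun u v => DB_mono (ka M M' Q i₀ i₁ h N₀ N _ _ _ u v e he hv (hP.anti (by omega)) hS
          (F₁ h le_rfl) (F₂ h le_rfl) subset_rfl) (dec_le h ua hCE.le da (n2 u) (n2 v)))
      (fun u v => by
        refine DB_mono (DB_congr (kb M M' Q i₀ i₁ h N₀ N _ _ _ v u e he hv (hP.anti (by omega)) hS
          (F₂ h le_rfl) (F₁ h le_rfl) sub) fun i x => ML_swap ..) ?_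
        rw [mul_right_comm]
        exact dec_le h ub hCE.le db (n2 u) (n2 v))
      (fun u v => (kc M i₀ i₁ h N₀ (2 ^ h) N _ _ _ u v (hP.anti (by omega)) hR (G₁ h) (G₁ (h - 1))
        (o h) le_rfl (G₂ h)).trans (dec_le h uc hCE.le dc (n2 u) (n2 v)))
      (fun u v => by
        have w2 := kd M i₀ i₁ h N₀ (2 ^ (h - 1)) N _ _ _ v u (hP.anti (by omega)) hR (G₂ h)
          (G₂ (h - 1)) (o _) (two_pow_pred h) (G₁ (h - 1))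
        simp only [AC_swap P X] at w2
        refine w2.trans ?_
        rw [mul_right_comm]
        exact dec_le h ud hCE.le dd (n2 u) (n2 v))
      (fun u v => (err 2 2 1 _ _ _ u v two_pos two_pos le_rfl (by norm_num) hh le_rfl le_rfl).trans
        (dec_le h ue hCE.le de (n2 u) (n2 v)))
      (fun u v => (err 2 2 1 _ _ _ u v two_pos two_pos le_rfl (by norm_num) hh hh hh).trans
        (dec_le h ue hCE.le de (n2 u) (n2 v)))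
      (fun u v => kn M M' Q i₀ i₁ h N₀ _ _ N _ _ u v e he hv (hP.anti (by omega)) hS (F₀ h le_rfl)
          (F₂ h le_rfl) (o h) le_rfl (o h) le_rfl)
      (fun u v => kn M M' Q i₀ i₁ h N₀ _ _ N _ _ u v e he hv (hP.anti (by omega)) hS (F₀ _ hh)
          (F₂ _ hh) (o _) (two_pow_pred h) (o _) (two_pow_pred h))
      f g
      ((err p₁ p₂ p _ _ _ f g (by linarith) (by linarith) hp hpp le_rfl le_rfl le_rfl).trans
        (dec_le h ue hCE.le de np₁ np₂))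
      ((err p₁ p₂ p _ _ _ f g (by linarith) (by linarith) hp hpp hh hh hh).trans
        (dec_le h ue hCE.le de np₁ np₂))
    refine JB_mono key ?_
    refine mul_le_mul_of_nonneg_right (mul_le_mul_of_nonneg_right
      ((final_num h hCE hCn hCJ hδ t0 t1).trans ?_) np₁) np₂
    exact mul_le_mul_of_nonneg_right (le_add_of_nonneg_right (by positivity)) (by positivity)
  · have w1 := km M M' Q i₀ i₁ h N₀ _ _ N _ _ f g e he hv (hP.anti (by omega)) hS (F₀ _ hh)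
      (F₂ _ hh) (o _) (two_pow_pred h) (o _) (two_pow_pred h)
    refine JB_mono (base_abs e hp (kI _ _ _ e) (fun i x hi => by
      rw [AK, AC_zero _ _ _ _ _ _ _ hi, ML_zero _ _ _ _ _ _ _ _ _ hi, sub_zero]) (by positivity) w1
      (err p₁ p₂ p _ _ _ f g (by linarith) (by linarith) hp hpp hh hh hh)) ?_
    rw [Real.rpow_one]
    have k3 : ((2 : ℝ) ^ h) ^ (-1 : ℝ) ≤ 2 ^ h := by
      rw [← inv_eq]; exact (inv_le_one_of_one_le₀ H1).trans H1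
    have k4 : Ce * ((2 : ℝ) ^ h) ^ (-1 : ℝ) * lp p₁ f * lp p₂ g ≤ Ce * 2 ^ h * lp p₁ f * lp p₂ g := by
      gcongr
    have k5 : 0 ≤ (2 * CJ * ((10 * CE) ^ (1 - θ) * (2 * Cn) ^ θ) + 16 * CE) * 2 ^ h * lp p₁ f *
      lp p₂ g := by positivity
    linarith

end Asm

end

end Pool.Agent.Lib.MP_10e396_an
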