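import Pool.Agent.Lib.MP_10e396_an.Asm2

/-! The discrete jump inequality from the estimates for the pieces. -/

set_option autoImplicit false

namespace Pool.Agent.Lib.MP_10e396_an

open Finset Polynomial ND

noncomputable section

namespace Asm

/-- first index at which the scale reaches `T`, capped at `n` -/
def fs (N : ℕ → ℕ) (n T : ℕ) : ℕ := Nat.find (⟨n, Or.inr le_rfl⟩ : ∃ i, T ≤ N i ∨ n ≤ i)

theorem fs_le (N : ℕ → ℕ) (n T : ℕ) : fs N n T ≤ n := Nat.find_min' _ (Or.inr le_rfl)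

theorem fs_iff {N : ℕ → ℕ} (hN : Monotone N) {n i : ℕ} (T : ℕ) (hi : i < n) :
    fs N n T ≤ i ↔ T ≤ N i := by
  refine ⟨fun h => ?_, fun h => Nat.find_min' _ (Or.inl h)⟩
  rcases Nat.find_spec (⟨n, Or.inr le_rfl⟩ : ∃ i, T ≤ N i ∨ n ≤ i) with h1 | h1
  · exact h1.trans (hN h)
  · exact absurd (h1.trans h) (by omega)

theorem fs_mono (N : ℕ → ℕ) (n : ℕ) {T T' : ℕ} (h : T ≤ T') : fs N n T ≤ fs N n T' :=
  Nat.find_mono fun _ hi => hi.imp_left h.trans

theorem grow {N : ℕ → ℕ} {L : ℕ} (hL : 1 ≤ L) (h1 : ∀ i, 1 ≤ N i) (hN : Monotone N)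
    (h2 : ∀ i, 2 * N i ≤ N (i + L)) (i : ℕ) : 2 ^ (i / L) ≤ N i := by
  have : ∀ k, 2 ^ k ≤ N (k * L) := fun k => by
    induction k with
    | zero => exact h1 _
    | succ k ih =>
      have := h2 (k * L)
      rw [add_mul, one_mul, pow_succ]; omega
  exact (this _).trans (hN (Nat.div_mul_le_self _ _))

theorem large_fact (M M' h c : ℕ) [NeZero M] (hc : 1 ≤ c) (hM : M = (2 ^ h).factorial * M') :
    Large M M' (2 ^ h).factorial h ((2 ^ h).factorial ^ c) := by
  refine ⟨hM, fun θ hθ => ?_, dvd_pow_self _ (by omega)⟩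
  obtain ⟨q, a1, a2, a3⟩ := mem_Sg.1 hθ
  obtain ⟨k, hk⟩ := Nat.dvd_factorial a1 a2
  rw [hk]; push_cast; linear_combination (k : ZMod M) * a3

theorem rpow_split (δ : ℝ) (k : ℕ) :
    ((2 : ℝ) ^ k) ^ (-δ) = ((2 : ℝ) ^ (-δ / 2)) ^ k * ((2 : ℝ) ^ (-δ / 2)) ^ k := by
  rw [← mul_pow, ← Real.rpow_add two_pos, add_halves, ← Real.rpow_natCast,
    ← Real.rpow_mul (by norm_num), mul_comm, Real.rpow_mul (by norm_num), Real.rpow_natCast]

theorem rpow_eq (δ : ℝ) (k : ℕ) : ((2 : ℝ) ^ k) ^ (-δ) = ((2 : ℝ) ^ (-δ)) ^ k := by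
  rw [← Real.rpow_natCast, ← Real.rpow_mul (by norm_num), mul_comm, Real.rpow_mul (by norm_num),
    Real.rpow_natCast]

end Asm

open Asm

theorem stDisc (hES : StErrS) (hEL : StErrL) (hD : StLinD) (hL : StLinL) (hT1S : StT1S)
    (hT1L : StT1L) (hT2 : StT2) (hMin : StMinor) (s₁ : ∀ P : ℤ[X], 2 ≤ P.natDegree → SSP X P)
    (s₂ : ∀ P : ℤ[X], 2 ≤ P.natDegree → SSP P X) : StDisc := by
  intro P p₁ p₂ p L hd h₁ h₂ hp hpp hL1
  obtain ⟨cs, δs, hδs, ks⟩ := small_piece hES hD hT1S hT2 P (by omega) (s₁ P hd) (s₂ P hd) h₁ h₂ hp hpp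
  obtain ⟨cl, δl, hδl, kl⟩ := large_piece hEL hL hT1L hT2 P (by omega) (s₁ P hd) (s₂ P hd) h₁ h₂ hp hpp
  obtain ⟨cm, δm, Cm, hδm, hCm, km⟩ := hMin P p₁ p₂ p hd h₁ h₂ hp hpp
  obtain ⟨c, c1, c2, c3, c4⟩ : ∃ c : ℕ, cs ≤ c ∧ cl ≤ c ∧ cm ≤ c ∧ P.natDegree + 2 ≤ c :=
    ⟨cs + cl + cm + P.natDegree + 2, by omega, by omega, by omega, by omega⟩
  obtain ⟨Cs, hCs, ks⟩ := ks L (L * (2 * c))
  obtain ⟨Cl, hCl, kl⟩ := kl L
  obtain ⟨δ, hδ, d1, d2⟩ : ∃ δ : ℝ, 0 < δ ∧ δ ≤ δs ∧ δ ≤ δl :=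
    ⟨min δs δl, by positivity, by simp, by simp⟩
  obtain ⟨ρ, hρ⟩ : ∃ ρ : ℝ, ρ = 2 ^ (-δ / 2) := ⟨_, rfl⟩
  obtain ⟨σ, hσ⟩ : ∃ σ : ℝ, σ = 2 ^ (-δm) := ⟨_, rfl⟩
  have ρ0 : 0 < ρ := by rw [hρ]; positivity
  have σ0 : 0 < σ := by rw [hσ]; positivity
  have ρ1 : ρ < 1 := by rw [hρ]; exact Real.rpow_lt_one_of_one_lt_of_neg one_lt_two (by linarith)
  have σ1 : σ < 1 := by rw [hσ]; exact Real.rpow_lt_one_of_one_lt_of_neg one_lt_two (by linarith)
  have ρ2 := sub_pos.2 ρ1
  have σ2 := sub_pos.2 σ1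
  have hLc : 1 ≤ L * (2 * c) := Nat.mul_pos hL1 (by omega)
  refine ⟨2 * (2 * (4 * (Cs + Cl) * ((1 - ρ)⁻¹ * (1 - ρ)⁻¹)) + 2 * (8 * (Cs + Cl))) +
    2 * (4 * ((Cm + 1) * ((L * (2 * c) : ℕ) * (1 - σ)⁻¹))), by positivity, ?_⟩
  intro N n N1 hN hlac
  refine ⟨2 ^ ((c + N n) * c), fun M _ hM f g => ?_⟩
  have nf := lp_nonneg p₁ f
  have ng := lp_nonneg p₂ g
  have bnd : ∀ i, i < n → N i ≤ 2 ^ (c + N n) := fun i hi =>
    (hN hi.le).trans (Nat.lt_two_pow_self.le.trans (Nat.pow_le_pow_right two_pos (by omega)))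
  let a : ℕ → ℕ := fun h => fs N n (2 ^ (2 * c * h))
  let b : ℕ → ℕ := fun h => fs N n ((2 ^ h).factorial ^ (2 * c))
  have hq : ∀ h k, 2 ^ (k * h) ≤ (2 ^ h).factorial ^ k := fun h k => by
    rw [mul_comm, pow_mul]; exact Nat.pow_le_pow_left (Nat.self_le_factorial _) _
  have ab : ∀ h, a h ≤ b h := fun h => fs_mono N n (hq h _)
  have bn : ∀ h, b h ≤ n := fun h => fs_le ..
  have z : ∀ {i₀ i₁ : ℕ} (k : ℕ) {i : ℕ} (x : ZMod M), i ∉ Ico i₀ i₁ → AK P i₀ i₁ N k f g i x = 0 :=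
    fun k i x hi => AC_zero _ _ _ _ _ _ _ hi _ _ _
  -- the two ranges at level h
  have S : ∀ h, 1 ≤ h →
      JB p (fun i x => AK P (a h) (b h) N h f g i x - AK P (a h) (b h) N (h - 1) f g i x)
        (Cs * ((2 : ℝ) ^ h) ^ (-δs) * lp p₁ f * lp p₂ g) ∧
      JB p (AK P (a h) (b h) N (h - 1) f g) (Cs * 2 ^ h * lp p₁ f * lp p₂ g) := by
    intro h hh
    by_cases hne : a h < b h
    · refine ks M _ _ h (2 ^ (c * h)) N f g (Par.anti ⟨hL1, hh, hne, hN, hlac, fun i hi => ?_,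
        le_rfl, c + N n, by omega, fun i hi => bnd i ?_, hM⟩ c1) ?_
      · obtain ⟨u, v⟩ := mem_Ico.1 hi
        rw [← pow_add, ← two_mul, ← mul_assoc]
        exact (fs_iff hN _ (v.trans_le (bn h))).1 u
      · exact (mem_Ico.1 hi).2.trans_le (bn h)
      · have e1 : N (b h - 1) < (2 ^ h).factorial ^ (2 * c) := by
          by_contra hc
          have := (fs_iff hN _ (show b h - 1 < n by have := bn h; omega)).2 (not_lt.1 hc)
          change b h ≤ b h - 1 at this
          omega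
        have e2 : (2 ^ h).factorial ^ (2 * c) ≤ 2 ^ (h * 2 ^ h * (2 * c)) := by
          rw [pow_mul 2 (h * 2 ^ h), pow_mul 2 h]
          exact Nat.pow_le_pow_left (Nat.factorial_le_pow _) _
        have e3 := (Nat.pow_lt_pow_iff_right one_lt_two).1
          (((grow hL1 N1 hN hlac (b h - 1)).trans_lt e1).trans_le e2)
        rw [Nat.div_lt_iff_lt_mul hL1] at e3
        have e4 : h * 2 ^ h ≤ 4 ^ h := by
          rw [show (4 : ℕ) = 2 * 2 from rfl, mul_pow]
          exact Nat.mul_le_mul_right _ Nat.lt_two_pow_self.le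
        have e5 : h * 2 ^ h * (2 * c) * L ≤ L * (2 * c) * 4 ^ h := by
          calc _ = L * (2 * c) * (h * 2 ^ h) := by ring
            _ ≤ _ := Nat.mul_le_mul_left _ e4
        omega
    · have e : ∀ i, i ∉ Ico (a h) (b h) := fun i hi => by have := mem_Ico.1 hi; omega
      exact ⟨JB_mono (JB_zero hp fun i x => by rw [z _ _ (e i), z _ _ (e i), sub_zero])
        (by positivity), JB_mono (JB_zero hp fun i x => z _ _ (e i)) (by positivity)⟩
  have B : ∀ h, 1 ≤ h →
      JB p (fun i x => AK P (b h) n N h f g i x - AK P (b h) n N (h - 1) f g i x)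
        (Cl * ((2 : ℝ) ^ h) ^ (-δl) * lp p₁ f * lp p₂ g) ∧
      JB p (AK P (b h) n N (h - 1) f g) (Cl * 2 ^ h * lp p₁ f * lp p₂ g) := by
    intro h hh
    by_cases hne : b h < n
    · have e0 : ∀ i ∈ Ico (b h) n, (2 ^ h).factorial ^ (2 * c) ≤ N i := fun i hi =>
        (fs_iff hN _ (mem_Ico.1 hi).2).1 (mem_Ico.1 hi).1
      obtain ⟨M', hM'⟩ : (2 ^ h).factorial ∣ M := by
        refine hM _ (Nat.factorial_pos _) ?_
        calc _ ≤ (2 ^ h).factorial ^ (2 * c) := Nat.le_self_pow (by omega) _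
          _ ≤ N (b h) := e0 _ (mem_Ico.2 ⟨le_rfl, hne⟩)
          _ ≤ 2 ^ (c + N n) := bnd _ hne
          _ ≤ _ := Nat.pow_le_pow_right two_pos (Nat.le_mul_of_pos_right _ (by omega))
      refine kl M M' _ _ _ h _ N f g (Par.anti ⟨hL1, hh, hne, hN, hlac, fun i hi => ?_,
        hq h c, c + N n, by omega, fun i hi => bnd i (mem_Ico.1 hi).2, hM⟩ c2)
        (large_fact M M' h c (by omega) hM')
      refine le_trans ?_ (e0 i hi)
      rw [two_mul, pow_add]
      exact Nat.mul_le_mul_right _ (hq h c)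
    · have e : ∀ i, i ∉ Ico (b h) n := fun i hi => by have := mem_Ico.1 hi; omega
      exact ⟨JB_mono (JB_zero hp fun i x => by rw [z _ _ (e i), z _ _ (e i), sub_zero])
        (by positivity), JB_mono (JB_zero hp fun i x => z _ _ (e i)) (by positivity)⟩
  have J1 := JB_geom hp (range (N n)) _ (B := 4 * (Cs + Cl) * lp p₁ f * lp p₂ g) (by positivity)
    ρ0 ρ1 fun j _ => JB_mono (JB_add hp (S (j + 1) (by omega)).1 (B (j + 1) (by omega)).1) (by
      have e1 := dec_le (j + 1) (C := Cs) (C' := Cs + Cl) (by linarith) (by positivity) d1 nf ng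
      have e2 := dec_le (j + 1) (C := Cl) (C' := Cs + Cl) (by linarith) (by positivity) d2 nf ng
      have e3 : ((2 : ℝ) ^ (j + 1)) ^ (-δ) ≤ ρ ^ j * ρ ^ j := by
        rw [rpow_split, ← hρ]
        have := pow_le_pow_of_le_one ρ0.le ρ1.le (Nat.le_succ j)
        exact mul_le_mul this this (by positivity) (by positivity)
      have e4 : (Cs + Cl) * ((2 : ℝ) ^ (j + 1)) ^ (-δ) * lp p₁ f * lp p₂ g ≤
          (Cs + Cl) * (ρ ^ j * ρ ^ j) * lp p₁ f * lp p₂ g := by gcongr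
      linarith)
  have J2 := JB_add hp (S 1 le_rfl).2 (B 1 le_rfl).2
  -- the remainder
  let hh : ℕ → ℕ := fun i => Nat.log 2 (N i) / (2 * c)
  have act : ∀ i h, 2 ^ (2 * c * h) ≤ N i ↔ h ≤ hh i := fun i h => by
    rw [← Nat.le_log_iff_pow_le one_lt_two (by have := N1 i; omega),
      Nat.le_div_iff_mul_le (by omega), mul_comm]
  let U : ℕ → ℕ → ZMod M → ℂ := fun k i =>
    AA X P (N i) (TT (Sg M (2 ^ k)) (cx (fej (Kk M N 1 k i))) f)
      (TT (Sg M (2 ^ k)) (cx (fej (Kk M N P.natDegree k i))) g)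
  let R : ℕ → ZMod M → ℂ := fun i x =>
    if i < n then AA X P (N i) f g x - (if 1 ≤ hh i then U (hh i) i x else 0) else 0
  have J3 : JB p R (4 * ((Cm + 1) * ((L * (2 * c) : ℕ) * (1 - σ)⁻¹) * lp p₁ f * lp p₂ g)) := by
    refine JB_err hp (I := range n) (fun i x hi => if_neg (by simpa using hi)) ?_
    have e : ∀ i ∈ range n, lp p (R i) ≤ (Cm + 1) * lp p₁ f * lp p₂ g * σ ^ (i / (L * (2 * c))) := by
      intro i hi
      have hi' := mem_range.1 hi
      have e1 : i / (L * (2 * c)) ≤ hh i := by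
        rw [← Nat.div_div_eq_div_mul]
        exact Nat.div_le_div_right (Nat.le_log_of_pow_le one_lt_two (grow hL1 N1 hN hlac i))
      have e2 := pow_le_pow_of_le_one σ0.le σ1.le e1
      refine le_trans ?_ (mul_le_mul_of_nonneg_left e2 (by positivity))
      by_cases h1 : 1 ≤ hh i
      · have e3 := km M (hh i) (N i) f g h1 (le_trans (Nat.pow_le_pow_right two_pos
          (Nat.mul_le_mul_right _ (by omega))) ((act i _).2 le_rfl)) (hM.mono (by
            calc 2 * N i ^ P.natDegree ≤ 2 ^ (c + N n) * (2 ^ (c + N n)) ^ P.natDegree :=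
                  Nat.mul_le_mul (Nat.le_self_pow (by omega) _) (Nat.pow_le_pow_left (bnd i hi') _)
              _ = 2 ^ ((c + N n) * (P.natDegree + 1)) := by ring
              _ ≤ _ := Nat.pow_le_pow_right two_pos (Nat.mul_le_mul_left _ (by omega))))
        rw [rpow_eq, ← hσ] at e3
        simp only [R, if_pos hi', if_pos h1, U, Kk, pow_one]
        refine e3.trans ?_
        have : 0 ≤ lp p₁ f * lp p₂ g * σ ^ hh i := by positivity
        linarith
      · have e3 := lp_AA_le hp (by linarith) (by linarith) hpp X P (N i) f g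
        have e4 : hh i = 0 := by omega
        simp only [R, if_pos hi', if_neg h1, sub_zero]
        rw [e4, pow_zero]
        refine e3.trans ?_
        have : 0 ≤ Cm * lp p₁ f * lp p₂ g := by positivity
        linarith
    refine (sum_le_sum e).trans ?_
    rw [← mul_sum]
    refine (mul_le_mul_of_nonneg_left (sum_div_le n _ hLc σ0.le σ1) (by positivity)).trans ?_
    exact le_of_eq (by ring)
  refine JB_mono (JB_congr (JB_add hp (JB_add hp J1 J2) J3) fun i x => ?_) ?_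
  · by_cases hi : i < n
    · have e : ∀ h k, AK P (a h) (b h) N k f g i x + AK P (b h) n N k f g i x =
          if h ≤ hh i then U k i x else 0 := by
        intro h k
        have e1 : a h ≤ i ↔ h ≤ hh i := (fs_iff hN _ hi).trans (act i h)
        have e2 := ab h
        by_cases h1 : a h ≤ i
        · rw [if_pos (e1.1 h1)]
          by_cases h2 : i < b h
          · rw [z k x (i₀ := b h) (by simp; omega), add_zero]
            exact AC_mem _ _ _ _ _ _ _ (mem_Ico.2 ⟨h1, h2⟩) _ _ _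
          · rw [z k x (i₀ := a h) (by simp; omega), zero_add]
            exact AC_mem _ _ _ _ _ _ _ (mem_Ico.2 ⟨by omega, hi⟩) _ _ _
        · rw [if_neg (mt e1.2 h1), z k x (by simp; omega), z k x (by simp; omega), add_zero]
      have e1 : ∀ j, AK P (a (j + 1)) (b (j + 1)) N (j + 1) f g i x -
          AK P (a (j + 1)) (b (j + 1)) N (j + 1 - 1) f g i x +
          (AK P (b (j + 1)) n N (j + 1) f g i x - AK P (b (j + 1)) n N (j + 1 - 1) f g i x) =
          if j < hh i then U (j + 1) i x - U j i x else 0 := by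
        intro j
        rw [← add_sub_add_comm, e, e, Nat.add_sub_cancel]
        by_cases h1 : j < hh i
        · rw [if_pos h1, if_pos (show j + 1 ≤ hh i from h1), if_pos (show j + 1 ≤ hh i from h1)]
        · rw [if_neg h1, if_neg (show ¬ j + 1 ≤ hh i from h1), if_neg (show ¬ j + 1 ≤ hh i from h1),
            sub_zero]
      have e2 : (range (N n)).filter (fun j => j < hh i) = range (hh i) := by
        have : hh i ≤ N n := (Nat.div_le_self _ _).trans ((Nat.log_le_self _ _).trans (hN hi.le))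
        ext j; simp only [mem_filter, mem_range]; omega
      simp only [e1, e, R, if_pos hi]
      rw [← sum_filter, e2, sum_range_sub fun j => U j i x]
      by_cases h1 : 1 ≤ hh i
      · simp only [if_pos h1]; ring
      · simp only [if_neg h1]
        rw [show hh i = 0 by omega]; ring
    · have e1 : ∀ h, i ∉ Ico (a h) (b h) := fun h h1 => by
        have := mem_Ico.1 h1; have := bn h; omega
      have e2 : ∀ h, i ∉ Ico (b h) n := fun h h1 => by have := mem_Ico.1 h1; omega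
      simp only [z _ _ (e1 _), z _ _ (e2 _), R, if_neg hi]
      simp
  · have : 0 ≤ (Cs + Cl) * lp p₁ f * lp p₂ g := by positivity
    linarith

end

end Pool.Agent.Lib.MP_10e396_an
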