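import Pool.Agent.Lib.MP_10e396_an.Spec

/-! Basic facts on box norms: Cauchy-Schwarz pairing, dual functions, permutations. -/

set_option autoImplicit false

namespace Pool.Agent.Lib.MP_10e396_an.BoxB

open Finset ComplexConjugate

noncomputable section

theorem jensen {X : Type} [Fintype X] {w : X → ℝ} (hw : Prob w) (φ : X → ℝ) (n : ℕ) :
    (∑ x, w x * φ x) ^ 2 ^ n ≤ ∑ x, w x * φ x ^ 2 ^ n := by
  rcases n with _ | n
  · simp
  · have he : Even (2 ^ (n + 1)) := by rw [pow_succ]; exact even_two.mul_left _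
    have := (he.convexOn_pow (𝕜 := ℝ)).map_sum_le (t := univ) (w := w) (p := φ)
      (fun i _ => hw.1 i) hw.2 (fun i _ => Set.mem_univ _)
    simpa using this

theorem prob_unif (X : Type) [Fintype X] [Nonempty X] :
    Prob (fun _ : X => (Fintype.card X : ℝ)⁻¹) := by
  refine ⟨fun _ => by positivity, ?_⟩
  have : (Fintype.card X : ℝ) ≠ 0 := by exact_mod_cast Fintype.card_ne_zero
  simp [this]

theorem prob_prod {X Y : Type} [Fintype X] [Fintype Y] {w : X → ℝ} {v : X → Y → ℝ} (hw : Prob w)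
    (hv : ∀ x, Prob (v x)) : Prob (fun p : X × Y => w p.1 * v p.1 p.2) := by
  refine ⟨fun p => mul_nonneg (hw.1 _) ((hv _).1 _), ?_⟩
  rw [Fintype.sum_prod_type]
  simp only [← mul_sum, (hv _).2, mul_one, hw.2]

theorem cs {X : Type} [Fintype X] {w : X → ℝ} (hw : Prob w) (b u : X → ℂ) (hb : ∀ x, ‖b x‖ ≤ 1) :
    (∑ x, (w x : ℂ) * (b x * u x)).re ^ 2 ≤ ∑ x, w x * ‖u x‖ ^ 2 := by
  have h1 : ‖∑ x, (w x : ℂ) * (b x * u x)‖ ≤ ∑ x, w x * ‖u x‖ := by
    refine (norm_sum_le _ _).trans (sum_le_sum fun x _ => ?_)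
    rw [norm_mul, norm_mul, Complex.norm_real, Real.norm_of_nonneg (hw.1 x)]
    exact mul_le_mul_of_nonneg_left (mul_le_of_le_one_left (norm_nonneg _) (hb x)) (hw.1 x)
  have h2 := jensen hw (fun x => ‖u x‖) 1
  have h3 := (Complex.abs_re_le_norm (∑ x, (w x : ℂ) * (b x * u x))).trans h1
  calc _ ≤ (∑ x, w x * ‖u x‖) ^ 2 := by
        rw [← sq_abs]; exact pow_le_pow_left₀ (abs_nonneg _) h3 2
    _ ≤ _ := by simpa using h2

theorem normsq_sum {X : Type} [Fintype X] (w : X → ℝ) (v : X → ℂ) :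
    ‖∑ a, (w a : ℂ) * v a‖ ^ 2 = ∑ a, ∑ b, w a * w b * (v a * conj (v b)).re := by
  have : ((‖∑ a, (w a : ℂ) * v a‖ ^ 2 : ℝ) : ℂ) =
      ∑ a, ∑ b, ((w a * w b : ℝ) : ℂ) * (v a * conj (v b)) := by
    rw [← Complex.normSq_eq_norm_sq, ← Complex.mul_conj, map_sum, sum_mul_sum]
    refine sum_congr rfl fun a _ => sum_congr rfl fun b _ => ?_
    simp only [map_mul, Complex.conj_ofReal, Complex.ofReal_mul]
    ring
  have h2 := congrArg Complex.re this
  rw [Complex.ofReal_re] at h2
  rw [h2]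
  simp only [Complex.re_sum, Complex.re_ofReal_mul]

theorem low_one {G : Type} (m : ℕ) : Low m (fun _ : List G => (1 : ℂ)) := by
  induction m with
  | zero => rfl
  | succ m ih => exact ⟨fun _ => 1, fun _ _ => 1, fun _ => by simp, fun _ => ih, fun _ _ => by simp⟩

theorem low_mul {G : Type} : ∀ (m : ℕ) {B C : List G → ℂ}, Low m B → Low m C →
    Low m (fun t => B t * C t)
  | 0, B, C, hB, hC => by
    have h1 : B [] = 1 := hB
    have h2 : C [] = 1 := hC
    show B [] * C [] = 1
    rw [h1, h2, mul_one]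
  | m + 1, B, C, ⟨b, B', hb, hB', e⟩, ⟨c, C', hc, hC', e'⟩ =>
    ⟨fun t => b t * c t, fun a t => B' a t * C' a t, fun t => by
      rw [norm_mul]; exact mul_le_one₀ (hb t) (norm_nonneg _) (hc t),
      fun a => low_mul m (hB' a) (hC' a), fun a t => by
        show B (a :: t) * C (a :: t) = _
        rw [e, e']; ring⟩

theorem low_conj {G : Type} : ∀ (m : ℕ) {B : List G → ℂ}, Low m B → Low m (fun t => conj (B t))
  | 0, B, hB => by
    have h1 : B [] = 1 := hB
    show conj (B []) = 1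
    rw [h1, map_one]
  | m + 1, B, ⟨b, B', hb, hB', e⟩ =>
    ⟨fun t => conj (b t), fun a t => conj (B' a t), fun t => by
      rw [Complex.norm_conj]; exact hb t,
      fun a => low_conj m (hB' a), fun a t => by
        show conj (B (a :: t)) = _
        rw [e, map_mul]⟩

theorem low_left {G : Type} (n : ℕ) : ∀ (m : ℕ) (B : List G → List G → ℂ),
    (∀ s, Low m fun t => B t s) → Low (n + m) fun r => B (r.take m) (r.drop m)
  | 0, B, hB => by
    have : (fun r : List G => B (r.take 0) (r.drop 0)) = fun _ => 1 := by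
      funext r
      exact hB r
    rw [this]
    exact low_one _
  | m + 1, B, hB => by
    choose b B' hb hB' e using hB
    refine ⟨fun t => b (t.drop m) (t.take m), fun a t => B' (t.drop m) a (t.take m),
      fun t => hb _ _, fun a => low_left n m (fun t s => B' s a t) fun s => hB' s a,
      fun a t => ?_⟩
    show B ((a :: t).take (m + 1)) ((a :: t).drop (m + 1)) = _
    rw [List.take_succ_cons, List.drop_succ_cons]
    exact e _ a _

theorem low_right {G : Type} (n : ℕ) : ∀ (m : ℕ) (B : List G → List G → ℂ),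
    (∀ t, Low n fun s => B t s) → Low (n + m) fun r => B (r.take m) (r.drop m)
  | 0, B, hB => hB []
  | m + 1, B, hB => by
    refine ⟨fun _ => 1, fun a t => B (a :: t.take m) (t.drop m), fun _ => by simp,
      fun a => low_right n m (fun t s => B (a :: t) s) fun t => hB _, fun a t => ?_⟩
    show B ((a :: t).take (m + 1)) ((a :: t).drop (m + 1)) = _
    rw [List.take_succ_cons, List.drop_succ_cons, one_mul]

variable {G : Type} [Fintype G]

theorem exEL : ∀ (K : List (G → ℝ)), (∀ μ ∈ K, Prob μ) →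
    ∃ (T : Type) (_ : Fintype T) (w : T → ℝ) (e : T → List G), Prob w ∧
      (∀ τ, (e τ).length = K.length) ∧
      ∀ φ : List G → ℂ, EL K φ = ∑ τ, (w τ : ℂ) * φ (e τ)
  | [], _ => ⟨Unit, inferInstance, fun _ => 1, fun _ => [], ⟨fun _ => zero_le_one, by simp⟩,
      fun _ => rfl, fun φ => by simp [EL]⟩
  | μ :: K, h => by
    obtain ⟨T, _, w, e, hw, hl, he⟩ := exEL K fun ν hν => h ν (List.mem_cons_of_mem _ hν)
    refine ⟨G × T, inferInstance, fun p => μ p.1 * w p.2, fun p => p.1 :: e p.2,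
      prob_prod (h μ List.mem_cons_self) fun _ => hw, fun p => by simp [hl], fun φ => ?_⟩
    rw [Fintype.sum_prod_type]
    simp only [EL, he, Complex.real_smul, mul_sum, Complex.ofReal_mul, mul_assoc]

theorem EL_mul_left (c : ℂ) : ∀ (K : List (G → ℝ)) (φ : List G → ℂ),
    EL K (fun t => c * φ t) = c * EL K φ
  | [], _ => rfl
  | μ :: K, φ => by
    simp only [EL, EL_mul_left c K, Complex.real_smul, mul_sum]
    exact sum_congr rfl fun a _ => by ring

theorem EL_append : ∀ (K L : List (G → ℝ)) (φ : List G → ℂ),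
    EL (K ++ L) φ = EL K fun t => EL L fun s => φ (t ++ s)
  | [], _, _ => rfl
  | μ :: K, L, φ => by
    simp only [List.cons_append, EL, EL_append K L]

variable [AddCommGroup G]

theorem sum_shift {E : Type} [AddCommMonoid E] (φ : G → E) (c : G) : ∑ x, φ (x + c) = ∑ x, φ x :=
  Equiv.sum_comp (Equiv.addRight c) φ

theorem box_cons (μ : G → ℝ) (L : List (G → ℝ)) (g : G → ℂ) :
    Box (μ :: L) g = ∑ a, ∑ b, μ a * μ b * Box L fun x => g (x + a) * conj (g (x + b)) := rfl

theorem box_shift : ∀ (L : List (G → ℝ)) (g : G → ℂ) (c : G), Box L (fun x => g (x + c)) = Box L g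
  | [], g, c => by
    simp only [Box]
    rw [sum_shift g c]
  | μ :: L, g, c => by
    simp only [box_cons]
    refine sum_congr rfl fun a _ => sum_congr rfl fun b _ => ?_
    rw [← box_shift L (fun x => g (x + a) * conj (g (x + b))) c]
    simp only [add_right_comm _ c]

theorem box_swap (μ ν : G → ℝ) (L : List (G → ℝ)) (g : G → ℂ) :
    Box (μ :: ν :: L) g = Box (ν :: μ :: L) g := by
  simp only [box_cons, mul_sum]
  rw [sum_congr rfl fun a _ => sum_comm, sum_comm]
  refine sum_congr rfl fun c _ => ?_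
  rw [sum_congr rfl fun a _ => sum_comm, sum_comm]
  refine sum_congr rfl fun d _ => sum_congr rfl fun a _ => sum_congr rfl fun b _ => ?_
  have : (fun x => g (x + c + a) * conj (g (x + c + b)) *
      conj (g (x + d + a) * conj (g (x + d + b)))) = fun x =>
      g (x + a + c) * conj (g (x + a + d)) * conj (g (x + b + c) * conj (g (x + b + d))) := by
    funext x
    simp only [map_mul, Complex.conj_conj, add_right_comm x c, add_right_comm x d]
    ring
  rw [this]
  ring

theorem box_perm {L L' : List (G → ℝ)} (h : L.Perm L') : ∀ g : G → ℂ, Box L g = Box L' g := by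
  induction h with
  | nil => exact fun _ => rfl
  | cons μ _ ih => intro g; simp only [box_cons, ih]
  | swap μ ν L => exact fun g => box_swap _ _ _ _
  | trans _ _ ih ih' => exact fun g => (ih g).trans (ih' g)

theorem box_nonneg : ∀ (L : List (G → ℝ)), (∀ μ ∈ L, Prob μ) → L ≠ [] → ∀ g : G → ℂ, 0 ≤ Box L g
  | [], _, h, _ => absurd rfl h
  | [μ], _, _, g => by
    have : Box [μ] g = (∑ x, ‖∑ a, (μ a : ℂ) * g (x + a)‖ ^ 2) / Fintype.card G := by
      simp only [normsq_sum, Box, Complex.re_sum]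
      conv_rhs => rw [sum_comm, sum_div]
      refine sum_congr rfl fun a _ => ?_
      conv_rhs => rw [sum_comm, sum_div]
      refine sum_congr rfl fun b _ => ?_
      rw [← mul_sum, mul_div_assoc]
    rw [this]
    positivity
  | μ :: ν :: L, h, _, g => by
    rw [box_cons]
    have hμ := h μ List.mem_cons_self
    exact sum_nonneg fun a _ => sum_nonneg fun b _ => mul_nonneg (mul_nonneg (hμ.1 a) (hμ.1 b))
      (box_nonneg (ν :: L) (fun κ hκ => h κ (List.mem_cons_of_mem _ hκ)) (by simp) _)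

theorem bdd_delta {g : G → ℂ} (hg : ∀ x, ‖g x‖ ≤ 1) (a b x : G) :
    ‖g (x + a) * conj (g (x + b))‖ ≤ 1 := by
  rw [norm_mul, Complex.norm_conj]
  exact mul_le_one₀ (hg _) (norm_nonneg _) (hg _)

theorem box_le_one : ∀ (L : List (G → ℝ)), (∀ μ ∈ L, Prob μ) → ∀ g : G → ℂ, (∀ x, ‖g x‖ ≤ 1) →
    Box L g ≤ 1
  | [], _, g, hg => by
    have hc : (0 : ℝ) < Fintype.card G := by exact_mod_cast Fintype.card_pos
    simp only [Box]
    rw [div_le_one hc]
    refine (Complex.re_le_norm _).trans ((norm_sum_le _ _).trans ?_)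
    simpa using sum_le_sum fun x (_ : x ∈ univ) => hg x
  | μ :: L, h, g, hg => by
    have hμ := h μ List.mem_cons_self
    rw [box_cons]
    calc _ ≤ ∑ a, ∑ b, μ a * μ b := sum_le_sum fun a _ => sum_le_sum fun b _ =>
          mul_le_of_le_one_right (mul_nonneg (hμ.1 a) (hμ.1 b))
            (box_le_one L (fun κ hκ => h κ (List.mem_cons_of_mem _ hκ)) _ (bdd_delta hg a b))
      _ = 1 := by simp only [← mul_sum, hμ.2, mul_one]

/-- Jensen over the two parameters of the first direction -/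
theorem jensen_two {μ : G → ℝ} (hμ : Prob μ) (Y : G → G → ℝ) (n : ℕ) :
    (∑ a, ∑ b, μ a * μ b * Y a b) ^ 2 ^ n ≤ ∑ a, ∑ b, μ a * μ b * Y a b ^ 2 ^ n := by
  have := jensen (prob_prod hμ fun _ => hμ) (fun p => Y p.1 p.2) n
  simpa only [Fintype.sum_prod_type] using this

theorem pairing : ∀ (L : List (G → ℝ)), (∀ μ ∈ L, Prob μ) → ∀ (B : G → List G → ℂ) (F : G → ℂ),
    (∀ z, Low L.length (B z)) →
    ((∑ z, EL L fun t => B z t * F (z + t.sum)).re / Fintype.card G) ^ 2 ^ L.length ≤ Box L F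
  | [], _, B, F, hB => by
    have : ∀ z, B z [] = 1 := hB
    simp [EL, Box, this]
  | μ :: L, h, B, F, hB => by
    have hμ := h μ List.mem_cons_self
    have hL : ∀ ν ∈ L, Prob ν := fun κ hκ => h κ (List.mem_cons_of_mem _ hκ)
    choose b B' hb hB' e using hB
    obtain ⟨T, _, w, ε, hw, -, he⟩ := exEL L hL
    have hc := cs (prob_prod (prob_unif G) fun _ => hw) (fun p => b p.1 (ε p.2))
      (fun p => ∑ a, (μ a : ℂ) * (B' p.1 a (ε p.2) * F (p.1 + (ε p.2).sum + a))) fun p => hb _ _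
    have e1 : (∑ z, EL (μ :: L) fun t => B z t * F (z + t.sum)).re / Fintype.card G =
        (∑ p : G × T, (((Fintype.card G : ℝ)⁻¹ * w p.2 : ℝ) : ℂ) * (b p.1 (ε p.2) *
          ∑ a, (μ a : ℂ) * (B' p.1 a (ε p.2) * F (p.1 + (ε p.2).sum + a)))).re := by
      rw [div_eq_inv_mul, ← Complex.re_ofReal_mul, Fintype.sum_prod_type, mul_sum]
      refine congrArg Complex.re (sum_congr rfl fun z _ => ?_)
      simp only [EL, he, e, Complex.real_smul, mul_sum, List.sum_cons]
      rw [sum_comm]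
      refine sum_congr rfl fun τ _ => sum_congr rfl fun a _ => ?_
      rw [show z + (a + (ε τ).sum) = z + (ε τ).sum + a by abel]
      push_cast
      ring
    have e2 : ∑ p : G × T, (Fintype.card G : ℝ)⁻¹ * w p.2 *
        ‖∑ a, (μ a : ℂ) * (B' p.1 a (ε p.2) * F (p.1 + (ε p.2).sum + a))‖ ^ 2 =
        ∑ a, ∑ a', μ a * μ a' * ((∑ z, EL L fun t => (B' z a t * conj (B' z a' t)) *
          (F (z + t.sum + a) * conj (F (z + t.sum + a')))).re / Fintype.card G) := by
      simp only [normsq_sum, he, Complex.re_sum, Complex.re_ofReal_mul, mul_sum, sum_div]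
      rw [sum_comm]
      refine sum_congr rfl fun a _ => ?_
      rw [sum_comm]
      refine sum_congr rfl fun a' _ => ?_
      rw [Fintype.sum_prod_type]
      refine sum_congr rfl fun z _ => sum_congr rfl fun τ _ => ?_
      rw [map_mul, show B' z a (ε τ) * F (z + (ε τ).sum + a) *
        (conj (B' z a' (ε τ)) * conj (F (z + (ε τ).sum + a'))) = B' z a (ε τ) *
        conj (B' z a' (ε τ)) * (F (z + (ε τ).sum + a) * conj (F (z + (ε τ).sum + a'))) by ring]
      ring
    rw [← e1, e2] at hc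
    rw [List.length_cons, pow_succ', pow_mul]
    refine (pow_le_pow_left₀ (sq_nonneg _) hc _).trans ((jensen_two hμ _ _).trans ?_)
    rw [box_cons]
    refine sum_le_sum fun a _ => sum_le_sum fun a' _ =>
      mul_le_mul_of_nonneg_left ?_ (mul_nonneg (hμ.1 a) (hμ.1 a'))
    exact pairing L hL (fun z t => B' z a t * conj (B' z a' t))
      (fun x => F (x + a) * conj (F (x + a')))
      fun z => low_mul _ (hB' z a) (low_conj _ (hB' z a'))

/-- dual functions for a list of directions -/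
def Dl (K : List (G → ℝ)) (U : G → ℂ) : Prop :=
  ∃ (Θ : Type) (_ : Fintype Θ) (w : Θ → ℝ) (B : Θ → G → List G → ℂ), Prob w ∧
    (∀ θ z, Low K.length (B θ z)) ∧ ∀ x, U x = ∑ θ, (w θ : ℂ) * EL K fun t => B θ (x - t.sum) t

theorem dl_pair {K : List (G → ℝ)} (hK : ∀ μ ∈ K, Prob μ) {U : G → ℂ} (hU : Dl K U) (F : G → ℂ) :
    ((∑ x, F x * U x).re / Fintype.card G) ^ 2 ^ K.length ≤ Box K F := by
  obtain ⟨Θ, _, w, B, hw, hB, e⟩ := hU
  obtain ⟨T, _, v, ε, -, -, he⟩ := exEL K hK
  have e1 : (∑ x, F x * U x).re / Fintype.card G = ∑ θ, w θ *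
      ((∑ z, EL K fun t => B θ z t * F (z + t.sum)).re / Fintype.card G) := by
    simp only [e, mul_sum, ← mul_div_assoc, ← Complex.re_ofReal_mul]
    rw [← sum_div, ← Complex.re_sum, sum_comm]
    refine congrArg (fun y : ℂ => y.re / Fintype.card G) (sum_congr rfl fun θ _ => ?_)
    simp only [he, mul_sum]
    rw [sum_comm]
    conv_rhs => rw [sum_comm]
    refine sum_congr rfl fun τ _ => ?_
    rw [← sum_shift _ (ε τ).sum]
    refine sum_congr rfl fun z _ => ?_
    simp only [add_sub_cancel_right]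
    ring
  rw [e1]
  refine (jensen hw _ _).trans ?_
  calc _ ≤ ∑ θ, w θ * Box K F := sum_le_sum fun θ _ =>
        mul_le_mul_of_nonneg_left (pairing K hK (B θ) F (hB θ)) (hw.1 θ)
    _ = _ := by rw [← sum_mul, hw.2, one_mul]

theorem dl_conj {K : List (G → ℝ)} (hK : ∀ μ ∈ K, Prob μ) {U : G → ℂ} (hU : Dl K U) :
    Dl K fun x => conj (U x) := by
  obtain ⟨Θ, _, w, B, hw, hB, e⟩ := hU
  obtain ⟨T, _, v, ε, -, -, he⟩ := exEL K hK
  refine ⟨Θ, inferInstance, w, fun θ z t => conj (B θ z t), hw,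
    fun θ z => low_conj _ (hB θ z), fun x => ?_⟩
  simp only [e, he, map_sum, map_mul, Complex.conj_ofReal]

theorem dl_one {K : List (G → ℝ)} (hK : ∀ μ ∈ K, Prob μ) : Dl K fun _ => 1 := by
  obtain ⟨T, _, v, ε, hv, -, he⟩ := exEL K hK
  refine ⟨Unit, inferInstance, fun _ => 1, fun _ _ _ => 1, ⟨fun _ => zero_le_one, by simp⟩,
    fun _ _ => low_one _, fun x => ?_⟩
  simp only [he, mul_one]
  rw [← Complex.ofReal_sum, hv.2]
  simp

theorem dl_mul {K L : List (G → ℝ)} (hK : ∀ μ ∈ K, Prob μ) (hL : ∀ μ ∈ L, Prob μ) {U V : G → ℂ}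
    (hU : Dl K U) (hV : Dl L V) : Dl (K ++ L) fun x => U x * V x := by
  obtain ⟨Θ, _, w, B, hw, hB, e⟩ := hU
  obtain ⟨Θ', _, w', B', hw', hB', e'⟩ := hV
  obtain ⟨T, _, v, ε, -, hl, he⟩ := exEL K hK
  obtain ⟨T', _, v', ε', -, -, he'⟩ := exEL L hL
  refine ⟨Θ × Θ', inferInstance, fun p => w p.1 * w' p.2, fun p z r =>
    B p.1 (z + (r.drop K.length).sum) (r.take K.length) *
      B' p.2 (z + (r.take K.length).sum) (r.drop K.length), prob_prod hw fun _ => hw',
    fun p z => ?_, fun x => ?_⟩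
  · rw [List.length_append, add_comm]
    exact low_mul _ (low_left _ _ (fun t s => B p.1 (z + s.sum) t) fun s => hB _ _)
      (low_right _ _ (fun t s => B' p.2 (z + t.sum) s) fun t => hB' _ _)
  · beta_reduce
    rw [e, e', sum_mul_sum, Fintype.sum_prod_type]
    refine sum_congr rfl fun θ _ => sum_congr rfl fun θ' _ => ?_
    rw [EL_append]
    simp only [he, he']
    rw [mul_mul_mul_comm, sum_mul_sum]
    push_cast
    refine congrArg _ (sum_congr rfl fun τ _ => ?_)
    rw [mul_sum]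
    refine sum_congr rfl fun τ' _ => ?_
    rw [List.take_left' (hl τ), List.drop_left' (hl τ), List.sum_append,
      show x - ((ε τ).sum + (ε' τ').sum) + (ε' τ').sum = x - (ε τ).sum by abel,
      show x - ((ε τ).sum + (ε' τ').sum) + (ε τ).sum = x - (ε' τ').sum by abel]
    ring

/-- the dual function of `u` -/
def Du : List (G → ℝ) → (G → ℂ) → G → ℂ
  | [], _, _ => 1
  | μ :: K, u, x => ∑ a, ∑ b, ((μ a * μ b : ℝ) : ℂ) * (conj (u (x - a + b)) *
      Du K (fun y => u (y + a) * conj (u (y + b))) (x - a))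

theorem box_du : ∀ (K : List (G → ℝ)) (u : G → ℂ),
    Box K u = (∑ x, u x * Du K u x).re / Fintype.card G
  | [], u => by simp [Box, Du]
  | μ :: K, u => by
    simp only [box_cons, box_du K, Du, mul_sum, ← mul_div_assoc, ← Complex.re_ofReal_mul]
    simp only [← sum_div, ← Complex.re_sum]
    refine congrArg (fun y : ℂ => y.re / Fintype.card G) ?_
    conv_rhs => rw [sum_comm]
    refine sum_congr rfl fun a _ => ?_
    conv_rhs => rw [sum_comm]
    refine sum_congr rfl fun b _ => ?_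
    conv_rhs => rw [← sum_shift _ a]
    refine sum_congr rfl fun z _ => ?_
    simp only [add_sub_cancel_right]
    ring

theorem du_rep : ∀ (K : List (G → ℝ)), (∀ μ ∈ K, Prob μ) →
    ∃ (Θ : Type) (_ : Fintype Θ) (w : Θ → ℝ), Prob w ∧ ∀ u : G → ℂ, (∀ x, ‖u x‖ ≤ 1) →
      ∃ B : Θ → G → List G → ℂ, (∀ θ z, Low K.length (B θ z)) ∧
        ∀ x, Du K u x = ∑ θ, (w θ : ℂ) * EL K fun t => B θ (x - t.sum) t
  | [], _ => ⟨Unit, inferInstance, fun _ => 1, ⟨fun _ => zero_le_one, by simp⟩, fun _ _ =>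
      ⟨fun _ _ _ => 1, fun _ _ => rfl, fun x => by simp [Du, EL]⟩⟩
  | μ :: K, h => by
    obtain ⟨Θ, _, w, hw, H⟩ := du_rep K fun ν hν => h ν (List.mem_cons_of_mem _ hν)
    refine ⟨G × Θ, inferInstance, fun p => μ p.1 * w p.2,
      prob_prod (h μ List.mem_cons_self) fun _ => hw, fun u hu => ?_⟩
    choose B hB e using fun a b => H (fun y => u (y + a) * conj (u (y + b))) (bdd_delta hu a b)
    refine ⟨fun p z r => conj (u (z + r.tail.sum + p.1)) * B (r.headD 0) p.1 p.2 z r.tail,
      fun p z => ⟨fun t => conj (u (z + t.sum + p.1)), fun a t => B a p.1 p.2 z t,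
        fun t => by rw [Complex.norm_conj]; exact hu _, fun a => hB a _ _ _, fun a t => rfl⟩,
      fun x => ?_⟩
    simp only [Du, e, EL, Fintype.sum_prod_type, List.tail_cons, List.headD_cons, List.sum_cons,
      Complex.real_smul, mul_sum]
    rw [sum_comm]
    refine sum_congr rfl fun b _ => ?_
    rw [sum_comm]
    refine sum_congr rfl fun θ _ => sum_congr rfl fun a _ => ?_
    have : (fun t : List G => conj (u (x - (a + t.sum) + t.sum + b)) *
        B a b θ (x - (a + t.sum)) t) = fun t => conj (u (x - a + b)) * B a b θ (x - a - t.sum) t := by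
      funext t
      rw [show x - (a + t.sum) + t.sum + b = x - a + b by abel, sub_sub]
    rw [this, EL_mul_left]
    push_cast
    ring

theorem dl_du {K : List (G → ℝ)} (hK : ∀ μ ∈ K, Prob μ) {u : G → ℂ} (hu : ∀ x, ‖u x‖ ≤ 1) :
    Dl K (Du K u) := by
  obtain ⟨Θ, _, w, hw, H⟩ := du_rep K hK
  obtain ⟨B, hB, e⟩ := H u hu
  exact ⟨Θ, inferInstance, w, B, hw, hB, e⟩

/-- adding directions -/
theorem box_mono {K L : List (G → ℝ)} (hK : ∀ μ ∈ K, Prob μ) (hL : ∀ μ ∈ L, Prob μ) {u : G → ℂ}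
    (hu : ∀ x, ‖u x‖ ≤ 1) : Box K u ^ 2 ^ (K ++ L).length ≤ Box (K ++ L) u := by
  have := dl_pair (K := K ++ L) (fun μ hμ => (List.mem_append.1 hμ).elim (hK μ) (hL μ))
    (dl_mul hK hL (dl_du hK hu) (dl_one hL)) u
  simp only [mul_one] at this
  rwa [← box_du] at this

end

end Pool.Agent.Lib.MP_10e396_an.BoxB
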