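import Pool.Agent.Lib.MP_10e396_an.CZD

/-! Job Z: martingale transforms and the comparison of smooth and dyadic averages. -/

set_option autoImplicit false

namespace Pool.Agent.Lib.MP_10e396_an

open Finset Matrix ZJ

noncomputable section

theorem stMT (hL : StLayer) (hD : StDual) : StMT := by
  intro p hp
  obtain ⟨C, hC, h⟩ := cz hL hD hp
  refine ⟨C, hC, fun M _ τ c f hτ hc => ?_⟩
  have e : (∑ n ∈ range (τ + 1), c n • PP M τ n)ᵀ = ∑ n ∈ range (τ + 1), c n • PP M τ n := by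
    simp only [transpose_sum, transpose_smul, PP_tr]
  have := h M τ _ 1 one_pos hτ (bd_MT hτ hc) (HH_MT τ c) (by rw [e]; exact HH_MT τ c) f
  rw [mul_one] at this
  refine le_trans (le_of_eq ?_) this
  congr 1
  funext x
  rw [ap_ksum, sum_range_succ, add_comm, PP, if_neg (lt_irrefl τ), dy_eq]
  congr 1
  refine sum_congr rfl fun j hj => ?_
  rw [PP, if_pos (mem_range.1 hj), ap_ksub, dy_eq, dy_eq]

lemma ZJ.HH.mono {M : ℕ} [NeZero M] {τ : ℕ} {A : Matrix (ZMod M) (ZMod M) ℝ} {B B' : ℝ}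
    (h : HH τ A B) (hB : B ≤ B') : HH τ A B' := fun l hl y b h1 h2 =>
  (h l hl y b h1 h2).trans (mul_le_mul_of_nonneg_right hB (by positivity))

theorem stRC (hL : StLayer) (hD : StDual) : StRC := by
  intro p hp
  obtain ⟨C, hC, h⟩ := cz hL hD hp
  refine ⟨C * 54450, by positivity, fun M _ L γ i₀ i₁ τ r k c f hk hc => ?_⟩
  have tr : ∀ i, (Kk (k i) - Ek M (lv (r i)))ᵀ = Kk (fun t => k i (-t)) - Ek M (lv (r i)) := by
    intro i
    rw [transpose_sub, Ek_tr]
    congr 1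
    ext x z
    simp [Kk]
  have hL1 : (1 : ℝ) ≤ L := by exact_mod_cast hk.one
  have hγ : (0 : ℝ) ≤ γ := γ.cast_nonneg
  have g1 : ∀ (s : Finset ℕ) (a b : ℕ), b ≤ a + γ + 1 →
      ∑ n ∈ s, 5 * (15 / 16 : ℝ) ^ ((a - n) + (n - b)) ≤ 165 * (γ + 1) := by
    intro s a b hb
    have h1 := geo s a b
    have h2 : ((b - a : ℕ) : ℝ) ≤ γ + 1 := by exact_mod_cast (by omega)
    rw [← mul_sum]
    linarith
  have hB := cot hk.dvd (Ico i₀ i₁) (fun i => Kk (k i) - Ek M (lv (r i))) hc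
    (σ := fun i n => 5 * (15 / 16 : ℝ) ^ ((lv (r i) - (n + 1)) + ((n - γ) - lv (r i))))
    (fun _ _ => by positivity) (W₁ := 165 * (γ + 1)) (W₂ := 2 * L * (165 * (γ + 1)))
    (fun i hi n hn => piece hk hi hn)
    (fun i hi n hn => by rw [tr]; exact piece (ker_neg hk) hi hn) (by positivity)
    (fun i _ => le_trans (le_of_eq (sum_congr rfl fun n _ => by congr 2; omega))
      (g1 _ (lv (r i) - 1) (γ + lv (r i)) (by omega)))
    (fun n _ => (mult hk (φ := fun j => 5 * (15 / 16 : ℝ) ^ ((j - (n + 1)) + ((n - γ) - j)))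
      fun _ => by positivity).trans (mul_le_mul_of_nonneg_left
        (le_trans (le_of_eq (sum_congr rfl fun j _ => by rw [add_comm]))
          (g1 _ (n - γ) (n + 1) (by omega))) (by positivity)))
  have hle : 128 * (L : ℝ) * (γ + 32) ≤ 165 * (γ + 1) * (2 * L * (165 * (γ + 1))) := by
    have : 128 * ((γ : ℝ) + 32) ≤ 165 * (γ + 1) * (2 * (165 * (γ + 1))) := by nlinarith
    nlinarith
  have := h M τ _ _ (by positivity) hk.dvd hB ((HH_RC hk hc).mono hle) (by
    simp only [transpose_sum, transpose_smul, tr]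
    exact (HH_RC (ker_neg hk) hc).mono hle) f
  refine le_trans (le_of_eq ?_) (this.trans (le_of_eq (by ring)))
  congr 1
  funext x
  rw [ap_ksum]
  refine sum_congr rfl fun i _ => ?_
  rw [ap_ksub, dy_eq]
  rfl

end

end Pool.Agent.Lib.MP_10e396_an
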