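import Pool.Agent.Lib.MP_10e396_an.Spec

/-! Job Z, part A: kernels, Schur test, dyadic averaging kernels. -/

set_option autoImplicit false

namespace Pool.Agent.Lib.MP_10e396_an

open Finset Matrix

noncomputable section

namespace ZJ

section gen
variable {X : Type} [Fintype X]

/-- a real kernel acting on complex functions -/
def ap (A : Matrix X X ℝ) (f : X → ℂ) (x : X) : ℂ := ∑ z, (A x z : ℂ) * f z

/-- squared operator norm at most `ρ` -/
def Bd (A : Matrix X X ℝ) (ρ : ℝ) : Prop :=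
  ∀ u v : X → ℝ, (u ⬝ᵥ A *ᵥ v) ^ 2 ≤ ρ * (u ⬝ᵥ u) * (v ⬝ᵥ v)

lemma dot_nonneg (u : X → ℝ) : 0 ≤ u ⬝ᵥ u := sum_nonneg fun _ _ => mul_self_nonneg _

lemma schur {A : Matrix X X ℝ} {a b : ℝ} (ha : ∀ x, ∑ z, |A x z| ≤ a)
    (hb : ∀ z, ∑ x, |A x z| ≤ b) : Bd A (a * b) := by
  intro u v
  have h := sum_sq_le_sum_mul_sum_of_sq_le_mul (univ : Finset (X × X))
    (r := fun p => u p.1 * (A p.1 p.2 * v p.2)) (f := fun p => |A p.1 p.2| * (u p.1 * u p.1))
    (g := fun p => |A p.1 p.2| * (v p.2 * v p.2))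
    (fun p _ => mul_nonneg (abs_nonneg _) (mul_self_nonneg _))
    (fun p _ => mul_nonneg (abs_nonneg _) (mul_self_nonneg _))
    (fun p _ => le_of_eq (by
      have := abs_mul_abs_self (A p.1 p.2)
      linear_combination (-(u p.1 * u p.1 * (v p.2 * v p.2))) * this))
  have e : u ⬝ᵥ A *ᵥ v = ∑ p : X × X, u p.1 * (A p.1 p.2 * v p.2) := by
    rw [Fintype.sum_prod_type]
    simp only [dotProduct, mulVec, mul_sum]
  have h1 : ∑ p : X × X, |A p.1 p.2| * (u p.1 * u p.1) ≤ a * (u ⬝ᵥ u) := by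
    rw [Fintype.sum_prod_type, dotProduct, mul_sum]
    refine sum_le_sum fun x _ => ?_
    dsimp only
    rw [← sum_mul]
    exact mul_le_mul_of_nonneg_right (ha x) (mul_self_nonneg _)
  have h2 : ∑ p : X × X, |A p.1 p.2| * (v p.2 * v p.2) ≤ b * (v ⬝ᵥ v) := by
    rw [Fintype.sum_prod_type_right, dotProduct, mul_sum]
    refine sum_le_sum fun x _ => ?_
    dsimp only
    rw [← sum_mul]
    exact mul_le_mul_of_nonneg_right (hb x) (mul_self_nonneg _)
  have p1 : 0 ≤ ∑ p : X × X, |A p.1 p.2| * (u p.1 * u p.1) :=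
    sum_nonneg fun p _ => mul_nonneg (abs_nonneg _) (mul_self_nonneg _)
  have p2 : 0 ≤ ∑ p : X × X, |A p.1 p.2| * (v p.2 * v p.2) :=
    sum_nonneg fun p _ => mul_nonneg (abs_nonneg _) (mul_self_nonneg _)
  rw [e]
  refine h.trans ((mul_le_mul h1 h2 p2 (p1.trans h1)).trans (le_of_eq (by ring)))

lemma Bd.tr {A : Matrix X X ℝ} {ρ : ℝ} (h : Bd A ρ) : Bd Aᵀ ρ := by
  intro u v
  rw [mulVec_transpose, dotProduct_comm, ← dotProduct_mulVec]
  exact (h v u).trans (le_of_eq (by ring))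

lemma Bd.mono {A : Matrix X X ℝ} {ρ ρ' : ℝ} (h : Bd A ρ) (hρ : ρ ≤ ρ') : Bd A ρ' := fun u v =>
  (h u v).trans (mul_le_mul_of_nonneg_right (mul_le_mul_of_nonneg_right hρ (dot_nonneg u))
    (dot_nonneg v))

lemma Bd.real {A : Matrix X X ℝ} {ρ : ℝ} (h : Bd A ρ) (hρ : 0 ≤ ρ) (v : X → ℝ) :
    (A *ᵥ v) ⬝ᵥ (A *ᵥ v) ≤ ρ * (v ⬝ᵥ v) := by
  have h1 := h (A *ᵥ v) v
  rcases (dot_nonneg (A *ᵥ v)).eq_or_lt with h0 | h0
  · rw [← h0]; exact mul_nonneg hρ (dot_nonneg v)
  · refine le_of_mul_le_mul_left ?_ h0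
    nlinarith

lemma sq_split (f : X → ℂ) : ∑ x, ‖f x‖ ^ 2 =
    (fun x => (f x).re) ⬝ᵥ (fun x => (f x).re) + (fun x => (f x).im) ⬝ᵥ (fun x => (f x).im) := by
  simp only [dotProduct, ← sum_add_distrib, Complex.sq_norm, Complex.normSq_apply]

lemma Bd.l2 {A : Matrix X X ℝ} {ρ : ℝ} (h : Bd A ρ) (hρ : 0 ≤ ρ) (f : X → ℂ) :
    ∑ x, ‖ap A f x‖ ^ 2 ≤ ρ * ∑ x, ‖f x‖ ^ 2 := by
  have e1 : (fun x => (ap A f x).re) = A *ᵥ fun x => (f x).re := by
    funext x; simp [ap, mulVec, dotProduct]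
  have e2 : (fun x => (ap A f x).im) = A *ᵥ fun x => (f x).im := by
    funext x; simp [ap, mulVec, dotProduct]
  rw [sq_split, sq_split, e1, e2, mul_add]
  exact add_le_add (h.real hρ _) (h.real hρ _)

lemma ap_add (A : Matrix X X ℝ) (f g : X → ℂ) (x : X) :
    ap A (fun z => f z + g z) x = ap A f x + ap A g x := by
  simp only [ap, mul_add, sum_add_distrib]

lemma ap_sum {I : Type} (A : Matrix X X ℝ) (s : Finset I) (f : I → X → ℂ) (x : X) :
    ap A (fun z => ∑ i ∈ s, f i z) x = ∑ i ∈ s, ap A (f i) x := by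
  simp only [ap, mul_sum]; rw [sum_comm]

lemma ap_smul (A : Matrix X X ℝ) (c : ℂ) (f : X → ℂ) (x : X) :
    ap A (fun z => c * f z) x = c * ap A f x := by
  simp only [ap, mul_sum]; exact sum_congr rfl fun z _ => by ring

lemma ap_mul (A B : Matrix X X ℝ) (f : X → ℂ) (x : X) : ap (A * B) f x = ap A (ap B f) x := by
  simp only [ap, mul_apply, Complex.ofReal_sum, Complex.ofReal_mul, sum_mul, mul_sum]
  rw [sum_comm]
  exact sum_congr rfl fun z _ => sum_congr rfl fun y _ => by ring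

lemma ap_ksum {I : Type} (s : Finset I) (c : I → ℝ) (A : I → Matrix X X ℝ) (f : X → ℂ) (x : X) :
    ap (∑ i ∈ s, c i • A i) f x = ∑ i ∈ s, c i • ap (A i) f x := by
  simp only [ap, Matrix.sum_apply, Matrix.smul_apply, smul_eq_mul, Complex.ofReal_sum,
    Complex.ofReal_mul, sum_mul, Complex.real_smul, mul_sum]
  rw [sum_comm]
  exact sum_congr rfl fun z _ => sum_congr rfl fun y _ => by ring

lemma ap_ksub (A B : Matrix X X ℝ) (f : X → ℂ) (x : X) :
    ap (A - B) f x = ap A f x - ap B f x := by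
  simp only [ap, Matrix.sub_apply, Complex.ofReal_sub, sub_mul, sum_sub_distrib]

lemma ap_norm_le (A : Matrix X X ℝ) (f : X → ℂ) (x : X) :
    ‖ap A f x‖ ≤ ∑ z, |A x z| * ‖f z‖ :=
  (norm_sum_le _ _).trans (le_of_eq (sum_congr rfl fun z _ => by simp))

lemma ap_pair (A : Matrix X X ℝ) (f g : X → ℂ) :
    ∑ x, ap A f x * g x = ∑ x, f x * ap Aᵀ g x := by
  simp only [ap, sum_mul, mul_sum, transpose_apply]
  rw [sum_comm]
  exact sum_congr rfl fun z _ => sum_congr rfl fun y _ => by ring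

end gen

section cyc
variable {M : ℕ} [NeZero M]

/-- same dyadic atom of level `j` -/
def sm (j : ℕ) (x z : ZMod M) : Prop := z.val / 2 ^ j = x.val / 2 ^ j

instance (j : ℕ) (x z : ZMod M) : Decidable (sm j x z) := by unfold sm; infer_instance

omit [NeZero M] in
lemma sm_refl (j : ℕ) (x : ZMod M) : sm j x x := rfl

omit [NeZero M] in
lemma sm.symm {j : ℕ} {x z : ZMod M} (h : sm j x z) : sm j z x := Eq.symm h

omit [NeZero M] in
lemma sm.trans {j : ℕ} {x y z : ZMod M} (h : sm j x y) (h' : sm j y z) : sm j x z :=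
  Eq.trans h' h

omit [NeZero M] in
lemma sm.mono {j l : ℕ} {x z : ZMod M} (h : sm j x z) (hl : j ≤ l) : sm l x z := by
  obtain ⟨d, rfl⟩ := Nat.exists_eq_add_of_le hl
  unfold sm at *
  rw [pow_add, ← Nat.div_div_eq_div_mul, ← Nat.div_div_eq_div_mul, h]

lemma atom_le {j : ℕ} (hj : 2 ^ j ∣ M) (x : ZMod M) : (x.val / 2 ^ j + 1) * 2 ^ j ≤ M := by
  obtain ⟨c, hc⟩ := hj
  have h1 : x.val / 2 ^ j < c :=
    Nat.div_lt_of_lt_mul (hc ▸ ZMod.val_lt x)
  calc _ ≤ c * 2 ^ j := Nat.mul_le_mul_right _ h1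
    _ = M := by rw [hc, mul_comm]

lemma card_atom {j : ℕ} (hj : 2 ^ j ∣ M) (x : ZMod M) :
    (univ.filter fun z => sm j x z).card = 2 ^ j := by
  have hp : 0 < 2 ^ j := by positivity
  have h := atom_le hj x
  conv_rhs => rw [← card_range (2 ^ j)]
  refine card_nbij' (fun z => z.val % 2 ^ j) (fun i => ((x.val / 2 ^ j * 2 ^ j + i : ℕ) : ZMod M))
    (fun z _ => by simpa using Nat.mod_lt _ hp) ?_ ?_ ?_
  · intro i hi
    have hi' : i < 2 ^ j := by simpa using hi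
    simp only [coe_filter, mem_univ, true_and, Set.mem_ofPred_eq, sm]
    rw [ZMod.val_cast_of_lt (by nlinarith), add_comm, Nat.add_mul_div_right _ _ hp,
      Nat.div_eq_of_lt hi', zero_add]
  · intro z hz
    have hz' : z.val / 2 ^ j = x.val / 2 ^ j := by simpa [sm] using hz
    simp only
    rw [← hz', Nat.div_add_mod', ZMod.natCast_zmod_val]
  · intro i hi
    have hi' : i < 2 ^ j := by simpa using hi
    simp only
    rw [ZMod.val_cast_of_lt (by nlinarith), add_comm, Nat.add_mul_mod_self_right,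
      Nat.mod_eq_of_lt hi']

/-- the averaging kernel -/
def Ek (M : ℕ) (j : ℕ) : Matrix (ZMod M) (ZMod M) ℝ :=
  Matrix.of fun x z => if sm j x z then ((2 : ℝ) ^ j)⁻¹ else 0

omit [NeZero M] in
lemma Ek_apply (j : ℕ) (x z : ZMod M) :
    Ek M j x z = if sm j x z then ((2 : ℝ) ^ j)⁻¹ else 0 := rfl

omit [NeZero M] in
lemma Ek_nonneg (j : ℕ) (x z : ZMod M) : 0 ≤ Ek M j x z := by
  rw [Ek_apply]; split_ifs <;> positivity

omit [NeZero M] in
lemma Ek_symm (j : ℕ) (x z : ZMod M) : Ek M j x z = Ek M j z x := by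
  simp only [Ek_apply]
  exact if_congr ⟨sm.symm, sm.symm⟩ rfl rfl

omit [NeZero M] in
lemma Ek_tr (j : ℕ) : (Ek M j)ᵀ = Ek M j := by
  ext x z; exact Ek_symm j z x

lemma Ek_row {j : ℕ} (hj : 2 ^ j ∣ M) (x : ZMod M) : ∑ z, Ek M j x z = 1 := by
  simp only [Ek_apply]
  rw [← sum_filter, sum_const, card_atom hj, nsmul_eq_mul]
  push_cast
  exact mul_inv_cancel₀ (by positivity)

lemma Ek_col {j : ℕ} (hj : 2 ^ j ∣ M) (z : ZMod M) : ∑ x, Ek M j x z = 1 := by
  simp only [Ek_symm j _ z]; exact Ek_row hj z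

lemma Ek_inv {j : ℕ} (hj : 2 ^ j ∣ M) (x : ZMod M) (F : ZMod M → ℝ)
    (hF : ∀ z, sm j x z → F z = F x) : ∑ z, Ek M j x z * F z = F x := by
  rw [← one_mul (F x), ← Ek_row hj x, sum_mul]
  refine sum_congr rfl fun z _ => ?_
  rw [Ek_apply]
  split_ifs with h
  · rw [hF z h]
  · simp

lemma Ek_mul {j l : ℕ} (hj : 2 ^ j ∣ M) (h : j ≤ l) : Ek M j * Ek M l = Ek M l := by
  ext x z
  rw [mul_apply]
  refine Ek_inv hj x (fun y => Ek M l y z) fun y hy => ?_
  simp only [Ek_apply]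
  exact if_congr ⟨fun e => (hy.mono h).trans e, fun e => (hy.mono h).symm.trans e⟩ rfl rfl

lemma Ek_mul' {j l : ℕ} (hj : 2 ^ j ∣ M) (h : j ≤ l) : Ek M l * Ek M j = Ek M l := by
  have := congrArg transpose (Ek_mul hj h)
  rwa [transpose_mul, Ek_tr, Ek_tr] at this

lemma Ek_zero : Ek M 0 = 1 := by
  ext x z
  simp only [Ek_apply, sm, pow_zero, Nat.div_one, inv_one, one_apply]
  exact if_congr ⟨fun e => (ZMod.val_injective M e).symm, fun e => by rw [e]⟩ rfl rfl

lemma dy_eq (j : ℕ) (f : ZMod M → ℂ) (x : ZMod M) : dy j f x = ap (Ek M j) f x := by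
  unfold dy ap
  rw [sum_filter, smul_eq_mul, mul_sum]
  refine sum_congr rfl fun z _ => ?_
  rw [Ek_apply]
  unfold sm
  split_ifs <;> simp

lemma ab_neg (x : ZMod M) : ab (-x) = ab x := ZMod.natAbs_valMinAbs_neg x

lemma ab_add (x y : ZMod M) : ab (x + y) ≤ ab x + ab y :=
  (ZMod.natAbs_valMinAbs_add_le x y).trans (Int.natAbs_add_le _ _)

lemma ab_nat (n : ℕ) : ab (n : ZMod M) ≤ n := by
  unfold ab
  rw [ZMod.valMinAbs_natAbs_eq_min, ZMod.val_natCast]
  exact (min_le_left _ _).trans (Nat.mod_le _ _)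

lemma ab_cases (t : ZMod M) : t = (ab t : ℕ) ∨ t = -((ab t : ℕ) : ZMod M) := by
  have h := ZMod.coe_valMinAbs t
  rcases Int.natAbs_eq t.valMinAbs with e | e
  · left; rw [← h]; conv_lhs => rw [e]
    simp [ab]
  · right; rw [← h]; conv_lhs => rw [e]
    simp [ab]

lemma sm_ab {j : ℕ} {x z : ZMod M} (h : sm j x z) : ab (x - z) < 2 ^ j := by
  have hp : 0 < 2 ^ j := by positivity
  have key : ∀ x z : ZMod M, sm j x z → z.val ≤ x.val → ab (x - z) < 2 ^ j := by
    intro x z h hle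
    have e : x - z = ((x.val - z.val : ℕ) : ZMod M) := by
      rw [Nat.cast_sub hle, ZMod.natCast_zmod_val, ZMod.natCast_zmod_val]
    rw [e]
    refine (ab_nat _).trans_lt ?_
    have h1 := Nat.div_add_mod x.val (2 ^ j)
    have h2 := Nat.div_add_mod z.val (2 ^ j)
    have h3 := Nat.mod_lt x.val hp
    rw [show z.val / 2 ^ j = x.val / 2 ^ j from h] at h2
    omega
  rcases le_total z.val x.val with c | c
  · exact key x z h c
  · rw [← ab_neg, neg_sub]; exact key z x h.symm c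

lemma card_ball (z : ZMod M) (R : ℕ) : (univ.filter fun x => ab (x - z) < R).card ≤ 2 * R := by
  have : (Ioo (-(R : ℤ)) R).card ≤ 2 * R := by rw [Int.card_Ioo]; omega
  refine le_trans (card_le_card_of_injOn (fun x => (x - z).valMinAbs) (fun x hx => ?_) ?_) this
  · have : ab (x - z) < R := by simpa using hx
    unfold ab at this
    simp only [coe_Ioo, Set.mem_Ioo]
    omega
  · intro x _ y _ e
    exact sub_left_injective (ZMod.injective_valMinAbs e)

lemma shift_le (k : ZMod M → ℝ) {Λ : ℝ} (h : ∑ t, |k (t + 1) - k t| ≤ Λ) (s : ZMod M) :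
    ∑ t, |k (t + s) - k t| ≤ ab s * Λ := by
  have key : ∀ n : ℕ, ∑ t, |k (t + n) - k t| ≤ n * Λ := by
    intro n
    induction n with
    | zero => simp
    | succ n ih =>
      have e : ∑ t, |k (t + n + 1) - k (t + n)| = ∑ t, |k (t + 1) - k t| :=
        Equiv.sum_comp (Equiv.addRight (n : ZMod M)) (fun t => |k (t + 1) - k t|)
      have : ∑ t, |k (t + (n + 1 : ℕ)) - k t| ≤
          ∑ t, (|k (t + n + 1) - k (t + n)| + |k (t + n) - k t|) :=
        sum_le_sum fun t _ => by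
          push_cast
          rw [← add_assoc]
          exact abs_sub_le _ _ _
      rw [sum_add_distrib, e] at this
      push_cast at this ⊢
      linarith
  rcases ab_cases s with e | e
  · conv_lhs => rw [e]
    exact key _
  · refine le_trans (le_of_eq ?_) (key (ab s))
    conv_lhs => rw [e]
    rw [← Equiv.sum_comp (Equiv.addRight ((ab s : ℕ) : ZMod M))]
    refine sum_congr rfl fun t _ => ?_
    simp [abs_sub_comm]

lemma shift_le' (k : ZMod M → ℝ) {Λ : ℝ} (h : ∑ t, |k (t + 1) - k t| ≤ Λ) (z z' : ZMod M) :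
    ∑ x, |k (x - z) - k (x - z')| ≤ ab (z' - z) * Λ := by
  refine le_trans (le_of_eq ?_) (shift_le k h (z' - z))
  rw [← Equiv.sum_comp (Equiv.addRight z')]
  refine sum_congr rfl fun t _ => ?_
  simp [add_sub_assoc]

lemma tv_atom {j : ℕ} (hj : 2 ^ j ∣ M) (z : ZMod M) :
    ∑ t, |Ek M j (t + 1) z - Ek M j t z| ≤ 2 * ((2 : ℝ) ^ j)⁻¹ := by
  have hp : 0 < 2 ^ j := by positivity
  have hle := atom_le hj z
  set q := z.val / 2 ^ j with hq
  have key : ∀ t : ZMod M, t ≠ ((q * 2 ^ j + 2 ^ j - 1 : ℕ) : ZMod M) →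
      t ≠ ((q * 2 ^ j : ℕ) : ZMod M) - 1 → (sm j (t + 1) z ↔ sm j t z) := by
    intro t h1 h2
    have h1' : t.val ≠ q * 2 ^ j + 2 ^ j - 1 := fun e => h1 (by rw [← e, ZMod.natCast_zmod_val])
    have h2' : (t + 1).val ≠ q * 2 ^ j := fun e =>
      h2 (by rw [← e, ZMod.natCast_zmod_val, add_sub_cancel_right])
    have hs : ∀ y : ZMod M, sm j y z ↔ q * 2 ^ j ≤ y.val ∧ y.val < q * 2 ^ j + 2 ^ j := by
      intro y
      unfold sm
      rw [← hq, eq_comm, Nat.div_eq_iff hp]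
      omega
    have hv : (t + 1).val = (t.val + 1) % M := by
      conv_lhs => rw [← ZMod.natCast_zmod_val t, ← Nat.cast_succ, ZMod.val_natCast]
    have ht := ZMod.val_lt t
    rw [add_mul, one_mul] at hle
    rw [hs, hs]
    by_cases c : t.val + 1 < M
    · rw [Nat.mod_eq_of_lt c] at hv; omega
    · rw [show t.val + 1 = M by omega, Nat.mod_self] at hv; omega
  have h1 : ∀ t : ZMod M, |Ek M j (t + 1) z - Ek M j t z| ≤
      (if t = ((q * 2 ^ j + 2 ^ j - 1 : ℕ) : ZMod M) then ((2 : ℝ) ^ j)⁻¹ else 0) +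
      (if t = ((q * 2 ^ j : ℕ) : ZMod M) - 1 then ((2 : ℝ) ^ j)⁻¹ else 0) := by
    intro t
    have p : (0 : ℝ) < ((2 : ℝ) ^ j)⁻¹ := by positivity
    have b : |Ek M j (t + 1) z - Ek M j t z| ≤ ((2 : ℝ) ^ j)⁻¹ := by
      simp only [Ek_apply]
      split_ifs <;> simp
    split_ifs with c1 c2 c2
    · linarith
    · linarith
    · linarith
    · simp only [Ek_apply, key t c1 c2, sub_self, abs_zero, add_zero, le_refl]
  refine (sum_le_sum fun t _ => h1 t).trans (le_of_eq ?_)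
  rw [sum_add_distrib, sum_ite_eq', sum_ite_eq', if_pos (mem_univ _), if_pos (mem_univ _)]
  ring

end cyc

end ZJ

end

end Pool.Agent.Lib.MP_10e396_an
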