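import Pool.Agent.Lib.MP_10e396_an.CZA

/-! Job Z, part B: the Calderon-Zygmund decomposition and the weak type bound. -/

set_option autoImplicit false

namespace Pool.Agent.Lib.MP_10e396_an

open Finset Matrix

noncomputable section

namespace ZJ

variable {M : ℕ} [NeZero M]

/-- `x` is far from the atom of level `l` of `y` -/
def far (l : ℕ) (y x : ZMod M) : Prop := ∀ z, sm l y z → 2 ^ l ≤ ab (x - z)

instance (l : ℕ) (y x : ZMod M) : Decidable (far l y x) := by unfold far; infer_instance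

/-- the Hormander type condition -/
def HH (τ : ℕ) (A : Matrix (ZMod M) (ZMod M) ℝ) (B : ℝ) : Prop :=
  ∀ l ≤ τ, ∀ (y : ZMod M) (b : ZMod M → ℂ), (∀ z, ¬ sm l y z → b z = 0) →
    (l < τ → ∑ z, b z = 0) →
    ∑ x, (if far l y x then ‖ap A b x‖ else 0) ≤ B * ∑ z, ‖b z‖

def aa (f : ZMod M → ℂ) (j : ℕ) (x : ZMod M) : ℝ := ∑ z, Ek M j x z * ‖f z‖

def sel (τ : ℕ) (f : ZMod M → ℂ) (t : ℝ) (l : ℕ) (x : ZMod M) : Prop :=
  t < aa f l x ∧ ∀ j, l < j → j ≤ τ → aa f j x ≤ t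

open Classical in
def hs (τ : ℕ) (f : ZMod M → ℂ) (t : ℝ) (l : ℕ) (x : ZMod M) : ℝ := if sel τ f t l x then 1 else 0

omit [NeZero M] in
lemma Ek_congr {j : ℕ} {x y : ZMod M} (h : sm j x y) (z : ZMod M) : Ek M j y z = Ek M j x z := by
  simp only [Ek_apply]
  exact if_congr ⟨fun e => h.trans e, fun e => h.symm.trans e⟩ rfl rfl

lemma aa_nonneg (f : ZMod M → ℂ) (j : ℕ) (x : ZMod M) : 0 ≤ aa f j x :=
  sum_nonneg fun _ _ => mul_nonneg (Ek_nonneg _ _ _) (norm_nonneg _)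

lemma aa_congr (f : ZMod M → ℂ) {j : ℕ} {x y : ZMod M} (h : sm j x y) : aa f j y = aa f j x := by
  simp only [aa, Ek_congr h]

lemma ap_congr (f : ZMod M → ℂ) {j : ℕ} {x y : ZMod M} (h : sm j x y) :
    ap (Ek M j) f y = ap (Ek M j) f x := by
  simp only [ap, Ek_congr h]

lemma ap_le_aa (f : ZMod M → ℂ) (j : ℕ) (x : ZMod M) : ‖ap (Ek M j) f x‖ ≤ aa f j x :=
  (ap_norm_le _ _ _).trans (le_of_eq (sum_congr rfl fun z _ => by
    rw [abs_of_nonneg (Ek_nonneg _ _ _)]))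

lemma aa_succ (f : ZMod M → ℂ) (j : ℕ) (x : ZMod M) : aa f j x ≤ 2 * aa f (j + 1) x := by
  unfold aa
  rw [mul_sum]
  refine sum_le_sum fun z _ => ?_
  rw [← mul_assoc]
  refine mul_le_mul_of_nonneg_right ?_ (norm_nonneg _)
  simp only [Ek_apply]
  by_cases h : sm j x z
  · rw [if_pos h, if_pos (h.mono (Nat.le_succ j)), pow_succ]
    exact le_of_eq (by field_simp)
  · rw [if_neg h]; split_ifs <;> positivity

lemma aa_zero (f : ZMod M → ℂ) (x : ZMod M) : aa f 0 x = ‖f x‖ := by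
  simp [aa, Ek_zero, one_apply]

section dec
variable {τ : ℕ} {f : ZMod M → ℂ} {t : ℝ}

lemma sel.congr {l : ℕ} {x y : ZMod M} (h : sel τ f t l x) (e : sm l x y) : sel τ f t l y :=
  ⟨by rw [aa_congr f e]; exact h.1, fun j h1 h2 => by
    rw [aa_congr f (e.mono h1.le)]; exact h.2 j h1 h2⟩

lemma hs_congr {l : ℕ} {x y : ZMod M} (e : sm l x y) : hs τ f t l y = hs τ f t l x := by
  classical
  unfold hs
  exact if_congr ⟨fun h => h.congr e.symm, fun h => h.congr e⟩ rfl rfl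

lemma hs_nonneg (l : ℕ) (x : ZMod M) : 0 ≤ hs τ f t l x := by
  unfold hs; split_ifs <;> norm_num

lemma hs_cases (x : ZMod M) : ((∀ l ≤ τ, hs τ f t l x = 0) ∧ ‖f x‖ ≤ t) ∨
    ∃ l ≤ τ, sel τ f t l x ∧ ∀ j ≤ τ, hs τ f t j x = if j = l then 1 else 0 := by
  classical
  by_cases h : ∃ l ≤ τ, t < aa f l x
  · right
    obtain ⟨l0, h0, h1⟩ := h
    have hsel : sel τ f t (Nat.findGreatest (fun l => t < aa f l x) τ) x :=
      ⟨Nat.findGreatest_spec (P := fun l => t < aa f l x) h0 h1,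
        fun j h1 h2 => not_lt.1 (Nat.findGreatest_is_greatest h1 h2)⟩
    have hle := Nat.findGreatest_le (P := fun l => t < aa f l x) τ
    refine ⟨_, hle, hsel, fun j hj => ?_⟩
    unfold hs
    refine if_congr ⟨fun h => ?_, fun h => h ▸ hsel⟩ rfl rfl
    rcases lt_trichotomy j (Nat.findGreatest (fun l => t < aa f l x) τ) with c | c | c
    · exact absurd hsel.1 (not_lt.2 (h.2 _ c hle))
    · exact c
    · exact absurd h.1 (not_lt.2 (hsel.2 _ c hj))
  · left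
    push Not at h
    refine ⟨fun l hl => if_neg fun s => absurd s.1 (not_lt.2 (h l hl)), ?_⟩
    rw [← aa_zero]; exact h 0 (Nat.zero_le _)

lemma hs_col {l : ℕ} (hl : 2 ^ l ∣ M) (z : ZMod M) :
    ∑ y, hs τ f t l y * Ek M l y z = hs τ f t l z := by
  rw [← Ek_inv hl z (hs τ f t l) fun y e => hs_congr e]
  exact sum_congr rfl fun y _ => by rw [Ek_symm, mul_comm]

lemma hs_mass (hτ : 2 ^ τ ∣ M) :
    ∑ l ∈ range (τ + 1), ∑ y, hs τ f t l y * aa f l y ≤ ∑ z, ‖f z‖ := by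
  have e : ∀ l ∈ range (τ + 1), ∑ y, hs τ f t l y * aa f l y = ∑ z, hs τ f t l z * ‖f z‖ := by
    intro l hl
    have hd : 2 ^ l ∣ M := (pow_dvd_pow 2 (by simpa [Nat.lt_succ_iff] using hl)).trans hτ
    simp only [aa, mul_sum]
    rw [sum_comm]
    refine sum_congr rfl fun z _ => ?_
    rw [← hs_col hd z, sum_mul]
    exact sum_congr rfl fun y _ => by ring
  rw [sum_congr rfl e, sum_comm]
  refine sum_le_sum fun z _ => ?_
  rw [← sum_mul]
  refine mul_le_of_le_one_left (norm_nonneg _) ?_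
  rcases hs_cases (τ := τ) (f := f) (t := t) z with h | ⟨l, hl, -, h⟩
  · rw [sum_eq_zero fun l hl => h.1 l (by simpa [Nat.lt_succ_iff] using hl)]; norm_num
  · rw [sum_congr rfl fun j hj => h j (by simpa [Nat.lt_succ_iff] using hj), sum_ite_eq']
    split_ifs <;> norm_num

/-- the part of `f` removed on a selected atom -/
def dd (τ : ℕ) (f : ZMod M → ℂ) (l : ℕ) (z : ZMod M) : ℂ :=
  f z - if l < τ then ap (Ek M l) f z else 0

def bb (τ : ℕ) (f : ZMod M → ℂ) (l : ℕ) (y z : ZMod M) : ℂ := (Ek M l y z : ℂ) * dd τ f l z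

def gg (τ : ℕ) (f : ZMod M → ℂ) (t : ℝ) (z : ZMod M) : ℂ :=
  f z - ∑ l ∈ range (τ + 1), (hs τ f t l z : ℂ) * dd τ f l z

lemma decomp (hτ : 2 ^ τ ∣ M) (z : ZMod M) : f z = gg τ f t z +
    ∑ l ∈ range (τ + 1), ∑ y, (hs τ f t l y : ℂ) * bb τ f l y z := by
  unfold gg
  rw [sub_add, eq_comm, sub_eq_self, sub_eq_zero]
  refine sum_congr rfl fun l hl => ?_
  have hd : 2 ^ l ∣ M := (pow_dvd_pow 2 (by simpa [Nat.lt_succ_iff] using hl)).trans hτ
  rw [← hs_col hd z]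
  push_cast
  rw [sum_mul]
  exact sum_congr rfl fun y _ => by unfold bb; ring

lemma gg_le (ht : 0 < t) (z : ZMod M) : ‖gg τ f t z‖ ≤ 2 * t ∧
    ‖gg τ f t z‖ ≤ ‖f z‖ + ∑ l ∈ range (τ + 1), hs τ f t l z * aa f l z := by
  have p : 0 ≤ ∑ l ∈ range (τ + 1), hs τ f t l z * aa f l z :=
    sum_nonneg fun l _ => mul_nonneg (hs_nonneg _ _) (aa_nonneg _ _ _)
  rcases hs_cases (τ := τ) (f := f) (t := t) z with h | ⟨l, hl, hsel, h⟩
  · have e : gg τ f t z = f z := by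
      unfold gg
      rw [sum_eq_zero fun l hl => by
        rw [h.1 l (by simpa [Nat.lt_succ_iff] using hl)]; simp, sub_zero]
    rw [e]
    exact ⟨by linarith [h.2], by linarith⟩
  · have hm : l ∈ range (τ + 1) := by simpa [Nat.lt_succ_iff] using hl
    have e : gg τ f t z = if l < τ then ap (Ek M l) f z else 0 := by
      unfold gg
      rw [sum_eq_single_of_mem l hm fun j hj c => by
        rw [h j (by simpa [Nat.lt_succ_iff] using hj), if_neg c]; simp, h l hl, if_pos rfl]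
      simp [dd]
    have e2 : ∑ j ∈ range (τ + 1), hs τ f t j z * aa f j z = aa f l z := by
      rw [sum_eq_single_of_mem l hm fun j hj c => by
        rw [h j (by simpa [Nat.lt_succ_iff] using hj), if_neg c]; simp, h l hl, if_pos rfl, one_mul]
    rw [e, e2]
    have h1 := ap_le_aa f l z
    have h2 := norm_nonneg (f z)
    have h3 := aa_nonneg f l z
    split_ifs with c
    · have := hsel.2 (l + 1) (Nat.lt_succ_self l) c
      exact ⟨by linarith [aa_succ f l z], by linarith⟩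
    · rw [norm_zero]; exact ⟨by linarith, by linarith⟩

lemma gg_sq (hτ : 2 ^ τ ∣ M) (ht : 0 < t) : ∑ z, ‖gg τ f t z‖ ^ 2 ≤ 4 * t * ∑ z, ‖f z‖ := by
  have h1 : ∑ z, ‖gg τ f t z‖ ^ 2 ≤
      ∑ z, 2 * t * (‖f z‖ + ∑ l ∈ range (τ + 1), hs τ f t l z * aa f l z) :=
    sum_le_sum fun z _ => by
      rw [sq]
      exact mul_le_mul (gg_le ht z).1 (gg_le ht z).2 (norm_nonneg _) (by positivity)
  rw [← mul_sum, sum_add_distrib, sum_comm] at h1
  have h2 := hs_mass (f := f) (t := t) hτ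
  nlinarith

lemma bb_sum {l : ℕ} (hl : 2 ^ l ∣ M) (h : l < τ) (y : ZMod M) : ∑ z, bb τ f l y z = 0 := by
  have e : ∑ z, bb τ f l y z = ap (Ek M l) f y - ap (Ek M l) (ap (Ek M l) f) y := by
    simp only [bb, dd, if_pos h, mul_sub, sum_sub_distrib]; rfl
  rw [e, ← ap_mul, Ek_mul hl le_rfl, sub_self]

lemma bb_norm {l : ℕ} (hl : 2 ^ l ∣ M) (y : ZMod M) : ∑ z, ‖bb τ f l y z‖ ≤ 2 * aa f l y := by
  have h1 : ∀ z, ‖bb τ f l y z‖ ≤ Ek M l y z * ‖f z‖ + Ek M l y z * aa f l z := by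
    intro z
    unfold bb
    rw [norm_mul, Complex.norm_real, Real.norm_of_nonneg (Ek_nonneg _ _ _), ← mul_add]
    refine mul_le_mul_of_nonneg_left ((norm_sub_le _ _).trans (add_le_add le_rfl ?_))
      (Ek_nonneg _ _ _)
    split_ifs
    · exact ap_le_aa _ _ _
    · rw [norm_zero]; exact aa_nonneg _ _ _
  refine (sum_le_sum fun z _ => h1 z).trans (le_of_eq ?_)
  rw [sum_add_distrib, Ek_inv hl y _ fun z e => aa_congr f e, two_mul]; rfl

/-- majorant of the exceptional set -/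
def ex (τ : ℕ) (f : ZMod M → ℂ) (t : ℝ) (x : ZMod M) : ℝ :=
  ∑ l ∈ range (τ + 1), ∑ y, hs τ f t l y *
    (if ab (x - y) < 2 ^ (l + 1) then ((2 : ℝ) ^ l)⁻¹ else 0)

lemma ex_term (x : ZMod M) (l : ℕ) (y : ZMod M) : 0 ≤ hs τ f t l y *
    (if ab (x - y) < 2 ^ (l + 1) then ((2 : ℝ) ^ l)⁻¹ else 0) :=
  mul_nonneg (hs_nonneg _ _) (by split_ifs <;> positivity)

lemma ex_ge (hτ : 2 ^ τ ∣ M) {l : ℕ} (hl : l ≤ τ) {y x : ZMod M} (h : sel τ f t l y)
    (hx : ¬ far l y x) : 1 ≤ ex τ f t x := by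
  have hd : 2 ^ l ∣ M := (pow_dvd_pow 2 hl).trans hτ
  unfold far at hx
  push Not at hx
  obtain ⟨z, hz, hx⟩ := hx
  refine le_trans ?_ (single_le_sum (fun j _ => sum_nonneg fun y _ => ex_term x j y)
    (mem_range.2 (Nat.lt_succ_of_le hl)))
  rw [← Ek_row hd z]
  refine sum_le_sum fun w _ => ?_
  rw [Ek_apply]
  by_cases c : sm l z w
  · have h1 : ab (x - w) < 2 ^ (l + 1) := by
      have h2 := ab_add (x - z) (z - w)
      have h3 := sm_ab c
      rw [sub_add_sub_cancel] at h2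
      rw [pow_succ]; omega
    rw [if_pos c, if_pos h1, hs, if_pos ((h.congr hz).congr c), one_mul]
  · rw [if_neg c]; exact ex_term x l w

lemma ex_sum (hτ : 2 ^ τ ∣ M) (ht : 0 < t) : t * ∑ x, ex τ f t x ≤ 4 * ∑ z, ‖f z‖ := by
  refine le_trans ?_ (mul_le_mul_of_nonneg_left (hs_mass (f := f) (t := t) hτ) (by norm_num))
  unfold ex
  rw [sum_comm, mul_sum, mul_sum]
  refine sum_le_sum fun l _ => ?_
  rw [sum_comm, mul_sum, mul_sum]
  refine sum_le_sum fun y _ => ?_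
  rw [← mul_sum, ← sum_filter, sum_const, nsmul_eq_mul]
  have h1 : ((univ.filter fun x => ab (x - y) < 2 ^ (l + 1)).card : ℝ) ≤ 4 * 2 ^ l := by
    have := card_ball y (2 ^ (l + 1))
    rw [pow_succ] at this ⊢
    exact_mod_cast (by omega)
  have h2 : ((univ.filter fun x => ab (x - y) < 2 ^ (l + 1)).card : ℝ) * ((2 : ℝ) ^ l)⁻¹ ≤ 4 := by
    rw [← div_eq_mul_inv, div_le_iff₀ (by positivity)]; exact h1
  unfold hs
  split_ifs with c
  · have := c.1
    nlinarith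
  · simp

end dec

lemma weak {τ : ℕ} {A : Matrix (ZMod M) (ZMod M) ℝ} (hτ : 2 ^ τ ∣ M) (hB : Bd A 1)
    (hH : HH τ A 1) (f : ZMod M → ℂ) {t : ℝ} (ht : 0 < t) :
    ((univ.filter fun x => 2 * t < ‖ap A f x‖).card : ℝ) ≤ 10 * (∑ z, ‖f z‖) / t := by
  set W : ZMod M → ℝ := fun x => ∑ l ∈ range (τ + 1), ∑ y, hs τ f t l y *
    (if far l y x then ‖ap A (bb τ f l y) x‖ else 0) with hW
  have W0 : ∀ x, 0 ≤ W x := fun x => sum_nonneg fun l _ => sum_nonneg fun y _ =>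
    mul_nonneg (hs_nonneg _ _) (by split_ifs <;> positivity)
  have hpt : ∀ x, (if 2 * t < ‖ap A f x‖ then (1 : ℝ) else 0) ≤
      ‖ap A (gg τ f t) x‖ ^ 2 / t ^ 2 + ex τ f t x + W x / t := by
    intro x
    have p1 : 0 ≤ ‖ap A (gg τ f t) x‖ ^ 2 / t ^ 2 := by positivity
    have p2 : 0 ≤ ex τ f t x := sum_nonneg fun l _ => sum_nonneg fun y _ => ex_term x l y
    have p3 : 0 ≤ W x / t := div_nonneg (W0 x) ht.le
    split_ifs with c
    swap
    · linarith
    by_cases c1 : ∃ l ≤ τ, ∃ y, sel τ f t l y ∧ ¬ far l y x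
    · obtain ⟨l, hl, y, h1, h2⟩ := c1
      linarith [ex_ge hτ hl h1 h2]
    push Not at c1
    have e : ap A f x = ap A (gg τ f t) x +
        ∑ l ∈ range (τ + 1), ∑ y, (hs τ f t l y : ℂ) * ap A (bb τ f l y) x := by
      conv_lhs => rw [funext (decomp (f := f) (t := t) hτ)]
      rw [ap_add, ap_sum]
      simp only [ap_sum, ap_smul]
    have h1 : ‖ap A f x‖ ≤ ‖ap A (gg τ f t) x‖ + W x := by
      rw [e]
      refine (norm_add_le _ _).trans (add_le_add le_rfl ((norm_sum_le _ _).trans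
        (sum_le_sum fun l hl => (norm_sum_le _ _).trans (sum_le_sum fun y _ => ?_))))
      rw [norm_mul, Complex.norm_real, Real.norm_of_nonneg (hs_nonneg _ _)]
      unfold hs
      split_ifs with c2 c3
      · exact le_rfl
      · exact absurd (c1 l (by simpa [Nat.lt_succ_iff] using hl) y c2) c3
      all_goals simp
    by_cases c2 : t < W x
    · have : 1 ≤ W x / t := (one_le_div ht).2 c2.le
      linarith
    · have h2 : t ≤ ‖ap A (gg τ f t) x‖ := by linarith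
      have : 1 ≤ ‖ap A (gg τ f t) x‖ ^ 2 / t ^ 2 :=
        (one_le_div (by positivity)).2 (pow_le_pow_left₀ ht.le h2 2)
      linarith
  have hWs : ∑ x, W x ≤ 2 * ∑ z, ‖f z‖ := by
    refine le_trans ?_ (mul_le_mul_of_nonneg_left (hs_mass (f := f) (t := t) hτ) (by norm_num))
    rw [hW, sum_comm, mul_sum]
    refine sum_le_sum fun l hl => ?_
    have hl' : l ≤ τ := by simpa [Nat.lt_succ_iff] using hl
    have hd : 2 ^ l ∣ M := (pow_dvd_pow 2 hl').trans hτ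
    rw [sum_comm, mul_sum]
    refine sum_le_sum fun y _ => ?_
    rw [← mul_sum, mul_left_comm]
    refine mul_le_mul_of_nonneg_left ((hH l hl' y _ (fun z c => ?_)
      (fun c => bb_sum hd c y)).trans ?_) (hs_nonneg _ _)
    · simp [bb, Ek_apply, c]
    · rw [one_mul]; exact bb_norm hd y
  have h := sum_le_sum fun x (_ : x ∈ univ) => hpt x
  rw [sum_boole, sum_add_distrib, sum_add_distrib, ← sum_div, ← sum_div] at h
  have h1 := (hB.l2 zero_le_one (gg τ f t)).trans (le_of_eq (one_mul _))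
  have h2 : (∑ x, ‖ap A (gg τ f t) x‖ ^ 2) / t ^ 2 ≤ 4 * (∑ z, ‖f z‖) / t := by
    rw [div_le_div_iff₀ (by positivity) ht]
    have := mul_le_mul_of_nonneg_right (h1.trans (gg_sq hτ ht)) ht.le
    nlinarith
  have h3 : ∑ x, ex τ f t x ≤ 4 * (∑ z, ‖f z‖) / t := by
    rw [le_div_iff₀ ht, mul_comm]; exact ex_sum hτ ht
  have h4 : (∑ x, W x) / t ≤ 2 * (∑ z, ‖f z‖) / t := div_le_div_of_nonneg_right hWs ht.le
  have e : 10 * (∑ z, ‖f z‖) / t =
      4 * (∑ z, ‖f z‖) / t + 4 * (∑ z, ‖f z‖) / t + 2 * (∑ z, ‖f z‖) / t := by ring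
  linarith

end ZJ

end

end Pool.Agent.Lib.MP_10e396_an
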