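import Pool.Agent.Lib.MP_10e396_an.CZB

/-! Job Z, part C: interpolation, the general theorem, orthogonal pieces. -/

set_option autoImplicit false

namespace Pool.Agent.Lib.MP_10e396_an

open Finset Matrix

noncomputable section

namespace ZJ

lemma lp_nonneg' {X : Type} [Fintype X] (p : ℝ) (f : X → ℂ) : 0 ≤ lp p f :=
  Real.rpow_nonneg (sum_nonneg fun _ _ => Real.rpow_nonneg (norm_nonneg _) _) _

lemma lp_of_sum {X : Type} [Fintype X] {p C : ℝ} (hp : 0 < p) (hC : 0 ≤ C) {f g : X → ℂ}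
    (h : ∑ x, ‖g x‖ ^ p ≤ C * ∑ x, ‖f x‖ ^ p) : lp p g ≤ C ^ p⁻¹ * lp p f := by
  unfold lp
  rw [← Real.mul_rpow hC (sum_nonneg fun _ _ => Real.rpow_nonneg (norm_nonneg _) _)]
  exact Real.rpow_le_rpow (sum_nonneg fun _ _ => Real.rpow_nonneg (norm_nonneg _) _) h
    (by positivity)

lemma lp_scale {X : Type} [Fintype X] {p B : ℝ} (hp : 0 < p) (hB : 0 ≤ B) (f : X → ℂ) :
    lp p (fun x => (B : ℂ) * f x) ≤ B * lp p f := by
  refine (lp_of_sum hp (Real.rpow_nonneg hB p) (le_of_eq ?_)).trans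
    (by rw [Real.rpow_rpow_inv hB hp.ne'])
  rw [mul_sum]
  refine sum_congr rfl fun x _ => ?_
  rw [norm_mul, Complex.norm_real, Real.norm_of_nonneg hB, Real.mul_rpow hB (norm_nonneg _)]

variable {M : ℕ} [NeZero M]

lemma weak_min {τ : ℕ} {A : Matrix (ZMod M) (ZMod M) ℝ} (hτ : 2 ^ τ ∣ M) (hB : Bd A 1)
    (hH : HH τ A 1) (f : ZMod M → ℂ) (t : ℝ) (ht : 0 < t) :
    ((univ.filter fun x => t < ‖ap A f x‖).card : ℝ) ≤
      40 * ∑ y, min ((‖f y‖ / t) ^ (2 : ℝ)) ((‖f y‖ / t) ^ (1 : ℝ)) := by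
  set f₁ : ZMod M → ℂ := fun y => if t < ‖f y‖ then f y else 0 with h₁
  set f₂ : ZMod M → ℂ := fun y => if t < ‖f y‖ then 0 else f y with h₂
  have e : ∀ x, ap A f x = ap A f₁ x + ap A f₂ x := fun x => by
    rw [← ap_add]; congr 1; funext y; simp only [h₁, h₂]; split_ifs <;> simp
  have hpt : ∀ x, (if t < ‖ap A f x‖ then (1 : ℝ) else 0) ≤
      (if 2 * (t / 4) < ‖ap A f₁ x‖ then (1 : ℝ) else 0) + 4 * ‖ap A f₂ x‖ ^ 2 / t ^ 2 := by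
    intro x
    have p : 0 ≤ 4 * ‖ap A f₂ x‖ ^ 2 / t ^ 2 := by positivity
    have h1 := norm_add_le (ap A f₁ x) (ap A f₂ x)
    rw [← e] at h1
    split_ifs with c1 c2
    · linarith
    · rw [zero_add, one_le_div (by positivity)]
      have : t ≤ 2 * ‖ap A f₂ x‖ := by linarith
      nlinarith
    all_goals linarith
  have h := sum_le_sum fun x (_ : x ∈ univ) => hpt x
  rw [sum_boole, sum_add_distrib, sum_boole, ← sum_div, ← mul_sum] at h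
  have w := weak hτ hB hH f₁ (t := t / 4) (by positivity)
  have l2 := hB.l2 zero_le_one f₂
  have h3 : 4 * (∑ x, ‖ap A f₂ x‖ ^ 2) / t ^ 2 ≤ 40 * ((∑ x, ‖f₂ x‖ ^ 2) / t ^ 2) := by
    rw [mul_div_assoc]
    exact mul_le_mul (by norm_num) (div_le_div_of_nonneg_right (by linarith) (by positivity))
      (by positivity) (by norm_num)
  have h4 : (∑ x, ‖f₁ x‖) / t + (∑ x, ‖f₂ x‖ ^ 2) / t ^ 2 ≤
      ∑ y, min ((‖f y‖ / t) ^ (2 : ℝ)) ((‖f y‖ / t) ^ (1 : ℝ)) := by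
    rw [sum_div, sum_div, ← sum_add_distrib]
    refine sum_le_sum fun y _ => ?_
    rw [Real.rpow_two, Real.rpow_one]
    have p : 0 ≤ ‖f y‖ / t := by positivity
    simp only [h₁, h₂]
    split_ifs with c
    · have : 1 ≤ ‖f y‖ / t := (one_le_div ht).2 c.le
      refine le_min ?_ ?_ <;> simp
      nlinarith
    · have : ‖f y‖ / t ≤ 1 := (div_le_one ht).2 (not_lt.1 c)
      rw [← div_pow]
      refine le_min ?_ ?_ <;> simp
      nlinarith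
  have e2 : 10 * (∑ z, ‖f₁ z‖) / (t / 4) = 40 * ((∑ x, ‖f₁ x‖) / t) := by field_simp; ring
  linarith

lemma cz_low (hL : StLayer) {p : ℝ} (h1 : 1 < p) (h2 : p ≤ 2) : ∃ C : ℝ, 0 < C ∧
    ∀ (M : ℕ) [NeZero M] (τ : ℕ) (A : Matrix (ZMod M) (ZMod M) ℝ), 2 ^ τ ∣ M → Bd A 1 →
      HH τ A 1 → ∀ f, lp p (ap A f) ≤ C * lp p f := by
  rcases h2.eq_or_lt with rfl | h2
  · refine ⟨1 ^ (2 : ℝ)⁻¹, by positivity, fun M _ τ A _ hB _ f => lp_of_sum two_pos zero_le_one ?_⟩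
    simpa only [Real.rpow_two] using hB.l2 zero_le_one f
  · obtain ⟨C, hC, h⟩ := hL p 2 1 zero_le_one h1 h2
    exact ⟨(C * 40) ^ p⁻¹, by positivity, fun M _ τ A hτ hB hH f =>
      lp_of_sum (by linarith) (by positivity) (h _ _ (fun x => ‖ap A f x‖) (fun x => ‖f x‖) 40
        (by norm_num) (fun _ => norm_nonneg _) (fun _ => norm_nonneg _) (weak_min hτ hB hH f))⟩

lemma cz_one (hL : StLayer) (hD : StDual) {p : ℝ} (h1 : 1 < p) : ∃ C : ℝ, 0 < C ∧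
    ∀ (M : ℕ) [NeZero M] (τ : ℕ) (A : Matrix (ZMod M) (ZMod M) ℝ), 2 ^ τ ∣ M → Bd A 1 →
      HH τ A 1 → HH τ Aᵀ 1 → ∀ f, lp p (ap A f) ≤ C * lp p f := by
  rcases le_total p 2 with h2 | h2
  · obtain ⟨C, hC, h⟩ := cz_low hL h1 h2
    exact ⟨C, hC, fun M _ τ A hτ hB hH _ => h M τ A hτ hB hH⟩
  · have hq := Real.HolderConjugate.conjExponent h1
    have hq2 : Real.conjExponent p ≤ 2 := by
      unfold Real.conjExponent
      rw [div_le_iff₀ (by linarith)]; linarith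
    obtain ⟨C, hC, h⟩ := cz_low hL hq.symm.lt hq2
    exact ⟨C, hC, fun M _ τ A hτ hB _ hH => hD _ (ap A) (ap Aᵀ) p _ C h1 hq.inv_add_inv_eq_one
      hC.le (ap_pair A) (h M τ Aᵀ hτ hB.tr hH)⟩

lemma ap_ksmul (c : ℝ) (A : Matrix (ZMod M) (ZMod M) ℝ) (f : ZMod M → ℂ) (x : ZMod M) :
    ap (c • A) f x = c * ap A f x := by
  simp only [ap, Matrix.smul_apply, smul_eq_mul, Complex.ofReal_mul, mul_sum, mul_assoc]

lemma HH.scale {τ : ℕ} {A : Matrix (ZMod M) (ZMod M) ℝ} {B : ℝ} (hB : 0 < B) (h : HH τ A B) :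
    HH τ (B⁻¹ • A) 1 := by
  intro l hl y b h1 h2
  have e : ∀ x, (if far l y x then ‖ap (B⁻¹ • A) b x‖ else 0) =
      B⁻¹ * (if far l y x then ‖ap A b x‖ else 0) := fun x => by
    rw [ap_ksmul, norm_mul, Complex.norm_real, Real.norm_of_nonneg (by positivity)]
    split_ifs <;> simp
  simp only [e]
  rw [← mul_sum, inv_mul_le_iff₀ hB, one_mul]
  exact h l hl y b h1 h2

theorem cz (hL : StLayer) (hD : StDual) {p : ℝ} (h1 : 1 < p) : ∃ C : ℝ, 0 < C ∧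
    ∀ (M : ℕ) [NeZero M] (τ : ℕ) (A : Matrix (ZMod M) (ZMod M) ℝ) (B : ℝ), 0 < B → 2 ^ τ ∣ M →
      Bd A (B ^ 2) → HH τ A B → HH τ Aᵀ B → ∀ f, lp p (ap A f) ≤ C * B * lp p f := by
  obtain ⟨C, hC, h⟩ := cz_one hL hD h1
  refine ⟨C, hC, fun M _ τ A B hB hτ hA hH hH' f => ?_⟩
  have hA' : Bd (B⁻¹ • A) 1 := fun u v => by
    rw [smul_mulVec, dotProduct_smul, smul_eq_mul, mul_pow, inv_pow,
      inv_mul_le_iff₀ (by positivity)]
    exact (hA u v).trans (le_of_eq (by ring))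
  have e : ap A f = fun x => (B : ℂ) * ap (B⁻¹ • A) f x := by
    funext x
    rw [ap_ksmul, ← mul_assoc, ← Complex.ofReal_mul, mul_inv_cancel₀ hB.ne']; simp
  have := h M τ _ hτ hA' (hH.scale hB) (by rw [transpose_smul]; exact hH'.scale hB) f
  rw [e]
  refine (lp_scale (by linarith) hB.le _).trans ?_
  nlinarith

lemma E_far {τ l j : ℕ} (hj : j ≤ τ) {y x : ZMod M} {b : ZMod M → ℂ}
    (h1 : ∀ z, ¬ sm l y z → b z = 0) (h2 : l < τ → ∑ z, b z = 0) (hx : far l y x) :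
    ap (Ek M j) b x = 0 := by
  rcases le_or_gt j l with c | c
  · refine sum_eq_zero fun z _ => ?_
    by_cases c1 : sm l y z
    · have : ¬ sm j x z := fun e => absurd (sm_ab (e.mono c)) (not_lt.2 (hx z c1))
      simp [Ek_apply, this]
    · simp [h1 z c1]
  · have e : ap (Ek M j) b x = Ek M j x y * ∑ z, b z := by
      rw [mul_sum]
      refine sum_congr rfl fun z _ => ?_
      by_cases c1 : sm l y z
      · rw [Ek_symm j x z, Ek_congr (c1.mono c.le), Ek_symm]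
      · simp [h1 z c1]
    rw [e, h2 (c.trans_le hj), mul_zero]

/-- the orthogonal pieces -/
def PP (M τ n : ℕ) : Matrix (ZMod M) (ZMod M) ℝ :=
  if n < τ then Ek M n - Ek M (n + 1) else Ek M τ

omit [NeZero M] in
lemma PP_tr (τ n : ℕ) : (PP M τ n)ᵀ = PP M τ n := by
  unfold PP; split_ifs <;> simp only [transpose_sub, Ek_tr]

lemma PP_idem {τ : ℕ} (hτ : 2 ^ τ ∣ M) (n : ℕ) : PP M τ n * PP M τ n = PP M τ n := by
  unfold PP
  split_ifs with c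
  · have h1 : 2 ^ n ∣ M := (pow_dvd_pow 2 c.le).trans hτ
    have h2 : 2 ^ (n + 1) ∣ M := (pow_dvd_pow 2 c).trans hτ
    rw [sub_mul, mul_sub, mul_sub, Ek_mul h1 le_rfl, Ek_mul h1 (Nat.le_succ n),
      Ek_mul' h1 (Nat.le_succ n), Ek_mul h2 le_rfl, sub_self, sub_zero]
  · exact Ek_mul hτ le_rfl

lemma PP_sum (τ : ℕ) : ∑ n ∈ range (τ + 1), PP M τ n = 1 := by
  have e : ∀ n ∈ range τ, PP M τ n = Ek M n - Ek M (n + 1) := fun n hn => if_pos (mem_range.1 hn)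
  rw [sum_range_succ, sum_congr rfl e, sum_range_sub', PP, if_neg (lt_irrefl τ), sub_add_cancel,
    Ek_zero]

lemma PP_dot {τ : ℕ} (hτ : 2 ^ τ ∣ M) (n : ℕ) (u v : ZMod M → ℝ) :
    u ⬝ᵥ PP M τ n *ᵥ v = (PP M τ n *ᵥ u) ⬝ᵥ (PP M τ n *ᵥ v) := by
  conv_lhs => rw [← PP_idem hτ n, ← mulVec_mulVec, dotProduct_mulVec, ← mulVec_transpose, PP_tr]

lemma PP_sq {τ : ℕ} (hτ : 2 ^ τ ∣ M) (u : ZMod M → ℝ) :
    ∑ n ∈ range (τ + 1), (PP M τ n *ᵥ u) ⬝ᵥ (PP M τ n *ᵥ u) = u ⬝ᵥ u := by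
  simp only [← PP_dot hτ]
  rw [← dotProduct_sum, ← sum_mulVec, PP_sum, one_mulVec]

lemma bd_MT {τ : ℕ} (hτ : 2 ^ τ ∣ M) {c : ℕ → ℝ} (hc : ∀ j, |c j| ≤ 1) :
    Bd (∑ n ∈ range (τ + 1), c n • PP M τ n) (1 ^ 2) := by
  intro u v
  rw [sum_mulVec, dotProduct_sum, one_pow, one_mul, ← PP_sq hτ u, ← PP_sq hτ v]
  refine sum_sq_le_sum_mul_sum_of_sq_le_mul _ (fun _ _ => dot_nonneg _) (fun _ _ => dot_nonneg _)
    fun n _ => ?_
  rw [smul_mulVec, dotProduct_smul, smul_eq_mul, PP_dot hτ, mul_pow]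
  refine (mul_le_of_le_one_left (sq_nonneg _) ((sq_le_one_iff_abs_le_one _).2 (hc n))).trans ?_
  simpa only [dotProduct, sq] using sum_mul_sq_le_sq_mul_sq univ (PP M τ n *ᵥ u) (PP M τ n *ᵥ v)

lemma HH_MT (τ : ℕ) (c : ℕ → ℝ) : HH τ (∑ n ∈ range (τ + 1), c n • PP M τ n) 1 := by
  intro l _ y b h1 h2
  refine (le_of_eq (sum_eq_zero fun x _ => ?_)).trans (by positivity)
  split_ifs with hx
  · rw [ap_ksum, sum_eq_zero, norm_zero]
    intro n _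
    unfold PP
    split_ifs with c1
    · rw [ap_ksub, E_far c1.le h1 h2 hx, E_far c1 h1 h2 hx, sub_self, smul_zero]
    · rw [E_far le_rfl h1 h2 hx, smul_zero]
  · rfl

/-- almost orthogonality through the pieces -/
lemma cot {I : Type} {τ : ℕ} (hτ : 2 ^ τ ∣ M) (s : Finset I) (R : I → Matrix (ZMod M) (ZMod M) ℝ)
    {c : I → ℝ} (hc : ∀ i, |c i| ≤ 1) {σ : I → ℕ → ℝ} (hσ : ∀ i n, 0 ≤ σ i n) {W₁ W₂ : ℝ}
    (h1 : ∀ i ∈ s, ∀ n ≤ τ, Bd (R i * PP M τ n) (σ i n ^ 4))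
    (h2 : ∀ i ∈ s, ∀ n ≤ τ, Bd ((R i)ᵀ * PP M τ n) (σ i n ^ 4)) (hW₁ : 0 ≤ W₁)
    (w1 : ∀ i ∈ s, ∑ n ∈ range (τ + 1), σ i n ≤ W₁) (w2 : ∀ n ≤ τ, ∑ i ∈ s, σ i n ≤ W₂) :
    Bd (∑ i ∈ s, c i • R i) ((W₁ * W₂) ^ 2) := by
  set α : (ZMod M → ℝ) → ℕ → ℝ := fun u n => √((PP M τ n *ᵥ u) ⬝ᵥ (PP M τ n *ᵥ u)) with hα
  have α2 : ∀ u n, α u n ^ 2 = (PP M τ n *ᵥ u) ⬝ᵥ (PP M τ n *ᵥ u) := fun u n =>
    Real.sq_sqrt (dot_nonneg _)
  have α0 : ∀ u n, 0 ≤ α u n := fun u n => Real.sqrt_nonneg _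
  have key : ∀ u, ∑ i ∈ s, (∑ n ∈ range (τ + 1), σ i n * α u n) ^ 2 ≤ W₁ * W₂ * (u ⬝ᵥ u) := by
    intro u
    have a1 : ∀ i ∈ s, (∑ n ∈ range (τ + 1), σ i n * α u n) ^ 2 ≤
        W₁ * ∑ n ∈ range (τ + 1), σ i n * α u n ^ 2 := fun i hi =>
      (sum_sq_le_sum_mul_sum_of_sq_le_mul _ (fun n _ => hσ i n)
        (fun n _ => mul_nonneg (hσ i n) (sq_nonneg _)) fun n _ => le_of_eq (by ring)).trans
        (mul_le_mul_of_nonneg_right (w1 i hi)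
          (sum_nonneg fun n _ => mul_nonneg (hσ i n) (sq_nonneg _)))
    refine (sum_le_sum a1).trans ?_
    rw [← mul_sum, mul_assoc]
    refine mul_le_mul_of_nonneg_left ?_ hW₁
    rw [sum_comm, ← PP_sq hτ u, mul_sum]
    refine sum_le_sum fun n hn => ?_
    rw [← sum_mul, α2]
    exact mul_le_mul_of_nonneg_right (w2 n (by simpa [Nat.lt_succ_iff] using hn)) (dot_nonneg _)
  intro u v
  have hi : ∀ i ∈ s, |u ⬝ᵥ R i *ᵥ v| ≤ (∑ n ∈ range (τ + 1), σ i n * α u n) *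
      ∑ n ∈ range (τ + 1), σ i n * α v n := by
    intro i hi
    have e : u ⬝ᵥ R i *ᵥ v = ∑ m ∈ range (τ + 1), ∑ n ∈ range (τ + 1),
        (PP M τ m *ᵥ u) ⬝ᵥ R i *ᵥ (PP M τ n *ᵥ v) := by
      simp only [← dotProduct_sum, ← mulVec_sum, ← sum_dotProduct, ← sum_mulVec, PP_sum,
        one_mulVec]
    rw [e, sum_mul_sum]
    refine (abs_sum_le_sum_abs _ _).trans (sum_le_sum fun m hm =>
      (abs_sum_le_sum_abs _ _).trans (sum_le_sum fun n hn => ?_))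
    have b1 := h1 i hi n (by simpa [Nat.lt_succ_iff] using hn) (PP M τ m *ᵥ u) (PP M τ n *ᵥ v)
    have b2 := h2 i hi m (by simpa [Nat.lt_succ_iff] using hm) (PP M τ n *ᵥ v) (PP M τ m *ᵥ u)
    rw [mulVec_mulVec, mul_assoc, PP_idem hτ, ← mulVec_mulVec, ← α2, ← α2] at b1 b2
    rw [mulVec_transpose, dotProduct_comm, ← dotProduct_mulVec] at b2
    have p := mul_nonneg (mul_nonneg (hσ i m) (α0 u m)) (mul_nonneg (hσ i n) (α0 v n))
    refine (pow_le_pow_iff_left₀ (abs_nonneg _) p (n := 4) (by norm_num)).1 ?_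
    rw [show (4 : ℕ) = 2 * 2 from rfl, pow_mul, sq_abs, sq]
    exact (mul_le_mul b1 b2 (sq_nonneg _) ((sq_nonneg _).trans b1)).trans (le_of_eq (by ring))
  have h3 : (u ⬝ᵥ (∑ i ∈ s, c i • R i) *ᵥ v) ^ 2 ≤
      (∑ i ∈ s, (∑ n ∈ range (τ + 1), σ i n * α u n) ^ 2) *
        ∑ i ∈ s, (∑ n ∈ range (τ + 1), σ i n * α v n) ^ 2 := by
    rw [sum_mulVec, dotProduct_sum]
    refine sum_sq_le_sum_mul_sum_of_sq_le_mul _ (fun _ _ => sq_nonneg _) (fun _ _ => sq_nonneg _)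
      fun i h => ?_
    rw [smul_mulVec, dotProduct_smul, smul_eq_mul, ← mul_pow, mul_pow (c i)]
    refine (mul_le_of_le_one_left (sq_nonneg _) ((sq_le_one_iff_abs_le_one _).2 (hc i))).trans ?_
    rw [← sq_abs]
    exact pow_le_pow_left₀ (abs_nonneg _) (hi i h) 2
  have p1 : 0 ≤ ∑ i ∈ s, (∑ n ∈ range (τ + 1), σ i n * α v n) ^ 2 :=
    sum_nonneg fun _ _ => sq_nonneg _
  have p2 : 0 ≤ ∑ i ∈ s, (∑ n ∈ range (τ + 1), σ i n * α u n) ^ 2 :=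
    sum_nonneg fun _ _ => sq_nonneg _
  exact h3.trans ((mul_le_mul (key u) (key v) p1 (p2.trans (key u))).trans (le_of_eq (by ring)))

end ZJ

end

end Pool.Agent.Lib.MP_10e396_an
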