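import Pool.Agent.Lib.MP_10e396_an.CZC

/-! Job Z, part D: convolution kernels against dyadic averages. -/

set_option autoImplicit false

namespace Pool.Agent.Lib.MP_10e396_an

open Finset Matrix

noncomputable section

namespace ZJ

lemma geo (s : Finset ℕ) (a b : ℕ) :
    ∑ n ∈ s, (15 / 16 : ℝ) ^ ((a - n) + (n - b)) ≤ (b - a : ℕ) + 32 := by
  have g : ∀ t : Finset ℕ, ∑ n ∈ t, (15 / 16 : ℝ) ^ n ≤ 16 := fun t =>
    ((summable_geometric_of_lt_one (by norm_num) (by norm_num)).sum_le_tsum t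
      fun _ _ => by positivity).trans
      (by rw [tsum_geometric_of_lt_one (by norm_num) (by norm_num)]; norm_num)
  have h : ∀ n ∈ s, (15 / 16 : ℝ) ^ ((a - n) + (n - b)) ≤
      (if n < a then (15 / 16 : ℝ) ^ (a - n) else 0) + (if n ∈ Ico a b then 1 else 0) +
        (if b ≤ n then (15 / 16 : ℝ) ^ (n - b) else 0) := by
    intro n _
    have p1 : (0 : ℝ) ≤ (15 / 16) ^ (a - n) := by positivity
    have p2 : (0 : ℝ) ≤ (15 / 16) ^ (n - b) := by positivity
    have q1 : (15 / 16 : ℝ) ^ (a - n) ≤ 1 := pow_le_one₀ (by norm_num) (by norm_num)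
    have q2 : (15 / 16 : ℝ) ^ (n - b) ≤ 1 := pow_le_one₀ (by norm_num) (by norm_num)
    rw [pow_add]
    have r1 := mul_le_of_le_one_left p2 q1
    have r2 := mul_le_of_le_one_right p1 q2
    simp only [mem_Ico]
    split_ifs <;> first | linarith | omega
  refine (sum_le_sum h).trans ?_
  rw [sum_add_distrib, sum_add_distrib, ← sum_filter, ← sum_filter, ← sum_filter]
  have h1 : ∑ n ∈ s with n < a, (15 / 16 : ℝ) ^ (a - n) ≤ 16 := by
    rw [← sum_image (g := fun n => a - n) (f := fun n => (15 / 16 : ℝ) ^ n) fun x hx y hy e => by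
      simp only [coe_filter, Set.mem_ofPred_eq] at hx hy e; omega]
    exact g _
  have h2 : ∑ n ∈ s with b ≤ n, (15 / 16 : ℝ) ^ (n - b) ≤ 16 := by
    rw [← sum_image (g := fun n => n - b) (f := fun n => (15 / 16 : ℝ) ^ n) fun x hx y hy e => by
      simp only [coe_filter, Set.mem_ofPred_eq] at hx hy e; omega]
    exact g _
  have h3 : ∑ n ∈ s with n ∈ Ico a b, (1 : ℝ) ≤ (b - a : ℕ) := by
    rw [sum_const, nsmul_eq_mul, mul_one, Nat.cast_le, ← Nat.card_Ico]
    exact card_le_card fun n hn => (mem_filter.1 hn).2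
  linarith

lemma half_le (s : ℕ) : ((2 : ℝ) ^ (s / 2))⁻¹ ≤ 2 * ((15 / 16 : ℝ) ^ s) ^ 4 := by
  have h1 : (15 / 16 : ℝ) ^ (4 * (2 * (s / 2) + 1)) ≤ ((15 / 16 : ℝ) ^ s) ^ 4 := by
    rw [← pow_mul]
    exact pow_le_pow_of_le_one (by norm_num) (by norm_num) (by omega)
  have h2 : ((2 : ℝ) ^ (s / 2))⁻¹ ≤ ((15 / 16 : ℝ) ^ 8) ^ (s / 2) := by
    rw [← inv_pow]; exact pow_le_pow_left₀ (by norm_num) (by norm_num) _
  have e : (15 / 16 : ℝ) ^ (4 * (2 * (s / 2) + 1)) =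
      ((15 / 16 : ℝ) ^ 8) ^ (s / 2) * (15 / 16) ^ 4 := by
    rw [← pow_mul, ← pow_add]; congr 1; omega
  have p : (0 : ℝ) ≤ ((15 / 16 : ℝ) ^ 8) ^ (s / 2) := by positivity
  rw [e] at h1
  nlinarith

lemma inv_le_th (s : ℕ) : ((2 : ℝ) ^ s)⁻¹ ≤ ((15 / 16 : ℝ) ^ s) ^ 4 := by
  rw [← inv_pow, ← pow_mul, mul_comm, pow_mul]
  exact pow_le_pow_left₀ (by norm_num) (by norm_num) _

lemma lv_ge (r : ℝ) : r ≤ 2 ^ lv r :=
  (Nat.le_ceil r).trans (by exact_mod_cast Nat.le_pow_clog one_lt_two _)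

lemma lv_lt {r : ℝ} (h : 1 ≤ r) : 2 ^ lv r < 4 * r := by
  rcases Nat.eq_zero_or_pos (lv r) with c | c
  · rw [c]; linarith
  · have h1 : 2 ^ (lv r - 1) < ⌈r⌉₊ := by
      by_contra h2
      have := (Nat.clog_le_iff_le_pow one_lt_two).2 (not_lt.1 h2)
      unfold lv at *; omega
    have h2 : (2 : ℝ) ^ (lv r - 1) < r := by exact_mod_cast Nat.lt_ceil.1 h1
    obtain ⟨j, hj⟩ := Nat.exists_eq_succ_of_ne_zero c.ne'
    rw [hj] at h2 ⊢
    rw [Nat.succ_sub_one] at h2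
    rw [pow_succ]; linarith

variable {M : ℕ} [NeZero M]

def Kk (k : ZMod M → ℝ) : Matrix (ZMod M) (ZMod M) ℝ := Matrix.of fun x z => k (x - z)

lemma row_mul {A B : Matrix (ZMod M) (ZMod M) ℝ} {a b : ℝ} (hb : 0 ≤ b)
    (h1 : ∀ x, ∑ z, |A x z| ≤ a) (h2 : ∀ x, ∑ z, |B x z| ≤ b) (x : ZMod M) :
    ∑ z, |(A * B) x z| ≤ a * b := by
  calc _ ≤ ∑ z, ∑ y, |A x y| * |B y z| := sum_le_sum fun z _ => by
        rw [mul_apply]
        exact (abs_sum_le_sum_abs _ _).trans (le_of_eq (by simp only [abs_mul]))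
    _ = ∑ y, |A x y| * ∑ z, |B y z| := by rw [sum_comm]; simp only [mul_sum]
    _ ≤ ∑ y, |A x y| * b := sum_le_sum fun y _ => mul_le_mul_of_nonneg_left (h2 y) (abs_nonneg _)
    _ ≤ a * b := by rw [← sum_mul]; exact mul_le_mul_of_nonneg_right (h1 x) hb

lemma col_sub (A B : Matrix (ZMod M) (ZMod M) ℝ) (z : ZMod M) :
    ∑ x, |(A - B) x z| ≤ ∑ x, |A x z| + ∑ x, |B x z| := by
  rw [← sum_add_distrib]; exact sum_le_sum fun x _ => abs_sub _ _

lemma Ek_abs {j : ℕ} (hj : 2 ^ j ∣ M) (z : ZMod M) : ∑ x, |Ek M j x z| = 1 := by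
  simp only [abs_of_nonneg (Ek_nonneg _ _ _)]; exact Ek_col hj z

lemma PP_col {τ : ℕ} (hτ : 2 ^ τ ∣ M) (n : ℕ) (z : ZMod M) : ∑ x, |PP M τ n x z| ≤ 2 := by
  unfold PP
  split_ifs with c
  · refine (col_sub _ _ _).trans ?_
    rw [Ek_abs ((pow_dvd_pow 2 c.le).trans hτ), Ek_abs ((pow_dvd_pow 2 c).trans hτ)]; norm_num
  · rw [Ek_abs hτ]; norm_num

lemma Kk_col {k : ZMod M → ℝ} (h0 : ∀ t, 0 ≤ k t) (h1 : ∑ t, k t = 1) (z : ZMod M) :
    ∑ x, |Kk k x z| = 1 := by
  rw [← h1, ← Equiv.sum_comp (Equiv.subRight z) k]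
  exact sum_congr rfl fun x _ => abs_of_nonneg (h0 _)

lemma Kk_row {k : ZMod M → ℝ} (h0 : ∀ t, 0 ≤ k t) (h1 : ∑ t, k t = 1) (x : ZMod M) :
    ∑ z, |Kk k x z| = 1 := by
  rw [← h1, ← Equiv.sum_comp (Equiv.subLeft x) k]
  exact sum_congr rfl fun x _ => abs_of_nonneg (h0 _)

lemma colA {k : ZMod M → ℝ} {Λ : ℝ} (hΛ : 0 ≤ Λ) (h : ∑ t, |k (t + 1) - k t| ≤ Λ) {m : ℕ}
    (hm : 2 ^ m ∣ M) (z : ZMod M) : ∑ x, |(Kk k * Ek M m - Kk k) x z| ≤ 2 ^ m * Λ := by
  have e : ∀ x, (Kk k * Ek M m - Kk k) x z = ∑ w, Ek M m w z * (k (x - w) - k (x - z)) := by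
    intro x
    simp only [mul_sub, sum_sub_distrib, ← sum_mul, Ek_col hm, one_mul, Matrix.sub_apply,
      mul_apply]
    simp only [mul_comm (Ek M m _ z)]
    rfl
  calc _ ≤ ∑ x, ∑ w, Ek M m w z * |k (x - w) - k (x - z)| := sum_le_sum fun x _ => by
        rw [e]
        exact (abs_sum_le_sum_abs _ _).trans (le_of_eq (by
          simp only [abs_mul, abs_of_nonneg (Ek_nonneg _ _ _)]))
    _ = ∑ w, Ek M m w z * ∑ x, |k (x - w) - k (x - z)| := by rw [sum_comm]; simp only [mul_sum]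
    _ ≤ ∑ w, Ek M m w z * (2 ^ m * Λ) := sum_le_sum fun w _ => by
        by_cases c : sm m w z
        · refine mul_le_mul_of_nonneg_left ((shift_le' k h w z).trans
            (mul_le_mul_of_nonneg_right ?_ hΛ)) (Ek_nonneg _ _ _)
          exact_mod_cast (sm_ab c.symm).le
        · simp [Ek_apply, c]
    _ = _ := by rw [← sum_mul, Ek_col hm, one_mul]

lemma colB {k : ZMod M → ℝ} (h0 : ∀ t, 0 ≤ k t) (h1 : ∑ t, k t = 1) {R : ℕ} {T : ℝ}
    (hT : ∑ t ∈ univ.filter (fun t : ZMod M => R ≤ ab t), k t ≤ T) {m : ℕ} (hm : 2 ^ m ∣ M)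
    (z : ZMod M) : ∑ x, |(Kk k * Ek M m - Ek M m) x z| ≤ 2 * (R * ((2 : ℝ) ^ m)⁻¹ + T) := by
  have e : ∀ x, (Kk k * Ek M m - Ek M m) x z = ∑ t, k t * (Ek M m (x + -t) z - Ek M m x z) := by
    intro x
    simp only [mul_sub, sum_sub_distrib, ← sum_mul, h1, one_mul, Matrix.sub_apply, mul_apply]
    rw [← Equiv.sum_comp (Equiv.subLeft x)]
    simp [Kk, sub_eq_add_neg]
  have b : ∀ t : ZMod M, ∑ x, |Ek M m (x + -t) z - Ek M m x z| ≤
      2 * (R * ((2 : ℝ) ^ m)⁻¹) + if R ≤ ab t then 2 else 0 := by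
    intro t
    have p : 0 ≤ 2 * (R * ((2 : ℝ) ^ m)⁻¹) := by positivity
    split_ifs with c
    · have h2 : ∑ x, |Ek M m (x + -t) z - Ek M m x z| ≤
          ∑ x, (|Ek M m (x + -t) z| + |Ek M m x z|) := sum_le_sum fun x _ => abs_sub _ _
      rw [sum_add_distrib, Ek_abs hm,
        show ∑ x, |Ek M m (x + -t) z| = 1 from
          (Equiv.sum_comp (Equiv.addRight (-t)) fun x => |Ek M m x z|).trans (Ek_abs hm z)] at h2
      linarith
    · refine (shift_le (fun x => Ek M m x z) (tv_atom hm z) (-t)).trans ?_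
      rw [ab_neg, add_zero, mul_left_comm]
      refine mul_le_mul_of_nonneg_left (mul_le_mul_of_nonneg_right ?_ (by positivity)) zero_le_two
      exact_mod_cast (not_le.1 c).le
  calc _ ≤ ∑ x, ∑ t, k t * |Ek M m (x + -t) z - Ek M m x z| := sum_le_sum fun x _ => by
        rw [e]
        exact (abs_sum_le_sum_abs _ _).trans (le_of_eq (by
          simp only [abs_mul, abs_of_nonneg (h0 _)]))
    _ = ∑ t, k t * ∑ x, |Ek M m (x + -t) z - Ek M m x z| := by rw [sum_comm]; simp only [mul_sum]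
    _ ≤ ∑ t, k t * (2 * (R * ((2 : ℝ) ^ m)⁻¹) + if R ≤ ab t then 2 else 0) :=
        sum_le_sum fun t _ => mul_le_mul_of_nonneg_left (b t) (h0 t)
    _ ≤ _ := by
        simp only [mul_add, sum_add_distrib, ← sum_mul, h1, one_mul, mul_ite, mul_zero]
        rw [← sum_filter, ← sum_mul]
        linarith

section ker
variable {L γ i₀ i₁ τ : ℕ} {r : ℕ → ℝ} {k : ℕ → ZMod M → ℝ}

lemma lv_le (h : Ker L γ i₀ i₁ τ r k) {i : ℕ} (hi : i ∈ Ico i₀ i₁) : lv (r i) ≤ τ := by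
  refine (Nat.clog_le_iff_le_pow one_lt_two).2 (Nat.ceil_le.2 ?_)
  have h1 := h.top i hi
  have h2 := h.ge i hi
  have h3 : (1 : ℝ) ≤ 2 ^ γ := one_le_pow₀ one_le_two
  push_cast
  nlinarith

lemma ker_neg (h : Ker L γ i₀ i₁ τ r k) : Ker L γ i₀ i₁ τ r fun i t => k i (-t) where
  one := h.one
  zero i hi := by funext t; rw [h.zero i hi]; rfl
  nonneg i t := h.nonneg i _
  sum i hi := (Equiv.sum_comp (Equiv.neg _) (k i)).trans (h.sum i hi)
  lip i hi := by
    refine le_trans (le_of_eq ?_) (h.lip i hi)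
    rw [← Equiv.sum_comp (Equiv.subLeft (-1))]
    refine sum_congr rfl fun t _ => ?_
    rw [abs_sub_comm]
    simp [add_comm]
  tail i hi R hR := by
    refine le_trans (le_of_eq ?_) (h.tail i hi R hR)
    rw [sum_filter, sum_filter, ← Equiv.sum_comp (Equiv.neg _)]
    simp [ab_neg]
  ge := h.ge
  mono := h.mono
  lac := h.lac
  dvd := h.dvd
  top := h.top

lemma mult (h : Ker L γ i₀ i₁ τ r k) {φ : ℕ → ℝ} (h0 : ∀ j, 0 ≤ φ j) :
    ∑ i ∈ Ico i₀ i₁, φ (lv (r i)) ≤ 2 * L * ∑ j ∈ range (τ + 1), φ j := by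
  rw [← sum_fiberwise_of_maps_to (g := fun i => lv (r i)) (t := range (τ + 1))
    fun i hi => mem_range.2 (Nat.lt_succ_of_le (lv_le h hi)), mul_sum]
  refine sum_le_sum fun j _ => ?_
  rw [sum_congr rfl fun i hi => by rw [(mem_filter.1 hi).2], sum_const, nsmul_eq_mul]
  refine mul_le_mul_of_nonneg_right ?_ (h0 j)
  set S := (Ico i₀ i₁).filter fun i => lv (r i) = j with hS
  rcases S.eq_empty_or_nonempty with e | e
  · rw [e]; simp
  have hsub : S ⊆ Ico (S.min' e) (S.min' e + 2 * L) := by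
    intro i hi
    refine mem_Ico.2 ⟨min'_le _ _ hi, lt_of_not_ge fun c => ?_⟩
    obtain ⟨a1, a2⟩ := mem_filter.1 (min'_mem S e)
    obtain ⟨b1, b2⟩ := mem_filter.1 hi
    have a3 := mem_Ico.1 a1
    have b3 := mem_Ico.1 b1
    have c1 := h.lac (S.min' e) a3.1 (by omega)
    have c2 := h.lac (S.min' e + L) (by omega) (by omega)
    have c3 := h.mono (S.min' e + L + L) i (by omega) (by omega) b3.2
    have c4 := lv_lt (h.ge _ a1)
    have c5 := lv_ge (r i)
    rw [a2] at c4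
    rw [b2] at c5
    linarith
  have := card_le_card hsub
  rw [Nat.card_Ico, Nat.add_sub_cancel_left] at this
  exact_mod_cast this

lemma piece (h : Ker L γ i₀ i₁ τ r k) {i : ℕ} (hi : i ∈ Ico i₀ i₁) {n : ℕ} (hn : n ≤ τ) :
    Bd ((Kk (k i) - Ek M (lv (r i))) * PP M τ n)
      ((5 * (15 / 16 : ℝ) ^ ((lv (r i) - (n + 1)) + ((n - γ) - lv (r i)))) ^ 4) := by
  have hj := lv_le h hi
  have r1 := lv_ge (r i)
  have r2 := lv_lt (h.ge i hi)
  have r0 : 0 < r i := one_pos.trans_le (h.ge i hi)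
  generalize lv (r i) = j at *
  have dv : ∀ m ≤ τ, 2 ^ m ∣ M := fun m hm => (pow_dvd_pow 2 hm).trans h.dvd
  have row : ∀ x, ∑ z, |((Kk (k i) - Ek M j) * PP M τ n) x z| ≤ 2 * 2 := by
    refine row_mul zero_le_two (fun x => ?_) fun x => ?_
    · refine (col_sub (Kk (k i))ᵀ (Ek M j)ᵀ x).trans ?_
      rw [Ek_tr, Ek_abs (dv j hj)]
      simp only [transpose_apply, Kk_row (h.nonneg i) (h.sum i hi)]; norm_num
    · have := PP_col h.dvd n x
      rwa [← PP_tr] at this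
  suffices col : ∀ z, ∑ x, |((Kk (k i) - Ek M j) * PP M τ n) x z| ≤
      128 * ((15 / 16 : ℝ) ^ ((j - (n + 1)) + ((n - γ) - j))) ^ 4 by
    refine (schur row col).mono ?_
    have : (0 : ℝ) ≤ ((15 / 16 : ℝ) ^ ((j - (n + 1)) + ((n - γ) - j))) ^ 4 := by positivity
    rw [mul_pow]
    linarith
  intro z
  rcases lt_or_ge n j with c | c
  · have e : (Kk (k i) - Ek M j) * PP M τ n =
        (Kk (k i) * Ek M n - Kk (k i)) - (Kk (k i) * Ek M (n + 1) - Kk (k i)) := by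
      rw [PP, if_pos (c.trans_le hj), sub_mul, mul_sub, mul_sub, Ek_mul' (dv n hn) c.le,
        Ek_mul' (dv (n + 1) (c.trans_le hj)) c]
      abel
    have a1 := colA (by positivity) (h.lip i hi) (dv n hn) z
    have a2 := colA (by positivity) (h.lip i hi) (dv (n + 1) (c.trans_le hj)) z
    obtain ⟨d, rfl⟩ := Nat.exists_eq_add_of_le (Nat.succ_le_of_lt c)
    rw [e, show n.succ + d - (n + 1) + (n - γ - (n.succ + d)) = d by omega]
    refine (col_sub _ _ _).trans (le_trans ?_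
      (mul_le_mul_of_nonneg_left (inv_le_th d) (by norm_num)))
    have a3 : (2 : ℝ) ^ n * (16 / r i) ≤ 32 * ((2 : ℝ) ^ d)⁻¹ := by
      rw [← mul_div_assoc, ← div_eq_mul_inv, div_le_div_iff₀ r0 (by positivity)]
      rw [pow_add, pow_succ] at r2
      nlinarith
    rw [pow_succ] at a2
    have p : (0 : ℝ) ≤ ((2 : ℝ) ^ d)⁻¹ := by positivity
    linarith
  rcases lt_or_ge n (j + γ) with c1 | c1
  · rw [show j - (n + 1) + (n - γ - j) = 0 by omega]
    have := row_mul (A := (PP M τ n)ᵀ) (B := (Kk (k i) - Ek M j)ᵀ) (a := 2) zero_le_two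
      (PP_col h.dvd n) (fun x => (col_sub _ _ x).trans (by
        rw [Kk_col (h.nonneg i) (h.sum i hi), Ek_abs (dv j hj)]; norm_num)) z
    rw [← transpose_mul] at this
    refine le_trans this (by norm_num)
  obtain ⟨s, rfl⟩ := Nat.exists_eq_add_of_le c1
  rw [show j - (j + γ + s + 1) + (j + γ + s - γ - j) = s by omega]
  have hb : ∀ m, j + γ + s ≤ m → m ≤ τ →
      ∑ x, |(Kk (k i) * Ek M m - Ek M m) x z| ≤ 4 * ((2 : ℝ) ^ (s / 2))⁻¹ := by
    intro m h1 h2
    refine (colB (h.nonneg i) (h.sum i hi) (h.tail i hi (2 ^ (j + γ + s / 2))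
      Nat.one_le_two_pow) (dv m h2) z).trans ?_
    have b1 : ((2 ^ (j + γ + s / 2) : ℕ) : ℝ) * ((2 : ℝ) ^ m)⁻¹ ≤ ((2 : ℝ) ^ (s / 2))⁻¹ := by
      push_cast
      rw [← div_eq_mul_inv, div_le_iff₀ (by positivity), le_inv_mul_iff₀ (by positivity),
        ← pow_add]
      exact pow_le_pow_right₀ one_le_two (by omega)
    have b2 : 2 ^ γ * r i / ((2 ^ (j + γ + s / 2) : ℕ) : ℝ) ≤ ((2 : ℝ) ^ (s / 2))⁻¹ := by
      push_cast
      rw [div_le_iff₀ (by positivity), le_inv_mul_iff₀ (by positivity), pow_add, pow_add]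
      have : (0 : ℝ) ≤ 2 ^ γ * 2 ^ (s / 2) := by positivity
      nlinarith
    linarith
  have hh := half_le s
  have p : (0 : ℝ) ≤ ((2 : ℝ) ^ (s / 2))⁻¹ := by positivity
  rcases hn.eq_or_lt with c2 | c2
  · rw [PP, if_neg (by omega), sub_mul, Ek_mul (dv j hj) hj]
    have := hb τ hn le_rfl
    linarith
  · have e : (Kk (k i) - Ek M j) * PP M τ (j + γ + s) =
        (Kk (k i) * Ek M (j + γ + s) - Ek M (j + γ + s)) -
          (Kk (k i) * Ek M (j + γ + s + 1) - Ek M (j + γ + s + 1)) := by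
      rw [PP, if_pos c2, mul_sub, sub_mul, sub_mul, Ek_mul (dv j hj) c,
        Ek_mul (dv j hj) (c.trans (Nat.le_succ _))]
    rw [e]
    refine (col_sub _ _ _).trans ?_
    have := hb _ le_rfl hn
    have := hb _ (Nat.le_succ _) c2
    linarith

lemma far_one (h : Ker L γ i₀ i₁ τ r k) {i : ℕ} (hi : i ∈ Ico i₀ i₁) {l : ℕ} {y : ZMod M}
    {b : ZMod M → ℂ} (h1 : ∀ z, ¬ sm l y z → b z = 0) (h2 : l < τ → ∑ z, b z = 0) :
    ∑ x, (if far l y x then ‖ap (Kk (k i)) b x‖ else 0) ≤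
      64 * (15 / 16 : ℝ) ^ (((l - γ) - lv (r i)) + (lv (r i) - l)) * ∑ z, ‖b z‖ := by
  have hj := lv_le h hi
  have r1 := lv_ge (r i)
  have r2 := lv_lt (h.ge i hi)
  have r0 : 0 < r i := one_pos.trans_le (h.ge i hi)
  generalize lv (r i) = j at *
  have th : ∀ d : ℕ, ((2 : ℝ) ^ d)⁻¹ ≤ (15 / 16) ^ d := fun d => by
    rw [← inv_pow]; exact pow_le_pow_left₀ (by norm_num) (by norm_num) _
  have gen : ∀ (w : ZMod M → ZMod M → ℝ) (ω : ℝ), (∀ x, (if far l y x then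
      ‖ap (Kk (k i)) b x‖ else 0) ≤ ∑ z, w x z * ‖b z‖) → (∀ z, sm l y z → ∑ x, w x z ≤ ω) →
      ∑ x, (if far l y x then ‖ap (Kk (k i)) b x‖ else 0) ≤ ω * ∑ z, ‖b z‖ := by
    intro w ω a1 a2
    refine (sum_le_sum fun x _ => a1 x).trans ?_
    rw [sum_comm, mul_sum]
    refine sum_le_sum fun z _ => ?_
    rw [← sum_mul]
    by_cases c : sm l y z
    · exact mul_le_mul_of_nonneg_right (a2 z c) (norm_nonneg _)
    · simp [h1 z c]
  rcases lt_or_ge l j with c | c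
  · refine gen (fun x z => |k i (x - z) - k i (x - y)|) _ (fun x => ?_) fun z hz => ?_
    · have e : ap (Kk (k i)) b x = ap (Matrix.of fun x z => k i (x - z) - k i (x - y)) b x := by
        simp only [ap, of_apply, Complex.ofReal_sub, sub_mul, sum_sub_distrib, ← mul_sum,
          h2 (c.trans_le hj), mul_zero, sub_zero, Kk]
      split_ifs
      · rw [e]; exact ap_norm_le _ _ _
      · positivity
    · obtain ⟨d, rfl⟩ := Nat.exists_eq_add_of_le c.le
      rw [show l - γ - (l + d) + (l + d - l) = d by omega]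
      refine (shift_le' _ (h.lip i hi) z y).trans (le_trans ?_
        (mul_le_mul_of_nonneg_left (th d) (by norm_num)))
      have a1 : (ab (y - z) : ℝ) ≤ 2 ^ l := by exact_mod_cast (sm_ab hz).le
      refine (mul_le_mul_of_nonneg_right a1 (by positivity)).trans ?_
      rw [← mul_div_assoc, ← div_eq_mul_inv, div_le_div_iff₀ r0 (by positivity)]
      rw [pow_add] at r2
      nlinarith
  · refine gen (fun x z => if far l y x then k i (x - z) else 0) _ (fun x => ?_) fun z hz => ?_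
    · split_ifs
      · exact (ap_norm_le _ _ _).trans (le_of_eq (sum_congr rfl fun z _ => by
          rw [abs_of_nonneg (show 0 ≤ Kk (k i) x z from h.nonneg i _)]; rfl))
      · simp
    · have a1 : ∑ x, (if far l y x then k i (x - z) else 0) ≤
          ∑ t ∈ univ.filter (fun t : ZMod M => 2 ^ l ≤ ab t), k i t := by
        rw [sum_filter, ← Equiv.sum_comp (Equiv.subRight z)
          fun t => if 2 ^ l ≤ ab t then k i t else 0]
        refine sum_le_sum fun x _ => ?_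
        simp only [Equiv.subRight_apply]
        split_ifs with c1 c2
        · exact le_rfl
        · exact absurd (c1 z hz) c2
        · exact h.nonneg i _
        · exact le_rfl
      refine a1.trans ?_
      rcases lt_or_ge l (j + γ) with c1 | c1
      · rw [show l - γ - j + (j - l) = 0 by omega]
        refine (sum_le_sum_of_subset_of_nonneg (subset_univ _) fun t _ _ => h.nonneg i t).trans ?_
        rw [h.sum i hi]; norm_num
      · obtain ⟨d, rfl⟩ := Nat.exists_eq_add_of_le c1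
        rw [show j + γ + d - γ - j + (j - (j + γ + d)) = d by omega]
        refine (h.tail i hi _ Nat.one_le_two_pow).trans (le_trans ?_
          (mul_le_mul_of_nonneg_left (th d) (by norm_num)))
        push_cast
        rw [← div_eq_mul_inv, div_le_div_iff₀ (by positivity) (by positivity), pow_add, pow_add]
        have : (0 : ℝ) ≤ 2 ^ γ * 2 ^ d := by positivity
        nlinarith

lemma HH_RC (h : Ker L γ i₀ i₁ τ r k) {c : ℕ → ℝ} (hc : ∀ i, |c i| ≤ 1) :
    HH τ (∑ i ∈ Ico i₀ i₁, c i • (Kk (k i) - Ek M (lv (r i)))) (128 * L * (γ + 32)) := by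
  intro l _ y b h1 h2
  have a1 : ∀ x, (if far l y x then
      ‖ap (∑ i ∈ Ico i₀ i₁, c i • (Kk (k i) - Ek M (lv (r i)))) b x‖ else 0) ≤
      ∑ i ∈ Ico i₀ i₁, (if far l y x then ‖ap (Kk (k i)) b x‖ else 0) := by
    intro x
    split_ifs with hx
    · rw [ap_ksum]
      refine (norm_sum_le _ _).trans (sum_le_sum fun i hi => ?_)
      rw [ap_ksub, E_far (lv_le h hi) h1 h2 hx, sub_zero, norm_smul]
      exact mul_le_of_le_one_left (norm_nonneg _) (hc i)
    · simp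
  refine (sum_le_sum fun x _ => a1 x).trans ?_
  rw [sum_comm]
  refine (sum_le_sum fun i hi => far_one h hi h1 h2).trans ?_
  rw [← sum_mul, ← mul_sum]
  refine mul_le_mul_of_nonneg_right ?_ (by positivity)
  have a2 := mult h (φ := fun j => (15 / 16 : ℝ) ^ (((l - γ) - j) + (j - l))) fun _ => by positivity
  have a3 := geo (range (τ + 1)) (l - γ) l
  have a4 : ((l - (l - γ) : ℕ) : ℝ) ≤ γ := by exact_mod_cast (by omega)
  have a5 := mul_le_mul_of_nonneg_left (a3.trans (add_le_add a4 le_rfl))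
    (show (0 : ℝ) ≤ 2 * L by positivity)
  linarith

end ker

end ZJ

end

end Pool.Agent.Lib.MP_10e396_an
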