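import Pool.Agent.Lib.MP_10e396_an.Prob

/-! The chaos lemma: moment bounds for sums of degenerate functions of bounded degree. -/

set_option autoImplicit false

namespace Pool.Agent.Lib.MP_10e396_an

open Finset Function

namespace Chaos

noncomputable section

/-- Burkholder-Rosenthal indexed by a finite linear order -/
lemma br' (r : ℕ) (hr : 1 ≤ r) : ∃ C : ℝ, 0 < C ∧
    ∀ (X A E P : Type) [Fintype X] [Fintype A] [Nonempty A] [NormedAddCommGroup E]
      [InnerProductSpace ℝ E] [Fintype P] [LinearOrder P] (τ : P → A → X → X) (G : P → X → E)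
      (v : P → X → ℝ),
      (∀ k, ∀ φ : X → ℝ, ∑ x, ∑ a, φ (τ k a x) = Fintype.card A * ∑ x, φ x) →
      (∀ j k, j < k → ∀ a x, G j (τ k a x) = G j x) →
      (∀ k x, ∑ a, G k (τ k a x) = 0) →
      (∀ j k, j ≤ k → ∀ a x, v j (τ k a x) = v j x) →
      (∀ k x, ∑ a, ‖G k (τ k a x)‖ ^ 2 ≤ Fintype.card A * v k x) →
      ∑ x, ‖∑ k, G k x‖ ^ (2 * r) ≤
        C * (∑ x, (∑ k, v k x) ^ r + ∑ k, ∑ x, ‖G k x‖ ^ (2 * r)) := by
  obtain ⟨C, hC, h⟩ := stBr r hr
  refine ⟨C, hC, ?_⟩
  intro X A E P _ _ _ _ _ _ _ τ G v h1 h2 h3 h4 h5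
  rcases isEmpty_or_nonempty P with hP | ⟨⟨p0⟩⟩
  · have : 2 * r ≠ 0 := by omega
    have hr' : r ≠ 0 := by omega
    simp [this, hr']
  let e := monoEquivOfFin P rfl
  let ι : ℕ → P := fun k => if h : k < Fintype.card P then e ⟨k, h⟩ else p0
  have hlt : ∀ j k, j < k → k < Fintype.card P → ι j < ι k := fun j k hjk hk => by
    simp only [ι, dif_pos hk, dif_pos (hjk.trans hk)]
    exact e.strictMono hjk
  have hle : ∀ j k, j ≤ k → k < Fintype.card P → ι j ≤ ι k := fun j k hjk hk => by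
    rcases hjk.eq_or_lt with rfl | h
    · exact le_rfl
    · exact (hlt j k h hk).le
  have hs : ∀ {M : Type} [AddCommMonoid M] (f : P → M),
      ∑ k ∈ range (Fintype.card P), f (ι k) = ∑ k, f k := fun f => by
    rw [sum_range, ← e.toEquiv.sum_comp f]
    exact sum_congr rfl fun k _ => by simp [ι]
  have := h X A E (Fintype.card P) (fun k => τ (ι k)) (fun k => G (ι k)) (fun k => v (ι k))
    (fun k _ => h1 _) (fun j k hjk hk => h2 _ _ (hlt j k hjk hk)) (fun k _ => h3 _)
    (fun j k hjk hk => h4 _ _ (hle j k hjk hk)) (fun k _ => h5 _)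
  rw [hs fun k => ∑ x, ‖G k x‖ ^ (2 * r)] at this
  simpa only [fun x => hs fun k => G k x, fun x => hs fun k => v k x] using this

variable {P Ω : Type} [Fintype P] [LinearOrder P]

lemma sum_max {M : Type} [AddCommMonoid M] (f : Finset P → M) :
    ∑ S, f S = f ∅ + ∑ k, ∑ S, if ∀ p ∈ S, p < k then f (insert k S) else 0 := by
  rw [← add_sum_erase univ f (mem_univ ∅), ← Fintype.sum_prod_type'
    (f := fun k S => if ∀ p ∈ S, p < k then f (insert k S) else 0), ← sum_filter]
  congr 1
  symm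
  refine sum_bij (fun z _ => insert z.1 z.2) (fun z _ => by simp) ?_ ?_ (fun _ _ => rfl)
  · rintro ⟨k, S⟩ h1 ⟨l, T⟩ h2 h
    simp only [mem_filter, mem_univ, true_and] at h1 h2 h
    have a1 : k ≤ l := by
      have : k ∈ insert l T := h ▸ mem_insert_self k S
      rcases mem_insert.mp this with h | h
      exacts [h.le, (h2 k h).le]
    have a2 : l ≤ k := by
      have : l ∈ insert k S := h.symm ▸ mem_insert_self l T
      rcases mem_insert.mp this with h | h
      exacts [h.le, (h1 l h).le]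
    obtain rfl := le_antisymm a1 a2
    have b1 : k ∉ S := fun h => lt_irrefl _ (h1 k h)
    have b2 : k ∉ T := fun h => lt_irrefl _ (h2 k h)
    rw [← erase_insert b1, ← erase_insert b2, h]
  · intro S hS
    have hne : S.Nonempty := nonempty_iff_ne_empty.mpr (ne_of_mem_erase hS)
    refine ⟨(S.max' hne, S.erase (S.max' hne)), ?_, insert_erase (max'_mem S hne)⟩
    simp only [mem_filter, mem_univ, true_and]
    exact fun p hp => lt_of_le_of_ne (le_max' S p (mem_of_mem_erase hp)) (ne_of_mem_erase hp)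

lemma sum_max_le (f : Finset P → ℝ) (h : 0 ≤ f ∅) :
    (∑ k, ∑ S, if ∀ p ∈ S, p < k then f (insert k S) else 0) ≤ ∑ S, f S := by
  rw [sum_max f]; linarith

variable [Fintype Ω]

lemma resample (k : P) (φ : (P → Ω) → ℝ) :
    ∑ x, ∑ a, φ (update x k a) = Fintype.card Ω * ∑ x, φ x := by
  have h : Involutive fun z : (P → Ω) × Ω => (update z.1 k z.2, z.1 k) := fun z => by simp
  rw [← Fintype.sum_prod_type' (f := fun x a => φ (update x k a)),
    ← Equiv.sum_comp h.toPerm fun z : (P → Ω) × Ω => φ (update z.1 k z.2)]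
  simp [Fintype.sum_prod_type, mul_sum]

variable {E : Type} [NormedAddCommGroup E]

/-- conditional second moment -/
def m2 (Φ : Finset P → (P → Ω) → E) (T : Finset P) (x : P → Ω) (S : Finset P) : ℝ :=
  (∑ x', ‖Φ S (T.piecewise x x')‖ ^ 2) / Fintype.card (P → Ω)

def gg (Φ : Finset P → (P → Ω) → E) (T : Finset P) (x : P → Ω) : ℝ :=
  ∑ S, if T ⊆ S then m2 Φ T x S else 0

lemma m2_nonneg (Φ : Finset P → (P → Ω) → E) (T : Finset P) (x : P → Ω) (S : Finset P) :
    0 ≤ m2 Φ T x S := by unfold m2; positivity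

lemma gg_nonneg (Φ : Finset P → (P → Ω) → E) (T : Finset P) (x : P → Ω) : 0 ≤ gg Φ T x :=
  sum_nonneg fun S _ => by split_ifs; exacts [m2_nonneg _ _ _ _, le_rfl]

/-- the slice with maximal element `k` frozen at `a` -/
def sl (Φ : Finset P → (P → Ω) → E) (k : P) (a : Ω) (S : Finset P) (x : P → Ω) : E :=
  if ∀ p ∈ S, p < k then Φ (insert k S) (update x k a) else 0

structure Deg (D : ℕ) (Φ : Finset P → (P → Ω) → E) : Prop where
  zero : ∀ S, D ≤ S.card → Φ S = 0
  out : ∀ S p, p ∉ S → ∀ x a, Φ S (update x p a) = Φ S x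
  mean : ∀ S p, p ∈ S → ∀ x, ∑ a, Φ S (update x p a) = 0

lemma Deg.sl {D : ℕ} {Φ : Finset P → (P → Ω) → E} (h : Deg (D + 1) Φ) (k : P) (a : Ω) :
    Deg D (sl Φ k a) := by
  refine ⟨fun S hS => funext fun x => ?_, fun S p hp x b => ?_, fun S p hp x => ?_⟩
  · unfold Chaos.sl
    split_ifs with hk
    · rw [h.zero _ (by rw [card_insert_of_notMem fun h => lt_irrefl _ (hk k h)]; omega)]; rfl
    · rfl
  · unfold Chaos.sl
    split_ifs with hk
    · by_cases e : p = k
      · rw [e, update_idem]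
      · rw [update_comm e, h.out _ p (by simp [e, hp])]
    · rfl
  · unfold Chaos.sl
    split_ifs with hk
    · simp only [fun b => update_comm (hk p hp).ne b a x]
      exact h.mean _ p (mem_insert_of_mem hp) _
    · simp

lemma gg_sl (Φ : Finset P → (P → Ω) → E) (k : P) (a : Ω) (T : Finset P) (x : P → Ω) :
    gg (sl Φ k a) T x ≤ if ∀ p ∈ T, p < k then gg Φ (insert k T) (update x k a) else 0 := by
  split_ifs with hT
  · have e : ∀ x' : P → Ω, update (T.piecewise x x') k a =
        (insert k T).piecewise (update x k a) x' := fun x' => by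
      funext p
      by_cases hp : p = k
      · subst hp; simp
      · by_cases hp' : p ∈ T <;> simp [hp, hp', piecewise]
    have := sum_max_le (fun S => if insert k T ⊆ S then m2 Φ (insert k T) (update x k a) S else 0)
      (by simp)
    refine le_trans ?_ this
    refine le_trans ?_ (single_le_sum (f := fun l => ∑ S, if ∀ p ∈ S, p < l then
      (if insert k T ⊆ insert l S then m2 Φ (insert k T) (update x k a) (insert l S) else 0) else 0)
      (fun l _ => sum_nonneg fun S _ => by split_ifs; exacts [m2_nonneg _ _ _ _, le_rfl, le_rfl])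
      (mem_univ k))
    refine sum_le_sum fun S _ => ?_
    by_cases hS : ∀ p ∈ S, p < k
    · rw [if_pos hS]
      by_cases hTS : T ⊆ S
      · rw [if_pos hTS, if_pos (insert_subset_insert k hTS)]
        simp only [m2, Chaos.sl, if_pos hS, e, le_refl]
      · rw [if_neg hTS]; split_ifs; exacts [m2_nonneg _ _ _ _, le_rfl]
    · simp [m2, Chaos.sl, if_neg hS]
  · refine le_of_eq (sum_eq_zero fun S _ => ?_)
    split_ifs with hTS
    · have hS : ¬∀ p ∈ S, p < k := fun h => hT fun p hp => h p (hTS hp)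
      simp [m2, Chaos.sl, if_neg hS]
    · rfl

/-- all slices at once -/
def sv (Φ : Finset P → (P → Ω) → E) (S : Finset P) (x : P → Ω) : PiLp 2 fun _ : P × Ω => E :=
  WithLp.toLp 2 fun z => sl Φ z.1 z.2 S x

lemma Deg.sv {D : ℕ} {Φ : Finset P → (P → Ω) → E} (h : Deg (D + 1) Φ) : Deg D (sv Φ) := by
  refine ⟨fun S hS => funext fun x => ?_, fun S p hp x b => ?_, fun S p hp x => ?_⟩
  · ext z; simp [Chaos.sv, (h.sl z.1 z.2).zero S hS]
  · ext z; simp [Chaos.sv, (h.sl z.1 z.2).out S p hp]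
  · ext z; simp [Chaos.sv, (h.sl z.1 z.2).mean S p hp]

lemma gg_sv (Φ : Finset P → (P → Ω) → E) (T : Finset P) (x : P → Ω) :
    gg (sv Φ) T x ≤ Fintype.card Ω * gg Φ T x := by
  have := sum_max_le (fun S => if T ⊆ S then m2 Φ T x S else 0)
    (by split_ifs; exacts [m2_nonneg _ _ _ _, le_rfl])
  refine le_trans ?_ (mul_le_mul_of_nonneg_left this (Nat.cast_nonneg _))
  rw [sum_comm, mul_sum]
  refine sum_le_sum fun S _ => ?_
  by_cases hTS : T ⊆ S
  · rw [if_pos hTS, m2, mul_sum]
    simp only [PiLp.norm_sq_eq_of_L2, Chaos.sv, Fintype.sum_prod_type]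
    rw [sum_comm, sum_div]
    refine sum_le_sum fun k _ => ?_
    by_cases hS : ∀ p ∈ S, p < k
    · have hk : k ∉ T := fun h => lt_irrefl _ (hS k (hTS h))
      have e : ∀ (x' : P → Ω) (a : Ω), update (T.piecewise x x') k a =
          T.piecewise x (update x' k a) := fun x' a => by
        funext p
        by_cases hp : p = k
        · subst hp; simp [hk]
        · by_cases hp' : p ∈ T <;> simp [hp, hp', piecewise]
      rw [if_pos hS, if_pos (hTS.trans (subset_insert k S))]
      simp only [Chaos.sl, if_pos hS, e]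
      rw [resample k fun y => ‖Φ (insert k S) (T.piecewise x y)‖ ^ 2, m2, mul_div_assoc]
    · simp [Chaos.sl, if_neg hS]
  · rw [if_neg hTS]
    exact mul_nonneg (Nat.cast_nonneg _) (sum_nonneg fun k _ => by
      split_ifs; exacts [m2_nonneg _ _ _ _, le_rfl, le_rfl])

lemma const_of_out {D : ℕ} {Φ : Finset P → (P → Ω) → E} (h : Deg D Φ) (x y : P → Ω) :
    Φ ∅ x = Φ ∅ y := by
  have : ∀ s : Finset P, Φ ∅ (s.piecewise x y) = Φ ∅ y := fun s => by
    induction s using Finset.induction_on with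
    | empty => simp
    | insert i s hi ih => rw [piecewise_insert, h.out _ i (notMem_empty i), ih]
  rw [← this univ, piecewise_univ]

lemma empty_le [Nonempty Ω] {D : ℕ} {Φ : Finset P → (P → Ω) → E} (h : Deg D Φ) (x : P → Ω) :
    ‖Φ ∅ x‖ ^ 2 ≤ gg Φ ∅ x := by
  have hc : (0 : ℝ) < Fintype.card (P → Ω) := by exact_mod_cast Fintype.card_pos
  have e : m2 Φ ∅ x ∅ = ‖Φ ∅ x‖ ^ 2 := by
    simp only [m2, fun y => const_of_out h y x, sum_const, card_univ, nsmul_eq_mul]
    field_simp
  have := single_le_sum (f := fun S => if (∅ : Finset P) ⊆ S then m2 Φ ∅ x S else 0)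
    (fun S _ => by split_ifs; exacts [m2_nonneg _ _ _ _, le_rfl]) (mem_univ ∅)
  rwa [if_pos (Subset.refl _), e] at this

lemma main (r : ℕ) (hr : 1 ≤ r) : ∃ C : ℝ, 1 ≤ C ∧
    ∀ (P Ω : Type) [Fintype P] [LinearOrder P] [Fintype Ω] [Nonempty Ω] (D : ℕ) (E : Type)
      [NormedAddCommGroup E] [InnerProductSpace ℝ E] (Φ : Finset P → (P → Ω) → E), Deg D Φ →
      ∑ x, ‖∑ S, Φ S x‖ ^ (2 * r) ≤ C ^ D * ∑ T : Finset P, ∑ x : P → Ω, gg Φ T x ^ r := by
  obtain ⟨B, hB, hbr⟩ := br' r hr
  have hC : (1 : ℝ) ≤ 2 ^ (2 * r - 1) * (1 + 2 * B) :=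
    one_le_mul_of_one_le_of_one_le (one_le_pow₀ one_le_two) (by linarith)
  refine ⟨_, hC, ?_⟩
  generalize hCe : (2 : ℝ) ^ (2 * r - 1) * (1 + 2 * B) = C at *
  intro P Ω _ _ _ _ D
  have hc : (0 : ℝ) < Fintype.card Ω := by exact_mod_cast Fintype.card_pos
  have hr0 : r ≠ 0 := by omega
  induction D with
  | zero =>
    intro E _ _ Φ h
    have : 2 * r ≠ 0 := by omega
    simp only [fun S => h.zero S (Nat.zero_le _), Pi.zero_apply, sum_const_zero, norm_zero,
      zero_pow this, pow_zero, one_mul]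
    exact sum_nonneg fun T _ => sum_nonneg fun x _ => pow_nonneg (gg_nonneg _ _ _) _
  | succ D ih =>
    intro E _ _ Φ h
    let d : P → (P → Ω) → E := fun k x => ∑ S, if ∀ p ∈ S, p < k then Φ (insert k S) x else 0
    have hd : ∀ k a x, d k (update x k a) = ∑ S, sl Φ k a S x := fun k a x => rfl
    have h2 : ∀ j k, j < k → ∀ a x, d j (update x k a) = d j x := fun j k hjk a x =>
      sum_congr rfl fun S _ => by
        split_ifs with hS
        · refine h.out _ k (fun hk => ?_) x a
          rcases mem_insert.mp hk with e | e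
          exacts [hjk.ne' e, lt_asymm hjk (hS k e)]
        · rfl
    have H := hbr (P → Ω) Ω E P (fun k a x => update x k a) d
      (fun k x => (∑ a, ‖d k (update x k a)‖ ^ 2) / Fintype.card Ω) resample h2
      (fun k x => by
        simp only [d]
        rw [sum_comm]
        refine sum_eq_zero fun S _ => ?_
        split_ifs
        exacts [h.mean _ k (mem_insert_self k S) x, by simp])
      (fun j k hjk b x => by
        rcases hjk.eq_or_lt with rfl | hlt
        · simp only [update_idem]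
        · simp only [fun a => update_comm hlt.ne' b a x, h2 j k hlt])
      (fun k x => le_of_eq (by field_simp))
    set R := ∑ T : Finset P, ∑ x : P → Ω, gg Φ T x ^ r with hR
    have hg : ∀ T, 0 ≤ ∑ x : P → Ω, gg Φ T x ^ r := fun T =>
      sum_nonneg fun x _ => pow_nonneg (gg_nonneg _ _ _) _
    have R0 : 0 ≤ R := sum_nonneg fun T _ => hg T
    have hCD : 1 ≤ C ^ D := one_le_pow₀ hC
    have t0 : ∑ x, ‖Φ ∅ x‖ ^ (2 * r) ≤ R := by
      refine le_trans (sum_le_sum fun x _ => ?_) (single_le_sum (fun T _ => hg T) (mem_univ ∅))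
      rw [pow_mul]
      exact pow_le_pow_left₀ (by positivity) (empty_le h x) _
    have t1 : ∑ x, (∑ k, (∑ a, ‖d k (update x k a)‖ ^ 2) / Fintype.card Ω) ^ r ≤ C ^ D * R := by
      have i1 := ih _ (sv Φ) h.sv
      have e : ∀ x, ‖∑ S, sv Φ S x‖ ^ (2 * r) = Fintype.card Ω ^ r *
          (∑ k, (∑ a, ‖d k (update x k a)‖ ^ 2) / Fintype.card Ω) ^ r := fun x => by
        rw [pow_mul, ← mul_pow, ← sum_div, mul_div_cancel₀ _ hc.ne', PiLp.norm_sq_eq_of_L2,
          Fintype.sum_prod_type]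
        simp only [hd, sv, WithLp.ofLp_sum, Finset.sum_apply]
      simp only [e] at i1
      rw [← mul_sum] at i1
      refine le_of_mul_le_mul_left (i1.trans ?_) (pow_pos hc r)
      rw [mul_left_comm, hR, mul_sum _ _ ((Fintype.card Ω : ℝ) ^ r)]
      refine mul_le_mul_of_nonneg_left (sum_le_sum fun T _ => ?_) (by positivity)
      rw [mul_sum]
      refine sum_le_sum fun x _ => ?_
      rw [← mul_pow]
      exact pow_le_pow_left₀ (gg_nonneg _ _ _) (gg_sv Φ T x) _
    have t2 : ∑ k, ∑ x, ‖d k x‖ ^ (2 * r) ≤ C ^ D * R := by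
      refine le_trans ?_ (mul_le_mul_of_nonneg_left
        (sum_max_le (fun T => ∑ x : P → Ω, gg Φ T x ^ r) (hg ∅)) (by positivity))
      rw [mul_sum]
      refine sum_le_sum fun k _ => le_of_mul_le_mul_left ?_ hc
      rw [← resample k fun x => ‖d k x‖ ^ (2 * r), sum_comm]
      simp only [hd]
      refine (sum_le_sum fun a _ => ih _ _ (h.sl k a)).trans ?_
      rw [← mul_sum, mul_left_comm, sum_comm, mul_sum _ _ (Fintype.card Ω : ℝ)]
      refine mul_le_mul_of_nonneg_left (sum_le_sum fun T _ => ?_) (by positivity)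
      refine (sum_le_sum fun a _ => sum_le_sum fun x _ =>
        pow_le_pow_left₀ (gg_nonneg _ _ _) (gg_sl Φ k a T x) r).trans (le_of_eq ?_)
      split_ifs
      · rw [sum_comm, resample k fun y => gg Φ (insert k T) y ^ r]
      · simp [hr0]
    have s : ∀ x, ‖∑ S, Φ S x‖ ^ (2 * r) ≤
        2 ^ (2 * r - 1) * (‖Φ ∅ x‖ ^ (2 * r) + ‖∑ k, d k x‖ ^ (2 * r)) := fun x => by
      rw [sum_max fun S => Φ S x]
      exact (pow_le_pow_left₀ (norm_nonneg _) (norm_add_le _ _) _).trans
        (add_pow_le (norm_nonneg _) (norm_nonneg _) _)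
    refine (sum_le_sum fun x _ => s x).trans ?_
    rw [← mul_sum, sum_add_distrib, pow_succ', ← hCe, mul_assoc, mul_assoc, hCe]
    refine mul_le_mul_of_nonneg_left ?_ (by positivity)
    have := mul_le_mul_of_nonneg_left (add_le_add t1 t2) hB.le
    nlinarith [mul_le_mul_of_nonneg_right hCD R0]

end

end Chaos

theorem stChaos : StChaos := by
  intro r hr
  obtain ⟨C, hC, h⟩ := Chaos.main r hr
  refine ⟨C, hC, ?_⟩
  intro D P Ω E _ _ _ _ _ _ Φ h1 h2 h3
  have := h P Ω (D + 1) E Φ ⟨fun S hS => h1 S hS, h2, h3⟩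
  simpa only [Chaos.gg, Chaos.m2, sum_filter] using this

end Pool.Agent.Lib.MP_10e396_an
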