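import Pool.Agent.Lib.MP_10e396_an.Lp

/-! Fourier analysis on cyclic groups. -/

set_option autoImplicit false

namespace Pool.Agent.Lib.MP_10e396_an

open Finset ComplexConjugate

noncomputable section

theorem ee_add (x y : ℝ) : ee (x + y) = ee x * ee y := by
  unfold ee; rw [← Complex.exp_add]; congr 1; push_cast; ring

theorem ee_eq (x : ℝ) : ee x = Complex.exp (Complex.I * (2 * Real.pi * x : ℝ)) := by
  unfold ee; congr 1; push_cast; ring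

theorem norm_ee (x : ℝ) : ‖ee x‖ = 1 := by
  rw [ee_eq, Complex.norm_exp_I_mul_ofReal]

theorem ee_zero : ee 0 = 1 := by simp [ee]

theorem ee_int (n : ℤ) : ee n = 1 := by
  unfold ee
  rw [← Complex.exp_int_mul_two_pi_mul_I n]; congr 1; push_cast; ring

theorem norm_ee_sub_one_le (x : ℝ) : ‖ee x - 1‖ ≤ 7 * |x| := by
  rw [ee_eq]
  refine Real.norm_exp_I_mul_ofReal_sub_one_le.trans ?_
  rw [Real.norm_eq_abs, abs_mul, abs_of_pos (by positivity : 0 < 2 * Real.pi)]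
  have := Real.pi_lt_d2
  gcongr; linarith

theorem le_norm_ee_sub_one {x : ℝ} (hx : |x| ≤ 1 / 2) : 4 * |x| ≤ ‖ee x - 1‖ := by
  rw [ee_eq, Complex.norm_exp_I_mul_ofReal_sub_one]
  have hpi := Real.pi_pos
  have h := Real.mul_abs_le_abs_sin (x := 2 * Real.pi * x / 2) (by
    rw [show 2 * Real.pi * x / 2 = Real.pi * x by ring, abs_mul, abs_of_pos hpi]
    nlinarith)
  rw [show 2 * Real.pi * x / 2 = Real.pi * x by ring, abs_mul, abs_of_pos hpi] at h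
  rw [show 2 * Real.pi * x / 2 = Real.pi * x by ring, Real.norm_eq_abs, abs_mul, abs_two]
  have e : 2 / Real.pi * (Real.pi * |x|) = 2 * |x| := by field_simp
  linarith

theorem norm_ee_sub_ee (x y : ℝ) : ‖ee x - ee y‖ ≤ 7 * |x - y| := by
  have : ee x - ee y = ee y * (ee (x - y) - 1) := by
    rw [mul_sub, ← ee_add]; simp
  rw [this, norm_mul, norm_ee, one_mul]
  exact norm_ee_sub_one_le _

variable {M : ℕ} [NeZero M]

theorem Mpos (M : ℕ) [NeZero M] : (0 : ℝ) < M := by exact_mod_cast NeZero.pos M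

theorem Mne (M : ℕ) [NeZero M] : (M : ℂ) ≠ 0 := by exact_mod_cast NeZero.ne M

theorem ch_zero : ch (0 : ZMod M) = 1 := AddChar.map_zero_eq_one _

theorem ch_add (x y : ZMod M) : ch (x + y) = ch x * ch y := AddChar.map_add_eq_mul _ _ _

theorem ch_intCast (j : ℤ) : ch (j : ZMod M) = ee (j / M) := by
  unfold ch ee; rw [ZMod.stdAddChar_coe]; congr 1; push_cast; ring

theorem ch_natCast (j : ℕ) : ch (j : ZMod M) = ee (j / M) := by
  simpa using ch_intCast (M := M) j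

theorem ch_val (x : ZMod M) : ch x = ee (x.val / M) := by
  rw [← ch_natCast, ZMod.natCast_zmod_val]

theorem norm_ch (x : ZMod M) : ‖ch x‖ = 1 := by rw [ch_val, norm_ee]

theorem ch_mul_neg (x : ZMod M) : ch x * ch (-x) = 1 := by rw [← ch_add, add_neg_cancel, ch_zero]

theorem ch_neg (x : ZMod M) : ch (-x) = conj (ch x) := by
  have h1 := ch_mul_neg x
  have h2 : ch x * conj (ch x) = 1 := by rw [Complex.mul_conj, Complex.normSq_eq_norm_sq, norm_ch]; simp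
  have h3 : ch x ≠ 0 := fun h => by simp [h] at h1
  exact mul_left_cancel₀ h3 (h1.trans h2.symm)

theorem ch_sub (x y : ZMod M) : ch (x - y) = ch x * conj (ch y) := by
  rw [sub_eq_add_neg, ch_add, ch_neg]

theorem sum_ch (a : ZMod M) : ∑ x, ch (a * x) = if a = 0 then (M : ℂ) else 0 := by
  have := AddChar.sum_mulShift a (ZMod.isPrimitive_stdAddChar M)
  simp only [ZMod.card] at this
  simpa [ch, mul_comm] using this

omit [NeZero M] in
theorem ab_rep (x : ZMod M) : ∃ k : ℤ, (k : ZMod M) = x ∧ k.natAbs = ab x :=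
  ⟨x.valMinAbs, ZMod.coe_valMinAbs x, rfl⟩

theorem two_ab_le (x : ZMod M) : 2 * ab x ≤ M := by
  have := ZMod.natAbs_valMinAbs_le x
  unfold ab; omega

omit [NeZero M] in
theorem ab_neg (x : ZMod M) : ab (-x) = ab x := ZMod.natAbs_valMinAbs_neg x

omit [NeZero M] in
theorem ab_sub_comm (x y : ZMod M) : ab (x - y) = ab (y - x) := by rw [← ab_neg, neg_sub]

omit [NeZero M] in
theorem ab_zero : ab (0 : ZMod M) = 0 := by simp [ab]

omit [NeZero M] in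
theorem ab_eq_zero {x : ZMod M} : ab x = 0 ↔ x = 0 := by simp [ab]

theorem ab_intCast_le (k : ℤ) : ab (k : ZMod M) ≤ k.natAbs :=
  ZMod.natAbs_min_of_le_div_two M _ _ (ZMod.coe_valMinAbs _) (ZMod.natAbs_valMinAbs_le _)

theorem ab_natCast_le (k : ℕ) : ab (k : ZMod M) ≤ k := by
  simpa using ab_intCast_le (M := M) k

theorem ab_intCast (k : ℤ) (h : 2 * k.natAbs ≤ M) : ab (k : ZMod M) = k.natAbs :=
  le_antisymm (ab_intCast_le k)
    (ZMod.natAbs_min_of_le_div_two M _ _ (ZMod.coe_valMinAbs _).symm (by omega))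

omit [NeZero M] in
theorem ab_add_le (x y : ZMod M) : ab (x + y) ≤ ab x + ab y :=
  (ZMod.natAbs_valMinAbs_add_le x y).trans (Int.natAbs_add_le _ _)

omit [NeZero M] in
theorem ab_sub_le (x y : ZMod M) : ab (x - y) ≤ ab x + ab y := by
  rw [sub_eq_add_neg, ← ab_neg y]; exact ab_add_le _ _

theorem ab_mul_le (x : ZMod M) (k : ℤ) : ab (x * (k : ZMod M)) ≤ ab x * k.natAbs := by
  obtain ⟨j, rfl, hj⟩ := ab_rep x
  rw [← hj, ← Int.cast_mul, ← Int.natAbs_mul]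
  exact ab_intCast_le _

theorem norm_ch_sub_one_le (x : ZMod M) : ‖ch x - 1‖ ≤ 7 * ab x / M := by
  obtain ⟨k, rfl, hk⟩ := ab_rep x
  rw [ch_intCast, ← hk]
  refine (norm_ee_sub_one_le _).trans (le_of_eq ?_)
  rw [abs_div, abs_of_pos (Mpos M), Nat.cast_natAbs, Int.cast_abs]; ring

theorem le_norm_ch_sub_one (x : ZMod M) : 4 * ab x / M ≤ ‖ch x - 1‖ := by
  have h2 := two_ab_le x
  obtain ⟨k, rfl, hk⟩ := ab_rep x
  have e : |(k : ℝ) / M| = (ab (k : ZMod M) : ℝ) / M := by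
    rw [abs_div, abs_of_pos (Mpos M), ← hk, Nat.cast_natAbs, Int.cast_abs]
  rw [ch_intCast, mul_div_assoc, ← e]
  refine le_norm_ee_sub_one ?_
  rw [e, div_le_iff₀ (Mpos M)]
  have : (2 : ℝ) * ab (k : ZMod M) ≤ M := by exact_mod_cast h2
  linarith

theorem geom_le (K : ℕ) (x : ZMod M) :
    2 * ab x * ‖∑ j ∈ range K, ch ((j : ZMod M) * x)‖ ≤ M := by
  have h : (ch x - 1) * ∑ j ∈ range K, ch ((j : ZMod M) * x) = ch ((K : ZMod M) * x) - 1 := by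
    induction K with
    | zero => simp [ch_zero]
    | succ K ih => rw [sum_range_succ, mul_add, ih]; push_cast; rw [add_mul, one_mul, ch_add]; ring
  have h2 : ‖ch ((K : ZMod M) * x) - 1‖ ≤ 2 := (norm_sub_le _ _).trans (by rw [norm_ch]; norm_num)
  rw [← h, norm_mul] at h2
  have h3 := mul_le_mul_of_nonneg_right (le_norm_ch_sub_one x)
    (norm_nonneg (∑ j ∈ range K, ch ((j : ZMod M) * x)))
  have h4 := h3.trans h2
  rw [div_mul_eq_mul_div, div_le_iff₀ (Mpos M)] at h4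
  linarith

omit [NeZero M] in
/-- a nonzero element killed by `q` is far from zero -/
theorem sep {q : ℕ} (hq : 1 ≤ q) {θ : ZMod M} (h : (q : ZMod M) * θ = 0) (h0 : θ ≠ 0) :
    M ≤ q * ab θ := by
  obtain ⟨k, rfl, hk⟩ := ab_rep θ
  have h1 : ((q * k : ℤ) : ZMod M) = 0 := by push_cast; exact h
  rw [ZMod.intCast_zmod_eq_zero_iff_dvd] at h1
  have hk0 : k ≠ 0 := by rintro rfl; simp at h0
  have h2 := Int.natAbs_le_of_dvd_ne_zero h1 (mul_ne_zero (by omega) hk0)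
  rw [← hk]
  simpa [Int.natAbs_mul] using h2

theorem mem_Sg {H : ℕ} {θ : ZMod M} :
    θ ∈ Sg M H ↔ ∃ q : ℕ, 1 ≤ q ∧ q ≤ H ∧ (q : ZMod M) * θ = 0 := by
  simp only [Sg, mem_filter, mem_univ, true_and]
  constructor
  · intro h
    refine ⟨addOrderOf θ, addOrderOf_pos θ, h, ?_⟩
    rw [← nsmul_eq_mul]; exact addOrderOf_nsmul_eq_zero θ
  · rintro ⟨q, h1, h2, h3⟩
    rw [← nsmul_eq_mul] at h3
    exact (addOrderOf_le_of_nsmul_eq_zero h1 h3).trans h2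

theorem Sg_mono {H H' : ℕ} (h : H ≤ H') : Sg M H ⊆ Sg M H' := fun θ hθ => by
  simp only [Sg, mem_filter, mem_univ, true_and] at hθ ⊢; omega

theorem neg_mem_Sg {H : ℕ} {θ : ZMod M} : -θ ∈ Sg M H ↔ θ ∈ Sg M H := by simp [Sg]

theorem Sg_sep {H : ℕ} {θ θ' : ZMod M} (h : θ ∈ Sg M H) (h' : θ' ∈ Sg M H) (hne : θ ≠ θ') :
    M ≤ H ^ 2 * ab (θ - θ') := by
  obtain ⟨q, a1, a2, a3⟩ := mem_Sg.1 h
  obtain ⟨q', b1, b2, b3⟩ := mem_Sg.1 h'
  have := sep (q := q * q') (Nat.mul_pos a1 b1) (θ := θ - θ')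
    (by push_cast; linear_combination q' * a3 - q * b3) (sub_ne_zero.2 hne)
  refine this.trans (Nat.mul_le_mul_right _ ?_)
  rw [sq]; exact Nat.mul_le_mul a2 b2

theorem card_Sg (H : ℕ) : (Sg M H).card ≤ H ^ 2 := by
  have : Sg M H ⊆ (Icc 1 H).biUnion fun q => univ.filter fun θ : ZMod M => q • θ = 0 := by
    intro θ h
    obtain ⟨q, a1, a2, a3⟩ := mem_Sg.1 h
    simp only [mem_biUnion, mem_Icc, mem_filter, mem_univ, true_and, nsmul_eq_mul]
    exact ⟨q, ⟨a1, a2⟩, a3⟩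
  refine (card_le_card this).trans (card_biUnion_le.trans ?_)
  calc _ ≤ ∑ q ∈ Icc 1 H, H := sum_le_sum fun q hq =>
        (IsAddCyclic.card_nsmul_eq_zero_le (mem_Icc.1 hq).1).trans (mem_Icc.1 hq).2
    _ = _ := by simp [sq]

theorem sum_sq_trig {ι : Type} (s : Finset ι) {a : ι → ZMod M} (ha : Set.InjOn a s) (c : ι → ℂ) :
    ∑ x, ‖∑ i ∈ s, c i * ch (a i * x)‖ ^ 2 = M * ∑ i ∈ s, ‖c i‖ ^ 2 := by
  classical
  have : ∀ x, ((‖∑ i ∈ s, c i * ch (a i * x)‖ ^ 2 : ℝ) : ℂ) =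
      ∑ i ∈ s, ∑ j ∈ s, c i * conj (c j) * ch ((a i - a j) * x) := by
    intro x
    rw [← Complex.normSq_eq_norm_sq, ← Complex.mul_conj, map_sum, sum_mul_sum]
    refine sum_congr rfl fun i _ => sum_congr rfl fun j _ => ?_
    rw [sub_mul, ch_sub, map_mul]; ring
  apply Complex.ofReal_injective
  rw [Complex.ofReal_sum]
  simp only [this]
  rw [sum_comm, Complex.ofReal_mul, Complex.ofReal_sum, mul_sum]
  refine sum_congr rfl fun i hi => ?_
  rw [sum_comm]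
  simp only [← mul_sum, sum_ch]
  rw [sum_eq_single i]
  · rw [sub_self, if_pos rfl, Complex.mul_conj, Complex.normSq_eq_norm_sq]; push_cast; ring
  · intro j hj hji
    rw [if_neg, mul_zero]
    exact fun h => hji (ha hi hj (sub_eq_zero.1 h)).symm
  · exact fun h => absurd hi h

theorem ft_eq_dft (f : ZMod M → ℂ) : ft f = ZMod.dft f := by
  funext ξ
  rw [ZMod.dft_apply]
  exact sum_congr rfl fun x _ => by simp [ch, mul_comm]

theorem ft_inj {f g : ZMod M → ℂ} (h : ∀ ξ, ft f ξ = ft g ξ) : f = g := by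
  apply ZMod.dft.injective
  rw [← ft_eq_dft, ← ft_eq_dft]; exact funext h

theorem exists_ft (φ : ZMod M → ℂ) : ∃ f : ZMod M → ℂ, ∀ ξ, ft f ξ = φ ξ :=
  ⟨ZMod.dft.symm φ, fun ξ => by rw [ft_eq_dft, LinearEquiv.apply_symm_apply]⟩

theorem ft_inv (f : ZMod M → ℂ) (x : ZMod M) : f x = (M : ℂ)⁻¹ * ∑ ξ, ft f ξ * ch (ξ * x) := by
  conv_lhs => rw [← ZMod.dft.symm_apply_apply f, ZMod.invDFT_apply, ← ft_eq_dft]
  simp [ch, mul_comm]

theorem parseval (f : ZMod M → ℂ) : ∑ ξ, ‖ft f ξ‖ ^ 2 = M * ∑ x, ‖f x‖ ^ 2 := by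
  rw [← sum_sq_trig univ (a := fun x => -x) (fun _ _ _ _ h => neg_injective h) f]
  refine sum_congr rfl fun ξ _ => ?_
  simp [ft, mul_comm]

theorem ft_add (f g : ZMod M → ℂ) (ξ : ZMod M) : ft (fun x => f x + g x) ξ = ft f ξ + ft g ξ := by
  simp [ft, add_mul, sum_add_distrib]

theorem ft_sub (f g : ZMod M → ℂ) (ξ : ZMod M) : ft (fun x => f x - g x) ξ = ft f ξ - ft g ξ := by
  simp [ft, sub_mul, sum_sub_distrib]

theorem ft_mul (c : ℂ) (f : ZMod M → ℂ) (ξ : ZMod M) : ft (fun x => c * f x) ξ = c * ft f ξ := by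
  simp [ft, mul_sum, mul_assoc]

theorem ft_sum {ι : Type} (s : Finset ι) (f : ι → ZMod M → ℂ) (ξ : ZMod M) :
    ft (fun x => ∑ i ∈ s, f i x) ξ = ∑ i ∈ s, ft (f i) ξ := by
  simp only [ft, sum_mul]; rw [sum_comm]

theorem ft_av (N : ℕ) (f : ℕ → ZMod M → ℂ) (ξ : ZMod M) :
    ft (fun x => av N fun n => f n x) ξ = av N fun n => ft (f n) ξ := by
  simp only [av, Complex.real_smul]
  rw [ft_mul, ft_sum]

theorem ft_shift (f : ZMod M → ℂ) (s ξ : ZMod M) :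
    ft (fun x => f (x + s)) ξ = ch (ξ * s) * ft f ξ := by
  unfold ft
  rw [mul_sum, ← Equiv.sum_comp (Equiv.addRight s) fun x => ch (ξ * s) * (f x * ch (-(ξ * x)))]
  refine sum_congr rfl fun x _ => ?_
  rw [Equiv.coe_addRight, mul_left_comm, ← ch_add]; congr 2; ring

theorem ft_mod (f : ZMod M → ℂ) (θ ξ : ZMod M) :
    ft (fun x => ch (θ * x) * f x) ξ = ft f (ξ - θ) := by
  refine sum_congr rfl fun x _ => ?_
  beta_reduce
  rw [mul_comm (ch _), mul_assoc, ← ch_add]; congr 2; ring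

theorem ft_mod' (f : ZMod M → ℂ) (θ ξ : ZMod M) :
    ft (fun x => ch (-(θ * x)) * f x) ξ = ft f (ξ + θ) := by
  simpa using ft_mod f (-θ) ξ

theorem ft_conv (κ f : ZMod M → ℂ) (ξ : ZMod M) : ft (conv κ f) ξ = ft κ ξ * ft f ξ := by
  have h : ∀ z, ft (fun x => κ (x - z)) ξ = ch (-(ξ * z)) * ft κ ξ := fun z => by
    simpa [sub_eq_add_neg] using ft_shift κ (-z) ξ
  have : conv κ f = fun x => ∑ z, f z * κ (x - z) := by
    funext x; simp [conv, mul_comm]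
  rw [this, ft_sum]
  simp only [ft_mul, h]
  conv_rhs => rw [ft.eq_1 f, mul_sum]
  exact sum_congr rfl fun z _ => by ring

theorem norm_ft_le (f : ZMod M → ℂ) (ξ : ZMod M) : ‖ft f ξ‖ ≤ ∑ x, ‖f x‖ :=
  (norm_sum_le _ _).trans (le_of_eq (sum_congr rfl fun x _ => by rw [norm_mul, norm_ch, mul_one]))

theorem Ad_eq (A : Finset (ZMod M)) (κ f : ZMod M → ℂ) (x y : ZMod M) :
    Ad A κ f x y = ∑ θ ∈ A, ch (θ * y) * conv κ (fun z => ch (-(θ * z)) * f z) x := by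
  refine sum_congr rfl fun θ _ => ?_
  simp only [conv, mul_sum, smul_eq_mul]
  refine sum_congr rfl fun z _ => ?_
  rw [mul_sub, sub_eq_add_neg (θ * y), ch_add]; ring

theorem ft_TT (A : Finset (ZMod M)) (κ f : ZMod M → ℂ) (ξ : ZMod M) :
    ft (TT A κ f) ξ = (∑ θ ∈ A, ft κ (ξ - θ)) * ft f ξ := by
  have : TT A κ f = fun x => ∑ θ ∈ A, ch (θ * x) * conv κ (fun z => ch (-(θ * z)) * f z) x :=
    funext fun x => Ad_eq A κ f x x
  rw [this, ft_sum, sum_mul]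
  refine sum_congr rfl fun θ _ => ?_
  rw [ft_mod, ft_conv, ft_mod', sub_add_cancel]

theorem sum_sq_le_of_ft {ι : Type} (s : Finset ι) {g : ι → ZMod M → ℂ} {f : ZMod M → ℂ} {B : ℝ}
    (h : ∀ ξ, ∑ i ∈ s, ‖ft (g i) ξ‖ ^ 2 ≤ B * ‖ft f ξ‖ ^ 2) :
    ∑ i ∈ s, lp 2 (g i) ^ 2 ≤ B * lp 2 f ^ 2 := by
  have := sum_le_sum fun ξ (_ : ξ ∈ univ) => h ξ
  rw [sum_comm, ← mul_sum] at this
  simp only [parseval] at this
  simp only [lp_two_sq]
  rw [← mul_sum, mul_left_comm] at this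
  exact le_of_mul_le_mul_left this (Mpos M)

theorem lp_le_of_ft {g f : ZMod M → ℂ} {B : ℝ} (hB : 0 ≤ B)
    (h : ∀ ξ, ‖ft g ξ‖ ≤ B * ‖ft f ξ‖) : lp 2 g ≤ B * lp 2 f := by
  have := sum_sq_le_of_ft (ι := Unit) univ (g := fun _ => g) (f := f) (B := B ^ 2) fun ξ => by
    simp only [univ_unique, sum_singleton, ← mul_pow]
    exact pow_le_pow_left₀ (norm_nonneg _) (h ξ) 2
  simp only [univ_unique, sum_singleton, ← mul_pow] at this
  exact (pow_le_pow_iff_left₀ (lp_nonneg _ _) (mul_nonneg hB (lp_nonneg _ _)) two_ne_zero).1 this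

/-- the symbol is bounded by the operator norm -/
theorem norm_ft_le_of_conv {κ : ZMod M → ℂ} {p B : ℝ} (hp : 0 < p)
    (h : ∀ f : ZMod M → ℂ, lp p (conv κ f) ≤ B * lp p f) (ξ : ZMod M) : ‖ft κ ξ‖ ≤ B := by
  have h1 := h fun x => ch (ξ * x)
  have e : ∀ x, conv κ (fun x => ch (ξ * x)) x = ft κ ξ * ch (ξ * x) := by
    intro x
    unfold conv ft
    rw [sum_mul, ← Equiv.sum_comp (Equiv.subLeft x)]
    refine sum_congr rfl fun z _ => ?_
    have e3 : ξ * (x - z) = -(ξ * z) + ξ * x := by ring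
    rw [Equiv.subLeft_apply, sub_sub_cancel, smul_eq_mul, mul_assoc, ← ch_add, ← e3]
  have e2 : lp p (conv κ fun x => ch (ξ * x)) = ‖ft κ ξ‖ * lp p fun x : ZMod M => ch (ξ * x) :=
    lp_const_mul hp (norm_nonneg (ft κ ξ)) (fun x => by rw [e, norm_mul])
  rw [e2] at h1
  have h2 : 0 < lp p fun x : ZMod M => ch (ξ * x) :=
    lt_of_lt_of_le (by rw [norm_ch]; exact one_pos)
      (norm_le_lp hp (fun x : ZMod M => ch (ξ * x)) 0)
  exact le_of_mul_le_mul_right h1 h2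

/-- at each frequency at most one fraction contributes -/
theorem sym_unique {H K : ℕ} (hK : 2 * K * H ^ 2 ≤ M) (ξ : ZMod M) :
    ∃ θ₀ : ZMod M, ∀ θ ∈ Sg M H, ab (ξ - θ) < K → θ = θ₀ := by
  by_cases h : ∃ θ₀ ∈ Sg M H, ab (ξ - θ₀) < K
  · obtain ⟨θ₀, h0, h1⟩ := h
    refine ⟨θ₀, fun θ hθ h2 => ?_⟩
    by_contra hne
    have h3 := Sg_sep hθ h0 hne
    have h4 : ab (θ - θ₀) ≤ ab (ξ - θ₀) + ab (ξ - θ) := by
      rw [show θ - θ₀ = (ξ - θ₀) - (ξ - θ) by ring]; exact ab_sub_le _ _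
    have h5 : 0 < H := by
      obtain ⟨q, a1, a2, _⟩ := mem_Sg.1 h0
      omega
    have h6 : H ^ 2 * ab (θ - θ₀) < H ^ 2 * (2 * K) :=
      Nat.mul_lt_mul_of_pos_left (by omega) (by positivity)
    nlinarith
  · push Not at h
    exact ⟨0, fun θ hθ h2 => absurd h2 (not_lt.2 (h θ hθ))⟩

theorem sym_eq {H K : ℕ} {A : Finset (ZMod M)} (hA : A ⊆ Sg M H) {ξ θ₀ : ZMod M}
    (h0 : ∀ θ ∈ Sg M H, ab (ξ - θ) < K → θ = θ₀) {κ : ZMod M → ℂ} (hκ : Band K κ) :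
    ∑ θ ∈ A, ft κ (ξ - θ) = if θ₀ ∈ A then ft κ (ξ - θ₀) else 0 := by
  have : ∀ θ ∈ A, θ ≠ θ₀ → ft κ (ξ - θ) = 0 := fun θ hθ hne => by
    by_contra hc
    exact hne (h0 θ (hA hθ) (hκ _ hc))
  split_ifs with h
  · exact sum_eq_single_of_mem θ₀ h this
  · exact sum_eq_zero fun θ hθ => this θ hθ fun e => h (e ▸ hθ)

theorem Band.mono {K K' : ℕ} {κ : ZMod M → ℂ} (h : Band K κ) (hK : K ≤ K') : Band K' κ :=
  fun ξ hξ => (h ξ hξ).trans_le hK

/-- square sums of multi-frequency operators -/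
theorem sum_sq_TT {ι : Type} (s : Finset ι) {H K : ℕ} (hK : 2 * K * H ^ 2 ≤ M)
    {A : Finset (ZMod M)} (hA : A ⊆ Sg M H) {κ : ι → ZMod M → ℂ} (hκ : ∀ i ∈ s, Band K (κ i))
    {B : ℝ} (hB : ∀ ζ, ∑ i ∈ s, ‖ft (κ i) ζ‖ ^ 2 ≤ B) (f : ZMod M → ℂ) :
    ∑ i ∈ s, lp 2 (TT A (κ i) f) ^ 2 ≤ B * lp 2 f ^ 2 := by
  refine sum_sq_le_of_ft s fun ξ => ?_
  obtain ⟨θ₀, h0⟩ := sym_unique hK ξ
  simp only [ft_TT, norm_mul, mul_pow, ← sum_mul]
  refine mul_le_mul_of_nonneg_right ?_ (by positivity)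
  refine le_trans (sum_le_sum fun i hi => ?_) (hB (ξ - θ₀))
  rw [sym_eq hA h0 (hκ i hi)]
  split_ifs <;> simp

theorem lp_TT_le {H K : ℕ} (hK : 2 * K * H ^ 2 ≤ M) {A : Finset (ZMod M)} (hA : A ⊆ Sg M H)
    {κ : ZMod M → ℂ} (hκ : Band K κ) {B : ℝ} (hB : ∀ ζ, ‖ft κ ζ‖ ≤ B) (f : ZMod M → ℂ) :
    lp 2 (TT A κ f) ≤ B * lp 2 f := by
  have hB0 : 0 ≤ B := (norm_nonneg _).trans (hB 0)
  refine lp_le_of_ft hB0 fun ξ => ?_
  obtain ⟨θ₀, h0⟩ := sym_unique hK ξ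
  rw [ft_TT, norm_mul, sym_eq hA h0 hκ]
  refine mul_le_mul_of_nonneg_right ?_ (norm_nonneg _)
  split_ifs
  · exact hB _
  · simpa using hB0

/-- square sum of the frequency pieces -/
theorem sum_sq_pieces {H K : ℕ} (hK : 2 * K * H ^ 2 ≤ M) {A : Finset (ZMod M)} (hA : A ⊆ Sg M H)
    {κ : ZMod M → ℂ} (hκ : Band K κ) {B : ℝ} (hB : ∀ ζ, ‖ft κ ζ‖ ≤ B) (f : ZMod M → ℂ) :
    ∑ θ ∈ A, lp 2 (conv κ fun z => ch (-(θ * z)) * f z) ^ 2 ≤ B ^ 2 * lp 2 f ^ 2 := by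
  have e : ∀ θ, lp 2 (conv κ fun z => ch (-(θ * z)) * f z) = lp 2 (TT {θ} κ f) := fun θ =>
    lp_congr fun x => by rw [TT, Ad_eq, sum_singleton, norm_mul, norm_ch, one_mul]
  simp only [e]
  refine sum_sq_le_of_ft A fun ξ => ?_
  obtain ⟨θ₀, h0⟩ := sym_unique hK ξ
  simp only [ft_TT, norm_mul, mul_pow, ← sum_mul, sum_singleton]
  refine mul_le_mul_of_nonneg_right ?_ (by positivity)
  have : ∀ θ ∈ A, θ ≠ θ₀ → ‖ft κ (ξ - θ)‖ ^ 2 = 0 := fun θ hθ hne => by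
    by_contra hc
    exact hne (h0 θ (hA hθ) (hκ _ fun h => hc (by simp [h])))
  by_cases h : θ₀ ∈ A
  · rw [sum_eq_single_of_mem θ₀ h this]
    exact pow_le_pow_left₀ (norm_nonneg _) (hB _) 2
  · rw [sum_eq_zero fun θ hθ => this θ hθ fun e => h (e ▸ hθ)]; positivity

end

end Pool.Agent.Lib.MP_10e396_an
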