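import Pool.Agent.Lib.MP_10e396_an.BoxB
import Pool.Agent.Lib.MP_10e396_an.Four

/-! Concatenation of averaged box norms. -/

set_option autoImplicit false

namespace Pool.Agent.Lib.MP_10e396_an

open Finset ComplexConjugate BoxB

noncomputable section

namespace Concat

/-- uniform average -/
def Ex {I : Type} [Fintype I] (φ : I → ℝ) : ℝ := ∑ i, (Fintype.card I : ℝ)⁻¹ * φ i

section ex

variable {I J : Type} [Fintype I] [Fintype J]

theorem ex_prod (φ : I × J → ℝ) : Ex φ = Ex fun i => Ex fun j => φ (i, j) := by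
  simp only [Ex, Fintype.sum_prod_type, mul_sum, Fintype.card_prod, Nat.cast_mul, mul_inv,
    mul_assoc]

theorem ex_comm (φ : I → J → ℝ) :
    (Ex fun i => Ex fun j => φ i j) = Ex fun j => Ex fun i => φ i j := by
  simp only [Ex, mul_sum]
  rw [sum_comm]
  exact sum_congr rfl fun j _ => sum_congr rfl fun i _ => by ring

theorem ex_const [Nonempty I] (c : ℝ) : (Ex fun _ : I => c) = c := by
  simp only [Ex]
  rw [← sum_mul, (prob_unif I).2, one_mul]

theorem ex_mono {φ ψ : I → ℝ} (h : ∀ i, φ i ≤ ψ i) : Ex φ ≤ Ex ψ :=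
  sum_le_sum fun i _ => mul_le_mul_of_nonneg_left (h i) (by positivity)

theorem ex_nonneg {φ : I → ℝ} (h : ∀ i, 0 ≤ φ i) : 0 ≤ Ex φ :=
  sum_nonneg fun i _ => mul_nonneg (by positivity) (h i)

theorem ex_jensen [Nonempty I] (φ : I → ℝ) (n : ℕ) : Ex φ ^ 2 ^ n ≤ Ex fun i => φ i ^ 2 ^ n :=
  jensen (prob_unif I) φ n

theorem ex_mul_left (c : ℝ) (φ : I → ℝ) : (Ex fun i => c * φ i) = c * Ex φ := by
  simp only [Ex, mul_sum]
  exact sum_congr rfl fun i _ => by ring

theorem ex_mul_right (c : ℝ) (φ : I → ℝ) : (Ex fun i => φ i * c) = Ex φ * c := by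
  simp only [Ex, sum_mul, mul_assoc]

theorem ex_sum {X : Type} (s : Finset X) (φ : X → I → ℝ) :
    (Ex fun i => ∑ x ∈ s, φ x i) = ∑ x ∈ s, Ex (φ x) := by
  simp only [Ex, mul_sum]
  exact sum_comm

theorem ex_add (φ ψ : I → ℝ) : (Ex fun i => φ i + ψ i) = Ex φ + Ex ψ := by
  simp only [Ex, mul_add, sum_add_distrib]

theorem ex_eq (φ : I → ℝ) : Ex φ = (∑ i, φ i) / Fintype.card I := by
  rw [Ex, ← mul_sum, div_eq_inv_mul]

theorem jensen_two' {w : I → ℝ} (hw : Prob w) (Y : I → I → ℝ) (n : ℕ) :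
    (∑ a, ∑ b, w a * w b * Y a b) ^ 2 ^ n ≤ ∑ a, ∑ b, w a * w b * Y a b ^ 2 ^ n := by
  have := jensen (prob_prod hw fun _ => hw) (fun p => Y p.1 p.2) n
  simpa only [Fintype.sum_prod_type] using this

end ex

section gen

variable {G : Type} [Fintype G] [AddCommGroup G]

/-- convolution of two measures -/
def cv (μ ν : G → ℝ) (c : G) : ℝ := ∑ a, μ a * ν (c - a)

theorem sum_cv (μ ν φ : G → ℝ) : ∑ c, cv μ ν c * φ c = ∑ a, ∑ b, μ a * ν b * φ (a + b) := by
  simp only [cv, sum_mul]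
  rw [sum_comm]
  refine sum_congr rfl fun a _ => ?_
  rw [← sum_shift _ a]
  simp only [add_sub_cancel_right, add_comm a]

theorem prob_cv {μ ν : G → ℝ} (hμ : Prob μ) (hν : Prob ν) : Prob (cv μ ν) := by
  refine ⟨fun c => sum_nonneg fun a _ => mul_nonneg (hμ.1 _) (hν.1 _), ?_⟩
  have := sum_cv μ ν fun _ => 1
  simp only [mul_one, ← mul_sum, hν.2, hμ.2] at this
  exact this

theorem lemA0 {I : Type} [Fintype I] [Nonempty I] (μ : I → G → ℝ) (K : I → List (G → ℝ)) (m : ℕ)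
    (hμ : ∀ i, Prob (μ i)) (hK : ∀ i, ∀ ν ∈ K i, Prob ν) (hm : ∀ i, (K i).length = m)
    (g : G → ℂ) (hg : ∀ x, ‖g x‖ ≤ 1) :
    (Ex fun i => Box (μ i :: K i) g) ^ 2 ^ (m + m + 1) ≤
      Ex fun i => Ex fun j => Box (cv (μ i) (μ j) :: (K i ++ K j)) g := by
  have hW : Prob fun p : I × G × G => (Fintype.card I : ℝ)⁻¹ * (μ p.1 p.2.1 * μ p.1 p.2.2) :=
    prob_prod (v := fun i (q : G × G) => μ i q.1 * μ i q.2) (prob_unif I)
      fun i => prob_prod (hμ i) fun _ => hμ i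
  set W : I × G × G → ℝ := fun p => (Fintype.card I : ℝ)⁻¹ * (μ p.1 p.2.1 * μ p.1 p.2.2) with hWd
  set U : I × G × G → G → ℂ :=
    fun p => Du (K p.1) fun y => g y * conj (g (y + (p.2.2 - p.2.1))) with hU
  have hD : ∀ p, Dl (K p.1) (U p) := fun p => dl_du (hK _) fun y => by
    simpa using bdd_delta hg 0 (p.2.2 - p.2.1) y
  have hc := cs (prob_unif G) g
    (fun x => ∑ p, (W p : ℂ) * (conj (g (x + (p.2.2 - p.2.1))) * U p x)) hg
  have e1 : (Ex fun i => Box (μ i :: K i) g) = (∑ x, (((Fintype.card G : ℝ)⁻¹ : ℝ) : ℂ) * (g x *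
      ∑ p, (W p : ℂ) * (conj (g (x + (p.2.2 - p.2.1))) * U p x))).re := by
    have : ∀ i a b, (Box (K i) fun x => g (x + a) * conj (g (x + b))) =
        (∑ x, g x * conj (g (x + (b - a))) * U (i, a, b) x).re / Fintype.card G := by
      intro i a b
      rw [← box_du, ← box_shift (K i) (fun y => g y * conj (g (y + (b - a)))) a]
      simp only [add_assoc, add_sub_cancel]
    simp only [Ex, box_cons, this, mul_sum, Complex.re_sum, sum_div]
    conv_rhs => rw [sum_comm, Fintype.sum_prod_type]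
    refine sum_congr rfl fun i _ => ?_
    rw [Fintype.sum_prod_type]
    refine sum_congr rfl fun a _ => sum_congr rfl fun b _ => sum_congr rfl fun x _ => ?_
    rw [show (((Fintype.card G : ℝ)⁻¹ : ℝ) : ℂ) * (g x * ((W (i, a, b) : ℂ) *
      (conj (g (x + (b - a))) * U (i, a, b) x))) = (((Fintype.card G : ℝ)⁻¹ * W (i, a, b) : ℝ) : ℂ)
        * (g x * conj (g (x + (b - a))) * U (i, a, b) x) by push_cast; ring,
      Complex.re_ofReal_mul, hWd]
    ring
  have e2 : ∑ x, (Fintype.card G : ℝ)⁻¹ *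
      ‖∑ p, (W p : ℂ) * (conj (g (x + (p.2.2 - p.2.1))) * U p x)‖ ^ 2 =
      ∑ p, ∑ q, W p * W q * ((∑ x, (conj (g (x + (p.2.2 - p.2.1))) * g (x + (q.2.2 - q.2.1))) *
        (U p x * conj (U q x))).re / Fintype.card G) := by
    simp only [normsq_sum, Complex.re_sum, mul_sum, sum_div]
    rw [sum_comm]
    refine sum_congr rfl fun p _ => ?_
    rw [sum_comm]
    refine sum_congr rfl fun q _ => sum_congr rfl fun x _ => ?_
    rw [map_mul, Complex.conj_conj, mul_mul_mul_comm (conj (g (x + (p.2.2 - p.2.1))))]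
    ring
  rw [← e1, e2] at hc
  rw [pow_succ', pow_mul]
  refine (pow_le_pow_left₀ (sq_nonneg _) hc _).trans ((jensen_two' hW _ _).trans ?_)
  have e3 : (Ex fun i => Ex fun j => Box (cv (μ i) (μ j) :: (K i ++ K j)) g) =
      ∑ p : I × G × G, ∑ q : I × G × G, W p * W q * Box (K p.1 ++ K q.1)
        fun x => g (x + (p.2.1 + q.2.2)) * conj (g (x + (p.2.2 + q.2.1))) := by
    have : ∀ i j, Box (cv (μ i) (μ j) :: (K i ++ K j)) g = ∑ a, ∑ b, ∑ a', ∑ b',
        μ i a * μ i b * (μ j a' * μ j b') * Box (K i ++ K j)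
          fun x => g (x + (a + b')) * conj (g (x + (b + a'))) := by
      intro i j
      simp only [box_cons, mul_assoc, ← mul_sum]
      rw [sum_cv]
      simp only [sum_cv, mul_sum]
      refine sum_congr rfl fun a _ => ?_
      rw [sum_comm]
      refine sum_congr rfl fun b _ => ?_
      rw [sum_comm]
      exact sum_congr rfl fun a' _ => sum_congr rfl fun b' _ => by ring
    simp only [Ex, this, mul_sum, Fintype.sum_prod_type, hWd]
    refine sum_congr rfl fun i _ => ?_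
    rw [sum_comm]
    refine sum_congr rfl fun a _ => ?_
    rw [sum_comm]
    refine sum_congr rfl fun b _ => sum_congr rfl fun j _ => sum_congr rfl fun a' _ =>
      sum_congr rfl fun b' _ => by ring
  rw [e3]
  refine sum_le_sum fun p _ => sum_le_sum fun q _ =>
    mul_le_mul_of_nonneg_left ?_ (mul_nonneg (hW.1 p) (hW.1 q))
  have h4 := dl_pair (K := K p.1 ++ K q.1)
    (fun ν hν => (List.mem_append.1 hν).elim (hK _ ν) (hK _ ν))
    (dl_mul (hK _) (hK _) (hD p) (dl_conj (hK _) (hD q)))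
    fun x => conj (g (x + (p.2.2 - p.2.1))) * g (x + (q.2.2 - q.2.1))
  rw [List.length_append, hm, hm, ← box_shift _ _ (p.2.1 + q.2.1)] at h4
  refine h4.trans (le_of_eq (congrArg _ (funext fun x => ?_)))
  rw [mul_comm, show x + (p.2.1 + q.2.1) + (q.2.2 - q.2.1) = x + (p.2.1 + q.2.2) by abel,
    show x + (p.2.1 + q.2.1) + (p.2.2 - p.2.1) = x + (p.2.2 + q.2.1) by abel]

theorem lemA {I : Type} [Fintype I] [Nonempty I] (μ : I → G → ℝ) (K : I → List (G → ℝ)) (m : ℕ)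
    (hμ : ∀ i, Prob (μ i)) (hK : ∀ i, ∀ ν ∈ K i, Prob ν) (hm : ∀ i, (K i).length = m) :
    ∀ (F : List (G → ℝ)), (∀ ν ∈ F, Prob ν) → ∀ (g : G → ℂ), (∀ x, ‖g x‖ ≤ 1) →
    (Ex fun i => Box (F ++ μ i :: K i) g) ^ 2 ^ (m + m + 1) ≤
      Ex fun i => Ex fun j => Box (F ++ cv (μ i) (μ j) :: (K i ++ K j)) g
  | [], _, g, hg => lemA0 μ K m hμ hK hm g hg
  | ν :: F, h, g, hg => by
    have hν := h ν List.mem_cons_self
    simp only [List.cons_append, box_cons, ex_sum, ex_mul_left]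
    refine (jensen_two' hν _ _).trans (sum_le_sum fun a _ => sum_le_sum fun b _ =>
      mul_le_mul_of_nonneg_left ?_ (mul_nonneg (hν.1 a) (hν.1 b)))
    exact lemA μ K m hμ hK hm F (fun κ hκ => h κ (List.mem_cons_of_mem _ hκ)) _ (bdd_delta hg a b)

theorem to_unif {μ : G → ℝ} {L : List (G → ℝ)} (hL : ∀ ν ∈ L, Prob ν) (hne : L ≠ []) {N : ℝ}
    (hN : Fintype.card G * ∑ a, μ a ^ 2 ≤ N) (g : G → ℂ) :
    Box (μ :: L) g ≤ N * Box ((fun _ => (Fintype.card G : ℝ)⁻¹) :: L) g := by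
  have hc : (0 : ℝ) < Fintype.card G := by exact_mod_cast Fintype.card_pos
  set R : G → ℝ := fun c => Box L fun x => g (x + c) * conj (g x) with hR
  have hR0 : ∀ c, 0 ≤ R c := fun c => box_nonneg L hL hne _
  have e : ∀ ν : G → ℝ, Box (ν :: L) g = ∑ c, (∑ b, ν (c + b) * ν b) * R c := by
    intro ν
    rw [box_cons, sum_comm]
    simp only [sum_mul]
    conv_rhs => rw [sum_comm]
    refine sum_congr rfl fun b _ => ?_
    rw [← sum_shift _ b]
    refine sum_congr rfl fun c _ => ?_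
    rw [hR]
    beta_reduce
    rw [← box_shift L (fun x => g (x + c) * conj (g x)) b]
    simp only [add_assoc, add_comm b c]
  rw [e, e, mul_sum]
  refine sum_le_sum fun c _ => ?_
  rw [← mul_assoc]
  refine mul_le_mul_of_nonneg_right ?_ (hR0 c)
  have h1 : ∑ b, μ (c + b) * μ b ≤ ∑ a, μ a ^ 2 := by
    have h2 : ∑ b, μ (c + b) ^ 2 = ∑ b, μ b ^ 2 := by
      simp only [add_comm c]
      exact sum_shift (fun b => μ b ^ 2) c
    have h3 : 2 * ∑ b, μ (c + b) * μ b ≤ ∑ b, μ (c + b) ^ 2 + ∑ b, μ b ^ 2 := by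
      rw [mul_sum, ← sum_add_distrib]
      exact sum_le_sum fun b _ => by nlinarith [sq_nonneg (μ (c + b) - μ b)]
    linarith
  have h4 : ∑ _b : G, (Fintype.card G : ℝ)⁻¹ * (Fintype.card G : ℝ)⁻¹ =
      (Fintype.card G : ℝ)⁻¹ := by
    rw [← sum_mul, (prob_unif G).2, one_mul]
  rw [h4, ← div_eq_mul_inv, le_div_iff₀ hc]
  nlinarith

theorem to_gow {N : ℝ} (hN : 0 ≤ N) (g : G → ℂ) : ∀ (L : List (G → ℝ)),
    (∀ μ ∈ L, Prob μ ∧ Fintype.card G * ∑ a, μ a ^ 2 ≤ N) → ∀ n : ℕ,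
    Box (L ++ List.replicate (n + 1) fun _ => (Fintype.card G : ℝ)⁻¹) g ≤
      N ^ L.length * Gow (n + 1 + L.length) g
  | [], _, n => by simp [Gow]
  | μ :: L, h, n => by
    have hL : ∀ ν ∈ L, Prob ν ∧ Fintype.card G * ∑ a, ν a ^ 2 ≤ N :=
      fun κ hκ => h κ (List.mem_cons_of_mem _ hκ)
    have h1 := to_unif (μ := μ) (L := L ++ List.replicate (n + 1) fun _ => (Fintype.card G : ℝ)⁻¹)
      (fun ν hν => (List.mem_append.1 hν).elim (fun h' => (hL ν h').1)
        fun h' => by rw [List.eq_of_mem_replicate h']; exact prob_unif G)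
      (by simp) (h μ List.mem_cons_self).2 g
    have h2 := to_gow hN g L hL (n + 1)
    rw [List.replicate_succ, box_perm List.perm_middle] at h2
    rw [List.cons_append, List.length_cons, pow_succ', mul_assoc,
      show n + 1 + (L.length + 1) = n + 1 + 1 + L.length by ring]
    exact h1.trans (mul_le_mul_of_nonneg_left h2 hN)

end gen

section good

variable {M : ℕ} [NeZero M]

/-- a family of measures with averaged Fourier decay -/
def Gd {I : Type} [Fintype I] (Φ : ZMod M → ℝ) (ν : I → ZMod M → ℝ) : Prop :=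
  (∀ i, Prob (ν i)) ∧ ∀ ξ, (Ex fun i => ‖ft (cx (ν i)) ξ‖ ^ 2) ≤ Φ ξ

theorem ft_cv (μ ν : ZMod M → ℝ) (ξ : ZMod M) :
    ft (cx (cv μ ν)) ξ = ft (cx μ) ξ * ft (cx ν) ξ := by
  rw [mul_comm, ← ft_conv]
  refine congrArg (fun f => ft f ξ) (funext fun x => ?_)
  simp only [cx, cv, conv, smul_eq_mul, Complex.ofReal_sum, Complex.ofReal_mul, mul_comm]

theorem gd_comp {I I' : Type} [Fintype I] [Fintype I'] {Φ : ZMod M → ℝ} {ν : I → ZMod M → ℝ}
    (h : Gd Φ ν) (π : I' → I) (hπ : ∀ φ : I → ℝ, (Ex fun i => φ (π i)) = Ex φ) :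
    Gd Φ fun i => ν (π i) :=
  ⟨fun i => h.1 _, fun ξ => (hπ fun i => ‖ft (cx (ν i)) ξ‖ ^ 2).trans_le (h.2 ξ)⟩

theorem gd_cv {J I : Type} [Fintype J] [Nonempty J] [Fintype I] {Φ : ZMod M → ℝ}
    {ν : I → ZMod M → ℝ} (h : Gd Φ ν) :
    Gd (fun ξ => Φ ξ ^ 2) fun p : (J × I) × I => cv (ν p.2) (ν p.1.2) := by
  refine ⟨fun p => prob_cv (h.1 _) (h.1 _), fun ξ => ?_⟩
  simp only [ft_cv, norm_mul, mul_pow, ex_prod, ex_mul_right, ex_mul_left, ex_const]
  have h0 : 0 ≤ Ex fun i => ‖ft (cx (ν i)) ξ‖ ^ 2 := ex_nonneg fun _ => sq_nonneg _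
  rw [← sq]
  exact pow_le_pow_left₀ h0 (h.2 ξ) 2

end good

theorem perm_aux {X : Type} (c : X) (B O B' O' : List X) :
    (c :: (B ++ (O ++ (B' ++ O')))).Perm (B' ++ (O' ++ (B ++ c :: O))) := by
  have h1 : (c :: (B ++ (O ++ (B' ++ O')))).Perm ((B ++ c :: O) ++ (B' ++ O')) := by
    rw [List.append_assoc, List.cons_append]
    exact List.perm_middle.symm
  refine h1.trans (List.perm_append_comm.trans ?_)
  rw [List.append_assoc]

/-- the concatenation step for `d` directions that are not yet improved -/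
def Q (d n n' C : ℕ) : Prop :=
  ∀ (M : ℕ) [NeZero M] (J I : Type) [Fintype J] [Nonempty J] [Fintype I] [Nonempty I]
    (Ψ : ZMod M → ℝ) (F : List (J → ZMod M → ℝ)) (B : List (I → ZMod M → ℝ))
    (O : List (J × I → ZMod M → ℝ)) (g : ZMod M → ℂ) (δ : ℝ), B.length = d → O.length = n →
    (∀ ν ∈ F, ∀ j, Prob (ν j)) → (∀ ν ∈ B, Gd Ψ ν) → (∀ ν ∈ O, Gd (fun ξ => Ψ ξ ^ 2) ν) →
    (∀ x, ‖g x‖ ≤ 1) → 0 ≤ δ →
    δ ≤ (Ex fun p : J × I =>
      Box (F.map (fun ν => ν p.1) ++ (B.map (fun ν => ν p.2) ++ O.map fun ν => ν p)) g) →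
    ∃ (I' : Type) (_ : Fintype I') (_ : Nonempty I') (O' : List (J × I' → ZMod M → ℝ)),
      O'.length = n' ∧ (∀ ν ∈ O', Gd (fun ξ => Ψ ξ ^ 2) ν) ∧
      δ ^ C ≤ Ex fun p : J × I' => Box (F.map (fun ν => ν p.1) ++ O'.map fun ν => ν p) g

theorem exQ : ∀ d n : ℕ, ∃ n' C, Q d n n' C
  | 0, n => ⟨n, 1, fun M _ J I _ _ _ _ Ψ F B O g δ hB hO _ _ hOg _ _ h => by
      rw [List.length_eq_zero_iff.1 hB] at h
      exact ⟨I, inferInstance, inferInstance, O, hO, hOg, by simpa using h⟩⟩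
  | d + 1, n => by
    obtain ⟨n₁, C₁, h₁⟩ := exQ d (n + 1)
    obtain ⟨n₂, C₂, h₂⟩ := exQ d (n₁ + n)
    refine ⟨n₂, 2 ^ (d + n + (d + n) + 1) * C₁ * C₂, ?_⟩
    intro M _ J I _ _ _ _ Ψ F B O g δ hB hO hF hBg hOg hg hδ h
    obtain _ | ⟨H, B⟩ := B
    · simp at hB
    have hB' : B.length = d := by simpa using hB
    have hH := hBg H List.mem_cons_self
    have hBg' : ∀ ν ∈ B, Gd Ψ ν := fun κ hκ => hBg κ (List.mem_cons_of_mem _ hκ)
    have a1 : δ ^ 2 ^ (d + n + (d + n) + 1) ≤ Ex fun j : J => Ex fun i : I => Ex fun i' : I =>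
        Box (F.map (fun ν => ν j) ++ cv (H i) (H i') ::
          ((B.map (fun ν => ν i) ++ O.map fun ν => ν (j, i)) ++
            (B.map (fun ν => ν i') ++ O.map fun ν => ν (j, i')))) g := by
      rw [ex_prod] at h
      refine (pow_le_pow_left₀ hδ h _).trans ((ex_jensen _ _).trans (ex_mono fun j => ?_))
      refine lemA H (fun i => B.map (fun ν => ν i) ++ O.map fun ν => ν (j, i)) (d + n) hH.1
        (fun i ν hν => ?_) (fun i => by simp [hB', hO]) (F.map fun ν => ν j) (fun ν hν => ?_) g hg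
      · rcases List.mem_append.1 hν with h' | h'
        · obtain ⟨κ, hκ, rfl⟩ := List.mem_map.1 h'
          exact (hBg' κ hκ).1 _
        · obtain ⟨κ, hκ, rfl⟩ := List.mem_map.1 h'
          exact (hOg κ hκ).1 _
      · obtain ⟨κ, hκ, rfl⟩ := List.mem_map.1 hν
        exact hF κ hκ _
    obtain ⟨I₁, _, _, O₁, hO₁, hg₁, a2⟩ := h₁ M (J × I) I Ψ
      (F.map (fun ν p => ν p.1) ++ (B.map (fun ν p => ν p.2) ++ O)) B
      ((fun p => cv (H p.2) (H p.1.2)) :: O.map fun ν p => ν (p.1.1, p.2)) g _ hB'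
      (by simp [hO]) (fun ν hν j => by
        rcases List.mem_append.1 hν with h' | h'
        · obtain ⟨κ, hκ, rfl⟩ := List.mem_map.1 h'
          exact hF κ hκ _
        rcases List.mem_append.1 h' with h' | h'
        · obtain ⟨κ, hκ, rfl⟩ := List.mem_map.1 h'
          exact (hBg' κ hκ).1 _
        · exact (hOg ν h').1 _) hBg' (fun ν hν => by
        rcases List.mem_cons.1 hν with rfl | h'
        · exact gd_cv hH
        · obtain ⟨κ, hκ, rfl⟩ := List.mem_map.1 h'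
          exact gd_comp (hOg κ hκ) (fun p : (J × I) × I => (p.1.1, p.2)) fun φ => by
            simp only [ex_prod, ex_const]) hg (pow_nonneg hδ _) (a1.trans_eq (by
        simp only [ex_prod]
        refine congrArg Ex (funext fun j => ?_)
        rw [ex_comm]
        refine congrArg Ex (funext fun i' => congrArg Ex (funext fun i => box_perm ?_ g))
        simp only [List.map_append, List.map_map, List.map_cons, Function.comp_def,
          List.append_assoc]
        exact List.Perm.append_left _ (perm_aux _ _ _ _ _)))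
    obtain ⟨I₂, _, _, O₂, hO₂, hg₂, a3⟩ := h₂ M (J × I₁) I Ψ (F.map fun ν p => ν p.1) B
      (O₁.map (fun ν p => ν ((p.1.1, p.2), p.1.2)) ++ O.map fun ν p => ν (p.1.1, p.2)) g _ hB'
      (by simp [hO, hO₁]) (fun ν hν j => by
        obtain ⟨κ, hκ, rfl⟩ := List.mem_map.1 hν
        exact hF κ hκ _) hBg' (fun ν hν => by
        rcases List.mem_append.1 hν with h' | h'
        · obtain ⟨κ, hκ, rfl⟩ := List.mem_map.1 h'
          exact gd_comp (hg₁ κ hκ) (fun p : (J × I₁) × I => ((p.1.1, p.2), p.1.2)) fun φ => by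
            simp only [ex_prod]
            exact congrArg Ex (funext fun j => ex_comm _)
        · obtain ⟨κ, hκ, rfl⟩ := List.mem_map.1 h'
          exact gd_comp (hOg κ hκ) (fun p : (J × I₁) × I => (p.1.1, p.2)) fun φ => by
            simp only [ex_prod, ex_const]) hg (pow_nonneg (pow_nonneg hδ _) _) (a2.trans_eq (by
        simp only [ex_prod]
        refine congrArg Ex (funext fun j => ?_)
        rw [ex_comm]
        refine congrArg Ex (funext fun i' => congrArg Ex (funext fun i => box_perm ?_ g))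
        simp only [List.map_append, List.map_map, Function.comp_def, List.append_assoc]
        exact List.Perm.append_left _ (List.Perm.append_left _ List.perm_append_comm)))
    refine ⟨I₁ × I₂, inferInstance, inferInstance, O₂.map fun ν p => ν ((p.1, p.2.1), p.2.2),
      by simp [hO₂], fun ν hν => ?_, ?_⟩
    · obtain ⟨κ, hκ, rfl⟩ := List.mem_map.1 hν
      exact gd_comp (hg₂ κ hκ) (fun p : J × I₁ × I₂ => ((p.1, p.2.1), p.2.2)) fun φ => by
        simp only [ex_prod]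
    · rw [pow_mul, pow_mul]
      refine a3.trans_eq ?_
      simp only [ex_prod, List.map_map, Function.comp_def]

theorem iter : ∀ k l : ℕ, ∃ l' C : ℕ, ∀ (M : ℕ) [NeZero M] (I : Type) [Fintype I] [Nonempty I]
    (Ψ : ZMod M → ℝ) (L : List (I → ZMod M → ℝ)) (g : ZMod M → ℂ) (δ : ℝ), L.length = l →
    (∀ ν ∈ L, Gd Ψ ν) → (∀ x, ‖g x‖ ≤ 1) → 0 ≤ δ →
    δ ≤ (Ex fun i => Box (L.map fun ν => ν i) g) →
    ∃ (I' : Type) (_ : Fintype I') (_ : Nonempty I') (L' : List (I' → ZMod M → ℝ)),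
      L'.length = l' ∧ (∀ ν ∈ L', Gd (fun ξ => Ψ ξ ^ 2 ^ k) ν) ∧
      δ ^ C ≤ Ex fun i => Box (L'.map fun ν => ν i) g
  | 0, l => ⟨l, 1, fun M _ I _ _ Ψ L g δ hL hG _ _ h =>
      ⟨I, inferInstance, inferInstance, L, hL, by simpa using hG, by simpa using h⟩⟩
  | k + 1, l => by
    obtain ⟨l₁, C₁, h₁⟩ := iter k l
    obtain ⟨l₂, C₂, h₂⟩ := exQ l₁ 0
    refine ⟨l₂, C₁ * C₂, fun M _ I _ _ Ψ L g δ hL hG hg hδ h => ?_⟩
    obtain ⟨I₁, _, _, L₁, hL₁, hG₁, a1⟩ := h₁ M I Ψ L g δ hL hG hg hδ h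
    obtain ⟨I₂, _, _, L₂, hL₂, hG₂, a2⟩ := h₂ M Unit I₁ (fun ξ => Ψ ξ ^ 2 ^ k) [] L₁ [] g _ hL₁ rfl
      (by simp) hG₁ (by simp) hg (pow_nonneg hδ _) (a1.trans_eq (by
        simp only [ex_prod, List.map_nil, List.nil_append, List.append_nil, ex_const]))
    refine ⟨Unit × I₂, inferInstance, inferInstance, L₂, hL₂, ?_, ?_⟩
    · simpa only [← pow_mul, ← pow_succ] using hG₂
    · rw [pow_mul]
      simpa using a2

theorem arith {δ A X Y : ℝ} {a b l : ℕ} (hδ : 0 < δ) (hδ' : δ ≤ 1 / 2) (hA : 1 ≤ A)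
    (hX : δ ^ a / 2 ≤ X) (hY : X ^ b ≤ (2 * (l + 1) * A / δ ^ a) ^ l * Y) :
    (δ / A) ^ ((a + 1) * b + (a + 2 * (l + 1)) * l) ≤ Y := by
  have hA0 : 0 < A := by linarith
  have h1 : δ ^ (a + 1) ≤ X := by
    rw [pow_succ]
    nlinarith [pow_pos hδ a]
  have h2 : δ ^ (2 * (l + 1)) * (2 * (l + 1)) ≤ 1 := by
    have h3 : ((2 * (l + 1) : ℕ) : ℝ) ≤ 2 ^ (2 * (l + 1)) := by
      exact_mod_cast Nat.lt_two_pow_self.le
    push_cast at h3
    calc _ ≤ (1 / 2 : ℝ) ^ (2 * (l + 1)) * 2 ^ (2 * (l + 1)) := by gcongr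
      _ = 1 := by rw [← mul_pow]; norm_num
  have hN : 0 < 2 * (l + 1) * A / δ ^ a := by positivity
  have h4 : (δ / A) ^ (a + 2 * (l + 1)) * (2 * (l + 1) * A / δ ^ a) ≤ 1 := by
    have h5 : A ≤ A ^ (a + 2 * (l + 1)) := le_self_pow₀ hA (by omega)
    rw [div_pow, pow_add δ]
    calc _ = δ ^ (2 * (l + 1)) * (2 * (l + 1)) * (A / A ^ (a + 2 * (l + 1))) := by
          field_simp
      _ ≤ 1 * 1 := by
          gcongr
          exact (div_le_one (by positivity)).2 h5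
      _ = 1 := one_mul _
  have h6 : ((δ / A) ^ (a + 1)) ^ b ≤ X ^ b :=
    pow_le_pow_left₀ (by positivity)
      ((pow_le_pow_left₀ (by positivity) (div_le_self hδ.le hA) _).trans h1) _
  rw [pow_add, pow_mul, pow_mul]
  have h7 : (0 : ℝ) < (2 * (l + 1) * A / δ ^ a) ^ l := pow_pos hN _
  refine le_of_mul_le_mul_left ?_ h7
  refine le_trans ?_ (h6.trans hY)
  rw [mul_left_comm, ← mul_pow, mul_comm (2 * (l + 1) * A / δ ^ a)]
  exact mul_le_of_le_one_right (by positivity) (pow_le_one₀ (by positivity) h4)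

end Concat

open Concat in
theorem stConcat : StConcat := by
  intro l k _
  obtain ⟨l', C, H⟩ := iter k l
  refine ⟨1 + 1 + l', (C + 1) * 2 ^ (l' + 2) + (C + 2 * (l' + 1)) * l', by omega, ?_⟩
  intro M _ I _ _ μ Ψ g δ A hμ _ hΨ hg hδ hδ' hA hS h
  have hc : (0 : ℝ) < Fintype.card I := by exact_mod_cast Fintype.card_pos
  obtain ⟨I', _, _, L, hL, hG, a⟩ := H M I Ψ (List.ofFn μ) g δ (by simp) (fun ν hν => by
    obtain ⟨j, rfl⟩ := List.mem_ofFn.1 hν
    exact ⟨hμ j, fun ξ => by rw [ex_eq, div_le_iff₀ hc]; exact hΨ j ξ⟩) hg hδ.le (by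
    rw [ex_eq, le_div_iff₀ hc]
    simpa only [List.map_ofFn, Function.comp_def] using h)
  have hP : ∀ i, ∀ ν ∈ L.map (fun ν => ν i), Prob ν := fun i ν hν => by
    obtain ⟨κ, hκ, rfl⟩ := List.mem_map.1 hν
    exact (hG κ hκ).1 i
  set N : I' → ℝ := fun i => ∑ j : Fin L.length, M * ∑ a, L.get j i a ^ 2 with hN
  have hN0 : ∀ i, 0 ≤ N i := fun i => sum_nonneg fun j _ => by positivity
  have hEN : Ex N ≤ l' * A := by
    rw [hN, ex_sum]
    calc _ ≤ ∑ _j : Fin L.length, A := sum_le_sum fun j _ => by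
          have e : ∀ i, (M : ℝ) * ∑ a, L.get j i a ^ 2 = ∑ ξ, ‖ft (cx (L.get j i)) ξ‖ ^ 2 := by
            intro i
            rw [parseval]
            simp [cx]
          simp only [e, ex_sum]
          exact (sum_le_sum fun ξ _ => (hG _ (List.get_mem L j)).2 ξ).trans hS
      _ = _ := by simp [hL]
  have hp : 0 < δ ^ C := pow_pos hδ C
  have hT : 0 < 2 * (l' + 1) * A / δ ^ C := by positivity
  obtain ⟨i, h1, h2⟩ : ∃ i, δ ^ C / 2 ≤ Box (L.map fun ν => ν i) g ∧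
      N i ≤ 2 * (l' + 1) * A / δ ^ C := by
    by_contra hcon
    have h3 : ∀ i, Box (L.map fun ν => ν i) g ≤
        δ ^ C / 2 + (2 * (l' + 1) * A / δ ^ C)⁻¹ * N i := by
      intro i
      have h4 := mul_nonneg (inv_nonneg.2 hT.le) (hN0 i)
      by_cases h5 : δ ^ C / 2 ≤ Box (L.map fun ν => ν i) g
      · have h6 : 2 * (l' + 1) * A / δ ^ C < N i := not_le.1 fun h7 => hcon ⟨i, h5, h7⟩
        have h7 : 1 ≤ (2 * (l' + 1) * A / δ ^ C)⁻¹ * N i := by
          rw [← div_eq_inv_mul, le_div_iff₀ hT, one_mul]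
          exact h6.le
        have := box_le_one _ (hP i) g hg
        linarith
      · linarith [not_le.1 h5]
    have h4 := a.trans (ex_mono h3)
    rw [ex_add, ex_const, ex_mul_left] at h4
    have h5 : (2 * (l' + 1) * A / δ ^ C)⁻¹ * Ex N < δ ^ C / 2 := by
      rw [← div_eq_inv_mul, div_lt_iff₀ hT]
      have : δ ^ C / 2 * (2 * (l' + 1) * A / δ ^ C) = (l' + 1) * A := by field_simp
      rw [this]
      nlinarith
    linarith
  have h3 := box_mono (L := List.replicate (1 + 1) fun _ => (Fintype.card (ZMod M) : ℝ)⁻¹) (hP i)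
    (fun ν hν => by rw [List.eq_of_mem_replicate hν]; exact prob_unif _) hg
  have h4 := to_gow hT.le g (L.map fun ν => ν i) (fun ν hν => ⟨hP i ν hν, by
    obtain ⟨κ, hκ, rfl⟩ := List.mem_map.1 hν
    obtain ⟨j, rfl⟩ := List.get_of_mem hκ
    rw [ZMod.card]
    exact (single_le_sum (f := fun j : Fin L.length => (M : ℝ) * ∑ a, L.get j i a ^ 2)
      (fun j _ => by positivity) (mem_univ j)).trans h2⟩) 1
  rw [List.length_append, List.length_replicate] at h3
  rw [List.length_map, hL] at h3 h4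
  exact arith hδ hδ' hA h1 (h3.trans h4)

end

end Pool.Agent.Lib.MP_10e396_an
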