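import Pool.Agent.Lib.MP_10e396_an.Spec

/-! Mixed norm lemmas: `stDBW`, `stDBI`, `stJump`, `stJSum`. -/

set_option autoImplicit false

namespace Pool.Agent.Lib.MP_10e396_an

open Finset

noncomputable section

namespace DBL

theorem lp_nonneg {X E : Type} [Fintype X] [SeminormedAddCommGroup E] (p : ℝ) (f : X → E) :
    0 ≤ lp p f := by
  unfold lp
  positivity

theorem lp_mono {X : Type} [Fintype X] {p : ℝ} (hp : 0 < p) {f g : X → ℝ}
    (h0 : ∀ x, 0 ≤ f x) (h : ∀ x, f x ≤ g x) : lp p f ≤ lp p g := by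
  unfold lp
  refine Real.rpow_le_rpow (by positivity) (sum_le_sum fun x _ => ?_) (by positivity)
  refine Real.rpow_le_rpow (norm_nonneg _) ?_ hp.le
  rw [Real.norm_of_nonneg (h0 x), Real.norm_of_nonneg ((h0 x).trans (h x))]
  exact h x

theorem lp_add {X : Type} [Fintype X] {p : ℝ} (hp : 1 ≤ p) (f g : X → ℝ) :
    lp p (fun x => f x + g x) ≤ lp p f + lp p g := by
  have h := Real.Lp_add_le univ f g hp
  simpa only [lp, Real.norm_eq_abs, one_div] using h

theorem lp_zero {X : Type} [Fintype X] {p : ℝ} (hp : 0 < p) : lp p (fun _ : X => (0 : ℝ)) = 0 := by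
  unfold lp
  simp [Real.zero_rpow hp.ne', Real.zero_rpow (inv_pos.2 hp).ne']

theorem lp_sum {X ι : Type} [Fintype X] {p : ℝ} (hp : 1 ≤ p) (s : Finset ι) (f : ι → X → ℝ) :
    lp p (fun x => ∑ i ∈ s, f i x) ≤ ∑ i ∈ s, lp p (f i) := by
  classical
  induction s using Finset.induction_on with
  | empty => simp [lp_zero (lt_of_lt_of_le one_pos hp)]
  | insert a s ha ih =>
    simp only [sum_insert ha]
    exact (lp_add hp (f a) _).trans (by linarith)

theorem lp_mul {X : Type} [Fintype X] {p : ℝ} (hp : 0 < p) {c : ℝ} (hc : 0 ≤ c) (f : X → ℝ) :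
    lp p (fun x => c * f x) = c * lp p f := by
  unfold lp
  simp only [norm_mul, Real.norm_of_nonneg hc, Real.mul_rpow hc (norm_nonneg _), ← mul_sum]
  rw [Real.mul_rpow (by positivity) (by positivity), Real.rpow_rpow_inv hc hp.ne']

theorem Wb_nonneg {E : Type} [SeminormedAddCommGroup E] {a : ℕ → E} {w : ℝ} (h : Wb a w) :
    0 ≤ w := (norm_nonneg _).trans (h.1 0)

theorem vr_nonneg {E : Type} [SeminormedAddCommGroup E] (a : ℕ → E) (J : ℕ) (c : ℕ → ℕ) :
    0 ≤ vr a J c := sum_nonneg fun _ _ => norm_nonneg _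

theorem inv_mul_le {J : ℕ} {v w : ℝ} (hw : 0 ≤ w) (h : v ≤ √J * w) : (√J)⁻¹ * v ≤ w := by
  rcases Nat.eq_zero_or_pos J with rfl | hJ
  · simpa using hw
  · have : 0 < √(J : ℝ) := Real.sqrt_pos.2 (by exact_mod_cast hJ)
    rw [inv_mul_le_iff₀ this]
    exact h

theorem Wb_le {E : Type} [SeminormedAddCommGroup E] {a : ℕ → E} {w : ℝ} (h : Wb a w) (J : ℕ)
    {c : ℕ → ℕ} (hc : Monotone c) : (√J)⁻¹ * vr a J c ≤ w :=
  inv_mul_le (Wb_nonneg h) (h.2 J c hc)

/-- Hoelder with a positive weight -/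
theorem hold {ι : Type} (s : Finset ι) {q : ℝ} (hq : 1 ≤ q) (v w : ι → ℝ) (hv : ∀ i, 0 < v i)
    (hw : ∀ i, 0 ≤ w i) :
    ∑ i ∈ s, v i ^ (1 - q⁻¹) * w i ≤ (∑ i ∈ s, v i) ^ (1 - q⁻¹) * (∑ i ∈ s, w i ^ q) ^ q⁻¹ := by
  have hq0 : 0 < q := lt_of_lt_of_le one_pos hq
  have h := Real.inner_le_weight_mul_Lp_of_nonneg s hq v (fun i => v i ^ (-q⁻¹) * w i)
    (fun i => (hv i).le) (fun i => mul_nonneg (Real.rpow_nonneg (hv i).le _) (hw i))
  have e1 : ∀ i, v i * (v i ^ (-q⁻¹) * w i) = v i ^ (1 - q⁻¹) * w i := fun i => by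
    rw [← mul_assoc, sub_eq_add_neg, Real.rpow_add (hv i), Real.rpow_one]
  have e2 : ∀ i, v i * (v i ^ (-q⁻¹) * w i) ^ q = w i ^ q := fun i => by
    rw [Real.mul_rpow (Real.rpow_nonneg (hv i).le _) (hw i), ← Real.rpow_mul (hv i).le,
      neg_mul, inv_mul_cancel₀ hq0.ne', Real.rpow_neg_one, ← mul_assoc,
      mul_inv_cancel₀ (hv i).ne', one_mul]
  simpa only [e1, e2] using h

/-- enumeration of a finite set of naturals by a strictly monotone sequence -/
theorem enum (S : Finset ℕ) : ∃ σ : ℕ → ℕ, StrictMono σ ∧ ∀ j < S.card, σ j ∈ S := by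
  refine ⟨fun j => if h : j < S.card then S.orderEmbOfFin rfl ⟨j, h⟩ else j + S.sup id + 1,
    fun i j hij => ?_, fun j hj => ?_⟩
  · by_cases hj : j < S.card
    · have hi : i < S.card := hij.trans hj
      simp only [dif_pos hi, dif_pos hj]
      exact (S.orderEmbOfFin rfl).strictMono (Fin.mk_lt_mk.2 hij)
    · by_cases hi : i < S.card
      · simp only [dif_pos hi, dif_neg hj]
        have h1 : S.orderEmbOfFin rfl ⟨i, hi⟩ ≤ S.sup id :=
          Finset.le_sup (f := id) (S.orderEmbOfFin_mem rfl _)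
        omega
      · simp only [dif_neg hi, dif_neg hj]
        omega
  · simp only [dif_pos hj]
    exact S.orderEmbOfFin_mem rfl _

theorem jmp_sub (a : ℕ → ℂ) (δ : ℝ) (c : ℕ → ℕ) (hc : Monotone c) (S : Finset ℕ)
    (h : ∀ j ∈ S, δ ≤ ‖a (c (2 * j + 1)) - a (c (2 * j))‖) : Jmp a δ S.card := by
  obtain ⟨σ, hσ, hS⟩ := enum S
  refine ⟨fun k => c (2 * σ (k / 2) + k % 2), fun k l hkl => hc ?_, fun j hj => ?_⟩
  · rcases (Nat.div_le_div_right (c := 2) hkl).eq_or_lt with e | e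
    · rw [e]; omega
    · have := hσ e; omega
  · have e1 : (2 * j + 1) / 2 = j := by omega
    have e2 : (2 * j + 1) % 2 = 1 := by omega
    have e3 : (2 * j) / 2 = j := by omega
    have e4 : (2 * j) % 2 = 0 := by omega
    simp only [e1, e2, e3, e4, add_zero]
    exact h _ (hS j hj)

theorem sqrt_sum_le {ι : Type} (s : Finset ι) (f : ι → ℝ) (hf : ∀ i, 0 ≤ f i) :
    √(∑ i ∈ s, f i) ≤ ∑ i ∈ s, √(f i) := by
  classical
  induction s using Finset.induction_on with
  | empty => simp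
  | insert a s ha ih =>
    simp only [sum_insert ha]
    have h1 : 0 ≤ ∑ i ∈ s, f i := sum_nonneg fun i _ => hf i
    have h2 : √(f a + ∑ i ∈ s, f i) ≤ √(f a) + √(∑ i ∈ s, f i) := by
      rw [Real.sqrt_le_left (by positivity)]
      nlinarith [Real.sq_sqrt (hf a), Real.sq_sqrt h1, Real.sqrt_nonneg (f a),
        Real.sqrt_nonneg (∑ i ∈ s, f i)]
    linarith

theorem jmp_vr (a : ℕ → ℂ) (δ : ℝ) (c : ℕ → ℕ) (m : ℕ)
    (h : ∀ j < m, δ ≤ ‖a (c (2 * j + 1)) - a (c (2 * j))‖) : m * δ ≤ vr a (2 * m) c := by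
  induction m with
  | zero => simp [vr]
  | succ m ih =>
    have h1 := ih fun j hj => h j (by omega)
    have h2 := h m (by omega)
    have e : 2 * (m + 1) = 2 * m + 1 + 1 := by ring
    unfold vr at h1 ⊢
    rw [e, sum_range_succ, sum_range_succ]
    have := norm_nonneg (a (c (2 * m + 1 + 1)) - a (c (2 * m + 1)))
    push_cast
    linarith

end DBL

open DBL

theorem stDBW : StDBW := by
  intro X X' Y _ _ e p q a w φ B hp hq hB hφ hW hw hφB J c u v hc hu hv hu1 hv1
  have hp0 : 0 < p := lt_of_lt_of_le one_pos hp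
  have hq0 : 0 < q := lt_of_lt_of_le one_pos hq
  have hγ : 0 ≤ 1 - p⁻¹ := sub_nonneg.2 (inv_le_one_of_one_le₀ hp)
  have hβ : 0 ≤ 1 - q⁻¹ := sub_nonneg.2 (inv_le_one_of_one_le₀ hq)
  have hw0 : ∀ z, 0 ≤ w z := fun z => Wb_nonneg (hW z)
  rcases isEmpty_or_nonempty Y with hY | hY
  · simpa using hB
  have hY0 : (0 : ℝ) < Fintype.card Y := by exact_mod_cast Fintype.card_pos
  have split : ∀ r : ℝ, (Fintype.card Y : ℝ) ^ (1 - r) * (Fintype.card Y : ℝ) ^ r =
      Fintype.card Y := fun r => by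
    rw [← Real.rpow_add hY0, sub_add_cancel, Real.rpow_one]
  have h1 : ∀ x, ∑ y, v (x, y) ^ (1 - q⁻¹) * w (x, y) ≤ Fintype.card Y * φ x := fun x => by
    refine (hold univ hq (fun y => v (x, y)) (fun y => w (x, y)) (fun y => hv _)
      (fun y => hw0 _)).trans ?_
    have a1 : (∑ y, v (x, y)) ^ (1 - q⁻¹) ≤ (Fintype.card Y : ℝ) ^ (1 - q⁻¹) :=
      Real.rpow_le_rpow (sum_nonneg fun y _ => (hv _).le) (hv1 x) hβ
    have a2 : (∑ y, w (x, y) ^ q) ^ q⁻¹ ≤ (Fintype.card Y * φ x ^ q) ^ q⁻¹ :=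
      Real.rpow_le_rpow (sum_nonneg fun y _ => Real.rpow_nonneg (hw0 _) _) (hw x) (by positivity)
    rw [Real.mul_rpow hY0.le (Real.rpow_nonneg (hφ x) _), Real.rpow_rpow_inv (hφ x) hq0.ne'] at a2
    calc _ ≤ (Fintype.card Y : ℝ) ^ (1 - q⁻¹) * ((Fintype.card Y : ℝ) ^ q⁻¹ * φ x) :=
          mul_le_mul a1 a2 (Real.rpow_nonneg (sum_nonneg fun y _ => Real.rpow_nonneg (hw0 _) _) _)
            (by positivity)
      _ = _ := by rw [← mul_assoc, split]
  have h2 : ∑ x, u x ^ (1 - p⁻¹) * φ x ≤ (∑ x, u x) ^ (1 - p⁻¹) * (∑ x, φ x ^ p) ^ p⁻¹ :=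
    hold univ hp u φ hu hφ
  have hU : 0 ≤ ∑ x, u x := sum_nonneg fun x _ => (hu x).le
  have hF : 0 ≤ ∑ x, φ x ^ p := sum_nonneg fun x _ => Real.rpow_nonneg (hφ x) _
  have h3 : (Fintype.card Y * ∑ x, u x) ^ (1 - p⁻¹) ≤ 1 :=
    Real.rpow_le_one (by positivity) hu1 hγ
  have h4 : (Fintype.card Y * ∑ x, φ x ^ p) ^ p⁻¹ ≤ B := by
    have := Real.rpow_le_rpow (by positivity) hφB (inv_pos.2 hp0).le
    rwa [Real.rpow_rpow_inv hB hp0.ne'] at this
  calc _ ≤ ∑ z : X' × Y, u z.1 ^ (1 - p⁻¹) * (v z ^ (1 - q⁻¹) * w z) := by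
        refine sum_le_sum fun z _ => ?_
        rw [← mul_assoc (u z.1 ^ (1 - p⁻¹)) (v z ^ (1 - q⁻¹)) (w z)]
        exact mul_le_mul_of_nonneg_left (Wb_le (hW z) _ (hc _))
          (mul_nonneg (Real.rpow_nonneg (hu _).le _) (Real.rpow_nonneg (hv _).le _))
    _ = ∑ x, u x ^ (1 - p⁻¹) * ∑ y, v (x, y) ^ (1 - q⁻¹) * w (x, y) := by
        rw [Fintype.sum_prod_type]
        simp only [mul_sum]
    _ ≤ ∑ x, u x ^ (1 - p⁻¹) * (Fintype.card Y * φ x) :=
        sum_le_sum fun x _ => mul_le_mul_of_nonneg_left (h1 x) (Real.rpow_nonneg (hu _).le _)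
    _ = Fintype.card Y * ∑ x, u x ^ (1 - p⁻¹) * φ x := by
        rw [mul_sum]
        exact sum_congr rfl fun x _ => by ring
    _ ≤ Fintype.card Y * ((∑ x, u x) ^ (1 - p⁻¹) * (∑ x, φ x ^ p) ^ p⁻¹) :=
        mul_le_mul_of_nonneg_left h2 hY0.le
    _ = (Fintype.card Y * ∑ x, u x) ^ (1 - p⁻¹) * (Fintype.card Y * ∑ x, φ x ^ p) ^ p⁻¹ := by
        rw [Real.mul_rpow hY0.le hU, Real.mul_rpow hY0.le hF]
        conv_lhs => rw [← split p⁻¹]
        ring
    _ ≤ 1 * B := mul_le_mul h3 h4 (by positivity) zero_le_one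
    _ = B := one_mul B

theorem stDBI (hI : StInterp) : StDBI := by
  intro X X' Y U V _ _ _ _ e a γ β a₁ b₁ p₁ p₂ θ B₀ B₁ hl hr ha hb h0 h1 hp₁ hp₂ hB₀ hB₁ H₀ H₁
    f g J c u v hc hu hv hu1 hv1
  let T : (U → ℂ) → (V → ℂ) → (Σ z : X' × Y, Fin (J z.1)) → ℂ := fun f g z =>
    (((√(J z.1.1))⁻¹ : ℝ) : ℂ) *
      (a f g (c (e z.1) (z.2 + 1)) (e z.1) - a f g (c (e z.1) z.2) (e z.1))
  have key : ∀ (h : X' × Y → ℝ) (f : U → ℂ) (g : V → ℂ),
      ∑ z : (Σ z : X' × Y, Fin (J z.1)), h z.1 * ‖T f g z‖ =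
      ∑ z : X' × Y, h z * ((√(J z.1))⁻¹ * vr (fun i => a f g i (e z)) (J z.1) (c (e z))) := by
    intro h f g
    rw [Fintype.sum_sigma]
    refine sum_congr rfl fun z _ => ?_
    unfold vr
    rw [← Fin.sum_univ_eq_sum_range
      (fun j => ‖a f g (c (e z) (j + 1)) (e z) - a f g (c (e z) j) (e z)‖), mul_sum, mul_sum]
    refine sum_congr rfl fun j _ => ?_
    simp only [T, norm_mul, Complex.norm_real, Real.norm_of_nonneg (inv_nonneg.2 (Real.sqrt_nonneg _))]
  have main := hI U V (Σ z : X' × Y, Fin (J z.1)) T (fun _ => 1)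
    (fun z => u z.1.1 ^ γ * v z.1 ^ β) 2 a₁ 2 b₁ p₁ p₂ θ B₀ B₁
    (fun g z => ⟨fun f f' => by
        simp only [T, (hl g _ _).map_add]; ring,
      fun t f => by simp only [T, (hl g _ _).map_smul, smul_eq_mul]; ring⟩)
    (fun f z => ⟨fun g g' => by
        simp only [T, (hr f _ _).map_add]; ring,
      fun t g => by simp only [T, (hr f _ _).map_smul, smul_eq_mul]; ring⟩)
    (fun _ => one_pos)
    (fun z => mul_pos (Real.rpow_pos_of_pos (hu _) _) (Real.rpow_pos_of_pos (hv _) _))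
    (by norm_num) ha (by norm_num) hb h0 h1 hp₁ hp₂ hB₀ hB₁
    (fun f g => by
      have := H₀ f g J c u v hc hu hv hu1 hv1
      simp only [Real.rpow_zero, mul_one] at this
      rw [key (fun _ => 1) f g]
      exact this)
    (fun f g => by
      rw [key (fun z => u z.1 ^ γ * v z ^ β) f g]
      exact H₁ f g J c u v hc hu hv hu1 hv1) f g
  rw [key (fun z => (1 : ℝ) ^ (1 - θ) * (u z.1 ^ γ * v z ^ β) ^ θ) f g] at main
  refine le_trans (le_of_eq (sum_congr rfl fun z _ => ?_)) main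
  rw [Real.one_rpow, one_mul, Real.mul_rpow (Real.rpow_nonneg (hu _).le _)
    (Real.rpow_nonneg (hv _).le _), ← Real.rpow_mul (hu _).le, ← Real.rpow_mul (hv _).le,
    mul_comm γ, mul_comm β]

theorem stJSum : StJSum := by
  classical
  intro X _ p s a ω B hp hω hω1 hB δ J hδ hJ
  have hp0 : 0 < p := lt_of_lt_of_le one_pos hp
  choose c hc hj using hJ
  let S : ℕ → X → Finset ℕ := fun h x => (range (J x)).filter fun j =>
    ω h * δ ≤ ‖a h (c x (2 * j + 1)) x - a h (c x (2 * j)) x‖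
  have h1 : ∀ x, J x ≤ ∑ h ∈ s, (S h x).card := fun x => by
    refine le_trans ?_ (card_biUnion_le (s := s) (t := fun h => S h x))
    conv_lhs => rw [← card_range (J x)]
    refine card_le_card fun j hjx => ?_
    by_contra hn
    have h2 : ∀ h ∈ s, ‖a h (c x (2 * j + 1)) x - a h (c x (2 * j)) x‖ < ω h * δ := by
      intro h hh
      by_contra h3
      exact hn (mem_biUnion.2 ⟨h, hh, mem_filter.2 ⟨hjx, not_lt.1 h3⟩⟩)
    have h3 := hj x j (mem_range.1 hjx)
    rw [← sum_sub_distrib] at h3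
    have h4 := h3.trans (norm_sum_le _ _)
    rcases s.eq_empty_or_nonempty with rfl | hs
    · simp at h4; linarith
    · have h5 := sum_lt_sum_of_nonempty hs h2
      rw [← sum_mul] at h5
      nlinarith
  have h2 : ∀ h ∈ s, lp p (fun x => δ * √((S h x).card)) ≤ B h / ω h := fun h hh => by
    have h3 := hB h hh (ω h * δ) (fun x => (S h x).card) (mul_pos (hω h hh) hδ) fun x =>
      jmp_sub (fun i => a h i x) _ (c x) (hc x) _ fun j hj => (mem_filter.1 hj).2
    simp only [mul_assoc] at h3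
    rw [lp_mul hp0 (hω h hh).le] at h3
    rw [le_div_iff₀ (hω h hh), mul_comm]
    exact h3
  refine le_trans ?_ ((lp_sum hp s fun h x => δ * √((S h x).card)).trans (sum_le_sum h2))
  refine lp_mono hp0 (fun x => by positivity) fun x => ?_
  rw [← mul_sum]
  refine mul_le_mul_of_nonneg_left ?_ hδ.le
  refine le_trans (Real.sqrt_le_sqrt ?_) (sqrt_sum_le s (fun h => ((S h x).card : ℝ))
    fun h => by positivity)
  exact_mod_cast h1 x

namespace DBL

/-- the test of the dual bound -/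
theorem jump_test {X X' Y : Type} [Fintype X'] [Fintype Y] [Nonempty X'] [Nonempty Y]
    (e : X' × Y ≃ X) (p β : ℝ) (hp : 1 ≤ p) (hβ0 : 0 ≤ β) (hβ : β < 1) (a : ℕ → X → ℂ) (B δ : ℝ)
    (hB : 0 ≤ B) (hδ : 0 < δ) (H : DB e (1 - p⁻¹) β a B) (J : X → ℕ)
    (hJ : ∀ x, Jmp (fun i => a i x) δ (J x)) (m : X' → ℕ) (s : X' → ℝ)
    (hs : ∀ x, s x = δ * √(m x) *
      (((univ.filter fun y => m x ≤ J (e (x, y))).card : ℝ) / Fintype.card Y) ^ (1 - β)) :
    Fintype.card Y * ∑ x, s x ^ p ≤ (8 * B) ^ p := by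
  classical
  have hp0 : 0 < p := lt_of_lt_of_le one_pos hp
  have hγ : 0 ≤ 1 - p⁻¹ := sub_nonneg.2 (inv_le_one_of_one_le₀ hp)
  have hY : (0 : ℝ) < Fintype.card Y := by exact_mod_cast Fintype.card_pos
  have hX : (0 : ℝ) < Fintype.card X' := by exact_mod_cast Fintype.card_pos
  have hs0 : ∀ x, 0 ≤ s x := fun x => by rw [hs]; positivity
  have hS0 : 0 ≤ ∑ x, s x ^ p := sum_nonneg fun x _ => Real.rpow_nonneg (hs0 x) _
  rcases hS0.eq_or_lt with hS | hS
  · rw [← hS, mul_zero]; positivity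
  set S := ∑ x, s x ^ p with hSdef
  choose c hc hj using hJ
  let E : X' → Finset Y := fun x => univ.filter fun y => m x ≤ J (e (x, y))
  let u : X' → ℝ := fun x => s x ^ p / (2 * Fintype.card Y * S) +
    1 / (2 * Fintype.card Y * Fintype.card X')
  let v : X' × Y → ℝ := fun z =>
    (if z.2 ∈ E z.1 then (Fintype.card Y : ℝ) / (2 * (E z.1).card) else 0) + 1 / 2
  have hu : ∀ x, 0 < u x := fun x => by
    have := Real.rpow_nonneg (hs0 x) p
    simp only [u]; positivity
  have hv : ∀ z, 0 < v z := fun z => by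
    simp only [v]; split_ifs <;> positivity
  have hu1 : (Fintype.card Y : ℝ) * ∑ x, u x ≤ 1 := by
    simp only [u, sum_add_distrib, ← sum_div, sum_const, card_univ, nsmul_eq_mul, ← hSdef]
    apply le_of_eq
    field_simp
    ring
  have hv1 : ∀ x, ∑ y, v (x, y) ≤ Fintype.card Y := fun x => by
    simp only [v, sum_add_distrib, sum_const, card_univ, nsmul_eq_mul, sum_ite_mem, univ_inter]
    rcases Nat.eq_zero_or_pos (E x).card with h0 | h0
    · rw [h0]; simp; linarith
    · have : (0 : ℝ) < (E x).card := by exact_mod_cast h0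
      apply le_of_eq
      field_simp
      ring
  have main := H (fun x => 2 * m x) c u v hc hu hv hu1 hv1
  -- lower bound of the inner sums
  have inner : ∀ x, Fintype.card Y * s x / 4 ≤ ∑ y, v (x, y) ^ β *
      ((√((2 * m x : ℕ) : ℝ))⁻¹ * vr (fun i => a i (e (x, y))) (2 * m x) (c (e (x, y)))) := by
    intro x
    have hnn : ∀ y, 0 ≤ v (x, y) ^ β *
      ((√((2 * m x : ℕ) : ℝ))⁻¹ * vr (fun i => a i (e (x, y))) (2 * m x) (c (e (x, y)))) :=
      fun y => mul_nonneg (Real.rpow_nonneg (hv _).le _)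
        (mul_nonneg (by positivity) (vr_nonneg _ _ _))
    rcases Nat.eq_zero_or_pos (E x).card with h0 | h0
    · have : s x = 0 := by
        rw [hs]
        have h0' : (univ.filter fun y => m x ≤ J (e (x, y))).card = 0 := h0
        rw [h0', Nat.cast_zero, zero_div, Real.zero_rpow (by linarith), mul_zero]
      rw [this, mul_zero, zero_div]
      exact sum_nonneg fun y _ => hnn y
    have hE : (0 : ℝ) < (E x).card := by exact_mod_cast h0
    have hm : δ * √(m x) / 2 ≤ (√((2 * m x : ℕ) : ℝ))⁻¹ * (m x * δ) := by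
      rcases Nat.eq_zero_or_pos (m x) with h1 | h1
      · simp [h1]
      have h2 : (0 : ℝ) < m x := by exact_mod_cast h1
      have h3 : 0 < √((2 * m x : ℕ) : ℝ) := Real.sqrt_pos.2 (by positivity)
      have h4 : √((2 * m x : ℕ) : ℝ) ≤ 2 * √(m x) := by
        rw [Real.sqrt_le_left (by positivity), mul_pow, Real.sq_sqrt h2.le]
        push_cast; linarith
      rw [le_inv_mul_iff₀ h3]
      have h5 := Real.mul_self_sqrt h2.le
      calc _ ≤ 2 * √(m x) * (δ * √(m x) / 2) := mul_le_mul_of_nonneg_right h4 (by positivity)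
        _ = √(m x) * √(m x) * δ := by ring
        _ = _ := by rw [h5]
    have hvv : ((Fintype.card Y : ℝ) / (E x).card) ^ β / 2 ≤
        ((Fintype.card Y : ℝ) / (2 * (E x).card) + 1 / 2) ^ β := by
      have h1 : ((Fintype.card Y : ℝ) / (E x).card * (1 / 2)) ^ β ≤
          ((Fintype.card Y : ℝ) / (2 * (E x).card) + 1 / 2) ^ β := by
        refine Real.rpow_le_rpow (by positivity) ?_ hβ0
        have : (Fintype.card Y : ℝ) / (E x).card * (1 / 2) =
          (Fintype.card Y : ℝ) / (2 * (E x).card) := by field_simp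
        linarith
      refine le_trans ?_ h1
      rw [Real.mul_rpow (by positivity) (by positivity), div_eq_mul_one_div _ 2]
      refine mul_le_mul_of_nonneg_left ?_ (by positivity)
      calc (1 / 2 : ℝ) = (1 / 2) ^ (1 : ℝ) := (Real.rpow_one _).symm
        _ ≤ _ := Real.rpow_le_rpow_of_exponent_ge (by norm_num) (by norm_num) hβ.le
    have hid : (Fintype.card Y : ℝ) * (((E x).card : ℝ) / Fintype.card Y) ^ (1 - β) =
        (E x).card * ((Fintype.card Y : ℝ) / (E x).card) ^ β := by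
      rw [Real.rpow_sub (by positivity), Real.rpow_one, Real.div_rpow hE.le hY.le,
        Real.div_rpow hY.le hE.le]
      have := Real.rpow_pos_of_pos hE β
      have := Real.rpow_pos_of_pos hY β
      field_simp
    calc Fintype.card Y * s x / 4
        = (E x).card * (((Fintype.card Y : ℝ) / (E x).card) ^ β / 2 * (δ * √(m x) / 2)) := by
          rw [hs]
          calc _ = (Fintype.card Y : ℝ) * (((E x).card : ℝ) / Fintype.card Y) ^ (1 - β) *
                (δ * √(m x)) / 4 := by ring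
            _ = _ := by rw [hid]; ring
      _ = ∑ _y ∈ E x, ((Fintype.card Y : ℝ) / (E x).card) ^ β / 2 * (δ * √(m x) / 2) := by
          rw [sum_const, nsmul_eq_mul]
      _ ≤ ∑ y ∈ E x, v (x, y) ^ β * ((√((2 * m x : ℕ) : ℝ))⁻¹ *
            vr (fun i => a i (e (x, y))) (2 * m x) (c (e (x, y)))) := by
          refine sum_le_sum fun y hy => mul_le_mul ?_ (hm.trans ?_) (by positivity)
            (Real.rpow_nonneg (hv _).le _)
          · simp only [v, if_pos hy]
            exact hvv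
          · refine mul_le_mul_of_nonneg_left ?_ (by positivity)
            exact jmp_vr (fun i => a i (e (x, y))) δ _ _ fun j hjm =>
              hj _ j (lt_of_lt_of_le hjm (mem_filter.1 hy).2)
      _ ≤ _ := sum_le_sum_of_subset_of_nonneg (subset_univ _) fun y _ _ => hnn y
  have hD : 0 < 2 * Fintype.card Y * S := by positivity
  have outer : ∀ x, s x ^ p / (2 * Fintype.card Y * S) ^ (1 - p⁻¹) ≤ u x ^ (1 - p⁻¹) * s x := by
    intro x
    have h1 : (s x ^ p / (2 * Fintype.card Y * S)) ^ (1 - p⁻¹) ≤ u x ^ (1 - p⁻¹) := by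
      refine Real.rpow_le_rpow (div_nonneg (Real.rpow_nonneg (hs0 x) _) hD.le) ?_ hγ
      simp only [u]
      exact le_add_of_nonneg_right (by positivity)
    refine le_trans (le_of_eq ?_) (mul_le_mul_of_nonneg_right h1 (hs0 x))
    rw [Real.div_rpow (Real.rpow_nonneg (hs0 x) _) hD.le, ← Real.rpow_mul (hs0 x),
      div_mul_eq_mul_div, ← Real.rpow_add_one' (hs0 x) (by
        rw [mul_sub, mul_inv_cancel₀ hp0.ne']; linarith)]
    rw [mul_sub, mul_inv_cancel₀ hp0.ne', mul_one, sub_add_cancel]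
  have fin : Fintype.card Y * S / (2 * Fintype.card Y * S) ^ (1 - p⁻¹) / 4 ≤ B := by
    refine le_trans ?_ main
    rw [Fintype.sum_prod_type]
    calc _ = ∑ x, Fintype.card Y * (s x ^ p / (2 * Fintype.card Y * S) ^ (1 - p⁻¹)) / 4 := by
          rw [← sum_div, ← mul_sum, ← sum_div, mul_div_assoc]
      _ ≤ ∑ x, u x ^ (1 - p⁻¹) * (Fintype.card Y * s x / 4) := by
          refine sum_le_sum fun x _ => ?_
          have := mul_le_mul_of_nonneg_left (outer x) hY.le
          linarith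
      _ ≤ _ := by
          refine sum_le_sum fun x _ => ?_
          simp only [mul_assoc (u x ^ (1 - p⁻¹)), ← mul_sum]
          exact mul_le_mul_of_nonneg_left (inner x) (Real.rpow_nonneg (hu x).le _)
  have h8 : (2 * Fintype.card Y * S) ^ p⁻¹ ≤ 8 * B := by
    rw [Real.rpow_sub hD, Real.rpow_one] at fin
    have h1 := Real.rpow_pos_of_pos hD p⁻¹
    have h2 : Fintype.card Y * S / (2 * Fintype.card Y * S / (2 * Fintype.card Y * S) ^ p⁻¹) / 4 =
        (2 * Fintype.card Y * S) ^ p⁻¹ / 8 := by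
      field_simp
      ring
    rw [h2] at fin
    linarith
  have h9 := Real.rpow_le_rpow (by positivity) h8 hp0.le
  rw [Real.rpow_inv_rpow hD.le hp0.ne'] at h9
  have : 0 < Fintype.card Y * S := by positivity
  linarith

end DBL

theorem stJump (hL : StLayer) : StJump := by
  classical
  intro p β hp hβ0 hβ
  have hp0 : 0 < p := lt_of_lt_of_le one_pos hp
  have hγ : 0 ≤ 1 - p⁻¹ := sub_nonneg.2 (inv_le_one_of_one_le₀ hp)
  have hb : 0 < 1 - β := by linarith
  have hpq : p < (1 - β)⁻¹ := by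
    rw [lt_inv_comm₀ hp0 hb]; linarith
  obtain ⟨C, hC, hLay⟩ := hL p (1 - β)⁻¹ 0 le_rfl hp0 hpq
  refine ⟨C ^ p⁻¹ * 8, by positivity, ?_⟩
  intro X X' Y _ _ _ e a B hB H δ J hδ hJ
  rcases isEmpty_or_nonempty X with hX | hX
  · unfold lp
    rw [Finset.univ_eq_empty, sum_empty, Real.zero_rpow (inv_pos.2 hp0).ne']
    positivity
  obtain ⟨x₀⟩ := hX
  have : Nonempty X' := ⟨(e.symm x₀).1⟩
  have : Nonempty Y := ⟨(e.symm x₀).2⟩
  have hY : (0 : ℝ) < Fintype.card Y := by exact_mod_cast Fintype.card_pos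
  let g : X' → ℕ → ℝ := fun x m => δ * √m *
    (((univ.filter fun y => m ≤ J (e (x, y))).card : ℝ) / Fintype.card Y) ^ (1 - β)
  have hm : ∀ x, ∃ m, ∀ k ∈ range (univ.sup J + 1), g x k ≤ g x m := fun x => by
    obtain ⟨m, _, h⟩ := exists_max_image (range (univ.sup J + 1)) (g x) ⟨0, by simp⟩
    exact ⟨m, h⟩
  choose m hm using hm
  have h1 := DBL.jump_test e p β hp (by linarith) hβ a B δ hB hδ H J hJ m (fun x => g x (m x))
    fun x => rfl
  have hg0 : ∀ x k, 0 ≤ g x k := fun x k => by simp only [g]; positivity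
  have h2 := hLay X X' (fun x => δ * √(J x)) (fun x => g x (m x)) (Fintype.card Y) hY.le
    (fun x => by positivity) (fun x => hg0 _ _) fun t ht => by
      have e1 : ((univ.filter fun x => t < δ * √(J x)).card : ℝ) =
          ∑ x, ((univ.filter fun y => t < δ * √(J (e (x, y)))).card : ℝ) := by
        simp only [card_filter, Nat.cast_sum]
        rw [← e.sum_comp, Fintype.sum_prod_type]
      rw [e1, mul_sum]
      refine sum_le_sum fun x _ => ?_
      rw [Real.rpow_zero, ← div_le_iff₀' hY]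
      refine le_min ?_ ?_
      swap
      · rw [div_le_one hY]
        exact_mod_cast card_le_univ _
      rcases (univ.filter fun y => t < δ * √(J (e (x, y)))).eq_empty_or_nonempty with h0 | h0
      · rw [h0, card_empty, Nat.cast_zero, zero_div]
        exact Real.rpow_nonneg (div_nonneg (hg0 _ _) ht.le) _
      obtain ⟨y₀, hy₀, hmin⟩ := exists_min_image _ (fun y => J (e (x, y))) h0
      have hk := hm x (J (e (x, y₀))) (mem_range.2 (Nat.lt_succ_of_le (le_sup (mem_univ _))))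
      have ht0 := (mem_filter.1 hy₀).2
      have hsub : ((univ.filter fun y => t < δ * √(J (e (x, y)))).card : ℝ) ≤
          (univ.filter fun y => J (e (x, y₀)) ≤ J (e (x, y))).card := by
        exact_mod_cast card_le_card fun y hy => mem_filter.2 ⟨mem_univ _, hmin y hy⟩
      refine (div_le_div_of_nonneg_right hsub hY.le).trans ?_
      set r := ((univ.filter fun y => J (e (x, y₀)) ≤ J (e (x, y))).card : ℝ) / Fintype.card Y
      have hr : 0 ≤ r := by positivity
      have h3 : r ^ (1 - β) ≤ g x (m x) / t := by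
        rw [le_div_iff₀ ht]
        refine le_trans ?_ hk
        rw [mul_comm]
        exact mul_le_mul_of_nonneg_right ht0.le (Real.rpow_nonneg hr _)
      have h4 := Real.rpow_le_rpow (Real.rpow_nonneg hr _) h3 (inv_pos.2 hb).le
      rwa [Real.rpow_rpow_inv hr hb.ne'] at h4
  have h3 : ∑ x, ‖δ * √(J x)‖ ^ p ≤ C * (8 * B) ^ p := by
    have e1 : ∀ x, ‖δ * √(J x)‖ = δ * √(J x) := fun x => Real.norm_of_nonneg (by positivity)
    simp only [e1]
    refine h2.trans ?_
    rw [mul_assoc]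
    exact mul_le_mul_of_nonneg_left h1 hC.le
  have h4 := Real.rpow_le_rpow (by positivity) h3 (inv_pos.2 hp0).le
  rw [Real.mul_rpow hC.le (by positivity), Real.rpow_rpow_inv (by positivity) hp0.ne'] at h4
  unfold lp
  linarith

end

end Pool.Agent.Lib.MP_10e396_an
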