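import Mathlib

/-! Definitions shared by the files on the jump inequality for bilinear polynomial averages. -/

set_option autoImplicit false

namespace Pool.Agent.Lib.MP_10e396_an

open Finset Polynomial ComplexConjugate

noncomputable section

def ee (x : ℝ) : ℂ := Complex.exp (2 * Real.pi * x * Complex.I)

/-- distance to the nearest integer -/
def nd (x : ℝ) : ℝ := |x - round x|

def av {E : Type} [AddCommMonoid E] [Module ℝ E] (N : ℕ) (φ : ℕ → E) : E :=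
  (N : ℝ)⁻¹ • ∑ n ∈ range N, φ n

def lp {X E : Type} [Fintype X] [Norm E] (p : ℝ) (f : X → E) : ℝ := (∑ x, ‖f x‖ ^ p) ^ p⁻¹

/-- variation along the first `J` steps of a chain -/
def vr {E : Type} [SeminormedAddCommGroup E] (a : ℕ → E) (J : ℕ) (c : ℕ → ℕ) : ℝ :=
  ∑ j ∈ range J, ‖a (c (j + 1)) - a (c j)‖

/-- `w` bounds the supremum and the weak quadratic variation of the sequence `a` -/
def Wb {E : Type} [SeminormedAddCommGroup E] (a : ℕ → E) (w : ℝ) : Prop :=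
  (∀ i, ‖a i‖ ≤ w) ∧ ∀ (J : ℕ) (c : ℕ → ℕ), Monotone c → vr a J c ≤ √J * w

/-- the mixed norm bound in dual form, for windows `Y` -/
def DB {X X' Y : Type} [Fintype X'] [Fintype Y] (e : X' × Y ≃ X) (γ β : ℝ) (a : ℕ → X → ℂ)
    (B : ℝ) : Prop :=
  ∀ (J : X' → ℕ) (c : X → ℕ → ℕ) (u : X' → ℝ) (v : X' × Y → ℝ), (∀ x, Monotone (c x)) →
    (∀ x, 0 < u x) → (∀ z, 0 < v z) → (Fintype.card Y : ℝ) * ∑ x, u x ≤ 1 →
    (∀ x, ∑ y, v (x, y) ≤ Fintype.card Y) →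
    ∑ z : X' × Y, u z.1 ^ γ * v z ^ β *
      ((√(J z.1))⁻¹ * vr (fun i => a i (e z)) (J z.1) (c (e z))) ≤ B

/-- `m` disjoint jumps of size `δ` -/
def Jmp (a : ℕ → ℂ) (δ : ℝ) (m : ℕ) : Prop :=
  ∃ c : ℕ → ℕ, Monotone c ∧ ∀ j < m, δ ≤ ‖a (c (2 * j + 1)) - a (c (2 * j))‖

/-- the jump bound -/
def JB {X : Type} [Fintype X] (p : ℝ) (a : ℕ → X → ℂ) (B : ℝ) : Prop :=
  ∀ (δ : ℝ) (J : X → ℕ), 0 < δ → (∀ x, Jmp (fun i => a i x) δ (J x)) →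
    lp p (fun x => δ * √(J x)) ≤ B

def cx {X : Type} (k : X → ℝ) (t : X) : ℂ := k t

def sg (b : Bool) : ℝ := if b then 1 else -1

/-- dyadic level of a scale -/
def lv (r : ℝ) : ℕ := Nat.clog 2 ⌈r⌉₊

/-- all positive integers up to `T` divide `M` -/
def Dv (M T : ℕ) : Prop := ∀ k, 1 ≤ k → k ≤ T → k ∣ M

section cyc

variable {M : ℕ} [NeZero M]

def ch (x : ZMod M) : ℂ := ZMod.stdAddChar x

/-- cyclic absolute value -/
def ab (x : ZMod M) : ℕ := x.valMinAbs.natAbs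

def pe (P : ℤ[X]) (n : ℕ) : ZMod M := ((P.eval (n : ℤ) : ℤ) : ZMod M)

def AA (P₁ P₂ : ℤ[X]) (N : ℕ) (f g : ZMod M → ℂ) (x : ZMod M) : ℂ :=
  av N fun n => f (x + pe P₁ n) * g (x + pe P₂ n)

def ft (f : ZMod M → ℂ) (ξ : ZMod M) : ℂ := ∑ x, f x * ch (-(ξ * x))

def conv {E : Type} [AddCommMonoid E] [Module ℂ E] (κ : ZMod M → ℂ) (F : ZMod M → E)
    (x : ZMod M) : E := ∑ z, κ (x - z) • F z

/-- the Fejer kernel -/
def fej (K : ℕ) (x : ZMod M) : ℝ := ‖∑ j ∈ range K, ch ((j : ZMod M) * x)‖ ^ 2 / (M * K)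

def Band (K : ℕ) (κ : ZMod M → ℂ) : Prop := ∀ ξ, ft κ ξ ≠ 0 → ab ξ < K

/-- fractions of height at most `H` -/
def Sg (M : ℕ) [NeZero M] (H : ℕ) : Finset (ZMod M) := univ.filter fun θ => addOrderOf θ ≤ H

/-- the adelic form of a multi-frequency operator -/
def Ad (A : Finset (ZMod M)) (κ f : ZMod M → ℂ) (x y : ZMod M) : ℂ :=
  ∑ θ ∈ A, ∑ z, κ (x - z) * ch (θ * (y - z)) * f z

def TT (A : Finset (ZMod M)) (κ f : ZMod M → ℂ) (x : ZMod M) : ℂ := Ad A κ f x x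

/-- the Fourier transform vanishes near all fractions of height at most `H` -/
def Minor (H K : ℕ) (f : ZMod M → ℂ) : Prop :=
  ∀ ξ θ, θ ∈ Sg M H → ab (ξ - θ) < K → ft f ξ = 0

/-- average over the dyadic atom of level `j` -/
def dy {E : Type} [AddCommMonoid E] [Module ℂ E] (j : ℕ) (F : ZMod M → E) (x : ZMod M) : E :=
  ((2 : ℂ) ^ j)⁻¹ • ∑ z ∈ univ.filter (fun z : ZMod M => z.val / 2 ^ j = x.val / 2 ^ j), F z

/-- a lacunary family of probability kernels, smooth at scale `r i`, zero outside a range -/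
structure Ker (L γ i₀ i₁ τ : ℕ) (r : ℕ → ℝ) (k : ℕ → ZMod M → ℝ) : Prop where
  one : 1 ≤ L
  zero : ∀ i, i ∉ Ico i₀ i₁ → k i = 0
  nonneg : ∀ i t, 0 ≤ k i t
  sum : ∀ i ∈ Ico i₀ i₁, ∑ t, k i t = 1
  lip : ∀ i ∈ Ico i₀ i₁, ∑ t, |k i (t + 1) - k i t| ≤ 16 / r i
  tail : ∀ i ∈ Ico i₀ i₁, ∀ R : ℕ, 1 ≤ R →
    ∑ t ∈ univ.filter (fun t : ZMod M => R ≤ ab t), k i t ≤ 2 ^ γ * r i / R
  ge : ∀ i ∈ Ico i₀ i₁, 1 ≤ r i
  mono : ∀ i j, i₀ ≤ i → i ≤ j → j < i₁ → r i ≤ r j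
  lac : ∀ i, i₀ ≤ i → i + L < i₁ → 2 * r i ≤ r (i + L)
  dvd : 2 ^ τ ∣ M
  top : ∀ i ∈ Ico i₀ i₁, 2 ^ γ * r i ≤ 2 ^ τ

/-- the law of `a * u` for `u` uniform below `H` -/
def dirm (H : ℕ) (a z : ZMod M) : ℝ :=
  (((range H).filter fun u : ℕ => a * (u : ZMod M) = z).card : ℝ) / H

/-- embedding of a progression -/
def up (M : ℕ) {M' : ℕ} (Q : ℕ) (z : ZMod M') : ZMod M := ((Q * z.val : ℕ) : ZMod M)

end cyc

section box

variable {G : Type} [Fintype G]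

def Prob (μ : G → ℝ) : Prop := (∀ a, 0 ≤ μ a) ∧ ∑ a, μ a = 1

def EL {E : Type} [AddCommMonoid E] [Module ℝ E] : List (G → ℝ) → (List G → E) → E
  | [], φ => φ []
  | μ :: L, φ => ∑ a, μ a • EL L fun t => φ (a :: t)

def Cub {G : Type} : (List G → ℂ) → List G → List G → ℂ
  | Ψ, a :: t, b :: s => Cub (fun r => Ψ (a :: r) * conj (Ψ (b :: r))) t s
  | Ψ, _, _ => Ψ []

def Low {G : Type} : ℕ → (List G → ℂ) → Prop
  | 0, B => B [] = 1
  | m + 1, B => ∃ (b : List G → ℂ) (B' : G → List G → ℂ), (∀ t, ‖b t‖ ≤ 1) ∧ (∀ a, Low m (B' a)) ∧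
      ∀ a t, B (a :: t) = b t * B' a t

/-- box norm (raised to the power `2 ^ length`) in the directions of the list -/
def Box [AddCommGroup G] : List (G → ℝ) → (G → ℂ) → ℝ
  | [], g => (∑ x, g x).re / Fintype.card G
  | μ :: L, g => ∑ a, ∑ b, μ a * μ b * Box L fun x => g (x + a) * conj (g (x + b))

/-- Gowers norm raised to the power `2 ^ s` -/
def Gow [AddCommGroup G] (s : ℕ) (g : G → ℂ) : ℝ :=
  Box (List.replicate s fun _ => (Fintype.card G : ℝ)⁻¹) g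

end box

/-- the discrete jump inequality on cyclic groups -/
def Disc (P : ℤ[X]) (p₁ p₂ p : ℝ) (L : ℕ) (C : ℝ) : Prop :=
  ∀ (N : ℕ → ℕ) (n : ℕ), (∀ i, 1 ≤ N i) → Monotone N → (∀ i, 2 * N i ≤ N (i + L)) →
    ∃ T, ∀ (M : ℕ) [NeZero M], Dv M T → ∀ f g : ZMod M → ℂ,
      JB p (fun i x => if i < n then AA X P (N i) f g x else 0) (C * lp p₁ f * lp p₂ g)

end

end Pool.Agent.Lib.MP_10e396_an
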