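import Pool.Agent.Lib.MP_10e396_an.Four

/-! The Fejer kernel, the plateau kernel and their restrictions to progressions. -/

set_option autoImplicit false

namespace Pool.Agent.Lib.MP_10e396_an

open Finset ComplexConjugate

noncomputable section

variable {M : ℕ} [NeZero M]

theorem fej_nonneg (K : ℕ) (x : ZMod M) : 0 ≤ fej K x := by unfold fej; positivity

theorem fej_neg (K : ℕ) (x : ZMod M) : fej K (-x) = fej K x := by
  unfold fej
  simp only [mul_neg, ch_neg, ← map_sum, RCLike.norm_conj]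

theorem card_diff (K : ℕ) (k : ℤ) :
    (((range K ×ˢ range K).filter fun p : ℕ × ℕ => (p.1 : ℤ) - p.2 = k).card : ℕ) =
      K - k.natAbs := by
  rw [← card_range (K - k.natAbs)]
  refine card_nbij' (fun p => min p.1 p.2) (fun j => (j + k.toNat, j + (-k).toNat)) ?_ ?_ ?_ ?_
  · intro p hp
    simp only [coe_filter, mem_product, mem_range, Set.mem_ofPred_eq, coe_range, Set.mem_Iio] at hp ⊢
    omega
  · intro j hj
    simp only [coe_filter, mem_product, mem_range, Set.mem_ofPred_eq, coe_range, Set.mem_Iio] at hj ⊢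
    omega
  · intro p hp
    simp only [coe_filter, mem_product, mem_range, Set.mem_ofPred_eq] at hp
    ext <;> simp only <;> omega
  · intro j _
    simp only; omega

theorem ft_fej {K : ℕ} (hK : 1 ≤ K) (h2 : 2 * K ≤ M) (ξ : ZMod M) :
    ft (cx (fej K)) ξ = ((max (1 - (ab ξ : ℝ) / K) 0 : ℝ) : ℂ) := by
  have e : cx (fej (M := M) K) = fun x => ((M : ℂ) * K)⁻¹ *
      ∑ p ∈ range K ×ˢ range K, ch ((((p.1 : ℤ) - p.2 : ℤ) : ZMod M) * x) * 1 := by
    funext x
    simp only [cx, fej]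
    rw [← Complex.normSq_eq_norm_sq, Complex.ofReal_div, ← Complex.mul_conj, map_sum, sum_mul_sum,
      sum_product, div_eq_inv_mul]
    push_cast
    simp only [sub_mul, ch_sub, mul_one]
  have e1 : ∀ ζ : ZMod M, ft (fun _ => (1 : ℂ)) ζ = if ζ = 0 then (M : ℂ) else 0 := fun ζ => by
    have := sum_ch (-ζ)
    simpa [ft] using this
  rw [e, ft_mul, ft_sum]
  simp only [ft_mod, e1]
  rw [← sum_filter, sum_const, nsmul_eq_mul]
  have h3 := two_ab_le ξ
  obtain ⟨k, rfl, hk⟩ := ab_rep ξ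
  have e2 : ((range K ×ˢ range K).filter fun p : ℕ × ℕ =>
      (k : ZMod M) - (((p.1 : ℤ) - p.2 : ℤ) : ZMod M) = 0) =
      (range K ×ˢ range K).filter fun p : ℕ × ℕ => (p.1 : ℤ) - p.2 = k := by
    refine filter_congr fun p hp => ?_
    simp only [mem_product, mem_range] at hp
    rw [← Int.cast_sub, ZMod.intCast_zmod_eq_zero_iff_dvd]
    constructor
    · intro h
      have := Int.eq_zero_of_dvd_of_natAbs_lt_natAbs h (by omega)
      omega
    · intro h; rw [h, sub_self]; exact dvd_zero _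
  rw [e2, card_diff, hk]
  have hK' : (K : ℝ) ≠ 0 := by positivity
  have e3 : max (1 - (ab (k : ZMod M) : ℝ) / K) 0 = ((K - ab (k : ZMod M) : ℕ) : ℝ) / K := by
    rcases le_total (ab (k : ZMod M)) K with h | h
    · rw [Nat.cast_sub h, max_eq_left, sub_div, div_self hK']
      rw [sub_nonneg, div_le_one (by positivity)]; exact_mod_cast h
    · rw [Nat.sub_eq_zero_of_le h, max_eq_right, Nat.cast_zero, zero_div]
      rw [sub_nonpos, one_le_div (by positivity)]; exact_mod_cast h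
  rw [e3]
  have := Mne M
  have hK'' : (K : ℂ) ≠ 0 := by exact_mod_cast hK'
  push_cast
  field_simp

theorem norm_ft_fej {K : ℕ} (hK : 1 ≤ K) (h2 : 2 * K ≤ M) (ξ : ZMod M) :
    ‖ft (cx (fej K)) ξ‖ ≤ 1 := by
  rw [ft_fej hK h2, Complex.norm_real, Real.norm_of_nonneg (le_max_right _ _)]
  have : (0 : ℝ) ≤ (ab ξ : ℝ) / K := by positivity
  exact max_le (by linarith) zero_le_one

theorem band_fej {K : ℕ} (hK : 1 ≤ K) (h2 : 2 * K ≤ M) : Band K (cx (fej (M := M) K)) := by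
  intro ξ h
  by_contra hc
  apply h
  rw [ft_fej hK h2, max_eq_right, Complex.ofReal_zero]
  rw [sub_nonpos, one_le_div (by positivity)]
  exact_mod_cast not_lt.1 hc

theorem sum_fej {K : ℕ} (hK : 1 ≤ K) (h2 : 2 * K ≤ M) : ∑ x : ZMod M, fej K x = 1 := by
  have := ft_fej hK h2 (0 : ZMod M)
  simp only [ft, cx, zero_mul, neg_zero, ch_zero, mul_one, ab_zero, Nat.cast_zero, zero_div,
    sub_zero, zero_le_one, max_eq_left] at this
  exact_mod_cast this

theorem sum_norm_fej {K : ℕ} (hK : 1 ≤ K) (h2 : 2 * K ≤ M) (s : ZMod M) :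
    ∑ x : ZMod M, ‖cx (fun t => fej K (t + s)) x‖ = 1 := by
  rw [← sum_fej hK h2, ← Equiv.sum_comp (Equiv.addRight s) (fej K)]
  exact sum_congr rfl fun x _ => by
    simp [cx, abs_of_nonneg (fej_nonneg K (x + s))]

theorem ft_cx_shift (κ : ZMod M → ℝ) (s ξ : ZMod M) :
    ft (cx fun t => κ (t + s)) ξ = ch (ξ * s) * ft (cx κ) ξ := ft_shift (cx κ) s ξ

theorem Band.shift {K : ℕ} {κ : ZMod M → ℝ} (h : Band K (cx κ)) (s : ZMod M) :
    Band K (cx fun t => κ (t + s)) := fun ξ hξ =>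
  h ξ fun h0 => hξ (by rw [ft_cx_shift, h0, mul_zero])

/-- the plateau kernel -/
def pl (K : ℕ) (x : ZMod M) : ℝ := 2 * fej (2 * K) x - fej K x

theorem pl_neg (K : ℕ) (x : ZMod M) : pl K (-x) = pl K x := by simp [pl, fej_neg]

theorem ft_pl_eq (K : ℕ) (ξ : ZMod M) :
    ft (cx (pl K)) ξ = 2 * ft (cx (fej (2 * K))) ξ - ft (cx (fej K)) ξ := by
  rw [← ft_mul, ← ft_sub]
  congr 1; funext x; simp [cx, pl]

theorem ft_pl {K : ℕ} (hK : 1 ≤ K) (h4 : 4 * K ≤ M) {ξ : ZMod M} (h : ab ξ ≤ K) :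
    ft (cx (pl K)) ξ = 1 := by
  have hK' : (0 : ℝ) < K := by positivity
  have h' : (ab ξ : ℝ) / K ≤ 1 := by rw [div_le_one hK']; exact_mod_cast h
  have e : (ab ξ : ℝ) / (2 * K : ℕ) = (ab ξ : ℝ) / K / 2 := by push_cast; field_simp
  have : (0 : ℝ) ≤ (ab ξ : ℝ) / K := by positivity
  rw [ft_pl_eq, ft_fej (by omega) (by omega), ft_fej hK (by omega), e,
    max_eq_left (by linarith), max_eq_left (by linarith)]
  push_cast; ring

theorem band_pl {K : ℕ} (hK : 1 ≤ K) (h4 : 4 * K ≤ M) : Band (2 * K) (cx (pl (M := M) K)) := by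
  intro ξ h
  by_contra hc
  apply h
  have e1 : ft (cx (fej (2 * K))) ξ = 0 := by
    by_contra h0; exact hc (band_fej (by omega) (by omega) ξ h0)
  have e2 : ft (cx (fej K)) ξ = 0 := by
    by_contra h0; have := band_fej hK (by omega) ξ h0; omega
  rw [ft_pl_eq, e1, e2]; simp

theorem sum_norm_pl {K : ℕ} (hK : 1 ≤ K) (h4 : 4 * K ≤ M) :
    ∑ x : ZMod M, ‖cx (pl K) x‖ ≤ 3 := by
  calc _ ≤ ∑ x : ZMod M, (2 * fej (2 * K) x + fej K x) := sum_le_sum fun x _ => by
        have := fej_nonneg (2 * K) x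
        have := fej_nonneg K x
        simp only [cx, pl, Complex.norm_real, Real.norm_eq_abs]
        exact abs_le.2 ⟨by linarith, by linarith⟩
    _ = 3 := by
        rw [sum_add_distrib, ← mul_sum, sum_fej (by omega) (by omega), sum_fej hK (by omega)]
        norm_num

theorem fej_le {K : ℕ} (hK : 1 ≤ K) (x : ZMod M) : 4 * K * (ab x : ℝ) ^ 2 * fej K x ≤ M := by
  have h := geom_le K x
  have h2 := pow_le_pow_left₀ (by positivity) h 2
  have hM := Mpos M
  unfold fej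
  rw [← mul_div_assoc, div_le_iff₀ (by positivity)]
  have : (0 : ℝ) < K := by positivity
  nlinarith

theorem sum_ab_le (φ : ℕ → ℝ) (h : ∀ a, 0 ≤ φ a) :
    ∑ t : ZMod M, φ (ab t) ≤ 2 * ∑ a ∈ range M, φ a := by
  have e : ∑ t : ZMod M, φ t.val = ∑ a ∈ range M, φ a := by
    refine sum_nbij' (fun t => t.val) (fun a => (a : ZMod M)) ?_ ?_ ?_ ?_ ?_
    · intro t _; simpa using ZMod.val_lt t
    · intro a _; simp
    · intro t _; simp
    · intro a ha; exact ZMod.val_cast_of_lt (by simpa using ha)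
    · intro t _; rfl
  have e2 : ∑ t : ZMod M, φ (-t).val = ∑ t : ZMod M, φ t.val :=
    Equiv.sum_comp (Equiv.neg _) fun t : ZMod M => φ t.val
  rw [two_mul, ← e]
  nth_rewrite 2 [← e2]
  rw [← sum_add_distrib]
  refine sum_le_sum fun t _ => ?_
  have h1 := ZMod.valMinAbs_natAbs_eq_min t
  rcases le_total t.val (M - t.val) with h2 | h2
  · rw [ab, h1, min_eq_left h2]; linarith [h (-t).val]
  · have h0 : t ≠ 0 := by
      rintro rfl
      have := NeZero.pos M
      simp at h2; omega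
    rw [ab, h1, min_eq_right h2, ZMod.neg_val, if_neg h0]; linarith [h t.val]

theorem sum_tail_le {R : ℕ} (hR : 1 ≤ R) :
    ∑ t ∈ univ.filter (fun t : ZMod M => R ≤ ab t), ((ab t : ℝ) ^ 2)⁻¹ ≤ 4 / R := by
  rw [sum_filter]
  refine (sum_ab_le (fun a => if R ≤ a then ((a : ℝ) ^ 2)⁻¹ else 0)
    (fun a => by split_ifs <;> positivity)).trans ?_
  rw [← sum_filter]
  have h := sum_Ioo_inv_sq_le (α := ℝ) (R - 1) M
  have e : (range M).filter (fun a => R ≤ a) = Ioo (R - 1) M := by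
    ext a; simp only [mem_filter, mem_range, mem_Ioo]; omega
  have e2 : ((R - 1 : ℕ) : ℝ) + 1 = R := by rw [Nat.cast_sub hR]; simp
  rw [e2] at h
  rw [e]
  calc _ ≤ 2 * (2 / (R : ℝ)) := by gcongr
    _ = _ := by ring

section prog

variable {M' : ℕ} [NeZero M'] {Q : ℕ}

omit [NeZero M] in
theorem up_intCast (hM : M = Q * M') (k : ℤ) :
    up M Q (k : ZMod M') = ((Q * k : ℤ) : ZMod M) := by
  unfold up
  rw [← Int.cast_natCast, ZMod.intCast_eq_intCast_iff_dvd_sub, hM]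
  push_cast
  rw [← mul_sub]
  refine mul_dvd_mul_left _ ?_
  rw [← ZMod.intCast_eq_intCast_iff_dvd_sub]
  simp

omit [NeZero M] in
theorem up_add (hM : M = Q * M') (a b : ZMod M') : up M Q (a + b) = up M Q a + up M Q b := by
  obtain ⟨a, rfl⟩ := ZMod.intCast_surjective a
  obtain ⟨b, rfl⟩ := ZMod.intCast_surjective b
  rw [← Int.cast_add, up_intCast hM, up_intCast hM, up_intCast hM]; push_cast; ring

omit [NeZero M] in
theorem up_sub (hM : M = Q * M') (a b : ZMod M') : up M Q (a - b) = up M Q a - up M Q b := by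
  rw [eq_sub_iff_add_eq, ← up_add hM, sub_add_cancel]

omit [NeZero M] in
theorem up_one (hM : M = Q * M') : up M Q (1 : ZMod M') = (Q : ZMod M) := by
  simpa using up_intCast hM 1

theorem up_self (z : ZMod M) : up M 1 z = z := by simp [up]

theorem ab_up (hM : M = Q * M') (z : ZMod M') : ab (up M Q z) = Q * ab z := by
  have h := two_ab_le z
  obtain ⟨k, rfl, hk⟩ := ab_rep z
  rw [up_intCast hM, ab_intCast, Int.natAbs_mul, hk, Int.natAbs_natCast]
  rw [Int.natAbs_mul, hk, Int.natAbs_natCast, hM, mul_left_comm]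
  exact Nat.mul_le_mul_left _ h

theorem ch_up (hM : M = Q * M') (j : ℕ) (z : ZMod M') :
    ch ((j : ZMod M) * up M Q z) = ch ((j : ZMod M') * z) := by
  obtain ⟨k, rfl⟩ := ZMod.intCast_surjective z
  have hQ : (Q : ℝ) ≠ 0 := by
    have := NeZero.ne M
    rintro h
    have : Q = 0 := by exact_mod_cast h
    simp_all
  rw [up_intCast hM, ← Int.cast_natCast j, ← Int.cast_natCast (R := ZMod M') j, ← Int.cast_mul,
    ← Int.cast_mul, ch_intCast, ch_intCast, hM]
  congr 1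
  push_cast
  field_simp

theorem sum_sq_prog (hM : M = Q * M') {K : ℕ} (hK : K ≤ M') (c : ℕ → ℂ) (s : ZMod M) :
    ∑ t : ZMod M', ‖∑ j ∈ range K, c j * ch ((j : ZMod M) * (up M Q t + s))‖ ^ 2 =
      M' * ∑ j ∈ range K, ‖c j‖ ^ 2 := by
  have h := sum_sq_trig (M := M') (range K) (a := fun j : ℕ => (j : ZMod M'))
    (fun a ha b hb hab => by
      have := congrArg ZMod.val hab
      simp only [coe_range, Set.mem_Iio] at ha hb
      rwa [ZMod.val_cast_of_lt (by omega), ZMod.val_cast_of_lt (by omega)] at this)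
    fun j => c j * ch ((j : ZMod M) * s)
  simp only [norm_mul, norm_ch, mul_one] at h
  rw [← h]
  refine sum_congr rfl fun t _ => ?_
  congr 2
  refine sum_congr rfl fun j _ => ?_
  rw [mul_add, ch_add, ch_up hM]; ring

/-- the Fejer kernel seen along a progression -/
def kf (M' Q K : ℕ) (s : ZMod M) (t : ZMod M') : ℝ := Q * fej K (up M Q t + s)

theorem sum_kf (hM : M = Q * M') {K : ℕ} (h1 : 1 ≤ K) (hK : K ≤ M') (s : ZMod M) :
    ∑ t, kf M' Q K s t = 1 := by
  have h := sum_sq_prog hM hK (fun _ => 1) s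
  simp only [one_mul, norm_one, one_pow, sum_const, card_range, nsmul_eq_mul, mul_one] at h
  simp only [kf, fej, ← mul_sum, ← sum_div, h]
  have := Mpos M
  have e : (M : ℝ) = Q * M' := by exact_mod_cast hM
  field_simp
  linarith

theorem lip_kf (hM : M = Q * M') {K : ℕ} (h1 : 1 ≤ K) (hK : K ≤ M') (s ρ : ZMod M) :
    ∑ t, |kf M' Q K (s + ρ) t - kf M' Q K s t| ≤ 14 * K * ab ρ / M := by
  set D : ZMod M → ZMod M' → ℂ := fun s t => ∑ j ∈ range K, ch ((j : ZMod M) * (up M Q t + s))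
    with hD
  have hM0 := Mpos M
  have hM' := Mpos M'
  have hK0 : (0 : ℝ) < K := by positivity
  have e : (M : ℝ) = Q * M' := by exact_mod_cast hM
  have a1 : ∀ s, lp 2 (D s) = √(M' * K) := fun s => by
    have h := sum_sq_prog hM hK (fun _ => 1) s
    simp only [one_mul, norm_one, one_pow, sum_const, card_range, nsmul_eq_mul, mul_one] at h
    rw [lp_two, h]
  have a2 : lp 2 (fun t => D (s + ρ) t - D s t) ≤ √(M' * K) * (7 * K * ab ρ / M) := by
    refine lp_two_le (by positivity) ?_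
    have h := sum_sq_prog hM hK (fun j => ch ((j : ZMod M) * ρ) - 1) s
    have e2 : ∀ t, D (s + ρ) t - D s t =
        ∑ j ∈ range K, (ch ((j : ZMod M) * ρ) - 1) * ch ((j : ZMod M) * (up M Q t + s)) := by
      intro t
      simp only [hD, ← sum_sub_distrib]
      refine sum_congr rfl fun j _ => ?_
      rw [← add_assoc, mul_add _ _ ρ, ch_add]; ring
    simp only [e2, h]
    rw [mul_pow, Real.sq_sqrt (by positivity), mul_assoc]
    refine mul_le_mul_of_nonneg_left ?_ hM'.le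
    calc _ ≤ ∑ j ∈ range K, (7 * K * ab ρ / M : ℝ) ^ 2 := sum_le_sum fun j hj => by
          refine pow_le_pow_left₀ (norm_nonneg _) ((norm_ch_sub_one_le _).trans ?_) 2
          have h3 := ab_mul_le ρ j
          rw [Int.cast_natCast, mul_comm, Int.natAbs_natCast] at h3
          have h4 : ab ((j : ZMod M) * ρ) ≤ K * ab ρ :=
            h3.trans (by rw [mul_comm]; exact Nat.mul_le_mul_right _ (mem_range.1 hj).le)
          have h5 : (ab ((j : ZMod M) * ρ) : ℝ) ≤ K * ab ρ := by exact_mod_cast h4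
          rw [mul_assoc]; gcongr
      _ = _ := by simp
  have a3 : ∀ t, |kf M' Q K (s + ρ) t - kf M' Q K s t| ≤ Q / (M * K) *
      (‖D (s + ρ) t - D s t‖ * ‖D (s + ρ) t‖ + ‖D (s + ρ) t - D s t‖ * ‖D s t‖) := by
    intro t
    have e3 : kf M' Q K (s + ρ) t - kf M' Q K s t =
        Q / (M * K) * ((‖D (s + ρ) t‖ - ‖D s t‖) * (‖D (s + ρ) t‖ + ‖D s t‖)) := by
      simp only [kf, fej, hD]; ring
    rw [e3, abs_mul, abs_mul, abs_of_nonneg (by positivity), ← mul_add,
      abs_of_nonneg (a := ‖D (s + ρ) t‖ + ‖D s t‖) (by positivity)]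
    gcongr
    exact abs_norm_sub_norm_le _ _
  refine (sum_le_sum fun t _ => a3 t).trans ?_
  rw [← mul_sum, sum_add_distrib]
  have b1 := sum_mul_le_two (fun t => D (s + ρ) t - D s t) (D (s + ρ))
  have b2 := sum_mul_le_two (fun t => D (s + ρ) t - D s t) (D s)
  rw [a1] at b1 b2
  have b3 := mul_le_mul_of_nonneg_right a2 (Real.sqrt_nonneg (M' * K))
  have b4 : √((M' : ℝ) * K) * (7 * K * ab ρ / M) * √(M' * K) = M' * K * (7 * K * ab ρ / M) := by
    rw [mul_right_comm, Real.mul_self_sqrt (by positivity)]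
  calc _ ≤ (Q : ℝ) / (M * K) * (2 * (M' * K * (7 * K * ab ρ / M))) := by gcongr; linarith
    _ = (Q : ℝ) * M' / M * (14 * K * ab ρ / M) := by field_simp; ring
    _ = _ := by rw [← e, div_self hM0.ne', one_mul]

theorem tail_kf (hM : M = Q * M') {K : ℕ} (h1 : 1 ≤ K) (hK : K ≤ M') (s : ZMod M) {γ : ℕ}
    (hs : ab s * K ≤ 2 ^ γ * M) {R : ℕ} (hR : 1 ≤ R) :
    ∑ t ∈ univ.filter (fun t : ZMod M' => R ≤ ab t), kf M' Q K s t ≤
      2 ^ (γ + 2) * ((M' : ℝ) / K) / R := by
  have hM0 := Mpos M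
  have hM' := Mpos M'
  have hK0 : (0 : ℝ) < K := by positivity
  have hR0 : (0 : ℝ) < R := by positivity
  have e : (M : ℝ) = Q * M' := by exact_mod_cast hM
  have hQ : (0 : ℝ) < Q := by
    rw [e] at hM0
    exact pos_of_mul_pos_right (by rwa [mul_comm] at hM0) hM'.le
  have hγ : (1 : ℝ) ≤ 2 ^ γ := one_le_pow₀ one_le_two
  rcases le_or_gt (2 * ab s) (Q * R) with h | h
  · have a : ∀ t ∈ univ.filter (fun t : ZMod M' => R ≤ ab t),
        kf M' Q K s t ≤ (M' : ℝ) / K * ((ab t : ℝ) ^ 2)⁻¹ := by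
      intro t ht
      have ht' : R ≤ ab t := (mem_filter.1 ht).2
      have h2 : Q * ab t ≤ ab (up M Q t + s) + ab s := by
        rw [← ab_up hM]
        simpa using ab_sub_le (up M Q t + s) s
      have h3 : Q * R ≤ Q * ab t := Nat.mul_le_mul_left _ ht'
      have h4 : Q * ab t ≤ 2 * ab (up M Q t + s) := by omega
      have h5 : (Q : ℝ) * ab t ≤ 2 * ab (up M Q t + s) := by exact_mod_cast h4
      have h6 := fej_le h1 (up M Q t + s)
      have h7 := fej_nonneg K (up M Q t + s)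
      have h8 : (0 : ℝ) < ab t := by have : 0 < ab t := by omega
                                     exact_mod_cast this
      have h9 := pow_le_pow_left₀ (by positivity) h5 2
      rw [kf, ← div_eq_mul_inv, div_div, le_div_iff₀ (by positivity)]
      refine le_of_mul_le_mul_left ?_ hQ
      rw [← e]
      refine le_trans ?_ h6
      calc _ = K * ((Q : ℝ) * ab t) ^ 2 * fej K (up M Q t + s) := by ring
        _ ≤ K * (2 * (ab (up M Q t + s) : ℝ)) ^ 2 * fej K (up M Q t + s) := by gcongr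
        _ = _ := by ring
    refine (sum_le_sum a).trans ?_
    rw [← mul_sum]
    calc _ ≤ (M' : ℝ) / K * (4 / R) := by gcongr; exact sum_tail_le hR
      _ = 1 * (4 * ((M' : ℝ) / K) / R) := by ring
      _ ≤ 2 ^ γ * (4 * ((M' : ℝ) / K) / R) := by gcongr
      _ = _ := by ring
  · have a : ∑ t ∈ univ.filter (fun t : ZMod M' => R ≤ ab t), kf M' Q K s t ≤ 1 := by
      rw [← sum_kf hM h1 hK s]
      exact sum_le_sum_of_subset_of_nonneg (subset_univ _) fun t _ _ =>
        mul_nonneg hQ.le (fej_nonneg _ _)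
    refine a.trans ?_
    have h' : (Q : ℝ) * R ≤ 2 * ab s := by exact_mod_cast h.le
    have hs' : (ab s : ℝ) * K ≤ 2 ^ γ * M := by exact_mod_cast hs
    rw [one_le_div hR0, ← mul_div_assoc, le_div_iff₀ hK0]
    refine le_of_mul_le_mul_left ?_ hQ
    calc (Q : ℝ) * (R * K) = Q * R * K := by ring
      _ ≤ 2 * ab s * K := by gcongr
      _ ≤ 2 * (2 ^ γ * M) := by linarith
      _ ≤ 4 * (2 ^ γ * M) := by gcongr; norm_num
      _ = _ := by rw [e]; ring

theorem ker_kf (hM : M = Q * M') {L γ i₀ i₁ τ : ℕ} {K : ℕ → ℕ} {s : ℕ → ZMod M} (hL : 1 ≤ L)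
    (h1 : ∀ i ∈ Ico i₀ i₁, 1 ≤ K i) (h2 : ∀ i ∈ Ico i₀ i₁, K i ≤ M')
    (anti : ∀ i j, i₀ ≤ i → i ≤ j → j < i₁ → K j ≤ K i)
    (lac : ∀ i, i₀ ≤ i → i + L < i₁ → 2 * K (i + L) ≤ K i)
    (hs : ∀ i ∈ Ico i₀ i₁, ab (s i) * K i ≤ 2 ^ γ * M) (hτ : 2 ^ τ ∣ M')
    (top : ∀ i ∈ Ico i₀ i₁, 2 ^ (γ + 2) * M' ≤ 2 ^ τ * K i) :
    Ker L (γ + 2) i₀ i₁ τ (fun i => (M' : ℝ) / K i)
      (fun i t => if i ∈ Ico i₀ i₁ then kf M' Q (K i) (s i) t else 0) := by
  have hM' := Mpos M'
  have pos : ∀ i ∈ Ico i₀ i₁, (0 : ℝ) < K i := fun i hi => by exact_mod_cast h1 i hi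
  refine ⟨hL, fun i hi => by funext t; exact if_neg hi, fun i t => ?_, fun i hi => ?_,
    fun i hi => ?_, fun i hi R hR => ?_, fun i hi => ?_, fun i j a b c => ?_, fun i a b => ?_,
    hτ, fun i hi => ?_⟩
  · split_ifs
    · exact mul_nonneg (Nat.cast_nonneg _) (fej_nonneg _ _)
    · exact le_rfl
  · simp only [if_pos hi]; exact sum_kf hM (h1 i hi) (h2 i hi) _
  · simp only [if_pos hi]
    have h := lip_kf hM (h1 i hi) (h2 i hi) (s i) Q
    have e : ∀ t, kf M' Q (K i) (s i) (t + 1) = kf M' Q (K i) (s i + (Q : ZMod M)) t := fun t => by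
      rw [kf, kf, up_add hM, up_one hM]; congr 2; ring
    simp only [e]
    refine h.trans ?_
    have h3 : (ab (Q : ZMod M) : ℝ) ≤ Q := by exact_mod_cast ab_natCast_le Q
    have e' : (M : ℝ) = Q * M' := by exact_mod_cast hM
    have := pos i hi
    rw [div_le_iff₀ (Mpos M), e']
    calc _ ≤ 16 * (K i : ℝ) * Q := by gcongr; norm_num
      _ = _ := by field_simp
  · simp only [if_pos hi]; exact tail_kf hM (h1 i hi) (h2 i hi) _ (hs i hi) hR
  · rw [one_le_div (pos i hi)]; exact_mod_cast h2 i hi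
  · have : (K j : ℝ) ≤ K i := by exact_mod_cast anti i j a b c
    have := pos j (mem_Ico.2 ⟨by omega, c⟩)
    gcongr
  · have h3 : (2 : ℝ) * K (i + L) ≤ K i := by exact_mod_cast lac i a b
    have p1 := pos (i + L) (mem_Ico.2 ⟨by omega, b⟩)
    have p2 := pos i (mem_Ico.2 ⟨a, by omega⟩)
    rw [← mul_div_assoc, div_le_div_iff₀ p2 p1]
    nlinarith
  · rw [← mul_div_assoc, div_le_iff₀ (pos i hi)]
    exact_mod_cast top i hi

end prog

theorem lip_fej {K : ℕ} (h1 : 1 ≤ K) (hK : K ≤ M) (s ρ : ZMod M) :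
    ∑ t, |fej K (t + (s + ρ)) - fej K (t + s)| ≤ 14 * K * ab ρ / M := by
  simpa [kf, up_self] using lip_kf (M' := M) (Q := 1) (one_mul M).symm h1 hK s ρ

theorem tail_fej {K : ℕ} (h1 : 1 ≤ K) (hK : K ≤ M) {R : ℕ} (hR : 1 ≤ R) :
    ∑ t ∈ univ.filter (fun t : ZMod M => R ≤ ab t), fej K t ≤ 4 * ((M : ℝ) / K) / R := by
  have := tail_kf (M' := M) (Q := 1) (one_mul M).symm h1 hK 0 (γ := 0) (by simp [ab_zero]) hR
  simp only [kf, up_self, Nat.cast_one, one_mul, add_zero, zero_add] at this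
  norm_num at this ⊢
  exact this

end

end Pool.Agent.Lib.MP_10e396_an
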