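import Pool.Agent.Lib.MP_10e396_an.IWC

/-! Ionescu-Wainger for canonical fractions. -/

set_option autoImplicit false

namespace Pool.Agent.Lib.MP_10e396_an

open Finset

namespace IW

theorem marc (hL : StLayer) (r : ℕ) (hr : 2 ≤ r) : ∃ C : ℝ, 0 < C ∧
    ∀ (X Y : Type) [Fintype X] [Fintype Y] (Q : (Y → ℂ) → X → ℝ) (A B : ℝ), 0 ≤ A → 1 ≤ B →
      (∀ f x, 0 ≤ Q f x) → (∀ f g x, Q (f + g) x ≤ 2 * Q f x + 2 * Q g x) →
      (∀ f, ∑ x, Q f x ≤ A * ∑ y, ‖f y‖ ^ 2) →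
      (∀ f b, (∀ y, ‖f y‖ ≤ b) → ∀ x, Q f x ≤ B ^ 2 * b ^ 2) →
      ∀ f, ∑ x, Q f x ^ r ≤ C * A * (2 * B) ^ (2 * r) * ∑ y, ‖f y‖ ^ (2 * r) := by
  have r2 : (2 : ℝ) ≤ r := by exact_mod_cast hr
  obtain ⟨C, C0, k⟩ := hL ((2 * r : ℕ) : ℝ) (2 * r + 1) 2 two_pos.le (by push_cast; linarith)
    (by push_cast; linarith)
  refine ⟨C, C0, fun X Y _ _ Q A B A0 B1 Q0 Qa Q2 Qs f => ?_⟩
  have := k X Y (fun x => √(Q f x)) (fun y => 2 * B * ‖f y‖) A A0 (fun _ => by positivity)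
    (fun _ => by positivity) fun t t0 => by
      have s := Qs (fun y => if t < 2 * B * ‖f y‖ then 0 else f y) (t / (2 * B)) fun y => by
        split_ifs with c
        · simp only [norm_zero]
          positivity
        · rw [le_div_iff₀ (by positivity)]
          linarith
      rw [show B ^ 2 * (t / (2 * B)) ^ 2 = t ^ 2 / 4 by field_simp; ring] at s
      have a := Qa (fun y => if t < 2 * B * ‖f y‖ then f y else 0)
        fun y => if t < 2 * B * ‖f y‖ then 0 else f y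
      rw [show (fun y => if t < 2 * B * ‖f y‖ then f y else 0) +
        (fun y => if t < 2 * B * ‖f y‖ then 0 else f y) = f from funext fun y => by
          simp only [Pi.add_apply]
          split_ifs <;> simp] at a
      have b := mul_le_mul_of_nonneg_left (Q2 fun y => if t < 2 * B * ‖f y‖ then f y else 0)
        (show 0 ≤ 4 / t ^ 2 by positivity)
      rw [mul_left_comm, mul_sum, mul_sum] at b
      rw [card_filter, Nat.cast_sum]
      refine ((sum_le_sum fun x _ => ?_).trans b).trans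
        (mul_le_mul_of_nonneg_left (sum_le_sum fun y _ => ?_) A0)
      · split_ifs with c
        · rw [Real.lt_sqrt t0.le] at c
          rw [div_mul_eq_mul_div, le_div_iff₀ (by positivity)]
          push_cast
          linarith [s x, a x]
        · simpa using mul_nonneg (by positivity) (Q0 _ x)
      · split_ifs with c
        · rw [min_eq_right (Real.rpow_le_rpow_of_exponent_le ((one_le_div t0).2 c.le) (by linarith)),
            Real.rpow_two, div_pow, div_mul_eq_mul_div]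
          refine div_le_div_of_nonneg_right ?_ (by positivity)
          nlinarith [mul_nonneg (sq_nonneg ‖f y‖) (show 0 ≤ B ^ 2 - 1 by nlinarith)]
        · simp only [norm_zero, ne_eq, OfNat.ofNat_ne_zero, not_false_eq_true, zero_pow, mul_zero]
          positivity
  simp only [Real.rpow_natCast, mul_pow _ ‖f _‖, ← mul_sum, ← mul_assoc] at this
  simpa only [pow_mul (√_), Real.sq_sqrt (Q0 _ _)] using this

theorem lp_nat {X : Type} [Fintype X] {n : ℕ} (hn : n ≠ 0) {Z : ℝ} (hZ : 0 ≤ Z) (f g : X → ℂ) :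
    lp n g ≤ Z * lp n f ↔ ∑ x, ‖g x‖ ^ n ≤ Z ^ n * ∑ x, ‖f x‖ ^ n := by
  simp only [lp, Real.rpow_natCast]
  rw [← pow_le_pow_iff_left₀ (by positivity) (by positivity) hn, mul_pow,
    Real.rpow_inv_natCast_pow (by positivity) hn, Real.rpow_inv_natCast_pow (by positivity) hn]

theorem even (hC : StChaos) (hL : StLayer) (r : ℕ) (hr : 2 ≤ r) (ε : ℝ) (hε : 0 < ε) :
    ∃ C : ℝ, 0 < C ∧ ∀ (M : ℕ) [NeZero M] (H K : ℕ) (κ : ZMod M → ℂ) (A : ℝ), 1 ≤ H → 1 ≤ K →
      K * (2 * H) ^ (2 * r) ≤ M → Band K κ → 0 ≤ A →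
      (∀ f : ZMod M → ℂ, lp (2 * r : ℕ) (conv κ f) ≤ A * lp (2 * r : ℕ) f) →
      ∀ f, lp (2 * r : ℕ) (TT (Sg M H) κ f) ≤ C * (H : ℝ) ^ ε * A * lp (2 * r : ℕ) f := by
  obtain ⟨C₁, c1, k1⟩ := hC r (by omega)
  obtain ⟨C₂, c2, k2⟩ := marc hL r hr
  obtain ⟨C₃, c3, k3⟩ := rankin (ε / 4) (by positivity)
  obtain ⟨C₄, c4, k4⟩ := omega_le (C₁ * 2 * C₃ ^ (4 * r)) (r * ε)
    (one_le_mul_of_one_le_of_one_le (by linarith) (one_le_pow₀ c3)) (by positivity)
  refine ⟨4 * max 1 (C₁ * C₂ * 3 * C₄), by positivity, fun M _ H K κ A hH hK hM hB A0 hκ f => ?_⟩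
  have r0 : 2 * r ≠ 0 := by omega
  have H1 : (1 : ℝ) ≤ H := by exact_mod_cast hH
  have m1 : 2 * r * K * H ^ (2 * r) < M := by
    refine lt_of_lt_of_le ?_ hM
    rw [mul_pow, ← mul_assoc, mul_comm K]
    gcongr
    exact Nat.lt_two_pow_self
  have m2 : 3 * K * H ^ 3 < M := lt_of_le_of_lt (by gcongr <;> omega) m1
  have m3 : 3 * K ≤ M := (Nat.le_mul_of_pos_right _ (by positivity)).trans m2.le
  obtain ⟨θ₀, t0, t1⟩ := exists_max_image (Sg M H) (fun θ => (sp θ).card) ⟨0, by simpa [Sg]⟩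
  have hD : (C₁ * 2 * C₃ ^ (4 * r)) ^ (sp θ₀).card ≤ C₄ * (H : ℝ) ^ (r * ε) :=
    (pow_le_pow_right₀ (one_le_mul_of_one_le_of_one_le (by linarith) (one_le_pow₀ c3))
      (sp_card θ₀)).trans ((k4 _ (ord_pos θ₀)).trans (by gcongr; exact (mem_filter.1 t0).2))
  generalize (sp θ₀).card = D at t1 hD
  have Hε : (1 : ℝ) ≤ (H : ℝ) ^ (ε / 4) := Real.one_le_rpow H1 (by positivity)
  have B1 : 1 ≤ C₃ ^ D * (H : ℝ) ^ (ε / 4) := one_le_mul_of_one_le_of_one_le (one_le_pow₀ c3) Hε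
  have q := k2 _ _ (Qf (M := M) H K) (3 * 2 ^ D * (M * Fintype.card (PP M → ZMod M)))
    (2 * (C₃ ^ D * (H : ℝ) ^ (ε / 4)) ^ 2) (by positivity) (by nlinarith) (fun _ => Qf_nonneg)
    (fun _ => Qf_add) (fun _ => Qf_l2 hK hH m2 t1) (fun g b hb w => by
      rcases lt_or_ge D w.1.card with c | c
      · rw [Qf_zero t1 c]
        positivity
      refine (Qf_sup hK m2 hb w).trans (mul_le_mul_of_nonneg_right ?_ (by positivity))
      have := pow_le_pow_left₀ (by positivity) ((k3 M w.1 H).trans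
        (mul_le_mul_of_nonneg_right (pow_le_pow_right₀ c3 c) (by positivity))) 4
      nlinarith [pow_nonneg (zero_le_one.trans B1) 4]) f
  have e1 : M * ∑ x, ‖TT (Sg M H) κ f x‖ ^ (2 * r) ≤
      A ^ (2 * r) * ∑ x, ∑ y, ‖Ad (Sg M H) (pk K) f x y‖ ^ (2 * r) := by
    rw [sum_comm, mul_sum _ _ (A ^ (2 * r))]
    refine (Cl.exact_norm (Ad_mem hB f) r m1).trans_le (sum_le_sum fun y _ => ?_)
    simp only [Ad_conv hK m3 hB]
    exact (lp_nat r0 A0 _ _).1 (hκ _)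
  have e2 : Fintype.card (PP M → ZMod M) * ∑ x, ∑ y, ‖Ad (Sg M H) (pk K) f x y‖ ^ (2 * r) ≤
      C₁ ^ (D + 1) * ∑ w, Qf (M := M) H K f w ^ r := by
    simp only [Fintype.sum_prod_type]
    rw [sum_comm (f := fun T x => ∑ y, ∑ a, Qf H K f (T, x, y, a) ^ r), mul_sum, mul_sum]
    refine sum_le_sum fun x _ => ?_
    rw [sum_comm (f := fun T y => ∑ a, Qf H K f (T, x, y, a) ^ r), mul_sum _ _ (C₁ ^ (D + 1)),
      ← nsmul_eq_mul, ← card_univ, ← sum_const, sum_congr rfl fun a _ => (Equiv.sum_comp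
        (Equiv.addRight (sh univ a)) fun y => ‖Ad (Sg M H) (pk K) f x y‖ ^ (2 * r)).symm, sum_comm]
    refine sum_le_sum fun y _ => ?_
    simp only [Equiv.coe_addRight, ← Ph_sum]
    exact k1 D (PP M) (ZMod M) ℂ (Ph H K f x y) (fun S => Ph_zero t1) (fun S p a => Ph_out a)
      fun S p a => Ph_in a
  rw [lp_nat r0 (by positivity)]
  have N0 : (0 : ℝ) < M * Fintype.card (PP M → ZMod M) := by
    have := NeZero.pos M
    positivity
  refine le_of_mul_le_mul_left ?_ N0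
  have e3 := (mul_le_mul_of_nonneg_left e1 (Nat.cast_nonneg (Fintype.card (PP M → ZMod M)))).trans
    ((mul_left_comm _ _ _).trans_le (mul_le_mul_of_nonneg_left (e2.trans
      (mul_le_mul_of_nonneg_left q (by positivity))) (by positivity)))
  have h1 : ((H : ℝ) ^ (ε / 4)) ^ (4 * r) = (H : ℝ) ^ (r * ε) := by
    rw [← Real.rpow_mul_natCast (by positivity)]
    congr 1
    push_cast
    ring
  have h2 : ((H : ℝ) ^ ε) ^ (2 * r) = (H : ℝ) ^ (r * ε) * (H : ℝ) ^ (r * ε) := by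
    rw [← Real.rpow_mul_natCast (by positivity), ← Real.rpow_add (by positivity)]
    congr 1
    push_cast
    ring
  have h3 : C₁ * C₂ * 3 * C₄ ≤ max 1 (C₁ * C₂ * 3 * C₄) ^ (2 * r) :=
    (le_max_right _ _).trans (le_self_pow₀ (le_max_left _ _) r0)
  generalize (Fintype.card (PP M → ZMod M) : ℝ) = N at *
  have S0 : 0 ≤ ∑ y, ‖f y‖ ^ (2 * r) := by positivity
  calc _ = _ := by ring
    _ ≤ _ := e3
    _ = M * N * (4 ^ (2 * r) * (C₁ * C₂ * 3 * (C₁ * 2 * C₃ ^ (4 * r)) ^ D) *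
        ((H : ℝ) ^ (ε / 4)) ^ (4 * r) * A ^ (2 * r) * ∑ y, ‖f y‖ ^ (2 * r)) := by
      rw [show (4 : ℝ) = 2 * 2 by norm_num]
      simp only [mul_pow, ← pow_mul]
      ring
    _ ≤ M * N * (4 ^ (2 * r) * (C₁ * C₂ * 3 * (C₄ * (H : ℝ) ^ (r * ε))) *
        ((H : ℝ) ^ (ε / 4)) ^ (4 * r) * A ^ (2 * r) * ∑ y, ‖f y‖ ^ (2 * r)) := by gcongr
    _ = M * N * (4 ^ (2 * r) * (C₁ * C₂ * 3 * C₄) * ((H : ℝ) ^ ε) ^ (2 * r) * A ^ (2 * r) *
        ∑ y, ‖f y‖ ^ (2 * r)) := by rw [h1, h2]; ring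
    _ ≤ _ := by
      simp only [mul_pow]
      gcongr

end IW

open IW

theorem stIW (hC : StChaos) (hL : StLayer) (hD : StDual) (hR : StRT) : StIW := by
  intro p ε hp hε
  obtain ⟨r, hr⟩ := exists_nat_ge (max 2 (max p (p / (p - 1))))
  simp only [max_le_iff] at hr
  obtain ⟨C, C0, k⟩ := even hC hL r (by exact_mod_cast hr.1) ε hε
  have r1 : (1 : ℝ) < (2 * r : ℕ) := by push_cast; linarith [hr.1]
  refine ⟨(2 * r : ℕ), 2 * r, C, r1, C0, fun M _ H K κ A hH hK hM hB hκ => ?_⟩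
  have A0 : 0 ≤ A := by
    have := NeZero.pos M
    refine nonneg_of_mul_nonneg_left (le_trans ?_ (hκ 1)) (?_ : 0 < lp (2 * r : ℕ) (1 : ZMod M → ℂ))
    · unfold lp
      positivity
    · simp only [lp, Pi.one_apply, norm_one, Real.one_rpow, sum_const, card_univ, ZMod.card,
        nsmul_eq_mul, mul_one]
      positivity
  have e := k M H K (cx κ) A hH hK hM hB A0 hκ
  have hq := Real.HolderConjugate.conjExponent r1
  refine hR _ _ (Real.conjExponent (2 * r : ℕ)) (2 * r : ℕ) p _ ⟨fun f g => ?_, fun c f => ?_⟩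
    hq.symm.lt ?_ (by push_cast; linarith [hr.1, hr.2.1]) ?_ e
  · funext x
    simp [TT, Ad, mul_add, sum_add_distrib]
  · funext x
    simp [TT, Ad, mul_sum, mul_left_comm]
  · have := (div_le_iff₀ (by linarith)).1 hr.2.2
    rw [Real.conjExponent, div_le_iff₀ (by linarith)]
    push_cast
    nlinarith [hr.1]
  have ln : ∀ (q : ℝ) (g : ZMod M → ℂ), lp q (fun x => g (-x)) = lp q g := fun q g =>
    congrArg (· ^ q⁻¹) (Equiv.sum_comp (Equiv.neg _) fun x => ‖g x‖ ^ q)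
  refine hD _ _ (fun g z => TT (Sg M H) (cx κ) (fun x => g (-x)) (-z)) _ (2 * r : ℕ) _ hq.symm.lt
    hq.symm.inv_add_inv_eq_one (by positivity) (fun f g => ?_) fun g => ?_
  · simp only [TT, Ad, sum_mul, mul_sum]
    rw [sum_comm, sum_comm (s := univ) (t := Sg M H)]
    refine sum_congr rfl fun θ _ => ?_
    rw [sum_comm]
    refine sum_congr rfl fun z _ => ?_
    rw [← Equiv.sum_comp (Equiv.neg _)]
    refine sum_congr rfl fun x _ => ?_
    simp only [Equiv.neg_apply, show -x - z = -z - x by ring]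
    ring
  · rw [ln _ (TT (Sg M H) (cx κ) fun x => g (-x)), ← ln _ g]
    exact e _

end Pool.Agent.Lib.MP_10e396_an
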