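import Pool.Agent.Lib.MP_10e396_an.Spec

/-! Ionescu-Wainger, part A: characters, exact sampling, the plateau kernel, Bessel. -/

set_option autoImplicit false

namespace Pool.Agent.Lib.MP_10e396_an.IW

open Finset ComplexConjugate

noncomputable section

variable {M : ℕ} [NeZero M]

theorem ch_add (x y : ZMod M) : ch (x + y) = ch x * ch y := AddChar.map_add_eq_mul _ _ _

@[simp] theorem ch_zero : ch (0 : ZMod M) = 1 := AddChar.map_zero_eq_one _

@[simp] theorem ch_norm (x : ZMod M) : ‖ch x‖ = 1 := AddChar.norm_apply _ _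

theorem ch_conj (x : ZMod M) : conj (ch x) = ch (-x) := (AddChar.map_neg_eq_conj _ _).symm

theorem sum_ch (ξ : ZMod M) : ∑ x, ch (ξ * x) = if ξ = 0 then (M : ℂ) else 0 := by
  have := AddChar.sum_mulShift ξ (ZMod.isPrimitive_stdAddChar M)
  simpa [ch, mul_comm] using this

theorem sum_ch' (ξ c : ZMod M) : ∑ x, ch (c + ξ * x) = if ξ = 0 then ch c * M else 0 := by
  simp only [ch_add, ← mul_sum, sum_ch]
  split_ifs <;> simp

theorem M_ne : (M : ℂ) ≠ 0 := by exact_mod_cast NeZero.ne M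

theorem ord_pos (θ : ZMod M) : 0 < addOrderOf θ := addOrderOf_pos θ

theorem ord_add (a b : ZMod M) : addOrderOf (a + b) ≤ addOrderOf a * addOrderOf b :=
  Nat.le_of_dvd (mul_pos (ord_pos a) (ord_pos b))
    (AddCommute.all a b).addOrderOf_add_dvd_mul_addOrderOf

omit [NeZero M] in
theorem ord_dvd (θ : ZMod M) (n : ℕ) : addOrderOf θ ∣ n ↔ θ * n = 0 := by
  rw [addOrderOf_dvd_iff_nsmul_eq_zero, nsmul_eq_mul, mul_comm]

omit [NeZero M] in
theorem ab_add (a b : ZMod M) : ab (a + b) ≤ ab a + ab b :=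
  (ZMod.natAbs_valMinAbs_add_le a b).trans (Int.natAbs_add_le _ _)

omit [NeZero M] in
theorem ab_neg (a : ZMod M) : ab (-a) = ab a := ZMod.natAbs_valMinAbs_neg a

theorem ab_nat (j : ℕ) : ab (j : ZMod M) ≤ j := by
  rw [ab, ZMod.valMinAbs_natAbs_eq_min, ZMod.val_natCast]
  exact (min_le_left _ _).trans (Nat.mod_le _ _)

theorem sep {ξ : ZMod M} {B q : ℕ} (h1 : ab ξ ≤ B) (h2 : addOrderOf ξ ≤ q) (h : B * q < M) :
    ξ = 0 := by
  have a : ((ξ.valMinAbs * addOrderOf ξ : ℤ) : ZMod M) = 0 := by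
    push_cast
    rw [← ord_dvd]
  rw [ZMod.intCast_zmod_eq_zero_iff_dvd, ← Int.dvd_natAbs, Int.natAbs_mul, Int.natAbs_natCast,
    Int.natCast_dvd_natCast] at a
  have b := Nat.eq_zero_of_dvd_of_lt a ((Nat.mul_le_mul h1 h2).trans_lt h)
  simpa [(ord_pos ξ).ne'] using b

/-- band limited in the first variable, of bounded height in the second -/
def Cl (M : ℕ) [NeZero M] (B q : ℕ) : Submodule ℂ (ZMod M × ZMod M → ℂ) :=
  Submodule.span ℂ
    {Φ | ∃ ξ Θ, ab ξ ≤ B ∧ addOrderOf Θ ≤ q ∧ Φ = fun z => ch (ξ * z.1 + Θ * z.2)}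

variable {B B' q q' : ℕ} {Φ Ψ : ZMod M × ZMod M → ℂ}

theorem Cl.mul (h : Φ ∈ Cl M B q) (h' : Ψ ∈ Cl M B' q') : Φ * Ψ ∈ Cl M (B + B') (q * q') := by
  have := Submodule.mul_mem_mul h h'
  rw [Cl, Cl, Submodule.span_mul_span] at this
  refine Submodule.span_mono ?_ this
  rintro _ ⟨_, ⟨ξ, Θ, a, b, rfl⟩, _, ⟨ξ', Θ', a', b', rfl⟩, rfl⟩
  refine ⟨ξ + ξ', Θ + Θ', (ab_add _ _).trans (add_le_add a a'),
    (ord_add _ _).trans (Nat.mul_le_mul b b'), funext fun z => ?_⟩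
  simp only [Pi.mul_apply, ← ch_add]
  congr 1
  ring

theorem Cl.star (h : Φ ∈ Cl M B q) : star Φ ∈ Cl M B q := by
  induction h using Submodule.span_induction with
  | mem _ h =>
    obtain ⟨ξ, Θ, a, b, rfl⟩ := h
    refine Submodule.subset_span ⟨-ξ, -Θ, by rwa [ab_neg], by rwa [addOrderOf_neg],
      funext fun z => ?_⟩
    simp only [Pi.star_apply, RCLike.star_def, ch_conj]
    congr 1
    ring
  | zero => simp
  | add _ _ _ _ a b => simpa using add_mem a b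
  | smul c _ _ a => simpa using Submodule.smul_mem _ (conj c) a

theorem Cl.pow (h : Φ ∈ Cl M B q) (n : ℕ) : Φ ^ n ∈ Cl M (n * B) (q ^ n) := by
  induction n with
  | zero => exact Submodule.subset_span ⟨0, 0, by simp [ab], by simp, funext fun z => by simp⟩
  | succ n ih => simpa [pow_succ, add_mul] using Cl.mul ih h

theorem Cl.exact (h : Φ ∈ Cl M B q) (hM : B * q < M) :
    M * ∑ x, Φ (x, x) = ∑ y, ∑ x, Φ (x, y) := by
  induction h using Submodule.span_induction with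
  | mem _ h =>
    obtain ⟨ξ, Θ, a, b, rfl⟩ := h
    simp only [← add_mul, sum_ch]
    simp only [ch_add, ← sum_mul, ← mul_sum, sum_ch]
    by_cases c : ξ = 0
    · simp [c]
    · have : ξ + Θ ≠ 0 := fun e => c (sep a (by rwa [eq_neg_of_add_eq_zero_left e, addOrderOf_neg]) hM)
      simp [c, this]
  | zero => simp
  | add _ _ _ _ a b => simp [sum_add_distrib, mul_add, a, b]
  | smul c _ _ a => simp only [Pi.smul_apply, smul_eq_mul, ← mul_sum, ← a]; ring

theorem Cl.exact_norm (h : Φ ∈ Cl M B q) (r : ℕ) (hM : 2 * r * B * q ^ (2 * r) < M) :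
    M * ∑ x, ‖Φ (x, x)‖ ^ (2 * r) = ∑ y, ∑ x, ‖Φ (x, y)‖ ^ (2 * r) := by
  have := Cl.exact (Cl.pow (Cl.mul h (Cl.star h)) r) (hM.trans_eq' (by ring))
  simp only [Pi.pow_apply, Pi.mul_apply, Pi.star_apply, RCLike.star_def, Complex.mul_conj',
    ← pow_mul] at this
  exact_mod_cast this

theorem inv_ft (κ : ZMod M → ℂ) (t : ZMod M) : κ t = (M : ℂ)⁻¹ * ∑ ξ, ft κ ξ * ch (ξ * t) := by
  simp only [ft, sum_mul, mul_assoc, ← ch_add]
  rw [sum_comm]
  have : ∀ x ξ : ZMod M, -(ξ * x) + ξ * t = (t - x) * ξ := fun x ξ => by ring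
  simp [this, ← mul_sum, sum_ch, sub_eq_zero, mul_comm (κ t), ← mul_assoc, inv_mul_cancel₀ M_ne]

theorem Ad_mem {K H : ℕ} {κ : ZMod M → ℂ} (h : Band K κ) (f : ZMod M → ℂ) :
    (fun z : ZMod M × ZMod M => Ad (Sg M H) κ f z.1 z.2) ∈ Cl M K H := by
  have : (fun z : ZMod M × ZMod M => Ad (Sg M H) κ f z.1 z.2) = ∑ θ ∈ Sg M H, ∑ w, ∑ ξ,
      ((M : ℂ)⁻¹ * ft κ ξ * ch (-((ξ + θ) * w)) * f w) •
        fun z : ZMod M × ZMod M => ch (ξ * z.1 + θ * z.2) := by
    funext z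
    simp only [Ad, Finset.sum_apply, Pi.smul_apply, smul_eq_mul]
    refine sum_congr rfl fun θ _ => sum_congr rfl fun w _ => ?_
    rw [inv_ft κ, mul_sum, sum_mul, sum_mul]
    refine sum_congr rfl fun ξ _ => ?_
    have : ch (ξ * (z.1 - w)) * ch (θ * (z.2 - w)) =
        ch (-((ξ + θ) * w)) * ch (ξ * z.1 + θ * z.2) := by
      simp only [← ch_add]
      congr 1
      ring
    linear_combination (M : ℂ)⁻¹ * ft κ ξ * f w * this
  rw [this]
  refine sum_mem fun θ a => sum_mem fun w _ => sum_mem fun ξ _ => ?_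
  by_cases c : ft κ ξ = 0
  · simp [c]
  · exact Submodule.smul_mem _ _ (Submodule.subset_span ⟨ξ, θ, (h ξ c).le, (mem_filter.1 a).2, rfl⟩)

/-- Dirichlet kernel -/
def dk (n : ℕ) (t : ZMod M) : ℂ := ∑ j ∈ range n, ch ((j : ZMod M) * t)

/-- plateau kernel -/
def pk (K : ℕ) (t : ZMod M) : ℂ :=
  ((M : ℂ) * K)⁻¹ * (ch (-((K : ZMod M) * t)) * dk (3 * K) t * conj (dk K t))

omit [NeZero M] in
theorem cast_inj {i j : ℕ} (hi : i < M) (hj : j < M) : (i : ZMod M) = j ↔ i = j := by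
  rw [ZMod.natCast_eq_natCast_iff', Nat.mod_eq_of_lt hi, Nat.mod_eq_of_lt hj]

theorem ft_pk {K : ℕ} (hK : 1 ≤ K) (hM : 3 * K ≤ M) {ξ : ZMod M} (h : ab ξ < K) :
    ft (pk K) ξ = 1 := by
  have e : ∀ t : ZMod M, pk K t * ch (-(ξ * t)) = ((M : ℂ) * K)⁻¹ * ∑ j ∈ range K,
      ∑ i ∈ range (3 * K), ch (((i : ZMod M) - ((K : ZMod M) + (j : ZMod M) + ξ)) * t) := fun t => by
    simp only [pk, dk, map_sum, ch_conj, mul_sum, sum_mul, mul_assoc, ← ch_add]
    refine sum_congr rfl fun j _ => sum_congr rfl fun i _ => ?_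
    congr 2
    ring
  have k : ∀ j ∈ range K, ∑ t : ZMod M, ∑ i ∈ range (3 * K),
      ch (((i : ZMod M) - ((K : ZMod M) + (j : ZMod M) + ξ)) * t) = M := fun j hj => by
    rw [mem_range] at hj
    rw [ab] at h
    obtain ⟨i₀, e⟩ := Int.eq_ofNat_of_zero_le (a := K + j + ξ.valMinAbs) (by omega)
    have : (K : ZMod M) + (j : ZMod M) + ξ = i₀ := by simpa using congrArg (Int.cast : ℤ → ZMod M) e
    rw [sum_comm, this, sum_eq_single_of_mem i₀ (mem_range.2 (by omega))]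
    · simp
    · intro i a b
      rw [sum_ch, if_neg]
      rwa [sub_eq_zero, cast_inj (by have := mem_range.1 a; omega) (by omega)]
  simp only [ft, e, ← mul_sum]
  rw [sum_comm, sum_congr rfl k, sum_const, card_range, nsmul_eq_mul, mul_comm (K : ℂ),
    inv_mul_cancel₀ (mul_ne_zero M_ne (by exact_mod_cast (by omega)))]

theorem Ad_conv {K : ℕ} (hK : 1 ≤ K) (hM : 3 * K ≤ M) {κ : ZMod M → ℂ} (h : Band K κ)
    (A : Finset (ZMod M)) (f : ZMod M → ℂ) (x y : ZMod M) :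
    Ad A κ f x y = conv κ (fun u => Ad A (pk K) f u y) x := by
  have e : ∀ t, ∑ s, κ (t - s) * pk K s = κ t := fun t => by
    simp only [inv_ft κ (t - _), mul_assoc, ← mul_sum, sum_mul]
    rw [inv_ft κ t, sum_comm]
    refine congrArg _ (sum_congr rfl fun ξ _ => ?_)
    by_cases c : ft κ ξ = 0
    · simp [c]
    · have := ft_pk hK hM (h ξ c)
      simp only [sub_eq_add_neg, mul_add, ch_add, mul_assoc, ← mul_sum, mul_neg]
      rw [ft] at this
      simp only [mul_comm (ch _) (pk K _), this, mul_one]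
  simp only [Ad, conv, smul_eq_mul, mul_sum]
  rw [sum_comm (s := univ)]
  refine sum_congr rfl fun θ _ => ?_
  rw [sum_comm]
  refine sum_congr rfl fun z _ => ?_
  simp only [← mul_assoc, ← sum_mul]
  rw [← e, ← Equiv.sum_comp (Equiv.addRight z) fun u => κ (x - u) * pk K (u - z)]
  simp [sub_add_eq_sub_sub, sub_right_comm]

theorem kill {n q : ℕ} (hM : n * q < M) {γ : ZMod M} (hγ : addOrderOf γ ≤ q) (x y : ZMod M) :
    ∑ z, ((‖dk n (x - z)‖ ^ 2 : ℝ) : ℂ) * ch (γ * (y - z)) = if γ = 0 then (M * n : ℂ) else 0 := by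
  have hn : n < M := lt_of_le_of_lt (Nat.le_mul_of_pos_right _ ((ord_pos γ).trans_le hγ)) hM
  have e : ∀ z, ((‖dk n (x - z)‖ ^ 2 : ℝ) : ℂ) * ch (γ * (y - z)) = ∑ i ∈ range n, ∑ j ∈ range n,
      ch ((((i : ZMod M) - (j : ZMod M)) * x + γ * y) + ((j : ZMod M) - (i : ZMod M) - γ) * z) := fun z => by
    rw [Complex.ofReal_pow, ← Complex.mul_conj']
    simp only [dk, map_sum, ch_conj, mul_sum, sum_mul, ← ch_add]
    rw [sum_comm]
    refine sum_congr rfl fun j _ => sum_congr rfl fun i _ => ?_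
    congr 1
    ring
  simp only [e]
  rw [sum_comm, sum_congr rfl fun i _ => sum_comm]
  simp only [sum_ch']
  split_ifs with c
  · rw [sum_congr rfl (g := fun _ => (M : ℂ)), sum_const, card_range, nsmul_eq_mul, mul_comm]
    intro i a
    rw [sum_eq_single_of_mem i a]
    · simp [c]
    · intro j b d
      rw [if_neg]
      rwa [c, sub_zero, sub_eq_zero, cast_inj ((mem_range.1 b).trans hn) ((mem_range.1 a).trans hn)]
  · refine sum_eq_zero fun i a => sum_eq_zero fun j b => if_neg fun d => c (sep ?_ hγ hM)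
    rw [mem_range] at a b
    rw [sub_eq_zero] at d
    rcases le_total i j with l | l
    · rw [← d, ← Nat.cast_sub l]
      exact (ab_nat _).trans (by omega)
    · rw [← d, ← ab_neg, neg_sub, ← Nat.cast_sub l]
      exact (ab_nat _).trans (by omega)

theorem bessel {Z I : Type} [Fintype Z] [DecidableEq I] (s : Finset I) (w : Z → ℝ)
    (hw : ∀ z, 0 ≤ w z) (e : I → Z → ℂ) (u : Z → ℂ)
    (h : ∀ i ∈ s, ∀ j ∈ s, ∑ z, w z * (conj (e i z) * e j z) = if i = j then 1 else 0) :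
    ∑ i ∈ s, ‖∑ z, w z * (conj (e i z) * u z)‖ ^ 2 ≤ ∑ z, w z * ‖u z‖ ^ 2 := by
  have sq : ∀ z, ((√(w z) : ℝ) : ℂ) * (√(w z) : ℝ) = w z := fun z => by
    exact_mod_cast Real.mul_self_sqrt (hw z)
  have inn : ∀ a b : Z → ℂ, inner ℂ (WithLp.toLp 2 fun z => (√(w z) : ℝ) * a z : EuclideanSpace ℂ Z)
      (WithLp.toLp 2 fun z => (√(w z) : ℝ) * b z) = ∑ z, w z * (conj (a z) * b z) := fun a b => by
    simp only [PiLp.inner_apply, RCLike.inner_apply, map_mul, Complex.conj_ofReal, ← sq]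
    exact sum_congr rfl fun z _ => by ring
  have o : Orthonormal ℂ fun i : s =>
      (WithLp.toLp 2 fun z => (√(w z) : ℝ) * e i z : EuclideanSpace ℂ Z) :=
    orthonormal_iff_ite.2 fun i j => by
      rw [inn, h i i.2 j j.2]
      exact if_congr Subtype.ext_iff.symm rfl rfl
  have := o.sum_inner_products_le (s := univ) (WithLp.toLp 2 fun z => (√(w z) : ℝ) * u z)
  simp only [inn, EuclideanSpace.norm_sq_eq, norm_mul, mul_pow, Complex.norm_real, Real.norm_eq_abs,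
    sq_abs, Real.sq_sqrt (hw _)] at this
  rwa [sum_coe_sort s fun i => ‖∑ z, w z * (conj (e i z) * u z)‖ ^ 2] at this

/-- the kernel of multiplication by `d` -/
def kr (M : ℕ) [NeZero M] (d : ℕ) : Finset (ZMod M) := univ.filter fun α => α * d = 0

theorem wt_ex (d : ℕ) (t : ZMod M) : ∃ w : ℝ, 0 ≤ w ∧ ∑ α ∈ kr M d, ch (α * t) = w := by
  have : (∑ α ∈ kr M d, ch (α * t)) * ∑ α ∈ kr M d, ch (α * t) =
      (kr M d).card * ∑ α ∈ kr M d, ch (α * t) := by
    rw [sum_mul, sum_congr rfl (g := fun _ => ∑ α ∈ kr M d, ch (α * t)), sum_const, nsmul_eq_mul]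
    intro α a
    rw [mul_sum]
    simp only [kr, mem_filter, mem_univ, true_and] at a
    refine sum_nbij' (fun β => α + β) (fun β => β - α) ?_ ?_ ?_ ?_ ?_ <;>
      simp +contextual [kr, add_mul, sub_mul, a, ch_add]
  rcases mul_eq_mul_right_iff.1 this with c | c
  · exact ⟨(kr M d).card, by positivity, by simpa using c⟩
  · exact ⟨0, le_rfl, by simpa using c⟩

theorem bes {K H d : ℕ} (hK : 1 ≤ K) (hM : 3 * K * H ^ 3 < M) (d0 : 0 < d) (dH : d ≤ H)
    (s : Finset (ZMod M)) (hs : ∀ β ∈ s, addOrderOf β ≤ H)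
    (hd : ∀ β ∈ s, ∀ β' ∈ s, (β - β') * d = 0 → β = β') (f : ZMod M → ℂ) (x y : ZMod M) :
    ∃ w : ZMod M → ℝ, (∀ z, 0 ≤ w z) ∧ ∑ z, w z * ‖dk (3 * K) (x - z)‖ ^ 2 = 3 ∧
      (d = 1 → ∀ z, w z = ((M : ℝ) * K)⁻¹) ∧
      ∑ β ∈ s, ‖∑ α ∈ kr M d, ∑ z, pk K (x - z) * ch ((α + β) * (y - z)) * f z‖ ^ 2 ≤
        ∑ z, w z * ‖dk (3 * K) (x - z)‖ ^ 2 * ‖f z‖ ^ 2 := by
  choose w w0 w1 using wt_ex (M := M) d
  have c0 : ((M : ℂ) * K) ≠ 0 := mul_ne_zero M_ne (by exact_mod_cast (by omega))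
  have ok : ∀ α ∈ kr M d, addOrderOf α ≤ H := fun α a =>
    (Nat.le_of_dvd d0 ((ord_dvd α d).2 (mem_filter.1 a).2)).trans dH
  have key : ∀ n ≤ 3 * K, ∀ γ : ZMod M, addOrderOf γ ≤ H * H →
      ∑ z, ((((M : ℝ) * K)⁻¹ * w (y - z) : ℝ) : ℂ) * (((‖dk n (x - z)‖ ^ 2 : ℝ) : ℂ) * ch (γ * (y - z))) =
      if γ * d = 0 then ((M : ℂ) * K)⁻¹ * (M * n) else 0 := fun n hn γ hγ => by
    have : ∀ α ∈ kr M d, ∑ z, ((‖dk n (x - z)‖ ^ 2 : ℝ) : ℂ) * ch ((α + γ) * (y - z)) =
        if -γ = α then (M * n : ℂ) else 0 := fun α a => by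
      rw [kill ((Nat.mul_le_mul_right _ hn).trans_lt hM) ((ord_add _ _).trans
        ((Nat.mul_le_mul (ok α a) hγ).trans_eq (by ring)))]
      simp only [add_eq_zero_iff_eq_neg, eq_comm]
    have e := sum_congr rfl this
    rw [sum_ite_eq, sum_comm] at e
    simp only [kr, mem_filter, mem_univ, true_and, neg_mul, neg_eq_zero] at e
    rw [← mul_zero ((M : ℂ) * K)⁻¹, ← mul_ite, ← e, mul_sum]
    refine sum_congr rfl fun z _ => ?_
    rw [Complex.ofReal_mul, ← w1]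
    simp only [add_mul, ch_add, mul_sum, sum_mul, kr]
    push_cast
    exact sum_congr rfl fun _ _ => by ring
  refine ⟨fun z => ((M : ℝ) * K)⁻¹ * w (y - z), fun z => mul_nonneg (by positivity) (w0 _), ?_,
    fun e z => ?_, ?_⟩
  · have := key _ le_rfl 0 (addOrderOf_zero.trans_le (mul_pos (d0.trans_le dH) (d0.trans_le dH)))
    simp only [zero_mul, ch_zero, mul_one, if_true] at this
    rw [show ((M : ℂ) * K)⁻¹ * (M * (3 * K : ℕ)) = 3 by
      push_cast; linear_combination 3 * inv_mul_cancel₀ c0] at this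
    exact_mod_cast this
  · have := w1 (y - z)
    simp only [e, kr, Nat.cast_one, mul_one, filter_eq', mem_univ, if_true, sum_singleton, zero_mul,
      ch_zero] at this
    simp [show w (y - z) = 1 by exact_mod_cast this.symm]
  have := bessel s (fun z => ((M : ℝ) * K)⁻¹ * w (y - z))
    (fun z => mul_nonneg (by positivity) (w0 _)) (fun β z => dk K (x - z) * ch (-(β * (y - z))))
    (fun z => ch (-((K : ZMod M) * (x - z))) * dk (3 * K) (x - z) * f z) fun β a β' b => by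
      have := key K (by omega) (β - β') (by
        rw [sub_eq_add_neg]
        exact (ord_add _ _).trans (Nat.mul_le_mul (hs β a) (by rw [addOrderOf_neg]; exact hs β' b)))
      rw [inv_mul_cancel₀ c0] at this
      rw [show (if β = β' then (1 : ℂ) else 0) = if (β - β') * d = 0 then 1 else 0 from
        if_congr ⟨fun e => by simp [e], hd β a β' b⟩ rfl rfl, ← this]
      refine sum_congr rfl fun z _ => ?_
      rw [Complex.ofReal_pow, ← Complex.mul_conj', map_mul, ch_conj, neg_neg, sub_mul,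
        sub_eq_add_neg (β * _), ch_add]
      ring
  simp only [norm_mul, ch_norm, one_mul, mul_pow, ← mul_assoc] at this ⊢
  refine le_of_eq_of_le (sum_congr rfl fun β _ => ?_) this
  rw [sum_comm]
  refine congrArg (‖·‖ ^ 2) (sum_congr rfl fun z _ => ?_)
  rw [Complex.ofReal_mul, ← w1]
  simp only [pk, map_mul, ch_conj, neg_neg, add_mul, ch_add, mul_sum, sum_mul]
  push_cast
  exact sum_congr rfl fun _ _ => by ring

end

end Pool.Agent.Lib.MP_10e396_an.IW
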