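import Pool.Agent.Lib.MP_10e396_an.IWA

/-! Ionescu-Wainger, part B: arithmetic (primary parts, Moebius, Rankin). -/

set_option autoImplicit false

namespace Pool.Agent.Lib.MP_10e396_an.IW

open Finset ArithmeticFunction

noncomputable section

theorem omega_le (C δ : ℝ) (hC : 1 ≤ C) (hδ : 0 < δ) :
    ∃ c : ℝ, 0 < c ∧ ∀ n : ℕ, 0 < n → C ^ n.primeFactors.card ≤ c * (n : ℝ) ^ δ := by
  obtain ⟨N, hN⟩ := Filter.eventually_atTop.1
    (((tendsto_rpow_atTop hδ).comp tendsto_natCast_atTop_atTop).eventually_ge_atTop C)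
  refine ⟨C ^ N, by positivity, fun n hn => ?_⟩
  rw [← card_filter_add_card_filter_not (s := n.primeFactors) (· < N), pow_add]
  refine mul_le_mul (pow_le_pow_right₀ hC ?_) ?_ (by positivity) (by positivity)
  · simpa using card_le_card (t := range N) fun p a => mem_range.2 (mem_filter.1 a).2
  · rw [← prod_const]
    refine (prod_le_prod (g := fun p : ℕ => (p : ℝ) ^ δ) (fun _ _ => by positivity)
      fun p a => hN p (not_lt.1 (mem_filter.1 a).2)).trans ?_
    rw [Real.finsetProd_rpow _ _ fun _ _ => by positivity, ← Nat.cast_prod]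
    refine Real.rpow_le_rpow (by positivity) (Nat.cast_le.2 (Nat.le_of_dvd hn ?_)) hδ.le
    exact (prod_dvd_prod_of_subset _ _ _ (filter_subset _ _)).trans (Nat.prod_primeFactors_dvd n)

theorem moeb (Q : Finset ℕ) (h0 : ∀ q ∈ Q, 0 < q) (hd : ∀ q ∈ Q, ∀ d, d ∣ q → d ∈ Q) (g : ℕ → Prop)
    [DecidablePred g] (hg : ∀ q, g q → q ∈ Q) : ∃ L : ℕ → ℂ, (∀ d, ‖L d‖ ≤ Q.card) ∧
      ∀ o, 0 < o → (if g o then 1 else 0) = ∑ d ∈ Q, L d * if o ∣ d then 1 else 0 := by
  refine ⟨fun d => ∑ q ∈ Q, if g q ∧ d ∣ q then (moebius (q / d) : ℂ) else 0, fun d => ?_,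
    fun o ho => ?_⟩
  · refine (norm_sum_le _ _).trans ((sum_le_card_nsmul _ _ 1 fun q _ => ?_).trans (by simp))
    split_ifs
    · rw [Complex.norm_intCast]
      exact_mod_cast abs_moebius_le_one
    · simp
  have k := (sum_eq_iff_sum_mul_moebius_eq (R := ℂ) (f := fun i => if o = i then 1 else 0)
    (g := fun n => if o ∣ n then 1 else 0)).1 fun n hn => by simp [hn.ne']
  simp only [sum_mul]
  rw [sum_comm, sum_congr rfl (g := fun q => if o = q then if g q then 1 else 0 else 0),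
    sum_ite_eq]
  · by_cases c : g o <;> simp [c, hg o]
  intro q a
  have := k q (h0 q a)
  rw [Nat.sum_divisorsAntidiagonal' (f := fun a b => (moebius a : ℂ) * if o ∣ b then 1 else 0)]
    at this
  by_cases c : g q
  · simp only [c, true_and, if_true, ← this, ite_mul, zero_mul, ← sum_filter]
    refine sum_congr (Finset.ext fun d => ?_) fun _ _ => rfl
    simp +contextual [(h0 q a).ne', hd q a d]
  · simp [c]

variable {M : ℕ} [NeZero M]

/-- the primes of `M` -/
abbrev PP (M : ℕ) : Type := M.primeFactors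

/-- the primary part of `M` for a set of primes -/
def pm (U : Finset (PP M)) : ℕ := ∏ p ∈ U, (p : ℕ) ^ M.factorization p

theorem pm_mul (T : Finset (PP M)) : pm T * pm Tᶜ = M := by
  rw [pm, pm, prod_mul_prod_compl, prod_coe_sort M.primeFactors fun p => p ^ M.factorization p]
  exact Nat.prod_factorization_pow_eq_self (NeZero.ne M)

omit [NeZero M] in
theorem pm_cop (T : Finset (PP M)) : (pm T).Coprime (pm Tᶜ) :=
  Nat.Coprime.prod_left fun p a => Nat.Coprime.prod_right fun q b => Nat.coprime_pow_primes _ _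
    (Nat.prime_of_mem_primeFactors p.2) (Nat.prime_of_mem_primeFactors q.2)
    fun e => mem_compl.1 b (Subtype.ext e ▸ a)

omit [NeZero M] in
theorem pm_dvd {U U' : Finset (PP M)} (h : U ⊆ U') : pm U ∣ pm U' := prod_dvd_prod_of_subset _ _ _ h

theorem pm_pos (T : Finset (PP M)) : 0 < pm T :=
  Nat.pos_of_mul_pos_right ((NeZero.pos M).trans_eq (pm_mul T).symm)

/-- the cofactor of a prime -/
def mp (p : PP M) : ZMod M := (pm {p}ᶜ : ℕ)

/-- the primes seen by a frequency -/
def sp (θ : ZMod M) : Finset (PP M) := univ.filter fun p => θ * mp p ≠ 0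

theorem mem_sp {θ : ZMod M} {p : PP M} : p ∈ sp θ ↔ (p : ℕ) ∣ addOrderOf θ := by
  have pp := Nat.prime_of_mem_primeFactors p.2
  have c : ((p : ℕ) ^ M.factorization p).Coprime (pm {p}ᶜ) := by simpa [pm] using pm_cop {p}
  simp only [sp, mem_filter, mem_univ, true_and, mp, ne_eq, ← ord_dvd]
  refine ⟨fun a => by_contra fun b => a ?_, fun a b => ?_⟩
  · have : addOrderOf θ ∣ pm {p} * pm {p}ᶜ := by rw [pm_mul, ord_dvd]; simp
    exact Nat.Coprime.dvd_of_dvd_mul_left (by
      simpa [pm] using (((Nat.Prime.coprime_iff_not_dvd pp).2 b).symm.pow_right _)) this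
  · rw [Nat.coprime_pow_left_iff (pp.factorization_pos_of_dvd (NeZero.ne M)
      (Nat.dvd_of_mem_primeFactors p.2))] at c
    exact (Nat.Prime.coprime_iff_not_dvd pp).1 c (a.trans b)

theorem sp_card (θ : ZMod M) : (sp θ).card ≤ (addOrderOf θ).primeFactors.card :=
  card_le_card_of_injOn Subtype.val (fun p a => mem_coe.2 (Nat.mem_primeFactors.2
    ⟨Nat.prime_of_mem_primeFactors p.2, mem_sp.1 a, (ord_pos θ).ne'⟩)) Subtype.val_injective.injOn

theorem sp_empty {θ : ZMod M} (h : ∀ p, p ∉ sp θ) : θ = 0 := by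
  rw [← AddMonoid.addOrderOf_eq_one_iff]
  by_contra a
  obtain ⟨p, p1, p2⟩ := Nat.exists_prime_and_dvd a
  exact h ⟨p, Nat.mem_primeFactors.2 ⟨p1, p2.trans ((ord_dvd θ M).2 (by simp)), NeZero.ne M⟩⟩
    (mem_sp.2 p2)

theorem mem_kr {α : ZMod M} {d : ℕ} : α ∈ kr M d ↔ addOrderOf α ∣ d := by simp [kr, ord_dvd]

theorem kr_mp {T : Finset (PP M)} {α : ZMod M} (h : α ∈ kr M (pm T)) {p : PP M} (hp : p ∉ T) :
    α * mp p = 0 :=
  (ord_dvd _ _).1 ((mem_kr.1 h).trans (pm_dvd fun q a => by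
    simpa using fun e : q = p => hp (e ▸ a)))

theorem kr_sub {d : ℕ} {α β : ZMod M} (h : α ∈ kr M d) (h' : β ∈ kr M d) : α - β ∈ kr M d := by
  simp only [kr, mem_filter, mem_univ, true_and] at *
  simp [sub_mul, h, h']

theorem kr_cop {a b : ℕ} (c : a.Coprime b) {α : ZMod M} (h : α ∈ kr M a) (h' : α ∈ kr M b) :
    α = 0 :=
  AddMonoid.addOrderOf_eq_one_iff.1 (Nat.eq_one_of_dvd_coprimes c (mem_kr.1 h) (mem_kr.1 h'))

theorem sum_split (T : Finset (PP M)) (h : ZMod M → ℂ) :
    ∑ θ, h θ = ∑ β ∈ kr M (pm Tᶜ), ∑ α ∈ kr M (pm T), h (α + β) := by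
  rw [← sum_product']
  refine (sum_nbij (fun z : ZMod M × ZMod M => z.2 + z.1) (by simp) ?_ ?_ fun _ _ => rfl).symm
  · rintro ⟨β, α⟩ a ⟨β', α'⟩ b e
    simp only [coe_product, Set.mem_prod, mem_coe] at a b e
    have : α - α' = β' - β := by linear_combination e
    have z := kr_cop (pm_cop T) (kr_sub a.2 b.2) (this ▸ kr_sub b.1 a.1)
    rw [Prod.mk.injEq, ← sub_eq_zero (a := α), z, eq_comm, ← sub_eq_zero, ← this, z]
    simp
  · intro θ _
    obtain ⟨u, v, e⟩ := (Nat.isCoprime_iff_coprime.2 (pm_cop T)).map (Int.castRingHom (ZMod M))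
    have m : ((pm T : ℕ) : ZMod M) * (pm Tᶜ : ℕ) = 0 := by rw [← Nat.cast_mul, pm_mul]; simp
    simp only [eq_intCast, Int.cast_natCast] at e
    refine ⟨(u * pm T * θ, v * pm Tᶜ * θ), ?_, by linear_combination θ * e⟩
    simp only [coe_product, Set.mem_prod, mem_coe, kr, mem_filter, mem_univ, true_and]
    exact ⟨by linear_combination u * θ * m, by linear_combination v * θ * m⟩

theorem rankin (δ : ℝ) (hδ : 0 < δ) : ∃ c : ℝ, 1 ≤ c ∧ ∀ (M : ℕ) [NeZero M] (T : Finset (PP M))
    (H : ℕ), (((pm T).divisors.filter (· ≤ H)).card : ℝ) ≤ c ^ T.card * (H : ℝ) ^ δ := by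
  have t0 : (0 : ℝ) < 2 ^ (-δ) := by positivity
  have t1 : (2 : ℝ) ^ (-δ) < 1 := Real.rpow_lt_one_of_one_lt_of_neg one_lt_two (by linarith)
  refine ⟨(1 - 2 ^ (-δ))⁻¹, (one_le_inv₀ (by linarith)).2 (by linarith), fun M _ T H => ?_⟩
  have k : ∑ q ∈ (pm T).divisors, (q : ℝ) ^ (-δ) ≤ (1 - 2 ^ (-δ))⁻¹ ^ T.card := by
    induction T using Finset.induction_on with
    | empty => simp [pm]
    | insert p T hp ih =>
      have pp := Nat.prime_of_mem_primeFactors p.2
      rw [pm, prod_insert hp, Nat.divisors_mul, Finset.mul_def, card_insert_of_notMem hp, pow_succ']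
      refine (sum_image_le_of_nonneg fun _ _ => by positivity).trans ?_
      rw [sum_product]
      simp only [Nat.cast_mul, Real.mul_rpow (Nat.cast_nonneg _) (Nat.cast_nonneg _), ← mul_sum,
        ← sum_mul]
      refine mul_le_mul ?_ ih (sum_nonneg fun _ _ => by positivity) (inv_nonneg.2 (by linarith))
      rw [Nat.sum_divisors_prime_pow pp, ← tsum_geometric_of_lt_one t0.le t1]
      refine le_trans (sum_le_sum fun i _ => ?_) ((summable_geometric_of_lt_one t0.le t1).sum_le_tsum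
        _ fun _ _ => by positivity)
      rw [Nat.cast_pow, ← Real.rpow_pow_comm (by positivity)]
      exact pow_le_pow_left₀ (by positivity) (Real.rpow_le_rpow_of_nonpos two_pos
        (by exact_mod_cast pp.two_le) (by linarith)) _
  refine le_trans ?_ (mul_le_mul_of_nonneg_right k (by positivity))
  rw [sum_mul, card_eq_sum_ones, Nat.cast_sum]
  refine le_trans (sum_le_sum fun q a => ?_) (sum_le_sum_of_subset_of_nonneg (filter_subset (· ≤ H) _)
    fun _ _ _ => by positivity)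
  obtain ⟨a, b⟩ := mem_filter.1 a
  have : (0 : ℝ) < q := by exact_mod_cast Nat.pos_of_mem_divisors a
  rw [Real.rpow_neg this.le, Nat.cast_one, ← div_eq_inv_mul, one_le_div (by positivity)]
  exact Real.rpow_le_rpow this.le (by exact_mod_cast b) hδ.le

end

end Pool.Agent.Lib.MP_10e396_an.IW
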