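import Pool.Agent.Lib.MP_10e396_an.IWB

/-! Ionescu-Wainger, part C: the chaos pieces and their `L2` and sup bounds. -/

set_option autoImplicit false

namespace Pool.Agent.Lib.MP_10e396_an.IW

open Finset ComplexConjugate

noncomputable section

theorem orth {Y I : Type} [Fintype Y] [DecidableEq I] (s : Finset I) (e : I → Y → ℂ) (N : ℝ)
    (h : ∀ i ∈ s, ∀ j ∈ s, ∑ y, e i y * conj (e j y) = if i = j then (N : ℂ) else 0) (c : I → ℂ) :
    ∑ y, ‖∑ i ∈ s, c i * e i y‖ ^ 2 = N * ∑ i ∈ s, ‖c i‖ ^ 2 := by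
  have : ∑ y, (∑ i ∈ s, c i * e i y) * conj (∑ i ∈ s, c i * e i y) =
      N * ∑ i ∈ s, c i * conj (c i) := by
    simp only [map_sum, map_mul, sum_mul_sum, mul_mul_mul_comm (c _) (e _ _)]
    rw [sum_comm, mul_sum]
    refine sum_congr rfl fun i a => ?_
    rw [sum_comm, sum_congr rfl fun j b => by rw [← mul_sum, h i a j b]]
    simp [a, mul_comm]
  simp only [Complex.mul_conj'] at this
  exact_mod_cast this

variable {M : ℕ} [NeZero M]

def tm (K : ℕ) (f : ZMod M → ℂ) (θ x y : ZMod M) : ℂ := ∑ z, pk K (x - z) * ch (θ * (y - z)) * f z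

theorem tm_add (K : ℕ) (f : ZMod M → ℂ) (θ x y s : ZMod M) :
    tm K f θ x (y + s) = tm K f θ x y * ch (θ * s) := by
  simp only [tm, sum_mul]
  refine sum_congr rfl fun z _ => ?_
  rw [add_sub_right_comm, mul_add, ch_add]
  ring

def sh (U : Finset (PP M)) (a : PP M → ZMod M) : ZMod M := ∑ p ∈ U, mp p * a p

def Ph (H K : ℕ) (f : ZMod M → ℂ) (x y : ZMod M) (S : Finset (PP M)) (a : PP M → ZMod M) : ℂ :=
  ∑ θ ∈ (Sg M H).filter (sp · = S), tm K f θ x (y + sh univ a)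

def Qf (H K : ℕ) (f : ZMod M → ℂ) (w : Finset (PP M) × ZMod M × ZMod M × (PP M → ZMod M)) : ℝ :=
  ∑ S ∈ univ.filter (fun S => w.1 ⊆ S), (∑ a', ‖Ph H K f w.2.1 w.2.2.1 S
    (w.1.piecewise w.2.2.2 a')‖ ^ 2) / Fintype.card (PP M → ZMod M)

variable {H K D : ℕ} {f : ZMod M → ℂ} {x y : ZMod M} {S T : Finset (PP M)}

theorem Ph_zero (hD : ∀ θ ∈ Sg M H, (sp θ).card ≤ D) (h : D < S.card) : Ph H K f x y S = 0 :=
  funext fun _ => sum_eq_zero fun θ a => absurd (hD θ (mem_filter.1 a).1)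
    (by rwa [(mem_filter.1 a).2, not_le])

theorem Ph_up (p : PP M) (a : PP M → ZMod M) (c : ZMod M) :
    Ph H K f x y S (Function.update a p c) = ∑ θ ∈ (Sg M H).filter (sp · = S),
      tm K f θ x (y + sh univ a) * ch (-(θ * mp p * a p) + θ * mp p * c) := by
  have : sh univ (Function.update a p c) = sh univ a + mp p * (c - a p) := by
    simp only [sh]
    rw [← add_sum_erase _ _ (mem_univ p), ← add_sum_erase _ _ (mem_univ p), Function.update_self,
      sum_congr rfl fun q b => by rw [Function.update_of_ne (ne_of_mem_erase b)]]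
    ring
  simp only [Ph, this, ← add_assoc, tm_add _ _ _ _ (y + _)]
  exact sum_congr rfl fun θ _ => by congr 2; ring

theorem Ph_out {p : PP M} (hp : p ∉ S) (a : PP M → ZMod M) (c : ZMod M) :
    Ph H K f x y S (Function.update a p c) = Ph H K f x y S a := by
  rw [Ph_up]
  refine sum_congr rfl fun θ b => ?_
  rw [← (mem_filter.1 b).2] at hp
  simp [show θ * mp p = 0 by simpa [sp] using hp]

theorem Ph_in {p : PP M} (hp : p ∈ S) (a : PP M → ZMod M) :
    ∑ c, Ph H K f x y S (Function.update a p c) = 0 := by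
  simp only [Ph_up]
  rw [sum_comm]
  refine sum_eq_zero fun θ b => ?_
  rw [← (mem_filter.1 b).2] at hp
  rw [← mul_sum, sum_ch', if_neg (mem_filter.1 hp).2, mul_zero]

theorem Ph_sum (a : PP M → ZMod M) :
    ∑ S, Ph H K f x y S a = Ad (Sg M H) (pk K) f x (y + sh univ a) := sum_fiberwise _ _ _

theorem Qf_nonneg (w) : 0 ≤ Qf H K f w := sum_nonneg fun _ _ => by positivity

theorem Qf_add (g : ZMod M → ℂ) (w) : Qf H K (f + g) w ≤ 2 * Qf H K f w + 2 * Qf H K g w := by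
  simp only [Qf, mul_sum, ← sum_add_distrib, ← mul_div_assoc, ← add_div]
  refine sum_le_sum fun S _ => div_le_div_of_nonneg_right (sum_le_sum fun a _ => ?_) (by positivity)
  have : ∀ x y S a, Ph H K (f + g) x y S a = Ph H K f x y S a + Ph H K g x y S a := by
    simp [Ph, tm, mul_add, sum_add_distrib]
  rw [this]
  generalize Ph H K f _ _ _ _ = u
  generalize Ph H K g _ _ _ _ = v
  nlinarith [pow_le_pow_left₀ (norm_nonneg _) (norm_add_le u v) 2, sq_nonneg (‖u‖ - ‖v‖)]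

theorem Qf_zero (hD : ∀ θ ∈ Sg M H, (sp θ).card ≤ D) {w} (h : D < w.1.card) : Qf H K f w = 0 :=
  sum_eq_zero fun S a => by simp [Ph_zero hD (h.trans_le (card_le_card (mem_filter.1 a).2))]

theorem tm_l2 (hK : 1 ≤ K) (hH : 1 ≤ H) (hM : 3 * K * H ^ 3 < M) :
    ∑ x, ∑ θ ∈ Sg M H, ‖tm K f θ x 0‖ ^ 2 ≤ 3 * ∑ z, ‖f z‖ ^ 2 := by
  have k : ∀ x : ZMod M, ∑ t : ZMod M, ((M : ℝ) * K)⁻¹ * ‖dk (3 * K) t‖ ^ 2 = 3 ∧
      ∑ θ ∈ Sg M H, ‖tm K f θ x 0‖ ^ 2 ≤
        ∑ z, ((M : ℝ) * K)⁻¹ * ‖dk (3 * K) (x - z)‖ ^ 2 * ‖f z‖ ^ 2 := fun x => by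
    obtain ⟨w, -, w1, w2, w3⟩ := bes hK hM one_pos hH (Sg M H) (fun β a => (mem_filter.1 a).2)
      (fun β _ β' _ e => by simpa [sub_eq_zero] using e) f x 0
    simp only [w2 rfl] at w1 w3
    exact ⟨(Equiv.sum_comp (Equiv.subLeft x) _).symm.trans w1, by simpa [kr, filter_eq', tm] using w3⟩
  refine (sum_le_sum fun x _ => (k x).2).trans ?_
  rw [sum_comm, mul_sum]
  refine sum_le_sum fun z _ => le_of_eq ?_
  rw [← sum_mul, ← (k 0).1]
  exact congrArg (· * _) (Equiv.sum_comp (Equiv.subRight z)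
    fun t => ((M : ℝ) * K)⁻¹ * ‖dk (3 * K) t‖ ^ 2)

theorem Qf_l2 (hK : 1 ≤ K) (hH : 1 ≤ H) (hM : 3 * K * H ^ 3 < M)
    (hD : ∀ θ ∈ Sg M H, (sp θ).card ≤ D) : ∑ w, Qf H K f w ≤
      3 * 2 ^ D * (M * Fintype.card (PP M → ZMod M)) * ∑ z, ‖f z‖ ^ 2 := by
  have e : ∀ (x : ZMod M) S a, ∑ y, ‖Ph H K f x y S a‖ ^ 2 =
      M * ∑ θ ∈ (Sg M H).filter (sp · = S), ‖tm K f θ x 0‖ ^ 2 := fun x S a => by
    rw [← orth _ (fun θ y => ch (θ * (y + sh univ a))) M]
    · simp only [Ph, ← tm_add, zero_add]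
    intro i _ j _
    have : ∀ y, i * (y + sh univ a) + -(j * (y + sh univ a)) = (i - j) * sh univ a + (i - j) * y :=
      fun y => by ring
    simp only [ch_conj, ← ch_add, this, sum_ch', sub_eq_zero]
    split_ifs with c <;> simp [c]
  have N0 : (Fintype.card (PP M → ZMod M) : ℝ) ≠ 0 := by positivity
  have e2 : ∀ (T : Finset (PP M)) (x : ZMod M) a, ∑ y, Qf H K f (T, x, y, a) =
      M * ∑ θ ∈ Sg M H, if T ⊆ sp θ then ‖tm K f θ x 0‖ ^ 2 else 0 := fun T x a => by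
    simp only [Qf]
    rw [sum_comm, sum_congr rfl fun S _ => by
      rw [← sum_div, sum_comm, sum_congr rfl fun a' _ => e x S (T.piecewise a a'), sum_const, card_univ,
        nsmul_eq_mul, mul_div_cancel_left₀ _ N0], ← mul_sum, sum_fiberwise_eq_sum_filter, sum_filter]
    simp
  simp only [Fintype.sum_prod_type]
  rw [sum_comm, sum_congr rfl fun x _ => sum_congr rfl fun T _ => by
    rw [sum_comm, sum_congr rfl fun a _ => e2 T x a, sum_const, card_univ, nsmul_eq_mul]]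
  simp only [← mul_sum]
  refine le_trans (b := Fintype.card (PP M → ZMod M) * (M * (2 ^ D * (3 * ∑ z, ‖f z‖ ^ 2)))) ?_
    (le_of_eq (by ring))
  gcongr
  refine le_trans ?_ (mul_le_mul_of_nonneg_left (tm_l2 hK hH hM) (by positivity))
  simp only [mul_sum]
  refine sum_le_sum fun x _ => ?_
  rw [sum_comm]
  refine sum_le_sum fun θ a => ?_
  rw [← sum_filter, sum_const, nsmul_eq_mul, show univ.filter (· ⊆ sp θ) = (sp θ).powerset by
    ext; simp, card_powerset]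
  gcongr
  exact_mod_cast Nat.pow_le_pow_right two_pos (hD θ a)

theorem orth_sh {β β' : ZMod M} (h : β ∈ kr M (pm Tᶜ)) (h' : β' ∈ kr M (pm Tᶜ)) :
    ∑ a, ch (β * sh Tᶜ a) * conj (ch (β' * sh Tᶜ a)) =
      if β = β' then ((Fintype.card (PP M → ZMod M) : ℝ) : ℂ) else 0 := by
  simp only [ch_conj, ← ch_add, ← sub_eq_add_neg, ← sub_mul]
  split_ifs with c
  · simp [c]
  obtain ⟨p, hp⟩ : ∃ p, p ∈ sp (β - β') := by_contra fun k =>
    c (sub_eq_zero.1 (sp_empty (not_exists.1 k)))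
  have p1 := (mem_filter.1 hp).2
  have p2 : p ∈ Tᶜ := by_contra fun k => p1 (kr_mp (kr_sub h h') k)
  have : ∀ u, ∑ a, ch ((β - β') * sh Tᶜ a) =
      (∑ a, ch ((β - β') * sh Tᶜ a)) * ch ((β - β') * mp p * u) := fun u => by
    rw [sum_mul, ← Equiv.sum_comp (Equiv.addRight (Pi.single p u))]
    simp [sh, mul_add, sum_add_distrib, Pi.single_apply, p2, ch_add, mul_assoc]
  have e := sum_congr (rfl : (univ : Finset (ZMod M)) = univ) fun u _ => this u
  rw [← mul_sum, sum_ch, if_neg p1] at e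
  simpa [NeZero.ne M] using e

theorem Qf_sup (hK : 1 ≤ K) (hM : 3 * K * H ^ 3 < M) {b : ℝ} (hb : ∀ z, ‖f z‖ ≤ b) (w) :
    Qf H K f w ≤ 3 * (((pm w.1).divisors.filter (· ≤ H)).card : ℝ) ^ 4 * b ^ 2 := by
  obtain ⟨T, x, y, a⟩ := w
  set Q := (pm T).divisors.filter (· ≤ H)
  obtain ⟨u, hu⟩ : ∃ u : ZMod M → ℂ, ∀ β, u β = ∑ α ∈ kr M (pm T),
    if α + β ∈ Sg M H ∧ T ⊆ sp (α + β) then tm K f (α + β) x (y + sh T a) else 0 := ⟨_, fun _ => rfl⟩
  have e : ∀ S, T ⊆ S → ∀ a', Ph H K f x y S (T.piecewise a a') = ∑ β ∈ kr M (pm Tᶜ),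
      (if T ∪ sp β = S then u β else 0) * ch (β * sh Tᶜ a') := fun S hS a' => by
    have : sh univ (T.piecewise a a') = sh T a + sh Tᶜ a' := by
      rw [sh, ← sum_add_sum_compl T]
      exact congrArg₂ _ (sum_congr rfl fun p c => by rw [piecewise_eq_of_mem _ _ _ c])
        (sum_congr rfl fun p c => by rw [piecewise_eq_of_notMem _ _ _ (mem_compl.1 c)])
    rw [Ph, this, ← add_assoc, sum_filter, ← Fintype.sum_ite_mem, sum_split T]
    refine sum_congr rfl fun β c => ?_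
    rw [hu, ite_sum_zero, sum_mul]
    refine sum_congr rfl fun α d => ?_
    have z : α * sh Tᶜ a' = 0 := by
      rw [sh, mul_sum]
      exact sum_eq_zero fun p k => by rw [← mul_assoc, kr_mp d (mem_compl.1 k), zero_mul]
    have i : T ⊆ sp (α + β) → sp (α + β) = T ∪ sp β := fun k => Finset.ext fun p => by
      by_cases l : p ∈ T
      · simp [l, k l]
      · simp [l, sp, add_mul, kr_mp d l]
    rw [tm_add, add_mul, z, zero_add]
    by_cases k : T ⊆ sp (α + β)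
    · by_cases l : α + β ∈ Sg M H <;> simp [i k, l]
    · simp [k, show sp (α + β) ≠ S from fun l => k (l ▸ hS)]
  have N0 : (Fintype.card (PP M → ZMod M) : ℝ) ≠ 0 := by positivity
  have e2 : Qf H K f (T, x, y, a) = ∑ β ∈ kr M (pm Tᶜ), ‖u β‖ ^ 2 := by
    simp only [Qf]
    rw [sum_congr rfl fun S c => by
      rw [sum_congr rfl fun a' _ => by rw [e S (mem_filter.1 c).2 a'],
        orth _ (fun β a' => ch (β * sh Tᶜ a')) _ fun _ h _ h' => orth_sh h h',
        mul_div_cancel_left₀ _ N0], sum_comm]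
    refine sum_congr rfl fun β _ => ?_
    simp [apply_ite fun z : ℂ => ‖z‖ ^ 2]
  have Q1 : ∀ q ∈ Q, 0 < q ∧ q ≤ H ∧ q ∣ pm T := fun q c => ⟨Nat.pos_of_mem_divisors
    (mem_filter.1 c).1, (mem_filter.1 c).2, Nat.dvd_of_mem_divisors (mem_filter.1 c).1⟩
  have e3 : ∀ β ∈ kr M (pm Tᶜ), ‖u β‖ ^ 2 ≤ if addOrderOf β ≤ H then (Q.card : ℝ) ^ 3 *
      ∑ d ∈ Q, ‖∑ α ∈ kr M d, tm K f (α + β) x (y + sh T a)‖ ^ 2 else 0 := fun β c => by
    have g : ∀ α ∈ kr M (pm T), (α + β ∈ Sg M H ∧ T ⊆ sp (α + β)) ↔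
        addOrderOf α * addOrderOf β ≤ H ∧ ∀ p ∈ T, (p : ℕ) ∣ addOrderOf α := fun α d => by
      rw [← (AddCommute.all α β).addOrderOf_add_eq_mul_addOrderOf_of_coprime
        (((pm_cop T).coprime_dvd_left (mem_kr.1 d)).coprime_dvd_right (mem_kr.1 c))]
      refine and_congr (by simp [Sg]) (forall₂_congr fun p k => ?_)
      simp [← mem_sp, sp, add_mul, kr_mp c (p := p) (by simpa using k)]
    split_ifs with k
    swap
    · rw [hu, sum_eq_zero fun α d => if_neg fun l => k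
        ((Nat.le_mul_of_pos_left _ (ord_pos α)).trans ((g α d).1 l).1)]
      simp
    obtain ⟨L, L1, L2⟩ := moeb Q (fun q c => (Q1 q c).1) (fun q c d l => mem_filter.2
      ⟨Nat.mem_divisors.2 ⟨l.trans (Q1 q c).2.2, (pm_pos T).ne'⟩,
        (Nat.le_of_dvd (Q1 q c).1 l).trans (Q1 q c).2.1⟩)
      (fun q => q ∣ pm T ∧ q * addOrderOf β ≤ H ∧ ∀ p ∈ T, (p : ℕ) ∣ q) fun q l => mem_filter.2
        ⟨Nat.mem_divisors.2 ⟨l.1, (pm_pos T).ne'⟩,
          (Nat.le_mul_of_pos_right _ (ord_pos β)).trans l.2.1⟩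
    have : u β = ∑ d ∈ Q, L d * ∑ α ∈ kr M d, tm K f (α + β) x (y + sh T a) := by
      rw [hu, sum_congr rfl fun α d => if_congr (g α d) rfl rfl, ← Fintype.sum_ite_mem]
      simp only [← Fintype.sum_ite_mem (kr M _) fun α => tm K f (α + β) x _, mem_kr, mul_sum,
        ← ite_and]
      rw [sum_comm]
      refine sum_congr rfl fun α _ => ?_
      simpa [sum_mul] using congrArg (· * tm K f (α + β) x (y + sh T a)) (L2 _ (ord_pos α))
    rw [this, pow_succ _ 2, mul_assoc]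
    refine le_trans ?_ (mul_le_mul_of_nonneg_left sq_sum_le_card_mul_sum_sq (by positivity))
    rw [← mul_pow, mul_sum]
    refine pow_le_pow_left₀ (norm_nonneg _) ((norm_sum_le _ _).trans (sum_le_sum fun d _ => ?_)) 2
    rw [norm_mul]
    exact mul_le_mul_of_nonneg_right (L1 d) (norm_nonneg _)
  rw [e2]
  refine (sum_le_sum e3).trans ?_
  rw [← sum_filter, ← mul_sum, sum_comm]
  refine (mul_le_mul_of_nonneg_left (sum_le_card_nsmul _ _ (3 * b ^ 2) fun d c => ?_)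
    (by positivity)).trans_eq (by rw [nsmul_eq_mul]; ring)
  obtain ⟨w, w0, w1, -, w3⟩ := bes hK hM (Q1 d c).1 (Q1 d c).2.1
    ((kr M (pm Tᶜ)).filter (addOrderOf · ≤ H)) (fun β k => (mem_filter.1 k).2)
    (fun β k β' l m => sub_eq_zero.1 (kr_cop ((pm_cop T).coprime_dvd_left (Q1 d c).2.2)
      (mem_filter.2 ⟨mem_univ _, m⟩) (kr_sub (mem_filter.1 k).1 (mem_filter.1 l).1))) f x (y + sh T a)
  refine w3.trans ?_
  rw [← w1, sum_mul]
  exact sum_le_sum fun z _ => mul_le_mul_of_nonneg_left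
    (pow_le_pow_left₀ (norm_nonneg _) (hb z) 2) (mul_nonneg (w0 z) (by positivity))

end

end Pool.Agent.Lib.MP_10e396_an.IW
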