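import Pool.Agent.Lib.MP_10e396_an.Lp

/-! Layer cake summation, bilinear interpolation, duality. -/

set_option autoImplicit false

namespace Pool.Agent.Lib.MP_10e396_an

open Finset

noncomputable section

namespace Interp

theorem sum_pow_inj {s : Finset ℤ} {g : ℤ → ℕ} (hg : Set.InjOn g s) {ρ : ℝ} (h0 : 0 ≤ ρ)
    (h1 : ρ < 1) : ∑ k ∈ s, ρ ^ g k ≤ (1 - ρ)⁻¹ := by
  classical
  rw [← sum_image (f := fun j => ρ ^ j) hg, ← tsum_geometric_of_lt_one h0 h1]
  exact (summable_geometric_of_lt_one h0 h1).sum_le_tsum _ fun _ _ => by positivity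

theorem sum_pow_abs (s : Finset ℤ) (k₀ : ℤ) {ρ : ℝ} (h0 : 0 ≤ ρ) (h1 : ρ < 1) :
    ∑ k ∈ s, ρ ^ (k - k₀).natAbs ≤ 2 * (1 - ρ)⁻¹ := by
  rw [← sum_filter_add_sum_filter_not s fun k => k₀ ≤ k, two_mul]
  refine add_le_add (sum_pow_inj ?_ h0 h1) (sum_pow_inj ?_ h0 h1)
  · intro a ha b hb hab
    simp only [coe_filter, Set.mem_ofPred_eq] at ha hb hab
    omega
  · intro a ha b hb hab
    simp only [coe_filter, Set.mem_ofPred_eq] at ha hb hab
    omega

theorem dyadic_sum {p a b : ℝ} (hb : 0 ≤ b) (hbp : b < p) (hpa : p < a) : ∃ C : ℝ, 0 < C ∧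
    ∀ (s : Finset ℤ) (S : ℝ), 0 ≤ S →
      ∑ k ∈ s, ((2 : ℝ) ^ k) ^ p * min ((S / 2 ^ k) ^ a) ((S / 2 ^ k) ^ b) ≤ C * S ^ p := by
  set c := min (a - p) (p - b) with hc
  have hc0 : 0 < c := lt_min (by linarith) (by linarith)
  set ρ : ℝ := 2 ^ (-c) with hρ
  have hρ0 : 0 < ρ := by positivity
  have hρ1 : ρ < 1 := Real.rpow_lt_one_of_one_lt_of_neg one_lt_two (by linarith)
  refine ⟨ρ⁻¹ * (2 * (1 - ρ)⁻¹), by have := sub_pos.2 hρ1; positivity, fun s S hS => ?_⟩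
  rcases hS.eq_or_lt with rfl | hS
  · have : ∀ k : ℤ, min (((0 : ℝ) / 2 ^ k) ^ a) ((0 / 2 ^ k) ^ b) = 0 := by
      intro k
      rw [zero_div, Real.zero_rpow (by linarith : a ≠ 0)]
      exact min_eq_left (Real.rpow_nonneg le_rfl _)
    simp only [this, mul_zero, sum_const_zero]
    have := sub_pos.2 hρ1
    positivity
  obtain ⟨k₀, h1, h2⟩ := exists_mem_Ico_zpow hS (one_lt_two (α := ℝ))
  have key : ∀ k : ℤ, ((2 : ℝ) ^ k) ^ p * min ((S / 2 ^ k) ^ a) ((S / 2 ^ k) ^ b) ≤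
      S ^ p * (ρ⁻¹ * ρ ^ (k - k₀).natAbs) := by
    intro k
    have hk : (0 : ℝ) < 2 ^ k := by positivity
    have hu : 0 < S / 2 ^ k := by positivity
    have e : ∀ t : ℝ, ((2 : ℝ) ^ k) ^ p * (S / 2 ^ k) ^ t = S ^ p * (S / 2 ^ k) ^ (t - p) := by
      intro t
      rw [Real.rpow_sub hu, Real.div_rpow hS.le hk.le p]
      have : 0 < S ^ p := by positivity
      field_simp
    have hpow : ∀ n : ℕ, ρ ^ n = 2 ^ (-c * n) := fun n => by
      rw [hρ, ← Real.rpow_natCast, ← Real.rpow_mul (by norm_num)]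
    rcases le_or_gt k k₀ with hk0 | hk0
    · refine le_trans (mul_le_mul_of_nonneg_left (min_le_right _ _) (by positivity)) ?_
      rw [e]
      refine mul_le_mul_of_nonneg_left ?_ (by positivity)
      have hn : ((k - k₀).natAbs : ℝ) = k₀ - k := by
        rw [← Int.cast_natCast, Int.natCast_natAbs, abs_of_nonpos (by omega)]; push_cast; ring
      have h3 : (2 : ℝ) ^ ((k₀ : ℝ) - k) ≤ S / 2 ^ k := by
        rw [Real.rpow_sub two_pos, Real.rpow_intCast, Real.rpow_intCast]; gcongr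
      have h4 : (0 : ℝ) ≤ k₀ - k := by rw [← hn]; positivity
      calc (S / 2 ^ k) ^ (b - p) ≤ ((2 : ℝ) ^ ((k₀ : ℝ) - k)) ^ (b - p) :=
            Real.rpow_le_rpow_of_nonpos (by positivity) h3 (by linarith)
        _ = 2 ^ (((k₀ : ℝ) - k) * (b - p)) := by rw [← Real.rpow_mul (by norm_num)]
        _ ≤ 2 ^ (-c * ((k₀ : ℝ) - k)) := by
            refine Real.rpow_le_rpow_of_exponent_le one_le_two ?_
            have := min_le_right (a - p) (p - b)
            nlinarith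
        _ = 1 * ρ ^ (k - k₀).natAbs := by rw [hpow, hn, one_mul]
        _ ≤ _ := by gcongr; exact (one_le_inv₀ hρ0).2 hρ1.le
    · refine le_trans (mul_le_mul_of_nonneg_left (min_le_left _ _) (by positivity)) ?_
      rw [e]
      refine mul_le_mul_of_nonneg_left ?_ (by positivity)
      have hn : ((k - k₀).natAbs : ℝ) = k - k₀ := by
        rw [← Int.cast_natCast, Int.natCast_natAbs, abs_of_nonneg (by omega)]; push_cast; ring
      have h3 : S / 2 ^ k ≤ (2 : ℝ) ^ ((k₀ : ℝ) + 1 - k) := by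
        rw [Real.rpow_sub two_pos, Real.rpow_intCast]
        have : (2 : ℝ) ^ ((k₀ : ℝ) + 1) = 2 ^ (k₀ + 1) := by
          rw [← Real.rpow_intCast]; push_cast; rfl
        rw [this]; gcongr
      have h4 : (0 : ℝ) ≤ k - k₀ - 1 := by
        have : k₀ + 1 ≤ k := hk0
        have : ((k₀ + 1 : ℤ) : ℝ) ≤ k := by exact_mod_cast this
        push_cast at this; linarith
      calc (S / 2 ^ k) ^ (a - p) ≤ ((2 : ℝ) ^ ((k₀ : ℝ) + 1 - k)) ^ (a - p) :=
            Real.rpow_le_rpow hu.le h3 (by linarith)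
        _ = 2 ^ (((k₀ : ℝ) + 1 - k) * (a - p)) := by rw [← Real.rpow_mul (by norm_num)]
        _ ≤ 2 ^ (c + -c * ((k : ℝ) - k₀)) := by
            refine Real.rpow_le_rpow_of_exponent_le one_le_two ?_
            have := min_le_left (a - p) (p - b)
            nlinarith
        _ = _ := by
            rw [hpow, hn, Real.rpow_add two_pos, hρ, Real.rpow_neg (by norm_num), inv_inv]
  refine (sum_le_sum fun k _ => key k).trans ?_
  rw [← mul_sum, ← mul_sum, mul_comm]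
  gcongr
  exact sum_pow_abs s k₀ hρ0.le hρ1

theorem three {ι : Type} [Fintype ι] (c : ι → ℂ) (α β : ι → ℝ) {B₀ B₁ θ : ℝ} (h0 : 0 ≤ θ)
    (h1 : θ ≤ 1)
    (hB₀ : ∀ s : ℂ, s.re = 0 → ‖∑ i, c i * Complex.exp (α i + β i * s)‖ ≤ B₀)
    (hB₁ : ∀ s : ℂ, s.re = 1 → ‖∑ i, c i * Complex.exp (α i + β i * s)‖ ≤ B₁) :
    ‖∑ i, c i * Complex.exp (α i + β i * θ)‖ ≤ B₀ ^ (1 - θ) * B₁ ^ θ := by
  have hd : Differentiable ℂ fun s : ℂ => ∑ i, c i * Complex.exp (α i + β i * s) := by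
    fun_prop
  have := Complex.HadamardThreeLines.norm_le_interp_of_mem_verticalClosedStrip₀₁'
    (fun s : ℂ => ∑ i, c i * Complex.exp (α i + β i * s)) (z := θ) (a := B₀) (b := B₁)
    (by simp [Complex.HadamardThreeLines.verticalClosedStrip, h0, h1]) hd.diffContOnCl
    ⟨∑ i, ‖c i‖ * Real.exp (|α i| + |β i|), by
      rintro _ ⟨s, hs, rfl⟩
      simp only [Complex.HadamardThreeLines.verticalClosedStrip, Set.mem_preimage,
        Set.mem_Icc] at hs
      refine (norm_sum_le _ _).trans (sum_le_sum fun i _ => ?_)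
      rw [norm_mul, Complex.norm_exp]
      gcongr
      simp only [Complex.add_re, Complex.ofReal_re, Complex.mul_re, Complex.ofReal_im, zero_mul,
        sub_zero]
      have := le_abs_self (α i)
      have := le_abs_self (β i)
      have := abs_nonneg (β i)
      nlinarith [hs.1, hs.2]⟩
    (fun z hz => hB₀ z hz) (fun z hz => hB₁ z hz)
  simpa using this

/-- the analytic family through a function -/
def fam {X : Type} (f : X → ℂ) (F u v : ℝ) (s : ℂ) (x : X) : ℂ :=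
  f x / ‖f x‖ * Complex.exp ((Real.log (‖f x‖ / F) * u : ℝ) + (Real.log (‖f x‖ / F) * v : ℝ) * s)

theorem norm_fam {X : Type} (f : X → ℂ) {F : ℝ} (hF : 0 < F) (u v : ℝ) (s : ℂ) (x : X)
    (h : u + v * s.re ≠ 0) : ‖fam f F u v s x‖ = (‖f x‖ / F) ^ (u + v * s.re) := by
  unfold fam
  rcases eq_or_ne (f x) 0 with h0 | h0
  · simp [h0, Real.zero_rpow h]
  have hn : 0 < ‖f x‖ := norm_pos_iff.2 h0
  rw [norm_mul, Complex.norm_exp, norm_div, Complex.norm_real, norm_norm, div_self hn.ne', one_mul,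
    Real.rpow_def_of_pos (by positivity)]
  congr 1
  simp only [Complex.add_re, Complex.ofReal_re, Complex.mul_re, Complex.ofReal_im, zero_mul,
    sub_zero]
  ring

theorem lp_fam {X : Type} [Fintype X] (f : X → ℂ) {a a' : ℝ} (ha : 0 < a) (ha' : 0 < a')
    (hF : 0 < lp a f) (u v : ℝ) (s : ℂ) (h : u + v * s.re = a * a'⁻¹) :
    lp a' (fam f (lp a f) u v s) ≤ 1 := by
  rw [lp_le_iff ha' _ zero_le_one, Real.one_rpow]
  have : ∀ x, ‖fam f (lp a f) u v s x‖ ^ a' = ‖f x‖ ^ a / lp a f ^ a := by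
    intro x
    rw [norm_fam f hF u v s x (by rw [h]; positivity), h, ← Real.rpow_mul (by positivity),
      mul_assoc, inv_mul_cancel₀ ha'.ne', mul_one, Real.div_rpow (norm_nonneg _) hF.le]
  simp only [this]
  rw [← sum_div, ← lp_rpow ha, div_self (by positivity)]

theorem fam_self {X : Type} (f : X → ℂ) {F : ℝ} (hF : 0 < F) (u v θ : ℝ) (h : u + v * θ = 1) :
    fam f F u v θ = (F : ℂ)⁻¹ • f := by
  funext x
  unfold fam
  rcases eq_or_ne (f x) 0 with h0 | h0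
  · simp [h0]
  have hn : 0 < ‖f x‖ := norm_pos_iff.2 h0
  have : ((Real.log (‖f x‖ / F) * u : ℝ) : ℂ) + (Real.log (‖f x‖ / F) * v : ℝ) * (θ : ℂ) =
      (Real.log (‖f x‖ / F) : ℝ) := by
    rw [← Complex.ofReal_mul, ← Complex.ofReal_add]
    congr 1
    linear_combination Real.log (‖f x‖ / F) * h
  rw [this, ← Complex.ofReal_exp, Real.exp_log (by positivity)]
  have h1 : (‖f x‖ : ℂ) ≠ 0 := by exact_mod_cast hn.ne'
  have h2 : (F : ℂ) ≠ 0 := by exact_mod_cast hF.ne'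
  simp only [Pi.smul_apply, smul_eq_mul]
  push_cast
  field_simp

theorem lin_expand {X : Type} [Fintype X] [DecidableEq X] {φ : (X → ℂ) → ℂ}
    (h : IsLinearMap ℂ φ) (f : X → ℂ) : φ f = ∑ x, f x * φ (Pi.single x 1) := by
  have := (h.mk' φ).pi_apply_eq_sum_univ f
  simp only [IsLinearMap.mk'_apply, smul_eq_mul] at this
  rw [this]
  refine sum_congr rfl fun x _ => ?_
  congr 2
  funext y
  simp [Pi.single_apply, eq_comm]

theorem eq_zero_of_lp {X E : Type} [Fintype X] [NormedAddCommGroup E] {p : ℝ} (hp : 0 < p)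
    {f : X → E} (h : lp p f ≤ 0) : f = 0 :=
  funext fun x => norm_le_zero_iff.1 ((norm_le_lp hp f x).trans h)

end Interp

open Interp

theorem stLayer : StLayer := by
  intro p a b hb hbp hpa
  obtain ⟨C, hC, h⟩ := dyadic_sum hb hbp hpa
  have hp : 0 < p := by linarith
  refine ⟨4 ^ p * C, by positivity, fun X Y _ _ W S A hA hW hS H => ?_⟩
  classical
  have hk : ∀ x, ∃ k : ℤ, 0 < W x → (2 : ℝ) ^ k < W x ∧ W x ≤ 4 * 2 ^ k := by
    intro x
    by_cases hx : 0 < W x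
    · obtain ⟨k, h1, h2⟩ := exists_mem_Ioc_zpow hx (one_lt_two (α := ℝ))
      refine ⟨k, fun _ => ⟨h1, h2.trans ?_⟩⟩
      rw [zpow_add_one₀ two_ne_zero]
      have : (0 : ℝ) < 2 ^ k := by positivity
      linarith
    · exact ⟨0, fun h => absurd h hx⟩
  choose k hk using hk
  set s := univ.image k
  have h1 : ∀ x, W x ^ p ≤ ∑ j ∈ s, if (2 : ℝ) ^ j < W x then 4 ^ p * ((2 : ℝ) ^ j) ^ p else 0 := by
    intro x
    rcases (hW x).eq_or_lt with h0 | h0
    · rw [← h0, Real.zero_rpow hp.ne']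
      exact sum_nonneg fun j _ => by split_ifs <;> positivity
    · refine le_trans ?_ (single_le_sum (f := fun j =>
        if (2 : ℝ) ^ j < W x then 4 ^ p * ((2 : ℝ) ^ j) ^ p else 0)
        (fun j _ => by split_ifs <;> positivity) (mem_image_of_mem k (mem_univ x)))
      rw [if_pos (hk x h0).1, ← Real.mul_rpow (by norm_num) (by positivity)]
      exact Real.rpow_le_rpow h0.le (hk x h0).2 hp.le
  refine (sum_le_sum fun x _ => h1 x).trans ?_
  rw [sum_comm]
  have h2 : ∀ j ∈ s, (∑ x, if (2 : ℝ) ^ j < W x then 4 ^ p * ((2 : ℝ) ^ j) ^ p else 0) ≤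
      4 ^ p * A * ∑ y, ((2 : ℝ) ^ j) ^ p * min ((S y / 2 ^ j) ^ a) ((S y / 2 ^ j) ^ b) := by
    intro j _
    rw [← sum_filter, sum_const, nsmul_eq_mul, ← mul_sum]
    have := mul_le_mul_of_nonneg_right (H (2 ^ j) (by positivity))
      (by positivity : (0 : ℝ) ≤ 4 ^ p * ((2 : ℝ) ^ j) ^ p)
    refine this.trans (le_of_eq ?_)
    ring
  refine (sum_le_sum h2).trans ?_
  rw [← mul_sum, sum_comm]
  calc _ ≤ 4 ^ p * A * ∑ y, C * S y ^ p := by
        gcongr with y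
        exact h s (S y) (hS y)
    _ = _ := by rw [← mul_sum]; ring

theorem stInterp : StInterp := by
  intro X Y Z _ _ _ T h₀ h₁ a₀ a₁ b₀ b₁ a b θ B₀ B₁ hl hr p₀ p₁ ha₀ ha₁ hb₀ hb₁ hθ0 hθ1 ha hb
    hB₀ hB₁ H₀ H₁ f g
  classical
  have pos : ∀ {c c₀ c₁ : ℝ}, 1 ≤ c₀ → 1 ≤ c₁ → c⁻¹ = (1 - θ) * c₀⁻¹ + θ * c₁⁻¹ → 0 < c := by
    intro c c₀ c₁ e0 e1 e
    have i0 : 0 < c₀⁻¹ := by positivity
    have i1 : 0 < c₁⁻¹ := by positivity
    have : 0 < c⁻¹ := by
      rw [e]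
      rcases hθ0.eq_or_lt with h | h
      · rw [← h]; simpa using i0
      · have := mul_nonneg (sub_nonneg.2 hθ1) i0.le
        have := mul_pos h i1
        linarith
    exact inv_pos.1 this
  have ha' := pos ha₀ ha₁ ha
  have hb' := pos hb₀ hb₁ hb
  rcases (lp_nonneg a f).eq_or_lt with hF | hF
  · have : f = 0 := eq_zero_of_lp ha' hF.ge
    have h0 : ∀ z, T f g z = 0 := fun z => by rw [this]; exact (hl g z).map_zero
    simp [h0, ← hF]
  rcases (lp_nonneg b g).eq_or_lt with hG | hG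
  · have : g = 0 := eq_zero_of_lp hb' hG.ge
    have h0 : ∀ z, T f g z = 0 := fun z => by rw [this]; exact (hr f z).map_zero
    simp [h0, ← hG]
  set F := lp a f
  set G := lp b g
  choose ε hε1 hε using fun z => Complex.exists_norm_eq_mul_self (T f g z)
  let fs := fam f F (a * a₀⁻¹) (a * (a₁⁻¹ - a₀⁻¹))
  let gs := fam g G (b * b₀⁻¹) (b * (b₁⁻¹ - b₀⁻¹))
  let w : Z → ℂ → ℂ := fun z s =>
    Complex.exp ((Real.log (h₀ z) : ℝ) + (Real.log (h₁ z) - Real.log (h₀ z) : ℝ) * s)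
  have hw : ∀ z s, ‖w z s‖ = h₀ z ^ (1 - s.re) * h₁ z ^ s.re := by
    intro z s
    rw [Real.rpow_def_of_pos (p₀ z), Real.rpow_def_of_pos (p₁ z), ← Real.exp_add]
    simp only [w, Complex.norm_exp, Complex.add_re, Complex.ofReal_re, Complex.mul_re,
      Complex.ofReal_im, zero_mul, sub_zero]
    congr 1; ring
  have hexp : ∀ s : ℂ, ∑ i : Z × X × Y, (ε i.1 * (f i.2.1 / ‖f i.2.1‖) * (g i.2.2 / ‖g i.2.2‖) *
      T (Pi.single i.2.1 1) (Pi.single i.2.2 1) i.1) * Complex.exp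
      ((Real.log (h₀ i.1) + Real.log (‖f i.2.1‖ / F) * (a * a₀⁻¹) +
        Real.log (‖g i.2.2‖ / G) * (b * b₀⁻¹) : ℝ) +
      ((Real.log (h₁ i.1) - Real.log (h₀ i.1)) + Real.log (‖f i.2.1‖ / F) * (a * (a₁⁻¹ - a₀⁻¹)) +
        Real.log (‖g i.2.2‖ / G) * (b * (b₁⁻¹ - b₀⁻¹)) : ℝ) * s) =
      ∑ z, ε z * w z s * T (fs s) (gs s) z := by
    intro s
    rw [Fintype.sum_prod_type]
    refine sum_congr rfl fun z _ => ?_
    rw [Fintype.sum_prod_type, lin_expand (hl (gs s) z), mul_sum]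
    refine sum_congr rfl fun x _ => ?_
    rw [lin_expand (hr _ z), mul_sum, mul_sum]
    refine sum_congr rfl fun y _ => ?_
    simp only [w, fs, gs, fam]
    have : ∀ u v t : ℂ, Complex.exp (u + v + t) = Complex.exp u * Complex.exp v * Complex.exp t := by
      intro u v t; rw [Complex.exp_add, Complex.exp_add]
    rw [show (((Real.log (h₀ z) + Real.log (‖f x‖ / F) * (a * a₀⁻¹) +
        Real.log (‖g y‖ / G) * (b * b₀⁻¹) : ℝ) : ℂ) +
      ((Real.log (h₁ z) - Real.log (h₀ z)) + Real.log (‖f x‖ / F) * (a * (a₁⁻¹ - a₀⁻¹)) +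
        Real.log (‖g y‖ / G) * (b * (b₁⁻¹ - b₀⁻¹)) : ℝ) * s) =
      (((Real.log (h₀ z) : ℝ) : ℂ) + (Real.log (h₁ z) - Real.log (h₀ z) : ℝ) * s) +
      (((Real.log (‖f x‖ / F) * (a * a₀⁻¹) : ℝ) : ℂ) +
        (Real.log (‖f x‖ / F) * (a * (a₁⁻¹ - a₀⁻¹)) : ℝ) * s) +
      (((Real.log (‖g y‖ / G) * (b * b₀⁻¹) : ℝ) : ℂ) +
        (Real.log (‖g y‖ / G) * (b * (b₁⁻¹ - b₀⁻¹)) : ℝ) * s) by push_cast; ring, this]
    ring
  have hbd : ∀ s : ℂ, ‖∑ z, ε z * w z s * T (fs s) (gs s) z‖ ≤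
      ∑ z, h₀ z ^ (1 - s.re) * h₁ z ^ s.re * ‖T (fs s) (gs s) z‖ := fun s =>
    (norm_sum_le _ _).trans (le_of_eq (sum_congr rfl fun z _ => by
      rw [norm_mul, norm_mul, hε1, hw, one_mul]))
  have key := three _ _ _ (B₀ := B₀) (B₁ := B₁) hθ0 hθ1
    (fun s hs => by
      rw [hexp]
      refine (hbd s).trans ?_
      simp only [hs, sub_zero, Real.rpow_one, Real.rpow_zero, mul_one]
      refine (H₀ _ _).trans ?_
      have e1 : lp a₀ (fs s) ≤ 1 := lp_fam f ha' (by linarith) hF _ _ s (by rw [hs]; ring)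
      have e2 : lp b₀ (gs s) ≤ 1 := lp_fam g hb' (by linarith) hG _ _ s (by rw [hs]; ring)
      have := lp_nonneg b₀ (gs s)
      calc _ ≤ B₀ * 1 * 1 := by gcongr
        _ = _ := by ring)
    (fun s hs => by
      rw [hexp]
      refine (hbd s).trans ?_
      simp only [hs, sub_self, Real.rpow_one, Real.rpow_zero, one_mul]
      refine (H₁ _ _).trans ?_
      have e1 : lp a₁ (fs s) ≤ 1 := lp_fam f ha' (by linarith) hF _ _ s (by rw [hs]; ring)
      have e2 : lp b₁ (gs s) ≤ 1 := lp_fam g hb' (by linarith) hG _ _ s (by rw [hs]; ring)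
      have := lp_nonneg b₁ (gs s)
      calc _ ≤ B₁ * 1 * 1 := by gcongr
        _ = _ := by ring)
  rw [hexp] at key
  have e1 : fs θ = (F : ℂ)⁻¹ • f := fam_self f hF _ _ θ (by
    have := mul_inv_cancel₀ ha'.ne'
    rw [ha] at this; linear_combination this)
  have e2 : gs θ = (G : ℂ)⁻¹ • g := fam_self g hG _ _ θ (by
    have := mul_inv_cancel₀ hb'.ne'
    rw [hb] at this; linear_combination this)
  have e3 : ∀ z, ε z * w z θ * T (fs θ) (gs θ) z =
      ((F⁻¹ * G⁻¹ * (h₀ z ^ (1 - θ) * h₁ z ^ θ * ‖T f g z‖) : ℝ) : ℂ) := by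
    intro z
    have hw' : w z θ = ((h₀ z ^ (1 - θ) * h₁ z ^ θ : ℝ) : ℂ) := by
      rw [Real.rpow_def_of_pos (p₀ z), Real.rpow_def_of_pos (p₁ z), ← Real.exp_add,
        Complex.ofReal_exp]
      simp only [w]
      congr 1; push_cast; ring
    rw [e1, e2, (hl _ z).map_smul, (hr _ z).map_smul, hw']
    have := hε z
    push_cast
    simp only [smul_eq_mul]
    rw [this]; ring
  simp only [e3] at key
  rw [← Complex.ofReal_sum, Complex.norm_real, ← mul_sum] at key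
  have k2 := (le_abs_self _).trans key
  calc _ = F * G * (F⁻¹ * G⁻¹ * ∑ z, h₀ z ^ (1 - θ) * h₁ z ^ θ * ‖T f g z‖) := by field_simp
    _ ≤ F * G * (B₀ ^ (1 - θ) * B₁ ^ θ) := by gcongr
    _ = _ := by ring

theorem lp_le_of_dual {X : Type} [Fintype X] {p q B : ℝ} (hp : 1 < p) (hpq : p⁻¹ + q⁻¹ = 1)
    (hB : 0 ≤ B) (φ : X → ℂ) (h : ∀ g : X → ℂ, ‖∑ x, φ x * g x‖ ≤ B * lp q g) : lp p φ ≤ B := by
  have hp0 : 0 < p := by linarith
  have hq0 : 0 < q := by
    have := inv_lt_one_of_one_lt₀ hp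
    exact inv_pos.1 (by linarith)
  rcases (lp_nonneg p φ).eq_or_lt with h0 | h0
  · rw [← h0]; exact hB
  choose ε hε1 hε using fun x => Complex.exists_norm_eq_mul_self (φ x)
  have hq : (p - 1) * q = p := by field_simp at hpq; linarith
  have h1 := h fun x => ε x * (‖φ x‖ ^ (p - 1) : ℝ)
  have e1 : ∀ x, φ x * (ε x * (‖φ x‖ ^ (p - 1) : ℝ)) = ((‖φ x‖ ^ p : ℝ) : ℂ) := by
    intro x
    have e5 : ‖φ x‖ ^ p = ‖φ x‖ ^ (p - 1) * ‖φ x‖ := by
      rw [← Real.rpow_add_one' (norm_nonneg _) (by linarith)]; congr 1; ring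
    rw [e5, Complex.ofReal_mul, hε x]; ring
  have e2 : lp q (fun x => ε x * (‖φ x‖ ^ (p - 1) : ℝ)) = lp p φ ^ (p - 1) := by
    unfold lp
    have : ∀ x, ‖ε x * (‖φ x‖ ^ (p - 1) : ℝ)‖ ^ q = ‖φ x‖ ^ p := fun x => by
      rw [norm_mul, hε1, one_mul, Complex.norm_real, Real.norm_of_nonneg (by positivity),
        ← Real.rpow_mul (norm_nonneg _), hq]
    simp only [this]
    rw [← Real.rpow_mul (sum_rpow_nonneg _ _)]
    congr 1
    field_simp
    linarith
  simp only [e1] at h1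
  rw [← Complex.ofReal_sum, Complex.norm_real, ← lp_rpow hp0, e2,
    Real.norm_of_nonneg (by positivity)] at h1
  have e7 : lp p φ ^ p = lp p φ * lp p φ ^ (p - 1) := by
    rw [mul_comm, ← Real.rpow_add_one h0.ne']; congr 1; ring
  rw [e7] at h1
  exact le_of_mul_le_mul_right h1 (by positivity)

theorem norm_sum_mul_le {X : Type} [Fintype X] {p q : ℝ} (hp : 0 < p) (hq : 0 < q)
    (hpq : p⁻¹ + q⁻¹ = 1) (f g : X → ℂ) : ‖∑ x, f x * g x‖ ≤ lp p f * lp q g :=
  (norm_sum_le _ _).trans (by simpa using sum_mul_le_lp hp hq hpq f g)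

theorem stDual : StDual := by
  intro X _ T S p q B hp hpq hB h1 h2 f
  have hq0 : 0 < q := by
    have := inv_lt_one_of_one_lt₀ hp
    exact inv_pos.1 (by linarith)
  refine lp_le_of_dual hp hpq (mul_nonneg hB (lp_nonneg _ _)) _ fun g => ?_
  rw [h1]
  refine (norm_sum_mul_le (by linarith) hq0 hpq _ _).trans ?_
  calc _ ≤ lp p f * (B * lp q g) := mul_le_mul_of_nonneg_left (h2 g) (lp_nonneg _ _)
    _ = _ := by ring

theorem stRT : StRT := by
  intro X _ T a b p B hT ha hap hpb Ha Hb f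
  have hp : 1 < p := by linarith
  have hb : 1 < b := by linarith
  rcases le_or_gt B 0 with hB | hB
  · have h0 : T f = 0 := eq_zero_of_lp (by linarith : 0 < a)
      ((Ha f).trans (mul_nonpos_of_nonpos_of_nonneg hB (lp_nonneg _ _)))
    rcases hB.eq_or_lt with hB | hB
    · rw [h0, hB, zero_mul]; exact (lp_zero (by linarith)).le
    · have h1 : lp a f ≤ 0 := by
        by_contra hc
        have := mul_neg_of_neg_of_pos hB (not_le.1 hc)
        linarith [lp_nonneg a (T f), Ha f]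
      have h2 : f = 0 := eq_zero_of_lp (by linarith) h1
      rw [h0, h2]
      have : lp p (0 : X → ℂ) = 0 := lp_zero (by linarith)
      rw [this, mul_zero]
  rcases (hap.trans hpb).eq_or_lt with hab | hab
  · have : p = a := le_antisymm (by linarith) hap
    rw [this]; exact Ha f
  have i1 : b⁻¹ < a⁻¹ := inv_strictAnti₀ (by linarith) hab
  have i2 : p⁻¹ ≤ a⁻¹ := inv_anti₀ (by linarith) hap
  have i3 : b⁻¹ ≤ p⁻¹ := inv_anti₀ (by linarith) hpb
  have c1 : ∀ {c : ℝ}, 1 < c → 1 ≤ (1 - c⁻¹)⁻¹ := fun {c} hc => by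
    have := inv_lt_one_of_one_lt₀ hc
    have : 0 < c⁻¹ := by positivity
    exact (one_le_inv₀ (by linarith)).2 (by linarith)
  set θ := (a⁻¹ - p⁻¹) / (a⁻¹ - b⁻¹) with hθ
  have hd : 0 < a⁻¹ - b⁻¹ := by linarith
  have e : θ * (a⁻¹ - b⁻¹) = a⁻¹ - p⁻¹ := div_mul_cancel₀ _ hd.ne'
  have key := stInterp X X Unit (fun f g _ => ∑ x, T f x * g x) (fun _ => 1) (fun _ => 1)
    a b (1 - a⁻¹)⁻¹ (1 - b⁻¹)⁻¹ p (1 - p⁻¹)⁻¹ θ B B
    (fun g _ => ⟨fun u v => by simp [hT.map_add, add_mul, sum_add_distrib],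
      fun c u => by simp [hT.map_smul, mul_sum, mul_assoc]⟩)
    (fun f _ => ⟨fun u v => by simp [mul_add, sum_add_distrib],
      fun c u => by simp [mul_sum, mul_left_comm]⟩)
    (fun _ => one_pos) (fun _ => one_pos) ha.le hb.le (c1 ha) (c1 hb)
    (div_nonneg (by linarith) hd.le) ((div_le_one hd).2 (by linarith)) (by linear_combination e)
    (by simp only [inv_inv]; linear_combination -e) hB hB
    (fun f g => by
      simp only [univ_unique, sum_singleton, one_mul]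
      refine (norm_sum_mul_le (p := a) (q := (1 - a⁻¹)⁻¹) (by linarith) (by linarith [c1 ha])
        (by simp) _ _).trans ?_
      exact mul_le_mul_of_nonneg_right (Ha f) (lp_nonneg _ _))
    (fun f g => by
      simp only [univ_unique, sum_singleton, one_mul]
      refine (norm_sum_mul_le (p := b) (q := (1 - b⁻¹)⁻¹) (by linarith) (by linarith [c1 hb])
        (by simp) _ _).trans ?_
      exact mul_le_mul_of_nonneg_right (Hb f) (lp_nonneg _ _))
  refine lp_le_of_dual hp (q := (1 - p⁻¹)⁻¹) (by simp) (mul_nonneg hB.le (lp_nonneg _ _)) _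
    fun g => ?_
  have := key f g
  simp only [univ_unique, sum_singleton, Real.one_rpow, one_mul] at this
  rwa [← Real.rpow_add hB, sub_add_cancel, Real.rpow_one] at this

end

end Pool.Agent.Lib.MP_10e396_an
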