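import Pool.Agent.Lib.MP_10e396_an.Inv4

/-! The inverse theorem for the bilinear polynomial average. -/

set_option autoImplicit false

namespace Pool.Agent.Lib.MP_10e396_an

open Finset Polynomial ComplexConjugate
open scoped BigOperators

noncomputable section

namespace Inv

lemma dual {M : ℕ} [NeZero M] (P : ℤ[X]) (N : ℕ) (h f g : ZMod M → ℂ) :
    ∑ x, h x * AA X P N f g x = ∑ z, g z * DP P N h f z := by
  simp only [AA, DP, Df, av_eq, mul_expect]
  rw [← expect_sum_comm, ← expect_sum_comm]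
  refine expect_congr rfl fun n _ => Fintype.sum_equiv (Equiv.addRight (pe P n)) _ _ fun x => ?_
  rw [Equiv.coe_addRight, show x + pe P n + -pe P n = x by ring,
    show x + pe P n + (-pe P n + (n : ZMod M)) = x + pe X n by simp [pe]]
  ring

lemma final (h2 : StWeyl) (P : ℤ[X]) (hd : 2 ≤ P.natDegree) : ∃ b : ℕ, 2 ≤ b ∧
    ∀ (M : ℕ) [NeZero M] (N : ℕ) (η : ℝ) (h f : ZMod M → ℂ), 0 < η → η ≤ 1 / 2 → η⁻¹ ^ b ≤ N →
      (∀ x, ‖h x‖ ≤ 1) → (∀ x, ‖f x‖ ≤ 1) → η ≤ Gow 2 (DP P N h f) →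
      ∃ q N' : ℕ, 1 ≤ q ∧ (q : ℝ) ≤ η⁻¹ ^ b ∧ η ^ b * N ≤ N' ∧ q * N' ≤ N ∧
        η ^ b ≤ 𝔼 x, ‖𝔼 y ∈ range N', f (x + q * y)‖ := by
  obtain ⟨c, hc⟩ := arc h2 P hd
  obtain ⟨A, hA⟩ := poly_lip P
  obtain ⟨c', hc'⟩ := kit (2 + 2 * Real.pi * A * 2 ^ (P.natDegree - 1))
  refine ⟨c + c' + 2 + 1, by omega, fun M _ N η h f h0 h1 hN hh hf hη => ?_⟩
  have i2 := two_le_inv h0 h1
  have N1 : (1 : ℝ) ≤ N := (one_le_pow₀ (one_le_two.trans i2)).trans hN
  have N1' : 1 ≤ N := by exact_mod_cast N1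
  have hD := df_le N (fun n => -pe P n) (fun n => -pe P n + (n : ZMod M)) hh hf
  obtain ⟨ξ, hξ⟩ := gow_two_le hD
  have hξ' : η ≤ ‖hat (DP P N h f) ξ‖ := hη.trans (hξ.trans
    (pow_le_of_le_one (norm_nonneg _) (hat_le hD ξ) two_ne_zero))
  obtain ⟨q, q1, q2, q3⟩ := hc M N h f ξ η N1' hh hf h0 h1 hξ'
  set ρ := η ^ (c + c' + 2) with hρ
  have ρ0 : 0 < ρ := pow_pos h0 _
  have a0 : 1 ≤ ρ * η * N := by
    have := mul_le_mul_of_nonneg_left hN (pow_pos h0 (c + c' + 2 + 1)).le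
    rwa [← mul_pow, mul_inv_cancel₀ h0.ne', one_pow, pow_succ] at this
  have a1 : (⌈ρ * η * N⌉₊ : ℝ) ≤ ρ * N := by
    have := Nat.ceil_lt_add_one (a := ρ * η * N) (by positivity)
    have : 0 ≤ ρ * N := by positivity
    nlinarith
  have a2 := Nat.le_ceil (ρ * η * N)
  generalize ⌈ρ * η * N⌉₊ = N' at a1 a2
  have a3 : η⁻¹ ^ c * η⁻¹ ^ c' * ρ = η ^ 2 := by
    rw [hρ, pow_add, pow_add, inv_pow, inv_pow]; field_simp
  have i0 : 0 < η⁻¹ ^ c := by positivity
  have i1 : 1 ≤ η⁻¹ ^ c' := one_le_pow₀ (one_le_two.trans i2)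
  have a4 : q * N' ≤ N := by
    have : (q : ℝ) * N' ≤ N := by
      calc _ ≤ η⁻¹ ^ c * (ρ * N) := mul_le_mul q2 a1 (Nat.cast_nonneg _) i0.le
        _ ≤ η⁻¹ ^ c * η⁻¹ ^ c' * (ρ * N) :=
            mul_le_mul_of_nonneg_right (le_mul_of_one_le_right i0.le i1) (by positivity)
        _ = η ^ 2 * N := by rw [← mul_assoc, a3]
        _ ≤ N := mul_le_of_le_one_left (by positivity) (by nlinarith)
    exact_mod_cast this
  refine ⟨q, N', q1, q2.trans (inv_mono h0 h1 (by omega)), by rwa [pow_succ], a4, ?_⟩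
  have a5 := hξ'.trans (endstep P A hA N N' q N1' (by exact_mod_cast a0.trans a2) q1 a4 hh hf ξ)
  have a6 : 2 * q * N' / N + 2 * Real.pi * (N' * A * (2 * N) ^ (P.natDegree - 1)) *
      nd (q * (ξ.val : ℝ) / M) ≤ η ^ 2 := by
    have := Real.pi_pos
    have e : (N : ℝ) ^ P.natDegree = N ^ (P.natDegree - 1) * N := by
      rw [← pow_succ]; congr 1; omega
    calc _ ≤ 2 * η⁻¹ ^ c * (ρ * N) / N + 2 * Real.pi * (ρ * N * A * (2 * N) ^ (P.natDegree - 1)) *
          (η⁻¹ ^ c / (N : ℝ) ^ P.natDegree) := by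
          have : 0 ≤ nd (q * (ξ.val : ℝ) / M) := abs_nonneg _
          gcongr
      _ = η⁻¹ ^ c * (2 + 2 * Real.pi * A * 2 ^ (P.natDegree - 1)) * ρ := by
          rw [e, mul_pow]; field_simp
      _ ≤ _ := by rw [← a3]; gcongr; exact hc' η h0 h1
  have a7 : η ^ (c + c' + 2 + 1) ≤ η ^ 2 := pow_anti h0 h1 (by omega)
  nlinarith

/-- the inverse theorem on cyclic groups -/
lemma cyc (h1 : StUctl) (h2 : StWeyl) (h3 : StCount) (P : ℤ[X]) (hd : 2 ≤ P.natDegree) (Γ : ℕ) :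
    ∃ C : ℕ, ∀ (M : ℕ) [NeZero M] (N : ℕ) (δ : ℝ) (h f g : ZMod M → ℂ),
      M ≤ Γ * N ^ P.natDegree → 0 < δ → δ ≤ 1 / 2 → δ⁻¹ ^ C ≤ N → (∀ x, ‖h x‖ ≤ 1) →
      (∀ x, ‖f x‖ ≤ 1) → (∀ x, ‖g x‖ ≤ 1) → δ * M ≤ ‖∑ x, h x * AA X P N f g x‖ →
      ∃ q N' : ℕ, 1 ≤ q ∧ (q : ℝ) ≤ δ⁻¹ ^ C ∧ δ ^ C * N ≤ N' ∧ q * N' ≤ N ∧
        δ ^ C * M ≤ ∑ x, ‖av N' fun y => f (x + q * y)‖ := by
  obtain ⟨s, C₁, hs, H₁⟩ := h1 P Γ hd
  obtain ⟨s, rfl⟩ := Nat.exists_eq_add_of_le' hs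
  obtain ⟨K, hK⟩ := maj h2 h3 P hd Γ
  obtain ⟨C₂, hC₂, H₂⟩ := lower_all K s
  obtain ⟨b, hb, H₃⟩ := final h2 P hd
  refine ⟨(2 * C₁ + 1) * C₂ * b, fun M _ N δ h f g hM h0 d1 hN hh hf hg hδ => ?_⟩
  have M0 : (0 : ℝ) < M := Nat.cast_pos.2 (NeZero.pos M)
  have N1 : 1 ≤ N := by
    exact_mod_cast (one_le_pow₀ (one_le_two.trans (two_le_inv h0 d1))).trans hN
  have hD := df_le N (fun n => -pe P n) (fun n => -pe P n + (n : ZMod M)) hh hf
  have e1 : δ ≤ 𝔼 z, ‖DP P N h f z‖ := by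
    rw [Fintype.expect_eq_sum_div_card, ZMod.card, le_div_iff₀ M0]
    rw [dual] at hδ
    refine hδ.trans ((norm_sum_le _ _).trans (sum_le_sum fun z _ => ?_))
    rw [norm_mul]
    exact mul_le_of_le_one_left (norm_nonneg _) (hg z)
  have e2 : δ ^ 2 * M ≤ ‖∑ x, h x * AA X P N f (fun z => conj (DP P N h f z)) x‖ := by
    have := (pow_le_pow_left₀ h0.le e1 2).trans (sq_exp_le _ _)
    rw [Fintype.expect_eq_sum_div_card, ZMod.card, le_div_iff₀ M0] at this
    rw [dual]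
    refine this.trans (le_trans (le_of_eq ?_) (Complex.re_le_norm _))
    rw [Complex.re_sum]
    refine sum_congr rfl fun z _ => ?_
    rw [mul_comm, Complex.mul_conj, Complex.ofReal_re, Complex.normSq_eq_norm_sq]
  have p1 : 1 ≤ (2 * C₁ + 1) * C₂ := Nat.mul_pos (by omega) hC₂
  have e3 := H₁ M N (δ ^ 2) h f (fun z => conj (DP P N h f z)) hM (pow_pos h0 2) (pow_half h0 d1 one_le_two) (by
    rw [← inv_pow, ← pow_mul]
    refine (inv_mono h0 d1 ?_).trans hN
    nlinarith [Nat.mul_pos hC₂ (show 0 < b by omega)]) hh hf (fun z => conj_le1 (hD z)) e2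
  have e4 : (fun z => conj (DP P N h f z)) =
      DP P N (fun x => conj (h x)) fun x => conj (f x) := by
    funext z
    simp only [DP, Df, conj_exp, map_mul]
  rw [e4, ← pow_mul] at e3
  have e5 := H₂ M N _ _ _ _ (δ ^ (2 * C₁ + 1)) (hK M N N1 hM) (fun x => conj_le1 (hh x))
    (fun x => conj_le1 (hf x)) (pow_pos h0 _) (pow_half h0 d1 (by omega))
    ((pow_anti h0 d1 (by omega)).trans e3)
  rw [← pow_mul] at e5
  obtain ⟨q, N', q1, q2, q3, q4, q5⟩ := H₃ M N _ _ _ (pow_pos h0 _) (pow_half h0 d1 p1)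
    (by rwa [← inv_pow, ← pow_mul]) (fun x => conj_le1 (hh x)) (fun x => conj_le1 (hf x)) e5
  rw [← inv_pow, ← pow_mul] at q2
  rw [← pow_mul] at q3 q5
  refine ⟨q, N', q1, q2, q3, q4, ?_⟩
  rw [Fintype.expect_eq_sum_div_card, ZMod.card, le_div_iff₀ M0] at q5
  refine q5.trans (le_of_eq (sum_congr rfl fun x _ => ?_))
  rw [← conj_exp, Complex.norm_conj, av_eq]

lemma sum_zmod {M : ℕ} [NeZero M] {E : Type} [AddCommMonoid E] (φ : ZMod M → E) :
    ∑ z, φ z = ∑ x ∈ range M, φ x :=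
  sum_nbij' (fun z => z.val) (fun x => (x : ZMod M)) (fun z _ => mem_range.2 (ZMod.val_lt z))
    (fun _ _ => mem_univ _) (fun z _ => ZMod.natCast_zmod_val z)
    (fun _ hx => ZMod.val_natCast_of_lt (mem_range.1 hx))
    fun z _ => by rw [ZMod.natCast_zmod_val]

lemma sum_lt {E : Type} [AddCommMonoid E] {L M : ℕ} (h : L ≤ M) (φ : ℕ → E) :
    ∑ x ∈ range M, (if x < L then φ x else 0) = ∑ x ∈ range L, φ x := by
  rw [← sum_filter]
  refine sum_congr ?_ fun _ _ => rfl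
  ext x
  simp only [mem_filter, mem_range]
  omega

lemma sum_ind (M a N : ℕ) : ∑ x ∈ range M, (if x < a ∧ a ≤ x + N then (1 : ℝ) else 0) ≤ N := by
  rw [sum_boole]
  have : ((range M).filter fun x => x < a ∧ a ≤ x + N) ⊆ Ico (a - N) a := fun x hx => by
    simp only [mem_filter, mem_range, mem_Ico] at hx ⊢
    omega
  have := card_le_card this
  rw [Nat.card_Ico] at this
  exact_mod_cast this.trans (by omega)

end Inv

open _root_.Pool.Agent.Lib.MP_10e396_an.Inv in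
theorem stInv (h1 : StUctl) (h2 : StWeyl) (h3 : StCount) : StInv := by
  intro P hd
  obtain ⟨A₀, hA₀⟩ := poly_lip P
  set A := A₀ + (P.eval 0).natAbs with hA
  obtain ⟨C, H⟩ := cyc h1 h2 h3 P hd (2 * A + 2)
  obtain ⟨c, hc⟩ := kit (2 * A + 2 : ℕ)
  refine ⟨(c + 1) * C + 2, by omega, fun N δ h f g h0 d1 hN hh hf hg hδ => ?_⟩
  have i2 := two_le_inv h0 d1
  have N1 : 1 ≤ N := by exact_mod_cast (one_le_pow₀ (one_le_two.trans i2)).trans hN
  set L := N ^ P.natDegree with hL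
  have eL : L = N ^ (P.natDegree - 1) * N := by
    rw [← pow_succ, Nat.sub_add_cancel (by omega)]
  have NL : N * N ≤ L := by
    rw [← sq]; exact Nat.pow_le_pow_right N1 hd
  have NL' : N ≤ L := (Nat.le_mul_of_pos_left N N1).trans NL
  have hP : ∀ n < N, |P.eval (n : ℤ)| ≤ (A * L : ℕ) := by
    intro n hn
    have a := hA₀ n 0 N (by omega) (by rw [abs_of_nonneg (by positivity)]; omega) (by simp)
    have a' : |(n : ℤ) - 0| * A₀ * (N : ℤ) ^ (P.natDegree - 1) ≤ (A₀ * L : ℕ) := by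
      rw [sub_zero, abs_of_nonneg (by positivity), eL]
      push_cast
      calc _ ≤ (N : ℤ) * A₀ * N ^ (P.natDegree - 1) := by gcongr
        _ = _ := by ring
    have a'' : |P.eval 0| ≤ ((P.eval 0).natAbs * L : ℕ) := by
      rw [Int.abs_eq_natAbs]
      exact_mod_cast Nat.le_mul_of_pos_right _ (by omega)
    have := abs_add_le (P.eval (n : ℤ) - P.eval 0) (P.eval 0)
    rw [sub_add_cancel] at this
    rw [hA, add_mul, Nat.cast_add]
    linarith
  obtain ⟨M, hM⟩ : ∃ M, M = (2 * A + 2) * L := ⟨_, rfl⟩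
  have hM' : M = 2 * (A * L) + 2 * L := by rw [hM]; ring
  have : NeZero M := ⟨by omega⟩
  set f' : ZMod M → ℂ := fun z => if z.val < 2 * L then f z.val else 0 with hf'
  have f1 : ∀ z, ‖f' z‖ ≤ 1 := fun z => by
    simp only [hf']
    split_ifs
    · exact hf _
    · simp
  have f2 : ∀ x : ℕ, x < M → f' x = if x < 2 * L then f x else 0 := fun x hx => by
    simp only [hf', ZMod.val_natCast_of_lt hx]
  have L0 : (0 : ℝ) < L := Nat.cast_pos.2 (by omega)
  obtain ⟨q, N', q1, q2, q3, q4, q5⟩ := H M N (δ ^ (c + 1))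
    (fun z => if z.val < L then h z.val else 0) f'
    (fun z => g (((z + ((A * L : ℕ) : ZMod M)).val : ℤ) - (A * L : ℕ))) hM.le (pow_pos h0 _)
    (pow_half h0 d1 (by omega))
    (by rw [← inv_pow, ← pow_mul]; exact (inv_mono h0 d1 (by omega)).trans hN)
    (fun z => by
      split_ifs
      · exact hh _
      · simp) f1 (fun _ => hg _) (by
      refine le_trans ?_ (hδ.trans (le_of_eq ?_))
      · rw [hM, Nat.cast_mul, ← Nat.cast_pow, ← hL, ← mul_assoc]
        refine mul_le_mul_of_nonneg_right ?_ L0.le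
        calc _ ≤ δ ^ (c + 1) * δ⁻¹ ^ c := mul_le_mul_of_nonneg_left (hc δ h0 d1) (by positivity)
          _ = δ := by rw [pow_succ, inv_pow]; field_simp
      · congr 1
        rw [sum_zmod, ← sum_lt (show L ≤ M by omega)]
        refine sum_congr rfl fun x hx => ?_
        rw [ZMod.val_natCast_of_lt (mem_range.1 hx)]
        split_ifs with hxL
        · rw [AA, av_eq, av_eq]
          congr 1
          refine expect_congr rfl fun n hn => ?_
          have hn := mem_range.1 hn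
          have b1 := abs_le.1 (hP n hn)
          rw [show (x : ZMod M) + pe X n = ((x + n : ℕ) : ZMod M) by simp [pe],
            f2 _ (by omega), if_pos (by omega),
            show (x : ZMod M) + pe P n + ((A * L : ℕ) : ZMod M) =
              ((x + P.eval (n : ℤ) + (A * L : ℕ) : ℤ) : ZMod M) by
                simp only [pe, Int.cast_add, Int.cast_natCast],
            ZMod.val_intCast, Int.emod_eq_of_lt (by omega) (by omega), add_sub_cancel_right,
            Nat.cast_add]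
        · rw [zero_mul])
  rw [← inv_pow, ← pow_mul] at q2
  rw [← pow_mul] at q3 q5
  refine ⟨q, N', q1, q2.trans (inv_mono h0 d1 (by omega)),
    (mul_le_mul_of_nonneg_right (pow_anti h0 d1 (by omega)) (Nat.cast_nonneg _)).trans q3, ?_⟩
  have e1 : ∑ x : ZMod M, ‖av N' fun y => f' (x + q * y)‖ ≤
      ∑ x ∈ range (2 * L), ‖av N' fun y => f (x + q * y)‖ + N + N := by
    rw [sum_zmod, ← sum_lt (show 2 * L ≤ M by omega)]
    refine le_trans ?_ (add_le_add (add_le_add le_rfl (sum_ind M (2 * L) N)) (sum_ind M M N))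
    rw [← sum_add_distrib, ← sum_add_distrib]
    refine sum_le_sum fun x hx => ?_
    have hx := mem_range.1 hx
    have b0 : ‖av N' fun y => f' (x + q * y)‖ ≤ 1 := by
      rw [av_eq]; exact nexp_le_one _ fun _ _ => f1 _
    have b1 : ∀ y ∈ range N', q * y ≤ N := fun y hy =>
      (Nat.mul_le_mul_left q (mem_range.1 hy).le).trans q4
    have b2 : ∀ y : ℕ, (x : ZMod M) + q * y = ((x + q * y : ℕ) : ZMod M) := fun y => by
      push_cast; rfl
    have b3 := norm_nonneg (av N' fun y => f (x + q * y))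
    by_cases k1 : x < M ∧ M ≤ x + N
    · rw [if_pos k1]
      split_ifs <;> linarith
    rw [if_neg k1, add_zero]
    by_cases k2 : x < 2 * L ∧ 2 * L ≤ x + N
    · rw [if_pos k2, if_pos k2.1]
      linarith
    rw [if_neg k2, add_zero]
    refine le_of_eq ?_
    split_ifs with k3
    · rw [av_eq, av_eq]
      congr 1
      refine expect_congr rfl fun y hy => ?_
      have := b1 y hy
      rw [b2, f2 _ (by omega), if_pos (by omega)]
      push_cast; rfl
    · rw [av_eq, expect_eq_zero, norm_zero]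
      intro y hy
      have := b1 y hy
      rw [b2, f2 _ (by omega), if_neg (by omega)]
  have e2 := q5.trans e1
  rw [← Nat.cast_pow, ← hL]
  set θ := δ ^ ((c + 1) * C) with hθ
  have θ0 : 0 < θ := pow_pos h0 _
  have e3 : 1 ≤ θ * δ ^ 2 * N := by
    have := mul_le_mul_of_nonneg_left hN (pow_pos h0 ((c + 1) * C + 2)).le
    rwa [← mul_pow, mul_inv_cancel₀ h0.ne', one_pow, pow_add] at this
  have e4 : (N : ℝ) * N ≤ L := by exact_mod_cast NL
  have e5 : (2 : ℝ) * L ≤ M := by exact_mod_cast (show 2 * L ≤ M by omega)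
  have N0 : (0 : ℝ) ≤ N := Nat.cast_nonneg _
  have e6 : δ ^ 2 ≤ 1 / 4 := by nlinarith
  have e7 : (N : ℝ) ≤ θ * δ ^ 2 * L :=
    calc _ ≤ θ * δ ^ 2 * N * N := le_mul_of_one_le_left N0 e3
      _ ≤ _ := by rw [mul_assoc]; exact mul_le_mul_of_nonneg_left e4 (by positivity)
  have e8 : θ * δ ^ 2 * L ≤ θ * (1 / 4) * L := by gcongr
  have e9 := mul_le_mul_of_nonneg_left e5 θ0.le
  have e10 : 0 ≤ θ * L := by positivity
  rw [pow_add, ← hθ]
  linarith

end

end Pool.Agent.Lib.MP_10e396_an
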