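import Pool.Agent.Lib.MP_10e396_an.Defs

/-! Cube calculus on tuples for the degree lowering argument. -/

set_option autoImplicit false

namespace Pool.Agent.Lib.MP_10e396_an.Inv

open Finset ComplexConjugate
open scoped BigOperators

noncomputable section

lemma sq_exp_le {ι : Type*} (s : Finset ι) (x : ι → ℝ) :
    (𝔼 i ∈ s, x i) ^ 2 ≤ 𝔼 i ∈ s, x i ^ 2 := by
  rcases s.eq_empty_or_nonempty with rfl | hs
  · simp
  have := expect_mul_sq_le_sq_mul_sq s x (fun _ => (1 : ℝ))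
  simpa [expect_const hs] using this

/-- Jensen for the powers `2 ^ m` -/
lemma jen {ι : Type*} (s : Finset ι) (m : ℕ) (x : ι → ℝ) :
    (𝔼 i ∈ s, x i) ^ 2 ^ m ≤ 𝔼 i ∈ s, x i ^ 2 ^ m := by
  induction m generalizing x with
  | zero => simp
  | succ m ih =>
    have e : ∀ y : ℝ, y ^ 2 ^ (m + 1) = (y ^ 2) ^ 2 ^ m := fun y => by
      rw [← pow_mul, pow_succ']
    simp only [e]
    exact (pow_le_pow_left₀ (sq_nonneg _) (sq_exp_le s x) _).trans (ih _)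

lemma nexp {ι : Type*} (s : Finset ι) (x : ι → ℂ) : ‖𝔼 i ∈ s, x i‖ ≤ 𝔼 i ∈ s, ‖x i‖ :=
  RCLike.norm_expect_le (K := ℂ)

lemma exp_le_one {ι : Type*} (s : Finset ι) {x : ι → ℝ} (h : ∀ i ∈ s, x i ≤ 1) :
    𝔼 i ∈ s, x i ≤ 1 := by
  rcases s.eq_empty_or_nonempty with rfl | hs
  · simp
  exact expect_le hs h

lemma nexp_le_one {ι : Type*} (s : Finset ι) {x : ι → ℂ} (h : ∀ i ∈ s, ‖x i‖ ≤ 1) :
    ‖𝔼 i ∈ s, x i‖ ≤ 1 := (nexp s x).trans (exp_le_one s h)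

lemma conj_exp {ι : Type*} (s : Finset ι) (x : ι → ℂ) :
    conj (𝔼 i ∈ s, x i) = 𝔼 i ∈ s, conj (x i) := by
  simp only [expect_eq_sum_div_card, map_div₀, map_sum, map_natCast]

lemma nsq_exp {ι : Type*} (s : Finset ι) (x : ι → ℂ) :
    ‖𝔼 i ∈ s, x i‖ ^ 2 = (𝔼 i ∈ s, 𝔼 j ∈ s, x i * conj (x j)).re := by
  rw [← expect_mul_expect, ← conj_exp, Complex.mul_conj, Complex.ofReal_re,
    Complex.normSq_eq_norm_sq]

lemma mul_le1 {a b : ℂ} (ha : ‖a‖ ≤ 1) (hb : ‖b‖ ≤ 1) : ‖a * b‖ ≤ 1 := by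
  rw [norm_mul]; exact mul_le_one₀ ha (norm_nonneg _) hb

lemma conj_le1 {a : ℂ} (ha : ‖a‖ ≤ 1) : ‖conj a‖ ≤ 1 := by rwa [Complex.norm_conj]

variable {G : Type} [Fintype G]

lemma exp_cons {E : Type} [AddCommMonoid E] [Module ℚ≥0 E] (m : ℕ) (φ : (Fin (m + 1) → G) → E) :
    𝔼 v, φ v = 𝔼 a, 𝔼 t : Fin m → G, φ (Fin.cons a t) := by
  rw [← expect_product' univ univ fun a (t : Fin m → G) => φ (Fin.cons a t), univ_product_univ]
  exact (Fintype.expect_equiv (Fin.consEquiv fun _ => G) _ _ fun _ => rfl).symm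

lemma exp_nil {E : Type} [AddCommMonoid E] [Module ℚ≥0 E] (φ : (Fin 0 → G) → E) :
    𝔼 v, φ v = φ Fin.elim0 := by
  rw [show (univ : Finset (Fin 0 → G)) = {Fin.elim0} from
    Finset.eq_singleton_iff_unique_mem.2 ⟨mem_univ _, fun _ _ => funext fun i => i.elim0⟩,
    expect_singleton]

/-- the multiplicative cube -/
def Cb {G : Type} : (m : ℕ) → ((Fin m → G) → ℂ) → (Fin m → G) → (Fin m → G) → ℂ
  | 0, Ψ, t, _ => Ψ t
  | m + 1, Ψ, t, s => Cb m (fun r => Ψ (Fin.cons (t 0) r) * conj (Ψ (Fin.cons (s 0) r)))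
      (Fin.tail t) (Fin.tail s)

/-- products of bounded functions, each missing one variable -/
def Lw {G : Type} : (m : ℕ) → ((Fin m → G) → ℂ) → Prop
  | 0, B => ∀ t, B t = 1
  | m + 1, B => ∃ (b : (Fin m → G) → ℂ) (B' : G → (Fin m → G) → ℂ), (∀ t, ‖b t‖ ≤ 1) ∧
      (∀ a, Lw m (B' a)) ∧ ∀ a t, B (Fin.cons a t) = b t * B' a t

omit [Fintype G] in
lemma cb_cons (m : ℕ) (Ψ : (Fin (m + 1) → G) → ℂ) (a b : G) (t s : Fin m → G) :
    Cb (m + 1) Ψ (Fin.cons a t) (Fin.cons b s) =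
      Cb m (fun r => Ψ (Fin.cons a r) * conj (Ψ (Fin.cons b r))) t s := by
  simp only [Cb, Fin.cons_zero, Fin.tail_cons]

omit [Fintype G] in
lemma Lw.mul : ∀ {m : ℕ} {B C : (Fin m → G) → ℂ}, Lw m B → Lw m C → Lw m fun t => B t * C t
  | 0, _, _, hB, hC => fun t => by simp only [hB t, hC t, mul_one]
  | _ + 1, _, _, ⟨b, B', h1, h2, h3⟩, ⟨c, C', k1, k2, k3⟩ =>
    ⟨fun t => b t * c t, fun a t => B' a t * C' a t, fun t => mul_le1 (h1 t) (k1 t),
      fun a => (h2 a).mul (k2 a), fun a t => by simp only [h3, k3]; ring⟩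

omit [Fintype G] in
lemma Lw.conj : ∀ {m : ℕ} {B : (Fin m → G) → ℂ}, Lw m B → Lw m fun t => conj (B t)
  | 0, _, hB => fun t => by simp only [hB t, map_one]
  | _ + 1, _, ⟨b, B', h1, h2, h3⟩ =>
    ⟨fun t => conj (b t), fun a t => conj (B' a t), fun t => conj_le1 (h1 t),
      fun a => (h2 a).conj, fun a t => by simp only [h3, map_mul]⟩

omit [Fintype G] in
lemma Lw.le : ∀ {m : ℕ} {B : (Fin m → G) → ℂ}, Lw m B → ∀ t, ‖B t‖ ≤ 1
  | 0, _, hB => fun t => by simp only [hB t, norm_one, le_refl]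
  | _ + 1, _, ⟨b, B', h1, h2, h3⟩ => fun t => by
    rw [← Fin.cons_self_tail t, h3]
    exact mul_le1 (h1 _) ((h2 _).le _)

omit [Fintype G] in
lemma cb_mul : ∀ (m : ℕ) (Ψ Φ : (Fin m → G) → ℂ) (t s : Fin m → G),
    Cb m (fun r => Ψ r * Φ r) t s = Cb m Ψ t s * Cb m Φ t s
  | 0, _, _, _, _ => rfl
  | m + 1, Ψ, Φ, t, s => by
    simp only [Cb]
    rw [← cb_mul m]
    congr 1
    funext r
    rw [map_mul]; ring

omit [Fintype G] in
lemma cb_split : ∀ (m : ℕ) (Ψ : (Fin m → G) → ℂ) (_ : ∀ t, ‖Ψ t‖ ≤ 1) (s : Fin m → G),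
    ∃ B, Lw m B ∧ ∀ t, Cb m Ψ t s = Ψ t * B t
  | 0, _, _, _ => ⟨fun _ => 1, fun _ => rfl, fun t => by simp only [Cb, mul_one]⟩
  | m + 1, Ψ, h, s => by
    choose B hB using fun a : G => cb_split m
      (fun r => Ψ (Fin.cons a r) * conj (Ψ (Fin.cons (s 0) r)))
      (fun r => mul_le1 (h _) (conj_le1 (h _))) (Fin.tail s)
    refine ⟨fun t => conj (Ψ (Fin.cons (s 0) (Fin.tail t))) * B (t 0) (Fin.tail t),
      ⟨fun t => conj (Ψ (Fin.cons (s 0) t)), B, fun t => conj_le1 (h _), fun a => (hB a).1,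
        fun a t => by simp only [Fin.cons_zero, Fin.tail_cons]⟩, fun t => ?_⟩
    simp only [Cb]
    rw [(hB (t 0)).2, Fin.cons_self_tail, mul_assoc]

omit [Fintype G] in
lemma cb_le (m : ℕ) (Ψ : (Fin m → G) → ℂ) (h : ∀ t, ‖Ψ t‖ ≤ 1) (t s : Fin m → G) :
    ‖Cb m Ψ t s‖ ≤ ‖Ψ t‖ := by
  obtain ⟨B, h1, h2⟩ := cb_split m Ψ h s
  rw [h2, norm_mul]
  exact mul_le_of_le_one_right (norm_nonneg _) (h1.le _)

lemma box_step (m : ℕ)
    (ih : ∀ Ψ B : (Fin m → G) → ℂ, Lw m B →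
      (𝔼 t, Ψ t * B t).re ^ 2 ^ m ≤ (𝔼 t, 𝔼 s, Cb m Ψ t s).re)
    (Ψ B : (Fin (m + 1) → G) → ℂ) (hB : Lw (m + 1) B) :
    ‖𝔼 t, Ψ t * B t‖ ^ 2 ^ (m + 1) ≤ (𝔼 t, 𝔼 s, Cb (m + 1) Ψ t s).re := by
  obtain ⟨b, B', h1, h2, h3⟩ := hB
  have e1 : 𝔼 t, Ψ t * B t = 𝔼 t, b t * 𝔼 a, Ψ (Fin.cons a t) * B' a t := by
    rw [exp_cons, expect_comm]
    refine expect_congr rfl fun t _ => ?_
    rw [mul_expect]
    refine expect_congr rfl fun a _ => ?_
    rw [h3]; ring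
  have e2 : ‖𝔼 t, Ψ t * B t‖ ^ 2 ≤ 𝔼 a, 𝔼 a', (𝔼 t : Fin m → G,
      (Ψ (Fin.cons a t) * conj (Ψ (Fin.cons a' t))) * (B' a t * conj (B' a' t))).re := by
    rw [e1]
    refine (pow_le_pow_left₀ (norm_nonneg _) (nexp _ _) 2).trans ((sq_exp_le _ _).trans ?_)
    calc _ ≤ 𝔼 t : Fin m → G, ‖𝔼 a, Ψ (Fin.cons a t) * B' a t‖ ^ 2 :=
          expect_le_expect fun t _ => pow_le_pow_left₀ (norm_nonneg _) (by
            rw [norm_mul]; exact mul_le_of_le_one_left (norm_nonneg _) (h1 t)) 2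
      _ = _ := by
          simp only [nsq_exp, Complex.re_expect]
          rw [expect_comm]
          refine expect_congr rfl fun a _ => ?_
          rw [expect_comm]
          refine expect_congr rfl fun a' _ => expect_congr rfl fun t _ => ?_
          rw [map_mul]; congr 1; ring
  rw [pow_succ', pow_mul]
  refine (pow_le_pow_left₀ (sq_nonneg _) e2 _).trans ((jen _ _ _).trans ?_)
  rw [exp_cons, Complex.re_expect]
  refine expect_le_expect fun a _ => (jen _ _ _).trans ?_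
  simp only [exp_cons m]
  rw [expect_comm (f := fun (t : Fin m → G) (a' : G) =>
    𝔼 s : Fin m → G, Cb (m + 1) Ψ (Fin.cons a t) (Fin.cons a' s)), Complex.re_expect]
  refine expect_le_expect fun a' _ => ?_
  simp only [cb_cons]
  exact ih _ _ ((h2 a).mul (h2 a').conj)

lemma box_re : ∀ (m : ℕ) (Ψ B : (Fin m → G) → ℂ), Lw m B →
    (𝔼 t, Ψ t * B t).re ^ 2 ^ m ≤ (𝔼 t, 𝔼 s, Cb m Ψ t s).re
  | 0, Ψ, B, hB => by simp only [exp_nil, hB _, mul_one, Cb, pow_zero, pow_one, le_refl]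
  | m + 1, Ψ, B, hB => by
    refine le_trans ?_ (box_step m (box_re m) Ψ B hB)
    rw [pow_succ', pow_mul, pow_mul]
    exact pow_le_pow_left₀ (sq_nonneg _) (sq_le_sq' (by
      have := Complex.abs_re_le_norm (𝔼 t, Ψ t * B t); exact (abs_le.1 this).1)
      (Complex.re_le_norm _)) _

/-- the box Cauchy-Schwarz inequality -/
lemma boxCS (m : ℕ) (Ψ B : (Fin (m + 1) → G) → ℂ) (hB : Lw (m + 1) B) :
    ‖𝔼 t, Ψ t * B t‖ ^ 2 ^ (m + 1) ≤ (𝔼 t, 𝔼 s, Cb (m + 1) Ψ t s).re :=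
  box_step m (box_re m) Ψ B hB

variable [AddCommGroup G]

lemma gow_zero (g : G → ℂ) : Gow 0 g = (𝔼 x, g x).re := by
  simp only [Gow, List.replicate_zero, Box, Fintype.expect_eq_sum_div_card]
  rw [← Complex.ofReal_natCast, Complex.div_ofReal_re]

lemma gow_succ (s : ℕ) (g : G → ℂ) :
    Gow (s + 1) g = 𝔼 a, 𝔼 b, Gow s fun x => g (x + a) * conj (g (x + b)) := by
  simp only [Gow, List.replicate_succ, Box, Fintype.expect_eq_sum_div_card, sum_div]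
  refine sum_congr rfl fun a _ => sum_congr rfl fun b _ => ?_
  ring

lemma gow_add (s : ℕ) : ∀ (m : ℕ) (g : G → ℂ), Gow (s + m) g =
    𝔼 t : Fin m → G, 𝔼 t' : Fin m → G, Gow s fun x => Cb m (fun r => g (x + ∑ i, r i)) t t'
  | 0, g => by simp only [exp_nil, Cb, add_zero, univ_eq_empty, sum_empty]
  | m + 1, g => by
    rw [← add_assoc, gow_succ, exp_cons]
    refine expect_congr rfl fun a _ => ?_
    simp only [exp_cons m]
    rw [expect_comm (f := fun (t : Fin m → G) (b : G) => 𝔼 t' : Fin m → G,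
      Gow s fun x => Cb (m + 1) (fun r => g (x + ∑ i, r i)) (Fin.cons a t) (Fin.cons b t'))]
    refine expect_congr rfl fun b _ => ?_
    rw [gow_add s m]
    simp only [cb_cons, Fin.sum_cons]
    refine expect_congr rfl fun t _ => expect_congr rfl fun t' _ => ?_
    congr 1; funext x; congr 1; funext r
    rw [add_assoc, add_assoc, add_comm _ a, add_comm _ b]

lemma gow_cb (m : ℕ) (g : G → ℂ) : Gow m g =
    𝔼 x, (𝔼 t : Fin m → G, 𝔼 t' : Fin m → G, Cb m (fun r => g (x + ∑ i, r i)) t t').re := by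
  have := gow_add 0 m g
  rw [zero_add] at this
  simp only [this, gow_zero, Complex.re_expect]
  rw [expect_comm (f := fun (x : G) (t : Fin m → G) => 𝔼 t' : Fin m → G,
    (Cb m (fun r => g (x + ∑ i, r i)) t t').re)]
  exact expect_congr rfl fun t _ => expect_comm _ _ _

lemma exp_shift {E : Type} [AddCommMonoid E] [Module ℚ≥0 E] (φ : G → E) (a : G) :
    𝔼 x, φ (x + a) = 𝔼 x, φ x :=
  Fintype.expect_equiv (Equiv.addRight a) _ _ fun _ => rfl

end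

end Pool.Agent.Lib.MP_10e396_an.Inv
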