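import Pool.Agent.Lib.MP_10e396_an.Inv1

/-! Fourier tools on cyclic groups. -/

set_option autoImplicit false

namespace Pool.Agent.Lib.MP_10e396_an.Inv

open Finset ComplexConjugate
open scoped BigOperators

noncomputable section

variable {M : ℕ} [NeZero M]

lemma ch_add (a b : ZMod M) : ch (a + b) = ch a * ch b := AddChar.map_add_eq_mul _ a b

lemma ch_zero : ch (0 : ZMod M) = 1 := AddChar.map_zero_eq_one _

lemma ch_norm (a : ZMod M) : ‖ch a‖ = 1 := by
  rw [ch, ZMod.stdAddChar_apply]; exact Circle.norm_coe _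

lemma ch_conj (a : ZMod M) : conj (ch a) = ch (-a) := by
  rw [ch, ch, ZMod.stdAddChar_apply, ZMod.stdAddChar_apply, AddChar.map_neg_eq_inv,
    Circle.coe_inv_eq_conj]

lemma ch_int (j : ℤ) : ch (j : ZMod M) = ee (j / M) := by
  rw [ch, ZMod.stdAddChar_coe, ee]
  congr 1
  push_cast
  ring

lemma orth (x : ZMod M) : ∑ ξ, ch (ξ * x) = if x = 0 then (M : ℂ) else 0 := by
  have := AddChar.sum_mulShift x (ZMod.isPrimitive_stdAddChar M)
  rw [ZMod.card] at this
  simp only [ch]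
  rw [this]
  split_ifs <;> simp

/-- normalized Fourier coefficient -/
def hat (F : ZMod M → ℂ) (ξ : ZMod M) : ℂ := 𝔼 x, F x * ch (ξ * x)

lemma hat_le {F : ZMod M → ℂ} (h : ∀ x, ‖F x‖ ≤ 1) (ξ : ZMod M) : ‖hat F ξ‖ ≤ 1 :=
  nexp_le_one _ fun x _ => mul_le1 (h x) (ch_norm _).le

lemma inversion (F : ZMod M → ℂ) (x : ZMod M) : F x = ∑ ξ, hat F ξ * ch (-(ξ * x)) := by
  have hM : (M : ℂ) ≠ 0 := Nat.cast_ne_zero.2 (NeZero.ne M)
  simp only [hat, expect_mul]
  rw [← expect_sum_comm]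
  have e : ∀ y, ∑ ξ, F y * ch (ξ * y) * ch (-(ξ * x)) = if y = x then F x * M else 0 := by
    intro y
    have : ∀ ξ, F y * ch (ξ * y) * ch (-(ξ * x)) = F y * ch (ξ * (y - x)) := fun ξ => by
      rw [mul_assoc, ← ch_add]; congr 2; ring
    simp only [this, ← mul_sum, orth, sub_eq_zero]
    split_ifs with h
    · rw [h]
    · rw [mul_zero]
  simp only [e]
  rw [Fintype.expect_eq_sum_div_card, sum_ite_eq' univ x, if_pos (mem_univ _), ZMod.card,
    mul_div_cancel_right₀ _ hM]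

lemma parseval (F : ZMod M → ℂ) : ∑ ξ, ‖hat F ξ‖ ^ 2 = 𝔼 x, ‖F x‖ ^ 2 := by
  have e : 𝔼 x, F x * conj (F x) = ∑ ξ, hat F ξ * conj (hat F ξ) := by
    calc _ = 𝔼 x, ∑ ξ, hat F ξ * conj (F x * ch (ξ * x)) := by
          refine expect_congr rfl fun x _ => ?_
          nth_rewrite 1 [inversion F x]
          rw [sum_mul]
          refine sum_congr rfl fun ξ _ => ?_
          rw [map_mul, ch_conj]; ring
      _ = _ := by
          rw [expect_sum_comm]
          refine sum_congr rfl fun ξ _ => ?_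
          rw [← mul_expect, ← conj_exp]; rfl
  simp only [Complex.mul_conj, Complex.normSq_eq_norm_sq] at e
  have := congrArg Complex.re e
  simp only [Complex.re_expect, Complex.re_sum, Complex.ofReal_re] at this
  exact this.symm

lemma parseval_le {F : ZMod M → ℂ} (h : ∀ x, ‖F x‖ ≤ 1) : ∑ ξ, ‖hat F ξ‖ ^ 2 ≤ 1 := by
  rw [parseval]
  exact exp_le_one _ fun x _ => pow_le_one₀ (norm_nonneg _) (h x)

lemma gow_one (g : ZMod M → ℂ) : Gow 1 g = ‖𝔼 x, g x‖ ^ 2 := by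
  rw [gow_succ]
  simp only [gow_zero, Complex.re_expect]
  calc _ = 𝔼 a, 𝔼 x, 𝔼 b, (g (x + a) * conj (g (x + b))).re :=
        expect_congr rfl fun a _ => expect_comm _ _ _
    _ = 𝔼 x, 𝔼 a, 𝔼 b, (g (x + a) * conj (g (x + b))).re := expect_comm _ _ _
    _ = 𝔼 _x : ZMod M, ‖𝔼 x, g x‖ ^ 2 := by
        refine expect_congr rfl fun x _ => ?_
        rw [← exp_shift g x, nsq_exp]
        simp only [Complex.re_expect, add_comm x]
    _ = _ := Fintype.expect_const _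

lemma gow_two (F : ZMod M → ℂ) : Gow 2 F = ∑ ξ, (‖hat F ξ‖ ^ 2) ^ 2 := by
  have e : ∀ ξ, ‖hat (fun k => 𝔼 x, F (x + k) * conj (F x)) ξ‖ = ‖hat F ξ‖ ^ 2 := by
    intro ξ
    have : hat (fun k => 𝔼 x, F (x + k) * conj (F x)) ξ = hat F ξ * conj (hat F ξ) := by
      simp only [hat, expect_mul, conj_exp]
      rw [expect_comm]
      simp only [mul_expect]
      rw [expect_comm (f := fun i j => F i * ch (ξ * i) * conj (F j * ch (ξ * j)))]
      refine expect_congr rfl fun x _ => ?_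
      rw [← exp_shift (fun i => F i * ch (ξ * i) * conj (F x * ch (ξ * x))) x]
      refine expect_congr rfl fun k _ => ?_
      rw [map_mul, ch_conj, add_comm k x, mul_mul_mul_comm, ← ch_add]
      congr 2; ring
    rw [this, norm_mul, Complex.norm_conj, sq]
  simp only [← e]
  rw [parseval, gow_succ]
  simp only [gow_one]
  rw [expect_comm, ← Fintype.expect_const (ι := ZMod M)
    (𝔼 k : ZMod M, ‖𝔼 x, F (x + k) * conj (F x)‖ ^ 2)]
  refine expect_congr rfl fun b _ => ?_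
  rw [← exp_shift (fun a => ‖𝔼 x, F (x + a) * conj (F (x + b))‖ ^ 2) b]
  refine expect_congr rfl fun k _ => ?_
  rw [← exp_shift (fun x => F (x + k) * conj (F x)) b]
  simp only [add_assoc, add_comm b k]

lemma gow_two_le {F : ZMod M → ℂ} (h : ∀ x, ‖F x‖ ≤ 1) : ∃ ξ, Gow 2 F ≤ ‖hat F ξ‖ ^ 2 := by
  obtain ⟨ξ, -, hξ⟩ := exists_max_image univ (fun ξ => ‖hat F ξ‖ ^ 2) univ_nonempty
  refine ⟨ξ, ?_⟩
  rw [gow_two]
  calc _ ≤ ∑ ζ, ‖hat F ζ‖ ^ 2 * ‖hat F ξ‖ ^ 2 := sum_le_sum fun ζ _ => by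
        rw [sq (‖hat F ζ‖ ^ 2)]
        exact mul_le_mul_of_nonneg_left (hξ ζ (mem_univ _)) (sq_nonneg _)
    _ ≤ _ := by
        rw [← sum_mul]
        exact mul_le_of_le_one_left (sq_nonneg _) (parseval_le h)

/-- the dual function -/
def Df (N : ℕ) (α β : ℕ → ZMod M) (h f : ZMod M → ℂ) (x : ZMod M) : ℂ :=
  𝔼 n ∈ range N, h (x + α n) * f (x + β n)

omit [NeZero M] in
lemma df_le (N : ℕ) (α β : ℕ → ZMod M) {h f : ZMod M → ℂ} (hh : ∀ x, ‖h x‖ ≤ 1)
    (hf : ∀ x, ‖f x‖ ≤ 1) (x : ZMod M) : ‖Df N α β h f x‖ ≤ 1 :=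
  nexp_le_one _ fun _ _ => mul_le1 (hh _) (hf _)

lemma hat_df (N : ℕ) (α β : ℕ → ZMod M) (h f : ZMod M → ℂ) (ξ : ZMod M) :
    hat (Df N α β h f) ξ = 𝔼 x, h x * ch (ξ * x) *
      𝔼 n ∈ range N, f (x + (β n - α n)) * ch (-(ξ * α n)) := by
  simp only [hat, Df, expect_mul, mul_expect]
  rw [expect_comm, expect_comm univ]
  refine expect_congr rfl fun n _ => ?_
  rw [← exp_shift (fun x => h (x + α n) * f (x + β n) * ch (ξ * x)) (-α n)]
  refine expect_congr rfl fun x _ => ?_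
  rw [show x + -α n + α n = x by ring, show x + -α n + β n = x + (β n - α n) by ring,
    show ξ * (x + -α n) = ξ * x + -(ξ * α n) by ring, ch_add]
  ring

/-- the two function lemma -/
lemma two_fun (N : ℕ) (α β : ℕ → ZMod M) {h f : ZMod M → ℂ} (hh : ∀ x, ‖h x‖ ≤ 1)
    (hf : ∀ x, ‖f x‖ ≤ 1) (ξ : ZMod M) : ∃ ζ : ZMod M, ‖hat (Df N α β h f) ξ‖ ≤
      ‖𝔼 n ∈ range N, ch (-(ξ * α n) + ζ * (β n - α n))‖ := by
  obtain ⟨ζ, -, hζ⟩ := exists_max_image univ
    (fun ζ : ZMod M => ‖𝔼 n ∈ range N, ch (-(ξ * α n) + -ζ * (β n - α n))‖) univ_nonempty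
  refine ⟨-ζ, ?_⟩
  have e : hat (Df N α β h f) ξ = ∑ θ, hat f θ * hat h (ξ - θ) *
      𝔼 n ∈ range N, ch (-(ξ * α n) + -θ * (β n - α n)) := by
    rw [hat_df]
    calc _ = 𝔼 x, 𝔼 n ∈ range N, ∑ θ, hat f θ * (h x * ch ((ξ - θ) * x)) *
            ch (-(ξ * α n) + -θ * (β n - α n)) := by
          refine expect_congr rfl fun x _ => ?_
          rw [mul_expect]
          refine expect_congr rfl fun n _ => ?_
          rw [inversion f (x + (β n - α n)), sum_mul, mul_sum]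
          refine sum_congr rfl fun θ _ => ?_
          rw [show -(θ * (x + (β n - α n))) = -(θ * x) + -θ * (β n - α n) by ring,
            show (ξ - θ) * x = ξ * x + -(θ * x) by ring, ch_add, ch_add, ch_add]
          ring
      _ = _ := by
          simp only [expect_sum_comm, ← mul_expect, ← expect_mul]
          rfl
  rw [e]
  refine (norm_sum_le _ _).trans ?_
  calc _ ≤ ∑ θ, (‖hat f θ‖ ^ 2 + ‖hat h (ξ - θ)‖ ^ 2) / 2 *
          ‖𝔼 n ∈ range N, ch (-(ξ * α n) + -ζ * (β n - α n))‖ := sum_le_sum fun θ _ => by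
        rw [norm_mul, norm_mul]
        exact mul_le_mul (by nlinarith [sq_nonneg (‖hat f θ‖ - ‖hat h (ξ - θ)‖)])
          (hζ θ (mem_univ _)) (norm_nonneg _) (by positivity)
    _ ≤ _ := by
        rw [← sum_mul]
        refine mul_le_of_le_one_left (norm_nonneg _) ?_
        rw [← sum_div, sum_add_distrib,
          Fintype.sum_equiv (Equiv.subLeft ξ) (fun θ => ‖hat h (ξ - θ)‖ ^ 2)
            (fun θ => ‖hat h θ‖ ^ 2) fun _ => rfl]
        linarith [parseval_le hh, parseval_le hf]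

end

end Pool.Agent.Lib.MP_10e396_an.Inv
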