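import Pool.Agent.Lib.MP_10e396_an.Inv2

/-! The degree lowering step. -/

set_option autoImplicit false

namespace Pool.Agent.Lib.MP_10e396_an.Inv

open Finset ComplexConjugate
open scoped BigOperators

noncomputable section

lemma Lw.smul {G : Type} {m : ℕ} {B : (Fin (m + 1) → G) → ℂ} (hB : Lw (m + 1) B) {c : ℂ}
    (hc : ‖c‖ ≤ 1) : Lw (m + 1) fun t => c * B t := by
  obtain ⟨b, B', h1, h2, h3⟩ := hB
  exact ⟨fun t => c * b t, B', fun t => mul_le1 hc (h1 t), h2, fun a t => by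
    simp only [h3, mul_assoc]⟩

variable {M : ℕ} [NeZero M]

lemma lowrank (m : ℕ) (D : ZMod M → ℂ) (B : ZMod M → (Fin (m + 1) → ZMod M) → ℂ)
    (hB : ∀ x, Lw (m + 1) (B x)) :
    (𝔼 t : Fin (m + 1) → ZMod M, ‖𝔼 x, D (x + ∑ i, t i) * B x t‖ ^ 2) ^ 2 ^ (m + 1) ≤
      Gow (m + 2) D := by
  have e1 : 𝔼 t : Fin (m + 1) → ZMod M, ‖𝔼 x, D (x + ∑ i, t i) * B x t‖ ^ 2 ≤
      𝔼 a, 𝔼 b, 𝔼 x, ‖𝔼 t : Fin (m + 1) → ZMod M,
        (D (x + ∑ i, t i + a) * conj (D (x + ∑ i, t i + b))) *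
          (B (x + a) t * conj (B (x + b) t))‖ := by
    calc _ = 𝔼 t : Fin (m + 1) → ZMod M, 𝔼 a, 𝔼 b, 𝔼 x,
          ((D (x + ∑ i, t i + a) * conj (D (x + ∑ i, t i + b))) *
            (B (x + a) t * conj (B (x + b) t))).re := by
          refine expect_congr rfl fun t _ => ?_
          rw [← gow_one, gow_succ]
          simp only [gow_zero, Complex.re_expect]
          refine expect_congr rfl fun a _ => expect_congr rfl fun b _ =>
            expect_congr rfl fun x _ => ?_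
          rw [map_mul, add_right_comm x a, add_right_comm x b, mul_mul_mul_comm]
      _ = 𝔼 a, 𝔼 b, 𝔼 x, (𝔼 t : Fin (m + 1) → ZMod M,
          (D (x + ∑ i, t i + a) * conj (D (x + ∑ i, t i + b))) *
            (B (x + a) t * conj (B (x + b) t))).re := by
          simp only [Complex.re_expect]
          rw [expect_comm]
          refine expect_congr rfl fun a _ => ?_
          rw [expect_comm]
          exact expect_congr rfl fun b _ => expect_comm _ _ _
      _ ≤ _ := expect_le_expect fun a _ => expect_le_expect fun b _ =>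
          expect_le_expect fun x _ => Complex.re_le_norm _
  refine (pow_le_pow_left₀ (expect_nonneg fun _ _ => sq_nonneg _) e1 _).trans ?_
  rw [gow_succ]
  refine (jen _ _ _).trans (expect_le_expect fun a _ => (jen _ _ _).trans
    (expect_le_expect fun b _ => (jen _ _ _).trans ?_))
  rw [gow_cb]
  exact expect_le_expect fun x _ => boxCS m _ _ ((hB _).mul (hB _).conj)

/-- the alternating sum over a cube -/
def dphi {G : Type} [AddCommGroup G] :
    (m : ℕ) → ((Fin m → G) → G) → (Fin m → G) → (Fin m → G) → G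
  | 0, φ, t, _ => φ t
  | m + 1, φ, t, s => dphi m (fun r => φ (Fin.cons (t 0) r) - φ (Fin.cons (s 0) r))
      (Fin.tail t) (Fin.tail s)

lemma cb_ch (x : ZMod M) : ∀ (m : ℕ) (φ : (Fin m → ZMod M) → ZMod M) (t s : Fin m → ZMod M),
    Cb m (fun r => ch (φ r * x)) t s = ch (dphi m φ t s * x)
  | 0, _, _, _ => rfl
  | m + 1, φ, t, s => by
    simp only [Cb, dphi]
    rw [← cb_ch x m]
    congr 1
    funext r
    rw [ch_conj, ← ch_add]
    congr 1; ring

/-- large Fourier coefficients of dual functions lie in a small set -/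
def Maj (K N : ℕ) (α β : ℕ → ZMod M) : Prop :=
  ∀ η : ℝ, 0 < η → η ≤ 1 / 2 → ∃ S : Finset (ZMod M), (S.card : ℝ) ≤ η⁻¹ ^ K ∧
    ∀ (h f : ZMod M → ℂ) (ξ : ZMod M), (∀ x, ‖h x‖ ≤ 1) → (∀ x, ‖f x‖ ≤ 1) →
      η ≤ ‖hat (Df N α β h f) ξ‖ → ξ ∈ S

lemma phase (z : ℂ) : ∃ σ : ℂ, ‖σ‖ ≤ 1 ∧ σ * z = (‖z‖ : ℂ) := by
  rcases eq_or_ne z 0 with rfl | hz
  · exact ⟨0, by simp, by simp⟩
  · refine ⟨‖z‖ / z, ?_, div_mul_cancel₀ _ hz⟩
    rw [norm_div, Complex.norm_real, norm_norm, div_self (norm_ne_zero_iff.2 hz)]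

/-- the doubling step -/
lemma doubling (m N : ℕ) (α β : ℕ → ZMod M) {h f : ZMod M → ℂ} (hh : ∀ x, ‖h x‖ ≤ 1)
    (hf : ∀ x, ‖f x‖ ≤ 1) (B : ZMod M → (Fin (m + 1) → ZMod M) → ℂ) (hB : ∀ x, Lw (m + 1) (B x))
    (φ : (Fin (m + 1) → ZMod M) → ZMod M) (σ : (Fin (m + 1) → ZMod M) → ℂ) (hσ : ∀ t, ‖σ t‖ ≤ 1)
    (θ : ℝ) (h0 : 0 ≤ θ) (hθ : θ ≤ (𝔼 t : Fin (m + 1) → ZMod M,
      σ t * hat (fun x => Df N α β h f (x + ∑ i, t i) * B x t) (φ t)).re) :
    ∃ (s : Fin (m + 1) → ZMod M) (h' f' : (Fin (m + 1) → ZMod M) → ZMod M → ℂ),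
      (∀ t x, ‖h' t x‖ ≤ 1) ∧ (∀ t x, ‖f' t x‖ ≤ 1) ∧ θ ^ 2 ^ (m + 1) ≤
        𝔼 t, ‖σ t‖ * ‖hat (Df N α β (h' t) (f' t)) (dphi (m + 1) φ t s)‖ := by
  set Ψ : ZMod M → ℕ → (Fin (m + 1) → ZMod M) → ℂ := fun x n t =>
    σ t * (ch (φ t * x) * (h (x + α n + ∑ i, t i) * f (x + β n + ∑ i, t i))) with hΨ
  have e1 : θ ≤ 𝔼 x, 𝔼 n ∈ range N, ‖𝔼 t, Ψ x n t * B x t‖ := by
    refine hθ.trans ?_
    calc _ = 𝔼 x, 𝔼 n ∈ range N, (𝔼 t, Ψ x n t * B x t).re := by
          simp only [hat, Df, mul_expect, expect_mul, Complex.re_expect]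
          rw [expect_comm]
          refine expect_congr rfl fun x _ => ?_
          rw [expect_comm]
          refine expect_congr rfl fun n _ => expect_congr rfl fun t _ => ?_
          simp only [hΨ]
          rw [add_right_comm x (α n), add_right_comm x (β n)]
          congr 1; ring
      _ ≤ _ := expect_le_expect fun x _ => expect_le_expect fun n _ => Complex.re_le_norm _
  set h' : (Fin (m + 1) → ZMod M) → (Fin (m + 1) → ZMod M) → ZMod M → ℂ := fun s t y =>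
    Cb (m + 1) (fun r => h (y + ∑ i, r i)) t s with hh'
  set f' : (Fin (m + 1) → ZMod M) → (Fin (m + 1) → ZMod M) → ZMod M → ℂ := fun s t y =>
    Cb (m + 1) (fun r => f (y + ∑ i, r i)) t s with hf'
  have e2 : θ ^ 2 ^ (m + 1) ≤ 𝔼 s, 𝔼 t,
      ‖σ t‖ * ‖hat (Df N α β (h' s t) (f' s t)) (dphi (m + 1) φ t s)‖ := by
    refine (pow_le_pow_left₀ h0 e1 _).trans ((jen _ _ _).trans ?_)
    calc _ ≤ 𝔼 x, 𝔼 n ∈ range N, (𝔼 t, 𝔼 s, Cb (m + 1) (Ψ x n) t s).re :=
          expect_le_expect fun x _ => (jen _ _ _).trans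
            (expect_le_expect fun n _ => boxCS m _ _ (hB x))
      _ = 𝔼 s, 𝔼 t, (Cb (m + 1) σ t s *
            hat (Df N α β (h' s t) (f' s t)) (dphi (m + 1) φ t s)).re := by
          simp only [hat, Df, mul_expect, expect_mul, Complex.re_expect]
          calc _ = 𝔼 x, 𝔼 s, 𝔼 t, 𝔼 n ∈ range N, (Cb (m + 1) (Ψ x n) t s).re := by
                refine expect_congr rfl fun x _ => ?_
                rw [expect_comm, expect_comm univ univ
                  (fun s t => 𝔼 n ∈ range N, (Cb (m + 1) (Ψ x n) t s).re)]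
                exact expect_congr rfl fun t _ => expect_comm _ _ _
            _ = _ := by
                rw [expect_comm]
                refine expect_congr rfl fun s _ => ?_
                rw [expect_comm]
                refine expect_congr rfl fun t _ => expect_congr rfl fun x _ =>
                  expect_congr rfl fun n _ => ?_
                simp only [hΨ, hh', hf']
                rw [cb_mul, cb_mul, cb_mul, cb_ch]
                congr 1; ring
      _ ≤ _ := expect_le_expect fun s _ => expect_le_expect fun t _ =>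
          (Complex.re_le_norm _).trans (by
            rw [norm_mul]
            exact mul_le_mul_of_nonneg_right (cb_le _ _ hσ _ _) (norm_nonneg _))
  obtain ⟨s, -, hs⟩ := exists_le_of_le_expect univ_nonempty e2
  exact ⟨s, h' s, f' s, fun t x => (cb_le _ _ (fun _ => hh _) _ _).trans (hh _),
    fun t x => (cb_le _ _ (fun _ => hf _) _ _).trans (hf _), hs⟩

lemma pigeon {ι κ : Type} [Fintype ι] [DecidableEq κ] (S : Finset κ) (p : ι → Prop)
    [DecidablePred p] (v : ι → κ) (θ R : ℝ) (h0 : 0 < θ) (hR : (S.card : ℝ) ≤ R)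
    (h : θ ≤ 𝔼 t, if p t ∧ v t ∈ S then (1 : ℝ) else 0) :
    ∃ b, θ ≤ R * 𝔼 t, if p t ∧ v t = b then (1 : ℝ) else 0 := by
  have e : (𝔼 t, if p t ∧ v t ∈ S then (1 : ℝ) else 0) =
      ∑ b ∈ S, 𝔼 t, if p t ∧ v t = b then (1 : ℝ) else 0 := by
    rw [← expect_sum_comm]
    refine expect_congr rfl fun t _ => ?_
    by_cases hp : p t
    · simp only [hp, true_and, sum_ite_eq]
    · simp only [hp, false_and, if_false, sum_const_zero]
  rw [e] at h
  rcases S.eq_empty_or_nonempty with rfl | hS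
  · rw [sum_empty] at h; exact absurd h (not_le.2 h0)
  obtain ⟨b, -, hb⟩ := exists_max_image S
    (fun b => 𝔼 t, if p t ∧ v t = b then (1 : ℝ) else 0) hS
  refine ⟨b, h.trans ((sum_le_card_nsmul _ _ _ hb).trans ?_)⟩
  rw [nsmul_eq_mul]
  exact mul_le_mul_of_nonneg_right hR (expect_nonneg fun t _ => by split_ifs <;> norm_num)

lemma pow_half {η : ℝ} (h0 : 0 < η) (h1 : η ≤ 1 / 2) {a : ℕ} (ha : 1 ≤ a) : η ^ a ≤ 1 / 2 :=
  (pow_le_of_le_one h0.le (by linarith) (by omega)).trans h1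

/-- degree lowering -/
lemma lower (m K N : ℕ) (α β : ℕ → ZMod M) (hM : Maj K N α β) {h f : ZMod M → ℂ}
    (hh : ∀ x, ‖h x‖ ≤ 1) (hf : ∀ x, ‖f x‖ ≤ 1) (η : ℝ) (h0 : 0 < η) (h1 : η ≤ 1 / 2)
    (hη : η ≤ Gow (m + 3) (Df N α β h f)) :
    η ^ (((2 ^ (m + 2) + 1) * (K + 1) + 2) * 2 ^ (m + 1)) ≤ Gow (m + 2) (Df N α β h f) := by
  classical
  set D := Df N α β h f with hD
  have hD1 : ∀ x, ‖D x‖ ≤ 1 := df_le N α β hh hf
  rw [show m + 3 = 2 + (m + 1) by ring, gow_add, expect_comm] at hη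
  obtain ⟨s₀, -, hs₀⟩ := exists_le_of_le_expect univ_nonempty hη
  choose B hB hB' using fun x : ZMod M =>
    cb_split (m + 1) (fun r => D (x + ∑ i, r i)) (fun _ => hD1 _) s₀
  simp only [hB'] at hs₀
  have hF : ∀ (t : Fin (m + 1) → ZMod M) x, ‖D (x + ∑ i, t i) * B x t‖ ≤ 1 := fun t x =>
    mul_le1 (hD1 _) ((hB x).le t)
  choose φ hφ using fun t => gow_two_le (hF t)
  set c : (Fin (m + 1) → ZMod M) → ℂ := fun t =>
    hat (fun x => D (x + ∑ i, t i) * B x t) (φ t) with hc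
  choose ρ hρ hρ' using fun t => phase (c t)
  set σ : (Fin (m + 1) → ZMod M) → ℂ := fun t => if η ^ 2 ≤ ‖c t‖ ^ 2 then ρ t else 0 with hσ
  have hσ1 : ∀ t, ‖σ t‖ ≤ if η ^ 2 ≤ ‖c t‖ ^ 2 then 1 else 0 := fun t => by
    simp only [hσ]
    split_ifs
    · exact hρ t
    · exact norm_zero.le
  have e1 : η ^ 2 ≤ (𝔼 t, σ t * c t).re := by
    have : η ≤ 𝔼 t, ((σ t * c t).re + η ^ 2) := hs₀.trans (expect_le_expect fun t _ =>
      (hφ t).trans (by
        simp only [hσ]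
        split_ifs with hg
        · rw [hρ', Complex.ofReal_re]
          have : ‖c t‖ ≤ 1 := hat_le (hF t) _
          nlinarith [norm_nonneg (c t)]
        · rw [zero_mul, Complex.zero_re, zero_add]; exact (not_le.1 hg).le))
    rw [expect_add_distrib, Fintype.expect_const, ← Complex.re_expect] at this
    nlinarith
  obtain ⟨s, h', f', hh', hf', e2⟩ := doubling m N α β hh hf B hB φ σ
    (fun t => (hσ1 t).trans (by split_ifs <;> norm_num)) (η ^ 2) (sq_nonneg _) e1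
  set η' := η ^ (2 ^ (m + 2) + 1) with hη'
  have p0 : 0 < η' := pow_pos h0 _
  obtain ⟨S, hS, hS'⟩ := hM η' p0 (pow_half h0 h1 (Nat.le_add_left 1 _))
  have e3 : η' ≤ 𝔼 t, if η ^ 2 ≤ ‖c t‖ ^ 2 ∧ dphi (m + 1) φ t s ∈ S then (1 : ℝ) else 0 := by
    have : (η ^ 2) ^ 2 ^ (m + 1) ≤ 𝔼 t,
        ((if η ^ 2 ≤ ‖c t‖ ^ 2 ∧ dphi (m + 1) φ t s ∈ S then (1 : ℝ) else 0) + η') := by
      refine e2.trans (expect_le_expect fun t _ => ?_)
      have a1 := hσ1 t
      have a2 := hat_le (df_le N α β (hh' t) (hf' t)) (dphi (m + 1) φ t s)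
      have a3 := hS' (h' t) (f' t) (dphi (m + 1) φ t s) (hh' t) (hf' t)
      have a4 := norm_nonneg (σ t)
      have a5 := norm_nonneg (hat (Df N α β (h' t) (f' t)) (dphi (m + 1) φ t s))
      by_cases hg : η ^ 2 ≤ ‖c t‖ ^ 2
      · rw [if_pos hg] at a1
        by_cases hin : dphi (m + 1) φ t s ∈ S
        · rw [if_pos ⟨hg, hin⟩]; nlinarith
        · rw [if_neg fun k => hin k.2]
          have := not_le.1 fun k => hin (a3 k)
          nlinarith
      · rw [if_neg hg] at a1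
        rw [if_neg fun k => hg k.1]
        nlinarith
    rw [expect_add_distrib, Fintype.expect_const, ← pow_mul, ← pow_succ'] at this
    have a : η' = η ^ 2 ^ (m + 1 + 1) * η := pow_succ _ _
    have a' : 0 < η ^ 2 ^ (m + 1 + 1) := pow_pos h0 _
    nlinarith
  obtain ⟨b, hb⟩ := pigeon S _ _ η' _ p0 hS e3
  choose B₁ hB₁ hB₁' using fun x : ZMod M =>
    cb_split (m + 1) (fun r => ch (φ r * x)) (fun _ => (ch_norm _).le) s
  simp only [cb_ch] at hB₁'
  refine le_trans ?_ (lowrank m D (fun x t => B x t * (ch (b * x) * conj (B₁ x t)))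
    fun x => (hB x).mul ((hB₁ x).conj.smul (ch_norm _).le))
  rw [pow_mul]
  refine pow_le_pow_left₀ (pow_pos h0 _).le ?_ _
  have e4 : η' ^ (K + 1) ≤
      𝔼 t, if η ^ 2 ≤ ‖c t‖ ^ 2 ∧ dphi (m + 1) φ t s = b then (1 : ℝ) else 0 := by
    have := mul_le_mul_of_nonneg_left hb (pow_pos p0 K).le
    rwa [← mul_assoc, ← mul_pow, mul_inv_cancel₀ p0.ne', one_pow, one_mul, ← pow_succ] at this
  rw [pow_add, pow_mul]
  refine (mul_le_mul_of_nonneg_right e4 (sq_nonneg η)).trans ?_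
  rw [expect_mul]
  refine expect_le_expect fun t _ => ?_
  split_ifs with hg
  · rw [one_mul]
    refine hg.1.trans (le_of_eq ?_)
    simp only [hc, hat]
    congr 2
    refine expect_congr rfl fun x _ => ?_
    have a1 : B₁ x t = ch ((b - φ t) * x) := by
      have := hB₁' x t
      rw [hg.2, show b * x = φ t * x + (b - φ t) * x by ring, ch_add] at this
      exact (mul_left_cancel₀ (norm_ne_zero_iff.1 (by rw [ch_norm]; exact one_ne_zero)) this).symm
    rw [a1, ch_conj, ← ch_add, mul_assoc]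
    congr 3; ring
  · rw [zero_mul]; exact sq_nonneg _

lemma lower_all (K : ℕ) : ∀ s : ℕ, ∃ C : ℕ, 1 ≤ C ∧ ∀ (M : ℕ) [NeZero M] (N : ℕ)
    (α β : ℕ → ZMod M) (h f : ZMod M → ℂ) (η : ℝ), Maj K N α β → (∀ x, ‖h x‖ ≤ 1) →
    (∀ x, ‖f x‖ ≤ 1) → 0 < η → η ≤ 1 / 2 → η ≤ Gow (s + 2) (Df N α β h f) →
    η ^ C ≤ Gow 2 (Df N α β h f)
  | 0 => ⟨1, le_rfl, fun _ _ _ _ _ _ _ _ _ _ _ _ _ h => by rwa [pow_one]⟩
  | s + 1 => by
    obtain ⟨C, hC, H⟩ := lower_all K s
    have p : 1 ≤ ((2 ^ (s + 2) + 1) * (K + 1) + 2) * 2 ^ (s + 1) :=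
      Nat.one_le_iff_ne_zero.2 (by positivity)
    refine ⟨((2 ^ (s + 2) + 1) * (K + 1) + 2) * 2 ^ (s + 1) * C, Nat.mul_pos p hC,
      fun M _ N α β h f η hM hh hf h0 h1 hη => ?_⟩
    rw [pow_mul]
    exact H M N α β h f _ hM hh hf (pow_pos h0 _) (pow_half h0 h1 p)
      (lower s K N α β hM hh hf η h0 h1 hη)

end

end Pool.Agent.Lib.MP_10e396_an.Inv
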