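import Mathlib

set_option autoImplicit false

namespace Pool.Agent.Lib.MP_10e396_an

noncomputable section

/-- the bilinear average `A_N(f,g)(x)` -/
def bavg {Ω : Type*} (T : Equiv.Perm Ω) (P : Polynomial ℤ) (f g : Ω → ℂ) (N : ℝ) (x : Ω) : ℂ :=
  (⌊N⌋₊ : ℂ)⁻¹ * ∑ n ∈ Finset.Icc 1 ⌊N⌋₊, f ((T ^ (n : ℤ)) x) * g ((T ^ P.eval (n : ℤ)) x)

/-- the jump counting function -/
def jumps (D : Set ℝ) (δ : ℝ) (a : ℝ → ℂ) : ENNReal :=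
  ⨆ (J : ℕ) (_ : ∃ N : Fin (J + 1) → ℝ, StrictMono N ∧ (∀ j, N j ∈ D) ∧
    ∀ j : Fin J, δ ≤ ‖a (N j.succ) - a (N j.castSucc)‖), (J : ENNReal)

end

end Pool.Agent.Lib.MP_10e396_an
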