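import Pool.Agent.Lib.MP_10e396_an.Defs
import Pool.Agent.Lib.MP_10e396_an.Stmt

/-! The interfaces between the parts of the proof, as propositions. -/

set_option autoImplicit false

namespace Pool.Agent.Lib.MP_10e396_an

open Finset Polynomial

noncomputable section

def StLayer : Prop :=
  ∀ p a b : ℝ, 0 ≤ b → b < p → p < a → ∃ C : ℝ, 0 < C ∧
    ∀ (X Y : Type) [Fintype X] [Fintype Y] (W : X → ℝ) (S : Y → ℝ) (A : ℝ), 0 ≤ A →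
      (∀ x, 0 ≤ W x) → (∀ y, 0 ≤ S y) →
      (∀ t : ℝ, 0 < t → ((univ.filter fun x => t < W x).card : ℝ) ≤
        A * ∑ y, min ((S y / t) ^ a) ((S y / t) ^ b)) →
      ∑ x, W x ^ p ≤ C * A * ∑ y, S y ^ p

def StInterp : Prop :=
  ∀ (X Y Z : Type) [Fintype X] [Fintype Y] [Fintype Z] (T : (X → ℂ) → (Y → ℂ) → Z → ℂ)
    (h₀ h₁ : Z → ℝ) (a₀ a₁ b₀ b₁ a b θ B₀ B₁ : ℝ),
    (∀ g z, IsLinearMap ℂ fun f => T f g z) → (∀ f z, IsLinearMap ℂ fun g => T f g z) →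
    (∀ z, 0 < h₀ z) → (∀ z, 0 < h₁ z) → 1 ≤ a₀ → 1 ≤ a₁ → 1 ≤ b₀ → 1 ≤ b₁ → 0 ≤ θ → θ ≤ 1 →
    a⁻¹ = (1 - θ) * a₀⁻¹ + θ * a₁⁻¹ → b⁻¹ = (1 - θ) * b₀⁻¹ + θ * b₁⁻¹ → 0 < B₀ → 0 < B₁ →
    (∀ f g, ∑ z, h₀ z * ‖T f g z‖ ≤ B₀ * lp a₀ f * lp b₀ g) →
    (∀ f g, ∑ z, h₁ z * ‖T f g z‖ ≤ B₁ * lp a₁ f * lp b₁ g) →
    ∀ f g, ∑ z, h₀ z ^ (1 - θ) * h₁ z ^ θ * ‖T f g z‖ ≤ B₀ ^ (1 - θ) * B₁ ^ θ * lp a f * lp b g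

/-- Riesz-Thorin with duality -/
def StRT : Prop :=
  ∀ (X : Type) [Fintype X] (T : (X → ℂ) → X → ℂ) (a b p B : ℝ), IsLinearMap ℂ T →
    1 < a → a ≤ p → p ≤ b → (∀ f, lp a (T f) ≤ B * lp a f) → (∀ f, lp b (T f) ≤ B * lp b f) →
    ∀ f, lp p (T f) ≤ B * lp p f

def StDual : Prop :=
  ∀ (X : Type) [Fintype X] (T S : (X → ℂ) → X → ℂ) (p q B : ℝ), 1 < p → p⁻¹ + q⁻¹ = 1 →
    0 ≤ B → (∀ f g, ∑ x, T f x * g x = ∑ x, f x * S g x) → (∀ g, lp q (S g) ≤ B * lp q g) →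
    ∀ f, lp p (T f) ≤ B * lp p f

/-- Burkholder-Rosenthal -/
def StBr : Prop :=
  ∀ r : ℕ, 1 ≤ r → ∃ C : ℝ, 0 < C ∧
    ∀ (X A E : Type) [Fintype X] [Fintype A] [Nonempty A] [NormedAddCommGroup E]
      [InnerProductSpace ℝ E] (n : ℕ) (τ : ℕ → A → X → X) (G : ℕ → X → E) (v : ℕ → X → ℝ),
      (∀ k < n, ∀ φ : X → ℝ, ∑ x, ∑ a, φ (τ k a x) = Fintype.card A * ∑ x, φ x) →
      (∀ j k, j < k → k < n → ∀ a x, G j (τ k a x) = G j x) →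
      (∀ k < n, ∀ x, ∑ a, G k (τ k a x) = 0) →
      (∀ j k, j ≤ k → k < n → ∀ a x, v j (τ k a x) = v j x) →
      (∀ k < n, ∀ x, ∑ a, ‖G k (τ k a x)‖ ^ 2 ≤ Fintype.card A * v k x) →
      ∑ x, ‖∑ k ∈ range n, G k x‖ ^ (2 * r) ≤
        C * (∑ x, (∑ k ∈ range n, v k x) ^ r + ∑ k ∈ range n, ∑ x, ‖G k x‖ ^ (2 * r))

/-- double lower Khintchine inequality, averaged form -/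
def StKh : Prop :=
  ∃ C : ℝ, 0 < C ∧ ∀ (I J : Type) [Fintype I] [Fintype J] [DecidableEq I] [DecidableEq J]
    (b : I → J → ℂ),
    2 ^ (Fintype.card I + Fintype.card J) * √(∑ i, ∑ j, ‖b i j‖ ^ 2) ≤
      C * ∑ ε : I → Bool, ∑ ε' : J → Bool, ‖∑ i, ∑ j, (sg (ε i) * sg (ε' j)) • b i j‖

/-- square function from signed sums -/
def StSq : Prop :=
  ∃ C : ℝ, 0 < C ∧ ∀ (X : Type) [Fintype X] (p : ℝ) (s t : Finset ℕ) (b : ℕ → ℕ → X → ℂ) (V : ℝ),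
    1 ≤ p →
    (∀ ε ε' : ℕ → ℝ, (∀ j, |ε j| ≤ 1) → (∀ j, |ε' j| ≤ 1) →
      lp p (fun x => ∑ j ∈ s, ∑ k ∈ t, (ε j * ε' k) • b j k x) ≤ V) →
    lp p (fun x => √(∑ j ∈ s, ∑ k ∈ t, ‖b j k x‖ ^ 2)) ≤ C * V

def StChaos : Prop :=
  ∀ r : ℕ, 1 ≤ r → ∃ C : ℝ, 1 ≤ C ∧
    ∀ (D : ℕ) (P Ω E : Type) [Fintype P] [LinearOrder P] [Fintype Ω] [Nonempty Ω]
      [NormedAddCommGroup E] [InnerProductSpace ℝ E] (Φ : Finset P → (P → Ω) → E),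
      (∀ S, D < S.card → Φ S = 0) →
      (∀ S p, p ∉ S → ∀ x a, Φ S (Function.update x p a) = Φ S x) →
      (∀ S p, p ∈ S → ∀ x, ∑ a, Φ S (Function.update x p a) = 0) →
      ∑ x, ‖∑ S, Φ S x‖ ^ (2 * r) ≤ C ^ (D + 1) * ∑ T : Finset P, ∑ x : P → Ω,
        (∑ S ∈ univ.filter (fun S => T ⊆ S),
          (∑ x', ‖Φ S (T.piecewise x x')‖ ^ 2) / Fintype.card (P → Ω)) ^ r

def StWeyl : Prop :=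
  ∀ d : ℕ, 1 ≤ d → ∃ C : ℕ, ∀ (p : ℝ[X]) (T : ℕ) (η : ℝ), p.natDegree ≤ d → 1 ≤ T → 0 < η →
    η ≤ 1 / 2 → η ≤ ‖av T fun t => ee (p.eval (t : ℝ))‖ →
    ∃ q : ℕ, 1 ≤ q ∧ (q : ℝ) ≤ η⁻¹ ^ C ∧ nd (q * p.coeff d) ≤ η⁻¹ ^ C / (T : ℝ) ^ d

open Classical in
def StCount : Prop :=
  ∀ (M : ℕ) [NeZero M] (Q : ℕ) (t : ℝ), 0 ≤ t →
    ((univ.filter fun β : ZMod M =>
      ∃ q : ℕ, 1 ≤ q ∧ q ≤ Q ∧ nd (q * (β.val : ℝ) / M) ≤ t).card : ℝ) ≤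
      2 * Q ^ 2 * (2 * t * M + 1)

def StMulti : Prop :=
  ∀ (m e : ℕ) (c : MvPolynomial (Fin m) ℤ), c ≠ 0 → c.IsHomogeneous e → ∃ C : ℕ,
    ∀ (H : ℕ) (θ η : ℝ), 1 ≤ H → 0 < η → η ≤ 1 / 2 →
      η * (H : ℝ) ^ m ≤ ∑ t : Fin m → Fin H,
        ‖av H fun u => ee (θ * (MvPolynomial.eval (fun i => ((t i : ℕ) : ℤ)) c : ℤ) * u)‖ ^ 2 →
      ∃ q : ℕ, 1 ≤ q ∧ (q : ℝ) ≤ η⁻¹ ^ C ∧ nd (q * θ) ≤ η⁻¹ ^ C / (H : ℝ) ^ (e + 1)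

def StPet : Prop :=
  ∀ P : ℤ[X], 2 ≤ P.natDegree → ∃ (m l : ℕ) (c : Fin l → MvPolynomial (Fin m) ℤ) (C : ℕ),
    1 ≤ l ∧ (∀ j, c j ≠ 0 ∧ (c j).IsHomogeneous (P.natDegree - 1)) ∧
    ∀ (M : ℕ) [NeZero M] (N H : ℕ) (δ : ℝ) (h f g : ZMod M → ℂ), 1 ≤ H → 0 < δ → δ ≤ 1 / 2 →
      (H : ℝ) ≤ δ ^ C * N → (∀ x, ‖h x‖ ≤ 1) → (∀ x, ‖f x‖ ≤ 1) → (∀ x, ‖g x‖ ≤ 1) →
      δ * M ≤ ‖∑ x, h x * AA X P N f g x‖ →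
      δ ^ C * (H : ℝ) ^ m ≤ ∑ t : Fin m → Fin H, Box (List.ofFn fun j =>
        dirm H ((MvPolynomial.eval (fun i => ((t i : ℕ) : ℤ)) (c j) : ℤ) : ZMod M)) g

def StConcat : Prop :=
  ∀ l k : ℕ, 1 ≤ l → ∃ s C : ℕ, 2 ≤ s ∧
    ∀ (M : ℕ) [NeZero M] (I : Type) [Fintype I] [Nonempty I] (μ : Fin l → I → ZMod M → ℝ)
      (Ψ : ZMod M → ℝ) (g : ZMod M → ℂ) (δ A : ℝ), (∀ j i, Prob (μ j i)) →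
      (∀ ξ, 0 ≤ Ψ ξ ∧ Ψ ξ ≤ 1) →
      (∀ j ξ, ∑ i, ‖ft (cx (μ j i)) ξ‖ ^ 2 ≤ Ψ ξ * Fintype.card I) → (∀ x, ‖g x‖ ≤ 1) →
      0 < δ → δ ≤ 1 / 2 → 1 ≤ A → ∑ ξ, Ψ ξ ^ 2 ^ k ≤ A →
      δ * Fintype.card I ≤ ∑ i, Box (List.ofFn fun j => μ j i) g → (δ / A) ^ C ≤ Gow s g

def StUctl : Prop :=
  ∀ (P : ℤ[X]) (Γ : ℕ), 2 ≤ P.natDegree → ∃ s C : ℕ, 2 ≤ s ∧
    ∀ (M : ℕ) [NeZero M] (N : ℕ) (δ : ℝ) (h f g : ZMod M → ℂ), M ≤ Γ * N ^ P.natDegree →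
      0 < δ → δ ≤ 1 / 2 → δ⁻¹ ^ C ≤ N → (∀ x, ‖h x‖ ≤ 1) → (∀ x, ‖f x‖ ≤ 1) →
      (∀ x, ‖g x‖ ≤ 1) → δ * M ≤ ‖∑ x, h x * AA X P N f g x‖ → δ ^ C ≤ Gow s g

def StInv : Prop :=
  ∀ P : ℤ[X], 2 ≤ P.natDegree → ∃ C : ℕ, 1 ≤ C ∧
    ∀ (N : ℕ) (δ : ℝ) (h f g : ℤ → ℂ), 0 < δ → δ ≤ 1 / 2 → δ⁻¹ ^ C ≤ N →
      (∀ x, ‖h x‖ ≤ 1) → (∀ x, ‖f x‖ ≤ 1) → (∀ x, ‖g x‖ ≤ 1) →
      δ * (N : ℝ) ^ P.natDegree ≤ ‖∑ x ∈ range (N ^ P.natDegree),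
        h x * av N fun n => f (x + n) * g (x + P.eval (n : ℤ))‖ →
      ∃ q N' : ℕ, 1 ≤ q ∧ (q : ℝ) ≤ δ⁻¹ ^ C ∧ δ ^ C * N ≤ N' ∧
        δ ^ C * (N : ℝ) ^ P.natDegree ≤
          ∑ x ∈ range (2 * N ^ P.natDegree), ‖av N' fun y => f (x + q * y)‖

def StWS : Prop :=
  ∀ p : ℝ, 0 < p → ∃ C : ℝ, 0 < C ∧
    ∀ (M : ℕ) [NeZero M] (τ : ℕ) (E : Type) [NormedAddCommGroup E] [InnerProductSpace ℂ E]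
      (F : ZMod M → E), 2 ^ τ ∣ M →
      ∃ w : ZMod M → ℝ, (∀ x, Wb (fun j => dy (min j τ) F x) (w x)) ∧
        lp p w ≤ C * lp p fun x =>
          √(‖dy τ F x‖ ^ 2 + ∑ j ∈ range τ, ‖dy j F x - dy (j + 1) F x‖ ^ 2)

def StMT : Prop :=
  ∀ p : ℝ, 1 < p → ∃ C : ℝ, 0 < C ∧
    ∀ (M : ℕ) [NeZero M] (τ : ℕ) (c : ℕ → ℝ) (f : ZMod M → ℂ), 2 ^ τ ∣ M → (∀ j, |c j| ≤ 1) →
      lp p (fun x => c τ • dy τ f x + ∑ j ∈ range τ, c j • (dy j f x - dy (j + 1) f x)) ≤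
        C * lp p f

def StRC : Prop :=
  ∀ p : ℝ, 1 < p → ∃ C : ℝ, 0 < C ∧
    ∀ (M : ℕ) [NeZero M] (L γ i₀ i₁ τ : ℕ) (r : ℕ → ℝ) (k : ℕ → ZMod M → ℝ) (c : ℕ → ℝ)
      (f : ZMod M → ℂ), Ker L γ i₀ i₁ τ r k → (∀ i, |c i| ≤ 1) →
      lp p (fun x => ∑ i ∈ Ico i₀ i₁, c i • (conv (cx (k i)) f x - dy (lv (r i)) f x)) ≤
        C * L * (γ + 1) ^ 2 * lp p f

def StLinA : Prop :=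
  ∀ p : ℝ, 1 < p → ∃ C : ℝ, 0 < C ∧
    ∀ (M : ℕ) [NeZero M] (L γ i₀ i₁ τ : ℕ) (r : ℕ → ℝ) (k : ℕ → ZMod M → ℝ) (f : ZMod M → ℂ),
      Ker L γ i₀ i₁ τ r k →
      ∃ w : ZMod M → ℝ, (∀ x, Wb (fun i => conv (cx (k i)) f x) (w x)) ∧
        lp p w ≤ C * L * (γ + 1) ^ 2 * lp p f

def StLinB : Prop :=
  ∃ C : ℝ, 0 < C ∧
    ∀ (M : ℕ) [NeZero M] (L γ i₀ i₁ τ : ℕ) (r : ℕ → ℝ) (k : ℕ → ZMod M → ℝ) (ι : Type)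
      [Fintype ι] (F : ZMod M → EuclideanSpace ℂ ι), Ker L γ i₀ i₁ τ r k →
      ∃ w : ZMod M → ℝ, (∀ x, Wb (fun i => conv (cx (k i)) F x) (w x)) ∧
        lp 2 w ≤ C * L * (γ + 1) ^ 2 * lp 2 F

def StLinC : Prop :=
  ∀ p : ℝ, 1 < p → ∃ C : ℝ, 0 < C ∧
    ∀ (M : ℕ) [NeZero M] (L γ i₀ i₁ τ : ℕ) (r : ℕ → ℝ) (k : ℕ → ZMod M → ℝ) (J : ℕ)
      (c : ℕ → ℕ) (ε : ℕ → ℝ) (f : ZMod M → ℂ), Ker L γ i₀ i₁ τ r k → Monotone c →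
      (∀ j, |ε j| ≤ 1) →
      lp p (conv (cx fun t => ∑ j ∈ range J, ε j * (k (c (j + 1)) t - k (c j) t)) f) ≤
        C * L * (γ + 1) ^ 2 * lp p f

def StIW : Prop :=
  ∀ p ε : ℝ, 1 < p → 0 < ε → ∃ (a : ℝ) (R : ℕ) (C : ℝ), 1 < a ∧ 0 < C ∧
    ∀ (M : ℕ) [NeZero M] (H K : ℕ) (κ : ZMod M → ℝ) (A : ℝ), 1 ≤ H → 1 ≤ K →
      K * (2 * H) ^ R ≤ M → Band K (cx κ) →
      (∀ f : ZMod M → ℂ, lp a (conv (cx κ) f) ≤ A * lp a f) →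
      ∀ f, lp p (TT (Sg M H) (cx κ) f) ≤ C * (H : ℝ) ^ ε * A * lp p f

def StR3 : Prop :=
  ∃ C : ℝ, 0 < C ∧ ∀ (X : Type) [Fintype X] (p : ℝ) (a : ℕ → ℕ → X → ℂ) (ℓ i₀ : ℕ) (V : ℝ),
    1 ≤ p → (∀ i j, i ∉ Ico i₀ (i₀ + 2 ^ ℓ) → a i j = 0 ∧ a j i = 0) →
    (∀ (J J' : ℕ) (c c' : ℕ → ℕ) (ε ε' : ℕ → ℝ), Monotone c → Monotone c' → (∀ j, |ε j| ≤ 1) →
      (∀ j, |ε' j| ≤ 1) →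
      lp p (fun x => ∑ j ∈ range J, ∑ k ∈ range J', (ε j * ε' k) •
        (a (c (j + 1)) (c' (k + 1)) x - a (c (j + 1)) (c' k) x - a (c j) (c' (k + 1)) x +
          a (c j) (c' k) x)) ≤ V) →
    ∃ w : X → ℝ, (∀ x, Wb (fun i => a i i x) (w x)) ∧ lp p w ≤ C * (ℓ + 1) ^ 2 * V

def StR4 : Prop :=
  ∃ C : ℝ, 0 < C ∧ ∀ (Y E₁ E₂ : Type) [Fintype Y] [NormedAddCommGroup E₁]
    [InnerProductSpace ℂ E₁] [NormedAddCommGroup E₂] [InnerProductSpace ℂ E₂]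
    (B : E₁ → E₂ → Y → ℂ) (κ : ℝ) (ℓ : ℕ) (F : ℕ → E₁) (G : ℕ → E₂) (w₁ w₂ : ℝ),
    (∀ v y, IsLinearMap ℂ fun u => B u v y) → (∀ u y, IsLinearMap ℂ fun v => B u v y) →
    0 < κ → κ ≤ 1 → (∀ u v, ∑ y, ‖B u v y‖ ≤ κ * Fintype.card Y * ‖u‖ * ‖v‖) →
    (∀ u v, ∑ y, ‖B u v y‖ ^ 2 ≤ Fintype.card Y * ‖u‖ ^ 2 * ‖v‖ ^ 2) →
    (∀ u v y, ‖B u v y‖ ≤ 2 ^ ℓ * ‖u‖ * ‖v‖) → Wb F w₁ → Wb G w₂ →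
    ∀ (J : ℕ) (c : Y → ℕ → ℕ), (∀ y, Monotone (c y)) →
      ∑ y, (√J)⁻¹ * vr (fun i => B (F i) (G i) y) J (c y) ≤
        C * ((ℓ + 1) * √κ + (2 ^ ℓ)⁻¹) * Fintype.card Y * w₁ * w₂

/-- mixed norm bound from a pointwise majorant -/
def StDBW : Prop :=
  ∀ (X X' Y : Type) [Fintype X'] [Fintype Y] (e : X' × Y ≃ X) (p q : ℝ) (a : ℕ → X → ℂ)
    (w : X' × Y → ℝ) (φ : X' → ℝ) (B : ℝ), 1 ≤ p → 1 ≤ q → 0 ≤ B → (∀ x, 0 ≤ φ x) →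
    (∀ z, Wb (fun i => a i (e z)) (w z)) →
    (∀ x, ∑ y, w (x, y) ^ q ≤ Fintype.card Y * φ x ^ q) →
    Fintype.card Y * ∑ x, φ x ^ p ≤ B ^ p → DB e (1 - p⁻¹) (1 - q⁻¹) a B

def StDBI : Prop :=
  ∀ (X X' Y U V : Type) [Fintype X'] [Fintype Y] [Fintype U] [Fintype V] (e : X' × Y ≃ X)
    (a : (U → ℂ) → (V → ℂ) → ℕ → X → ℂ) (γ β a₁ b₁ p₁ p₂ θ B₀ B₁ : ℝ),
    (∀ g i x, IsLinearMap ℂ fun f => a f g i x) → (∀ f i x, IsLinearMap ℂ fun g => a f g i x) →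
    1 ≤ a₁ → 1 ≤ b₁ → 0 ≤ θ → θ ≤ 1 → p₁⁻¹ = (1 - θ) * 2⁻¹ + θ * a₁⁻¹ →
    p₂⁻¹ = (1 - θ) * 2⁻¹ + θ * b₁⁻¹ → 0 < B₀ → 0 < B₁ →
    (∀ f g, DB e 0 0 (a f g) (B₀ * lp 2 f * lp 2 g)) →
    (∀ f g, DB e γ β (a f g) (B₁ * lp a₁ f * lp b₁ g)) →
    ∀ f g, DB e (θ * γ) (θ * β) (a f g) (B₀ ^ (1 - θ) * B₁ ^ θ * lp p₁ f * lp p₂ g)

def StJump : Prop :=
  ∀ p β : ℝ, 1 ≤ p → 1 - p⁻¹ < β → β < 1 → ∃ C : ℝ, 0 < C ∧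
    ∀ (X X' Y : Type) [Fintype X] [Fintype X'] [Fintype Y] (e : X' × Y ≃ X) (a : ℕ → X → ℂ)
      (B : ℝ), 0 ≤ B → DB e (1 - p⁻¹) β a B → JB p a (C * B)

def StJSum : Prop :=
  ∀ (X : Type) [Fintype X] (p : ℝ) (s : Finset ℕ) (a : ℕ → ℕ → X → ℂ) (ω B : ℕ → ℝ), 1 ≤ p →
    (∀ h ∈ s, 0 < ω h) → ∑ h ∈ s, ω h ≤ 1 → (∀ h ∈ s, JB p (a h) (B h)) →
    JB p (fun i x => ∑ h ∈ s, a h i x) (∑ h ∈ s, B h / ω h)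

/-- the single scale estimate -/
def StSS : Prop :=
  ∀ P : ℤ[X], 2 ≤ P.natDegree → ∃ (c : ℝ) (C₀ : ℕ) (C : ℝ), 0 < c ∧ 0 < C ∧
    ∀ (M : ℕ) [NeZero M] (H N : ℕ) (f g : ZMod M → ℂ), 1 ≤ H → H ^ C₀ ≤ N →
      Dv M (2 * N ^ P.natDegree) →
      (Minor H (H * (M / N)) f ∨ Minor H (H * (M / N ^ P.natDegree)) g) →
      lp 1 (AA X P N f g) ≤ C * (H : ℝ) ^ (-c) * lp 2 f * lp 2 g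

def StDisc : Prop :=
  ∀ (P : ℤ[X]) (p₁ p₂ p : ℝ) (L : ℕ), 2 ≤ P.natDegree → 1 < p₁ → 1 < p₂ → 1 ≤ p →
    p₁⁻¹ + p₂⁻¹ = p⁻¹ → 1 ≤ L → ∃ C : ℝ, 0 < C ∧ Disc P p₁ p₂ p L C

open MeasureTheory in
def StFinal.{u} : Prop :=
  ∀ (P : ℤ[X]) (p₁ p₂ p lam : ℝ), 2 ≤ P.natDegree → 1 < p₁ → 1 < p₂ → 1 ≤ p →
    p₁⁻¹ + p₂⁻¹ = p⁻¹ → 1 < lam →
    ∃ C : NNReal, ∀ (Ω : Type u) [MeasurableSpace Ω] (μ : Measure Ω) [SigmaFinite μ]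
      (T : Ω ≃ᵐ Ω), MeasurePreserving T μ μ →
      ∀ D : Set ℝ, (∀ a ∈ D, 1 ≤ a) → (∀ a ∈ D, ∀ b ∈ D, a < b → lam * a < b) →
      ∀ f g : Ω → ℂ, MemLp f (ENNReal.ofReal p₁) μ → MemLp g (ENNReal.ofReal p₂) μ →
      ∀ δ : ℝ, 0 < δ →
        AEMeasurable (fun x => jumps D δ fun N => bavg T.toEquiv P f g N x) μ ∧
        (∫⁻ x, (ENNReal.ofReal δ *
          (jumps D δ fun N => bavg T.toEquiv P f g N x) ^ (1 / 2 : ℝ)) ^ p ∂μ) ^ (1 / p) ≤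
          C * eLpNorm f (ENNReal.ofReal p₁) μ * eLpNorm g (ENNReal.ofReal p₂) μ

end

end Pool.Agent.Lib.MP_10e396_an
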