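import Pool.Agent.Lib.MP_10e396_an.Inv3
import Pool.Agent.Lib.MP_10e396_an.Spec

/-! Major arcs and the last step of the inverse theorem on cyclic groups. -/

set_option autoImplicit false

namespace Pool.Agent.Lib.MP_10e396_an.Inv

open Finset Polynomial ComplexConjugate
open scoped BigOperators

noncomputable section

lemma two_le_inv {η : ℝ} (h0 : 0 < η) (h1 : η ≤ 1 / 2) : 2 ≤ η⁻¹ := by
  rw [le_inv_comm₀ two_pos h0]; rwa [one_div] at h1

lemma kit (K : ℝ) : ∃ c : ℕ, ∀ η : ℝ, 0 < η → η ≤ 1 / 2 → K ≤ η⁻¹ ^ c := by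
  obtain ⟨c, hc⟩ := pow_unbounded_of_one_lt K (one_lt_two (α := ℝ))
  exact ⟨c, fun η h0 h1 => hc.le.trans (pow_le_pow_left₀ two_pos.le (two_le_inv h0 h1) c)⟩

lemma inv_mono {η : ℝ} (h0 : 0 < η) (h1 : η ≤ 1 / 2) {a b : ℕ} (h : a ≤ b) : η⁻¹ ^ a ≤ η⁻¹ ^ b :=
  pow_le_pow_right₀ (one_le_two.trans (two_le_inv h0 h1)) h

lemma pow_anti {η : ℝ} (h0 : 0 < η) (h1 : η ≤ 1 / 2) {a b : ℕ} (h : a ≤ b) : η ^ b ≤ η ^ a :=
  pow_le_pow_of_le_one h0.le (by linarith) h

lemma av_eq (N : ℕ) (φ : ℕ → ℂ) : av N φ = 𝔼 n ∈ range N, φ n := by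
  rw [av, expect_eq_sum_div_card, card_range, Complex.real_smul, div_eq_inv_mul]
  push_cast
  rfl

lemma nd_neg (x : ℝ) : nd (-x) ≤ nd x := by
  have := round_le (-x) (-round x)
  rw [nd, nd]
  refine this.trans (le_of_eq ?_)
  rw [← abs_neg]
  congr 1
  push_cast
  ring

lemma ee_int (w : ℤ) (θ : ℝ) : ‖ee (w * θ) - 1‖ ≤ 2 * Real.pi * |(w : ℝ)| * nd θ := by
  have e : ee (w * θ) = Complex.exp (Complex.I * ((2 * Real.pi * w * (θ - round θ) : ℝ) : ℂ)) := by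
    rw [ee, ← mul_one (Complex.exp (Complex.I * _)),
      ← Complex.exp_int_mul_two_pi_mul_I (w * round θ), ← Complex.exp_add]
    congr 1
    push_cast
    ring
  rw [e]
  refine Real.norm_exp_I_mul_ofReal_sub_one_le.trans (le_of_eq ?_)
  rw [Real.norm_eq_abs, abs_mul, abs_mul, abs_of_pos Real.two_pi_pos, nd]

lemma poly_lip (P : ℤ[X]) : ∃ A : ℕ, ∀ a b R : ℤ, 1 ≤ R → |a| ≤ R → |b| ≤ R →
    |P.eval a - P.eval b| ≤ |a - b| * A * R ^ (P.natDegree - 1) := by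
  refine ⟨∑ i ∈ range (P.natDegree + 1), (P.coeff i).natAbs * i, fun a b R h1 ha hb => ?_⟩
  rw [eval_eq_sum_range, eval_eq_sum_range, ← sum_sub_distrib]
  refine (abs_sum_le_sum_abs _ _).trans ?_
  push_cast
  rw [mul_sum, sum_mul]
  refine sum_le_sum fun i hi => ?_
  rw [← mul_sub, abs_mul]
  have e := abs_pow_sub_pow_le a b i
  have e' : max |a| |b| ^ (i - 1) ≤ R ^ (P.natDegree - 1) :=
    (pow_le_pow_left₀ (le_max_of_le_left (abs_nonneg _)) (max_le ha hb) _).trans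
      (pow_le_pow_right₀ h1 (by have := mem_range.1 hi; omega))
  calc _ ≤ |P.coeff i| * (|a - b| * i * R ^ (P.natDegree - 1)) :=
        mul_le_mul_of_nonneg_left (e.trans (mul_le_mul_of_nonneg_left e' (by positivity)))
          (abs_nonneg _)
    _ = _ := by ring

lemma shift_avg (u : ℕ → ℂ) (hu : ∀ n, ‖u n‖ ≤ 1) (N k : ℕ) :
    ‖𝔼 n ∈ range N, u n - 𝔼 n ∈ range N, u (n + k)‖ ≤ 2 * k / N := by
  have e : ∑ n ∈ range N, u n - ∑ n ∈ range N, u (n + k) =
      ∑ n ∈ range k, u n - ∑ n ∈ range k, u (N + n) := by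
    have a := sum_range_add u N k
    rw [add_comm N k, sum_range_add] at a
    simp only [add_comm k] at a
    linear_combination -a
  have b : ∀ v : ℕ → ℂ, (∀ n, ‖v n‖ ≤ 1) → ‖∑ n ∈ range k, v n‖ ≤ k := fun v hv =>
    (norm_sum_le _ _).trans ((sum_le_card_nsmul _ _ 1 fun n _ => hv n).trans (by simp))
  rw [expect_eq_sum_div_card, expect_eq_sum_div_card, card_range, ← sub_div, e, norm_div,
    Complex.norm_natCast]
  refine div_le_div_of_nonneg_right ((norm_sub_le _ _).trans ?_) (Nat.cast_nonneg _)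
  linarith [b u hu, b (fun n => u (N + n)) fun n => hu _]

variable {M : ℕ} [NeZero M]

/-- the dual function of the bilinear average -/
def DP (P : ℤ[X]) (N : ℕ) (h f : ZMod M → ℂ) : ZMod M → ℂ :=
  Df N (fun n => -pe P n) (fun n => -pe P n + (n : ZMod M)) h f

lemma arc (h2 : StWeyl) (P : ℤ[X]) (hd : 2 ≤ P.natDegree) : ∃ c : ℕ, ∀ (M : ℕ) [NeZero M] (N : ℕ)
    (h f : ZMod M → ℂ) (ξ : ZMod M) (η : ℝ), 1 ≤ N → (∀ x, ‖h x‖ ≤ 1) → (∀ x, ‖f x‖ ≤ 1) →
    0 < η → η ≤ 1 / 2 → η ≤ ‖hat (DP P N h f) ξ‖ → ∃ q : ℕ, 1 ≤ q ∧ (q : ℝ) ≤ η⁻¹ ^ c ∧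
      nd (q * (ξ.val : ℝ) / M) ≤ η⁻¹ ^ c / (N : ℝ) ^ P.natDegree := by
  obtain ⟨C, hC⟩ := h2 P.natDegree (by omega)
  obtain ⟨c, hc⟩ := kit ((P.coeff P.natDegree).natAbs : ℝ)
  refine ⟨C + c, fun M _ N h f ξ η hN hh hf h0 h1 hη => ?_⟩
  obtain ⟨ζ, hζ⟩ := two_fun N (fun n => -pe P n) (fun n => -pe P n + (n : ZMod M)) hh hf ξ
  obtain ⟨q, q1, q2, q3⟩ := hC (Polynomial.C ((ξ.val : ℝ) / M) * P.map (Int.castRingHom ℝ) +
      Polynomial.C ((ζ.val : ℝ) / M) * X) N η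
    (natDegree_add_le_of_degree_le ((natDegree_C_mul_le _ _).trans natDegree_map_le)
      ((natDegree_C_mul_le _ _).trans (natDegree_X_le.trans (by omega)))) hN h0 h1 (by
      refine hη.trans (hζ.trans (le_of_eq ?_))
      rw [av_eq]
      congr 1
      refine expect_congr rfl fun n _ => ?_
      have : -(ξ * -pe P n) + ζ * (-pe P n + (n : ZMod M) - -pe P n) =
          ((ξ.val * P.eval (n : ℤ) + ζ.val * n : ℤ) : ZMod M) := by
        simp only [pe, Int.cast_add, Int.cast_mul, Int.cast_natCast, ZMod.natCast_zmod_val]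
        ring
      rw [this, ch_int]
      congr 1
      rw [eval_add, eval_mul, eval_mul, eval_C, eval_C, eval_X, ← Int.cast_natCast (R := ℝ) n,
        eval_intCast_map]
      simp only [Int.cast_add, Int.cast_mul, Int.cast_natCast, eq_intCast]
      ring)
  have ha : P.coeff P.natDegree ≠ 0 := by
    refine leadingCoeff_ne_zero.2 ?_
    rintro rfl
    simp at hd
  have i0 : 0 < η⁻¹ := inv_pos.2 h0
  refine ⟨q * (P.coeff P.natDegree).natAbs, Nat.mul_pos q1 (Int.natAbs_pos.2 ha), ?_, ?_⟩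
  · rw [Nat.cast_mul, pow_add]
    exact mul_le_mul q2 (hc η h0 h1) (Nat.cast_nonneg _) (by positivity)
  · rw [coeff_add, coeff_C_mul, coeff_C_mul, coeff_X_of_ne_one (by omega), mul_zero, add_zero,
      coeff_map, eq_intCast] at q3
    refine le_trans ?_ (q3.trans (div_le_div_of_nonneg_right
      (inv_mono h0 h1 (Nat.le_add_right _ _)) (by positivity)))
    rw [Nat.cast_mul, Nat.cast_natAbs, Int.cast_abs]
    rcases abs_choice ((P.coeff P.natDegree : ℤ) : ℝ) with e | e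
    · rw [e]; exact le_of_eq (by congr 1; ring)
    · rw [e]; exact le_trans (le_of_eq (by congr 1; ring)) (nd_neg _)

lemma maj (h2 : StWeyl) (h3 : StCount) (P : ℤ[X]) (hd : 2 ≤ P.natDegree) (Γ : ℕ) :
    ∃ K : ℕ, ∀ (M : ℕ) [NeZero M] (N : ℕ), 1 ≤ N → M ≤ Γ * N ^ P.natDegree →
      Maj K N (fun n => (-pe P n : ZMod M)) (fun n => -pe P n + (n : ZMod M)) := by
  classical
  obtain ⟨c, hc⟩ := arc h2 P hd
  obtain ⟨c', hc'⟩ := kit (2 * (2 * Γ + 1))
  refine ⟨3 * c + c', fun M _ N hN hM η h0 h1 => ?_⟩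
  have i1 : 1 ≤ η⁻¹ ^ c := one_le_pow₀ (one_le_two.trans (two_le_inv h0 h1))
  have hN' : (0 : ℝ) < (N : ℝ) ^ P.natDegree := pow_pos (Nat.cast_pos.2 hN) _
  refine ⟨_, (h3 M ⌊η⁻¹ ^ c⌋₊ (η⁻¹ ^ c / (N : ℝ) ^ P.natDegree) (by positivity)).trans ?_,
    fun h f ξ hh hf hη => ?_⟩
  · have a1 : (⌊η⁻¹ ^ c⌋₊ : ℝ) ≤ η⁻¹ ^ c := Nat.floor_le (by positivity)
    have a2 : η⁻¹ ^ c / (N : ℝ) ^ P.natDegree * M ≤ η⁻¹ ^ c * Γ := by
      rw [div_mul_eq_mul_div, div_le_iff₀ hN', mul_assoc]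
      exact mul_le_mul_of_nonneg_left (by exact_mod_cast hM) (by positivity)
    have a3 : (0 : ℝ) ≤ Γ := Nat.cast_nonneg _
    calc _ ≤ 2 * (η⁻¹ ^ c) ^ 2 * (η⁻¹ ^ c * (2 * Γ + 1)) :=
          mul_le_mul (by gcongr) (by nlinarith) (by positivity) (by positivity)
      _ = (η⁻¹ ^ c) ^ 3 * (2 * (2 * Γ + 1)) := by ring
      _ ≤ _ := by
          rw [pow_add, mul_comm 3 c, pow_mul]
          exact mul_le_mul_of_nonneg_left (hc' η h0 h1) (by positivity)
  · obtain ⟨q, q1, q2, q3⟩ := hc M N h f ξ η hN hh hf h0 h1 hη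
    exact mem_filter.2 ⟨mem_univ _, q, q1, Nat.le_floor q2, q3⟩

lemma endstep (P : ℤ[X]) (A : ℕ) (hA : ∀ a b R : ℤ, 1 ≤ R → |a| ≤ R → |b| ≤ R →
      |P.eval a - P.eval b| ≤ |a - b| * A * R ^ (P.natDegree - 1)) (N N' q : ℕ) (hN : 1 ≤ N)
    (hN' : 1 ≤ N') (hq : 1 ≤ q) (hqN : q * N' ≤ N) {h f : ZMod M → ℂ} (hh : ∀ x, ‖h x‖ ≤ 1)
    (hf : ∀ x, ‖f x‖ ≤ 1) (ξ : ZMod M) :
    ‖hat (DP P N h f) ξ‖ ≤ 𝔼 x, ‖𝔼 y ∈ range N', f (x + q * y)‖ + (2 * q * N' / N +
      2 * Real.pi * (N' * A * (2 * N) ^ (P.natDegree - 1)) * nd (q * (ξ.val : ℝ) / M)) := by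
  set E : ℝ := 2 * q * N' / N +
    2 * Real.pi * (N' * A * (2 * N) ^ (P.natDegree - 1)) * nd (q * (ξ.val : ℝ) / M) with hE
  have ph : ∀ n < N, ∀ y < N', ‖ch (ξ * pe P (n + q * y)) - ch (ξ * pe P n)‖ ≤
      2 * Real.pi * (N' * A * (2 * N) ^ (P.natDegree - 1)) * nd (q * (ξ.val : ℝ) / M) := by
    intro n hn y hy
    obtain ⟨w, hw⟩ : (q : ℤ) ∣ P.eval ((n + q * y : ℕ) : ℤ) - P.eval (n : ℤ) :=
      Dvd.dvd.trans ⟨y, by push_cast; ring⟩ (sub_dvd_eval_sub _ _ P)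
    have hqy : q * y ≤ N := (Nat.mul_le_mul_left q hy.le).trans hqN
    have b1 := hA ((n + q * y : ℕ) : ℤ) n (2 * N) (by omega)
      (by rw [abs_of_nonneg (by positivity)]; omega) (by rw [abs_of_nonneg (by positivity)]; omega)
    rw [hw, show ((n + q * y : ℕ) : ℤ) - n = q * y by push_cast; ring, abs_mul, abs_mul,
      mul_assoc, mul_assoc] at b1
    have b2 := le_of_mul_le_mul_left b1 (abs_pos.2 (by omega))
    have b3 : |(w : ℝ)| ≤ N' * A * (2 * N) ^ (P.natDegree - 1) := by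
      have : |w| ≤ N' * A * (2 * N) ^ (P.natDegree - 1) := b2.trans (by
        rw [mul_assoc, abs_of_nonneg (by positivity)]
        exact mul_le_mul_of_nonneg_right (by exact_mod_cast hy.le) (by positivity))
      exact_mod_cast this
    have e : ξ * pe P (n + q * y) = ξ * pe P n + ((w * (q * ξ.val) : ℤ) : ZMod M) := by
      simp only [pe]
      rw [sub_eq_iff_eq_add.1 hw]
      simp only [Int.cast_add, Int.cast_mul, Int.cast_natCast, ZMod.natCast_zmod_val]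
      ring
    rw [e, ch_add, ← mul_sub_one, norm_mul, ch_norm, one_mul, ch_int,
      show ((w * (q * ξ.val) : ℤ) : ℝ) / M = w * (q * (ξ.val : ℝ) / M) by push_cast; ring]
    refine (ee_int _ _).trans ?_
    have := Real.pi_pos
    exact mul_le_mul_of_nonneg_right (by gcongr) (abs_nonneg _)
  have key : ∀ x, ‖𝔼 n ∈ range N, f (x + n) * ch (ξ * pe P n)‖ ≤
      𝔼 n ∈ range N, ‖𝔼 y ∈ range N', f (x + n + q * y)‖ + E := by
    intro x
    have a1 : ∀ y ∈ range N', ‖𝔼 n ∈ range N, f (x + n) * ch (ξ * pe P n) -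
        𝔼 n ∈ range N, f (x + n + q * y) * ch (ξ * pe P n)‖ ≤ E := by
      intro y hy
      have s1 := shift_avg (fun n => f (x + n) * ch (ξ * pe P n))
        (fun n => mul_le1 (hf _) (ch_norm _).le) N (q * y)
      refine (norm_sub_le_norm_sub_add_norm_sub _ _ _).trans (add_le_add (s1.trans ?_) ?_)
      · refine div_le_div_of_nonneg_right ?_ (Nat.cast_nonneg _)
        rw [mul_assoc]
        exact_mod_cast Nat.mul_le_mul_left 2 (Nat.mul_le_mul_left q (mem_range.1 hy).le)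
      · rw [← expect_sub_distrib]
        refine (nexp _ _).trans (expect_le (nonempty_range_iff.2 (by omega)) fun n hn => ?_)
        rw [show x + ((n + q * y : ℕ) : ZMod M) = x + n + q * y by push_cast; ring, ← mul_sub,
          norm_mul]
        exact (mul_le_of_le_one_left (norm_nonneg _) (hf _)).trans
          (ph n (mem_range.1 hn) y (mem_range.1 hy))
    have ne : (range N').Nonempty := nonempty_range_iff.2 (by omega)
    have a2 : ‖𝔼 n ∈ range N, f (x + n) * ch (ξ * pe P n) - 𝔼 y ∈ range N',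
        𝔼 n ∈ range N, f (x + n + q * y) * ch (ξ * pe P n)‖ ≤ E := by
      rw [← expect_const ne (𝔼 n ∈ range N, f (x + n) * ch (ξ * pe P n)), ← expect_sub_distrib]
      exact (nexp _ _).trans (expect_le ne a1)
    refine (norm_le_norm_add_norm_sub' _ _).trans (add_le_add ?_ a2)
    rw [expect_comm]
    refine (nexp _ _).trans (expect_le_expect fun n _ => ?_)
    rw [← expect_mul, norm_mul, ch_norm, mul_one]
  rw [DP, hat_df]
  refine (nexp _ _).trans ?_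
  calc _ ≤ 𝔼 x, (𝔼 n ∈ range N, ‖𝔼 y ∈ range N', f (x + n + q * y)‖ + E) := by
        refine expect_le_expect fun x _ => le_trans ?_ (key x)
        rw [norm_mul]
        refine (mul_le_of_le_one_left (norm_nonneg _) (mul_le1 (hh _) (ch_norm _).le)).trans
          (le_of_eq ?_)
        congr 1
        refine expect_congr rfl fun n _ => ?_
        congr 2 <;> ring
    _ = _ := by
        rw [expect_add_distrib, Fintype.expect_const, expect_comm]
        congr 1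
        rw [← expect_const (nonempty_range_iff.2 (by omega : N ≠ 0))
          (𝔼 x, ‖𝔼 y ∈ range N', f (x + q * y)‖)]
        exact expect_congr rfl fun n _ =>
          exp_shift (fun x => ‖𝔼 y ∈ range N', f (x + q * y)‖) (n : ZMod M)

end

end Pool.Agent.Lib.MP_10e396_an.Inv
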