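import Pool.Agent.Lib.MP_10e396_an.MartA

/-! The linear theory: variation and signed sums of a lacunary family of convolutions. -/

set_option autoImplicit false

namespace Pool.Agent.Lib.MP_10e396_an

open Finset

noncomputable section

namespace Lin

open Mart

variable {M : ℕ} [NeZero M] {L γ i₀ i₁ τ : ℕ} {r : ℕ → ℝ} {k : ℕ → ZMod M → ℝ}

/-- the level function, extended monotonically -/
def ph (i₀ i₁ τ : ℕ) (r : ℕ → ℝ) (i : ℕ) : ℕ :=
  if i < i₀ then 0 else if i < i₁ then lv (r i) else τ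

theorem ph_eq {i : ℕ} (hi : i ∈ Ico i₀ i₁) : ph i₀ i₁ τ r i = lv (r i) := by
  rw [mem_Ico] at hi
  rw [ph, if_neg (not_lt.2 hi.1), if_pos hi.2]

theorem lv_le (h : Ker L γ i₀ i₁ τ r k) {i : ℕ} (hi : i ∈ Ico i₀ i₁) : lv (r i) ≤ τ := by
  refine Nat.clog_le_of_le_pow (Nat.ceil_le.2 ?_)
  have h1 := h.top i hi
  have h2 := h.ge i hi
  have h3 : (1 : ℝ) ≤ 2 ^ γ := one_le_pow₀ (by norm_num)
  push_cast
  nlinarith

theorem ph_le (h : Ker L γ i₀ i₁ τ r k) (i : ℕ) : ph i₀ i₁ τ r i ≤ τ := by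
  unfold ph
  split_ifs with h1 h2
  · exact Nat.zero_le _
  · exact lv_le h (mem_Ico.2 ⟨not_lt.1 h1, h2⟩)
  · exact le_rfl

theorem ph_mono (h : Ker L γ i₀ i₁ τ r k) : Monotone (ph i₀ i₁ τ r) := by
  intro a b hab
  by_cases h1 : a < i₀
  · rw [ph, if_pos h1]
    exact Nat.zero_le _
  by_cases h2 : b < i₁
  · rw [ph_eq (mem_Ico.2 ⟨not_lt.1 h1, hab.trans_lt h2⟩),
      ph_eq (mem_Ico.2 ⟨(not_lt.1 h1).trans hab, h2⟩)]
    exact Nat.clog_mono_right 2 (Nat.ceil_mono (h.mono a b (not_lt.1 h1) hab h2))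
  · have : ph i₀ i₁ τ r b = τ := by
      rw [ph, if_neg (fun h3 => h1 (hab.trans_lt h3)), if_neg h2]
    rw [this]
    exact ph_le h a

theorem conv_zero {E : Type} [AddCommMonoid E] [Module ℂ E] (h : Ker L γ i₀ i₁ τ r k) {i : ℕ}
    (hi : i ∉ Ico i₀ i₁) (F : ZMod M → E) (x : ZMod M) : conv (cx (k i)) F x = 0 := by
  simp [conv, cx, h.zero i hi]

theorem ico_conv (a b d : ℕ) (h1 : a ≤ b) (h2 : b ≤ d) (h3 : a ∈ Ico i₀ i₁) (h4 : d ∈ Ico i₀ i₁) :
    b ∈ Ico i₀ i₁ :=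
  mem_Ico.2 ⟨(mem_Ico.1 h3).1.trans h1, h2.trans_lt (mem_Ico.1 h4).2⟩

section

variable {E : Type} [NormedAddCommGroup E] [InnerProductSpace ℂ E]

/-- martingale square function -/
def sqM (τ : ℕ) (F : ZMod M → E) (x : ZMod M) : ℝ :=
  √(‖dy τ F x‖ ^ 2 + ∑ j ∈ range τ, ‖dy j F x - dy (j + 1) F x‖ ^ 2)

/-- square function of the remainders -/
def sqR (i₀ i₁ : ℕ) (r : ℕ → ℝ) (k : ℕ → ZMod M → ℝ) (F : ZMod M → E) (x : ZMod M) : ℝ :=
  √(∑ i ∈ Ico i₀ i₁, ‖conv (cx (k i)) F x - dy (lv (r i)) F x‖ ^ 2)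

theorem lin_core {p : ℝ} (hp : 1 ≤ p) (h : Ker L γ i₀ i₁ τ r k) (F : ZMod M → E)
    (w : ZMod M → ℝ) (hw : ∀ x, Wb (fun j => dy (min j τ) F x) (w x)) :
    ∃ w' : ZMod M → ℝ, (∀ x, Wb (fun i => conv (cx (k i)) F x) (w' x)) ∧
      lp p w' ≤ 3 * lp p w + 2 * lp p (sqR i₀ i₁ r k F) := by
  refine ⟨fun x => 3 * w x + 2 * sqR i₀ i₁ r k F x, fun x => ?_, ?_⟩
  · have h1 := wb_cut (wb_comp (hw x) _ (ph_mono h)) (fun i => i ∈ Ico i₀ i₁) ico_conv
    have h2 := wb_sq (fun i => if i ∈ Ico i₀ i₁ then conv (cx (k i)) F x - dy (lv (r i)) F x else 0)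
      (Ico i₀ i₁) fun i hi => if_neg hi
    have h3 := wb_add h1 h2
    have h4 : (fun i => (if i ∈ Ico i₀ i₁ then dy (min (ph i₀ i₁ τ r i) τ) F x else 0) +
        if i ∈ Ico i₀ i₁ then conv (cx (k i)) F x - dy (lv (r i)) F x else 0) =
        fun i => conv (cx (k i)) F x := by
      funext i
      by_cases hi : i ∈ Ico i₀ i₁
      · rw [if_pos hi, if_pos hi, min_eq_left (ph_le h i), ph_eq hi, add_sub_cancel]
      · rw [if_neg hi, if_neg hi, conv_zero h hi, add_zero]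
    rw [h4, sum_congr rfl fun i hi => by rw [if_pos hi]] at h3
    exact h3
  · refine lp_le_add hp _ w (sqR i₀ i₁ r k F) 3 2 (by norm_num) (by norm_num) fun x => ?_
    refine (norm_add_le _ _).trans ?_
    simp

end

theorem sqM_le (hMT : StMT) (hSq : StSq) {p : ℝ} (hp : 1 < p) : ∃ C : ℝ, 0 < C ∧
    ∀ (M : ℕ) [NeZero M] (τ : ℕ) (f : ZMod M → ℂ), 2 ^ τ ∣ M → lp p (sqM τ f) ≤ C * lp p f := by
  obtain ⟨C, hC, h⟩ := hMT p hp
  obtain ⟨C', hC', h'⟩ := hSq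
  refine ⟨C' * C, by positivity, fun M _ τ f hτ => ?_⟩
  have := h' (ZMod M) p (range (τ + 1)) {0}
    (fun j _ x => if j < τ then dy j f x - dy (j + 1) f x else dy τ f x) (C * lp p f) hp.le
    fun ε ε' h1 h2 => by
      have h3 := h M τ (fun j => ε j * ε' 0) f hτ fun j => by
        rw [abs_mul]
        exact mul_le_one₀ (h1 j) (abs_nonneg _) (h2 0)
      refine le_of_eq_of_le (congrArg (lp p) (funext fun x => ?_)) h3
      simp only [sum_singleton]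
      rw [sum_range_succ, if_neg (lt_irrefl τ), add_comm,
        sum_congr rfl fun j hj => by rw [if_pos (mem_range.1 hj)]]
  rw [mul_assoc]
  refine le_of_eq_of_le (congrArg (lp p) (funext fun x => ?_)) this
  simp only [sum_singleton, sqM]
  rw [sum_range_succ, if_neg (lt_irrefl τ), add_comm (∑ j ∈ range τ, _)]
  exact congrArg (fun u => √(‖dy τ f x‖ ^ 2 + u))
    (sum_congr rfl fun j hj => by rw [if_pos (mem_range.1 hj)])

theorem sqR_le (hRC : StRC) (hSq : StSq) {p : ℝ} (hp : 1 < p) : ∃ C : ℝ, 0 < C ∧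
    ∀ (M : ℕ) [NeZero M] (L γ i₀ i₁ τ : ℕ) (r : ℕ → ℝ) (k : ℕ → ZMod M → ℝ) (f : ZMod M → ℂ),
      Ker L γ i₀ i₁ τ r k → lp p (sqR i₀ i₁ r k f) ≤ C * (L * (γ + 1) ^ 2) * lp p f := by
  obtain ⟨C, hC, h⟩ := hRC p hp
  obtain ⟨C', hC', h'⟩ := hSq
  refine ⟨C' * C, by positivity, fun M _ L γ i₀ i₁ τ r k f hk => ?_⟩
  have := h' (ZMod M) p (Ico i₀ i₁) {0}
    (fun i _ x => conv (cx (k i)) f x - dy (lv (r i)) f x) (C * L * (γ + 1) ^ 2 * lp p f) hp.le
    fun ε ε' h1 h2 => by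
      have h3 := h M L γ i₀ i₁ τ r k (fun j => ε j * ε' 0) f hk fun j => by
        rw [abs_mul]
        exact mul_le_one₀ (h1 j) (abs_nonneg _) (h2 0)
      simpa only [sum_singleton] using h3
  simp only [sum_singleton] at this
  refine this.trans_eq ?_
  ring

theorem one_le (h : Ker L γ i₀ i₁ τ r k) : (1 : ℝ) ≤ L * (γ + 1) ^ 2 := by
  have h1 : (1 : ℝ) ≤ L := by exact_mod_cast h.one
  have h2 : (1 : ℝ) ≤ (γ + 1) ^ 2 := one_le_pow₀ (by linarith [Nat.cast_nonneg (α := ℝ) γ])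
  nlinarith

theorem dy_apply {ι : Type} [Fintype ι] (j : ℕ) (F : ZMod M → EuclideanSpace ℂ ι) (x : ZMod M)
    (a : ι) : dy j F x a = dy j (fun z => F z a) x := by
  simp [dy]

theorem conv_apply {ι : Type} [Fintype ι] (κ : ZMod M → ℂ) (F : ZMod M → EuclideanSpace ℂ ι)
    (x : ZMod M) (a : ι) : conv κ F x a = conv κ (fun z => F z a) x := by
  simp [conv]

/-- passage to Euclidean values for `p = 2` -/
theorem vec {X ι : Type} [Fintype X] [Fintype ι] (F : X → EuclideanSpace ℂ ι) (S : X → ℝ)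
    (s : ι → X → ℝ) (B : ℝ) (hB : 0 ≤ B) (h1 : ∀ x, S x ^ 2 = ∑ a, s a x ^ 2)
    (h2 : ∀ a, lp 2 (s a) ≤ B * lp 2 fun x => F x a) : lp 2 S ≤ B * lp 2 F := by
  rw [lp_two, lp_two, ← Real.sqrt_sq hB, ← Real.sqrt_mul (sq_nonneg _)]
  refine Real.sqrt_le_sqrt ?_
  simp only [Real.norm_eq_abs, sq_abs, h1, EuclideanSpace.norm_sq_eq]
  rw [sum_comm, sum_comm (s := (univ : Finset X)), mul_sum]
  refine sum_le_sum fun a _ => ?_
  have h3 := pow_le_pow_left₀ (lp_nonneg _ _) (h2 a) 2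
  rw [mul_pow, lp_two, lp_two, Real.sq_sqrt (sum_nonneg fun _ _ => sq_nonneg _),
    Real.sq_sqrt (sum_nonneg fun _ _ => sq_nonneg _)] at h3
  simpa only [Real.norm_eq_abs, sq_abs] using h3

/-- rearrangement of a signed sum along a chain -/
theorem rearr (s : Finset ℕ) (U : ℕ → ℕ → Prop) [∀ j, DecidablePred (U j)]
    (hU : ∀ j a b d, a ≤ b → b ≤ d → U j a → U j d → U j b) (J : ℕ) (c : ℕ → ℕ) (hc : Monotone c)
    (ε : ℕ → ℝ) (hε : ∀ j, |ε j| ≤ 1) : ∃ a : ℕ → ℝ, (∀ j, |a j| ≤ 1) ∧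
      ∀ (e b : ℕ → ℂ), (∀ i, b i = ∑ j ∈ s, if U j i then e j else 0) →
        ∑ m ∈ range J, (ε m : ℂ) * (b (c (m + 1)) - b (c m)) = 2 * ∑ j ∈ s, a j • e j := by
  refine ⟨fun j => (∑ m ∈ range J, ε m *
    ((if U j (c (m + 1)) then (1 : ℝ) else 0) - (if U j (c m) then 1 else 0))) / 2,
    fun j => ?_, fun e b hb => ?_⟩
  · rw [abs_div, abs_two, div_le_one (by norm_num)]
    refine (abs_sum_le_sum_abs _ _).trans (le_trans (sum_le_sum fun m _ => ?_)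
      (ind_var (U j) (hU j) J c hc))
    rw [abs_mul]
    exact mul_le_of_le_one_left (abs_nonneg _) (hε m)
  · simp only [hb, ← sum_sub_distrib, mul_sum]
    rw [sum_comm]
    refine sum_congr rfl fun j _ => ?_
    rw [Complex.real_smul]
    push_cast
    rw [← mul_assoc, mul_div_cancel₀ _ (by norm_num), sum_mul]
    refine sum_congr rfl fun m _ => ?_
    split_ifs <;> simp

theorem dy_exp {E : Type} [AddCommGroup E] [Module ℂ E] (F : ZMod M → E) (x : ZMod M) (τ l : ℕ)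
    (hl : l ≤ τ) :
    dy l F x = dy τ F x + ∑ j ∈ range τ, if l ≤ j then dy j F x - dy (j + 1) F x else 0 := by
  induction τ, hl using Nat.le_induction with
  | base =>
    rw [sum_eq_zero fun j hj => if_neg (not_le.2 (mem_range.1 hj)), add_zero]
  | succ n hn ih =>
    rw [sum_range_succ, if_pos hn, ih]
    abel

end Lin

open Mart Lin

theorem stLinA (hWS : StWS) (hMT : StMT) (hRC : StRC) (hSq : StSq) : StLinA := by
  intro p hp
  obtain ⟨C₁, h₁, k₁⟩ := hWS p (by linarith)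
  obtain ⟨C₂, h₂, k₂⟩ := sqM_le hMT hSq hp
  obtain ⟨C₃, h₃, k₃⟩ := sqR_le hRC hSq hp
  refine ⟨3 * C₁ * C₂ + 2 * C₃, by positivity, fun M _ L γ i₀ i₁ τ r k f hk => ?_⟩
  obtain ⟨w, hw, hw'⟩ := k₁ M τ ℂ f hk.dvd
  obtain ⟨w', h1, h2⟩ := lin_core hp.le hk f w hw
  refine ⟨w', h1, h2.trans ?_⟩
  have a1 : lp p w ≤ C₁ * (C₂ * lp p f) :=
    hw'.trans (mul_le_mul_of_nonneg_left (k₂ M τ f hk.dvd) h₁.le)
  have a2 := k₃ M L γ i₀ i₁ τ r k f hk
  have a3 := mul_le_mul_of_nonneg_left (one_le hk)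
    (show 0 ≤ C₁ * (C₂ * lp p f) from mul_nonneg h₁.le (mul_nonneg h₂.le (lp_nonneg _ _)))
  nlinarith

theorem stLinB (hWS : StWS) (hMT : StMT) (hRC : StRC) (hSq : StSq) : StLinB := by
  obtain ⟨C₁, h₁, k₁⟩ := hWS 2 (by norm_num)
  obtain ⟨C₂, h₂, k₂⟩ := sqM_le hMT hSq (p := 2) (by norm_num)
  obtain ⟨C₃, h₃, k₃⟩ := sqR_le hRC hSq (p := 2) (by norm_num)
  refine ⟨3 * C₁ * C₂ + 2 * C₃, by positivity, fun M _ L γ i₀ i₁ τ r k ι _ F hk => ?_⟩
  obtain ⟨w, hw, hw'⟩ := k₁ M τ (EuclideanSpace ℂ ι) F hk.dvd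
  obtain ⟨w', h1, h2⟩ := lin_core (p := 2) (by norm_num) hk F w hw
  refine ⟨w', h1, h2.trans ?_⟩
  have b1 : lp 2 (sqM τ F) ≤ C₂ * lp 2 F := by
    refine vec F _ (fun a => sqM τ fun z => F z a) C₂ h₂.le (fun x => ?_)
      fun a => k₂ M τ _ hk.dvd
    simp only [sqM]
    rw [Real.sq_sqrt (by positivity), sum_congr rfl fun a _ => Real.sq_sqrt (by positivity),
      sum_add_distrib, sum_comm]
    simp only [EuclideanSpace.norm_sq_eq, PiLp.sub_apply, dy_apply]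
  have b2 : lp 2 (sqR i₀ i₁ r k F) ≤ C₃ * (L * (γ + 1) ^ 2) * lp 2 F := by
    refine vec F _ (fun a => sqR i₀ i₁ r k fun z => F z a) _ (by positivity) (fun x => ?_)
      fun a => k₃ M L γ i₀ i₁ τ r k _ hk
    simp only [sqR]
    rw [Real.sq_sqrt (by positivity), sum_congr rfl fun a _ => Real.sq_sqrt (by positivity),
      sum_comm]
    simp only [EuclideanSpace.norm_sq_eq, PiLp.sub_apply, dy_apply, conv_apply]
  have a1 : lp 2 w ≤ C₁ * (C₂ * lp 2 F) := hw'.trans (mul_le_mul_of_nonneg_left b1 h₁.le)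
  have a3 := mul_le_mul_of_nonneg_left (one_le hk)
    (show 0 ≤ C₁ * (C₂ * lp 2 F) from mul_nonneg h₁.le (mul_nonneg h₂.le (lp_nonneg _ _)))
  nlinarith

theorem stLinC (hMT : StMT) (hRC : StRC) : StLinC := by
  intro p hp
  obtain ⟨C₁, h₁, k₁⟩ := hMT p hp
  obtain ⟨C₂, h₂, k₂⟩ := hRC p hp
  refine ⟨2 * C₁ + 2 * C₂, by positivity, fun M _ L γ i₀ i₁ τ r k J c ε f hk hc hε => ?_⟩
  obtain ⟨a, ha, ea⟩ := rearr (range (τ + 1)) (fun j i => i ∈ Ico i₀ i₁ ∧ ph i₀ i₁ τ r i ≤ j)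
    (fun j a b d h1 h2 h3 h4 => ⟨ico_conv a b d h1 h2 h3.1 h4.1, (ph_mono hk h2).trans h4.2⟩)
    J c hc ε hε
  obtain ⟨a', ha', ea'⟩ := rearr (Ico i₀ i₁) (fun j i => i = j)
    (fun j a b d h1 h2 h3 h4 => le_antisymm (h4 ▸ h2) (h3 ▸ h1)) J c hc ε hε
  have b1 := k₁ M τ a f hk.dvd ha
  have b2 := k₂ M L γ i₀ i₁ τ r k a' f hk ha'
  refine (lp_le_add hp.le _
    (fun x => a τ • dy τ f x + ∑ j ∈ range τ, a j • (dy j f x - dy (j + 1) f x))
    (fun x => ∑ i ∈ Ico i₀ i₁, a' i • (conv (cx (k i)) f x - dy (lv (r i)) f x)) 2 2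
    (by norm_num) (by norm_num) fun x => ?_).trans ?_
  · have e0 : conv (cx fun t => ∑ j ∈ range J, ε j * (k (c (j + 1)) t - k (c j) t)) f x =
        ∑ m ∈ range J, (ε m : ℂ) * (conv (cx (k (c (m + 1)))) f x - conv (cx (k (c m))) f x) := by
      simp only [conv, cx, smul_eq_mul, ← sum_sub_distrib, mul_sum]
      rw [sum_comm]
      refine sum_congr rfl fun z _ => ?_
      push_cast
      rw [sum_mul]
      exact sum_congr rfl fun m _ => by ring
    have e1 := ea (fun j => if j < τ then dy j f x - dy (j + 1) f x else dy τ f x)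
      (fun i => if i ∈ Ico i₀ i₁ then dy (lv (r i)) f x else 0) fun i => by
        by_cases hi : i ∈ Ico i₀ i₁
        · simp only [hi, true_and, if_true]
          rw [sum_range_succ, if_pos (ph_le hk i), if_neg (lt_irrefl τ), ph_eq hi,
            dy_exp f x τ _ (lv_le hk hi), add_comm]
          exact congrArg (· + dy τ f x) (sum_congr rfl fun j hj => by rw [if_pos (mem_range.1 hj)])
        · simp only [hi, false_and, if_false, sum_const_zero]
    have e2 := ea' (fun i => conv (cx (k i)) f x - dy (lv (r i)) f x)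
      (fun i => if i ∈ Ico i₀ i₁ then conv (cx (k i)) f x - dy (lv (r i)) f x else 0) fun i => by
        rw [sum_ite_eq]
    have e3 : ∀ i, conv (cx (k i)) f x = (if i ∈ Ico i₀ i₁ then dy (lv (r i)) f x else 0) +
        if i ∈ Ico i₀ i₁ then conv (cx (k i)) f x - dy (lv (r i)) f x else 0 := fun i => by
      by_cases hi : i ∈ Ico i₀ i₁
      · rw [if_pos hi, if_pos hi, add_sub_cancel]
      · rw [if_neg hi, if_neg hi, conv_zero hk hi, add_zero]
    rw [sum_range_succ, if_neg (lt_irrefl τ), add_comm (∑ j ∈ range τ, _),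
      sum_congr rfl (s₁ := range τ) fun j hj => by rw [if_pos (mem_range.1 hj)]] at e1
    have e4 : conv (cx fun t => ∑ j ∈ range J, ε j * (k (c (j + 1)) t - k (c j) t)) f x =
        2 * (a τ • dy τ f x + ∑ j ∈ range τ, a j • (dy j f x - dy (j + 1) f x)) +
        2 * ∑ i ∈ Ico i₀ i₁, a' i • (conv (cx (k i)) f x - dy (lv (r i)) f x) := by
      rw [e0, ← e1, ← e2, ← sum_add_distrib]
      refine sum_congr rfl fun m _ => ?_
      have c1 := e3 (c (m + 1))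
      have c2 := e3 (c m)
      linear_combination (ε m : ℂ) * c1 - (ε m : ℂ) * c2
    rw [e4]
    refine (norm_add_le _ _).trans ?_
    simp only [norm_mul, Complex.norm_ofNat, le_refl]
  · have a3 := mul_le_mul_of_nonneg_left (one_le hk)
      (show 0 ≤ C₁ * lp p f from mul_nonneg h₁.le (lp_nonneg _ _))
    nlinarith

end

end Pool.Agent.Lib.MP_10e396_an
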