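import Pool.Agent.Lib.MP_10e396_an.Par

/-! Multi-frequency weak variation bounds. -/

set_option autoImplicit false

namespace Pool.Agent.Lib.MP_10e396_an

open Finset Polynomial

noncomputable section

namespace LinM

theorem absorb (k : ℕ) {ε : ℝ} (hε : 0 < ε) :
    ∃ C : ℝ, 0 < C ∧ ∀ h : ℕ, ((h : ℝ) + 1) ^ k ≤ C * ((2 : ℝ) ^ h) ^ ε := by
  set δ := ε * Real.log 2 with hδ
  have d0 : 0 < δ := mul_pos hε (Real.log_pos one_lt_two)
  refine ⟨k.factorial / δ ^ k * Real.exp δ, by positivity, fun h => ?_⟩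
  have a1 := Real.pow_div_factorial_le_exp (δ * ((h : ℝ) + 1)) (by positivity) k
  have a2 : ((2 : ℝ) ^ h) ^ ε = Real.exp (δ * h) := by
    rw [Real.rpow_def_of_pos (by positivity), Real.log_pow, hδ]
    ring_nf
  rw [a2, mul_assoc, ← Real.exp_add, show δ + δ * h = δ * ((h : ℝ) + 1) by ring,
    div_mul_eq_mul_div, le_div_iff₀ (by positivity)]
  rw [div_le_iff₀ (by positivity), mul_pow] at a1
  linarith

theorem ind_tv (a : ℕ) (J : ℕ) {c : ℕ → ℕ} (hc : Monotone c) :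
    ∑ k ∈ range J, |(if a ≤ c (k + 1) then (1 : ℝ) else 0) - if a ≤ c k then 1 else 0| ≤ 1 := by
  have m : ∀ k, (if a ≤ c k then (1 : ℝ) else 0) ≤ if a ≤ c (k + 1) then 1 else 0 := by
    intro k
    have := hc (Nat.le_succ k)
    split_ifs with h1 h2
    · exact le_rfl
    · exact absurd (h1.trans this) h2
    · exact zero_le_one
    · exact le_rfl
  rw [sum_congr rfl fun k _ => abs_of_nonneg (sub_nonneg.2 (m k)),
    sum_range_sub fun k => if a ≤ c k then (1 : ℝ) else 0]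
  split_ifs <;> norm_num

theorem ico_tv {i₀ i₁ : ℕ} (h : i₀ ≤ i₁) (J : ℕ) {c : ℕ → ℕ} (hc : Monotone c) {ε : ℕ → ℝ}
    (hε : ∀ j, |ε j| ≤ 1) :
    |∑ k ∈ range J, ε k * ((if c (k + 1) ∈ Ico i₀ i₁ then (1 : ℝ) else 0) -
      if c k ∈ Ico i₀ i₁ then 1 else 0)| ≤ 2 := by
  have e : ∀ j, (if j ∈ Ico i₀ i₁ then (1 : ℝ) else 0) =
      (if i₀ ≤ j then 1 else 0) - if i₁ ≤ j then 1 else 0 := by
    intro j
    simp only [mem_Ico]
    split_ifs <;> first | omega | norm_num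
  have a1 := ind_tv i₀ J hc
  have a2 := ind_tv i₁ J hc
  refine (abs_sum_le_sum_abs _ _).trans ?_
  refine le_trans (sum_le_sum fun k _ => ?_) ((sum_add_distrib.le.trans (add_le_add a1 a2)).trans
    (by norm_num))
  rw [abs_mul, e, e]
  refine (mul_le_of_le_one_left (abs_nonneg _) (hε k)).trans ?_
  refine le_trans (le_of_eq ?_) (abs_sub _ _)
  ring_nf

theorem lp_prod_le {X Y E E' : Type} [Fintype X] [Fintype Y] [SeminormedAddCommGroup E]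
    [SeminormedAddCommGroup E'] {p B : ℝ} (hp : 0 < p) (hB : 0 ≤ B) {w : X × Y → E}
    {g : X × Y → E'} (h : ∀ y, lp p (fun x => w (x, y)) ≤ B * lp p fun x => g (x, y)) :
    lp p w ≤ B * lp p g := by
  rw [lp_le_iff hp _ (mul_nonneg hB (lp_nonneg _ _)), Real.mul_rpow hB (lp_nonneg _ _),
    lp_rpow hp, Fintype.sum_prod_type_right, Fintype.sum_prod_type_right, mul_sum]
  refine sum_le_sum fun y _ => ?_
  have := (lp_le_iff hp _ (mul_nonneg hB (lp_nonneg _ _))).1 (h y)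
  rwa [Real.mul_rpow hB (lp_nonneg _ _), lp_rpow hp] at this

variable {M : ℕ} [NeZero M]

theorem TT_signed (A : Finset (ZMod M)) (k : ℕ → ZMod M → ℝ) (J : ℕ) (c : ℕ → ℕ) (ε : ℕ → ℝ)
    (f : ZMod M → ℂ) (x : ZMod M) :
    TT A (cx fun t => ∑ j ∈ range J, ε j * (k (c (j + 1)) t - k (c j) t)) f x =
      ∑ j ∈ range J, (ε j : ℂ) * (TT A (cx (k (c (j + 1)))) f x - TT A (cx (k (c j))) f x) := by
  simp only [TT, Ad, cx, ← sum_sub_distrib, mul_sum]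
  rw [sum_comm (s := range J)]
  refine sum_congr rfl fun θ _ => ?_
  rw [sum_comm (s := range J)]
  refine sum_congr rfl fun z _ => ?_
  push_cast
  rw [sum_mul, sum_mul]
  exact sum_congr rfl fun j _ => by ring

theorem band_signed {K : ℕ} {k : ℕ → ZMod M → ℝ} (hk : ∀ i, Band K (cx (k i))) (J : ℕ) (c : ℕ → ℕ)
    (ε : ℕ → ℝ) : Band K (cx fun t => ∑ j ∈ range J, ε j * (k (c (j + 1)) t - k (c j) t)) := by
  intro ξ hξ
  by_contra hn
  apply hξ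
  have z : ∀ i, ft (cx (k i)) ξ = 0 := fun i => by
    by_contra h0
    exact hn (hk i ξ h0)
  have e : (cx fun t => ∑ j ∈ range J, ε j * (k (c (j + 1)) t - k (c j) t)) =
      fun t => ∑ j ∈ range J, (ε j : ℂ) * (cx (k (c (j + 1))) t - cx (k (c j)) t) := by
    funext t
    simp only [cx]
    push_cast
    rfl
  rw [e, ft_sum]
  refine sum_eq_zero fun j _ => ?_
  rw [ft_mul, ft_sub, z, z, sub_zero, mul_zero]

section win

variable {M' Q : ℕ} [NeZero M'] [NeZero Q]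

omit [NeZero M] [NeZero M'] in
theorem up_inj (hM : M = M' * Q) (h0 : 0 < M') : Function.Injective (up M M' : ZMod Q → ZMod M) := by
  intro a b h
  have v : ∀ z : ZMod Q, (up M M' z).val = M' * z.val := fun z => by
    rw [up, ZMod.val_cast_of_lt]
    rw [hM]
    exact Nat.mul_lt_mul_of_pos_left (ZMod.val_lt z) h0
  have := congrArg ZMod.val h
  rw [v, v] at this
  exact ZMod.val_injective _ (Nat.eq_of_mul_eq_mul_left h0 this)

omit [NeZero M] [NeZero M'] [NeZero Q] in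
theorem mul_up (hM : M = M' * Q) (z : ZMod Q) : (Q : ZMod M) * up M M' z = 0 := by
  rw [up, ← Nat.cast_mul, ZMod.natCast_eq_zero_iff, hM]
  exact ⟨z.val, by ring⟩

omit [NeZero M'] in
theorem exists_up (hM : M = M' * Q) {θ : ZMod M} (h : (Q : ZMod M) * θ = 0) :
    ∃ z : ZMod Q, up M M' z = θ := by
  have hQ := NeZero.pos Q
  have a1 : M ∣ Q * θ.val := by
    rw [← ZMod.natCast_eq_zero_iff]
    push_cast
    rwa [ZMod.natCast_zmod_val]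
  have a2 : M' ∣ θ.val := by
    refine Nat.dvd_of_mul_dvd_mul_left hQ ?_
    rwa [mul_comm Q M', ← hM]
  obtain ⟨j, hj⟩ := a2
  have a3 : j < Q := by
    have := ZMod.val_lt θ
    rw [hj, hM] at this
    exact Nat.lt_of_mul_lt_mul_left this
  exact ⟨j, by rw [up, ZMod.val_cast_of_lt a3, ← hj, ZMod.natCast_zmod_val]⟩

omit [NeZero M'] in
theorem sum_up (hM : M = M' * Q) (y z : ZMod M) :
    ∑ u : ZMod Q, ch (up M M' u * (y - z)) = if y.val % Q = z.val % Q then (Q : ℂ) else 0 := by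
  have e : ∀ u : ZMod Q, ch (up M M' u * (y - z)) = ch (((y.val : ZMod Q) - (z.val : ZMod Q)) * u) := by
    intro u
    rw [mul_sub, sub_mul, ch_sub, ch_sub, ← ch_up hM, ← ch_up hM, ZMod.natCast_zmod_val,
      ZMod.natCast_zmod_val, mul_comm y, mul_comm z]
  rw [sum_congr rfl fun u _ => e u, sum_ch]
  simp only [sub_eq_zero, ZMod.natCast_eq_natCast_iff']

theorem conv_mod {H K : ℕ} (hK : 1 ≤ K) (h4 : 4 * K * Q ≤ M)
    (per : ∀ θ ∈ Sg M H, (Q : ZMod M) * θ = 0) {κ : ZMod M → ℂ} (hκ : Band K κ) (f : ZMod M → ℂ)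
    {θ : ZMod M} (hθ : (Q : ZMod M) * θ = 0) :
    conv κ (fun z => ch (-(θ * z)) * TT (Sg M H) (cx (pl K)) f z) =
      fun x => if θ ∈ Sg M H then conv κ (fun z => ch (-(θ * z)) * f z) x else 0 := by
  have hQ := NeZero.pos Q
  have h4' : 4 * K ≤ M := (Nat.le_mul_of_pos_right _ hQ).trans h4
  refine ft_inj fun ξ => ?_
  have key : ft κ ξ ≠ 0 →
      ∑ θ' ∈ Sg M H, ft (cx (pl K)) (ξ + θ - θ') = if θ ∈ Sg M H then 1 else 0 := by
    intro h0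
    have b := hκ ξ h0
    have z : ∀ θ' ∈ Sg M H, θ' ≠ θ → ft (cx (pl K)) (ξ + θ - θ') = 0 := by
      intro θ' h1 h2
      by_contra h3
      have c1 := band_pl hK h4' _ h3
      have c2 := sep hQ (θ := θ - θ') (by rw [mul_sub, hθ, per θ' h1, sub_zero])
        (sub_ne_zero.2 h2.symm)
      have c3 := ab_sub_le (ξ + θ - θ') ξ
      rw [show ξ + θ - θ' - ξ = θ - θ' by ring] at c3
      have c4 : Q * ab (θ - θ') < Q * (4 * K) := Nat.mul_lt_mul_of_pos_left (by omega) hQ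
      nlinarith
    split_ifs with h1
    · rw [sum_eq_single_of_mem θ h1 z, add_sub_cancel_right, ft_pl hK h4' b.le]
    · exact sum_eq_zero fun θ' h2 => z θ' h2 fun h3 => h1 (h3 ▸ h2)
  rw [ft_conv, ft_mod', ft_TT]
  by_cases h1 : θ ∈ Sg M H
  · simp only [if_pos h1] at key ⊢
    rw [show (fun x => conv κ (fun z => ch (-(θ * z)) * f z) x) =
      conv κ (fun z => ch (-(θ * z)) * f z) from rfl, ft_conv, ft_mod']
    by_cases h0 : ft κ ξ = 0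
    · rw [h0, zero_mul, zero_mul]
    · rw [key h0, one_mul]
  · simp only [if_neg h1] at key ⊢
    by_cases h0 : ft κ ξ = 0
    · rw [h0]
      simp [ft]
    · rw [key h0]
      simp [ft]

theorem Ad_win (hM : M = Q * M') {H K : ℕ} (hK : 1 ≤ K) (h4 : 4 * K * Q ≤ M)
    (per : ∀ θ ∈ Sg M H, (Q : ZMod M) * θ = 0) {κ : ZMod M → ℂ} (hκ : Band K κ) (f : ZMod M → ℂ)
    (x y : ZMod M) (r : Fin Q) (hy : y.val % Q = r) :
    Ad (Sg M H) κ f x y = ∑ z : ZMod M', (Q : ℂ) * κ (x - (up M Q z + ((r : ℕ) : ZMod M))) *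
      TT (Sg M H) (cx (pl K)) f (up M Q z + ((r : ℕ) : ZMod M)) := by
  have hM' : M = M' * Q := hM.trans (mul_comm _ _)
  obtain ⟨e, e1, e2⟩ := exists_win hM
  set g := TT (Sg M H) (cx (pl K)) f with hg
  have s1 : Ad (Sg M H) κ f x y = Ad (univ.image (up M M' : ZMod Q → ZMod M)) κ g x y := by
    rw [Ad_eq, Ad_eq]
    have sub : Sg M H ⊆ univ.image (up M M' : ZMod Q → ZMod M) := fun θ h => by
      obtain ⟨z, hz⟩ := exists_up hM' (per θ h)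
      exact mem_image.2 ⟨z, mem_univ _, hz⟩
    rw [← sum_subset sub]
    · refine sum_congr rfl fun θ h => ?_
      rw [hg, conv_mod hK h4 per hκ f (per θ h)]
      simp only [if_pos h]
    · intro θ h1 h2
      obtain ⟨z, -, rfl⟩ := mem_image.1 h1
      rw [hg, conv_mod hK h4 per hκ f (mul_up hM' z)]
      simp only [if_neg h2, mul_zero]
  rw [s1, Ad, sum_image fun a _ b _ h => up_inj hM' (NeZero.pos M') h, sum_comm]
  have s2 : ∀ z : ZMod M, ∑ u : ZMod Q, κ (x - z) * ch (up M M' u * (y - z)) * g z =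
      if (r : ℕ) = z.val % Q then (Q : ℂ) * κ (x - z) * g z else 0 := by
    intro z
    rw [← sum_mul, ← mul_sum, sum_up hM', hy]
    split_ifs
    · ring
    · rw [mul_zero, zero_mul]
  rw [sum_congr rfl fun z _ => s2 z, ← e.sum_comp, Fintype.sum_prod_type]
  refine sum_congr rfl fun z _ => ?_
  rw [sum_eq_single_of_mem r (mem_univ _)]
  · rw [e2, if_pos rfl, e1]
  · intro r' _ h
    rw [e2, if_neg fun h' => h (Fin.ext h').symm]

end win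

section main

variable {c L i₀ i₁ h N₀ e : ℕ} {N K : ℕ → ℕ}

omit [NeZero M] in
theorem narrow (H : Par c M L i₀ i₁ h N₀ N) (he : 1 ≤ e) (hK : KF M i₀ i₁ h e N K) {R T : ℕ}
    (hc : 2 * R + 3 ≤ c) (hT : T ≤ 2 ^ h) : 4 * K i₀ * (2 * T) ^ R * N₀ ≤ M := by
  have a1 := hK.small H he H.mem₀ (k := 2 * R + 2) hc
  have hp := H.hpos
  have a2 : 2 * T ≤ 2 ^ (2 * h) := by
    calc 2 * T ≤ 2 ^ 1 * 2 ^ h := Nat.mul_le_mul_left _ hT
      _ = 2 ^ (1 + h) := (pow_add _ _ _).symm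
      _ ≤ _ := Nat.pow_le_pow_right two_pos (by omega)
  have a3 : 4 ≤ 2 ^ (2 * h) := by
    calc 4 = 2 ^ 2 := rfl
      _ ≤ _ := Nat.pow_le_pow_right two_pos (by omega)
  calc _ = K i₀ * (4 * (2 * T) ^ R * N₀) := by ring
    _ ≤ K i₀ * (2 ^ (2 * h) * (2 ^ (2 * h)) ^ R * N₀) := by gcongr
    _ = K i₀ * (2 ^ ((2 * R + 2) * h) * N₀) := by ring
    _ ≤ M := a1

theorem large {p CA : ℝ} (hp : 0 < p) (hC : 0 < CA)
    (hA : ∀ (M : ℕ) [NeZero M] (L γ i₀ i₁ τ : ℕ) (r : ℕ → ℝ) (k : ℕ → ZMod M → ℝ)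
      (f : ZMod M → ℂ), Ker L γ i₀ i₁ τ r k →
      ∃ w : ZMod M → ℝ, (∀ x, Wb (fun i => conv (cx (k i)) f x) (w x)) ∧
        lp p w ≤ CA * L * (γ + 1) ^ 2 * lp p f)
    {M' Q T cP : ℕ} [NeZero M'] (H : Par c M L i₀ i₁ h N₀ N) (hL : Large M M' Q h N₀) (he : 1 ≤ e)
    (hK : KF M i₀ i₁ h e N K) (h1 : cP + 4 ≤ c) (h2 : e + 4 ≤ c) {s : ℕ → ZMod M}
    (hs : ∀ i ∈ Ico i₀ i₁, ab (s i) ≤ 2 ^ cP * N i ^ e) (hT : T ≤ 2 ^ h) (f : ZMod M → ℂ)
    (ρ : Fin Q → ℕ) (hρ : ∀ r, ρ r < Q) :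
    ∃ w : ZMod M' × Fin Q → ℝ, (∀ (z : ZMod M' × Fin Q) (y : ZMod M), y.val % Q = z.2 →
        Wb (fun i => Ad (Sg M T) (fm i₀ i₁ K s i) f (up M Q z.1 + (ρ z.2 : ZMod M)) y) (w z)) ∧
      lp p w ≤ CA * L * (((h + cP + 3 : ℕ) : ℝ) + 1) ^ 2 *
        lp p (TT (Sg M T) (cx (pl (K i₀))) f) := by
  have hM := hL.eq
  have hQ : 0 < Q := by
    have := NeZero.pos M
    rw [hM] at this
    exact Nat.pos_of_mul_pos_right this |> fun h => h
  have : NeZero Q := ⟨hQ.ne'⟩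
  have hQN : Q ≤ N₀ := Nat.le_of_dvd H.N₀_pos hL.dvd
  have h4 : 4 * K i₀ * Q ≤ M := by
    have := narrow H he hK (R := 0) (by omega) hT
    rw [pow_zero, mul_one] at this
    exact (Nat.mul_le_mul_left _ hQN).trans this
  set g := TT (Sg M T) (cx (pl (K i₀))) f with hg
  have ker : ∀ r : Fin Q, ∃ τ, Ker L (h + cP + 3) i₀ i₁ τ (fun i => (M' : ℝ) / K i)
      (fun i t => if i ∈ Ico i₀ i₁ then
        kf M' Q (K i) (s i + ((ρ r : ZMod M) - ((r : ℕ) : ZMod M))) t else 0) := by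
    intro r
    refine ker_par H he hK hM hQN h1 h2
      (s := fun i => s i + ((ρ r : ZMod M) - ((r : ℕ) : ZMod M))) fun i hi => ?_
    have a1 := ab_add_le (s i) ((ρ r : ZMod M) - ((r : ℕ) : ZMod M))
    have a2 := ab_intCast_le (M := M) ((ρ r : ℤ) - ((r : ℕ) : ℤ))
    push_cast at a2
    have a3 := hρ r
    have a4 := r.2
    have a5 := hs i hi
    have a6 := H.N₀_le hi
    have a7 : N i ≤ N i ^ e := Nat.le_self_pow (by omega) _
    have a8 : N i ^ e ≤ 2 ^ cP * N i ^ e := Nat.le_mul_of_pos_left _ (by positivity)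
    have a9 : 2 ^ (cP + 1) * N i ^ e = 2 * (2 ^ cP * N i ^ e) := by ring
    omega
  choose τ hτ using ker
  choose w w1 w2 using fun r : Fin Q =>
    hA M' L _ i₀ i₁ _ _ _ (fun z => g (up M Q z + ((r : ℕ) : ZMod M))) (hτ r)
  refine ⟨fun z => w z.2 z.1, fun z y hy => ?_, ?_⟩
  · have e1 : (fun i => Ad (Sg M T) (fm i₀ i₁ K s i) f (up M Q z.1 + (ρ z.2 : ZMod M)) y) =
        fun i => conv (cx fun t => if i ∈ Ico i₀ i₁ then
          kf M' Q (K i) (s i + ((ρ z.2 : ZMod M) - ((z.2 : ℕ) : ZMod M))) t else 0)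
          (fun u => g (up M Q u + ((z.2 : ℕ) : ZMod M))) z.1 := by
      funext i
      rw [Ad_win hM (hK.pos H.mem₀) h4 (fun θ hθ => hL.per θ (Sg_mono hT hθ))
        (band_fm H (by omega) he hK s i) f _ y z.2 hy, conv]
      refine sum_congr rfl fun u _ => ?_
      rw [smul_eq_mul, ← hg]
      refine congrArg (· * _) ?_
      simp only [fm, cx, kf, up_sub hM]
      split_ifs
      · push_cast
        refine congrArg (fun t => (Q : ℂ) * ((fej (K i) t : ℝ) : ℂ)) ?_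
        ring
      · simp
    rw [e1]
    exact w1 z.2 z.1
  · obtain ⟨E, E1, -⟩ := exists_win hM
    rw [← lp_equiv E g]
    refine lp_prod_le hp (by positivity) fun r => ?_
    simp only [E1]
    exact w2 r

theorem smooth {p ε a CI : ℝ} {R : ℕ} (ha : 1 < a)
    (hI : ∀ (M : ℕ) [NeZero M] (H K : ℕ) (κ : ZMod M → ℝ) (A : ℝ), 1 ≤ H → 1 ≤ K →
      K * (2 * H) ^ R ≤ M → Band K (cx κ) →
      (∀ f : ZMod M → ℂ, lp a (conv (cx κ) f) ≤ A * lp a f) →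
      ∀ f, lp p (TT (Sg M H) (cx κ) f) ≤ CI * (H : ℝ) ^ ε * A * lp p f)
    {T : ℕ} (H : Par c M L i₀ i₁ h N₀ N) (he : 1 ≤ e) (hK : KF M i₀ i₁ h e N K)
    (hc : 2 * R + 3 ≤ c) (hT1 : 1 ≤ T) (hT : T ≤ 2 ^ h) (f : ZMod M → ℂ) :
    lp p (TT (Sg M T) (cx (pl (K i₀))) f) ≤ CI * (T : ℝ) ^ ε * 3 * lp p f := by
  have a1 := narrow H he hK hc hT
  have a2 := hK.pos H.mem₀
  have a3 := H.N₀_pos
  have a4 : 1 ≤ (2 * T) ^ R := Nat.one_le_pow _ _ (by omega)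
  have a5 : 4 * K i₀ * (2 * T) ^ R ≤ M := (Nat.le_mul_of_pos_right _ a3).trans a1
  have a6 : 4 * K i₀ ≤ M := (Nat.le_mul_of_pos_right _ a4).trans a5
  refine hI M T (2 * K i₀) _ 3 hT1 (by omega)
    ((Nat.mul_le_mul_right _ (by omega)).trans a5) (band_pl a2 a6) (fun F => ?_) f
  exact (lp_conv_le ha.le _ _).trans
    (mul_le_mul_of_nonneg_right (sum_norm_pl a2 a6) (lp_nonneg _ _))

theorem small {p ε a CI CC C3 : ℝ} {R : ℕ} (hp : 1 ≤ p)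
    (hI : ∀ (M : ℕ) [NeZero M] (H K : ℕ) (κ : ZMod M → ℝ) (A : ℝ), 1 ≤ H → 1 ≤ K →
      K * (2 * H) ^ R ≤ M → Band K (cx κ) →
      (∀ f : ZMod M → ℂ, lp a (conv (cx κ) f) ≤ A * lp a f) →
      ∀ f, lp p (TT (Sg M H) (cx κ) f) ≤ CI * (H : ℝ) ^ ε * A * lp p f)
    (hC : ∀ (M : ℕ) [NeZero M] (L γ i₀ i₁ τ : ℕ) (r : ℕ → ℝ) (k : ℕ → ZMod M → ℝ) (J : ℕ)
      (c : ℕ → ℕ) (ε : ℕ → ℝ) (f : ZMod M → ℂ), Ker L γ i₀ i₁ τ r k → Monotone c →
      (∀ j, |ε j| ≤ 1) →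
      lp a (conv (cx fun t => ∑ j ∈ range J, ε j * (k (c (j + 1)) t - k (c j) t)) f) ≤
        CC * L * (γ + 1) ^ 2 * lp a f)
    (h3 : ∀ (X : Type) [Fintype X] (p : ℝ) (a : ℕ → ℕ → X → ℂ) (ℓ i₀ : ℕ) (V : ℝ),
      1 ≤ p → (∀ i j, i ∉ Ico i₀ (i₀ + 2 ^ ℓ) → a i j = 0 ∧ a j i = 0) →
      (∀ (J J' : ℕ) (c c' : ℕ → ℕ) (ε ε' : ℕ → ℝ), Monotone c → Monotone c' → (∀ j, |ε j| ≤ 1) →
        (∀ j, |ε' j| ≤ 1) →
        lp p (fun x => ∑ j ∈ range J, ∑ k ∈ range J', (ε j * ε' k) •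
          (a (c (j + 1)) (c' (k + 1)) x - a (c (j + 1)) (c' k) x - a (c j) (c' (k + 1)) x +
            a (c j) (c' k) x)) ≤ V) →
      ∃ w : X → ℝ, (∀ x, Wb (fun i => a i i x) (w x)) ∧ lp p w ≤ C3 * (ℓ + 1) ^ 2 * V)
    {T cP ℓ : ℕ} (H : Par c M L i₀ i₁ h N₀ N) (hℓ : i₁ ≤ i₀ + 2 ^ ℓ) (he : 1 ≤ e)
    (hK : KF M i₀ i₁ h e N K) (h1 : cP + 4 ≤ c) (h2 : e + 4 ≤ c) (hc : 2 * R + 3 ≤ c)
    {s : ℕ → ZMod M} (hs : ∀ i ∈ Ico i₀ i₁, ab (s i) ≤ 2 ^ cP * N i ^ e) (hT1 : 1 ≤ T)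
    (hT : T ≤ 2 ^ h) (f : ZMod M → ℂ) :
    ∃ w : ZMod M → ℝ, (∀ x, Wb (fun i => TT (Sg M T) (fm i₀ i₁ K s i) f x) (w x)) ∧
      lp p w ≤ C3 * (ℓ + 1) ^ 2 *
        (2 * (CI * (T : ℝ) ^ ε * (CC * L * (((h + cP + 3 : ℕ) : ℝ) + 1) ^ 2) * lp p f)) := by
  obtain ⟨τ, r, k, hk, ek⟩ := ker_fm H he hK h1 h2 (s := s) fun i hi =>
    (hs i hi).trans (Nat.mul_le_mul_right _ (Nat.pow_le_pow_right two_pos (Nat.le_succ _)))
  have z : ∀ i, i ∉ Ico i₀ i₁ → ∀ x, TT (Sg M T) (fm i₀ i₁ K s i) f x = 0 := by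
    intro i hi x
    simp only [TT, Ad, fm, cx, if_neg hi]
    simp
  obtain ⟨w, w1, w2⟩ := h3 (ZMod M) p (fun i j x => TT (Sg M T) (fm i₀ i₁ K s i) f x *
    ((if j ∈ Ico i₀ i₁ then (1 : ℝ) else 0 : ℝ) : ℂ)) ℓ i₀
    (2 * (CI * (T : ℝ) ^ ε * (CC * L * (((h + cP + 3 : ℕ) : ℝ) + 1) ^ 2) * lp p f)) hp
    (fun i j hi => by
      have hi' : i ∉ Ico i₀ i₁ := fun h0 => hi (Ico_subset_Ico_right hℓ h0)
      refine ⟨funext fun x => ?_, funext fun x => ?_⟩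
      · rw [z i hi', zero_mul, Pi.zero_apply]
      · rw [if_neg hi', Complex.ofReal_zero, mul_zero, Pi.zero_apply])
    (fun J J' u u' η η' hu hu' hη hη' => by
      have a1 := narrow H he hK hc hT
      have a2 := hK.pos H.mem₀
      have a5 : 4 * K i₀ * (2 * T) ^ R ≤ M := (Nat.le_mul_of_pos_right _ H.N₀_pos).trans a1
      have b := hI M T (K i₀) _ _ hT1 a2 ((Nat.mul_le_mul_right _ (by omega)).trans a5)
        (band_signed (fun i => ek i ▸ band_fm H (by omega) he hK s i) J u η)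
        (fun F => hC M L _ i₀ i₁ τ r k J u η F hk hu hη) f
      refine le_trans (lp_le_mul (by linarith) zero_le_two fun x => ?_)
        (mul_le_mul_of_nonneg_left b zero_le_two)
      have t := ico_tv H.ne.le J' hu' hη'
      rw [← Real.norm_eq_abs, ← Complex.norm_real] at t
      refine le_trans (le_of_eq ?_) (mul_le_mul_of_nonneg_right t (norm_nonneg _))
      rw [← norm_mul, TT_signed, mul_comm, sum_mul]
      refine congrArg _ (sum_congr rfl fun j _ => ?_)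
      rw [Complex.ofReal_sum, mul_sum]
      refine sum_congr rfl fun m _ => ?_
      simp only [ek, Complex.real_smul, Complex.ofReal_mul, Complex.ofReal_sub]
      ring)
  refine ⟨w, fun x => ?_, w2⟩
  have e1 : (fun i => TT (Sg M T) (fm i₀ i₁ K s i) f x) = fun i =>
      TT (Sg M T) (fm i₀ i₁ K s i) f x * ((if i ∈ Ico i₀ i₁ then (1 : ℝ) else 0 : ℝ) : ℂ) := by
    funext i
    by_cases hi : i ∈ Ico i₀ i₁
    · rw [if_pos hi, Complex.ofReal_one, mul_one]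
    · rw [z i hi, zero_mul]
  rw [e1]
  exact w1 x

end main

theorem lin_le (a b h : ℕ) : ((a + b * h : ℕ) : ℝ) + 1 ≤ ((a + b : ℕ) + 1) * ((h : ℝ) + 1) := by
  push_cast
  have : (0 : ℝ) ≤ a * h := by positivity
  have : (0 : ℝ) ≤ h := by positivity
  have : (0 : ℝ) ≤ b := by positivity
  nlinarith

theorem half {T h : ℕ} (hT : T ≤ 2 ^ h) {ε : ℝ} (hε : 0 < ε) :
    (T : ℝ) ^ (ε / 2) * ((2 : ℝ) ^ h) ^ (ε / 2) ≤ ((2 : ℝ) ^ h) ^ ε := by
  have : (T : ℝ) ≤ 2 ^ h := by exact_mod_cast hT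
  calc _ ≤ ((2 : ℝ) ^ h) ^ (ε / 2) * ((2 : ℝ) ^ h) ^ (ε / 2) := by gcongr
    _ = _ := by rw [← Real.rpow_add (by positivity), add_halves]

/-- the large scale bound with a base point depending on the residue -/
theorem win (hA : StLinA) (hI : StIW) (P : ℤ[X]) (p ε : ℝ) (hP : 1 ≤ P.natDegree) (hp : 1 < p)
    (hε : 0 < ε) : ∃ c : ℕ, ∀ L : ℕ, ∃ C : ℝ, 0 < C ∧
    ∀ (M : ℕ) [NeZero M] (M' : ℕ) [NeZero M'] (Q i₀ i₁ h N₀ H : ℕ) (ρ : Fin Q → ℕ) (N K : ℕ → ℕ)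
      (s : ℕ → ZMod M) (f : ZMod M → ℂ),
      Par c M L i₀ i₁ h N₀ N → Large M M' Q h N₀ → KF M i₀ i₁ h P.natDegree N K →
      Shf P i₀ i₁ N s → 1 ≤ H → H ≤ 2 ^ h → (∀ r, ρ r < Q) →
      ∃ w : ZMod M' × Fin Q → ℝ, (∀ (z : ZMod M' × Fin Q) (y : ZMod M), y.val % Q = z.2 →
          Wb (fun i => Ad (Sg M H) (fm i₀ i₁ K s i) f (up M Q z.1 + (ρ z.2 : ZMod M)) y) (w z)) ∧
        lp p w ≤ C * ((2 : ℝ) ^ h) ^ ε * lp p f := by
  obtain ⟨cP, hcP, -⟩ := slot P hP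
  obtain ⟨CA, hCA, hA⟩ := hA p hp
  obtain ⟨a, R, CI, ha, hCI, hI⟩ := hI p (ε / 2) hp (half_pos hε)
  obtain ⟨Cb, hCb, hb⟩ := absorb 2 (half_pos hε)
  refine ⟨cP + P.natDegree + 2 * R + 4, fun L =>
    ⟨CA * (L + 1) * (((cP + 3 + 1 : ℕ) : ℝ) + 1) ^ 2 * Cb * CI * 3, by positivity, ?_⟩⟩
  intro M _ M' _ Q i₀ i₁ h N₀ T ρ N K s f H hL hK hs hT1 hT hρ
  obtain ⟨w, w1, w2⟩ := large (by linarith) hCA hA H hL hP hK (cP := cP) (by omega) (by omega)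
    (fun i hi => hs.ab_le hcP hi) hT f ρ hρ
  refine ⟨w, w1, w2.trans ?_⟩
  have b1 := smooth ha hI H hP hK (by omega) hT1 hT f
  have b2 := lin_le (cP + 3) 1 h
  rw [show cP + 3 + 1 * h = h + cP + 3 by ring] at b2
  have b3 := hb h
  have b4 := half hT hε
  have b5 := lp_nonneg p f
  have b6 := lp_nonneg p (TT (Sg M T) (cx (pl (K i₀))) f)
  calc _ ≤ CA * (L + 1) * ((((cP + 3 + 1 : ℕ) : ℝ) + 1) * ((h : ℝ) + 1)) ^ 2 *
        (CI * (T : ℝ) ^ (ε / 2) * 3 * lp p f) := by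
        gcongr
        linarith
    _ = CA * (L + 1) * (((cP + 3 + 1 : ℕ) : ℝ) + 1) ^ 2 * CI * 3 * lp p f *
        ((T : ℝ) ^ (ε / 2) * ((h : ℝ) + 1) ^ 2) := by ring
    _ ≤ CA * (L + 1) * (((cP + 3 + 1 : ℕ) : ℝ) + 1) ^ 2 * CI * 3 * lp p f *
        ((T : ℝ) ^ (ε / 2) * (Cb * ((2 : ℝ) ^ h) ^ (ε / 2))) := by gcongr
    _ = CA * (L + 1) * (((cP + 3 + 1 : ℕ) : ℝ) + 1) ^ 2 * CI * 3 * lp p f * Cb *
        ((T : ℝ) ^ (ε / 2) * ((2 : ℝ) ^ h) ^ (ε / 2)) := by ring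
    _ ≤ CA * (L + 1) * (((cP + 3 + 1 : ℕ) : ℝ) + 1) ^ 2 * CI * 3 * lp p f * Cb *
        ((2 : ℝ) ^ h) ^ ε := by gcongr
    _ = _ := by ring

end LinM

open LinM in
theorem stLinL (hA : StLinA) (hI : StIW) : StLinL := by
  intro P p ε hP hp hε
  obtain ⟨c, hc⟩ := win hA hI P p ε hP hp hε
  refine ⟨c, fun L => ?_⟩
  obtain ⟨C, hC, H⟩ := hc L
  exact ⟨C, hC, fun M _ M' _ Q i₀ i₁ h N₀ T ρ N K s f a1 a2 a3 a4 a5 a6 a7 =>
    H M M' Q i₀ i₁ h N₀ T (fun _ => ρ) N K s f a1 a2 a3 a4 a5 a6 fun _ => a7⟩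

open LinM in
theorem stLinD (hA : StLinA) (hC : StLinC) (hI : StIW) (h3 : StR3) : StLinD := by
  intro P p ε hP hp hε
  obtain ⟨c₁, hc₁⟩ := win hA hI P p ε hP hp hε
  obtain ⟨cP, hcP, -⟩ := slot P hP
  obtain ⟨a, R, CI, ha, hCI, hI⟩ := hI p (ε / 2) hp (half_pos hε)
  obtain ⟨CC, hCC, hC⟩ := hC a ha
  obtain ⟨C3, hC3, h3⟩ := h3
  obtain ⟨Cb, hCb, hb⟩ := absorb 4 (half_pos hε)
  refine ⟨c₁ + cP + P.natDegree + 2 * R + 4, fun L L' => ?_⟩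
  obtain ⟨C₁, hC₁, H₁⟩ := hc₁ L
  set D : ℝ := C3 * (((L' + 2 : ℕ) : ℝ) + 1) ^ 2 * 2 * CI * CC * (L + 1) *
    (((cP + 3 + 1 : ℕ) : ℝ) + 1) ^ 2 with hD
  have D0 : 0 < D := by positivity
  refine ⟨C₁ + D * Cb, by positivity, ?_⟩
  intro M _ i₀ i₁ h N₀ T N K s f H hR hK hs hT1 hT
  have b5 := lp_nonneg p f
  rcases hR with hR | ⟨M', Q, hL⟩
  · have hℓ : i₁ ≤ i₀ + 2 ^ (L' + 2 * h) := by
      refine hR.trans (Nat.add_le_add_left ?_ _)
      rw [pow_add, pow_mul]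
      exact Nat.mul_le_mul_right _ Nat.lt_two_pow_self.le
    obtain ⟨w, w1, w2⟩ := small hp.le hI hC h3 H hℓ hP hK (cP := cP) (by omega) (by omega)
      (by omega) (fun i hi => hs.ab_le hcP hi) hT1 hT f
    refine ⟨w, w1, w2.trans ?_⟩
    have b1 := lin_le L' 2 h
    have b2 := lin_le (cP + 3) 1 h
    rw [show cP + 3 + 1 * h = h + cP + 3 by ring] at b2
    have b3 := hb h
    have b4 := half hT hε
    calc _ ≤ C3 * ((((L' + 2 : ℕ) : ℝ) + 1) * ((h : ℝ) + 1)) ^ 2 * (2 * (CI * (T : ℝ) ^ (ε / 2) *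
          (CC * (L + 1) * ((((cP + 3 + 1 : ℕ) : ℝ) + 1) * ((h : ℝ) + 1)) ^ 2) * lp p f)) := by
          gcongr
          linarith
      _ = D * lp p f * ((T : ℝ) ^ (ε / 2) * ((h : ℝ) + 1) ^ 4) := by rw [hD]; ring
      _ ≤ D * lp p f * ((T : ℝ) ^ (ε / 2) * (Cb * ((2 : ℝ) ^ h) ^ (ε / 2))) := by gcongr
      _ = D * lp p f * Cb * ((T : ℝ) ^ (ε / 2) * ((2 : ℝ) ^ h) ^ (ε / 2)) := by ring
      _ ≤ D * lp p f * Cb * ((2 : ℝ) ^ h) ^ ε := by gcongr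
      _ = D * Cb * ((2 : ℝ) ^ h) ^ ε * lp p f := by ring
      _ ≤ _ := by
          gcongr
          linarith
  · have : NeZero M' := ⟨fun h0 => NeZero.ne M (by rw [hL.eq, h0, mul_zero])⟩
    obtain ⟨w, w1, w2⟩ := H₁ M M' Q i₀ i₁ h N₀ T (fun r => r) N K s f (H.anti (by omega)) hL hK hs
      hT1 hT fun r => r.2
    obtain ⟨E, E1, E2⟩ := exists_win hL.eq
    refine ⟨fun x => w (E.symm x), fun x => ?_, ?_⟩
    · obtain ⟨z, rfl⟩ := E.surjective x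
      have := w1 z (E z) (E2 z)
      rw [← E1] at this
      simp only [E.symm_apply_apply]
      exact this
    · rw [lp_equiv E.symm w]
      refine w2.trans ?_
      have : 0 < D * Cb := by positivity
      gcongr
      linarith

end

end Pool.Agent.Lib.MP_10e396_an
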