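import Pool.Agent.Lib.MP_10e396_an.Spec

/-! Basic facts on finite `lp` norms and averages. -/

set_option autoImplicit false

namespace Pool.Agent.Lib.MP_10e396_an

open Finset

noncomputable section

section lp

variable {X : Type} [Fintype X] {E E' : Type} [SeminormedAddCommGroup E] [SeminormedAddCommGroup E']
  {p q : ℝ}

theorem sum_rpow_nonneg (p : ℝ) (f : X → E) : 0 ≤ ∑ x, ‖f x‖ ^ p :=
  sum_nonneg fun _ _ => Real.rpow_nonneg (norm_nonneg _) _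

theorem lp_nonneg (p : ℝ) (f : X → E) : 0 ≤ lp p f :=
  Real.rpow_nonneg (sum_rpow_nonneg p f) _

theorem lp_rpow (hp : 0 < p) (f : X → E) : lp p f ^ p = ∑ x, ‖f x‖ ^ p :=
  Real.rpow_inv_rpow (sum_rpow_nonneg p f) hp.ne'

theorem lp_le_iff (hp : 0 < p) (f : X → E) {B : ℝ} (hB : 0 ≤ B) :
    lp p f ≤ B ↔ ∑ x, ‖f x‖ ^ p ≤ B ^ p := by
  rw [← lp_rpow hp, Real.rpow_le_rpow_iff (lp_nonneg p f) hB hp]

theorem lp_mono (hp : 0 < p) {f : X → E} {g : X → E'} (h : ∀ x, ‖f x‖ ≤ ‖g x‖) :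
    lp p f ≤ lp p g :=
  Real.rpow_le_rpow (sum_rpow_nonneg p f)
    (sum_le_sum fun x _ => Real.rpow_le_rpow (norm_nonneg _) (h x) hp.le) (inv_nonneg.2 hp.le)

theorem lp_mono' (hp : 0 < p) {f : X → E} {w : X → ℝ} (h : ∀ x, ‖f x‖ ≤ w x) :
    lp p f ≤ lp p w :=
  lp_mono hp fun x => (h x).trans (le_abs_self _)

theorem lp_norm (p : ℝ) (f : X → E) : lp p (fun x => ‖f x‖) = lp p f := by
  simp [lp]

theorem lp_congr {f : X → E} {g : X → E'} (h : ∀ x, ‖f x‖ = ‖g x‖) : lp p f = lp p g := by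
  simp [lp, h]

theorem lp_zero (hp : 0 < p) : lp p (fun _ : X => (0 : E)) = 0 := by
  simp [lp, Real.zero_rpow hp.ne', Real.zero_rpow (inv_ne_zero hp.ne')]

theorem lp_one (f : X → E) : lp 1 f = ∑ x, ‖f x‖ := by simp [lp]

theorem lp_two_sq (f : X → E) : lp 2 f ^ 2 = ∑ x, ‖f x‖ ^ 2 := by
  have := lp_rpow (p := 2) two_pos f
  simpa using this

theorem lp_two (f : X → E) : lp 2 f = √(∑ x, ‖f x‖ ^ 2) := by
  rw [← lp_two_sq, Real.sqrt_sq (lp_nonneg 2 f)]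

theorem lp_two_le {f : X → E} {B : ℝ} (hB : 0 ≤ B) (h : ∑ x, ‖f x‖ ^ 2 ≤ B ^ 2) : lp 2 f ≤ B := by
  rw [← lp_two_sq] at h
  exact (pow_le_pow_iff_left₀ (lp_nonneg 2 f) hB two_ne_zero).1 h

theorem lp_add_le (hp : 1 ≤ p) (f g : X → E) : lp p (fun x => f x + g x) ≤ lp p f + lp p g := by
  have h := Real.Lp_add_le_of_nonneg (s := univ) (f := fun x => ‖f x‖) (g := fun x => ‖g x‖) hp
    (fun _ _ => norm_nonneg _) (fun _ _ => norm_nonneg _)
  simp only [one_div] at h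
  refine le_trans ?_ h
  exact Real.rpow_le_rpow (sum_rpow_nonneg p _) (sum_le_sum fun x _ =>
    Real.rpow_le_rpow (norm_nonneg _) (norm_add_le _ _) (by linarith)) (by positivity)

theorem lp_neg (f : X → E) : lp p (fun x => -f x) = lp p f := lp_congr fun _ => norm_neg _

theorem lp_sub_le (hp : 1 ≤ p) (f g : X → E) : lp p (fun x => f x - g x) ≤ lp p f + lp p g := by
  simpa [sub_eq_add_neg, lp_neg] using lp_add_le hp f fun x => -g x

theorem lp_sum_le {ι : Type} (hp : 1 ≤ p) (s : Finset ι) (f : ι → X → E) :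
    lp p (fun x => ∑ i ∈ s, f i x) ≤ ∑ i ∈ s, lp p (f i) := by
  classical
  induction s using Finset.induction_on with
  | empty => simp [lp_zero (by linarith : 0 < p)]
  | insert a s ha ih =>
    simp only [sum_insert ha]
    exact (lp_add_le hp _ _).trans (by linarith)

theorem lp_const_mul (hp : 0 < p) {c : ℝ} (hc : 0 ≤ c) {f : X → E} {g : X → E'}
    (h : ∀ x, ‖g x‖ = c * ‖f x‖) : lp p g = c * lp p f := by
  unfold lp
  simp only [h, Real.mul_rpow hc (norm_nonneg _), ← mul_sum]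
  rw [Real.mul_rpow (Real.rpow_nonneg hc _) (sum_rpow_nonneg p f),
    Real.rpow_rpow_inv hc hp.ne']

theorem lp_le_mul (hp : 0 < p) {c : ℝ} (hc : 0 ≤ c) {f : X → E} {g : X → E'}
    (h : ∀ x, ‖g x‖ ≤ c * ‖f x‖) : lp p g ≤ c * lp p f := by
  rw [← lp_const_mul hp hc (f := f) (g := fun x => c * ‖f x‖)
    (fun x => by simp [abs_of_nonneg hc])]
  exact lp_mono' hp h

theorem lp_smul {𝕜 : Type} [NormedField 𝕜] [NormedSpace 𝕜 E] (hp : 0 < p) (c : 𝕜) (f : X → E) :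
    lp p (fun x => c • f x) = ‖c‖ * lp p f :=
  lp_const_mul hp (norm_nonneg c) fun _ => norm_smul _ _

theorem lp_equiv {Y : Type} [Fintype Y] (e : Y ≃ X) (f : X → E) :
    lp p (fun y => f (e y)) = lp p f := by
  unfold lp
  rw [Equiv.sum_comp e fun x => ‖f x‖ ^ p]

theorem lp_shift {G : Type} [Fintype G] [AddCommGroup G] (f : G → E) (a : G) :
    lp p (fun x => f (x + a)) = lp p f := lp_equiv (Equiv.addRight a) f

theorem norm_le_lp (hp : 0 < p) (f : X → E) (x : X) : ‖f x‖ ≤ lp p f := by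
  rw [← Real.rpow_le_rpow_iff (norm_nonneg _) (lp_nonneg p f) hp, lp_rpow hp]
  exact single_le_sum (f := fun x => ‖f x‖ ^ p) (fun _ _ => by positivity) (mem_univ x)

theorem lp_mul_le {a b : ℝ} (ha : 0 < a) (hb : 0 < b) (h : a⁻¹ + b⁻¹ = p⁻¹) {E'' : Type}
    [SeminormedAddCommGroup E''] {f : X → E} {g : X → E'} {w : X → E''}
    (hw : ∀ x, ‖w x‖ ≤ ‖f x‖ * ‖g x‖) : lp p w ≤ lp a f * lp b g := by
  have hp : 0 < p := by
    have : 0 < p⁻¹ := by rw [← h]; positivity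
    exact inv_pos.1 this
  have ht : a.HolderTriple b p := ⟨h, ha, hb⟩
  have h1 := Real.Lr_rpow_le_Lp_mul_Lq_of_nonneg univ (f := fun x => ‖f x‖) (g := fun x => ‖g x‖) ht
    (fun _ _ => norm_nonneg _) (fun _ _ => norm_nonneg _)
  rw [lp_le_iff hp _ (mul_nonneg (lp_nonneg _ _) (lp_nonneg _ _)),
    Real.mul_rpow (lp_nonneg _ _) (lp_nonneg _ _)]
  unfold lp
  rw [← Real.rpow_mul (sum_rpow_nonneg _ _), ← Real.rpow_mul (sum_rpow_nonneg _ _),
    inv_mul_eq_div, inv_mul_eq_div]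
  exact le_trans (sum_le_sum fun x _ => Real.rpow_le_rpow (norm_nonneg _) (hw x) hp.le) h1

theorem sum_mul_le_lp {a b : ℝ} (ha : 0 < a) (hb : 0 < b) (h : a⁻¹ + b⁻¹ = 1) (f : X → E)
    (g : X → E') : ∑ x, ‖f x‖ * ‖g x‖ ≤ lp a f * lp b g := by
  have := lp_mul_le (p := 1) ha hb (by simpa using h) (f := f) (g := g)
    (w := fun x => ‖f x‖ * ‖g x‖) (fun x => by simp)
  rw [lp_one] at this
  simpa using this

theorem sum_mul_le_two (f : X → E) (g : X → E') : ∑ x, ‖f x‖ * ‖g x‖ ≤ lp 2 f * lp 2 g :=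
  sum_mul_le_lp two_pos two_pos (by norm_num) f g

/-- weights against a function -/
theorem sum_weight_le (hp : 1 ≤ p) {u : X → ℝ} (hu : ∀ x, 0 ≤ u x) (h1 : ∑ x, u x ≤ 1) (f : X → E) :
    ∑ x, u x ^ (1 - p⁻¹) * ‖f x‖ ≤ lp p f := by
  rcases eq_or_lt_of_le hp with rfl | hp'
  · simp [lp_one]
  have hq : 0 < 1 - p⁻¹ := by
    have := inv_lt_one_of_one_lt₀ hp'
    linarith
  have h := sum_mul_le_lp (a := (1 - p⁻¹)⁻¹) (b := p) (by positivity) (by linarith) (by simp)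
    (fun x => u x ^ (1 - p⁻¹)) f
  have h2 : lp (1 - p⁻¹)⁻¹ (fun x => u x ^ (1 - p⁻¹)) ≤ 1 := by
    rw [lp_le_iff (by positivity) _ zero_le_one, Real.one_rpow]
    refine le_trans (le_of_eq (sum_congr rfl fun x _ => ?_)) h1
    rw [Real.norm_of_nonneg (Real.rpow_nonneg (hu x) _), Real.rpow_rpow_inv (hu x) hq.ne']
  calc ∑ x, u x ^ (1 - p⁻¹) * ‖f x‖ = ∑ x, ‖u x ^ (1 - p⁻¹)‖ * ‖f x‖ :=
        sum_congr rfl fun x _ => by rw [Real.norm_of_nonneg (Real.rpow_nonneg (hu x) _)]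
    _ ≤ _ := h
    _ ≤ 1 * lp p f := mul_le_mul_of_nonneg_right h2 (lp_nonneg _ _)
    _ = _ := one_mul _

/-- duality with positive weights, up to a factor two -/
theorem lp_le_of_weight (hp : 1 ≤ p) (f : X → E) {B : ℝ} (hB : 0 ≤ B)
    (h : ∀ u : X → ℝ, (∀ x, 0 < u x) → ∑ x, u x ≤ 1 → ∑ x, u x ^ (1 - p⁻¹) * ‖f x‖ ≤ B) :
    lp p f ≤ 2 * B := by
  have hp0 : 0 < p := by linarith
  rcases (lp_nonneg p f).eq_or_lt with h0 | h0
  · rw [← h0]; positivity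
  have hne : Nonempty X := by
    by_contra hc
    rw [not_nonempty_iff] at hc
    simp [lp, Real.zero_rpow (inv_ne_zero hp0.ne')] at h0
  set S := lp p f with hS
  have hc : (0 : ℝ) < Fintype.card X := by exact_mod_cast Fintype.card_pos
  have hSp : S ^ p = ∑ x, ‖f x‖ ^ p := lp_rpow hp0 f
  have hSp0 : 0 < S ^ p := Real.rpow_pos_of_pos h0 _
  have hγ : 0 ≤ 1 - p⁻¹ := by
    have := inv_le_one_of_one_le₀ hp
    linarith
  have h1 := h (fun x => ‖f x‖ ^ p / (2 * S ^ p) + 1 / (2 * Fintype.card X))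
    (fun x => by positivity) (by
      rw [sum_add_distrib, ← sum_div, ← hSp, sum_const, card_univ, nsmul_eq_mul]
      field_simp
      norm_num)
  have h2 : ∀ x, ‖f x‖ ^ p / (2 * S ^ (p - 1)) ≤
      (‖f x‖ ^ p / (2 * S ^ p) + 1 / (2 * Fintype.card X)) ^ (1 - p⁻¹) * ‖f x‖ := by
    intro x
    have e1 : (‖f x‖ ^ p / (2 * S ^ p)) ^ (1 - p⁻¹) ≤
        (‖f x‖ ^ p / (2 * S ^ p) + 1 / (2 * Fintype.card X)) ^ (1 - p⁻¹) :=
      Real.rpow_le_rpow (by positivity) (le_add_of_nonneg_right (by positivity)) hγ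
    have e2 : p * (1 - p⁻¹) = p - 1 := by field_simp
    have e3 : (‖f x‖ ^ p / (2 * S ^ p)) ^ (1 - p⁻¹) =
        ‖f x‖ ^ (p - 1) / (2 ^ (1 - p⁻¹) * S ^ (p - 1)) := by
      rw [Real.div_rpow (by positivity) (by positivity), Real.mul_rpow (by positivity) (by positivity),
        ← Real.rpow_mul (norm_nonneg _), ← Real.rpow_mul h0.le, e2]
    have e4 : (2 : ℝ) ^ (1 - p⁻¹) ≤ 2 := by
      calc (2 : ℝ) ^ (1 - p⁻¹) ≤ 2 ^ (1 : ℝ) :=
            Real.rpow_le_rpow_of_exponent_le one_le_two (by have : 0 ≤ p⁻¹ := by positivity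
                                                            linarith)
        _ = 2 := Real.rpow_one 2
    have e5 : ‖f x‖ ^ p = ‖f x‖ ^ (p - 1) * ‖f x‖ := by
      rw [← Real.rpow_add_one' (norm_nonneg _) (by linarith)]; congr 1; ring
    have e6 : 0 < S ^ (p - 1) := Real.rpow_pos_of_pos h0 _
    calc ‖f x‖ ^ p / (2 * S ^ (p - 1)) = ‖f x‖ ^ (p - 1) / (2 * S ^ (p - 1)) * ‖f x‖ := by
          rw [e5]; ring
      _ ≤ ‖f x‖ ^ (p - 1) / (2 ^ (1 - p⁻¹) * S ^ (p - 1)) * ‖f x‖ := by gcongr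
      _ ≤ _ := by rw [← e3]; exact mul_le_mul_of_nonneg_right e1 (norm_nonneg _)
  have h3 := (sum_le_sum fun x (_ : x ∈ univ) => h2 x).trans h1
  rw [← sum_div, ← hSp] at h3
  have e7 : S ^ p = S ^ (p - 1) * S := by
    rw [← Real.rpow_add_one h0.ne']; congr 1; ring
  have e6 : 0 < S ^ (p - 1) := Real.rpow_pos_of_pos h0 _
  rw [e7] at h3
  have : S ^ (p - 1) * S / (2 * S ^ (p - 1)) = S / 2 := by field_simp
  rw [this] at h3
  linarith

end lp

section av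

variable {E : Type}

theorem av_const [AddCommGroup E] [Module ℝ E] {N : ℕ} (hN : 1 ≤ N) (a : E) :
    av N (fun _ => a) = a := by
  have : (N : ℝ) ≠ 0 := by positivity
  simp [av, ← Nat.cast_smul_eq_nsmul ℝ, smul_smul, inv_mul_cancel₀ this]

theorem av_add [AddCommGroup E] [Module ℝ E] (N : ℕ) (φ ψ : ℕ → E) :
    av N (fun n => φ n + ψ n) = av N φ + av N ψ := by
  simp [av, sum_add_distrib]

theorem av_sub [AddCommGroup E] [Module ℝ E] (N : ℕ) (φ ψ : ℕ → E) :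
    av N (fun n => φ n - ψ n) = av N φ - av N ψ := by
  simp [av, sum_sub_distrib, smul_sub]

theorem av_sum [AddCommGroup E] [Module ℝ E] {ι : Type} (N : ℕ) (s : Finset ι) (φ : ι → ℕ → E) :
    av N (fun n => ∑ i ∈ s, φ i n) = ∑ i ∈ s, av N (φ i) := by
  simp only [av]
  rw [sum_comm, smul_sum]

theorem av_congr [AddCommGroup E] [Module ℝ E] {N : ℕ} {φ ψ : ℕ → E}
    (h : ∀ n < N, φ n = ψ n) : av N φ = av N ψ := by
  unfold av
  rw [sum_congr rfl fun n hn => h n (mem_range.1 hn)]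

theorem av_comm [AddCommGroup E] [Module ℝ E] (N N' : ℕ) (φ : ℕ → ℕ → E) :
    av N (fun n => av N' (φ n)) = av N' fun m => av N fun n => φ n m := by
  simp only [av, ← smul_sum]
  rw [sum_comm, smul_comm]

theorem av_mul_left (N : ℕ) (c : ℂ) (φ : ℕ → ℂ) : av N (fun n => c * φ n) = c * av N φ := by
  simp only [av, ← mul_sum, Complex.real_smul]; ring

theorem av_mul_right (N : ℕ) (c : ℂ) (φ : ℕ → ℂ) : av N (fun n => φ n * c) = av N φ * c := by
  simp only [av, ← sum_mul, Complex.real_smul]; ring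

theorem av_rmul_left (N : ℕ) (c : ℝ) (φ : ℕ → ℝ) : av N (fun n => c * φ n) = c * av N φ := by
  simp only [av, ← mul_sum, smul_eq_mul]; ring

theorem av_mono {N : ℕ} {φ ψ : ℕ → ℝ} (h : ∀ n < N, φ n ≤ ψ n) : av N φ ≤ av N ψ := by
  simp only [av, smul_eq_mul]
  exact mul_le_mul_of_nonneg_left (sum_le_sum fun n hn => h n (mem_range.1 hn)) (by positivity)

theorem av_nonneg {N : ℕ} {φ : ℕ → ℝ} (h : ∀ n < N, 0 ≤ φ n) : 0 ≤ av N φ := by
  simp only [av, smul_eq_mul]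
  exact mul_nonneg (by positivity) (sum_nonneg fun n hn => h n (mem_range.1 hn))

theorem av_le {N : ℕ} {φ : ℕ → ℝ} {B : ℝ} (hB : 0 ≤ B) (h : ∀ n < N, φ n ≤ B) : av N φ ≤ B := by
  rcases Nat.eq_zero_or_pos N with rfl | hN
  · simpa [av] using hB
  · exact (av_mono h).trans (av_const hN B).le

theorem norm_av_le [SeminormedAddCommGroup E] [NormedSpace ℝ E] (N : ℕ) (φ : ℕ → E) :
    ‖av N φ‖ ≤ av N fun n => ‖φ n‖ := by
  simp only [av, norm_smul, smul_eq_mul, norm_inv, Real.norm_natCast]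
  exact mul_le_mul_of_nonneg_left (norm_sum_le _ _) (by positivity)

theorem norm_av_le' [SeminormedAddCommGroup E] [NormedSpace ℝ E] {N : ℕ} {φ : ℕ → E} {B : ℝ}
    (hB : 0 ≤ B) (h : ∀ n < N, ‖φ n‖ ≤ B) : ‖av N φ‖ ≤ B :=
  (norm_av_le N φ).trans (av_le hB h)

theorem lp_av_le {X : Type} [Fintype X] [SeminormedAddCommGroup E] [NormedSpace ℝ E] {p : ℝ}
    (hp : 1 ≤ p) (N : ℕ) (φ : ℕ → X → E) :
    lp p (fun x => av N fun n => φ n x) ≤ av N fun n => lp p (φ n) := by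
  unfold av
  rw [lp_smul (by linarith)]
  simp only [norm_inv, Real.norm_natCast, smul_eq_mul]
  exact mul_le_mul_of_nonneg_left (lp_sum_le hp _ _) (by positivity)

theorem lp_av_le' {X : Type} [Fintype X] [SeminormedAddCommGroup E] [NormedSpace ℝ E] {p : ℝ}
    (hp : 1 ≤ p) {N : ℕ} {φ : ℕ → X → E} {B : ℝ} (hB : 0 ≤ B) (h : ∀ n < N, lp p (φ n) ≤ B) :
    lp p (fun x => av N fun n => φ n x) ≤ B :=
  (lp_av_le hp N φ).trans (av_le hB h)

end av

/-- Young's inequality -/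
theorem lp_conv_le {M : ℕ} [NeZero M] {E : Type} [SeminormedAddCommGroup E] [NormedSpace ℂ E] {p : ℝ}
    (hp : 1 ≤ p) (κ : ZMod M → ℂ) (F : ZMod M → E) :
    lp p (conv κ F) ≤ (∑ t, ‖κ t‖) * lp p F := by
  have h : conv κ F = fun x => ∑ t, κ t • F (x + -t) := by
    funext x
    unfold conv
    rw [← Equiv.sum_comp (Equiv.subLeft x)]
    simp [sub_eq_add_neg]
  rw [h, sum_mul]
  refine (lp_sum_le hp _ _).trans (sum_le_sum fun t _ => ?_)
  rw [lp_smul (by linarith), lp_shift]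

theorem lp_AA_le {M : ℕ} [NeZero M] {p a b : ℝ} (hp : 1 ≤ p) (ha : 0 < a) (hb : 0 < b)
    (h : a⁻¹ + b⁻¹ = p⁻¹) (P₁ P₂ : Polynomial ℤ) (N : ℕ) (f g : ZMod M → ℂ) :
    lp p (AA P₁ P₂ N f g) ≤ lp a f * lp b g := by
  refine lp_av_le' hp (mul_nonneg (lp_nonneg _ _) (lp_nonneg _ _)) fun n _ => ?_
  rw [← lp_shift f (pe P₁ n), ← lp_shift g (pe P₂ n)]
  exact lp_mul_le ha hb h fun x => (norm_mul _ _).le

end

end Pool.Agent.Lib.MP_10e396_an
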