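import Pool.Agent.Lib.MP_10e396_an.MartB

/-! Weak quadratic variation of dyadic martingales. -/

set_option autoImplicit false

namespace Pool.Agent.Lib.MP_10e396_an

open Finset

noncomputable section

namespace Mart

variable {M : ℕ} [NeZero M]

/-- exchange of the two halves of the atoms of level `j + 1` -/
def sw (j : ℕ) (x : ZMod M) : ZMod M := ((x.val ^^^ 2 ^ j : ℕ) : ZMod M)

theorem xor_div (u j : ℕ) : (u ^^^ 2 ^ j) / 2 ^ j = u / 2 ^ j ^^^ 1 := by
  rw [Nat.xor_div_two_pow, Nat.div_self (by positivity)]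

theorem xor_div' (u : ℕ) {j l : ℕ} (h : j < l) : (u ^^^ 2 ^ j) / 2 ^ l = u / 2 ^ l := by
  rw [Nat.xor_div_two_pow, Nat.div_eq_of_lt (Nat.pow_lt_pow_right (by norm_num) h), Nat.xor_zero]

theorem sw_val {j : ℕ} (h : 2 ^ (j + 1) ∣ M) (x : ZMod M) : (sw j x).val = x.val ^^^ 2 ^ j := by
  refine ZMod.val_cast_of_lt (Nat.lt_of_div_lt_div (c := 2 ^ (j + 1)) ?_)
  rw [xor_div' _ (Nat.lt_succ_self j)]
  exact Nat.div_lt_div_of_lt_of_dvd h (ZMod.val_lt x)

theorem sw_sw {j : ℕ} (h : 2 ^ (j + 1) ∣ M) (x : ZMod M) : sw j (sw j x) = x := by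
  rw [sw, sw_val h, Nat.xor_assoc, Nat.xor_self, Nat.xor_zero, ZMod.natCast_zmod_val]

variable {E : Type} [AddCommGroup E] [Module ℂ E]

theorem dy_sw {j l : ℕ} (h : 2 ^ (j + 1) ∣ M) (hl : j < l) (F : ZMod M → E) (x : ZMod M) :
    dy l F (sw j x) = dy l F x := by
  unfold dy
  rw [sw_val h, xor_div' _ hl]

theorem half (a q : ℕ) : a / 2 = q / 2 ↔ a = q ∨ a = q ^^^ 1 := by
  rcases Nat.even_or_odd q with hq | hq
  · rw [Nat.xor_one_of_even hq]
    obtain ⟨k, rfl⟩ := hq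
    omega
  · rw [Nat.xor_one_of_odd hq]
    obtain ⟨k, rfl⟩ := hq
    omega

theorem xor_ne (q : ℕ) : q ≠ q ^^^ 1 := by
  rcases Nat.even_or_odd q with hq | hq
  · rw [Nat.xor_one_of_even hq]
    omega
  · rw [Nat.xor_one_of_odd hq]
    obtain ⟨k, rfl⟩ := hq
    omega

theorem dy_split {j : ℕ} (h : 2 ^ (j + 1) ∣ M) (F : ZMod M → E) (x : ZMod M) :
    dy j F x + dy j F (sw j x) = dy (j + 1) F x + dy (j + 1) F x := by
  unfold dy
  rw [sw_val h, xor_div, ← smul_add, ← add_smul, ← sum_union]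
  · have e1 : ((2 : ℂ) ^ (j + 1))⁻¹ + ((2 : ℂ) ^ (j + 1))⁻¹ = ((2 : ℂ) ^ j)⁻¹ := by
      rw [pow_succ]
      field_simp
      norm_num
    have e2 : (univ.filter fun z : ZMod M => z.val / 2 ^ j = x.val / 2 ^ j) ∪
        (univ.filter fun z : ZMod M => z.val / 2 ^ j = x.val / 2 ^ j ^^^ 1) =
        univ.filter fun z : ZMod M => z.val / 2 ^ (j + 1) = x.val / 2 ^ (j + 1) := by
      rw [← filter_or]
      refine filter_congr fun z _ => ?_
      rw [pow_succ, ← Nat.div_div_eq_div_mul, ← Nat.div_div_eq_div_mul, half]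
    rw [e1, e2]
  · rw [disjoint_filter]
    intro z _ h1 h2
    exact xor_ne _ (h1.symm.trans h2)

theorem dy_tele (τ k : ℕ) (hk : k ≤ τ) (F : ZMod M → E) (x : ZMod M) :
    dy τ F x + ∑ i ∈ range k, (dy (τ - 1 - i) F x - dy (τ - 1 - i + 1) F x) = dy (τ - k) F x := by
  induction k with
  | zero => simp
  | succ k ih =>
    rw [sum_range_succ, ← add_assoc, ih (Nat.le_of_succ_le hk),
      show τ - 1 - k + 1 = τ - k by omega, show τ - 1 - k = τ - (k + 1) by omega]
    abel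

end Mart

open Mart in
theorem stWS (hBr : StBr) (hL : StLayer) : StWS := by
  classical
  intro p hp
  set r := ⌈p⌉₊ + 1 with hr
  have hpr : p < ((2 * r : ℕ) : ℝ) := by
    have := Nat.le_ceil p
    rw [hr]
    push_cast
    linarith [Nat.cast_nonneg (α := ℝ) ⌈p⌉₊]
  obtain ⟨A, hA, hc⟩ := core hBr r (by omega)
  obtain ⟨C, hC, hl⟩ := hL p ((2 * r : ℕ) : ℝ) 0 le_rfl hp hpr
  refine ⟨7 * (C * A) ^ p⁻¹, by positivity, fun M _ τ E _ _ F hτ => ?_⟩
  let D : ZMod M → ℕ → E := fun x i => dy (τ - 1 - i) F x - dy (τ - 1 - i + 1) F x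
  have dv : ∀ k < τ, 2 ^ (τ - 1 - k + 1) ∣ M := fun k hk =>
    (pow_dvd_pow 2 (by omega)).trans hτ
  have e1 : ∀ x, (fun j => dy τ F x + ∑ i ∈ range (τ - j), D x i) = fun j => dy (min j τ) F x := by
    intro x
    funext j
    rw [dy_tele τ _ (Nat.sub_le _ _), show τ - (τ - j) = min j τ by omega]
  have e2 : ∀ x, ∑ i ∈ range τ, ‖D x i‖ ^ 2 = ∑ j ∈ range τ, ‖dy j F x - dy (j + 1) F x‖ ^ 2 :=
    fun x => sum_range_reflect (fun j => ‖dy j F x - dy (j + 1) F x‖ ^ 2) τ
  set S : ZMod M → ℝ := fun x =>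
    √(‖dy τ F x‖ ^ 2 + ∑ j ∈ range τ, ‖dy j F x - dy (j + 1) F x‖ ^ 2) with hS
  have S0 : ∀ x, 0 ≤ S x := fun x => Real.sqrt_nonneg _
  have key : ∀ t : ℝ, 0 < t →
      ((univ.filter fun x => ¬ Wb (fun j => dy (min j τ) F x) (7 * t)).card : ℝ) ≤
        A * ∑ x, min ((S x / t) ^ (2 * r)) 1 := by
    intro t ht
    have := hc (ZMod M) E τ (fun k => sw (τ - 1 - k)) (dy τ F) D t ht
      (fun k hk => Function.Involutive.bijective (sw_sw (dv k hk)))
      (fun j k hjk hk x => by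
        simp only [D]
        rw [dy_sw (dv k hk) (by omega), dy_sw (dv k hk) (by omega)])
      (fun k hk x => by
        simp only [D]
        rw [dy_sw (dv k hk) (Nat.lt_succ_self _), neg_sub, sub_eq_sub_iff_add_eq_add, add_comm]
        exact dy_split (dv k hk) F x)
    simpa only [e1, e2] using this
  have ex : ∀ x, ∃ w, Wb (fun j => dy (min j τ) F x) w := by
    intro x
    have h1 := wb_sq (fun j => if j < τ then dy j F x - dy τ F x else 0) (range τ)
      fun i hi => if_neg fun h => hi (mem_range.2 h)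
    have h2 : Wb (fun _ : ℕ => dy τ F x) ‖dy τ F x‖ :=
      ⟨fun _ => le_rfl, fun J c _ => by simp only [vr, sub_self, norm_zero, sum_const_zero]; positivity⟩
    have h3 := wb_add h1 h2
    have h4 : (fun j => (if j < τ then dy j F x - dy τ F x else 0) + dy τ F x) =
        fun j => dy (min j τ) F x := by
      funext j
      split_ifs with h
      · rw [min_eq_left h.le, sub_add_cancel]
      · rw [min_eq_right (not_lt.1 h), zero_add]
    exact ⟨_, h4 ▸ h3⟩
  let w : ZMod M → ℝ := fun x => wopt fun j => dy (min j τ) F x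
  have hw : ∀ x, Wb (fun j => dy (min j τ) F x) (w x) := fun x => wb_wopt (ex x).choose_spec
  refine ⟨w, hw, ?_⟩
  have w0 : ∀ x, 0 ≤ w x / 7 := fun x => div_nonneg (wb_nonneg (hw x)) (by norm_num)
  have h1 := hl (ZMod M) (ZMod M) (fun x => w x / 7) S A hA.le w0 S0 fun t ht => by
    simp only [Real.rpow_natCast, Real.rpow_zero]
    refine le_trans (Nat.cast_le.2 (card_le_card fun x hx => ?_)) (key t ht)
    have h2 : t < w x / 7 := (mem_filter.1 hx).2
    refine mem_filter.2 ⟨mem_univ _, fun h3 => ?_⟩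
    have h4 : w x ≤ 7 * t := wopt_le h3
    linarith
  have h2 : lp p w = 7 * lp p fun x => w x / 7 := by
    rw [← lp_mul hp _ 7 (by norm_num)]
    unfold lp
    congr 1
    refine sum_congr rfl fun x _ => ?_
    rw [Real.norm_of_nonneg (w0 x), Real.norm_of_nonneg (wb_nonneg (hw x)),
      mul_div_cancel₀ _ (by norm_num)]
  rw [h2, mul_assoc]
  refine mul_le_mul_of_nonneg_left ?_ (by norm_num)
  unfold lp
  simp only [Real.norm_of_nonneg (w0 _), Real.norm_of_nonneg (S0 _)]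
  rw [← Real.mul_rpow (by positivity) (sum_nonneg fun x _ => Real.rpow_nonneg (S0 x) _)]
  exact Real.rpow_le_rpow (sum_nonneg fun x _ => Real.rpow_nonneg (w0 x) _) h1 (inv_nonneg.2 hp.le)

end

end Pool.Agent.Lib.MP_10e396_an
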