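import Pool.Agent.Lib.MP_10e396_an.Par

/-! The minor arc part at one scale. -/

set_option autoImplicit false

namespace Pool.Agent.Lib.MP_10e396_an

open Finset Polynomial

namespace Mnr

variable {M : ℕ} [NeZero M]

theorem AA_comm (P₁ P₂ : ℤ[X]) (N : ℕ) (f g : ZMod M → ℂ) : AA P₁ P₂ N f g = AA P₂ P₁ N g f := by
  funext x
  exact av_congr fun n _ => mul_comm _ _

theorem AA_add (P₁ P₂ : ℤ[X]) (N : ℕ) (f f' g : ZMod M → ℂ) (x : ZMod M) :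
    AA P₁ P₂ N (f + f') g x = AA P₁ P₂ N f g x + AA P₁ P₂ N f' g x := by
  unfold AA
  rw [← av_add]
  exact av_congr fun n _ => by rw [Pi.add_apply, add_mul]

theorem AA_smul (P₁ P₂ : ℤ[X]) (N : ℕ) (c : ℂ) (f g : ZMod M → ℂ) (x : ZMod M) :
    AA P₁ P₂ N (c • f) g x = c * AA P₁ P₂ N f g x := by
  unfold AA
  rw [← av_mul_left]
  exact av_congr fun n _ => by rw [Pi.smul_apply, smul_eq_mul, mul_assoc]

theorem TT_add (A : Finset (ZMod M)) (κ f f' : ZMod M → ℂ) :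
    TT A κ (f + f') = TT A κ f + TT A κ f' := by
  funext x
  simp only [TT, Ad, Pi.add_apply, mul_add, sum_add_distrib]

theorem TT_smul (A : Finset (ZMod M)) (κ : ZMod M → ℂ) (c : ℂ) (f : ZMod M → ℂ) :
    TT A κ (c • f) = c • TT A κ f := by
  funext x
  simp only [TT, Ad, Pi.smul_apply, smul_eq_mul, mul_sum]
  exact sum_congr rfl fun _ _ => sum_congr rfl fun _ _ => by ring

theorem lin_left (P₁ P₂ : ℤ[X]) (N : ℕ) (A : Finset (ZMod M)) (κ g g' : ZMod M → ℂ) (z : ZMod M) :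
    IsLinearMap ℂ fun f : ZMod M → ℂ => AA P₁ P₂ N f g z - AA P₁ P₂ N (TT A κ f) g' z :=
  ⟨fun f f' => by rw [TT_add, AA_add, AA_add]; ring,
    fun c f => by rw [TT_smul, AA_smul, AA_smul, smul_eq_mul]; ring⟩

/-- the complement of the major arc operator is a minor arc function plus a small error -/
theorem split {H H' k : ℕ} (h1 : 1 ≤ H') (hH : H' ≤ H) (hk : 1 ≤ k)
    (hK : 2 * (H * k) * H ^ 2 ≤ M) (f : ZMod M → ℂ) :
    ∃ f₁ f₂ : ZMod M → ℂ, f = (f₁ + f₂) + TT (Sg M H) (cx (fej (H * k))) f ∧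
      Minor H' (H' * k) f₁ ∧ lp 2 f₁ ≤ lp 2 f ∧ lp 2 f₂ ≤ (H' : ℝ) / H * lp 2 f := by
  classical
  have hH1 : 1 ≤ H := h1.trans hH
  have K1 : 1 ≤ H * k := Nat.mul_pos hH1 hk
  have K2 : 2 * (H * k) ≤ M := (Nat.le_mul_of_pos_right _ (by positivity)).trans hK
  have KR : (0 : ℝ) < (H * k : ℕ) := by exact_mod_cast K1
  set s : ZMod M → ℂ := fun ξ => 1 - ∑ θ ∈ Sg M H, ft (cx (fej (H * k))) (ξ - θ) with hs
  have key : ∀ ξ, ‖s ξ‖ ≤ 1 ∧
      ((∃ θ ∈ Sg M H', ab (ξ - θ) < H' * k) → ‖s ξ‖ ≤ (H' : ℝ) / H) := by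
    intro ξ
    obtain ⟨θ₀, h0⟩ := sym_unique hK ξ
    have e := sym_eq (subset_refl _) h0 (band_fej K1 K2)
    have a0 : (0 : ℝ) ≤ (ab (ξ - θ₀) : ℝ) / (H * k : ℕ) := by positivity
    have hn : θ₀ ∈ Sg M H → ‖s ξ‖ = 1 - max (1 - (ab (ξ - θ₀) : ℝ) / (H * k : ℕ)) 0 := by
      intro hm
      simp only [hs]
      rw [e, if_pos hm, ft_fej K1 K2, ← Complex.ofReal_one, ← Complex.ofReal_sub, Complex.norm_real,
        Real.norm_of_nonneg]
      exact sub_nonneg.2 (max_le (by linarith) zero_le_one)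
    constructor
    · by_cases hm : θ₀ ∈ Sg M H
      · rw [hn hm]
        linarith [le_max_right (1 - (ab (ξ - θ₀) : ℝ) / (H * k : ℕ)) 0]
      · simp only [hs]
        rw [e, if_neg hm, sub_zero, norm_one]
    · rintro ⟨θ, hθ, hab⟩
      have hm := Sg_mono hH hθ
      have := h0 θ hm (hab.trans_le (Nat.mul_le_mul_right _ hH))
      subst this
      rw [hn hm]
      have a1 : (ab (ξ - θ) : ℝ) / (H * k : ℕ) ≤ (H' : ℝ) / H := by
        have a2 : (ab (ξ - θ) : ℝ) ≤ (H' * k : ℕ) := by exact_mod_cast hab.le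
        have a3 : (0 : ℝ) < H := by exact_mod_cast hH1
        rw [div_le_div_iff₀ KR a3]
        push_cast at a2 ⊢
        nlinarith
      linarith [le_max_left (1 - (ab (ξ - θ) : ℝ) / (H * k : ℕ)) 0]
  obtain ⟨f₁, e₁⟩ := exists_ft fun ξ =>
    if ∃ θ ∈ Sg M H', ab (ξ - θ) < H' * k then 0 else s ξ * ft f ξ
  obtain ⟨f₂, e₂⟩ := exists_ft fun ξ =>
    if ∃ θ ∈ Sg M H', ab (ξ - θ) < H' * k then s ξ * ft f ξ else 0
  refine ⟨f₁, f₂, ft_inj fun ξ => ?_, fun ξ θ hθ hab => ?_, ?_, ?_⟩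
  · have a := ft_add (f₁ + f₂) (TT (Sg M H) (cx (fej (H * k))) f) ξ
    have b := ft_add f₁ f₂ ξ
    refine Eq.trans ?_ a.symm
    refine Eq.trans ?_ (congrArg (· + ft (TT (Sg M H) (cx (fej (H * k))) f) ξ) b.symm)
    simp only [e₁, e₂, ft_TT, hs]
    split_ifs <;> ring
  · rw [e₁, if_pos ⟨θ, hθ, hab⟩]
  · have := lp_le_of_ft (g := f₁) (f := f) zero_le_one fun ξ => by
      rw [e₁]
      split_ifs
      · simp
      · rw [norm_mul]
        exact mul_le_mul_of_nonneg_right (key ξ).1 (norm_nonneg _)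
    rwa [one_mul] at this
  · refine lp_le_of_ft (by positivity) fun ξ => ?_
    rw [e₂]
    split_ifs with h
    · rw [norm_mul]
      exact mul_le_mul_of_nonneg_right ((key ξ).2 h) (norm_nonneg _)
    · rw [norm_zero]; positivity

theorem lp1_add (P₁ P₂ : ℤ[X]) (N : ℕ) (f f' g : ZMod M → ℂ) :
    lp 1 (AA P₁ P₂ N (f + f') g) ≤ lp 1 (AA P₁ P₂ N f g) + lp 1 (AA P₁ P₂ N f' g) := by
  refine le_trans (le_of_eq (lp_congr fun x => ?_)) (lp_add_le le_rfl _ _)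
  rw [AA_add]

/-- one slot -/
theorem slot_le (P₁ P₂ : ℤ[X]) (N : ℕ) {H H' k : ℕ} (h1 : 1 ≤ H') (hH : H' ≤ H) (hk : 1 ≤ k)
    (hK : 2 * (H * k) * H ^ 2 ≤ M) {B : ℝ} (hB : 0 ≤ B)
    (hS : ∀ f g : ZMod M → ℂ, Minor H' (H' * k) f → lp 1 (AA P₁ P₂ N f g) ≤ B * lp 2 f * lp 2 g)
    (f g : ZMod M → ℂ) :
    lp 1 (fun x => AA P₁ P₂ N f g x - AA P₁ P₂ N (TT (Sg M H) (cx (fej (H * k))) f) g x) ≤
      (B + (H' : ℝ) / H) * lp 2 f * lp 2 g := by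
  obtain ⟨f₁, f₂, e, m, l₁, l₂⟩ := split h1 hH hk hK f
  have a : ∀ x, AA P₁ P₂ N f g x - AA P₁ P₂ N (TT (Sg M H) (cx (fej (H * k))) f) g x =
      AA P₁ P₂ N (f₁ + f₂) g x := fun x => by
    have := AA_add P₁ P₂ N (f₁ + f₂) (TT (Sg M H) (cx (fej (H * k))) f) g x
    rw [← e] at this
    rw [this, add_sub_cancel_right]
  rw [lp_congr fun x => congrArg norm (a x)]
  refine (lp1_add P₁ P₂ N f₁ f₂ g).trans ?_
  have b₁ := hS f₁ g m
  have b₂ := lp_AA_le le_rfl two_pos two_pos (by norm_num) P₁ P₂ N f₂ g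
  have g0 := lp_nonneg 2 g
  calc _ ≤ B * lp 2 f₁ * lp 2 g + lp 2 f₂ * lp 2 g := add_le_add b₁ b₂
    _ ≤ B * lp 2 f * lp 2 g + (H' : ℝ) / H * lp 2 f * lp 2 g := by gcongr
    _ = _ := by ring

/-- numerics for the half height -/
theorem half (h : ℕ) {c : ℝ} (h0 : 0 < c) :
    ((2 ^ (h / 2) : ℕ) : ℝ) ^ (-c) ≤ 2 * ((2 : ℝ) ^ h) ^ (-(min c 1 / 2)) ∧
      ((2 ^ (h / 2) : ℕ) : ℝ) / (2 ^ h : ℕ) ≤ ((2 : ℝ) ^ h) ^ (-(min c 1 / 2)) := by
  have m0 : 0 < min c 1 := lt_min h0 one_pos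
  have m1 : min c 1 ≤ 1 := min_le_right _ _
  have m2 : min c 1 ≤ c := min_le_left _ _
  have a1 : ((h / 2 : ℕ) : ℝ) * 2 ≤ h := by exact_mod_cast Nat.div_mul_le_self h 2
  have a2 : (h : ℝ) ≤ ((h / 2 : ℕ) : ℝ) * 2 + 1 := by
    exact_mod_cast (by omega : h ≤ h / 2 * 2 + 1)
  have a3 : (0 : ℝ) ≤ ((h / 2 : ℕ) : ℝ) := by positivity
  push_cast
  rw [← Real.rpow_natCast, ← Real.rpow_natCast, ← Real.rpow_mul two_pos.le,
    ← Real.rpow_mul two_pos.le, ← Real.rpow_sub two_pos]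
  constructor
  · rw [mul_comm (2 : ℝ), ← Real.rpow_add_one two_ne_zero]
    refine Real.rpow_le_rpow_of_exponent_le one_le_two ?_
    nlinarith
  · refine Real.rpow_le_rpow_of_exponent_le one_le_two ?_
    nlinarith

theorem conv_fej {K : ℕ} (hK : 1 ≤ K) (h2 : 2 * K ≤ M) {a : ℝ} (ha : 1 < a) (f : ZMod M → ℂ) :
    lp a (conv (cx (fej K)) f) ≤ 1 * lp a f := by
  have := sum_norm_fej hK h2 (0 : ZMod M)
  simp only [add_zero] at this
  rw [← this]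
  exact lp_conv_le ha.le _ _

theorem width {h N c r e : ℕ} (h1 : 1 ≤ h) (hN : 2 ^ (c * h) ≤ N) (he : 1 ≤ e) (hc : 2 * r + 1 ≤ c) :
    2 ^ h * (M / N ^ e) * (2 * 2 ^ h) ^ r ≤ M := by
  have N1 : 1 ≤ N := Nat.one_le_two_pow.trans hN
  have a1 : 2 ^ h * (2 * 2 ^ h) ^ r ≤ N ^ e := by
    refine le_trans ?_ (hN.trans (Nat.le_self_pow (by omega) _))
    rw [← pow_succ', ← pow_mul, ← pow_add]
    refine Nat.pow_le_pow_right two_pos ?_
    nlinarith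
  calc _ = M / N ^ e * (2 ^ h * (2 * 2 ^ h) ^ r) := by ring
    _ ≤ M / N ^ e * N ^ e := Nat.mul_le_mul_left _ a1
    _ ≤ M := Nat.div_mul_le_self _ _

/-- choice of the interpolation exponents -/
theorem expo {p₁ p₂ p : ℝ} (h₁ : 1 < p₁) (h₂ : 1 < p₂) (hp : 1 ≤ p) (h : p₁⁻¹ + p₂⁻¹ = p⁻¹) :
    ∃ θ q₁ q₂ q : ℝ, 0 < θ ∧ θ < 1 ∧ 1 < q₁ ∧ 1 < q₂ ∧ 1 ≤ q ∧ q₁⁻¹ + q₂⁻¹ = q⁻¹ ∧
      p₁⁻¹ = (1 - θ) * 2⁻¹ + θ * q₁⁻¹ ∧ p₂⁻¹ = (1 - θ) * 2⁻¹ + θ * q₂⁻¹ ∧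
      (1 - q⁻¹) * θ = 1 - p⁻¹ := by
  have x1 : 0 < p₁⁻¹ := by positivity
  have x2 : 0 < p₂⁻¹ := by positivity
  have x3 : p⁻¹ ≤ 1 := inv_le_one_of_one_le₀ hp
  rw [← h] at x3 ⊢
  generalize p₁⁻¹ = x at *
  generalize p₂⁻¹ = y at *
  have m1 : min x y ≤ x := min_le_left _ _
  have m2 : min x y ≤ y := min_le_right _ _
  have m0 : 0 < min x y := lt_min x1 x2
  generalize min x y = η at *
  have t0 : 0 < 1 - η := by linarith
  have u1 : 0 < (x - η / 2) / (1 - η) := div_pos (by linarith) t0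
  have u2 : 0 < (y - η / 2) / (1 - η) := div_pos (by linarith) t0
  have u3 : (x - η / 2) / (1 - η) + (y - η / 2) / (1 - η) ≤ 1 := by
    rw [← add_div, div_le_one t0]; linarith
  refine ⟨1 - η, ((x - η / 2) / (1 - η))⁻¹, ((y - η / 2) / (1 - η))⁻¹,
    ((x - η / 2) / (1 - η) + (y - η / 2) / (1 - η))⁻¹, t0, by linarith,
    one_lt_inv_iff₀.2 ⟨u1, by linarith⟩, one_lt_inv_iff₀.2 ⟨u2, by linarith⟩,
    (one_le_inv₀ (by linarith)).2 u3, ?_, ?_, ?_, ?_⟩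
  · simp only [inv_inv]
  · rw [inv_inv]; field_simp; ring
  · rw [inv_inv]; field_simp; ring
  · rw [inv_inv]; field_simp; ring

end Mnr

open Mnr

theorem ssp_left (hS : StSS) {P : ℤ[X]} (hP : 2 ≤ P.natDegree) : SSP X P := by
  obtain ⟨c, C₀, C, c0, C0, H⟩ := hS P hP
  refine ⟨c, C₀, P.natDegree, C, c0, C0, fun M _ H' N f g h1 h2 h3 h4 => ?_⟩
  rw [natDegree_X, pow_one] at h4
  exact H M H' N f g h1 h2 h3 (Or.inl h4)

theorem ssp_right (hS : StSS) {P : ℤ[X]} (hP : 2 ≤ P.natDegree) : SSP P X := by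
  obtain ⟨c, C₀, C, c0, C0, H⟩ := hS P hP
  refine ⟨c, C₀, P.natDegree, C, c0, C0, fun M _ H' N f g h1 h2 h3 h4 => ?_⟩
  rw [AA_comm, mul_right_comm]
  exact H M H' N g f h1 h2 h3 (Or.inr h4)

theorem stMinor (hS : StSS) (hI : StIW) : StMinor := by
  intro P p₁ p₂ p hP h₁ h₂ hp hpp
  obtain ⟨c, C₀, C, c0, C0, HS⟩ := hS P hP
  obtain ⟨θ, q₁, q₂, q, θ0, θ1, hq₁, hq₂, hq, hq0, e₁, e₂, e₃⟩ := expo h₁ h₂ hp hpp
  set δ₀ := min c 1 / 2 with hδ₀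
  have d0 : 0 < δ₀ := half_pos (lt_min c0 one_pos)
  set ε := δ₀ * (1 - θ) / 4 with hε
  have ε0 : 0 < ε := by have := sub_pos.2 θ1; positivity
  obtain ⟨a₁, R₁, C₁, ha₁, C10, I₁⟩ := hI q₁ ε hq₁ ε0
  obtain ⟨a₂, R₂, C₂, ha₂, C20, I₂⟩ := hI q₂ ε hq₂ ε0
  refine ⟨C₀ + 2 * R₁ + 2 * R₂ + 5, δ₀ * (1 - θ) - 2 * ε * θ,
    2 * ((2 * (2 * C + 1)) ^ (1 - θ) * (1 + C₁ * C₂) ^ θ), by nlinarith, by positivity, ?_⟩
  intro M _ h N f g h1 hN hD
  have N1 : 1 ≤ N := Nat.one_le_two_pow.trans hN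
  have NN : N ≤ N ^ P.natDegree := Nat.le_self_pow (by omega) _
  have k2 : 1 ≤ M / N ^ P.natDegree :=
    Nat.div_pos (Nat.le_of_dvd (NeZero.pos M) (hD _ (N1.trans NN) (by omega))) (N1.trans NN)
  have k1 : 1 ≤ M / N := k2.trans (Nat.div_le_div_left NN N1)
  have w1 : ∀ r, 2 * r + 1 ≤ C₀ + 2 * R₁ + 2 * R₂ + 5 → 2 ^ h * (M / N) * (2 * 2 ^ h) ^ r ≤ M :=
    fun r hr => by simpa only [pow_one] using width (M := M) (e := 1) h1 hN le_rfl hr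
  have w2 : ∀ r, 2 * r + 1 ≤ C₀ + 2 * R₁ + 2 * R₂ + 5 →
      2 ^ h * (M / N ^ P.natDegree) * (2 * 2 ^ h) ^ r ≤ M :=
    fun r hr => width h1 hN (by omega) hr
  have sq : ∀ K : ℕ, K * (2 * 2 ^ h) ^ 2 ≤ M → 2 * K * (2 ^ h) ^ 2 ≤ M := fun K hK =>
    le_trans (by nlinarith [Nat.zero_le (K * (2 ^ h) ^ 2)]) hK
  have s1 := sq _ (w1 2 (by omega))
  have s2 := sq _ (w2 2 (by omega))
  have K1 : 1 ≤ 2 ^ h * (M / N) := Nat.mul_pos (by positivity) k1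
  have K2 : 1 ≤ 2 ^ h * (M / N ^ P.natDegree) := Nat.mul_pos (by positivity) k2
  have b1 : 2 * (2 ^ h * (M / N)) ≤ M := (Nat.le_mul_of_pos_right _ (by positivity)).trans s1
  have b2 : 2 * (2 ^ h * (M / N ^ P.natDegree)) ≤ M :=
    (Nat.le_mul_of_pos_right _ (by positivity)).trans s2
  have H1 : 1 ≤ 2 ^ (h / 2) := Nat.one_le_two_pow
  have H2 : 2 ^ (h / 2) ≤ 2 ^ h := Nat.pow_le_pow_right two_pos (Nat.div_le_self _ _)
  have H3 : (2 ^ (h / 2)) ^ C₀ ≤ N := by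
    refine le_trans ?_ hN
    rw [← pow_mul, mul_comm]
    exact Nat.pow_le_pow_right two_pos (Nat.mul_le_mul (by omega) (Nat.div_le_self _ _))
  obtain ⟨n1, n2⟩ := half h c0
  rw [← hδ₀] at n1 n2
  set t : ℝ := (2 : ℝ) ^ h with ht
  have t1 : 1 ≤ t := one_le_pow₀ one_le_two
  have t0 : 0 < t := by linarith
  set U := TT (Sg M (2 ^ h)) (cx (fej (2 ^ h * (M / N)))) with hU
  set V := TT (Sg M (2 ^ h)) (cx (fej (2 ^ h * (M / N ^ P.natDegree)))) with hV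
  have hB : C * ((2 ^ (h / 2) : ℕ) : ℝ) ^ (-c) + ((2 ^ (h / 2) : ℕ) : ℝ) / (2 ^ h : ℕ) ≤
      (2 * C + 1) * t ^ (-δ₀) := by nlinarith
  have E0 : ∀ f g : ZMod M → ℂ, ∑ z, (fun _ => (1 : ℝ)) z *
      ‖AA X P N f g z - AA X P N (U f) (V g) z‖ ≤
        2 * (2 * C + 1) * t ^ (-δ₀) * lp 2 f * lp 2 g := by
    intro f g
    have a := slot_le X P N H1 H2 k1 s1 (by positivity)
      (fun f g hm => HS M _ N f g H1 H3 hD (Or.inl hm)) f g
    have b := slot_le P X N H1 H2 k2 s2 (B := C * ((2 ^ (h / 2) : ℕ) : ℝ) ^ (-c)) (by positivity)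
      (fun g f hm => by
        rw [AA_comm, mul_right_comm]
        exact HS M _ N f g H1 H3 hD (Or.inr hm)) g (U f)
    have u := lp_TT_le s1 (subset_refl _) (band_fej K1 b1) (norm_ft_fej K1 b1) f
    rw [one_mul, ← hU] at u
    rw [← hU] at a
    rw [← hV, AA_comm P X, AA_comm P X] at b
    have f0 := lp_nonneg 2 f
    have g0 := lp_nonneg 2 g
    have u0 := lp_nonneg 2 (U f)
    simp only [one_mul]
    rw [← lp_one]
    calc _ = lp 1 fun z => (AA X P N f g z - AA X P N (U f) g z) +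
          (AA X P N (U f) g z - AA X P N (U f) (V g) z) :=
          lp_congr fun z => by rw [sub_add_sub_cancel]
      _ ≤ _ := lp_add_le le_rfl _ _
      _ ≤ (2 * C + 1) * t ^ (-δ₀) * lp 2 f * lp 2 g + (2 * C + 1) * t ^ (-δ₀) * lp 2 g * lp 2 f :=
          add_le_add (a.trans (by gcongr)) (b.trans (by gcongr))
      _ = _ := by ring
  have E1 : ∀ f g : ZMod M → ℂ, lp q (fun z => AA X P N f g z - AA X P N (U f) (V g) z) ≤
      (1 + C₁ * C₂) * t ^ (2 * ε) * lp q₁ f * lp q₂ g := by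
    intro f g
    have a := I₁ M (2 ^ h) _ _ 1 Nat.one_le_two_pow K1 (w1 R₁ (by omega)) (band_fej K1 b1)
      (conv_fej K1 b1 ha₁) f
    have b := I₂ M (2 ^ h) _ _ 1 Nat.one_le_two_pow K2 (w2 R₂ (by omega)) (band_fej K2 b2)
      (conv_fej K2 b2 ha₂) g
    rw [← hU] at a
    rw [← hV] at b
    push_cast at a b
    rw [← ht] at a b
    have f0 := lp_nonneg q₁ f
    have g0 := lp_nonneg q₂ g
    have v0 := lp_nonneg q₂ (V g)
    have o : 1 ≤ t ^ (2 * ε) := Real.one_le_rpow t1 (by positivity)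
    have o2 : t ^ (2 * ε) = t ^ ε * t ^ ε := by rw [two_mul, Real.rpow_add t0]
    calc _ ≤ _ := lp_sub_le hq _ _
      _ ≤ lp q₁ f * lp q₂ g + lp q₁ (U f) * lp q₂ (V g) :=
          add_le_add (lp_AA_le hq (by linarith) (by linarith) hq0 _ _ _ _ _)
            (lp_AA_le hq (by linarith) (by linarith) hq0 _ _ _ _ _)
      _ ≤ t ^ (2 * ε) * (lp q₁ f * lp q₂ g) +
            C₁ * t ^ ε * 1 * lp q₁ f * (C₂ * t ^ ε * 1 * lp q₂ g) :=
          add_le_add (le_mul_of_one_le_left (by positivity) o) (by gcongr)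
      _ = _ := by rw [o2]; ring
  have f0 := lp_nonneg p₁ f
  have g0 := lp_nonneg p₂ g
  have fin := lp_le_of_weight hp (fun z => AA X P N f g z - AA X P N (U f) (V g) z)
    (B := (2 * (2 * C + 1) * t ^ (-δ₀)) ^ (1 - θ) * ((1 + C₁ * C₂) * t ^ (2 * ε)) ^ θ *
      lp p₁ f * lp p₂ g) (by positivity) fun u u0 u1 => by
    have := stInterp (ZMod M) (ZMod M) (ZMod M)
      (fun f g z => AA X P N f g z - AA X P N (U f) (V g) z) (fun _ => 1)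
      (fun z => u z ^ (1 - q⁻¹)) 2 q₁ 2 q₂ p₁ p₂ θ _ _
      (fun g z => lin_left X P N _ _ g (V g) z)
      (fun f z => by
        have := lin_left P X N (Sg M (2 ^ h)) (cx (fej (2 ^ h * (M / N ^ P.natDegree)))) f (U f) z
        simp only [AA_comm P X] at this
        exact this)
      (fun _ => one_pos) (fun z => Real.rpow_pos_of_pos (u0 z) _) one_le_two hq₁.le one_le_two
      hq₂.le θ0.le θ1.le e₁ e₂ (by positivity) (by positivity) E0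
      (fun f g => (sum_weight_le hq (fun z => (u0 z).le) u1 _).trans (E1 f g)) f g
    refine le_trans (le_of_eq (sum_congr rfl fun z _ => ?_)) this
    rw [Real.one_rpow, one_mul, ← Real.rpow_mul (u0 z).le, e₃]
  refine fin.trans (le_of_eq ?_)
  rw [Real.mul_rpow (by positivity) (by positivity), Real.mul_rpow (x := 1 + C₁ * C₂)
    (by positivity) (by positivity), ← Real.rpow_mul t0.le, ← Real.rpow_mul t0.le,
    show -(δ₀ * (1 - θ) - 2 * ε * θ) = -δ₀ * (1 - θ) + 2 * ε * θ by ring, Real.rpow_add t0]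
  ring

end Pool.Agent.Lib.MP_10e396_an
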