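import Mathlib

/-! Algebra of the PET induction: good polynomials, the step, the weight. -/

set_option autoImplicit false

namespace Pool.Agent.Lib.MP_10e396_an.Pet

open Finset Polynomial

noncomputable section

abbrev RR (m : ℕ) : Type := MvPolynomial (Fin m) ℤ

def io (m : ℕ) : RR m →+* RR (m + 2) :=
  (MvPolynomial.rename (fun i : Fin m => i.succ.succ)).toRingHom

def pr (m : ℕ) : RR (m + 2) →+* RR m :=
  MvPolynomial.eval₂Hom MvPolynomial.C (Fin.cons 0 (Fin.cons 0 MvPolynomial.X))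

def uu (m : ℕ) : RR (m + 2) := MvPolynomial.X 0

def vv (m : ℕ) : RR (m + 2) := MvPolynomial.X (Fin.succ 0)

theorem pr_io (m : ℕ) (c : RR m) : pr m (io m c) = c := by
  have : (pr m).comp (io m) = RingHom.id _ := by
    refine MvPolynomial.ringHom_ext (fun r => ?_) fun i => ?_
    · simp
    · simp [pr, io]
  exact RingHom.congr_fun this c

theorem io_inj (m : ℕ) : Function.Injective (io m) :=
  Function.LeftInverse.injective (pr_io m)

theorem pr_uu (m : ℕ) : pr m (uu m) = 0 := by simp [pr, uu]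

theorem pr_vv (m : ℕ) : pr m (vv m) = 0 := by
  simp only [pr, vv, MvPolynomial.eval₂Hom_X', Fin.cons_succ, Fin.cons_zero]

theorem uu_ne (m : ℕ) : uu m - vv m ≠ 0 := by
  rw [sub_ne_zero]
  exact fun h => (Fin.succ_ne_zero 0).symm (MvPolynomial.X_injective h)

theorem io_hom (m : ℕ) {c : RR m} {e : ℕ} (h : c.IsHomogeneous e) : (io m c).IsHomogeneous e :=
  h.rename_isHomogeneous

def sh {m : ℕ} (r : RR (m + 2)) (B : (RR m)[X]) : (RR (m + 2))[X] := taylor r (B.map (io m))

theorem sh_deg {m : ℕ} (r : RR (m + 2)) (B : (RR m)[X]) : (sh r B).natDegree = B.natDegree := by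
  rw [sh, natDegree_taylor, natDegree_map_eq_of_injective (io_inj m)]

theorem sh_lc {m : ℕ} (r : RR (m + 2)) (B : (RR m)[X]) :
    (sh r B).leadingCoeff = io m B.leadingCoeff := by
  rw [sh, leadingCoeff_taylor, leadingCoeff_map_of_injective (io_inj m)]

theorem sh_sub {m : ℕ} (r : RR (m + 2)) (A B : (RR m)[X]) : sh r (A - B) = sh r A - sh r B := by
  simp [sh]

theorem tay_coeff {R : Type} [CommRing R] (r : R) (B : R[X]) (k : ℕ) (h : B.natDegree ≤ k + 1) :
    (taylor r B).coeff k = B.coeff k + (k + 1) * B.coeff (k + 1) * r := by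
  have h2 : (hasseDeriv k B).natDegree < 2 :=
    lt_of_le_of_lt (natDegree_hasseDeriv_le B k) (by omega)
  rw [taylor_coeff, eval_eq_sum_range' h2, Finset.sum_range_succ, Finset.sum_range_one,
    hasseDeriv_coeff, hasseDeriv_coeff, add_comm 1 k]
  simp

def Good (d : ℕ) {m : ℕ} (A : (RR m)[X]) : Prop :=
  1 ≤ A.natDegree ∧ A.natDegree ≤ d ∧ A.leadingCoeff.IsHomogeneous (d - A.natDegree)

theorem Good.lc_ne {d m : ℕ} {A : (RR m)[X]} (h : Good d A) : A.leadingCoeff ≠ 0 := by
  intro h0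
  have := h.1
  rw [leadingCoeff_eq_zero.1 h0] at this
  simp at this

theorem Good.sh {d m : ℕ} {A : (RR m)[X]} (h : Good d A) (r : RR (m + 2)) : Good d (sh r A) := by
  unfold Good
  rw [sh_deg, sh_lc]
  exact ⟨h.1, h.2.1, io_hom m h.2.2⟩

theorem Good.add {d m : ℕ} {A B : (RR m)[X]} (hA : Good d A) (hB : Good d B)
    (h : A.leadingCoeff + B.leadingCoeff ≠ 0) : Good d (A + B) := by
  rcases lt_trichotomy A.natDegree B.natDegree with h1 | h1 | h1
  · unfold Good
    rw [natDegree_add_eq_right_of_natDegree_lt h1,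
      leadingCoeff_add_of_degree_lt (degree_lt_degree h1)]
    exact hB
  · have hd : A.degree = B.degree := by
      rw [degree_eq_natDegree (leadingCoeff_ne_zero.1 hA.lc_ne),
        degree_eq_natDegree (leadingCoeff_ne_zero.1 hB.lc_ne), h1]
    have h2 : (A + B).natDegree = A.natDegree := by
      refine natDegree_eq_of_degree_eq ?_
      rw [degree_add_eq_of_leadingCoeff_add_ne_zero h, ← hd, max_self]
    unfold Good
    rw [h2, leadingCoeff_add_of_degree_eq hd h]
    exact ⟨hA.1, hA.2.1, hA.2.2.add (h1 ▸ hB.2.2)⟩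
  · unfold Good
    rw [natDegree_add_eq_left_of_natDegree_lt h1,
      leadingCoeff_add_of_degree_lt' (degree_lt_degree h1)]
    exact hA

theorem good_W {d m : ℕ} {A : (RR m)[X]} (hA : Good d A) (h2 : 2 ≤ A.natDegree) :
    Good d (sh (uu m) A - sh (vv m) A) ∧ pr m (sh (uu m) A - sh (vv m) A).leadingCoeff = 0 := by
  obtain ⟨k, hk⟩ : ∃ k, A.natDegree = k + 1 := ⟨A.natDegree - 1, by omega⟩
  have hd : (A.map (io m)).natDegree = k + 1 := by
    rw [natDegree_map_eq_of_injective (io_inj m), hk]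
  have hc : (sh (uu m) A - sh (vv m) A).coeff k =
      (k + 1) * io m A.leadingCoeff * (uu m - vv m) := by
    rw [coeff_sub, sh, sh, tay_coeff _ _ _ hd.le, tay_coeff _ _ _ hd.le, coeff_map _ (k + 1),
      leadingCoeff, hk]
    ring
  have hne : (sh (uu m) A - sh (vv m) A).coeff k ≠ 0 := by
    rw [hc]
    refine mul_ne_zero (mul_ne_zero ?_ ?_) (uu_ne m)
    · exact_mod_cast Nat.succ_ne_zero k
    · exact fun h => hA.lc_ne (io_inj m (h.trans (map_zero _).symm))
  have hle : (sh (uu m) A - sh (vv m) A).natDegree ≤ k := by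
    rw [natDegree_le_iff_coeff_eq_zero]
    intro j hj
    rw [coeff_sub]
    rcases (Nat.succ_le_of_lt hj).eq_or_lt with h | h
    · have e : ∀ r, (sh r A).coeff j = io m A.leadingCoeff := by
        intro r
        rw [← sh_lc r, leadingCoeff, sh_deg, hk, ← h]
      rw [e, e, sub_self]
    · have e : ∀ r, (sh r A).coeff j = 0 := fun r =>
        coeff_eq_zero_of_natDegree_lt (by rw [sh_deg, hk]; exact h)
      rw [e, e, sub_self]
  have hdeg : (sh (uu m) A - sh (vv m) A).natDegree = k :=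
    le_antisymm hle (le_natDegree_of_ne_zero hne)
  have hlc : (sh (uu m) A - sh (vv m) A).leadingCoeff =
      (k + 1) * io m A.leadingCoeff * (uu m - vv m) := by rw [leadingCoeff, hdeg, hc]
  refine ⟨?_, by rw [hlc]; simp [pr_uu, pr_vv]⟩
  have h3 := hA.2.1
  unfold Good
  rw [hdeg, hlc]
  refine ⟨by omega, by omega, ?_⟩
  have e1 : ((k : RR (m + 2)) + 1).IsHomogeneous 0 := by
    have := MvPolynomial.isHomogeneous_C (Fin (m + 2)) ((k : ℤ) + 1)
    simpa using this
  have e2 : (uu m - vv m).IsHomogeneous 1 :=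
    (MvPolynomial.isHomogeneous_X ℤ _).sub (MvPolynomial.isHomogeneous_X ℤ _)
  have := (e1.mul (io_hom m hA.2.2)).mul e2
  rwa [show 0 + (d - A.natDegree) + 1 = d - k by omega] at this

def Inv (d : ℕ) {m : ℕ} (A : (RR m)[X]) (S : Finset (RR m)[X]) : Prop :=
  Good d A ∧ ∀ B ∈ S, Good d (A - B) ∧ 1 ≤ B.natDegree ∧ B.natDegree ≤ A.natDegree

open Classical in
/-- the non distinguished polynomials after one van der Corput step -/
def dbl {m : ℕ} (A : (RR m)[X]) (S : Finset (RR m)[X]) : Finset (RR (m + 2))[X] :=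
  insert (sh (vv m) A) (S.image (sh (uu m)) ∪ S.image (sh (vv m)))

open Classical in
def nw {m : ℕ} (T : Finset (RR m)[X]) (J : (RR m)[X]) : Finset (RR m)[X] :=
  (T.image (· - J)).filter fun B => B.natDegree ≠ 0

open Classical in
def wt {m : ℕ} (A : (RR m)[X]) (S : Finset (RR m)[X]) (k : ℕ) : ℕ :=
  (((insert A S).filter fun B => B.natDegree = k).image leadingCoeff).card

theorem inv_dbl {d m : ℕ} {A : (RR m)[X]} {S : Finset (RR m)[X]} (h : Inv d A S)
    (h2 : 2 ≤ A.natDegree) : Inv d (sh (uu m) A) (dbl A S) := by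
  refine ⟨h.1.sh _, fun B hB => ?_⟩
  simp only [dbl, mem_insert, mem_union, mem_image] at hB
  rcases hB with rfl | ⟨B, hB, rfl⟩ | ⟨B, hB, rfl⟩
  · rw [sh_deg, sh_deg]
    exact ⟨(good_W h.1 h2).1, by omega, le_rfl⟩
  · rw [sh_deg, sh_deg, ← sh_sub]
    exact ⟨(h.2 B hB).1.sh _, (h.2 B hB).2⟩
  · rw [sh_deg, sh_deg]
    refine ⟨?_, (h.2 B hB).2⟩
    have e : sh (uu m) A - sh (vv m) B = (sh (uu m) A - sh (vv m) A) + sh (vv m) (A - B) := by
      rw [sh_sub]; ring
    rw [e]
    refine (good_W h.1 h2).1.add ((h.2 B hB).1.sh _) fun h0 => (h.2 B hB).1.lc_ne ?_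
    have := congrArg (pr m) h0
    rwa [map_add, (good_W h.1 h2).2, sh_lc, pr_io, zero_add, map_zero] at this

theorem choose_J {d m : ℕ} {D : (RR m)[X]} {T : Finset (RR m)[X]} (h : Inv d D T)
    (hT : T.Nonempty) : ∃ J ∈ T, (∀ B ∈ T, J.natDegree ≤ B.natDegree) ∧ Inv d (D - J) (nw T J) := by
  have key : ∃ J ∈ T, (∀ B ∈ T, J.natDegree ≤ B.natDegree) ∧
      ∀ B ∈ T, (B - J).natDegree ≤ (D - J).natDegree := by
    by_cases hc : ∃ B ∈ T, B.natDegree < D.natDegree
    · obtain ⟨B0, hB0, hlt⟩ := hc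
      obtain ⟨J, hJ, hmin⟩ := T.exists_min_image natDegree hT
      refine ⟨J, hJ, hmin, fun B hB => ?_⟩
      have h1 : J.natDegree < D.natDegree := (hmin B0 hB0).trans_lt hlt
      rw [natDegree_sub_eq_left_of_natDegree_lt h1]
      exact (natDegree_sub_le _ _).trans (max_le (h.2 B hB).2.2 h1.le)
    · obtain ⟨J, hJ, hmax⟩ := T.exists_max_image (fun B => (D - B).natDegree) hT
      refine ⟨J, hJ, fun B hB => (h.2 J hJ).2.2.trans (not_lt.1 fun h1 => hc ⟨B, hB, h1⟩),
        fun B hB => ?_⟩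
      have e : B - J = (D - J) - (D - B) := by ring
      rw [e]
      exact (natDegree_sub_le _ _).trans (max_le le_rfl (hmax B hB))
  obtain ⟨J, hJ, h1, h2⟩ := key
  refine ⟨J, hJ, h1, (h.2 J hJ).1, fun B hB => ?_⟩
  simp only [nw, mem_filter, mem_image] at hB
  obtain ⟨⟨B, hB, rfl⟩, h0⟩ := hB
  rw [sub_sub_sub_cancel_right]
  exact ⟨(h.2 B hB).1, by omega, h2 B hB⟩

theorem wt_step {m : ℕ} (A : (RR m)[X]) (S : Finset (RR m)[X]) (J : (RR (m + 2))[X])
    (hJ : J ∈ dbl A S) (hmin : ∀ B ∈ dbl A S, J.natDegree ≤ B.natDegree) (h1 : 1 ≤ J.natDegree) :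
    wt (sh (uu m) A - J) (nw (dbl A S) J) J.natDegree < wt A S J.natDegree ∧
      ∀ k, J.natDegree < k → wt (sh (uu m) A - J) (nw (dbl A S) J) k ≤ wt A S k := by
  classical
  have hU : ∀ B ∈ insert (sh (uu m) A) (dbl A S), J.natDegree ≤ B.natDegree ∧
      B.leadingCoeff ∈ (((insert A S).filter fun B' => B'.natDegree = B.natDegree).image
        leadingCoeff).image (io m) := by
    intro B hB
    have : ∃ r, ∃ B' ∈ insert A S, B = sh r B' := by
      simp only [dbl, mem_insert, mem_union, mem_image] at hB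
      rcases hB with rfl | rfl | ⟨B, hB, rfl⟩ | ⟨B, hB, rfl⟩
      · exact ⟨_, A, mem_insert_self _ _, rfl⟩
      · exact ⟨_, A, mem_insert_self _ _, rfl⟩
      · exact ⟨_, B, mem_insert_of_mem hB, rfl⟩
      · exact ⟨_, B, mem_insert_of_mem hB, rfl⟩
    refine ⟨?_, ?_⟩
    · rcases mem_insert.1 hB with rfl | hB
      · have := hmin (sh (vv m) A) (by simp [dbl])
        rwa [sh_deg, ← sh_deg (uu m)] at this
      · exact hmin B hB
    · obtain ⟨r, B', hB', rfl⟩ := this
      rw [sh_lc, sh_deg]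
      exact mem_image_of_mem _ (mem_image_of_mem _ (mem_filter.2 ⟨hB', rfl⟩))
  have hV : ∀ B ∈ insert (sh (uu m) A - J) (nw (dbl A S) J),
      ∃ B' ∈ insert (sh (uu m) A) (dbl A S), B = B' - J := by
    intro B hB
    rcases mem_insert.1 hB with rfl | hB
    · exact ⟨_, mem_insert_self _ _, rfl⟩
    · simp only [nw, mem_filter, mem_image] at hB
      obtain ⟨B', hB', rfl⟩ := hB.1
      exact ⟨B', mem_insert_of_mem hB', rfl⟩
  refine ⟨?_, fun k hk => ?_⟩
  · have hJm := (hU J (mem_insert_of_mem hJ)).2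
    refine lt_of_le_of_lt (card_le_card (t := ((((((insert A S).filter
      fun B' => B'.natDegree = J.natDegree).image leadingCoeff).image (io m)).erase
        J.leadingCoeff).image (· - J.leadingCoeff))) fun c hc => ?_) ?_
    · obtain ⟨B, hB, rfl⟩ := mem_image.1 hc
      obtain ⟨hB, hd⟩ := mem_filter.1 hB
      obtain ⟨B', hB', rfl⟩ := hV B hB
      obtain ⟨a1, a2⟩ := hU B' hB'
      have a3 : B'.natDegree = J.natDegree := by
        rcases a1.eq_or_lt with a | a
        · exact a.symm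
        · rw [natDegree_sub_eq_left_of_natDegree_lt a] at hd
          exact hd
      have a4 : (B' - J).leadingCoeff = B'.leadingCoeff - J.leadingCoeff := by
        rw [leadingCoeff, hd, coeff_sub, leadingCoeff, a3, leadingCoeff]
      have a5 : (B' - J).leadingCoeff ≠ 0 := by
        intro h0
        rw [leadingCoeff_eq_zero.1 h0, natDegree_zero] at hd
        omega
      rw [a3] at a2
      rw [a4] at a5 ⊢
      exact mem_image_of_mem _ (mem_erase.2 ⟨sub_ne_zero.1 a5, a2⟩)
    · exact lt_of_le_of_lt card_image_le ((card_erase_lt_of_mem hJm).trans_le card_image_le)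
  · refine le_trans (card_le_card (t := ((((insert A S).filter
      fun B' => B'.natDegree = k).image leadingCoeff).image (io m))) fun c hc => ?_) card_image_le
    obtain ⟨B, hB, rfl⟩ := mem_image.1 hc
    obtain ⟨hB, hd⟩ := mem_filter.1 hB
    obtain ⟨B', hB', rfl⟩ := hV B hB
    obtain ⟨-, a2⟩ := hU B' hB'
    have a0 : J.natDegree < B'.natDegree := by
      by_contra hc
      have := (natDegree_sub_le B' J).trans (max_le (not_lt.1 hc) le_rfl)
      omega
    rw [natDegree_sub_eq_left_of_natDegree_lt a0] at hd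
    rw [leadingCoeff_sub_of_degree_lt (degree_lt_degree a0), ← hd]
    exact a2

theorem wf_wt (d : ℕ) : WellFounded fun w' w : ℕ → ℕ =>
    ∃ j ≤ d, w' j < w j ∧ ∀ k, j < k → w' k ≤ w k := by
  have h := Pi.Lex.wellFounded (ι := Fin (d + 1)) (α := fun _ => ℕ) (· > ·)
    (s := fun _ => (· < ·)) fun _ => wellFounded_lt
  refine Subrelation.wf ?_ (InvImage.wf (fun (w : ℕ → ℕ) (i : Fin (d + 1)) => w i) h)
  rintro w' w ⟨j, hj, h1, h2⟩
  obtain ⟨i, hi, hmax⟩ := (univ.filter fun i : Fin (d + 1) => w' i < w i).exists_max_image id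
    ⟨⟨j, by omega⟩, by simpa using h1⟩
  refine ⟨i, fun k hk => le_antisymm (h2 k ?_) (not_lt.1 fun hc => ?_), by simpa using hi⟩
  · have : (⟨j, by omega⟩ : Fin (d + 1)) ≤ i := hmax _ (by simpa using h1)
    exact lt_of_le_of_lt this hk
  · exact absurd (hmax k (by simpa using hc)) (not_le.2 hk)

end

end Pool.Agent.Lib.MP_10e396_an.Pet
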