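import Pool.Agent.Lib.MP_10e396_an.PetA
import Pool.Agent.Lib.MP_10e396_an.PetB

/-! The PET induction. -/

set_option autoImplicit false

namespace Pool.Agent.Lib.MP_10e396_an

open Finset Polynomial ComplexConjugate

noncomputable section

namespace Pet

def ph (M : ℕ) {m H : ℕ} (t : Fin m → Fin H) : RR m →+* ZMod M :=
  (Int.castRingHom (ZMod M)).comp (MvPolynomial.eval fun i => ((t i : ℕ) : ℤ))

def ev (M : ℕ) {m H : ℕ} (t : Fin m → Fin H) (n : ℕ) (B : (RR m)[X]) : ZMod M :=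
  eval₂ (ph M t) (n : ZMod M) B

theorem ev_sub (M : ℕ) {m H : ℕ} (t : Fin m → Fin H) (n : ℕ) (A B : (RR m)[X]) :
    ev M t n (A - B) = ev M t n A - ev M t n B := eval₂_sub _

theorem ev_lin (M : ℕ) {m H : ℕ} (t : Fin m → Fin H) (n : ℕ) (B : (RR m)[X])
    (h : B.natDegree ≤ 1) :
    ev M t n B = ph M t (B.coeff 1) * (n : ZMod M) + ph M t (B.coeff 0) := by
  conv_lhs => rw [eq_X_add_C_of_natDegree_le_one h]
  simp [ev, eval₂_add, eval₂_mul]

theorem ev_const (M : ℕ) {m H : ℕ} (t : Fin m → Fin H) (n : ℕ) (B : (RR m)[X])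
    (h : B.natDegree = 0) : ev M t n B = ev M t 0 B := by
  rw [eq_C_of_natDegree_eq_zero h]
  simp [ev]

theorem ev_sh (M : ℕ) {m H : ℕ} (t : Fin (m + 2) → Fin H) (n : ℕ) (j : Fin (m + 2))
    (B : (RR m)[X]) :
    ev M t n (sh (MvPolynomial.X j) B) = ev M (fun i : Fin m => t i.succ.succ) (n + t j) B := by
  have e : (ph M t).comp (io m) = ph M fun i : Fin m => t i.succ.succ := by
    refine MvPolynomial.ringHom_ext (fun r => ?_) fun i => ?_
    · simp
    · simp [ph, io]
  rw [ev, sh, taylor_apply, eval₂_comp, eval₂_map, e, ev]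
  congr 1
  simp [ph, eval₂_add]

def eqv (m H : ℕ) : (Fin (m + 2) → Fin H) ≃ Fin H × Fin H × (Fin m → Fin H) where
  toFun t := (t 0, t (Fin.succ 0), fun i => t i.succ.succ)
  invFun p := Fin.cons p.1 (Fin.cons p.2.1 p.2.2)
  left_inv t := by
    funext i
    refine Fin.cases rfl (fun j => Fin.cases rfl (fun k => rfl) j) i
  right_inv p := rfl

/-- products of bounded functions along the polynomials of `S` -/
def Mg {G P : Type} [Add G] (S : Finset P) (e : ℕ → P → G) (F : G → ℕ → ℂ) : Prop :=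
  ∃ (b : G → ℂ) (f : P → G → ℂ), (∀ x, ‖b x‖ ≤ 1) ∧ (∀ B x, ‖f B x‖ ≤ 1) ∧
    ∀ x n, F x n = b x * ∏ B ∈ S, f B (x + e n B)

theorem Mg.mul {G P : Type} [Add G] {S : Finset P} {e : ℕ → P → G} {F F' : G → ℕ → ℂ}
    (h : Mg S e F) (h' : Mg S e F') : Mg S e fun x n => F x n * F' x n := by
  obtain ⟨b, f, h1, h2, h3⟩ := h
  obtain ⟨b', f', h1', h2', h3'⟩ := h'
  refine ⟨fun x => b x * b' x, fun B x => f B x * f' B x, fun x => nm_mul (h1 x) (h1' x),
    fun B x => nm_mul (h2 B x) (h2' B x), fun x n => ?_⟩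
  simp only [h3, h3', Finset.prod_mul_distrib]
  ring

theorem mg_prod {G P ι : Type} [Add G] {S : Finset P} {e : ℕ → P → G} (s : Finset ι)
    (F : ι → G → ℕ → ℂ) (h : ∀ i ∈ s, Mg S e (F i)) : Mg S e fun x n => ∏ i ∈ s, F i x n := by
  classical
  induction s using Finset.induction_on with
  | empty => exact ⟨fun _ => 1, fun _ _ => 1, by simp, by simp, by simp⟩
  | insert a s ha ih =>
    simp only [Finset.prod_insert ha]
    exact (h a (mem_insert_self _ _)).mul (ih fun i hi => h i (mem_insert_of_mem hi))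

theorem mg_one {G P : Type} [Add G] {S : Finset P} {e : ℕ → P → G} (φ : G → ℂ)
    (hφ : ∀ x, ‖φ x‖ ≤ 1) (B : P) (h : B ∈ S ∨ ∀ n, e n B = e 0 B) :
    Mg S e fun x n => φ (x + e n B) := by
  classical
  rcases h with h | h
  · refine ⟨fun _ => 1, fun B' x => if B' = B then φ x else 1, by simp, fun B' x => ?_,
      fun x n => ?_⟩
    · dsimp only
      split_ifs
      · exact hφ x
      · simp
    · simp [Finset.prod_ite_eq', h]
  · exact ⟨fun x => φ (x + e 0 B), fun _ _ => 1, fun x => hφ _, by simp, fun x n => by simp [h n]⟩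

def Ctl (d : ℕ) {m : ℕ} (A : (RR m)[X]) (S : Finset (RR m)[X]) : Prop :=
  ∃ (m' l : ℕ) (c : Fin l → RR m') (C : ℕ), 1 ≤ l ∧
    (∀ j, c j ≠ 0 ∧ (c j).IsHomogeneous (d - 1)) ∧
    ∀ (M : ℕ) [NeZero M] (N H : ℕ) (δ : ℝ) (g : ZMod M → ℂ)
      (f : (Fin m → Fin H) → (RR m)[X] → ZMod M → ℂ), 1 ≤ H → 0 < δ → δ ≤ 1 / 2 →
      (H : ℝ) ≤ δ ^ C * N → (∀ x, ‖g x‖ ≤ 1) → (∀ t B x, ‖f t B x‖ ≤ 1) →
      δ * (Fintype.card (Fin m → Fin H) * M) ≤ ∑ t, ∑ x,
        ‖av N fun n => g (x + ev M t n A) * ∏ B ∈ S, f t B (x + ev M t n B)‖ →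
      δ ^ C * (H : ℝ) ^ m' ≤
        ∑ t : Fin m' → Fin H, Box (List.ofFn fun j => dirm H (ph M t (c j))) g

theorem ctl_step {d m : ℕ} (A : (RR m)[X]) (S : Finset (RR m)[X]) (J : (RR (m + 2))[X])
    (h : Ctl d (sh (uu m) A - J) (nw (dbl A S) J)) : Ctl d A S := by
  obtain ⟨m', l, c, C, hl, hc, h⟩ := h
  refine ⟨m', l, c, 4 * C + 3, hl, hc, fun M _ N H δ g f hH h0 h1 hN hg hf hs => ?_⟩
  have hv := vdc2 N H δ (fun t x n => g (x + ev M t n A) * ∏ B ∈ S, f t B (x + ev M t n B))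
    (fun t x n => nm_mul (hg _) (nm_prod _ _ fun i => hf _ _ _)) hH h0 h1
    (hN_le h0 h1 (by omega) hN) hs fun p n => ev M ((eqv m H).symm p) n J
  have hm : ∀ t : Fin (m + 2) → Fin H, ∀ B ∈ dbl A S,
      B - J ∈ nw (dbl A S) J ∨ ∀ n, ev M t n (B - J) = ev M t 0 (B - J) := by
    intro t B hB
    by_cases hd : (B - J).natDegree = 0
    · exact Or.inr fun n => ev_const M t n _ hd
    · refine Or.inl ?_
      simp only [nw, mem_filter, mem_image]
      exact ⟨⟨B, hB, rfl⟩, hd⟩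
  have hM : ∀ t : Fin (m + 2) → Fin H, Mg (nw (dbl A S) J) (ev M t) fun x n =>
      conj (g (x + ev M t n (sh (vv m) A - J))) *
        ∏ B ∈ S, (f (fun i => t i.succ.succ) B (x + ev M t n (sh (uu m) B - J)) *
          conj (f (fun i => t i.succ.succ) B (x + ev M t n (sh (vv m) B - J)))) := by
    intro t
    refine (mg_one (fun x => conj (g x)) (fun x => nm_conj (hg x)) _ (hm t _ ?_)).mul
      (mg_prod S _ fun B hB => (mg_one _ (hf _ B) _ (hm t _ ?_)).mul
        (mg_one (fun x => conj (f (fun i => t i.succ.succ) B x)) (fun x => nm_conj (hf _ B x)) _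
          (hm t _ ?_)))
    · simp only [dbl, mem_insert, true_or]
    · simp only [dbl, mem_insert, mem_union, mem_image]
      exact Or.inr (Or.inl ⟨B, hB, rfl⟩)
    · simp only [dbl, mem_insert, mem_union, mem_image]
      exact Or.inr (Or.inr ⟨B, hB, rfl⟩)
  choose b f' hb hf' he using hM
  have key := h M N H (δ ^ 4) g f' hH (by positivity) (pw4 h0 h1)
    (by rw [← pow_mul]; exact hN_le h0 h1 (by omega) hN) hg hf' (by
      rw [Fintype.card_congr (eqv m H)]
      refine hv.trans ?_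
      rw [← (eqv m H).sum_comp]
      refine Finset.sum_le_sum fun t _ => le_trans (le_of_eq ?_) (re_le N (b t) _ (hb t))
      congr 1
      refine Finset.sum_congr rfl fun x _ => ?_
      congr 1
      funext n
      rw [mul_left_comm, ← he t x n, Equiv.symm_apply_apply]
      have e : ∀ (j : Fin (m + 2)) (B : (RR m)[X]), x + ev M t n (sh (MvPolynomial.X j) B - J) =
          x - ev M t n J + ev M (fun i : Fin m => t i.succ.succ) (n + t j) B := by
        intro j B
        rw [ev_sub, ev_sh]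
        ring
      simp only [uu, vv, e, eqv, Equiv.coe_fn_mk, map_mul, map_prod, Finset.prod_mul_distrib]
      ring)
  refine le_trans (mul_le_mul_of_nonneg_right ?_ (by positivity)) key
  rw [← pow_mul]
  exact pw_le h0 h1 (by omega)

theorem ctl_lin {d m : ℕ} (A : (RR m)[X]) (S : Finset (RR m)[X]) (h : Inv d A S)
    (h1 : A.natDegree = 1) : Ctl d A S := by
  obtain ⟨C, hC⟩ := lin S.card
  have hg : ∀ B : (RR m)[X], Good d B → B.natDegree ≤ 1 →
      B.coeff 1 ≠ 0 ∧ (B.coeff 1).IsHomogeneous (d - 1) := by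
    intro B hB hd
    have h2 : B.natDegree = 1 := le_antisymm hd hB.1
    have h3 := hB.lc_ne
    have h4 := hB.2.2
    rw [leadingCoeff, h2] at h3 h4
    exact ⟨h3, h4⟩
  have hd : ∀ i : Fin S.card, (S.equivFin.symm i : (RR m)[X]).natDegree ≤ 1 := fun i =>
    h1 ▸ (h.2 _ (S.equivFin.symm i).2).2.2
  refine ⟨m, S.card + 1, Fin.cons (A.coeff 1) fun i => (A - S.equivFin.symm i).coeff 1, C,
    by omega, fun j => Fin.cases (hg A h.1 h1.le) (fun i => hg _ (h.2 _ (S.equivFin.symm i).2).1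
      ((natDegree_sub_le _ _).trans (max_le h1.le (hd i)))) j,
    fun M _ N H δ g f hH h0 h2 hN hg' hf hs => ?_⟩
  have key := hC M (Fin m → Fin H) N H δ (fun t => ph M t (A.coeff 1))
    (fun i t => ph M t ((S.equivFin.symm i : (RR m)[X]).coeff 1))
    (fun t x => g (x + ph M t (A.coeff 0)))
    (fun i t x => f t (S.equivFin.symm i) (x + ph M t ((S.equivFin.symm i : (RR m)[X]).coeff 0)))
    hH h0 h2 hN (fun t x => hg' _) (fun i t x => hf _ _ _) (hs.trans (le_of_eq (by
      refine Finset.sum_congr rfl fun t _ => Finset.sum_congr rfl fun x _ => ?_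
      congr 2
      funext n
      rw [← Finset.prod_coe_sort S, ← S.equivFin.symm.prod_comp, ev_lin M t n A h1.le, add_assoc]
      congr 1
      exact Finset.prod_congr rfl fun i _ => by rw [ev_lin M t n _ (hd i), add_assoc])))
  refine le_trans (le_of_eq (by simp)) (key.trans (le_of_eq ?_))
  refine Finset.sum_congr rfl fun t _ => ?_
  rw [box_shift, List.ofFn_succ]
  simp only [Fin.cons_zero, Fin.cons_succ, coeff_sub, map_sub]

theorem ctl_all (d : ℕ) (w : ℕ → ℕ) : ∀ (m : ℕ) (A : (RR m)[X]) (S : Finset (RR m)[X]),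
    wt A S = w → Inv d A S → Ctl d A S := by
  induction w using (wf_wt d).induction with
  | _ w ih =>
    rintro m A S rfl h
    rcases h.1.1.eq_or_lt with h1 | h2
    · exact ctl_lin A S h h1.symm
    have hI := inv_dbl h h2
    obtain ⟨J, hJ, hmin, hI'⟩ := choose_J hI ⟨sh (vv m) A, by simp [dbl]⟩
    obtain ⟨a1, a2⟩ := wt_step A S J hJ hmin (hI.2 J hJ).2.1
    exact ctl_step A S J (ih _ ⟨_, (hI.2 J hJ).2.2.trans hI.1.2.1, a1, a2⟩ _ _ _ rfl hI')

end Pet

open Pet in
theorem stPet : StPet := by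
  intro P hP
  have hinj : Function.Injective (Int.castRingHom (RR 0)) := (Int.castRingHom (RR 0)).injective_int
  have hd : (P.map (Int.castRingHom (RR 0))).natDegree = P.natDegree :=
    natDegree_map_eq_of_injective hinj P
  have hl : (P.map (Int.castRingHom (RR 0))).leadingCoeff.IsHomogeneous 0 := by
    rw [leadingCoeff_map_of_injective hinj]
    simpa using MvPolynomial.isHomogeneous_C (Fin 0) P.leadingCoeff
  have hX : (X : (RR 0)[X]).natDegree < (P.map (Int.castRingHom (RR 0))).natDegree := by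
    rw [hd, natDegree_X]; omega
  have hI : Pet.Inv P.natDegree (P.map (Int.castRingHom (RR 0))) {X} := by
    refine ⟨⟨by omega, hd.le, by rwa [hd, Nat.sub_self]⟩, fun B hB => ?_⟩
    rw [mem_singleton.1 hB]
    refine ⟨?_, natDegree_X.ge, hX.le⟩
    unfold Good
    rw [natDegree_sub_eq_left_of_natDegree_lt hX,
      leadingCoeff_sub_of_degree_lt (degree_lt_degree hX), hd, Nat.sub_self]
    exact ⟨by omega, le_rfl, hl⟩
  obtain ⟨m, l, c, C, h1, h2, h3⟩ := ctl_all _ _ _ _ _ rfl hI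
  refine ⟨m, l, c, C, h1, h2, fun M _ N H δ h f g hH h0 hδ hN hh hf hg hs => ?_⟩
  refine h3 M N H δ g (fun _ _ => f) hH h0 hδ hN hg (fun _ _ => hf) ?_
  rw [Fintype.card_unique, Fintype.sum_unique, Nat.cast_one, one_mul]
  refine hs.trans ((norm_sum_le _ _).trans (Finset.sum_le_sum fun x _ => ?_))
  rw [norm_mul]
  refine (mul_le_of_le_one_left (norm_nonneg _) (hh x)).trans (le_of_eq ?_)
  unfold AA
  congr 2
  funext n
  have e1 : ev M (default : Fin 0 → Fin H) n (P.map (Int.castRingHom (RR 0))) = pe P n := by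
    rw [ev, eval₂_map, RingHom.ext_int (RingHom.comp _ _) (Int.castRingHom (ZMod M)), pe]
    simp
  have e2 : ev M (default : Fin 0 → Fin H) n X = pe X n := by simp [ev, pe]
  rw [Finset.prod_singleton, e1, e2, mul_comm]

end

end Pool.Agent.Lib.MP_10e396_an
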