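import Pool.Agent.Lib.MP_10e396_an.Spec

/-! Burkholder-Rosenthal inequality, Khintchine inequalities, square functions. -/

set_option autoImplicit false

namespace Pool.Agent.Lib.MP_10e396_an

open Finset

namespace Pb

section br

variable {E : Type} [NormedAddCommGroup E] [InnerProductSpace ℝ E]

lemma pw (q : ℕ) : ∃ C : ℝ, 0 ≤ C ∧ ∀ m g t N : ℝ, 0 ≤ m → 0 ≤ g → |t| ≤ m * g → 0 ≤ N →
    N = m ^ 2 + 2 * t + g ^ 2 →
    N ^ (q + 1) ≤ m ^ (2 * (q + 1)) + 2 * (q + 1) * m ^ (2 * q) * t + C * g ^ 2 * (m + g) ^ (2 * q) := by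
  induction q with
  | zero =>
    refine ⟨1, zero_le_one, fun m g t N _ _ _ _ hN => ?_⟩
    simp [hN]
  | succ q ih =>
    obtain ⟨C, hC, h⟩ := ih
    refine ⟨C + 4 * (q + 1) + 1, by positivity, fun m g t N hm hg ht hN0 hN => ?_⟩
    have h1 := h m g t N hm hg ht hN0 hN
    have ht' := abs_le.mp ht
    have hNle : N ≤ (m + g) ^ 2 := by nlinarith [ht'.2]
    have h2 : N ^ (q + 1 + 1) ≤ (m ^ (2 * (q + 1)) + 2 * (q + 1) * m ^ (2 * q) * t +
        C * g ^ 2 * (m + g) ^ (2 * q)) * N := by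
      rw [pow_succ]; exact mul_le_mul_of_nonneg_right h1 hN0
    have e1 : m ^ (2 * (q + 1)) = m ^ (2 * q) * m ^ 2 := by ring
    have e2 : m ^ (2 * (q + 1 + 1)) = m ^ (2 * q) * m ^ 4 := by ring
    have e3 : (m + g) ^ (2 * (q + 1)) = (m + g) ^ (2 * q) * (m + g) ^ 2 := by ring
    have hab : m ^ (2 * q) ≤ (m + g) ^ (2 * q) := pow_le_pow_left₀ hm (by linarith) _
    have ha : 0 ≤ m ^ (2 * q) := by positivity
    have hb : 0 ≤ (m + g) ^ (2 * q) := by positivity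
    rw [e1] at h2
    rw [e1, e2, e3]
    generalize m ^ (2 * q) = a at *
    generalize (m + g) ^ (2 * q) = b at *
    have hq : (0 : ℝ) ≤ q + 1 := by positivity
    have k1 : C * g ^ 2 * b * N ≤ C * g ^ 2 * (b * (m + g) ^ 2) := by
      rw [mul_assoc (C * g ^ 2)]
      exact mul_le_mul_of_nonneg_left (mul_le_mul_of_nonneg_left hNle hb) (by positivity)
    have k2 : t * (2 * t + g ^ 2) ≤ 2 * g ^ 2 * (m + g) ^ 2 := by
      have : t ^ 2 ≤ (m * g) ^ 2 := sq_le_sq' ht'.1 ht'.2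
      have h3 : t * g ^ 2 ≤ m * g * g ^ 2 := mul_le_mul_of_nonneg_right ht'.2 (by positivity)
      have h4 : 0 ≤ m * g * g ^ 2 := by positivity
      have h5 : 0 ≤ g ^ 4 := by positivity
      nlinarith
    have k3 : a * (t * (2 * t + g ^ 2)) ≤ b * (2 * g ^ 2 * (m + g) ^ 2) :=
      (mul_le_mul_of_nonneg_left k2 ha).trans (mul_le_mul_of_nonneg_right hab (by positivity))
    have k4 : a * m ^ 2 * g ^ 2 ≤ g ^ 2 * (b * (m + g) ^ 2) := by
      have : m ^ 2 ≤ (m + g) ^ 2 := pow_le_pow_left₀ hm (by linarith) _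
      have := mul_le_mul hab this (by positivity) hb
      nlinarith [sq_nonneg g]
    have k5 := mul_le_mul_of_nonneg_left k3 hq
    push_cast
    calc N ^ (q + 1 + 1) ≤ _ := h2
      _ = a * m ^ 4 + 2 * (q + 1 + 1) * (a * m ^ 2) * t + a * m ^ 2 * g ^ 2 +
          2 * ((q + 1) * (a * (t * (2 * t + g ^ 2)))) + C * g ^ 2 * b * N := by rw [hN]; ring
      _ ≤ _ := by nlinarith

lemma pw' (q : ℕ) : ∃ C : ℝ, 0 < C ∧ ∀ m g t N : ℝ, 0 ≤ m → 0 ≤ g → |t| ≤ m * g → 0 ≤ N →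
    N ^ 2 = m ^ 2 + 2 * t + g ^ 2 →
    N ^ (2 * (q + 1)) ≤ m ^ (2 * (q + 1)) + 2 * (q + 1) * m ^ (2 * q) * t +
      C * (m ^ (2 * q) * g ^ 2) + C * g ^ (2 * (q + 1)) := by
  obtain ⟨C, hC, h⟩ := pw q
  refine ⟨C * 2 ^ (2 * q - 1) + 1, by positivity, fun m g t N hm hg ht hN0 hN => ?_⟩
  have h1 := h m g t (N ^ 2) hm hg ht (by positivity) hN
  rw [← pow_mul] at h1
  have h2 := add_pow_le hm hg (2 * q)
  have h3 := mul_le_mul_of_nonneg_left h2 (show 0 ≤ C * g ^ 2 by positivity)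
  have e : g ^ (2 * (q + 1)) = g ^ (2 * q) * g ^ 2 := by ring
  have h4 : 0 ≤ m ^ (2 * q) * g ^ 2 := by positivity
  have h5 : 0 ≤ g ^ (2 * q) * g ^ 2 := by positivity
  rw [e]
  nlinarith

lemma jensen {A : Type} [Fintype A] [Nonempty A] (M : E) (G : A → E) (h : ∑ a, G a = 0) (p : ℕ) :
    (Fintype.card A : ℝ) * ‖M‖ ^ p ≤ ∑ a, ‖M + G a‖ ^ p := by
  rcases p with _ | n
  · simp
  have hc : (0 : ℝ) < Fintype.card A := by exact_mod_cast Fintype.card_pos
  have h1 : (Fintype.card A : ℝ) * ‖M‖ ≤ ∑ a, ‖M + G a‖ := by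
    have e : ∑ a, (M + G a) = (Fintype.card A : ℝ) • M := by
      rw [sum_add_distrib, h, add_zero, sum_const, card_univ, Nat.cast_smul_eq_nsmul]
    have := norm_sum_le (univ : Finset A) fun a => M + G a
    rwa [e, norm_smul, Real.norm_of_nonneg hc.le] at this
  have h2 := pow_sum_le_card_mul_sum_pow (s := (univ : Finset A)) (f := fun a => ‖M + G a‖)
    (fun _ _ => norm_nonneg _) n
  have h3 := (pow_le_pow_left₀ (by positivity) h1 (n + 1)).trans h2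
  rw [card_univ, mul_pow, pow_succ (Fintype.card A : ℝ), mul_assoc] at h3
  exact le_of_mul_le_mul_left h3 (by positivity)

end br

end Pb

theorem stBr : StBr := by
  intro r hr
  obtain ⟨q, rfl⟩ : ∃ q, r = q + 1 := ⟨r - 1, by omega⟩
  obtain ⟨C, hC, hpw⟩ := Pb.pw' q
  refine ⟨2 * (C * (2 * C) ^ q) + 2 * C, by positivity, ?_⟩
  intro X A E _ _ _ _ _ n τ G v h1 h2 h3 h4 h5
  have hc : (0 : ℝ) < Fintype.card A := by exact_mod_cast Fintype.card_pos
  have hv : ∀ k < n, ∀ x, 0 ≤ v k x := fun k hk x =>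
    nonneg_of_mul_nonneg_right ((sum_nonneg fun _ _ => by positivity).trans (h5 k hk x)) hc
  have hM : ∀ k < n, ∀ a x, ∑ j ∈ range (k + 1), G j (τ k a x) =
      ∑ j ∈ range k, G j x + G k (τ k a x) := fun k hk a x => by
    rw [sum_range_succ]
    congr 1
    exact sum_congr rfl fun j hj => h2 j k (mem_range.mp hj) hk a x
  have hV : ∀ k < n, ∀ a x, ∑ j ∈ range (k + 1), v j (τ k a x) = ∑ j ∈ range (k + 1), v j x :=
    fun k hk a x => sum_congr rfl fun j hj => h4 j k (Nat.lt_succ_iff.mp (mem_range.mp hj)) hk a x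
  have key : ∀ k ≤ n, ∑ x, ‖∑ j ∈ range k, G j x‖ ^ (2 * (q + 1)) ≤
      C * ∑ x, ‖∑ j ∈ range k, G j x‖ ^ (2 * q) * ∑ j ∈ range k, v j x +
        C * ∑ j ∈ range k, ∑ x, ‖G j x‖ ^ (2 * (q + 1)) := by
    intro k
    induction k with
    | zero => intro _; simp
    | succ k ih =>
      intro hk
      have hk' : k < n := hk
      have ih' := ih hk'.le
      have s1 : ∑ x, ‖∑ j ∈ range (k + 1), G j x‖ ^ (2 * (q + 1)) ≤
          ∑ x, ‖∑ j ∈ range k, G j x‖ ^ (2 * (q + 1)) +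
            C * ∑ x, ‖∑ j ∈ range k, G j x‖ ^ (2 * q) * v k x +
            C * ∑ x, ‖G k x‖ ^ (2 * (q + 1)) := by
        refine le_of_mul_le_mul_left ?_ hc
        rw [← h1 k hk' fun x => ‖∑ j ∈ range (k + 1), G j x‖ ^ (2 * (q + 1)),
          mul_add (Fintype.card A : ℝ), mul_add (Fintype.card A : ℝ),
          mul_left_comm _ C (∑ x, ‖G k x‖ ^ (2 * (q + 1))),
          ← h1 k hk' fun x => ‖G k x‖ ^ (2 * (q + 1)), mul_sum, mul_sum, mul_sum, mul_sum,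
          ← sum_add_distrib, ← sum_add_distrib]
        refine sum_le_sum fun x _ => ?_
        simp only [hM k hk']
        have h5' := h5 k hk' x
        have h3' := h3 k hk' x
        generalize ∑ j ∈ range k, G j x = M at *
        have p1 : ∀ a, ‖M + G k (τ k a x)‖ ^ (2 * (q + 1)) ≤ ‖M‖ ^ (2 * (q + 1)) +
            2 * (q + 1) * ‖M‖ ^ (2 * q) * inner ℝ M (G k (τ k a x)) +
            C * (‖M‖ ^ (2 * q) * ‖G k (τ k a x)‖ ^ 2) + C * ‖G k (τ k a x)‖ ^ (2 * (q + 1)) :=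
          fun a => hpw _ _ _ _ (norm_nonneg _) (norm_nonneg _) (abs_real_inner_le_norm _ _)
            (norm_nonneg _) (norm_add_sq_real _ _)
        refine (sum_le_sum fun a _ => p1 a).trans ?_
        rw [sum_add_distrib, sum_add_distrib, sum_add_distrib, ← mul_sum, ← mul_sum, ← mul_sum,
          ← mul_sum, ← inner_sum, h3', inner_zero_right, sum_const, card_univ, nsmul_eq_mul]
        have := mul_le_mul_of_nonneg_left h5' (show 0 ≤ C * ‖M‖ ^ (2 * q) by positivity)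
        nlinarith
      have s2 : ∑ x, ‖∑ j ∈ range k, G j x‖ ^ (2 * q) * ∑ j ∈ range k, v j x +
          ∑ x, ‖∑ j ∈ range k, G j x‖ ^ (2 * q) * v k x ≤
          ∑ x, ‖∑ j ∈ range (k + 1), G j x‖ ^ (2 * q) * ∑ j ∈ range (k + 1), v j x := by
        refine le_of_mul_le_mul_left ?_ hc
        rw [← h1 k hk' fun x => ‖∑ j ∈ range (k + 1), G j x‖ ^ (2 * q) * ∑ j ∈ range (k + 1), v j x,
          ← sum_add_distrib, mul_sum]
        refine sum_le_sum fun x _ => ?_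
        simp only [hM k hk', hV k hk']
        rw [← sum_mul, ← mul_add, ← sum_range_succ (fun j => v j x), ← mul_assoc]
        exact mul_le_mul_of_nonneg_right (Pb.jensen _ _ (h3 k hk' x) _)
          (sum_nonneg fun j hj => hv j (lt_of_lt_of_le (mem_range.mp hj) hk) x)
      rw [sum_range_succ (fun j => ∑ x, ‖G j x‖ ^ (2 * (q + 1)))]
      have := mul_le_mul_of_nonneg_left s2 hC.le
      nlinarith
  have k1 := key n le_rfl
  have young : C * ∑ x, ‖∑ j ∈ range n, G j x‖ ^ (2 * q) * ∑ j ∈ range n, v j x ≤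
      (∑ x, ‖∑ j ∈ range n, G j x‖ ^ (2 * (q + 1))) / 2 +
        C * (2 * C) ^ q * ∑ x, (∑ j ∈ range n, v j x) ^ (q + 1) := by
    rw [mul_sum, mul_sum, sum_div, ← sum_add_distrib]
    refine sum_le_sum fun x _ => ?_
    have hV0 : 0 ≤ ∑ j ∈ range n, v j x := sum_nonneg fun j hj => hv j (mem_range.mp hj) x
    have hm := norm_nonneg (∑ j ∈ range n, G j x)
    generalize ∑ j ∈ range n, v j x = V at *
    generalize ‖∑ j ∈ range n, G j x‖ = m at *
    rcases le_total (2 * C * V) (m ^ 2) with h | h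
    · have e : m ^ (2 * (q + 1)) = m ^ (2 * q) * m ^ 2 := by ring
      have := mul_le_mul_of_nonneg_left h (show 0 ≤ m ^ (2 * q) by positivity)
      have h0 : 0 ≤ C * (2 * C) ^ q * V ^ (q + 1) := by positivity
      rw [e]; nlinarith
    · have h6 : m ^ (2 * q) ≤ (2 * C) ^ q * V ^ q := by
        rw [pow_mul, ← mul_pow]; exact pow_le_pow_left₀ (by positivity) h _
      have := mul_le_mul_of_nonneg_left h6 (show 0 ≤ C * V by positivity)
      have h0 : 0 ≤ m ^ (2 * (q + 1)) := by positivity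
      rw [pow_succ V]; nlinarith
  have a1 : 0 ≤ ∑ x, (∑ j ∈ range n, v j x) ^ (q + 1) :=
    sum_nonneg fun x _ => pow_nonneg (sum_nonneg fun j hj => hv j (mem_range.mp hj) x) _
  have a2 : 0 ≤ ∑ j ∈ range n, ∑ x, ‖G j x‖ ^ (2 * (q + 1)) := by positivity
  have a3 : 0 ≤ C * (2 * C) ^ q := by positivity
  nlinarith [mul_nonneg a3 a2, mul_nonneg hC.le a1]

namespace Pb

section kh

variable {E I : Type} [SeminormedAddCommGroup E] [Fintype I] [DecidableEq I]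

lemma flip (i : I) (φ : (I → Bool) → ℝ) :
    ∑ ε, φ ε = ∑ ε : I → Bool, φ (Function.update ε i (!ε i)) := by
  have h : Function.Involutive fun ε : I → Bool => Function.update ε i (!ε i) := fun ε => by
    simp
  exact (Equiv.sum_comp h.toPerm φ).symm

/-- signed sum over a finite set -/
def ss (v : I → E) (s : Finset I) (ε : I → Bool) : E := ∑ j ∈ s, if ε j then v j else -v j

lemma ss_step (v : I → E) (s : Finset I) (i : I) (hi : i ∉ s) (φ : E → ℝ) :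
    2 * ∑ ε, φ (ss v (insert i s) ε) = ∑ ε, (φ (ss v s ε + v i) + φ (ss v s ε - v i)) := by
  rw [two_mul]
  nth_rewrite 2 [flip i]
  rw [← sum_add_distrib]
  refine sum_congr rfl fun ε _ => ?_
  have e : ss v s (Function.update ε i (!ε i)) = ss v s ε :=
    sum_congr rfl fun j hj => by rw [Function.update_of_ne (ne_of_mem_of_not_mem hj hi)]
  have e1 : ∀ η, ss v (insert i s) η = ss v s η + if η i then v i else -v i := fun η => by
    rw [ss, sum_insert hi, add_comm]; rfl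
  rw [e1, e1, e, Function.update_self, sub_eq_add_neg]
  cases ε i <;> simp [add_comm]

lemma ss_two (par : ∀ x y : E, ‖x + y‖ ^ 2 + ‖x - y‖ ^ 2 = 2 * (‖x‖ ^ 2 + ‖y‖ ^ 2)) (v : I → E)
    (s : Finset I) : ∑ ε, ‖ss v s ε‖ ^ 2 = 2 ^ Fintype.card I * ∑ j ∈ s, ‖v j‖ ^ 2 := by
  induction s using Finset.induction_on with
  | empty => simp [ss]
  | insert i s hi ih =>
    have h := ss_step v s i hi fun x => ‖x‖ ^ 2
    simp only [par] at h
    rw [← mul_sum, sum_add_distrib, ih, sum_const, card_univ, nsmul_eq_mul] at h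
    rw [sum_insert hi]
    simp only [Fintype.card_fun, Fintype.card_bool, Nat.cast_pow, Nat.cast_ofNat] at h
    linarith

lemma ss_four (par : ∀ x y : E, ‖x + y‖ ^ 2 + ‖x - y‖ ^ 2 = 2 * (‖x‖ ^ 2 + ‖y‖ ^ 2)) (v : I → E)
    (s : Finset I) :
    ∑ ε, ‖ss v s ε‖ ^ 4 ≤ 3 * 2 ^ Fintype.card I * (∑ j ∈ s, ‖v j‖ ^ 2) ^ 2 := by
  induction s using Finset.induction_on with
  | empty => simp [ss]
  | insert i s hi ih =>
    have h := ss_step v s i hi fun x => ‖x‖ ^ 4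
    have p : ∀ x y : E, ‖x + y‖ ^ 4 + ‖x - y‖ ^ 4 ≤
        2 * (‖x‖ ^ 4 + 6 * ‖y‖ ^ 2 * ‖x‖ ^ 2 + ‖y‖ ^ 4) := fun x y => by
      have h1 := par x y
      have h2 : ‖x + y‖ ^ 2 ≤ (‖x‖ + ‖y‖) ^ 2 :=
        pow_le_pow_left₀ (norm_nonneg _) (norm_add_le _ _) _
      have h3 : ‖x - y‖ ^ 2 ≤ (‖x‖ + ‖y‖) ^ 2 :=
        pow_le_pow_left₀ (norm_nonneg _) (norm_sub_le _ _) _
      have e1 : ‖x + y‖ ^ 4 = (‖x + y‖ ^ 2) ^ 2 := by ring
      have e2 : ‖x - y‖ ^ 4 = (‖x - y‖ ^ 2) ^ 2 := by ring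
      rw [e1, e2]
      generalize ‖x + y‖ ^ 2 = a at *
      generalize ‖x - y‖ ^ 2 = b at *
      nlinarith [mul_nonneg (sub_nonneg.mpr h2) (sub_nonneg.mpr h3)]
    have h' := h.trans_le (sum_le_sum fun ε _ => p (ss v s ε) (v i))
    rw [← mul_sum, sum_add_distrib, sum_add_distrib, ← mul_sum, ss_two par, sum_const, card_univ,
      nsmul_eq_mul] at h'
    simp only [Fintype.card_fun, Fintype.card_bool, Nat.cast_pow, Nat.cast_ofNat] at h'
    rw [sum_insert hi]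
    have : (0 : ℝ) ≤ 2 ^ Fintype.card I * ‖v i‖ ^ 4 := by positivity
    nlinarith

omit [Fintype I] [DecidableEq I] in
lemma sg_sum [Module ℝ E] (v : I → E) (s : Finset I) (ε : I → Bool) :
    ∑ j ∈ s, sg (ε j) • v j = ss v s ε :=
  sum_congr rfl fun j _ => by cases ε j <;> simp [sg]

end kh

end Pb

lemma abs_sg (b : Bool) : |sg b| = 1 := by cases b <;> simp [sg]

/-- second moment of a random signed sum, for any norm with the parallelogram law -/
theorem sum_sg_sq_of_par {E I : Type} [SeminormedAddCommGroup E] [Module ℝ E] [Fintype I]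
    [DecidableEq I] (par : ∀ x y : E, ‖x + y‖ ^ 2 + ‖x - y‖ ^ 2 = 2 * (‖x‖ ^ 2 + ‖y‖ ^ 2))
    (v : I → E) :
    ∑ ε : I → Bool, ‖∑ j, sg (ε j) • v j‖ ^ 2 = 2 ^ Fintype.card I * ∑ j, ‖v j‖ ^ 2 := by
  simp only [Pb.sg_sum]; exact Pb.ss_two par v univ

theorem sum_sg_four_of_par {E I : Type} [SeminormedAddCommGroup E] [Module ℝ E] [Fintype I]
    [DecidableEq I] (par : ∀ x y : E, ‖x + y‖ ^ 2 + ‖x - y‖ ^ 2 = 2 * (‖x‖ ^ 2 + ‖y‖ ^ 2))
    (v : I → E) :
    ∑ ε : I → Bool, ‖∑ j, sg (ε j) • v j‖ ^ 4 ≤ 3 * 2 ^ Fintype.card I * (∑ j, ‖v j‖ ^ 2) ^ 2 := by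
  simp only [Pb.sg_sum]; exact Pb.ss_four par v univ

/-- complex inner product space, real scalars -/
theorem sum_sg_sq {E I : Type} [NormedAddCommGroup E] [InnerProductSpace ℂ E] [Fintype I]
    [DecidableEq I] (v : I → E) :
    ∑ ε : I → Bool, ‖∑ j, sg (ε j) • v j‖ ^ 2 = 2 ^ Fintype.card I * ∑ j, ‖v j‖ ^ 2 :=
  sum_sg_sq_of_par (parallelogram_law_with_norm ℂ) v

/-- complex inner product space, complex scalars -/
theorem sum_sg_sq' {E I : Type} [NormedAddCommGroup E] [InnerProductSpace ℂ E] [Fintype I]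
    [DecidableEq I] (v : I → E) :
    ∑ ε : I → Bool, ‖∑ j, (sg (ε j) : ℂ) • v j‖ ^ 2 = 2 ^ Fintype.card I * ∑ j, ‖v j‖ ^ 2 := by
  rw [← Pb.ss_two (parallelogram_law_with_norm ℂ) v univ]
  refine sum_congr rfl fun ε _ => ?_
  have : ∑ j, (sg (ε j) : ℂ) • v j = Pb.ss v univ ε :=
    sum_congr rfl fun j _ => by cases ε j <;> simp [sg]
  rw [this]

theorem stKh : StKh := by
  refine ⟨8, by norm_num, ?_⟩
  intro I J _ _ _ _ b
  have par : ∀ x y : ℂ, ‖x + y‖ ^ 2 + ‖x - y‖ ^ 2 = 2 * (‖x‖ ^ 2 + ‖y‖ ^ 2) :=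
    parallelogram_law_with_norm ℂ
  have e : ∀ (ε : I → Bool) (ε' : J → Bool), ∑ i, ∑ j, (sg (ε i) * sg (ε' j)) • b i j =
      ∑ i, sg (ε i) • ∑ j, sg (ε' j) • b i j := fun ε ε' => by
    simp only [smul_sum, mul_smul]
  simp only [e]
  have m2 : ∑ ε : I → Bool, ∑ ε' : J → Bool, ‖∑ i, sg (ε i) • ∑ j, sg (ε' j) • b i j‖ ^ 2 =
      2 ^ (Fintype.card I + Fintype.card J) * ∑ i, ∑ j, ‖b i j‖ ^ 2 := by
    rw [sum_comm]
    simp only [sum_sg_sq_of_par par]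
    rw [← mul_sum, sum_comm]
    simp only [sum_sg_sq_of_par par]
    rw [← mul_sum, pow_add, mul_assoc]
  have m4 : ∑ ε : I → Bool, ∑ ε' : J → Bool, ‖∑ i, sg (ε i) • ∑ j, sg (ε' j) • b i j‖ ^ 4 ≤
      9 * 2 ^ (Fintype.card I + Fintype.card J) * (∑ i, ∑ j, ‖b i j‖ ^ 2) ^ 2 := by
    rw [sum_comm]
    refine (sum_le_sum fun ε' _ => sum_sg_four_of_par par _).trans ?_
    have h := sum_sg_four_of_par (E := EuclideanSpace ℂ I) (parallelogram_law_with_norm ℂ)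
      fun j : J => WithLp.toLp 2 fun i => b i j
    have e4 : ∀ x : EuclideanSpace ℂ I, ‖x‖ ^ 4 = (∑ i, ‖x i‖ ^ 2) ^ 2 := fun x => by
      rw [← PiLp.norm_sq_eq_of_L2]; ring
    simp only [e4, PiLp.norm_sq_eq_of_L2, WithLp.ofLp_sum, Finset.sum_apply,
      WithLp.ofLp_smul, Pi.smul_apply] at h
    rw [← mul_sum, pow_add, sum_comm (f := fun i j => ‖b i j‖ ^ 2)]
    have := mul_le_mul_of_nonneg_left h (show (0 : ℝ) ≤ 3 * 2 ^ Fintype.card I by positivity)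
    refine this.trans (le_of_eq (by ring))
  have hs : 0 ≤ ∑ i, ∑ j, ‖b i j‖ ^ 2 := by positivity
  obtain ⟨σ, hσ, e2⟩ : ∃ σ : ℝ, 0 ≤ σ ∧ ∑ i, ∑ j, ‖b i j‖ ^ 2 = σ ^ 2 :=
    ⟨√_, Real.sqrt_nonneg _, (Real.sq_sqrt hs).symm⟩
  rw [e2] at m2 m4 ⊢
  rw [Real.sqrt_sq hσ]
  have hS : 0 ≤ ∑ ε : I → Bool, ∑ ε' : J → Bool, ‖∑ i, sg (ε i) • ∑ j, sg (ε' j) • b i j‖ := by
    positivity
  rcases hσ.eq_or_lt with h0 | h0
  · rw [← h0]; linarith
  have p : ∀ a : ℝ, 0 ≤ a → 25 * σ ^ 2 * a ^ 2 ≤ 125 * σ ^ 3 * a + a ^ 4 := fun a ha => by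
    rcases le_total a (5 * σ) with h | h
    · have := mul_le_mul_of_nonneg_left h (show 0 ≤ 25 * σ ^ 2 * a by positivity)
      nlinarith [pow_nonneg ha 4]
    · have h1 : (5 * σ) ^ 2 ≤ a ^ 2 := pow_le_pow_left₀ (by positivity) h _
      have := mul_le_mul_of_nonneg_left h1 (show 0 ≤ a ^ 2 by positivity)
      have h2 : 0 ≤ 125 * σ ^ 3 * a := by positivity
      nlinarith
  have h := sum_le_sum fun (ε : I → Bool) (_ : ε ∈ univ) => sum_le_sum
    fun (ε' : J → Bool) (_ : ε' ∈ univ) =>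
      p _ (norm_nonneg (∑ i, sg (ε i) • ∑ j, sg (ε' j) • b i j))
  simp only [sum_add_distrib, ← mul_sum] at h
  rw [m2] at h
  have hN : (0 : ℝ) < 2 ^ (Fintype.card I + Fintype.card J) := by positivity
  generalize (2 : ℝ) ^ (Fintype.card I + Fintype.card J) = N at *
  refine le_of_mul_le_mul_left ?_ (show 0 < σ ^ 3 by positivity)
  have : 0 ≤ σ ^ 3 * ∑ ε : I → Bool, ∑ ε' : J → Bool,
      ‖∑ i, sg (ε i) • ∑ j, sg (ε' j) • b i j‖ := by positivity
  nlinarith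

theorem stSq : StSq := by
  obtain ⟨C, hC, hK⟩ := stKh
  refine ⟨C, hC, ?_⟩
  intro X _ p s t b V hp h
  have hp0 : 0 < p := by linarith
  have lp0 : ∀ {E : Type} [SeminormedAddCommGroup E] (f : X → E), 0 ≤ ∑ x, ‖f x‖ ^ p :=
    fun f => by positivity
  let ex : ∀ (u : Finset ℕ), (u → Bool) → ℕ → ℝ := fun u ε j => if h : j ∈ u then sg (ε ⟨j, h⟩) else 0
  have ex1 : ∀ u ε j, |ex u ε j| ≤ 1 := fun u ε j => by
    by_cases hj : j ∈ u <;> simp [ex, hj, abs_sg]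
  let S : (s → Bool) × (t → Bool) → X → ℂ := fun z x =>
    ∑ i : s, ∑ j : t, (sg (z.1 i) * sg (z.2 j)) • b i j x
  have hS : ∀ z, lp p (S z) ≤ V := fun z => by
    refine le_of_eq_of_le ?_ (h (ex s z.1) (ex t z.2) (ex1 _ _) (ex1 _ _))
    congr 1
    funext x
    rw [← sum_coe_sort s]
    refine sum_congr rfl fun i _ => ?_
    rw [← sum_coe_sort t]
    refine sum_congr rfl fun j _ => ?_
    simp [ex]
  have hV : 0 ≤ V := le_trans (Real.rpow_nonneg (lp0 _) _) (hS (fun _ => true, fun _ => true))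
  have hS' : ∀ z, ∑ x, ‖S z x‖ ^ p ≤ V ^ p := fun z =>
    (Real.rpow_inv_le_iff_of_pos (lp0 _) hV hp0).mp (hS z)
  have hN : (0 : ℝ) < Fintype.card ((s → Bool) × (t → Bool)) := by exact_mod_cast Fintype.card_pos
  have eN : (2 : ℝ) ^ (Fintype.card s + Fintype.card t) =
      Fintype.card ((s → Bool) × (t → Bool)) := by simp [pow_add]
  refine (Real.rpow_inv_le_iff_of_pos (lp0 _) (by positivity) hp0).mpr ?_
  have pt : ∀ x, (Fintype.card ((s → Bool) × (t → Bool)) : ℝ) *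
      ‖√(∑ j ∈ s, ∑ k ∈ t, ‖b j k x‖ ^ 2)‖ ^ p ≤ C ^ p * ∑ z, ‖S z x‖ ^ p := fun x => by
    have k := hK s t fun i j => b i j x
    rw [eN, ← Fintype.sum_prod_type' (f := fun (ε : s → Bool) (ε' : t → Bool) =>
      ‖∑ i : s, ∑ j : t, (sg (ε i) * sg (ε' j)) • b i j x‖)] at k
    have e : ∑ i : s, ∑ j : t, ‖b i j x‖ ^ 2 = ∑ j ∈ s, ∑ k ∈ t, ‖b j k x‖ ^ 2 := by
      rw [← sum_coe_sort s]
      exact sum_congr rfl fun i _ => sum_coe_sort t fun k => ‖b i k x‖ ^ 2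
    rw [e] at k
    rw [Real.norm_of_nonneg (Real.sqrt_nonneg _)]
    have k1 := Real.rpow_le_rpow (by positivity) k hp0.le
    have k2 := Real.rpow_sum_le_const_mul_sum_rpow_of_nonneg univ (f := fun z => ‖S z x‖) hp
      fun _ _ => norm_nonneg _
    rw [Real.mul_rpow hN.le (Real.sqrt_nonneg _), Real.mul_rpow hC.le (by positivity)] at k1
    rw [card_univ] at k2
    have k3 := k1.trans (mul_le_mul_of_nonneg_left k2 (by positivity))
    generalize (Fintype.card ((s → Bool) × (t → Bool)) : ℝ) = N at *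
    have e1 : N ^ p = N ^ (p - 1) * N := by rw [Real.rpow_sub_one hN.ne']; field_simp
    rw [e1, mul_assoc, mul_left_comm (C ^ p)] at k3
    exact le_of_mul_le_mul_left k3 (by positivity)
  refine le_of_mul_le_mul_left ?_ hN
  rw [mul_sum]
  refine (sum_le_sum fun x _ => pt x).trans ?_
  rw [← mul_sum, sum_comm, Real.mul_rpow hC.le hV, mul_left_comm]
  refine mul_le_mul_of_nonneg_left ?_ (by positivity)
  refine (sum_le_sum fun z _ => hS' z).trans (le_of_eq ?_)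
  rw [sum_const, card_univ, nsmul_eq_mul]

end Pool.Agent.Lib.MP_10e396_an
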