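import Pool.Agent.Lib.MP_10e396_an.SSC

/-! The single scale estimate. -/

set_option autoImplicit false

namespace Pool.Agent.Lib.MP_10e396_an

open Finset Polynomial ComplexConjugate

noncomputable section

namespace SSJ

variable {M : ℕ} [NeZero M]

theorem av_shift {N : ℕ} (m : ℕ) {β : ℕ → ℂ} {D : ℝ} (h : ∀ n, ‖β n‖ ≤ D) :
    ‖av N β - av N fun t => β (m + t)‖ ≤ 2 * m * D / N := by
  have e : ∑ n ∈ range N, β n - ∑ t ∈ range N, β (m + t) =
      ∑ n ∈ range m, β n - ∑ t ∈ range m, β (N + t) := by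
    have h1 := sum_range_add β N m
    have h2 := sum_range_add β m N
    rw [add_comm m N] at h2
    linear_combination h2 - h1
  have b : ∀ γ : ℕ → ℂ, (∀ n, ‖γ n‖ ≤ D) → ‖∑ n ∈ range m, γ n‖ ≤ m * D := fun γ hγ =>
    (norm_sum_le _ _).trans ((sum_le_card_nsmul _ _ D fun n _ => hγ n).trans (by simp))
  rw [av, av, ← smul_sub, e, norm_smul, norm_inv, Real.norm_natCast, div_eq_inv_mul]
  refine mul_le_mul_of_nonneg_left ((norm_sub_le _ _).trans ?_) (by positivity)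
  linarith [b β h, b (fun t => β (N + t)) fun t => h _]

theorem tri_le {h : ZMod M → ℂ} (hh : ∀ x, ‖h x‖ ≤ 1) (f g : ZMod M → ℂ) :
    ‖∑ x, h x * (f x * g x)‖ ≤ lp 2 f * lp 2 g := by
  refine (norm_sum_le _ _).trans (le_trans (sum_le_sum fun x _ => ?_) (sum_mul_le_two f g))
  rw [norm_mul, norm_mul]
  exact mul_le_of_le_one_left (by positivity) (hh x)

theorem piece (hW : StWeyl) (P : ℤ[X]) (hP : 2 ≤ P.natDegree) : ∃ e : ℕ, 4 ≤ e ∧
    ∀ (M : ℕ) [NeZero M] (H H₁ N : ℕ) (θ : ZMod M) (f g h : ZMod M → ℂ), 2 ≤ H₁ →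
      P.leadingCoeff.natAbs ≤ H₁ → H₁ ^ e ≤ H → H ≤ N → Dv M (2 * N ^ P.natDegree) →
      (∀ ξ, ft f ξ ≠ 0 → ab (ξ - θ) < H₁ * (M / N)) →
      Minor H (H * (M / N ^ P.natDegree)) g → (∀ x, ‖h x‖ ≤ 1) →
      ‖∑ x, h x * AA X P N f g x‖ ≤ 9 / (H₁ : ℝ) ^ 3 * lp 2 f * lp 2 g := by
  obtain ⟨C, hC⟩ := weylZ hW (d := P.natDegree) (by omega)
  refine ⟨3 * C + 5 * P.natDegree + 1, by omega, ?_⟩
  intro M _ H H₁ N θ f g h H2 ha hH hHN hD hf hg hh
  have ha1 : 1 ≤ P.leadingCoeff.natAbs :=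
    Int.natAbs_pos.2 (leadingCoeff_ne_zero.2 fun h => by simp [h] at hP)
  have h4 : H₁ ^ 4 ≤ N := (Nat.pow_le_pow_right (by omega) (by omega)).trans (hH.trans hHN)
  have p4 : 0 < H₁ ^ 4 := by positivity
  have N1 : 1 ≤ N := by omega
  obtain ⟨s1, s2, s3, s4⟩ := setup (by omega) N1 hD
  obtain ⟨N₁, hN₁⟩ : ∃ N₁, N₁ = N / H₁ ^ 4 := ⟨_, rfl⟩
  have n1 : 1 ≤ N₁ := hN₁ ▸ Nat.div_pos h4 p4
  have n2 : N₁ * H₁ ^ 4 ≤ N := hN₁ ▸ Nat.div_mul_le_self _ _
  have n3 : N ≤ N₁ * H₁ ^ 5 := by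
    have h1 : N < (N₁ + 1) * H₁ ^ 4 := by
      rw [hN₁, mul_comm]
      exact Nat.lt_mul_div_succ N p4
    calc N ≤ (N₁ + 1) * H₁ ^ 4 := h1.le
      _ ≤ N₁ * H₁ * H₁ ^ 4 := Nat.mul_le_mul_right _ (by nlinarith)
      _ = _ := by ring
  have M0 := Mpos M
  have N0 : (0 : ℝ) < N := by exact_mod_cast N1
  have H2' : (2 : ℝ) ≤ H₁ := by exact_mod_cast H2
  have H0 : (0 : ℝ) < H₁ := by linarith
  have f0 := lp_nonneg 2 f
  have g0 := lp_nonneg 2 g
  have n2' : (N₁ : ℝ) * H₁ ^ 4 ≤ N := by exact_mod_cast n2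
  obtain ⟨β, hβ⟩ : ∃ β : ℕ → ℂ, ∀ n, β n = ∑ x, h x * (f (x + (n : ZMod M)) * g (x + pe P n)) :=
    ⟨_, fun _ => rfl⟩
  have e0 : ∑ x, h x * AA X P N f g x = av N β := by
    simp only [AA, ← av_mul_left, pe_X]
    rw [sum_av]
    exact av_congr fun n _ => (hβ n).symm
  have b0 : ∀ n, ‖β n‖ ≤ lp 2 f * lp 2 g := fun n => by
    rw [hβ]
    refine (tri_le hh _ _).trans (le_of_eq ?_)
    rw [lp_shift, lp_shift]
  have a1 : ‖av N β - av N₁ fun m => av N fun t => β (m + t)‖ ≤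
      1 / (H₁ : ℝ) ^ 3 * (lp 2 f * lp 2 g) := by
    rw [← av_const n1 (av N β), ← av_sub]
    refine norm_av_le' (by positivity) fun m hm => (av_shift m b0).trans ?_
    have hm' : (m : ℝ) ≤ N₁ := by exact_mod_cast hm.le
    rw [mul_div_right_comm]
    refine mul_le_mul_of_nonneg_right ?_ (by positivity)
    rw [div_le_div_iff₀ N0 (by positivity)]
    calc 2 * (m : ℝ) * (H₁ : ℝ) ^ 3 ≤ (H₁ : ℝ) * N₁ * (H₁ : ℝ) ^ 3 := by gcongr
      _ = (N₁ : ℝ) * (H₁ : ℝ) ^ 4 := by ring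
      _ ≤ _ := by linarith
  have a2 : ∀ m < N₁, lp 2 (fun y => f (y + (m : ZMod M)) - ch (θ * (m : ZMod M)) * f y) ≤
      7 / (H₁ : ℝ) ^ 3 * lp 2 f := by
    intro m hm
    refine lp_le_of_ft (by positivity) fun ξ => ?_
    rw [ft_sub, ft_shift, ft_mul, ← sub_mul, norm_mul]
    by_cases h0 : ft f ξ = 0
    · simp [h0]
    refine mul_le_mul_of_nonneg_right ?_ (norm_nonneg _)
    have e : ch (ξ * (m : ZMod M)) - ch (θ * (m : ZMod M)) =
        ch (θ * (m : ZMod M)) * (ch ((ξ - θ) * (m : ZMod M)) - 1) := by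
      rw [mul_sub, ← ch_add, mul_one]
      congr 2
      ring
    rw [e, norm_mul, norm_ch, one_mul]
    refine (norm_ch_sub_one_le _).trans ?_
    have h1 := ab_mul_le (ξ - θ) (m : ℤ)
    rw [Int.cast_natCast, Int.natAbs_natCast] at h1
    have h2 : ab ((ξ - θ) * (m : ZMod M)) * H₁ ^ 3 ≤ M :=
      calc _ ≤ H₁ * (M / N) * N₁ * H₁ ^ 3 :=
            Nat.mul_le_mul_right _ (h1.trans (Nat.mul_le_mul (hf ξ h0).le hm.le))
        _ = M / N * (N₁ * H₁ ^ 4) := by ring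
        _ ≤ M / N * N := Nat.mul_le_mul_left _ n2
        _ = M := s3
    have h3 : (ab ((ξ - θ) * (m : ZMod M)) : ℝ) * H₁ ^ 3 ≤ M := by exact_mod_cast h2
    rw [div_le_div_iff₀ M0 (by positivity)]
    linarith
  have a3 : ∀ t, lp 2 (fun x : ZMod M => av N₁ fun m =>
      ch (θ * (m : ZMod M)) * g (x + pe P (m + t))) ≤ 1 / (H₁ : ℝ) ^ 3 * lp 2 g := by
    intro t
    refine lp_le_of_ft (by positivity) fun ξ => ?_
    rw [ft_av]
    simp only [ft_mul, ft_shift, ← mul_assoc]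
    rw [av_mul_right, norm_mul]
    by_cases h0 : ft g ξ = 0
    · simp [h0]
    refine mul_le_mul_of_nonneg_right ?_ (norm_nonneg _)
    by_contra hc
    obtain ⟨q, q1, q2, q3⟩ := hC M
      (Polynomial.C (θ.val : ℤ) * X + Polynomial.C (ξ.val : ℤ) * taylor (t : ℤ) P) N₁
      ((H₁ : ℝ) ^ 3) P.leadingCoeff ξ
      (natDegree_add_le_of_degree_le
        ((natDegree_C_mul_le _ _).trans (by rw [natDegree_X]; omega))
        ((natDegree_C_mul_le _ _).trans (natDegree_taylor _ _).le))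
      (by rw [coeff_add, coeff_C_mul, coeff_C_mul, coeff_X_of_ne_one (by omega),
        coeff_taylor_natDegree, mul_zero, zero_add]) n1
      (H2'.trans (le_self_pow₀ (by linarith) (by omega))) (by
        rw [← one_div]
        refine (not_le.1 hc).le.trans (le_of_eq ?_)
        congr 2
        funext m
        rw [← ch_add]
        simp only [pe, eval_add, eval_mul, eval_C, eval_X, taylor_eval, Int.cast_add, Int.cast_mul,
          Int.cast_natCast, ZMod.natCast_zmod_val, Nat.cast_add])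
    have q2' : q ≤ H₁ ^ (3 * C) := by
      rw [pow_mul]
      exact_mod_cast q2
    have q4 : q * P.leadingCoeff.natAbs ≤ H :=
      calc _ ≤ H₁ ^ (3 * C) * H₁ := Nat.mul_le_mul q2' ha
        _ = H₁ ^ (3 * C + 1) := (pow_succ _ _).symm
        _ ≤ _ := (Nat.pow_le_pow_right (by omega) (by omega)).trans hH
    have q5 : 1 ≤ q * P.leadingCoeff.natAbs := Nat.mul_pos q1 ha1
    generalize q * P.leadingCoeff.natAbs = q' at q3 q4 q5
    obtain ⟨θ', t1, t2⟩ := near q5 (hD q' q5 (by omega)) ξ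
    refine h0 (hg ξ θ' (mem_Sg.2 ⟨q', q5, q4, t1⟩) (lt_of_le_of_lt t2 ?_))
    have t3 := ab_le_nd (M := M) ((q' : ℤ) * (ξ.val : ℤ))
    simp only [Int.cast_mul, Int.cast_natCast, ZMod.natCast_zmod_val] at t3
    have t4 : M / N ^ P.natDegree * N ^ P.natDegree = M :=
      Nat.div_mul_cancel (hD _ (by omega) (by omega))
    have t5 : H₁ ^ (3 * C) * N ^ P.natDegree < H * N₁ ^ P.natDegree :=
      calc _ ≤ H₁ ^ (3 * C) * (N₁ * H₁ ^ 5) ^ P.natDegree := by gcongr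
        _ = H₁ ^ (3 * C + 5 * P.natDegree) * N₁ ^ P.natDegree := by ring
        _ < _ := Nat.mul_lt_mul_of_pos_right
          ((Nat.pow_lt_pow_right (by omega) (by omega)).trans_le hH) (by positivity)
    have t6 : M * H₁ ^ (3 * C) < H * (M / N ^ P.natDegree) * N₁ ^ P.natDegree := by
      have : 0 < M / N ^ P.natDegree := Nat.div_pos (by omega) (by omega)
      calc _ = M / N ^ P.natDegree * (H₁ ^ (3 * C) * N ^ P.natDegree) := by
            rw [mul_left_comm, t4, mul_comm]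
        _ < M / N ^ P.natDegree * (H * N₁ ^ P.natDegree) := Nat.mul_lt_mul_of_pos_left t5 this
        _ = _ := by ring
    generalize H * (M / N ^ P.natDegree) = K at t6 ⊢
    have t7 : (M : ℝ) * H₁ ^ (3 * C) < K * (N₁ : ℝ) ^ P.natDegree := by exact_mod_cast t6
    have t8 : (0 : ℝ) < (N₁ : ℝ) ^ P.natDegree := by
      have : (0 : ℝ) < N₁ := by exact_mod_cast n1
      positivity
    have t9 : (ab ((q' : ZMod M) * ξ) : ℝ) < K := by
      refine (t3.trans (mul_le_mul_of_nonneg_left q3 M0.le)).trans_lt ?_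
      rw [← mul_div_assoc, div_lt_iff₀ t8, ← pow_mul]
      exact t7
    exact_mod_cast t9
  have a4 : ∀ t, ‖av N₁ fun m => β (m + t)‖ ≤ 8 / (H₁ : ℝ) ^ 3 * (lp 2 f * lp 2 g) := by
    intro t
    have e : (av N₁ fun m => β (m + t)) = (av N₁ fun m => ∑ x, h x *
        ((f (x + (t : ZMod M) + (m : ZMod M)) - ch (θ * (m : ZMod M)) * f (x + (t : ZMod M))) *
          g (x + pe P (m + t)))) + ∑ x, h x * (f (x + (t : ZMod M)) *
            av N₁ fun m => ch (θ * (m : ZMod M)) * g (x + pe P (m + t))) := by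
      simp only [← av_mul_left]
      rw [sum_av, ← av_add]
      refine av_congr fun m _ => ?_
      rw [hβ, ← sum_add_distrib]
      refine sum_congr rfl fun x _ => ?_
      rw [show x + ((m + t : ℕ) : ZMod M) = x + (t : ZMod M) + (m : ZMod M) by push_cast; ring]
      ring
    rw [e]
    refine (norm_add_le _ _).trans ((add_le_add (norm_av_le'
      (B := 7 / (H₁ : ℝ) ^ 3 * lp 2 f * lp 2 g) (by positivity) fun m hm => ?_)
      (tri_le hh _ _)).trans ?_)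
    · refine (tri_le hh _ _).trans ?_
      rw [lp_shift g, lp_shift (fun y => f (y + (m : ZMod M)) - ch (θ * (m : ZMod M)) * f y)]
      exact mul_le_mul_of_nonneg_right (a2 m hm) g0
    · rw [lp_shift f]
      refine (add_le_add le_rfl (mul_le_mul_of_nonneg_left (a3 t) f0)).trans (le_of_eq ?_)
      ring
  have a5 : ‖av N₁ fun m => av N fun t => β (m + t)‖ ≤ 8 / (H₁ : ℝ) ^ 3 * (lp 2 f * lp 2 g) := by
    rw [av_comm]
    exact norm_av_le' (by positivity) fun t _ => a4 t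
  rw [e0]
  refine (norm_le_norm_sub_add _ _).trans ((add_le_add a1 a5).trans (le_of_eq ?_))
  ring

theorem decomp (H K : ℕ) (f : ZMod M → ℂ) : ∃ (f₀ : ZMod M → ℂ) (F : ZMod M → ZMod M → ℂ),
    Minor H K f₀ ∧ lp 2 f₀ ≤ lp 2 f ∧ (∀ θ, lp 2 (F θ) ≤ lp 2 f) ∧
      (∀ θ ξ, ft (F θ) ξ ≠ 0 → ab (ξ - θ) < K) ∧ ∀ x, f x = f₀ x + ∑ θ ∈ Sg M H, F θ x := by
  classical
  have h1 : ∀ ξ : ZMod M, (∃ θ ∈ Sg M H, ab (ξ - θ) < K) → ∃ θ ∈ Sg M H, ab (ξ - θ) < K :=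
    fun _ h => h
  choose! σ s1 s2 using h1
  obtain ⟨f₀, h0⟩ := exists_ft fun ξ : ZMod M =>
    if ∃ θ ∈ Sg M H, ab (ξ - θ) < K then 0 else ft f ξ
  choose F hF using fun θ : ZMod M => exists_ft fun ξ : ZMod M =>
    if (∃ θ ∈ Sg M H, ab (ξ - θ) < K) ∧ σ ξ = θ then ft f ξ else 0
  refine ⟨f₀, F, fun ξ θ a b => ?_, ?_, fun θ => ?_, fun θ ξ a => ?_, ?_⟩
  · rw [h0, if_pos ⟨θ, a, b⟩]
  · have := lp_le_of_ft (g := f₀) (f := f) zero_le_one fun ξ => by
      rw [h0]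
      split_ifs <;> simp
    rwa [one_mul] at this
  · have := lp_le_of_ft (g := F θ) (f := f) zero_le_one fun ξ => by
      rw [hF]
      split_ifs <;> simp
    rwa [one_mul] at this
  · rw [hF] at a
    split_ifs at a with b
    · exact b.2 ▸ s2 ξ b.1
    · exact absurd rfl a
  · refine congrFun (ft_inj fun ξ => ?_)
    rw [ft_add, ft_sum, h0]
    simp only [hF]
    split_ifs with b
    · simp only [b, true_and, sum_ite_eq, s1 ξ b, if_true, zero_add]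
    · simp only [b, false_and, if_false, sum_const_zero, add_zero]

theorem slotG (hI : StInv) (hQ : StIW) (hW : StWeyl) (hC : StCount) (P : ℤ[X])
    (hP : 2 ≤ P.natDegree) : ∃ (m C₀ : ℕ) (C : ℝ), 1 ≤ m ∧ 1 ≤ C₀ ∧ 0 < C ∧
      ∀ (M : ℕ) [NeZero M] (H N : ℕ) (v : ℝ) (f g h : ZMod M → ℂ), 1 ≤ v → v ^ m ≤ H →
        H ^ C₀ ≤ N → Dv M (2 * N ^ P.natDegree) →
        (Minor H (H * (M / N)) f ∨ Minor H (H * (M / N ^ P.natDegree)) g) → (∀ x, ‖h x‖ ≤ 1) →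
        ‖∑ x, h x * AA X P N f g x‖ ≤ C / v * lp 2 f * lp 2 g := by
  obtain ⟨m, C₀, C, m1, c4, hC0, hF⟩ := slotF hI hQ hW hC P hP
  obtain ⟨e, e4, hG⟩ := piece hW P hP
  obtain ⟨A, hA⟩ : ∃ A : ℕ, A = P.leadingCoeff.natAbs := ⟨_, rfl⟩
  rw [← hA] at hG
  refine ⟨m * e, C₀, 2 * (C + 9) + (A + 2), Nat.mul_pos m1 (by omega), by omega, by positivity, ?_⟩
  intro M _ H N v f g h v1 hH hN hD hm hh
  have v0 : 0 < v := by linarith
  have f0 := lp_nonneg 2 f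
  have g0 := lp_nonneg 2 g
  have A0 : (0 : ℝ) ≤ A := by positivity
  rcases hm with hm | hm
  · refine (hF M H N v f g h v0
      ((pow_le_pow_right₀ v1 (Nat.le_mul_of_pos_right _ (by omega))).trans hH) hN hD hm hh).trans ?_
    gcongr
    linarith
  rcases le_total v (A + 2) with h2 | h2
  · refine (triv P N hh f g).trans ?_
    rw [mul_assoc]
    refine le_mul_of_one_le_left (by positivity) ?_
    rw [le_div_iff₀ v0]
    linarith
  obtain ⟨w, hw⟩ : ∃ w, w = ⌊v⌋₊ := ⟨_, rfl⟩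
  have w1 : A + 2 ≤ w := hw ▸ Nat.le_floor (by exact_mod_cast h2)
  have w2 : (w : ℝ) ≤ v := hw ▸ Nat.floor_le v0.le
  have w3 : v < w + 1 := hw ▸ Nat.lt_floor_add_one v
  have w4 : (1 : ℝ) ≤ w := by exact_mod_cast (by omega)
  have w5 : w ≤ w ^ m := Nat.le_self_pow (by omega) w
  have w6 : (w ^ m) ^ e ≤ H := by
    have : (w : ℝ) ^ (m * e) ≤ H := (pow_le_pow_left₀ (by positivity) w2 _).trans hH
    rw [← pow_mul]
    exact_mod_cast this
  have w7 : w ^ m ≤ H := (Nat.le_self_pow (by omega) _).trans w6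
  have w8 : H ≤ N := (Nat.le_self_pow (by omega) _).trans hN
  obtain ⟨f₀, F, d1, d2, d3, d4, d5⟩ := decomp (w ^ m) (w ^ m * (M / N)) f
  have k1 := hF M (w ^ m) N w f₀ g h (by linarith) (by push_cast; exact le_rfl)
    ((Nat.pow_le_pow_left w7 _).trans hN) hD d1 hh
  have k2 := fun θ => hG M H (w ^ m) N θ (F θ) g h (by omega) (by omega) w6 w8 hD (d4 θ) hm hh
  have k3 := card_Sg (M := M) (w ^ m)
  generalize w ^ m = H₁ at *
  have e1 : ∑ x, h x * AA X P N f g x =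
      ∑ x, h x * AA X P N f₀ g x + ∑ θ ∈ Sg M H₁, ∑ x, h x * AA X P N (F θ) g x := by
    simp only [tri]
    rw [sum_comm, ← sum_add_distrib]
    refine sum_congr rfl fun y _ => ?_
    rw [d5, add_mul, sum_mul]
  have k4 : (w : ℝ) ≤ H₁ := by exact_mod_cast w5
  have k5 : ((Sg M H₁).card : ℝ) ≤ (H₁ : ℝ) ^ 2 := by exact_mod_cast k3
  have H0 : (0 : ℝ) < H₁ := by linarith
  have k6 : ‖∑ θ ∈ Sg M H₁, ∑ x, h x * AA X P N (F θ) g x‖ ≤ 9 / w * lp 2 f * lp 2 g := by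
    refine (norm_sum_le _ _).trans ((sum_le_card_nsmul _ _
      (9 / (H₁ : ℝ) ^ 3 * lp 2 f * lp 2 g) fun θ _ => (k2 θ).trans ?_).trans ?_)
    · gcongr
      exact d3 θ
    · rw [nsmul_eq_mul]
      calc _ ≤ (H₁ : ℝ) ^ 2 * (9 / (H₁ : ℝ) ^ 3 * lp 2 f * lp 2 g) := by gcongr
        _ = 9 / H₁ * lp 2 f * lp 2 g := by field_simp
        _ ≤ _ := by gcongr
  rw [e1]
  refine (norm_add_le _ _).trans ((add_le_add k1 k6).trans ?_)
  calc _ ≤ C / w * lp 2 f * lp 2 g + 9 / w * lp 2 f * lp 2 g := by gcongr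
    _ = (C + 9) / w * lp 2 f * lp 2 g := by ring
    _ ≤ _ := by
      gcongr ?_ * _ * _
      rw [div_le_div_iff₀ (by linarith) v0]
      nlinarith

end SSJ

theorem stSS (hI : StInv) (hQ : StIW) (hW : StWeyl) (hC : StCount) : StSS := by
  intro P hP
  obtain ⟨m, C₀, C, m1, -, hC0, key⟩ := SSJ.slotG hI hQ hW hC P hP
  refine ⟨(m : ℝ)⁻¹, C₀, C, by positivity, hC0, ?_⟩
  intro M _ H N f g H1 hN hD hm
  obtain ⟨h, hh, e⟩ := SSJ.dual (AA X P N f g)
  have H1' : (1 : ℝ) ≤ H := by exact_mod_cast H1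
  rw [e, Real.rpow_neg (by positivity), ← div_eq_mul_inv]
  exact key M H N _ f g h (Real.one_le_rpow H1' (by positivity))
    (Real.rpow_inv_natCast_pow (by positivity) (by omega)).le hN hD hm hh

end

end Pool.Agent.Lib.MP_10e396_an
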