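import Pool.Agent.Lib.MP_10e396_an.T1A

/-! New denominators: the large scales. -/

set_option autoImplicit false

namespace Pool.Agent.Lib.MP_10e396_an

open Finset Polynomial

noncomputable section

namespace T1

variable {M : ℕ} [NeZero M]

def ev (A : Finset (ZMod M)) : EuclideanSpace ℂ A →ₗ[ℂ] ZMod M → ℂ where
  toFun u z := ∑ θ : A, u θ * ch (θ.1 * z)
  map_add' u v := by
    funext z
    simp only [PiLp.add_apply, add_mul, sum_add_distrib, Pi.add_apply]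
  map_smul' c u := by
    funext z
    simp only [PiLp.smul_apply, smul_eq_mul, mul_assoc, RingHom.id_apply, Pi.smul_apply, mul_sum]

theorem ev_apply (A : Finset (ZMod M)) (u : EuclideanSpace ℂ A) (z : ZMod M) :
    ev A u z = ∑ θ : A, u θ * ch (θ.1 * z) := rfl

theorem ev_sq (A : Finset (ZMod M)) (u : EuclideanSpace ℂ A) :
    ∑ z, ‖ev A u z‖ ^ 2 = M * ‖u‖ ^ 2 := by
  rw [EuclideanSpace.norm_sq_eq]
  exact sum_sq_trig univ Subtype.val_injective.injOn _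

theorem ev_lp (A : Finset (ZMod M)) (u : EuclideanSpace ℂ A) : lp 2 (ev A u) = √M * ‖u‖ := by
  rw [lp_two, ev_sq, Real.sqrt_mul (Nat.cast_nonneg _), Real.sqrt_sq (norm_nonneg _)]

theorem ev_ft (A : Finset (ZMod M)) (u : EuclideanSpace ℂ A) {ξ : ZMod M}
    (h : ft (ev A u) ξ ≠ 0) : ξ ∈ A := by
  by_contra hc
  refine h ?_
  have : ft (ev A u) ξ = ∑ θ : A, u θ * ∑ x, ch ((θ.1 - ξ) * x) := by
    simp only [ft, ev_apply, sum_mul, mul_sum]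
    rw [sum_comm]
    refine sum_congr rfl fun θ _ => sum_congr rfl fun x _ => ?_
    rw [mul_assoc, ← ch_add, sub_mul, sub_eq_add_neg]
  rw [this]
  refine sum_eq_zero fun θ _ => ?_
  have h1 : θ.1 - ξ ≠ 0 := fun h0 => hc (sub_eq_zero.1 h0 ▸ θ.2)
  rw [sum_ch, if_neg h1, mul_zero]

theorem ev_sup {H : ℕ} {A : Finset (ZMod M)} (hA : A ⊆ Sg M H) (u : EuclideanSpace ℂ A)
    (z : ZMod M) : ‖ev A u z‖ ≤ H * ‖u‖ := by
  have a1 : ‖ev A u z‖ ≤ ∑ θ : A, ‖u θ‖ := by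
    rw [ev_apply]
    refine (norm_sum_le _ _).trans (le_of_eq (sum_congr rfl fun θ _ => ?_))
    rw [norm_mul, norm_ch, mul_one]
  have a2 : (∑ θ : A, ‖u θ‖) ^ 2 ≤ (H * ‖u‖) ^ 2 := by
    refine sq_sum_le_card_mul_sum_sq.trans ?_
    rw [mul_pow, EuclideanSpace.norm_sq_eq, card_univ, Fintype.card_coe]
    refine mul_le_mul_of_nonneg_right ?_ (sum_nonneg fun _ _ => sq_nonneg _)
    exact_mod_cast (card_le_card hA).trans (card_Sg H)
  exact a1.trans (le_of_pow_le_pow_left₀ two_ne_zero (by positivity) a2)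

theorem ev_per {Q : ℕ} {A : Finset (ZMod M)} (hA : ∀ θ ∈ A, (Q : ZMod M) * θ = 0)
    (u : EuclideanSpace ℂ A) (z j : ZMod M) : ev A u (z + Q * j) = ev A u z := by
  rw [ev_apply, ev_apply]
  refine sum_congr rfl fun θ _ => ?_
  rw [mul_add, ← mul_assoc, mul_comm _ (Q : ZMod M), hA θ θ.2, zero_mul, add_zero]

variable {M' : ℕ} [NeZero M'] {Q : ℕ}

theorem per_sum (hM : M = Q * M') {φ : ZMod M → ℝ} (h : ∀ z j, φ (z + Q * j) = φ z) (a : ZMod M) :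
    M' * ∑ y : Fin Q, φ (a + ((y : ℕ) : ZMod M)) = ∑ x, φ x := by
  obtain ⟨e, he, -⟩ := exists_win hM
  rw [← Equiv.sum_comp (Equiv.addLeft a) φ, ← e.sum_comp, Fintype.sum_prod_type]
  have : ∀ (x : ZMod M') (y : Fin Q), φ (Equiv.addLeft a (e (x, y))) =
      φ (a + ((y : ℕ) : ZMod M)) := fun x y => by
    rw [← h (a + _) (x.val : ZMod M), he, up]
    congr 1
    push_cast
    simp only [Equiv.coe_addLeft]
    ring
  simp only [this, sum_const, card_univ, ZMod.card, nsmul_eq_mul]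

theorem win_sq (hM : M = Q * M') {A : Finset (ZMod M)} (hA : ∀ θ ∈ A, (Q : ZMod M) * θ = 0)
    (u : EuclideanSpace ℂ A) (a : ZMod M) :
    ∑ y : Fin Q, ‖ev A u (a + ((y : ℕ) : ZMod M))‖ ^ 2 = Q * ‖u‖ ^ 2 := by
  have := per_sum hM (φ := fun z => ‖ev A u z‖ ^ 2) (fun z j => by rw [ev_per hA]) a
  rw [ev_sq] at this
  refine mul_left_cancel₀ (Mpos M').ne' (this.trans ?_)
  have e : (M : ℝ) = Q * M' := by exact_mod_cast hM
  rw [e]
  ring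

theorem av_win (hM : M = Q * M') {A : Finset (ZMod M)} (hA : ∀ θ ∈ A, (Q : ZMod M) * θ = 0)
    (u : EuclideanSpace ℂ A) {N : ℕ} (hN : Q ∣ N) (a : ZMod M) :
    av N (fun m => ‖ev A u (a + pe X m)‖ ^ 2) ≤ ‖u‖ ^ 2 := by
  obtain ⟨n, rfl⟩ := hN
  have e : ∀ m : ℕ, (pe X m : ZMod M) = m := fun m => by simp [pe]
  have s : ∀ n : ℕ, ∑ m ∈ range (Q * n), ‖ev A u (a + (m : ZMod M))‖ ^ 2 =
      (Q * n : ℕ) * ‖u‖ ^ 2 := by
    intro n
    induction n with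
    | zero => simp
    | succ n ih =>
      have := win_sq hM hA u (a + ((Q * n : ℕ) : ZMod M))
      rw [Fin.sum_univ_eq_sum_range
        (fun y => ‖ev A u (a + ((Q * n : ℕ) : ZMod M) + (y : ZMod M))‖ ^ 2) Q] at this
      rw [mul_add, mul_one, sum_range_add, ih]
      simp only [Nat.cast_add (Q * n), ← add_assoc, this]
      ring
  simp only [av, e, s, smul_eq_mul]
  rw [← mul_assoc]
  exact mul_le_of_le_one_left (sq_nonneg _) inv_mul_le_one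

theorem av_cs (N : ℕ) (a b : ℕ → ℂ) :
    ‖av N fun m => a m * b m‖ ^ 2 ≤ (av N fun m => ‖a m‖ ^ 2) * av N fun m => ‖b m‖ ^ 2 := by
  refine (pow_le_pow_left₀ (norm_nonneg _) (norm_av_le _ _) 2).trans ?_
  simp only [av, smul_eq_mul, norm_mul]
  have := sum_mul_sq_le_sq_mul_sq (range N) (fun m => ‖a m‖) fun m => ‖b m‖
  calc _ = (N : ℝ)⁻¹ ^ 2 * (∑ m ∈ range N, ‖a m‖ * ‖b m‖) ^ 2 := by ring
    _ ≤ (N : ℝ)⁻¹ ^ 2 * ((∑ m ∈ range N, ‖a m‖ ^ 2) * ∑ m ∈ range N, ‖b m‖ ^ 2) := by gcongr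
    _ = _ := by ring

theorem l2_le (hM : M = Q * M') {A₁ A₂ : Finset (ZMod M)} (h1 : ∀ θ ∈ A₁, (Q : ZMod M) * θ = 0)
    (h2 : ∀ θ ∈ A₂, (Q : ZMod M) * θ = 0) {N : ℕ} (hN : Q ∣ N) {P₁ P₂ : ℤ[X]}
    (hP : P₁ = X ∨ P₂ = X) (u : EuclideanSpace ℂ A₁) (v : EuclideanSpace ℂ A₂) (a : ZMod M) :
    ∑ y : Fin Q, ‖AA P₁ P₂ N (ev A₁ u) (ev A₂ v) (a + ((y : ℕ) : ZMod M))‖ ^ 2 ≤
      Q * ‖u‖ ^ 2 * ‖v‖ ^ 2 := by
  have s : ∀ {A : Finset (ZMod M)} (_ : ∀ θ ∈ A, (Q : ZMod M) * θ = 0) (u : EuclideanSpace ℂ A)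
      (P : ℤ[X]), ∑ y : Fin Q, (av N fun m => ‖ev A u (a + ((y : ℕ) : ZMod M) + pe P m)‖ ^ 2) ≤
        Q * ‖u‖ ^ 2 := by
    intro A hA u P
    rw [← av_sum]
    refine av_le (by positivity) fun m _ => le_of_eq ?_
    simp only [add_right_comm a _ (pe P m)]
    exact win_sq hM hA u _
  refine (sum_le_sum fun y _ => av_cs N _ _).trans ?_
  rcases hP with rfl | rfl
  · refine (sum_le_sum fun y _ => mul_le_mul_of_nonneg_right (av_win hM h1 u hN _)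
      (av_nonneg fun _ _ => sq_nonneg _)).trans ?_
    rw [← mul_sum]
    exact (mul_le_mul_of_nonneg_left (s h2 v P₂) (sq_nonneg _)).trans (le_of_eq (by ring))
  · refine (sum_le_sum fun y _ => mul_le_mul_of_nonneg_left (av_win hM h2 v hN _)
      (av_nonneg fun _ _ => sq_nonneg _)).trans ?_
    rw [← sum_mul]
    exact mul_le_mul_of_nonneg_right (s h1 u P₁) (sq_nonneg _)

theorem l1_le (hM : M = Q * M') {A₁ A₂ : Finset (ZMod M)} (h1 : ∀ θ ∈ A₁, (Q : ZMod M) * θ = 0)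
    (h2 : ∀ θ ∈ A₂, (Q : ZMod M) * θ = 0) {N : ℕ} {P₁ P₂ : ℤ[X]} {κ : ℝ}
    (u : EuclideanSpace ℂ A₁) (v : EuclideanSpace ℂ A₂) (a : ZMod M)
    (h : lp 1 (AA P₁ P₂ N (ev A₁ u) (ev A₂ v)) ≤ κ * lp 2 (ev A₁ u) * lp 2 (ev A₂ v)) :
    ∑ y : Fin Q, ‖AA P₁ P₂ N (ev A₁ u) (ev A₂ v) (a + ((y : ℕ) : ZMod M))‖ ≤
      κ * Q * ‖u‖ * ‖v‖ := by
  have := per_sum hM (φ := fun z => ‖AA P₁ P₂ N (ev A₁ u) (ev A₂ v) z‖) (fun z j => by
    simp only [AA, add_right_comm z (Q * j), ev_per h1, ev_per h2]) a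
  rw [lp_one, ← this, ev_lp, ev_lp] at h
  refine le_of_mul_le_mul_left (h.trans (le_of_eq ?_)) (Mpos M')
  have e : √(M : ℝ) * √M = Q * M' := by
    rw [Real.mul_self_sqrt (Nat.cast_nonneg _)]
    exact_mod_cast hM
  linear_combination κ * ‖u‖ * ‖v‖ * e

theorem lin_l {V W : Type} [AddCommGroup V] [Module ℂ V] [AddCommGroup W] [Module ℂ W]
    (β : V →ₗ[ℂ] W →ₗ[ℂ] ℂ) (v : W) : IsLinearMap ℂ fun u => β u v := (β.flip v).isLinear

theorem vec (hB : StLinB) : ∃ C : ℝ, 0 < C ∧ ∀ (M : ℕ) [NeZero M] (L γ i₀ i₁ τ H K : ℕ) (r : ℕ → ℝ)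
    (k : ℕ → ZMod M → ℝ) (A : Finset (ZMod M)) (f : ZMod M → ℂ), Ker L γ i₀ i₁ τ r k → 1 ≤ K →
    1 ≤ H → 2 * (2 * K) * H ^ 2 ≤ M → (∀ i, Band K (cx (k i))) → A ⊆ Sg M H →
    ∃ (F : ℕ → ZMod M → EuclideanSpace ℂ A) (w : ZMod M → ℝ),
      (∀ i x, Ad A (cx (k i)) f x = ev A (F i x)) ∧ (∀ x, Wb (fun i => F i x) (w x)) ∧
      lp 2 w ≤ C * L * (γ + 1) ^ 2 * lp 2 f := by
  obtain ⟨C, C0, hB⟩ := hB
  refine ⟨3 * C, by positivity, fun M _ L γ i₀ i₁ τ H K r k A f hk K1 H1 hK hb hA => ?_⟩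
  have h4 : 4 * K ≤ M := le_trans (by nlinarith [Nat.one_le_pow 2 H H1]) hK
  obtain ⟨w, hw, hw'⟩ := hB M L γ i₀ i₁ τ r k A (fun z => WithLp.toLp 2 fun θ : A =>
    conv (cx (pl K)) (fun z => ch (-(θ.1 * z)) * f z) z) hk
  refine ⟨_, w, fun i x => funext fun y => ?_, hw, hw'.trans ?_⟩
  · rw [Ad_eq, ev_apply, ← sum_coe_sort A]
    refine sum_congr rfl fun θ _ => ?_
    have : conv (cx (k i)) (fun z => ch (-(θ.1 * z)) * f z) =
        conv (cx (k i)) (conv (cx (pl K)) fun z => ch (-(θ.1 * z)) * f z) := ft_inj fun ξ => by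
      simp only [ft_conv]
      by_cases h0 : ft (cx (k i)) ξ = 0
      · rw [h0, zero_mul, zero_mul]
      · rw [ft_pl K1 h4 (hb i ξ h0).le, one_mul]
    rw [mul_comm, this]
    congr 1
    simp [conv]
  · have := sum_sq_pieces hK hA (band_pl K1 h4)
      (fun ζ => (norm_ft_le _ ζ).trans (sum_norm_pl K1 h4)) f
    have f0 := lp_nonneg 2 f
    calc _ ≤ C * L * (γ + 1) ^ 2 * (3 * lp 2 f) := by
          refine mul_le_mul_of_nonneg_left (lp_two_le (by positivity) ?_) (by positivity)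
          rw [mul_pow]
          refine le_trans (le_of_eq ?_) this
          simp only [EuclideanSpace.norm_sq_eq, lp_two_sq]
          rw [sum_comm, ← sum_coe_sort A]
      _ = _ := by ring

end T1

open T1 in
theorem stT1L (hR : StR4) (hB : StLinB) : StT1L := by
  intro P₁ P₂ e1 e2 hX hS
  obtain ⟨c, δ, C, δ0, δ1, C1, hS⟩ := ssp_new e1 hS
  obtain ⟨c₁, p1, -⟩ := slot P₁ e1
  obtain ⟨c₂, p2, -⟩ := slot P₂ e2
  obtain ⟨CR, R0, hR⟩ := hR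
  obtain ⟨CB, B0, hB⟩ := vec hB
  obtain ⟨CA, A0, hA⟩ := absorb 5 δ0
  refine ⟨c + c₁ + c₂ + P₁.natDegree + P₂.natDegree + 5, δ / 2, by positivity, fun L =>
    ⟨CR * (3 * C) * (CB * (L + 1) * (c₁ + 4) ^ 2) * (CB * (L + 1) * (c₂ + 4) ^ 2) * CA,
      by positivity, fun M _ M' _ Q i₀ i₁ h N₀ N K₁ K₂ A₂ f g e he he' H hL k1 k2 hA₂
        J a u v ha _ _ _ _ => ?_⟩⟩
  have n1 := narrow H e1 k1 (by omega)
  have n2 := narrow H e2 k2 (by omega)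
  have f0 := lp_nonneg 2 f
  have g0 := lp_nonneg 2 g
  have t0 : (0 : ℝ) < ((2 : ℝ) ^ h) ^ (-δ) := by positivity
  have r1 : ∀ θ ∈ Sg M (2 ^ h) \ Sg M (2 ^ (h - 1)), (Q : ZMod M) * θ = 0 :=
    fun θ hθ => hL.per θ (sdiff_subset hθ)
  have r2 : ∀ θ ∈ A₂, (Q : ZMod M) * θ = 0 := fun θ hθ => hL.per θ (hA₂ hθ)
  obtain ⟨κ, hκ⟩ : ∃ κ : ℝ, κ = min 1 ((C * ((2 : ℝ) ^ h) ^ (-δ)) ^ 2) := ⟨_, rfl⟩
  obtain ⟨D, hD⟩ : ∃ D : ℝ, D = CR * (((2 * h : ℕ) + 1) * √κ + (2 ^ (2 * h))⁻¹) := ⟨_, rfl⟩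
  have D0 : 0 ≤ D := by rw [hD]; positivity
  have bpe : ∀ (z : ZMod M' × Fin Q) (ρ : ℕ), bp Q ρ (e z) = up M Q z.1 + (ρ : ZMod M) := by
    intro z ρ
    rw [bp, he', he, add_sub_cancel_right]
  have key : ∀ τ < M, av Q (fun ρ => ∑ z : ZMod M' × Fin Q, (√(J z.1))⁻¹ * vr (fun i =>
      AA P₁ P₂ N₀ (Ad (Sg M (2 ^ h) \ Sg M (2 ^ (h - 1))) (fm i₀ i₁ K₁ (sh P₁ N τ) i) f
        (bp Q ρ (e z))) (Ad A₂ (fm i₀ i₁ K₂ (sh P₂ N τ) i) g (bp Q ρ (e z))) (e z))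
        (J z.1) (a (e z))) ≤ D * ((CB * L * ((h + c₁ + 3 : ℕ) + 1) ^ 2 * lp 2 f) *
          (CB * L * ((h + c₂ + 3 : ℕ) + 1) ^ 2 * lp 2 g)) := by
    intro τ hτ
    obtain ⟨τ₁, s₁, κ₁, q1, q1'⟩ := ker_sh H e1 k1 (by omega) (by omega) p1 hτ
    obtain ⟨τ₂, s₂, κ₂, q2, q2'⟩ := ker_sh H e2 k2 (by omega) (by omega) p2 hτ
    obtain ⟨F, w₁, F1, F2, F3⟩ := hB M L _ i₀ i₁ τ₁ (2 ^ h) (K₁ i₀) s₁ κ₁
      (Sg M (2 ^ h) \ Sg M (2 ^ (h - 1))) f q1 (k1.pos H.mem₀) Nat.one_le_two_pow n1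
      (fun i => q1' i ▸ band_fm H (by omega) e1 k1 _ i) sdiff_subset
    obtain ⟨G, w₂, G1, G2, G3⟩ := hB M L _ i₀ i₁ τ₂ (2 ^ h) (K₂ i₀) s₂ κ₂ A₂ g q2
      (k2.pos H.mem₀) Nat.one_le_two_pow n2 (fun i => q2' i ▸ band_fm H (by omega) e2 k2 _ i) hA₂
    simp only [q1', q2', F1, G1, bpe]
    have one : ∀ (ρ : ℕ) (x : ZMod M'), ∑ y : Fin Q, (√(J x))⁻¹ * vr (fun i => AA P₁ P₂ N₀
        (ev _ (F i (up M Q x + (ρ : ZMod M)))) (ev _ (G i (up M Q x + (ρ : ZMod M)))) (e (x, y)))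
        (J x) (a (e (x, y))) ≤
        D * Q * (‖w₁ (up M Q x + (ρ : ZMod M))‖ * ‖w₂ (up M Q x + (ρ : ZMod M))‖) := by
      intro ρ x
      refine (hR (Fin Q) _ _ (fun u v y => (AL P₁ P₂ N₀ (e (x, y))).compl₁₂
        (ev (Sg M (2 ^ h) \ Sg M (2 ^ (h - 1)))) (ev A₂) u v) κ
        (2 * h) _ _ _ _ (fun v y => lin_l _ v) (fun u y => LinearMap.isLinear _)
        (by rw [hκ]; positivity) (hκ ▸ min_le_left _ _) (fun u v => ?_) (fun u v => ?_)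
        (fun u v y => ?_) (F2 _) (G2 _) (J x) (fun y => a (e (x, y))) fun y => ha _).trans ?_
      · simp only [LinearMap.compl₁₂_apply, AL_apply, he, Fintype.card_fin]
        refine l1_le hL.eq r1 r2 u v _ ?_
        rw [hκ]
        rcases min_choice 1 ((C * ((2 : ℝ) ^ h) ^ (-δ)) ^ 2) with h0 | h0 <;> rw [h0]
        · rw [one_mul]
          exact lp_AA_le le_rfl two_pos two_pos (by norm_num) _ _ _ _ _
        · refine hS M L i₀ i₁ h N₀ (2 * K₁ i₀) N _ _ (H.anti (by omega)) n1 fun ξ hξ =>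
            ⟨ξ, ev_ft _ u hξ, ?_⟩
          have := k1.pos H.mem₀
          rw [sub_self, ab_zero]
          omega
      · simp only [LinearMap.compl₁₂_apply, AL_apply, he, Fintype.card_fin]
        exact l2_le hL.eq r1 r2 hL.dvd hX u v _
      · refine norm_av_le' (by positivity) fun m _ => ?_
        rw [norm_mul]
        refine (mul_le_mul (ev_sup sdiff_subset u _) (ev_sup hA₂ v _) (norm_nonneg _)
          (by positivity)).trans (le_of_eq ?_)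
        push_cast
        ring
      · rw [Real.norm_of_nonneg ((norm_nonneg _).trans ((F2 _).1 0)),
          Real.norm_of_nonneg ((norm_nonneg _).trans ((G2 _).1 0)), hD, Fintype.card_fin]
        exact le_of_eq (mul_assoc _ _ _)
    have Q0 : (Q : ℝ) ≠ 0 := by
      rintro h0
      exact NeZero.ne M (by rw [hL.eq, Nat.cast_eq_zero.1 h0, zero_mul])
    refine (av_mono fun ρ _ => (Fintype.sum_prod_type _).trans_le
      (sum_le_sum fun x _ => one ρ x)).trans ?_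
    calc _ = D * ∑ x, ‖w₁ x‖ * ‖w₂ x‖ := by
          rw [← e.sum_comp, Fintype.sum_prod_type_right]
          simp only [he, ← mul_sum, av, smul_eq_mul]
          rw [Fin.sum_univ_eq_sum_range (fun ρ => ∑ x : ZMod M',
            ‖w₁ (up M Q x + (ρ : ZMod M))‖ * ‖w₂ (up M Q x + (ρ : ZMod M))‖) Q]
          field_simp
      _ ≤ _ := mul_le_mul_of_nonneg_left ((sum_mul_le_two w₁ w₂).trans
          (mul_le_mul F3 G3 (lp_nonneg _ _) (by positivity))) D0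
  simp only [Real.rpow_zero, one_mul]
  refine le_trans ?_ ((av_le (by positivity) key).trans ?_)
  · simp only [av_sum, av_rmul_left]
    refine sum_le_sum fun z _ => mul_le_mul_of_nonneg_left ?_ (by positivity)
    exact (vr_av M _ _ _).trans (av_mono fun τ _ => vr_av Q _ _ _)
  have g1 := gam_le h c₁
  have g2 := gam_le h c₂
  have g3 : D ≤ CR * (3 * C * (h + 1) * ((2 : ℝ) ^ h) ^ (-δ)) := by
    have t1 : (1 : ℝ) ≤ 2 ^ h := one_le_pow₀ one_le_two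
    have b1 : √κ ≤ C * ((2 : ℝ) ^ h) ^ (-δ) :=
      Real.sqrt_le_iff.2 ⟨by positivity, hκ ▸ min_le_right _ _⟩
    have b2 : ((2 : ℝ) ^ (2 * h))⁻¹ ≤ ((2 : ℝ) ^ h) ^ (-δ) := by
      rw [Real.rpow_neg (by positivity)]
      refine inv_anti₀ (by positivity) ((Real.rpow_le_self_of_one_le t1 δ1).trans ?_)
      exact pow_le_pow_right₀ one_le_two (by omega)
    have b3 : ((2 * h : ℕ) + 1) * √κ ≤ 2 * (h + 1) * (C * ((2 : ℝ) ^ h) ^ (-δ)) := by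
      gcongr
      push_cast
      linarith
    have b4 : ((2 : ℝ) ^ h) ^ (-δ) ≤ C * (h + 1) * ((2 : ℝ) ^ h) ^ (-δ) :=
      le_mul_of_one_le_left t0.le (one_le_mul_of_one_le_of_one_le C1 (by simp))
    rw [hD]
    refine mul_le_mul_of_nonneg_left ?_ R0.le
    linarith
  have g4 := hA h
  calc _ ≤ CR * (3 * C * (h + 1) * ((2 : ℝ) ^ h) ^ (-δ)) *
        ((CB * (L + 1) * ((c₁ + 4) * (h + 1)) ^ 2 * lp 2 f) *
        (CB * (L + 1) * ((c₂ + 4) * (h + 1)) ^ 2 * lp 2 g)) := by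
        gcongr <;> linarith
    _ = CR * (3 * C) * (CB * (L + 1) * (c₁ + 4) ^ 2) * (CB * (L + 1) * (c₂ + 4) ^ 2) *
        (((h : ℝ) + 1) ^ 5 * ((2 : ℝ) ^ h) ^ (-δ)) * lp 2 f * lp 2 g := by ring
    _ ≤ _ := by
        rw [mul_assoc _ CA]
        gcongr

end

end Pool.Agent.Lib.MP_10e396_an
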