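import Pool.Agent.Lib.MP_10e396_an.T2A

/-! Decay for the new frequency shell. -/

set_option autoImplicit false
set_option linter.unusedSectionVars false

namespace Pool.Agent.Lib.MP_10e396_an

open Finset Polynomial

noncomputable section

namespace T2

structure St (c M L i₀ i₁ h N₀ a e₁ e₂ : ℕ) (N K₁ K₁' K₂ Kl : ℕ → ℕ) : Prop where
  par : Par c M L i₀ i₁ h N₀ N
  c3 : 3 ≤ c
  e1 : 1 ≤ e₁
  e2 : 1 ≤ e₂
  k1 : ∀ i ∈ Ico i₀ i₁, K₁ i * N i ^ e₁ = 2 ^ h * M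
  k1' : ∀ i ∈ Ico i₀ i₁, K₁' i * N i ^ e₁ = 2 ^ (h - 1) * M
  a1 : 1 ≤ a
  a2 : a ≤ 2 ^ h
  k2 : ∀ i ∈ Ico i₀ i₁, K₂ i * N i ^ e₂ = a * M
  kl : ∀ i ∈ Ico i₀ i₁, Kl i * (2 ^ h * N i ^ e₂) = M

variable {M : ℕ} [NeZero M] {c L i₀ i₁ h N₀ a e₁ e₂ : ℕ} {N K₁ K₁' K₂ Kl : ℕ → ℕ}

namespace St

variable (S : St c M L i₀ i₁ h N₀ a e₁ e₂ N K₁ K₁' K₂ Kl)
include S

theorem f1 : KF M i₀ i₁ h e₁ N K₁ :=
  ⟨2 ^ h, 1, Nat.one_le_two_pow, le_rfl, le_rfl, Nat.one_le_two_pow, by simpa using S.k1⟩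

theorem f1' : KF M i₀ i₁ h e₁ N K₁' :=
  ⟨2 ^ (h - 1), 1, Nat.one_le_two_pow, Nat.pow_le_pow_right two_pos (by omega), le_rfl,
    Nat.one_le_two_pow, by simpa using S.k1'⟩

theorem f2 : KF M i₀ i₁ h e₂ N K₂ :=
  ⟨a, 1, S.a1, S.a2, le_rfl, Nat.one_le_two_pow, by simpa using S.k2⟩

theorem fl : KF M i₀ i₁ h e₂ N Kl :=
  ⟨1, 2 ^ h, le_rfl, Nat.one_le_two_pow, Nat.one_le_two_pow, le_rfl, by simpa using S.kl⟩

theorem pw : 2 ^ h = 2 * 2 ^ (h - 1) := by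
  rw [← pow_succ']
  congr 1
  have := S.par.hpos
  omega

theorem two {i : ℕ} (hi : i ∈ Ico i₀ i₁) : K₁ i = 2 * K₁' i := by
  have p := S.par.N_pos hi
  refine Nat.eq_of_mul_eq_mul_right (show 0 < N i ^ e₁ by positivity) ?_
  rw [S.k1 i hi, mul_assoc, S.k1' i hi, S.pw, mul_assoc]

theorem eq2 {i : ℕ} (hi : i ∈ Ico i₀ i₁) : K₂ i = a * 2 ^ h * Kl i := by
  have p := S.par.N_pos hi
  refine Nat.eq_of_mul_eq_mul_right (show 0 < N i ^ e₂ by positivity) ?_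
  rw [S.k2 i hi]
  conv_lhs => rw [← S.kl i hi]
  ring

theorem sig {i : ℕ} (hi : i ∈ Ico i₀ i₁) (ζ : ZMod M) :
    |tri (K₁ i) ζ - tri (K₁' i) ζ| ≤ (ab ζ : ℝ) / K₁' i ∧ |tri (K₁ i) ζ - tri (K₁' i) ζ| ≤ 1 ∧
      ((K₁ i : ℝ) ≤ ab ζ → tri (K₁ i) ζ - tri (K₁' i) ζ = 0) :=
  tri_sub (S.f1'.pos hi) (by rw [S.two hi]; omega) ζ

theorem band (s : ℕ → ZMod M) {i : ℕ} (hi : i ∈ Ico i₀ i₁) : Band (K₁ i) (dk i₀ i₁ K₁ K₁' s i) :=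
  band_dk S.par S.c3 S.e1 S.f1 S.f1' s hi (by rw [S.two hi]; omega)

/-- square sum for kernels dominated by the shell symbol -/
theorem shell {A : Finset (ZMod M)} (hA : A ⊆ Sg M (2 ^ (h - 1))) {κ : ℕ → ZMod M → ℂ} {B t : ℝ}
    (hB : 0 ≤ B) (ht : 0 ≤ t)
    (h1 : ∀ i ∈ Ico i₀ i₁, ∀ ζ, ‖ft (κ i) ζ‖ ≤ |tri (K₁ i) ζ - tri (K₁' i) ζ|)
    (h2 : ∀ i ∈ Ico i₀ i₁, ∀ ζ, ‖ft (κ i) ζ‖ ≤ B)
    (h3 : t = 2 ∨ ∀ i ∈ Ico i₀ i₁, ∀ ζ, t < (ab ζ : ℝ) / K₁' i → ft (κ i) ζ = 0) (f : ZMod M → ℂ) :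
    ∑ i ∈ Ico i₀ i₁, lp 2 (TT A (κ i) f) ^ 2 ≤ 2 * L * (B * t) * lp 2 f ^ 2 := by
  have z : ∀ i ∈ Ico i₀ i₁, ∀ ζ : ZMod M, (K₁ i : ℝ) ≤ ab ζ → ft (κ i) ζ = 0 := fun i hi ζ hz => by
    have := h1 i hi ζ
    rwa [(S.sig hi ζ).2.2 hz, abs_zero, norm_le_zero_iff] at this
  refine sq_TT S.par S.c3 S.e1 S.f1 hA (fun i hi ζ hζ => ?_) (fun ζ => ?_) f
  · by_contra hn
    exact hζ (z i hi ζ (by exact_mod_cast not_lt.1 hn))
  refine lac1 S.par S.e1 S.f1' (ab ζ) ht hB (fun i hi => ?_) fun i hi hh => ?_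
  · rw [sq]
    exact mul_le_mul (h2 i hi ζ) ((h1 i hi ζ).trans (S.sig hi ζ).1) (norm_nonneg _) hB
  · have : ft (κ i) ζ = 0 := by
      rcases h3 with rfl | h3
      · have p : (0 : ℝ) < K₁' i := by exact_mod_cast S.f1'.pos hi
        rw [lt_div_iff₀ p] at hh
        refine z i hi ζ ?_
        rw [S.two hi]
        push_cast
        exact hh.le
      · exact h3 i hi ζ hh
    simp [this]

theorem sT (s : ℕ → ZMod M) (f : ZMod M → ℂ) :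
    ∑ i ∈ Ico i₀ i₁, lp 2 (TT (Sg M (2 ^ (h - 1))) (dk i₀ i₁ K₁ K₁' s i) f) ^ 2 ≤
      2 * L * (1 * 2) * lp 2 f ^ 2 :=
  S.shell Subset.rfl zero_le_one zero_le_two
    (fun _ hi ζ => (norm_dk S.par S.c3 S.e1 S.f1 S.f1' s hi ζ).le)
    (fun _ hi ζ => (norm_dk S.par S.c3 S.e1 S.f1 S.f1' s hi ζ).le.trans (S.sig hi ζ).2.1)
    (Or.inl rfl) f

theorem sH {s : ℝ} (h0 : 0 < s) (h1 : s ≤ 1) (g : ZMod M → ℂ) :
    ∑ i ∈ Ico i₀ i₁, lp 2 (TT (Sg M (2 ^ (h - 1))) (dk i₀ i₁ K₂ Kl 0 i) g) ^ 2 ≤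
      L / (1 - 2⁻¹ ^ s) * (((2 : ℝ) ^ h) ^ s * lp 2 g) ^ 2 := by
  have le : ∀ i ∈ Ico i₀ i₁, Kl i ≤ K₂ i := fun i hi => by
    rw [S.eq2 hi]
    exact Nat.le_mul_of_pos_left _ (Nat.mul_pos S.a1 (by positivity))
  refine (sq_TT S.par S.c3 S.e2 S.f2 Subset.rfl
    (fun i hi => band_dk S.par S.c3 S.e2 S.f2 S.fl 0 hi (le i hi)) (fun ζ =>
      lac S.par S.e2 S.fl (ab ζ) (t := 2 ^ h * 2 ^ h) (by positivity) h0 zero_le_one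
        (fun i hi => ?_) fun i hi hh => ?_) g).trans (le_of_eq ?_)
  · rw [norm_dk S.par S.c3 S.e2 S.f2 S.fl 0 hi, one_mul]
    obtain ⟨b1, b2, -⟩ := tri_sub (S.fl.pos hi) (le i hi) ζ
    refine (pow_le_of_le_one (abs_nonneg _) b2 two_ne_zero).trans ?_
    rcases le_total ((ab ζ : ℝ) / Kl i) 1 with b | b
    · exact b1.trans (Real.self_le_rpow_of_le_one (by positivity) b h1)
    · exact b2.trans (Real.one_le_rpow b h0.le)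
  · have p : (0 : ℝ) < Kl i := by exact_mod_cast S.fl.pos hi
    rw [lt_div_iff₀ p] at hh
    rw [norm_dk S.par S.c3 S.e2 S.f2 S.fl 0 hi, (tri_sub (S.fl.pos hi) (le i hi) ζ).2.2]
    · simp
    · refine le_trans ?_ hh.le
      have : K₂ i ≤ 2 ^ h * 2 ^ h * Kl i := by
        rw [S.eq2 hi]
        have := S.a2
        gcongr
      exact_mod_cast this
  · rw [Real.mul_rpow (by positivity) (by positivity)]
    ring

theorem sL {s : ℕ → ZMod M} {B : ℕ} (hs : ∀ i ∈ Ico i₀ i₁, ab (s i) ≤ B * N i ^ e₂)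
    (g : ZMod M → ℂ) :
    ∑ i ∈ Ico i₀ i₁, lp 2 (TT (Sg M (2 ^ (h - 1)))
      (fun t => fm i₀ i₁ Kl s i t - fm i₀ i₁ Kl 0 i t) g) ^ 2 ≤
      2 * L * (7 * B * ((2 : ℝ) ^ h)⁻¹ * lp 2 g) ^ 2 := by
  have e : ∀ i ∈ Ico i₀ i₁, ∀ ζ, ft (fun t => fm i₀ i₁ Kl s i t - fm i₀ i₁ Kl 0 i t) ζ =
      (ch (ζ * s i) - 1) * (tri (Kl i) ζ : ℝ) := fun i hi ζ => by
    rw [ft_sub, ft_fm S.par S.c3 S.e2 S.fl s hi, ft_fm S.par S.c3 S.e2 S.fl 0 hi, Pi.zero_apply,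
      mul_zero, ch_zero]
    ring
  refine (sq_TT S.par S.c3 S.e2 S.fl Subset.rfl (fun i hi ζ hζ => ?_) (fun ζ =>
      lac1 S.par S.e2 S.fl (ab ζ) zero_le_one (B := (7 * B * ((2 : ℝ) ^ h)⁻¹) ^ 2) (by positivity)
        (fun i hi => ?_) fun i hi hh => ?_) g).trans (le_of_eq (by ring))
  · by_contra hn
    rw [e i hi, tri_zero (S.fl.pos hi) (by exact_mod_cast not_lt.1 hn)] at hζ
    simp at hζ
  · have p : (0 : ℝ) < Kl i := by exact_mod_cast S.fl.pos hi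
    rcases le_total (Kl i : ℝ) (ab ζ) with b | b
    · rw [e i hi, tri_zero (S.fl.pos hi) b]
      simp only [Complex.ofReal_zero, mul_zero, norm_zero]
      rw [zero_pow two_ne_zero]
      positivity
    have b1 : ‖ch (ζ * s i) - 1‖ ≤ 7 * B * ((2 : ℝ) ^ h)⁻¹ * (ab ζ / Kl i) := by
      refine (norm_ch_sub_one_le _).trans ?_
      obtain ⟨k, k1, k2⟩ := ab_rep (s i)
      have b2 : ab (ζ * s i) ≤ ab ζ * (B * N i ^ e₂) := by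
        rw [← k1]
        exact (ab_mul_le _ _).trans (Nat.mul_le_mul_left _ (k2.trans_le (hs i hi)))
      have b3 : (ab (ζ * s i) : ℝ) ≤ ab ζ * (B * N i ^ e₂) := by exact_mod_cast b2
      have b4 : (M : ℝ) = Kl i * (2 ^ h * N i ^ e₂) := by exact_mod_cast (S.kl i hi).symm
      have b5 : (0 : ℝ) < N i := by exact_mod_cast S.par.N_pos hi
      calc _ ≤ 7 * (ab ζ * (B * (N i : ℝ) ^ e₂)) / M := by gcongr
        _ = _ := by rw [b4]; field_simp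
    have b2 : (ab ζ : ℝ) / Kl i ≤ 1 := (div_le_one p).2 b
    rw [e i hi, norm_mul, Complex.norm_real, Real.norm_eq_abs]
    calc _ ≤ (7 * B * ((2 : ℝ) ^ h)⁻¹ * (ab ζ / Kl i) * 1) ^ 2 := by
          gcongr
          exact tri_abs _ _
      _ = (7 * B * ((2 : ℝ) ^ h)⁻¹) ^ 2 * (ab ζ / Kl i) ^ 2 := by ring
      _ ≤ _ := mul_le_mul_of_nonneg_left (pow_le_of_le_one (by positivity) b2 two_ne_zero)
          (by positivity)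
  · have p : (0 : ℝ) < Kl i := by exact_mod_cast S.fl.pos hi
    rw [e i hi, tri_zero (S.fl.pos hi) ((one_lt_div p).1 hh).le]
    simp

end St

theorem num {h : ℕ} (hh : 1 ≤ h) {γ s : ℝ} (h0 : 0 < s) (h1 : 4 * s ≤ γ) (h2 : 4 * s ≤ 1) :
    ((2 ^ (h / 2) : ℕ) : ℝ) ^ (-γ) ≤ 2 * (((2 : ℝ) ^ h) ^ (-s)) ^ 2 ∧
      (2 : ℝ) ^ (h / 2) / 2 ^ (h - 1) ≤ 2 * (((2 : ℝ) ^ h) ^ (-s)) ^ 2 := by
  have e : 2 * (((2 : ℝ) ^ h) ^ (-s)) ^ 2 = 2 ^ (1 + h * (-s) * 2) := by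
    rw [Real.rpow_add two_pos, Real.rpow_one, Real.rpow_mul (by norm_num),
      Real.rpow_mul (by norm_num), Real.rpow_natCast, Real.rpow_two]
  have a1 : (2 : ℝ) * (h / 2 : ℕ) ≤ h := by exact_mod_cast (by omega : 2 * (h / 2) ≤ h)
  have a2 : (h : ℝ) ≤ 2 * (h / 2 : ℕ) + 1 := by exact_mod_cast (by omega : h ≤ 2 * (h / 2) + 1)
  have a3 : (0 : ℝ) ≤ (h / 2 : ℕ) := Nat.cast_nonneg _
  rw [e]
  constructor
  · push_cast
    rw [← Real.rpow_natCast, ← Real.rpow_mul (by norm_num)]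
    exact Real.rpow_le_rpow_of_exponent_le one_le_two (by nlinarith)
  · rw [← Real.rpow_natCast, ← Real.rpow_natCast, ← Real.rpow_sub two_pos, Nat.cast_sub hh]
    exact Real.rpow_le_rpow_of_exponent_le one_le_two (by push_cast; nlinarith)

theorem hh {P₁ P₂ : ℤ[X]} (hS : SSP P₁ P₂) : ∃ (c₀ : ℕ) (δ : ℝ), 0 < δ ∧ ∀ L : ℕ, ∃ C : ℝ, 0 ≤ C ∧
    ∀ (M : ℕ) [NeZero M] (c i₀ i₁ h N₀ a e₂ : ℕ) (N K₁ K₁' K₂ Kl : ℕ → ℕ) (f g : ZMod M → ℂ),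
      St c M L i₀ i₁ h N₀ a P₁.natDegree e₂ N K₁ K₁' K₂ Kl → c₀ ≤ c →
      ∑ i ∈ Ico i₀ i₁, lp 1 (AA P₁ P₂ (N i) (TT (Sg M (2 ^ (h - 1))) (dk i₀ i₁ K₁ K₁' 0 i) f)
        (TT (Sg M (2 ^ (h - 1))) (dk i₀ i₁ K₂ Kl 0 i) g)) ≤
        C * ((2 : ℝ) ^ h) ^ (-δ) * lp 2 f * lp 2 g := by
  obtain ⟨γ, C₀, D, C, γ0, C0, hS⟩ := hS
  have s0 : 0 < min γ 1 / 4 := by positivity
  have s1 : 4 * (min γ 1 / 4) ≤ γ := by linarith [min_le_left γ 1]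
  have s2 : 4 * (min γ 1 / 4) ≤ 1 := by linarith [min_le_right γ 1]
  generalize min γ 1 / 4 = s at s0 s1 s2
  refine ⟨C₀ + D + P₁.natDegree + 2, s, s0, fun L => ⟨(2 * C * (√(2 * L * (1 * 2)) + 2 * √(2 * L)) +
    2 * √(2 * L)) * √(L / (1 - 2⁻¹ ^ s)), by positivity, ?_⟩⟩
  intro M _ c i₀ i₁ h N₀ a e₂ N K₁ K₁' K₂ Kl f g S hc
  obtain ⟨n1, n2⟩ := num S.par.hpos s0 s1 s2
  have hle : 2 ^ (h / 2) ≤ 2 ^ (h - 1) :=
    Nat.pow_le_pow_right two_pos (by have := S.par.hpos; omega)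
  have hA := Sg_mono (M := M) hle
  choose κ hκ using fun i => exists_ft (M := M) fun ζ =>
    if ab ζ < 2 ^ (h / 2) * (M / N i ^ P₁.natDegree) then ft (dk i₀ i₁ K₁ K₁' 0 i) ζ else 0
  have kk : ∀ i ∈ Ico i₀ i₁, K₁' i = 2 ^ (h - 1) * (M / N i ^ P₁.natDegree) := fun i hi => by
    have p : 0 < N i ^ P₁.natDegree := pow_pos (S.par.N_pos hi) _
    have d : N i ^ P₁.natDegree ∣ M := S.par.dv_pow hi (D := P₁.natDegree) (by omega) _ p (by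
      exact (Nat.le_mul_of_pos_left _ (Nat.two_pow_pos h)).trans (Nat.le_mul_of_pos_left _ two_pos))
    refine Nat.eq_of_mul_eq_mul_right p ?_
    rw [S.k1' i hi, mul_assoc, Nat.div_mul_cancel d]
  have dom : ∀ i ∈ Ico i₀ i₁, ∀ ζ, ‖ft (κ i) ζ‖ ≤ |tri (K₁ i) ζ - tri (K₁' i) ζ| := fun i hi ζ => by
    rw [hκ]
    split_ifs
    · exact (norm_dk S.par S.c3 S.e1 S.f1 S.f1' 0 hi ζ).le
    · simp
  set t : ℝ := 2 ^ (h / 2) / 2 ^ (h - 1) with ht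
  have t0 : 0 ≤ t := by positivity
  have cut : ∀ i ∈ Ico i₀ i₁, ∀ ζ, t < (ab ζ : ℝ) / K₁' i → ft (κ i) ζ = 0 := fun i hi ζ hz => by
    have p : (0 : ℝ) < K₁' i := by exact_mod_cast S.f1'.pos hi
    rw [hκ, if_neg]
    rw [lt_div_iff₀ p, kk i hi, ht, Nat.cast_mul, Nat.cast_pow, Nat.cast_ofNat, ← mul_assoc,
      div_mul_cancel₀ _ (by positivity)] at hz
    exact not_lt.2 (by exact_mod_cast hz.le)
  have q1 := cs _ (lp_nonneg _ _) (by positivity [lp_nonneg 2 g]) (S.sT 0 f)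
    (S.sH s0 (by linarith) g)
  have q2 := cs _ (A := 2 * L) (x := t * lp 2 f) (by positivity [lp_nonneg 2 f])
    (by positivity [lp_nonneg 2 g]) ((S.shell hA t0 t0 dom (fun i hi ζ => by
      rcases lt_or_ge t ((ab ζ : ℝ) / K₁' i) with b | b
      · rw [cut i hi ζ b, norm_zero]
        exact t0
      · exact ((dom i hi ζ).trans (S.sig hi ζ).1).trans b) (Or.inr cut) f).trans_eq (by ring))
    (S.sH s0 (by linarith) g)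
  have one : ∀ i ∈ Ico i₀ i₁, ∀ G : ZMod M → ℂ,
      lp 1 (AA P₁ P₂ (N i) (TT (Sg M (2 ^ (h - 1))) (dk i₀ i₁ K₁ K₁' 0 i) f) G) ≤
      C * ((2 ^ (h / 2) : ℕ) : ℝ) ^ (-γ) *
        (lp 2 (TT (Sg M (2 ^ (h - 1))) (dk i₀ i₁ K₁ K₁' 0 i) f) * lp 2 G) +
      (C * ((2 ^ (h / 2) : ℕ) : ℝ) ^ (-γ) + 1) * (lp 2 (TT (Sg M (2 ^ (h / 2))) (κ i) f) * lp 2 G) := by
    intro i hi G
    rw [funext (AA_split P₁ P₂ (N i) _ (TT (Sg M (2 ^ (h / 2))) (κ i) f) G)]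
    refine (lp_add_le le_rfl _ _).trans ?_
    have b1 := lp_AA_le le_rfl two_pos two_pos (by norm_num) P₁ P₂ (N i)
      (TT (Sg M (2 ^ (h / 2))) (κ i) f) G
    have b2 := hS M (2 ^ (h / 2)) (N i) (fun y => TT (Sg M (2 ^ (h - 1))) (dk i₀ i₁ K₁ K₁' 0 i) f y -
      TT (Sg M (2 ^ (h / 2))) (κ i) f y) G Nat.one_le_two_pow ?_
      ((S.par.dv_pow hi (D := D) (by omega)).mono
        (Nat.mul_le_mul_left _ (Nat.le_mul_of_pos_left _ (by positivity)))) ?_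
    · have b3 := lp_sub_le one_le_two (TT (Sg M (2 ^ (h - 1))) (dk i₀ i₁ K₁ K₁' 0 i) f)
        (TT (Sg M (2 ^ (h / 2))) (κ i) f)
      have b4 := mul_le_mul_of_nonneg_right (mul_le_mul_of_nonneg_left b3
        (show 0 ≤ C * ((2 ^ (h / 2) : ℕ) : ℝ) ^ (-γ) by positivity)) (lp_nonneg 2 G)
      refine (add_le_add (b2.trans b4) b1).trans (le_of_eq ?_)
      ring
    · refine le_trans ?_ (S.par.low.trans (S.par.N₀_le hi))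
      rw [← pow_mul, mul_comm]
      exact Nat.pow_le_pow_right two_pos (Nat.mul_le_mul (by omega) (by omega))
    · intro ξ θ hθ hξ
      obtain ⟨θ₀, h0⟩ := sym_unique (two_le S.par S.c3 S.e1 S.f1 hi) ξ
      have b1 : θ = θ₀ := h0 θ (hA hθ) (hξ.trans_le (by
        rw [S.two hi, kk i hi]
        exact (Nat.mul_le_mul_right _ hle).trans (Nat.le_mul_of_pos_left _ two_pos)))
      subst b1
      rw [ft_sub, ft_TT, ft_TT, sym_eq Subset.rfl h0 (S.band 0 hi), sym_eq hA h0 (κ := κ i)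
        (fun ζ hζ => S.band 0 hi ζ fun hn => hζ (by rw [hκ, hn, ite_self])), if_pos hθ,
        if_pos (hA hθ), hκ, if_pos hξ, sub_self]
  refine (sum_le_sum fun i hi => one i hi _).trans ?_
  rw [sum_add_distrib, ← mul_sum, ← mul_sum]
  have u1 : (1 : ℝ) ≤ 2 ^ h := one_le_pow₀ one_le_two
  have z1 : ((2 : ℝ) ^ h) ^ (-s) ≤ 1 := Real.rpow_le_one_of_one_le_of_nonpos u1 (by linarith)
  have z2 : ((2 : ℝ) ^ h) ^ s = (((2 : ℝ) ^ h) ^ (-s))⁻¹ := by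
    rw [Real.rpow_neg (by positivity), inv_inv]
  have z0 : 0 < ((2 : ℝ) ^ h) ^ (-s) := by positivity
  rw [z2] at q1 q2
  generalize ((2 : ℝ) ^ h) ^ (-s) = z at *
  have f0 := lp_nonneg 2 f
  have g0 := lp_nonneg 2 g
  have t2 : t ≤ 2 := n2.trans (by nlinarith)
  have v0 : 0 ≤ ((2 ^ (h / 2) : ℕ) : ℝ) ^ (-γ) := by positivity
  generalize ((2 ^ (h / 2) : ℕ) : ℝ) ^ (-γ) = v at *
  refine (add_le_add (mul_le_mul_of_nonneg_left q1 (by positivity))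
    (mul_le_mul_of_nonneg_left q2 (by positivity))).trans ?_
  calc _ = (C * v * (√(2 * L * (1 * 2)) + t * √(2 * L)) + t * √(2 * L)) * √(L / (1 - 2⁻¹ ^ s)) *
        z⁻¹ * lp 2 f * lp 2 g := by ring
    _ ≤ (C * (2 * z ^ 2) * (√(2 * L * (1 * 2)) + 2 * √(2 * L)) + (2 * z ^ 2) * √(2 * L)) *
        √(L / (1 - 2⁻¹ ^ s)) * z⁻¹ * lp 2 f * lp 2 g := by gcongr
    _ = _ := by field_simp

theorem ff (P₁ P₂ : ℤ[X]) (h2 : 1 ≤ P₂.natDegree) : ∀ L : ℕ, ∃ C : ℝ, 0 ≤ C ∧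
    ∀ (M : ℕ) [NeZero M] (c i₀ i₁ h N₀ a e₁ : ℕ) (N K₁ K₁' K₂ Kl : ℕ → ℕ) (f g : ZMod M → ℂ),
      St c M L i₀ i₁ h N₀ a e₁ P₂.natDegree N K₁ K₁' K₂ Kl →
      ∑ i ∈ Ico i₀ i₁, lp 1 (fun x => av M fun τ => AA P₁ P₂ N₀
        (TT (Sg M (2 ^ (h - 1))) (dk i₀ i₁ K₁ K₁' (sh P₁ N τ) i) f)
        (TT (Sg M (2 ^ (h - 1))) (fun t => fm i₀ i₁ Kl (sh P₂ N τ) i t - fm i₀ i₁ Kl 0 i t) g) x) ≤
        C * ((2 : ℝ) ^ h)⁻¹ * lp 2 f * lp 2 g := by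
  obtain ⟨cP, hP, -⟩ := slot P₂ h2
  refine fun L => ⟨√(2 * L * (1 * 2)) * √(2 * L) * (7 * (2 ^ cP : ℕ)), by positivity, ?_⟩
  intro M _ c i₀ i₁ h N₀ a e₁ N K₁ K₁' K₂ Kl f g S
  have f0 := lp_nonneg 2 f
  have g0 := lp_nonneg 2 g
  refine (sum_le_sum fun i _ => lp_av_le le_rfl _ _).trans ?_
  rw [← av_sum]
  refine av_le (by positivity) fun τ hτ => ?_
  refine (sum_le_sum fun i _ => lp_AA_le le_rfl two_pos two_pos (by norm_num) _ _ _ _ _).trans ?_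
  refine (cs _ f0 (by positivity) (S.sT _ f)
    (S.sL (fun i hi => Shf.ab_le hP (shf_sh S.par P₂ hτ) hi) g)).trans (le_of_eq ?_)
  ring

theorem ss (hL : StLinD) (hW : StWeyl) (P₁ P₂ : ℤ[X]) (h1 : 1 ≤ P₁.natDegree)
    (h2 : 1 ≤ P₂.natDegree) : ∃ (c₀ : ℕ) (δ : ℝ), 0 < δ ∧ ∀ L L' : ℕ, ∃ C : ℝ, 0 ≤ C ∧
    ∀ (M : ℕ) [NeZero M] (c i₀ i₁ h N₀ a : ℕ) (N K₁ K₁' K₂ Kl : ℕ → ℕ) (f g : ZMod M → ℂ),
      St c M L i₀ i₁ h N₀ a P₁.natDegree P₂.natDegree N K₁ K₁' K₂ Kl → c₀ ≤ c →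
      Rng M L' i₀ i₁ h N₀ →
      lp 1 (fun x => √(∑ i ∈ Ico i₀ i₁, ‖AA P₁ P₂ N₀
        (TT (Sg M (2 ^ (h - 1))) (fun t => av M fun τ => dk i₀ i₁ K₁ K₁' (sh P₁ N τ) i t) f)
        (TT (Sg M (2 ^ (h - 1))) (fm i₀ i₁ Kl 0 i) g) x‖ ^ 2)) ≤
        C * ((2 : ℝ) ^ h) ^ (-δ) * lp 2 f * lp 2 g := by
  obtain ⟨E, hE⟩ := weyl hW P₁ h1
  have β0 : (0 : ℝ) < ((4 * (E + 1) : ℕ) : ℝ)⁻¹ := by positivity
  obtain ⟨c₁, hL⟩ := hL P₂ 2 _ h2 one_lt_two β0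
  refine ⟨c₁ + P₁.leadingCoeff.natAbs + 3, _, β0, fun L L' => ?_⟩
  obtain ⟨C, C0, hL⟩ := hL L L'
  refine ⟨√(8 * L) * C, by positivity, ?_⟩
  intro M _ c i₀ i₁ h N₀ a N K₁ K₁' K₂ Kl f g S hc hR
  obtain ⟨w, w1, w2⟩ := hL M i₀ i₁ h N₀ (2 ^ (h - 1)) N Kl 0 g (S.par.anti (by omega)) hR S.fl
    (fun _ _ => Or.inl rfl) Nat.one_le_two_pow (Nat.pow_le_pow_right two_pos (by omega))
  rw [Real.rpow_neg (by positivity)]
  have u1 : (1 : ℝ) ≤ 2 ^ h := one_le_pow₀ one_le_two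
  have y1 := Real.one_le_rpow u1 β0.le
  have y2 := Real.rpow_inv_natCast_pow (x := (2 : ℝ) ^ h) (n := 4 * (E + 1)) (by positivity) (by omega)
  generalize ((2 : ℝ) ^ h) ^ ((4 * (E + 1) : ℕ) : ℝ)⁻¹ = y at *
  have y0 : 0 < y := by linarith
  have f0 := lp_nonneg 2 f
  set κ : ℕ → ZMod M → ℂ := fun i t => av M fun τ => dk i₀ i₁ K₁ K₁' (sh P₁ N τ) i t with hκ
  have e : ∀ i ∈ Ico i₀ i₁, ∀ ζ, ‖ft (κ i) ζ‖ =
      ‖av (N i) fun n => ch (ζ * pe P₁ n)‖ * |tri (K₁ i) ζ - tri (K₁' i) ζ| := fun i hi ζ => by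
    have p := S.par.N_pos hi
    have d : N i ∣ M := S.par.dv_pow hi (D := 1) S.c3 _ p (by
      rw [← mul_assoc, pow_one]; exact Nat.le_mul_of_pos_left _ (by positivity))
    rw [hκ, ft_av, av_congr fun τ _ => ft_dk S.par S.c3 S.e1 S.f1 S.f1' _ hi ζ, av_mul_right,
      norm_mul, Complex.norm_real, Real.norm_eq_abs,
      ← av_tau (NeZero.pos M) d fun n => ch (ζ * pe P₁ n)]
    rfl
  have le1 : ∀ (i : ℕ) (ζ : ZMod M), ‖av (N i) fun n => ch (ζ * pe P₁ n)‖ ≤ 1 := fun i ζ =>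
    norm_av_le' zero_le_one fun n _ => (norm_ch _).le
  have dom : ∀ i ∈ Ico i₀ i₁, ∀ ζ, ‖ft (κ i) ζ‖ ≤ |tri (K₁ i) ζ - tri (K₁' i) ζ| := fun i hi ζ => by
    rw [e i hi]
    exact mul_le_of_le_one_left (abs_nonneg _) (le1 i ζ)
  have η0 : 0 < (y ^ 4)⁻¹ := by positivity
  have sm : ∀ i ∈ Ico i₀ i₁, ∀ ζ, ‖ft (κ i) ζ‖ ≤ 2 * (y ^ 4)⁻¹ := fun i hi ζ => by
    obtain ⟨b1, b2, b3⟩ := S.sig hi ζ
    rcases le_total (1 / 2) (y ^ 4)⁻¹ with b | b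
    · linarith [dom i hi ζ]
    rcases le_total ‖av (N i) fun n => ch (ζ * pe P₁ n)‖ (y ^ 4)⁻¹ with b4 | b4
    · rw [e i hi]
      linarith [mul_le_of_le_one_right (norm_nonneg (av (N i) fun n => ch (ζ * pe P₁ n))) b2]
    refine (dom i hi ζ).trans ?_
    rcases le_or_gt (K₁ i) (ab ζ) with b5 | b5
    · rw [b3 (by exact_mod_cast b5), abs_zero]
      positivity
    have y3 : (y ^ 4) ^ E * y ^ 4 = 2 ^ h := by rw [← pow_succ, ← pow_mul, y2]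
    have y4 : (y ^ 4) ^ E ≤ 2 ^ h := y3 ▸ le_mul_of_one_le_right (by positivity) (one_le_pow₀ y1)
    have b6 := hE M (N i) _ ζ (S.par.N_pos hi) η0 b b4 (by
      have d1 := S.f1.small S.par S.e1 hi (k := P₁.leadingCoeff.natAbs + 2) (by omega)
      have d2 : P₁.leadingCoeff.natAbs * ab ζ < 2 ^ P₁.leadingCoeff.natAbs * K₁ i :=
        Nat.mul_lt_mul'' Nat.lt_two_pow_self b5
      have d3 : 2 ^ h * (2 ^ P₁.leadingCoeff.natAbs * K₁ i) * 2 ≤ M := by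
        refine le_trans ?_ d1
        have := S.par.N₀_pos
        have := S.par.hpos
        calc _ = K₁ i * (2 ^ (h + (P₁.leadingCoeff.natAbs + 1) * 1) * 1) := by ring
          _ ≤ K₁ i * (2 ^ (h + (P₁.leadingCoeff.natAbs + 1) * h) * N₀) := by gcongr; norm_num
          _ = _ := by ring
      have d4 : 2 ^ h * (P₁.leadingCoeff.natAbs * ab ζ) * 2 < M :=
        lt_of_lt_of_le (by gcongr) d3
      rw [inv_inv, lt_div_iff₀ two_pos]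
      refine lt_of_le_of_lt (by gcongr) (show (2 : ℝ) ^ h * (P₁.leadingCoeff.natAbs * ab ζ) * 2 < M by
        exact_mod_cast d4))
    have p : (0 : ℝ) < K₁' i := by exact_mod_cast S.f1'.pos hi
    have p2 : (0 : ℝ) < (N i : ℝ) ^ P₁.natDegree := pow_pos (by exact_mod_cast S.par.N_pos hi) _
    have p3 : (2 : ℝ) * K₁' i * N i ^ P₁.natDegree = 2 ^ h * M := by
      exact_mod_cast S.two hi ▸ S.k1 i hi
    refine b1.trans ?_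
    rw [div_le_iff₀ p]
    refine le_of_mul_le_mul_right (b6.trans (le_of_eq ?_)) p2
    rw [inv_inv, show 2 * (y ^ 4)⁻¹ * K₁' i * (N i : ℝ) ^ P₁.natDegree =
      (y ^ 4)⁻¹ * (2 * K₁' i * N i ^ P₁.natDegree) by ring, p3, ← y3]
    field_simp
  have q := S.shell Subset.rfl (by positivity) zero_le_two dom sm (Or.inl rfl) f
  have r : lp 2 (fun x => √(∑ i ∈ Ico i₀ i₁, ‖TT (Sg M (2 ^ (h - 1))) (κ i) f x‖ ^ 2)) ≤
      √(8 * L) * (y ^ 2)⁻¹ * lp 2 f := by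
    refine lp_two_le (by positivity) ?_
    simp only [Real.norm_eq_abs, sq_abs]
    rw [sum_congr rfl fun x _ => Real.sq_sqrt (sum_nonneg fun _ _ => sq_nonneg _), sum_comm,
      mul_pow, mul_pow, Real.sq_sqrt (by positivity)]
    simp only [← lp_two_sq]
    exact q.trans (le_of_eq (by ring))
  have w0 : ∀ x, 0 ≤ w x := fun x => (norm_nonneg _).trans ((w1 x).1 0)
  calc _ ≤ lp 1 fun x => av N₀ fun m => √(∑ i ∈ Ico i₀ i₁,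
        ‖TT (Sg M (2 ^ (h - 1))) (κ i) f (x + pe P₁ m)‖ ^ 2) * w (x + pe P₂ m) := by
        refine lp_mono' one_pos fun x => ?_
        rw [Real.norm_of_nonneg (Real.sqrt_nonneg _)]
        refine (sq_av _ _ _).trans (av_mono fun m _ => ?_)
        rw [← Real.sqrt_sq (w0 (x + pe P₂ m)), ← Real.sqrt_mul' _ (sq_nonneg _), sum_mul]
        refine Real.sqrt_le_sqrt (sum_le_sum fun i _ => ?_)
        rw [norm_mul, mul_pow]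
        exact mul_le_mul_of_nonneg_left (pow_le_pow_left₀ (norm_nonneg _) ((w1 _).1 i) _) (sq_nonneg _)
    _ ≤ √(8 * L) * (y ^ 2)⁻¹ * lp 2 f * (C * y * lp 2 g) := by
        refine lp_av_le' le_rfl (by positivity [lp_nonneg 2 g]) fun m _ => ?_
        refine (lp_mul_le two_pos two_pos (by norm_num) fun x => (norm_mul _ _).le).trans ?_
        rw [lp_shift w]
        exact mul_le_mul ((lp_shift (fun x => √(∑ i ∈ Ico i₀ i₁,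
          ‖TT (Sg M (2 ^ (h - 1))) (κ i) f x‖ ^ 2)) _).trans_le r) w2 (lp_nonneg _ _) (by positivity)
    _ = _ := by field_simp

end T2

open T2 in
theorem stT2 (hE : StErrS) (hL : StLinD) (hW : StWeyl) : StT2 := by
  intro P₁ P₂ h1 h2 hS
  obtain ⟨c₁, δ₁, d1, H₁⟩ := hh hS
  obtain ⟨c₂, δ₂, d2, H₂⟩ := ss hL hW P₁ P₂ h1 h2
  obtain ⟨c₃, H₃⟩ := hE P₁ P₂ h1 h2
  refine ⟨c₁ + c₂ + c₃ + P₂.natDegree + 3, min (min δ₁ δ₂) 1, by positivity, fun L L' => ?_⟩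
  obtain ⟨C₁, p1, H₁⟩ := H₁ L
  obtain ⟨C₂, p2, H₂⟩ := H₂ L L'
  obtain ⟨C₃, p3, H₃⟩ := H₃ L L'
  obtain ⟨C₄, p4, H₄⟩ := ff P₁ P₂ h2 L
  refine ⟨C₁ + C₃ + C₃ + C₄ + C₂, by positivity, ?_⟩
  intro M _ i₀ i₁ h N₀ a N K₁ K₁' K₂ f g H hR k1 k1' a1 a2 k2
  have S : St _ M L i₀ i₁ h N₀ a _ _ N K₁ K₁' K₂ fun i => M / (2 ^ h * N i ^ P₂.natDegree) :=
    ⟨H, by omega, h1, h2, k1, k1', a1, a2, k2, fun i hi => Nat.div_mul_cancel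
      (H.dv_pow hi (by omega) _ (by have := H.N_pos hi; exact Nat.succ_le_of_lt (by positivity))
        (Nat.le_mul_of_pos_left _ two_pos))⟩
  generalize (fun i => M / (2 ^ h * N i ^ P₂.natDegree)) = Kl at S
  have hA : Sg M (2 ^ (h - 1)) ⊆ Sg M (2 ^ h) := Sg_mono (Nat.pow_le_pow_right two_pos (by omega))
  have q1 := H₁ M _ i₀ i₁ h N₀ a _ N K₁ K₁' K₂ Kl f g S (by omega)
  have q2 := H₂ M _ i₀ i₁ h N₀ a N K₁ K₁' K₂ Kl f g S (by omega) hR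
  have q3 := H₃ 2 2 1 M i₀ i₁ h N₀ N K₁ Kl _ _ f g two_pos two_pos le_rfl (by norm_num)
    (H.anti (by omega)) hR S.f1 S.fl hA hA
  have q3' := H₃ 2 2 1 M i₀ i₁ h N₀ N K₁' Kl _ _ f g two_pos two_pos le_rfl (by norm_num)
    (H.anti (by omega)) hR S.f1' S.fl hA hA
  have q4 := H₄ M _ i₀ i₁ h N₀ a _ N K₁ K₁' K₂ Kl f g S
  have u1 : (1 : ℝ) ≤ 2 ^ h := one_le_pow₀ one_le_two
  have up : ∀ {C α : ℝ}, 0 ≤ C → min (min δ₁ δ₂) 1 ≤ α → C * ((2 : ℝ) ^ h) ^ (-α) * lp 2 f * lp 2 g ≤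
      C * ((2 : ℝ) ^ h) ^ (-min (min δ₁ δ₂) 1) * lp 2 f * lp 2 g := fun {C α} b1 b2 => by
    have := lp_nonneg 2 f
    have := lp_nonneg 2 g
    gcongr
  rw [← Real.rpow_neg_one] at q3 q3' q4
  have q := add_le_add (add_le_add (add_le_add (add_le_add
    (q1.trans (up p1 ((min_le_left _ _).trans (min_le_left _ _)))) (q3.trans (up p3.le (min_le_right _ _))))
    (q3'.trans (up p3.le (min_le_right _ _)))) (q4.trans (up p4 (min_le_right _ _))))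
    (q2.trans (up p2 ((min_le_left _ _).trans (min_le_right _ _))))
  refine le_trans ?_ (q.trans (le_of_eq (by ring)))
  simp only [lp_one, ← sum_add_distrib]
  rw [sum_comm (s := Ico i₀ i₁), ← sum_add_distrib]
  refine sum_le_sum fun x _ => ?_
  rw [Real.norm_of_nonneg (Real.sqrt_nonneg _), Real.norm_of_nonneg (Real.sqrt_nonneg _)]
  refine le_trans (le_of_eq ?_) ((sq_split _ _ _).trans (add_le_add (sum_le_sum fun i _ =>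
    (norm_add_le _ _).trans (add_le_add ((norm_sub_le _ _).trans
      (add_le_add (norm_add_le _ _) le_rfl)) le_rfl)) le_rfl))
  refine congrArg _ (sum_congr rfl fun i _ => congrArg (‖·‖ ^ 2) ?_)
  have e1 := AA_four P₁ P₂ (N i) (TT (Sg M (2 ^ (h - 1))) (fm i₀ i₁ K₁ 0 i) f)
    (TT (Sg M (2 ^ (h - 1))) (fm i₀ i₁ K₁' 0 i) f) (TT (Sg M (2 ^ (h - 1))) (fm i₀ i₁ K₂ 0 i) g)
    (TT (Sg M (2 ^ (h - 1))) (fm i₀ i₁ Kl 0 i) g) x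
  have e2 := MS_split P₁ P₂ N₀ M (fun τ => TT (Sg M (2 ^ (h - 1))) (fm i₀ i₁ K₁ (sh P₁ N τ) i) f)
    (fun τ => TT (Sg M (2 ^ (h - 1))) (fm i₀ i₁ K₁' (sh P₁ N τ) i) f)
    (fun τ => TT (Sg M (2 ^ (h - 1))) (fm i₀ i₁ Kl (sh P₂ N τ) i) g)
    (TT (Sg M (2 ^ (h - 1))) (fm i₀ i₁ Kl 0 i) g) x
  simp only [TT_sub, TT_av] at e1 e2
  unfold AC MS dk
  linear_combination e1 + e2

end

end Pool.Agent.Lib.MP_10e396_an
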