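import Pool.Agent.Lib.MP_10e396_an.Spec

/-! Transference of the discrete jump inequality to measure preserving systems. -/

set_option autoImplicit false

namespace Pool.Agent.Lib.MP_10e396_an

open Finset Polynomial MeasureTheory

noncomputable section

namespace Trans

/-- one scale in each lacunary window -/
theorem scales {lam : ℝ} (hl : 1 < lam) (D : Set ℝ) (h1 : ∀ a ∈ D, 1 ≤ a)
    (h2 : ∀ a ∈ D, ∀ b ∈ D, a < b → lam * a < b) :
    ∃ r : ℕ → ℝ, (∀ i, lam ^ i ≤ r i ∧ r i < lam ^ (i + 1)) ∧ ∀ a ∈ D, ∃ i, r i = a := by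
  classical
  have l0 : 0 < lam := by linarith
  refine ⟨fun i => if h : ∃ a ∈ D, lam ^ i ≤ a ∧ a < lam ^ (i + 1) then h.choose else lam ^ i,
    fun i => ?_, fun a ha => ?_⟩
  · dsimp only
    split_ifs with h
    · exact h.choose_spec.2
    · exact ⟨le_rfl, pow_lt_pow_right₀ hl i.lt_succ_self⟩
  · obtain ⟨i, hi⟩ := exists_nat_pow_near (h1 a ha) hl
    have h : ∃ a ∈ D, lam ^ i ≤ a ∧ a < lam ^ (i + 1) := ⟨a, ha, hi⟩
    refine ⟨i, ?_⟩
    simp only [dif_pos h]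
    obtain ⟨hb, b1, b2⟩ := h.choose_spec
    have := pow_succ' lam i
    rcases lt_trichotomy h.choose a with e | e | e
    · linarith [h2 _ hb _ ha e, mul_le_mul_of_nonneg_left b1 l0.le, hi.2]
    · exact e
    · linarith [h2 _ ha _ hb e, mul_le_mul_of_nonneg_left hi.1 l0.le]

variable {Ω : Type*} [MeasurableSpace Ω] {μ : Measure Ω}

theorem mp_zpow (T : Ω ≃ᵐ Ω) (h : MeasurePreserving T μ μ) (m : ℤ) :
    MeasurePreserving (T.toEquiv ^ m : Equiv.Perm Ω) μ μ := by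
  induction m using Int.induction_on with
  | zero => exact MeasurePreserving.id μ
  | succ i ih => rw [zpow_add_one]; exact ih.comp h
  | pred i ih => rw [zpow_sub_one]; exact ih.comp (h.symm T)

/-- chains of `J` jumps below the index `n` -/
def Ch (S : Set ℕ) (δ : ℝ) (a : ℕ → ℂ) (n J : ℕ) : Prop :=
  ∃ c : Fin (J + 1) → ℕ, (StrictMono c ∧ ∀ j, c j < n ∧ c j ∈ S) ∧
    ∀ j : Fin J, δ ≤ ‖a (c j.succ) - a (c j.castSucc)‖

open Classical in
def Jn (S : Set ℕ) (δ : ℝ) (a : ℕ → ℂ) (n : ℕ) : ℕ := Nat.findGreatest (Ch S δ a n) n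

theorem Jn_mono (S : Set ℕ) (δ : ℝ) (a : ℕ → ℂ) : Monotone (Jn S δ a) := fun m n h => by
  classical
  exact Nat.findGreatest_mono
    (fun J ⟨c, ⟨c1, c2⟩, c3⟩ => ⟨c, ⟨c1, fun j => ⟨(c2 j).1.trans_le h, (c2 j).2⟩⟩, c3⟩) h

theorem Jn_spec (S : Set ℕ) (δ : ℝ) (a : ℕ → ℂ) (n : ℕ) :
    Jn S δ a n = 0 ∨ Ch S δ a n (Jn S δ a n) := by
  classical
  exact (eq_or_ne _ _).imp_right fun h => Nat.findGreatest_of_ne_zero rfl h

theorem jumps_eq (D : Set ℝ) (δ : ℝ) (a : ℝ → ℂ) (r : ℕ → ℝ) (hr : StrictMono r)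
    (h : ∀ a ∈ D, ∃ i, r i = a) :
    jumps D δ a = ⨆ n, (Jn (r ⁻¹' D) δ (fun i => a (r i)) n : ENNReal) := by
  classical
  refine le_antisymm (iSup₂_le fun J ⟨N, h1, h2, h3⟩ => ?_) (iSup_le fun n => ?_)
  · choose c hc using fun j => h _ (h2 j)
    have m : StrictMono c := fun i j hij => hr.lt_iff_lt.1 (by rw [hc, hc]; exact h1 hij)
    refine le_iSup_of_le (c (Fin.last J) + 1 + J) (Nat.cast_le.2 (Nat.le_findGreatest (by omega)
      ⟨c, ⟨m, fun j => ⟨?_, ?_⟩⟩, fun j => ?_⟩))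
    · have := m.monotone (Fin.le_last j)
      omega
    · show r (c j) ∈ D
      rw [hc]; exact h2 j
    · simpa only [hc] using h3 j
  · rcases Jn_spec (r ⁻¹' D) δ (fun i => a (r i)) n with e | ⟨c, ⟨c1, c2⟩, c3⟩
    · simp [e]
    · exact le_iSup₂_of_le _ ⟨fun j => r (c j), hr.comp c1, fun j => (c2 j).2, c3⟩ le_rfl

theorem Jn_meas (S : Set ℕ) (δ : ℝ) (a : ℕ → Ω → ℂ) (ha : ∀ i, Measurable (a i)) (n : ℕ) :
    Measurable fun x => Jn S δ (fun i => a i x) n := by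
  classical
  refine measurable_findGreatest fun J _ => ?_
  refine measurableSet_setOfPred.2 (Measurable.exists fun c => measurable_const.and
    (Measurable.forall fun j => measurableSet_setOfPred.1 ?_))
  exact measurableSet_le measurable_const ((ha _).sub (ha _)).norm

theorem Jn_jmp (S : Set ℕ) (δ : ℝ) (a b : ℕ → ℂ) (n : ℕ) (h : ∀ i < n, b i = a i) :
    Jmp b δ (Jn S δ a n) := by
  rcases Jn_spec S δ a n with e | ⟨c, ⟨c1, c2⟩, c3⟩
  · exact ⟨id, monotone_id, fun j hj => by omega⟩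
  · refine ⟨fun i => c ⟨min ((i + 1) / 2) (Jn S δ a n), by omega⟩,
      fun i j hij => c1.monotone (Fin.mk_le_mk.2 (by omega)), fun j hj => ?_⟩
    have := c3 ⟨j, hj⟩
    rw [← h _ (c2 _).1, ← h _ (c2 _).1] at this
    have e1 : (⟨min ((2 * j + 1 + 1) / 2) (Jn S δ a n), by omega⟩ : Fin (Jn S δ a n + 1)) =
        Fin.succ ⟨j, hj⟩ := Fin.ext (by simp; omega)
    have e2 : (⟨min ((2 * j + 1) / 2) (Jn S δ a n), by omega⟩ : Fin (Jn S δ a n + 1)) =
        Fin.castSucc ⟨j, hj⟩ := Fin.ext (by simp; omega)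
    simpa only [e1, e2] using this

theorem val_add {M : ℕ} [NeZero M] (z : ZMod M) (k : ℤ) (h0 : 0 ≤ z.val + k) (h1 : z.val + k < M) :
    ((z + k).val : ℤ) = z.val + k := by
  have : z + k = ((z.val + k : ℤ) : ZMod M) := by simp
  rw [this, ZMod.val_intCast, Int.emod_eq_of_lt h0 h1]

theorem AA_eq {Ω : Type*} {M : ℕ} [NeZero M] (T : Equiv.Perm Ω) (P : ℤ[X]) (f g : Ω → ℂ) (r : ℝ) (x : Ω) (R : ℕ)
    (hR : ∀ m < ⌊r⌋₊, m ≤ R ∧ |P.eval ((m : ℤ) + 1)| ≤ R) (z : ZMod M) (h0 : R ≤ z.val)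
    (h1 : z.val + R < M) :
    AA X (P.comp (X + 1)) ⌊r⌋₊ (fun z : ZMod M => f ((T ^ ((z.val : ℤ) + 1)) x))
      (fun z => g ((T ^ (z.val : ℤ)) x)) z = bavg T P f g r ((T ^ (z.val : ℤ)) x) := by
  rw [AA, av, bavg, Complex.real_smul, ← Finset.Ico_add_one_right_eq_Icc, sum_Ico_eq_sum_range]
  push_cast
  congr 1
  refine sum_congr (by simp) fun m hm => ?_
  obtain ⟨a1, a2⟩ := hR m (by simpa using hm)
  have a3 := abs_le.1 a2
  simp only [pe, eval_X, eval_comp, eval_add, eval_one]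
  rw [val_add z m (by omega) (by omega), val_add z _ (by omega) (by omega),
    ← Equiv.Perm.mul_apply, ← Equiv.Perm.mul_apply, ← zpow_add, ← zpow_add, add_comm 1 (m : ℤ)]
  congr 4 <;> ring

theorem lp_enn {X : Type} [Fintype X] {p : ℝ} (hp : 0 < p) (f : X → ℂ) :
    ENNReal.ofReal (lp p f) = (∑ x, ‖f x‖ₑ ^ p) ^ p⁻¹ := by
  rw [lp, ← ENNReal.ofReal_rpow_of_nonneg (by positivity) (by positivity),
    ENNReal.ofReal_sum_of_nonneg fun _ _ => by positivity]
  simp only [← ENNReal.ofReal_rpow_of_nonneg (norm_nonneg _) hp.le, ofReal_norm]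

theorem lp_enn' {X : Type} [Fintype X] {p δ : ℝ} (hp : 0 < p) (hδ : 0 < δ) (J : X → ℕ) :
    ENNReal.ofReal (lp p fun x => δ * √(J x)) ^ p =
      ∑ x, (ENNReal.ofReal δ * (J x : ENNReal) ^ (1 / 2 : ℝ)) ^ p := by
  rw [lp, ← ENNReal.ofReal_rpow_of_nonneg (by positivity) (by positivity),
    ENNReal.rpow_inv_rpow hp.ne', ENNReal.ofReal_sum_of_nonneg fun _ _ => by positivity]
  refine sum_congr rfl fun x _ => ?_
  rw [← ENNReal.ofReal_rpow_of_nonneg (norm_nonneg _) hp.le, Real.norm_of_nonneg (by positivity),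
    ENNReal.ofReal_mul hδ.le, Real.sqrt_eq_rpow,
    ← ENNReal.ofReal_rpow_of_nonneg (by positivity) (by positivity), ENNReal.ofReal_natCast]

theorem main {P : ℤ[X]} {p₁ p₂ p C δ : ℝ} {L : ℕ} (h1 : 1 < p₁) (h2 : 1 < p₂) (hp : 1 ≤ p)
    (hs : p₁⁻¹ + p₂⁻¹ = p⁻¹) (hC : 0 < C) (hd : Disc (P.comp (X + 1)) p₁ p₂ p L C) (T : Ω ≃ᵐ Ω)
    (hT : MeasurePreserving T μ μ) (r : ℕ → ℝ) (r1 : ∀ i, 1 ≤ r i) (r2 : Monotone r)
    (r3 : ∀ i, 2 * r i ≤ r (i + L)) (S : Set ℕ) {f g : Ω → ℂ} (hf : Measurable f) (hg : Measurable g)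
    (hδ : 0 < δ) (hm : ∀ i, Measurable (bavg T.toEquiv P f g (r i))) (n : ℕ) :
    ∫⁻ x, (ENNReal.ofReal δ * (Jn S δ (fun i => bavg T.toEquiv P f g (r i) x) n : ENNReal) ^
      (1 / 2 : ℝ)) ^ p ∂μ ≤ 2 * (ENNReal.ofReal C ^ p * ((∫⁻ x, ‖f x‖ₑ ^ p₁ ∂μ) ^ (p₁⁻¹ * p) *
        (∫⁻ x, ‖g x‖ₑ ^ p₂ ∂μ) ^ (p₂⁻¹ * p))) := by
  classical
  have p0 : 0 < p := by linarith
  have p1 : 0 < p₁ := by linarith
  have p2 : 0 < p₂ := by linarith
  obtain ⟨T0, hT0⟩ := hd (fun i => ⌊r i⌋₊) n (fun i => Nat.le_floor (by simpa using r1 i))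
    (fun i j h => Nat.floor_mono (r2 h)) fun i => Nat.le_floor (by
      push_cast
      linarith [r3 i, Nat.floor_le (zero_le_one.trans (r1 i))])
  obtain ⟨R, hR⟩ : ∃ R : ℕ, ∀ m < ⌊r n⌋₊, m ≤ R ∧ |P.eval ((m : ℤ) + 1)| ≤ R := by
    refine ⟨⌊r n⌋₊ + ∑ m ∈ range ⌊r n⌋₊, (P.eval ((m : ℤ) + 1)).natAbs, fun m hm => ⟨by omega, ?_⟩⟩
    have := single_le_sum (f := fun m : ℕ => (P.eval ((m : ℤ) + 1)).natAbs) (fun _ _ => Nat.zero_le _)
      (mem_range.2 hm)
    rw [← Int.natCast_natAbs]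
    exact Int.ofNat_le.2 (by omega)
  obtain ⟨M, hM, hD⟩ : ∃ M, 4 * R + 1 ≤ M ∧ Dv M T0 :=
    ⟨T0.factorial * (4 * R + 1), Nat.le_mul_of_pos_left _ T0.factorial_pos,
      fun k a b => (Nat.dvd_factorial a b).mul_right _⟩
  have : NeZero M := ⟨by omega⟩
  set φ : Ω → ENNReal := fun x => (ENNReal.ofReal δ *
    (Jn S δ (fun i => bavg T.toEquiv P f g (r i) x) n : ENNReal) ^ (1 / 2 : ℝ)) ^ p with hφ
  have mφ : Measurable φ :=
    (((measurable_from_top (f := fun k : ℕ => (k : ENNReal))).comp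
      (Jn_meas S δ _ hm n)).pow_const _ |>.const_mul _).pow_const _
  let A : Finset (ZMod M) := univ.filter fun z => R ≤ z.val ∧ z.val + R < M
  have mT := mp_zpow T hT
  have mf : Measurable fun x => ‖f x‖ₑ ^ p₁ := hf.enorm.pow_const _
  have mg : Measurable fun x => ‖g x‖ₑ ^ p₂ := hg.enorm.pow_const _
  have key : ∀ x, ∑ z ∈ A, φ ((T.toEquiv ^ (z.val : ℤ) : Equiv.Perm Ω) x) ≤ ENNReal.ofReal C ^ p *
      ((∑ z : ZMod M, ‖f ((T.toEquiv ^ ((z.val : ℤ) + 1) : Equiv.Perm Ω) x)‖ₑ ^ p₁) ^ (p₁⁻¹ * p) *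
      (∑ z : ZMod M, ‖g ((T.toEquiv ^ (z.val : ℤ) : Equiv.Perm Ω) x)‖ₑ ^ p₂) ^ (p₂⁻¹ * p)) := by
    intro x
    have := hT0 M hD (fun z => f ((T.toEquiv ^ ((z.val : ℤ) + 1) : Equiv.Perm Ω) x))
      (fun z => g ((T.toEquiv ^ (z.val : ℤ) : Equiv.Perm Ω) x)) δ
      (fun z => if z ∈ A then Jn S δ (fun i => bavg T.toEquiv P f g (r i)
        ((T.toEquiv ^ (z.val : ℤ) : Equiv.Perm Ω) x)) n else 0) hδ fun z => by
        split_ifs with hz
        · refine Jn_jmp _ _ _ _ _ fun i hi => ?_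
          exact (if_pos hi).trans <| AA_eq _ P f g _ x R (fun m hm => hR m (hm.trans_le (Nat.floor_mono (r2 hi.le)))) z
            (mem_filter.1 hz).2.1 (mem_filter.1 hz).2.2
        · exact ⟨id, monotone_id, fun j hj => by omega⟩
    have := ENNReal.rpow_le_rpow (ENNReal.ofReal_le_ofReal this) p0.le
    rw [lp_enn' p0 hδ, ENNReal.ofReal_mul (mul_nonneg hC.le (by unfold lp; positivity)),
      ENNReal.ofReal_mul hC.le, lp_enn p1, lp_enn p2, ENNReal.mul_rpow_of_nonneg _ _ p0.le,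
      ENNReal.mul_rpow_of_nonneg _ _ p0.le, ← ENNReal.rpow_mul, ← ENNReal.rpow_mul, mul_assoc] at this
    refine le_trans ?_ this
    refine (sum_congr rfl fun z hz => ?_).trans_le (sum_le_sum_of_subset (subset_univ A))
    rw [if_pos hz]
  have e1 : p₁⁻¹ * p + p₂⁻¹ * p = 1 := by rw [← add_mul, hs, inv_mul_cancel₀ p0.ne']
  have int := lintegral_mono (μ := μ) key
  rw [lintegral_finsetSum _ fun z _ => mφ.fun_comp (mT _).measurable, lintegral_const_mul' _ _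
    (ENNReal.rpow_ne_top_of_nonneg p0.le ENNReal.ofReal_ne_top)] at int
  have m1 : Measurable fun x => ∑ z : ZMod M,
      ‖f ((T.toEquiv ^ ((z.val : ℤ) + 1) : Equiv.Perm Ω) x)‖ₑ ^ p₁ :=
    Finset.measurable_sum _ fun z _ => mf.comp (mT _).measurable
  have m2 : Measurable fun x => ∑ z : ZMod M, ‖g ((T.toEquiv ^ (z.val : ℤ) : Equiv.Perm Ω) x)‖ₑ ^ p₂ :=
    Finset.measurable_sum _ fun z _ => mg.comp (mT _).measurable
  have hol := ENNReal.lintegral_mul_norm_pow_le (μ := μ) m1.aemeasurable m2.aemeasurable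
    (by positivity) (by positivity) e1
  rw [lintegral_finsetSum _ fun z _ => mf.fun_comp (mT _).measurable,
    lintegral_finsetSum _ fun z _ => mg.fun_comp (mT _).measurable] at hol
  simp only [(mT _).lintegral_comp mφ, (mT _).lintegral_comp mf, (mT _).lintegral_comp mg, sum_const,
    card_univ, ZMod.card, nsmul_eq_mul] at int hol
  have int2 := int.trans (mul_le_mul_right hol _)
  rw [ENNReal.mul_rpow_of_nonneg _ _ (by positivity), ENNReal.mul_rpow_of_nonneg _ _ (by positivity),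
    mul_mul_mul_comm, ← ENNReal.rpow_add_of_nonneg _ _ (by positivity) (by positivity), e1,
    ENNReal.rpow_one, mul_left_comm] at int2
  have cA : M ≤ 2 * A.card := by
    have : (Ico R (M - R)).card ≤ A.card := card_le_card_of_injOn (fun k => (k : ZMod M))
      (fun k hk => by
        have := mem_Ico.1 (mem_coe.1 hk)
        simp only [A, coe_filter, mem_univ, true_and, Set.mem_ofPred_eq,
          ZMod.val_natCast_of_lt (show k < M by omega)]
        omega)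
      fun k hk l hl e => by
        have a := mem_Ico.1 (mem_coe.1 hk)
        have b := mem_Ico.1 (mem_coe.1 hl)
        rw [← ZMod.val_natCast_of_lt (show k < M by omega), ← ZMod.val_natCast_of_lt (show l < M by omega)]
        exact congrArg ZMod.val e
    rw [Nat.card_Ico] at this
    omega
  refine (ENNReal.mul_le_mul_iff_right (a := M) (by simpa using this.1) (by simp)).1 ?_
  calc _ ≤ (2 * A.card : ENNReal) * ∫⁻ x, φ x ∂μ := mul_le_mul_left (by exact_mod_cast cA) _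
    _ ≤ _ := by rw [mul_assoc, mul_left_comm (M : ENNReal)]; exact mul_le_mul_right int2 _

theorem bavg_meas (T : Ω ≃ᵐ Ω) (hT : MeasurePreserving T μ μ) (P : ℤ[X]) {f g : Ω → ℂ}
    (hf : Measurable f) (hg : Measurable g) (r : ℝ) : Measurable (bavg T.toEquiv P f g r) :=
  (Finset.measurable_sum _ fun _ _ => (hf.comp (mp_zpow T hT _).measurable).mul
    (hg.comp (mp_zpow T hT _).measurable)).const_mul _

end Trans

open _root_.Pool.Agent.Lib.MP_10e396_an.Trans in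
theorem stFinal.{u} (h : StDisc) : StFinal.{u} := by
  intro P p₁ p₂ p lam hP h1 h2 hp hs hl
  have p0 : 0 < p := by linarith
  have p1 : 0 < p₁ := by linarith
  have p2 : 0 < p₂ := by linarith
  obtain ⟨L, hL⟩ := pow_unbounded_of_one_lt 2 hl
  obtain ⟨C, hC, hd⟩ := h (P.comp (X + 1)) p₁ p₂ p (L + 1) (by
    rw [natDegree_comp, ← C_1, natDegree_X_add_C, mul_one]; exact hP) h1 h2 hp hs (by omega)
  refine ⟨2 * C.toNNReal, fun Ω _ μ _ T hT D d1 d2 f g hf hg δ hδ => ?_⟩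
  obtain ⟨r, hr, hD⟩ := scales hl D d1 d2
  have sr : StrictMono r := strictMono_nat_of_lt_succ fun i => (hr i).2.trans_le (hr _).1
  have f1 := hf.1.aemeasurable
  have g1 := hg.1.aemeasurable
  have mf := f1.measurable_mk
  have mg := g1.measurable_mk
  have hm := fun i => bavg_meas T hT P mf mg (r i)
  have ae : ∀ᵐ x ∂μ, (jumps D δ fun N => bavg T.toEquiv P f g N x) = ⨆ n, (Jn (r ⁻¹' D) δ
      (fun i => bavg T.toEquiv P (f1.mk f) (g1.mk g) (r i) x) n : ENNReal) := by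
    filter_upwards [ae_all_iff.2 fun m : ℤ => (mp_zpow T hT m).quasiMeasurePreserving.ae f1.ae_eq_mk,
      ae_all_iff.2 fun m : ℤ => (mp_zpow T hT m).quasiMeasurePreserving.ae g1.ae_eq_mk] with x a b
    rw [jumps_eq D δ _ r sr hD]
    simp only [bavg, a, b]
  have mJ : ∀ n, Measurable fun x => (Jn (r ⁻¹' D) δ
      (fun i => bavg T.toEquiv P (f1.mk f) (g1.mk g) (r i) x) n : ENNReal) := fun n =>
    (measurable_from_top (f := fun k : ℕ => (k : ENNReal))).comp (Jn_meas _ δ _ hm n)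
  refine ⟨(Measurable.iSup mJ).aemeasurable.congr (ae.mono fun x e => e.symm), ?_⟩
  have mo : Monotone fun t : ENNReal => (ENNReal.ofReal δ * t ^ (1 / 2 : ℝ)) ^ p := fun s t e => by
    dsimp only
    gcongr
  have co : Continuous fun t : ENNReal => (ENNReal.ofReal δ * t ^ (1 / 2 : ℝ)) ^ p :=
    ENNReal.continuous_rpow_const.comp
      ((ENNReal.continuous_const_mul ENNReal.ofReal_ne_top).comp ENNReal.continuous_rpow_const)
  rw [lintegral_congr_ae (ae.mono fun x e => by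
      rw [e, mo.map_iSup_of_continuousAt co.continuousAt (by simp [p0])]),
    lintegral_iSup (fun n => ((mJ n).pow_const _ |>.const_mul _).pow_const _)
      fun m n e x => mo (Nat.cast_le.2 (Jn_mono _ _ _ e))]
  refine (ENNReal.rpow_le_rpow (iSup_le fun n => main h1 h2 hp hs hC hd T hT r
    (fun i => (one_le_pow₀ hl.le).trans (hr i).1) sr.monotone (fun i => ?_) _ mf mg hδ hm n)
    (by positivity)).trans ?_
  · have a := (hr i).2
    have b := (hr (i + (L + 1))).1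
    rw [← add_assoc, add_right_comm, pow_add] at b
    rw [← add_assoc, add_right_comm]
    nlinarith [pow_pos (zero_lt_one.trans hl) (i + 1)]
  · rw [eLpNorm_congr_ae f1.ae_eq_mk, eLpNorm_congr_ae g1.ae_eq_mk,
      eLpNorm_eq_lintegral_rpow_enorm_toReal (by simpa using p1) ENNReal.ofReal_ne_top,
      eLpNorm_eq_lintegral_rpow_enorm_toReal (by simpa using p2) ENNReal.ofReal_ne_top,
      ENNReal.toReal_ofReal p1.le, ENNReal.toReal_ofReal p2.le, ENNReal.rpow_mul, ENNReal.rpow_mul,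
      ← ENNReal.mul_rpow_of_nonneg _ _ p0.le, ← ENNReal.mul_rpow_of_nonneg _ _ p0.le,
      ENNReal.mul_rpow_of_nonneg _ _ (by positivity), one_div p, ENNReal.rpow_rpow_inv p0.ne',
      one_div, one_div, mul_assoc, ENNReal.coe_mul, mul_assoc]
    refine mul_le_mul_left ?_ _
    simpa using ENNReal.rpow_le_rpow_of_exponent_le (x := 2) one_le_two (inv_le_one_of_one_le₀ hp)

end

end Pool.Agent.Lib.MP_10e396_an
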