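import Pool.Agent.Lib.MP_10e396_an.Concat

/-! Control of the trilinear form by a Gowers norm. -/

set_option autoImplicit false

namespace Pool.Agent.Lib.MP_10e396_an

open Finset Polynomial

noncomputable section

namespace Uctl

theorem dyad {X : Type} [Fintype X] (Ψ : X → ℝ) (h0 : ∀ x, 0 ≤ Ψ x ∧ Ψ x ≤ 1) {W : ℝ}
    (hW : 0 ≤ W) {D K : ℕ} (hK : D + 1 ≤ K)
    (hc : ∀ n : ℕ, ((univ.filter fun x => (1 / 2 : ℝ) ^ (n + 1) ≤ Ψ x).card : ℝ) ≤
      W * (2 ^ (n + 1)) ^ D) : ∑ x, Ψ x ^ K ≤ W * 2 ^ (D + 1) + 1 := by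
  set T : ℕ → ℝ := fun n => ∑ x, if Ψ x ≤ (1 / 2 : ℝ) ^ n then Ψ x ^ K else 0 with hT
  have step : ∀ n, T n ≤ T (n + 1) + W * 2 ^ D * (1 / 2) ^ n := by
    intro n
    have h1 : T n ≤ T (n + 1) + ∑ x, if (1 / 2 : ℝ) ^ (n + 1) ≤ Ψ x then ((1 / 2 : ℝ) ^ n) ^ K
        else 0 := by
      rw [hT, ← sum_add_distrib]
      refine sum_le_sum fun x _ => ?_
      have hx := pow_nonneg (h0 x).1 K
      have hy : (0 : ℝ) ≤ ((1 / 2 : ℝ) ^ n) ^ K := by positivity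
      split_ifs with a b c d e f g
      · linarith
      · linarith
      · simpa using pow_le_pow_left₀ (h0 x).1 a K
      · exact absurd (not_le.1 d).le b
      all_goals linarith
    rw [← sum_filter, sum_const, nsmul_eq_mul] at h1
    have h2 : ((1 / 2 : ℝ) ^ n) ^ K ≤ ((1 / 2 : ℝ) ^ n) ^ (D + 1) :=
      pow_le_pow_of_le_one (by positivity) (pow_le_one₀ (by norm_num) (by norm_num)) hK
    have h3 : W * (2 ^ (n + 1)) ^ D * ((1 / 2 : ℝ) ^ n) ^ (D + 1) = W * 2 ^ D * (1 / 2) ^ n := by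
      have : (2 : ℝ) ^ n * (1 / 2) ^ n = 1 := by rw [← mul_pow]; norm_num
      calc _ = W * 2 ^ D * (1 / 2) ^ n * ((2 : ℝ) ^ n * (1 / 2) ^ n) ^ D := by ring
        _ = _ := by rw [this, one_pow, mul_one]
    have h4 := mul_le_mul (hc n) h2 (by positivity) (by positivity)
    linarith
  have all : ∀ n, T 0 ≤ T n + W * 2 ^ D * (2 - 2 * (1 / 2) ^ n) := by
    intro n
    induction n with
    | zero => simp
    | succ n ih =>
      have := step n
      rw [pow_succ]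
      linarith
  have h0' : ∑ x, Ψ x ^ K = T 0 := sum_congr rfl fun x _ => by simp [(h0 x).2]
  have h1 : T (Fintype.card X) ≤ 1 := by
    calc _ ≤ ∑ _x : X, (1 / 2 : ℝ) ^ Fintype.card X := sum_le_sum fun x _ => by
          split_ifs with a
          · exact (pow_le_of_le_one (h0 x).1 (h0 x).2 (by omega)).trans a
          · positivity
      _ = Fintype.card X * (1 / 2 : ℝ) ^ Fintype.card X := by simp
      _ ≤ 2 ^ Fintype.card X * (1 / 2 : ℝ) ^ Fintype.card X := by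
          gcongr
          exact_mod_cast Nat.lt_two_pow_self.le
      _ = 1 := by rw [← mul_pow]; norm_num
  have h2 := all (Fintype.card X)
  have h3 : 0 ≤ W * 2 ^ D * (2 * (1 / 2 : ℝ) ^ Fintype.card X) := by positivity
  rw [h0', pow_succ]
  linarith

theorem nd_neg_le (x : ℝ) : nd x ≤ nd (-x) := by
  have := round_le x (-round (-x))
  rw [nd, nd, ← abs_neg (-x - _)]
  refine this.trans_eq (congrArg _ ?_)
  push_cast
  ring

variable {M : ℕ} [NeZero M]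

theorem sum_dirm (H : ℕ) (a : ZMod M) (φ : ZMod M → ℂ) :
    ∑ z, (dirm H a z : ℂ) * φ z = av H fun u => φ (a * (u : ZMod M)) := by
  rw [av, ← sum_fiberwise (s := range H) (g := fun u : ℕ => a * (u : ZMod M)), smul_sum]
  refine sum_congr rfl fun z _ => ?_
  rw [sum_congr rfl (g := fun _ => φ z) fun u hu => by rw [(mem_filter.1 hu).2]]
  simp only [dirm, sum_const, nsmul_eq_mul, Complex.real_smul]
  push_cast
  ring

theorem prob_dirm {H : ℕ} (hH : 1 ≤ H) (a : ZMod M) : Prob (dirm H a) := by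
  refine ⟨fun z => by unfold dirm; positivity, ?_⟩
  have := sum_dirm H a fun _ => 1
  rw [av_const hH] at this
  simp only [mul_one] at this
  exact_mod_cast this

theorem ft_dirm (H : ℕ) (z : ℤ) (ξ : ZMod M) :
    ft (cx (dirm H (z : ZMod M))) ξ = av H fun u => ee (-((ξ.val : ℝ) / M) * z * u) := by
  refine (sum_dirm H (z : ZMod M) fun x => ch (-(ξ * x))).trans (congrArg _ (funext fun u => ?_))
  have : -(ξ * ((z : ZMod M) * (u : ZMod M))) = ((-((ξ.val : ℤ) * (z * u)) : ℤ) : ZMod M) := by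
    push_cast
    rw [ZMod.natCast_zmod_val]
  rw [this, ch_intCast]
  refine congrArg _ ?_
  push_cast
  ring

theorem arith {u R : ℝ} {r D : ℕ} (hu : 2 ≤ u) (hR : R ≤ u ^ r) :
    2 * (2 * R + 1) * 2 ^ (D + 1) + 1 ≤ u ^ (r + D + 5) := by
  have h1 : 1 ≤ u ^ r := one_le_pow₀ (by linarith)
  have h2 : (2 : ℝ) ^ (D + 1) ≤ u ^ (D + 1) := pow_le_pow_left₀ (by norm_num) hu _
  have h3 : (2 : ℝ) ^ 4 ≤ u ^ 4 := pow_le_pow_left₀ (by norm_num) hu _
  have h4 : (1 : ℝ) ≤ 2 ^ (D + 1) := one_le_pow₀ (by norm_num)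
  have h5 : 2 * (2 * R + 1) * 2 ^ (D + 1) ≤ 6 * u ^ r * u ^ (D + 1) :=
    mul_le_mul (by linarith) h2 (by positivity) (by positivity)
  have h6 : 1 ≤ u ^ r * u ^ (D + 1) := one_le_mul_of_one_le_of_one_le h1 (h4.trans h2)
  calc _ ≤ 2 ^ 4 * (u ^ r * u ^ (D + 1)) := by linarith
    _ ≤ u ^ 4 * (u ^ r * u ^ (D + 1)) := by gcongr
    _ = _ := by ring

end Uctl

open Uctl in
theorem stUctl (hP : StPet) (hM : StMulti) (hC : StCount) : StUctl := by
  intro P Γ hd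
  obtain ⟨m, l, c, a, hl, hc, hPet⟩ := hP P hd
  choose b hb using fun j => hM m (P.natDegree - 1) (c j) (hc j).1 (hc j).2
  obtain ⟨s, C, hs, hCon⟩ := stConcat l (3 * univ.sup b + 1) hl
  refine ⟨s, (a + 1 + (Γ + (a + 1) * P.natDegree + 3 * univ.sup b + 5)) * C + a, hs, ?_⟩
  intro M _ N δ h f g hMN hδ hδ' hN hh hf hg hA
  have hu : 2 ≤ δ⁻¹ := by rw [le_inv_comm₀ two_pos hδ]; linarith
  have hu1 : 1 ≤ δ⁻¹ := by linarith
  have hδ1 : δ ≤ 1 := by linarith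
  have h1 : 1 ≤ δ ^ a * N := by
    have := (pow_le_pow_right₀ hu1 (Nat.le_add_left a _)).trans hN
    rwa [inv_pow, inv_le_iff_one_le_mul₀' (pow_pos hδ a)] at this
  set H := ⌊δ ^ a * N⌋₊ with hH
  have hH1 : 1 ≤ H := Nat.le_floor (by exact_mod_cast h1)
  have hH0 : (1 : ℝ) ≤ H := by exact_mod_cast hH1
  have hNH : (N : ℝ) ≤ δ⁻¹ ^ (a + 1) * H := by
    have h2 : δ ^ a * N < H + 1 := Nat.lt_floor_add_one _
    have h3 : δ ^ a * N ≤ δ⁻¹ * H := by nlinarith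
    rw [pow_succ, mul_assoc, inv_pow, ← div_eq_inv_mul, le_div_iff₀' (pow_pos hδ a)]
    exact h3
  have hR : (M : ℝ) / (H : ℝ) ^ P.natDegree ≤ δ⁻¹ ^ (Γ + (a + 1) * P.natDegree) := by
    have h2 : (M : ℝ) ≤ Γ * (N : ℝ) ^ P.natDegree := by exact_mod_cast hMN
    have h3 : (Γ : ℝ) ≤ 2 ^ Γ := by exact_mod_cast Nat.lt_two_pow_self.le
    rw [div_le_iff₀ (by positivity), pow_add, pow_mul, mul_assoc, ← mul_pow]
    exact h2.trans (mul_le_mul (h3.trans (pow_le_pow_left₀ (by norm_num) hu _))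
      (pow_le_pow_left₀ (by positivity) hNH _) (by positivity) (by positivity))
  have h2 := hPet M N H δ h f g hH1 hδ hδ' (Nat.floor_le (by positivity)) hh hf hg hA
  haveI : Nonempty (Fin H) := ⟨⟨0, hH1⟩⟩
  haveI : Nonempty (Fin l) := ⟨⟨0, hl⟩⟩
  set μ : Fin l → (Fin m → Fin H) → ZMod M → ℝ := fun j t =>
    dirm H ((MvPolynomial.eval (fun i => ((t i : ℕ) : ℤ)) (c j) : ℤ) : ZMod M) with hμ
  have hμP : ∀ j t, Prob (μ j t) := fun j t => prob_dirm hH1 _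
  have hcard : (Fintype.card (Fin m → Fin H) : ℝ) = (H : ℝ) ^ m := by simp
  have hHm : (0 : ℝ) < (H : ℝ) ^ m := by positivity
  set Ψ : ZMod M → ℝ := fun ξ => univ.sup' univ_nonempty fun j =>
    (∑ t, ‖ft (cx (μ j t)) ξ‖ ^ 2) / (H : ℝ) ^ m with hΨ
  have hle : ∀ j ξ, (∑ t, ‖ft (cx (μ j t)) ξ‖ ^ 2) / (H : ℝ) ^ m ≤ Ψ ξ := fun j ξ =>
    le_sup' (fun j => (∑ t, ‖ft (cx (μ j t)) ξ‖ ^ 2) / (H : ℝ) ^ m) (mem_univ j)
  have h01 : ∀ ξ, 0 ≤ Ψ ξ ∧ Ψ ξ ≤ 1 := fun ξ => by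
    refine ⟨le_trans (by positivity) (hle ⟨0, hl⟩ ξ), sup'_le _ _ fun j _ => ?_⟩
    rw [div_le_one hHm, ← hcard]
    have : ∀ t, ‖ft (cx (μ j t)) ξ‖ ^ 2 ≤ 1 := fun t => by
      refine pow_le_one₀ (norm_nonneg _) ((norm_ft_le _ _).trans_eq ?_)
      rw [← (hμP j t).2]
      exact sum_congr rfl fun x _ => by
        rw [cx, Complex.norm_real, Real.norm_of_nonneg ((hμP j t).1 x)]
    simpa using sum_le_sum fun t (_ : t ∈ univ) => this t
  have hS : ∑ ξ, Ψ ξ ^ 2 ^ (3 * univ.sup b + 1) ≤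
      δ⁻¹ ^ (Γ + (a + 1) * P.natDegree + 3 * univ.sup b + 5) := by
    refine (dyad Ψ h01 (W := 2 * (2 * ((M : ℝ) / (H : ℝ) ^ P.natDegree) + 1)) (by positivity)
      Nat.lt_two_pow_self.le fun n => ?_).trans (arith hu hR)
    classical
    have hQ : (1 : ℝ) ≤ (2 ^ (n + 1)) ^ univ.sup b := one_le_pow₀ (one_le_pow₀ (by norm_num))
    have h3 := hC M ((2 ^ (n + 1)) ^ univ.sup b)
      ((2 ^ (n + 1)) ^ univ.sup b / (H : ℝ) ^ P.natDegree) (by positivity)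
    refine le_trans ?_ (h3.trans ?_)
    · refine Nat.cast_le.2 (card_le_card fun ξ hξ => ?_)
      rw [mem_filter] at hξ ⊢
      obtain ⟨j, -, hj⟩ := (le_sup'_iff _).1 hξ.2
      rw [le_div_iff₀ hHm] at hj
      have hη : (1 / 2 : ℝ) ^ (n + 1) ≤ 1 / 2 :=
        pow_le_of_le_one (by norm_num) (by norm_num) (by omega)
      obtain ⟨q, q1, q2, q3⟩ := hb j H (-((ξ.val : ℝ) / M)) _ hH1 (by positivity) hη
        (by simpa only [hμ, ft_dirm] using hj)
      have e : ((1 / 2 : ℝ) ^ (n + 1))⁻¹ = 2 ^ (n + 1) := by rw [← inv_pow]; norm_num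
      have q4 : ((2 : ℝ) ^ (n + 1)) ^ b j ≤ (2 ^ (n + 1)) ^ univ.sup b :=
        pow_le_pow_right₀ (one_le_pow₀ (by norm_num)) (le_sup (mem_univ j))
      rw [e] at q2 q3
      rw [Nat.sub_add_cancel (by omega)] at q3
      refine ⟨mem_univ _, q, q1, by exact_mod_cast q2.trans q4, (nd_neg_le _).trans ?_⟩
      rw [show -((q : ℝ) * (ξ.val : ℝ) / M) = q * -((ξ.val : ℝ) / M) by ring]
      exact q3.trans (div_le_div_of_nonneg_right q4 (by positivity))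
    · push_cast
      rw [mul_comm 3, pow_mul]
      generalize ((2 : ℝ) ^ (n + 1)) ^ univ.sup b = Q at hQ ⊢
      have h4 : 2 * (Q / (H : ℝ) ^ P.natDegree) * M + 1 ≤
          (2 * ((M : ℝ) / (H : ℝ) ^ P.natDegree) + 1) * Q := by
        have : 2 * (Q / (H : ℝ) ^ P.natDegree) * M = 2 * ((M : ℝ) / (H : ℝ) ^ P.natDegree) * Q := by
          ring
        rw [this, add_mul, one_mul]
        linarith
      calc _ ≤ 2 * Q ^ 2 * ((2 * ((M : ℝ) / (H : ℝ) ^ P.natDegree) + 1) * Q) := by gcongr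
        _ = _ := by ring
  have h3 := hCon M (Fin m → Fin H) μ Ψ g (δ ^ (a + 1)) _ hμP h01
    (fun j ξ => by rw [hcard, ← div_le_iff₀ hHm]; exact hle j ξ) hg (pow_pos hδ _)
    ((pow_le_of_le_one hδ.le hδ1 (by omega)).trans hδ') (one_le_pow₀ hu1) hS (by
      rw [hcard]
      exact (mul_le_mul_of_nonneg_right (pow_le_pow_of_le_one hδ.le hδ1 (by omega)) hHm.le).trans
        h2)
  rw [inv_pow, div_inv_eq_mul, ← pow_add, ← pow_mul] at h3
  exact (pow_le_pow_of_le_one hδ.le hδ1 (Nat.le_add_right _ _)).trans h3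

end

end Pool.Agent.Lib.MP_10e396_an
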