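import Pool.Agent.Lib.MP_10e396_an.Spec

/-! Weyl inequality in inverse form, in one and several variables, and a counting lemma. -/

set_option autoImplicit false

namespace Pool.Agent.Lib.MP_10e396_an

open Finset ComplexConjugate

namespace Weyl

lemma nd_nonneg (x : ℝ) : 0 ≤ nd x := abs_nonneg _

lemma nd_le_half (x : ℝ) : nd x ≤ 1 / 2 := abs_sub_round x

lemma nd_add_int (x : ℝ) (n : ℤ) : nd (x + n) = nd x := by
  unfold nd
  rw [round_add_intCast]
  push_cast
  congr 1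
  ring

lemma nd_le (x : ℝ) (n : ℤ) : nd x ≤ |x - n| := round_le x n

lemma nd_neg (x : ℝ) : nd (-x) = nd x := by
  apply le_antisymm
  · have := nd_le (-x) (-round x)
    rw [show -x - ((-round x : ℤ) : ℝ) = -(x - round x) by push_cast; ring, abs_neg] at this
    exact this
  · have := nd_le x (-round (-x))
    rw [show x - ((-round (-x) : ℤ) : ℝ) = -(-x - round (-x)) by push_cast; ring, abs_neg] at this
    exact this

lemma card_int_le (s : Finset ℤ) (x L : ℝ) (hL : 0 ≤ L)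
    (h : ∀ k ∈ s, x ≤ (k : ℝ) ∧ (k : ℝ) ≤ x + L) : (s.card : ℝ) ≤ L + 1 := by
  have h1 : s ⊆ Icc ⌈x⌉ ⌊x + L⌋ := fun k hk =>
    mem_Icc.2 ⟨Int.ceil_le.2 (h k hk).1, Int.le_floor.2 (h k hk).2⟩
  have h2 := card_le_card h1
  rw [Int.card_Icc] at h2
  have h3 := Int.le_ceil x
  have h4 := Int.floor_le (x + L)
  rcases le_total (⌊x + L⌋ + 1 - ⌈x⌉) 0 with h5 | h5
  · rw [Int.toNat_eq_zero.2 h5] at h2
    have : (s.card : ℝ) ≤ 0 := by exact_mod_cast h2
    linarith
  · have h6 : (s.card : ℤ) ≤ ⌊x + L⌋ + 1 - ⌈x⌉ := by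
      rw [← Int.toNat_of_nonneg h5]
      exact_mod_cast h2
    have h7 : (s.card : ℝ) ≤ (⌊x + L⌋ : ℝ) + 1 - ⌈x⌉ := by exact_mod_cast h6
    linarith

lemma card_fib {α β : Type} [DecidableEq β] (s : Finset α) (N : Finset β) (f : α → β) (B : ℝ)
    (hf : ∀ a ∈ s, f a ∈ N) (hB : ∀ n ∈ N, ((s.filter fun a => f a = n).card : ℝ) ≤ B) :
    (s.card : ℝ) ≤ N.card * B := by
  rw [card_eq_sum_card_fiberwise (f := f) (s := s) (t := N) (fun a ha => hf a ha)]
  push_cast
  calc _ ≤ ∑ n ∈ N, B := sum_le_sum hB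
    _ = _ := by simp

lemma count_near (s N : Finset ℤ) (c ρ ε : ℝ) (hρ : ρ ≠ 0) (hε : 0 ≤ ε)
    (h : ∀ k ∈ s, nd (c + k * ρ) ≤ ε ∧ round (c + k * ρ) ∈ N) :
    (s.card : ℝ) ≤ N.card * (2 * ε / |ρ| + 1) := by
  have hp : 0 < |ρ| := abs_pos.2 hρ
  refine card_fib s N (fun k => round (c + k * ρ)) _ (fun k hk => (h k hk).2) fun n _ => ?_
  refine card_int_le _ ((n - c) / ρ - ε / |ρ|) _ (by positivity) fun k hk => ?_
  obtain ⟨hk1, hk2⟩ := mem_filter.1 hk
  have h1 := (h k hk1).1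
  unfold nd at h1
  rw [hk2] at h1
  have h2 : |(k : ℝ) - (n - c) / ρ| ≤ ε / |ρ| := by
    rw [le_div_iff₀ hp, ← abs_mul]
    rw [show ((k : ℝ) - (n - c) / ρ) * ρ = c + k * ρ - n by field_simp; ring]
    exact h1
  have h3 := abs_le.1 h2
  have h4 : 2 * ε / |ρ| = 2 * (ε / |ρ|) := by ring
  constructor <;> linarith [h3.1, h3.2]

lemma vino (β ε X : ℝ) (T : ℕ) (A : Finset ℤ) (hX : 1 ≤ X) (hε : 0 ≤ ε)
    (hA : ∀ h ∈ A, |h| ≤ T ∧ nd (h * β) ≤ ε) (hc : (T : ℝ) ≤ X * A.card)
    (h1 : 32 * ε * X ≤ 1) (h2 : 136 * X ^ 2 ≤ T) :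
    ∃ q : ℕ, 1 ≤ q ∧ (q : ℝ) ≤ 17 * X ∧ nd (q * β) ≤ 272 * ε * X ^ 2 / T := by
  obtain ⟨q, hq0, hq1, hq2⟩ :=
    Real.exists_nat_abs_mul_sub_round_le β (n := ⌈16 * X⌉₊) (Nat.ceil_pos.2 (by positivity))
  have hq3 : (q : ℝ) ≤ 17 * X := by
    have : (q : ℝ) ≤ ⌈16 * X⌉₊ := by exact_mod_cast hq1
    have := Nat.ceil_lt_add_one (show (0 : ℝ) ≤ 16 * X by positivity)
    linarith
  have hq4 : (1 : ℝ) ≤ q := by exact_mod_cast hq0
  have hT : (0 : ℝ) < T := by nlinarith
  have hqT : (q : ℝ) ≤ T := by nlinarith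
  refine ⟨q, hq0, hq3, ?_⟩
  unfold nd
  obtain ⟨ρ, hρ⟩ : ∃ ρ, ρ = (q : ℝ) * β - round ((q : ℝ) * β) := ⟨_, rfl⟩
  rw [← hρ] at hq2 ⊢
  by_cases h0 : ρ = 0
  · rw [h0, abs_zero]
    positivity
  have hp : 0 < |ρ| := abs_pos.2 h0
  have hr : 16 * X * |ρ| ≤ 1 := by
    rw [le_div_iff₀ (by positivity)] at hq2
    have := Nat.le_ceil (16 * X)
    nlinarith
  have hq5 : (0 : ℤ) < q := by exact_mod_cast hq0
  have key : (A.card : ℝ) ≤ (Ico (0 : ℤ) q).card *
      ((4 * T / q * |ρ| + 2) * (2 * ε / |ρ| + 1)) := by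
    refine card_fib A _ (fun h => h % q) _
      (fun h _ => mem_Ico.2 ⟨Int.emod_nonneg _ hq5.ne', Int.emod_lt_of_pos _ hq5⟩) fun r hr => ?_
    have hr' := mem_Ico.1 hr
    have e1 : (A.filter fun h => h % q = r).card =
        ((A.filter fun h => h % q = r).image fun h : ℤ => h / (q : ℤ)).card := by
      refine (card_image_of_injOn fun a ha b hb hab => ?_).symm
      have ha' := (mem_filter.1 (mem_coe.1 ha)).2
      have hb' := (mem_filter.1 (mem_coe.1 hb)).2
      have := Int.emod_add_mul_ediv a q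
      have := Int.emod_add_mul_ediv b q
      rw [hab] at *
      omega
    rw [e1]
    obtain ⟨s, hs⟩ : ∃ s, s = (A.filter fun h => h % q = r).image fun h : ℤ => h / (q : ℤ) := ⟨_, rfl⟩
    rw [← hs]
    have hk : ∀ k ∈ s, |(k : ℝ)| ≤ 2 * T / q ∧ nd (r * β + k * ρ) ≤ ε := by
      intro k hk
      rw [hs] at hk
      obtain ⟨h, hh, rfl⟩ := mem_image.1 hk
      obtain ⟨hh1, hh2⟩ := mem_filter.1 hh
      have e2 : (h : ℝ) = r + q * ((h / q : ℤ) : ℝ) := by
        have := Int.emod_add_mul_ediv h q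
        rw [hh2] at this
        exact_mod_cast this.symm
      obtain ⟨k, hk⟩ : ∃ k, k = h / (q : ℤ) := ⟨_, rfl⟩
      rw [← hk] at e2 ⊢
      constructor
      · have a1 : |(h : ℝ)| ≤ T := by exact_mod_cast (hA h hh1).1
        have a2 : (0 : ℝ) ≤ r := by exact_mod_cast hr'.1
        have a3 : (r : ℝ) ≤ q := by exact_mod_cast hr'.2.le
        rw [le_div_iff₀ (by positivity)]
        have a4 : |(k : ℝ)| * q = |(h : ℝ) - r| := by
          rw [e2, add_sub_cancel_left, abs_mul, abs_of_nonneg (by positivity : (0 : ℝ) ≤ q),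
            mul_comm]
        rw [a4]
        have := abs_le.1 a1
        rw [abs_le]
        constructor <;> linarith [this.1, this.2]
      · have a1 := (hA h hh1).2
        rw [← nd_add_int _ (k * round ((q : ℝ) * β))]
        rw [show r * β + k * ρ + ((k * round ((q : ℝ) * β) : ℤ) : ℝ) = h * β by
          rw [e2, hρ]; push_cast; ring]
        exact a1
    refine (count_near s (s.image fun k : ℤ => round (r * β + k * ρ)) (r * β) ρ ε h0 hε
      fun k h => ⟨(hk k h).2, mem_image_of_mem _ h⟩).trans ?_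
    refine mul_le_mul_of_nonneg_right ?_ (by positivity)
    refine (card_int_le _ (r * β - 2 * T / q * |ρ| - 1 / 2) (4 * T / q * |ρ| + 1)
      (by positivity) fun n hn => ?_).trans (by linarith)
    obtain ⟨k, hk1, rfl⟩ := mem_image.1 hn
    have a1 := abs_le.1 (abs_sub_round (r * β + k * ρ))
    have a2 : |(k : ℝ) * ρ| ≤ 2 * T / q * |ρ| := by
      rw [abs_mul]
      exact mul_le_mul_of_nonneg_right (hk k hk1).1 hp.le
    have a3 := abs_le.1 a2
    have a4 : 4 * T / q * |ρ| = 2 * (2 * T / q * |ρ|) := by ring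
    constructor <;> linarith [a1.1, a1.2, a3.1, a3.2]
  rw [Int.card_Ico, sub_zero, Int.toNat_natCast] at key
  have e3 : (q : ℝ) * ((4 * T / q * |ρ| + 2) * (2 * ε / |ρ| + 1)) =
      8 * T * ε + 4 * T * |ρ| + 4 * q * ε / |ρ| + 2 * q := by
    field_simp
    ring
  rw [e3] at key
  have b1 : (T : ℝ) ≤ X * (8 * T * ε + 4 * T * |ρ| + 4 * q * ε / |ρ| + 2 * q) :=
    hc.trans (mul_le_mul_of_nonneg_left key (by positivity))
  have b2 : X * (8 * T * ε) ≤ T / 4 := by nlinarith
  have b3 : X * (4 * T * |ρ|) ≤ T / 4 := by nlinarith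
  have b4 : X * (2 * q) ≤ T / 4 := by nlinarith
  have b5 : (T : ℝ) / 4 ≤ X * (4 * q * ε) / |ρ| := by
    rw [mul_div_assoc]
    linarith
  rw [le_div_iff₀ hp] at b5
  rw [le_div_iff₀ hT]
  have b6 : X * (4 * q * ε) ≤ X * (4 * (17 * X) * ε) := by gcongr
  nlinarith

lemma ee_add (x y : ℝ) : ee (x + y) = ee x * ee y := by
  unfold ee
  rw [← Complex.exp_add]
  congr 1
  push_cast
  ring

lemma norm_ee (x : ℝ) : ‖ee x‖ = 1 := by
  unfold ee
  rw [show (2 * Real.pi * x * Complex.I : ℂ) = ((2 * Real.pi * x : ℝ) : ℂ) * Complex.I by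
    push_cast; ring, Complex.norm_exp_ofReal_mul_I]

lemma ee_int (n : ℤ) : ee n = 1 := by
  unfold ee
  rw [← Complex.exp_int_mul_two_pi_mul_I n]
  congr 1
  push_cast
  ring

lemma ee_conj (x y : ℝ) : ee x * conj (ee y) = ee (x - y) := by
  have h : ee x = ee (x - y) * ee y := by rw [← ee_add, sub_add_cancel]
  rw [h, mul_assoc, Complex.mul_conj', norm_ee]
  simp

lemma norm_ee_sub_one (α : ℝ) : 4 * nd α ≤ ‖ee α - 1‖ := by
  obtain ⟨ρ, hρ⟩ : ∃ ρ, ρ = α - round α := ⟨_, rfl⟩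
  have h1 : ee α = ee ρ := by
    rw [show α = ρ + (round α : ℤ) by rw [hρ]; ring, ee_add, ee_int, mul_one]
  have h2 : |ρ| ≤ 1 / 2 := hρ ▸ abs_sub_round α
  have h3 : nd α = |ρ| := by rw [hρ]; rfl
  rw [h1, h3]
  unfold ee
  rw [show (2 * Real.pi * ρ * Complex.I : ℂ) = Complex.I * ((2 * Real.pi * ρ : ℝ) : ℂ) by
    push_cast; ring, Complex.norm_exp_I_mul_ofReal_sub_one,
    show 2 * Real.pi * ρ / 2 = Real.pi * ρ by ring, norm_mul, Real.norm_eq_abs, Real.norm_eq_abs,
    abs_two]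
  have hp := Real.pi_pos
  have h4 : |Real.pi * ρ| = Real.pi * |ρ| := by rw [abs_mul, abs_of_pos hp]
  have h5 := Real.mul_abs_le_abs_sin (x := Real.pi * ρ) (by rw [h4]; nlinarith)
  rw [h4, show 2 / Real.pi * (Real.pi * |ρ|) = 2 * |ρ| by field_simp] at h5
  linarith

lemma geom (c α : ℝ) (a b : ℤ) : 2 * nd α * ‖∑ s ∈ Ico a b, ee (c + s * α)‖ ≤ 1 := by
  rcases le_total b a with h | h
  · simp [Ico_eq_empty_of_le h]
  have h1 : (ee α - 1) * ∑ s ∈ Ico a b, ee (c + s * α) = ee (c + b * α) - ee (c + a * α) := by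
    induction b, h using Int.leInduction with
    | base => simp
    | succ n hn ih =>
      rw [← insert_Ico_right_eq_Ico_add_one hn, sum_insert (by simp), mul_add, ih]
      rw [show c + ((n + 1 : ℤ) : ℝ) * α = α + (c + n * α) by push_cast; ring, ee_add α]
      ring
  have h2 : ‖ee α - 1‖ * ‖∑ s ∈ Ico a b, ee (c + s * α)‖ ≤ 2 := by
    rw [← norm_mul, h1]
    refine (norm_sub_le _ _).trans ?_
    rw [norm_ee, norm_ee]
    norm_num
  have h3 := mul_le_mul_of_nonneg_right (norm_ee_sub_one α)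
    (norm_nonneg (∑ s ∈ Ico a b, ee (c + s * α)))
  linarith

lemma sq_sum {κ : Type} (s : Finset κ) (g : κ → ℝ) :
    ((‖∑ a ∈ s, ee (g a)‖ ^ 2 : ℝ) : ℂ) = ∑ a ∈ s, ∑ b ∈ s, ee (g b - g a) := by
  push_cast
  rw [← Complex.mul_conj', map_sum, mul_comm, sum_mul_sum]
  refine sum_congr rfl fun a _ => sum_congr rfl fun b _ => ?_
  rw [mul_comm, ee_conj]

variable {ι : Type} [Fintype ι] [DecidableEq ι]

open Function

lemma sum_box (I : ι → Finset ℤ) (i : ι) (f : (ι → ℤ) → ℂ) :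
    ∑ t ∈ Fintype.piFinset I, f t =
      ∑ y ∈ Fintype.piFinset (update I i {0}), ∑ s ∈ I i, f (update y i s) := by
  rw [← sum_product' (f := fun y s => f (update y i s))]
  refine sum_nbij' (fun t => (update t i 0, t i)) (fun z => update z.1 i z.2) ?_ ?_ ?_ ?_ ?_
  · intro t ht
    rw [Fintype.mem_piFinset] at ht
    refine mem_product.2 ⟨Fintype.mem_piFinset.2 fun j => ?_, ht i⟩
    by_cases h : j = i
    · subst h
      simp
    · simpa [h] using ht j
  · intro z hz
    obtain ⟨h1, h2⟩ := mem_product.1 hz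
    rw [Fintype.mem_piFinset] at h1
    refine Fintype.mem_piFinset.2 fun j => ?_
    by_cases h : j = i
    · subst h
      simpa using h2
    · simpa [h] using h1 j
  · intro t _
    simp
  · intro z hz
    have h1 := Fintype.mem_piFinset.1 (mem_product.1 hz).1 i
    rw [update_self, mem_singleton] at h1
    refine Prod.ext ?_ (by simp)
    simp only [update_idem]
    rw [← h1, update_eq_self]
  · intro t _
    simp

lemma card_box (I : ι → Finset ℤ) (T : ℕ) (h : ∀ j, (I j).card ≤ T) :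
    ((Fintype.piFinset I).card : ℝ) ≤ (T : ℝ) ^ Fintype.card ι := by
  rw [Fintype.card_piFinset]
  exact_mod_cast prod_le_pow_card _ _ _ fun j _ => h j

lemma card_box' (I : ι → Finset ℤ) (T : ℕ) (h : ∀ j, (I j).card ≤ T) (i : ι) :
    ((Fintype.piFinset (update I i {0})).card : ℝ) * T ≤ (T : ℝ) ^ Fintype.card ι := by
  rw [Fintype.card_piFinset, ← mul_prod_erase univ _ (mem_univ i), update_self, card_singleton,
    one_mul, ← card_univ, ← card_erase_add_one (mem_univ i), pow_succ]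
  refine mul_le_mul_of_nonneg_right ?_ (by positivity)
  rw [← Nat.cast_pow]
  refine Nat.cast_le.2 (prod_le_pow_card _ _ _ fun j hj => ?_)
  rw [update_of_ne (mem_erase.1 hj).1]
  exact h j

/-- difference in one coordinate -/
def df (i : ι) (h : ℤ) (F : (ι → ℤ) → ℝ) (t : ι → ℤ) : ℝ := F (update t i (t i + h)) - F t

/-- iterated differences along the list are constant -/
def Dc : List ι → ((ι → ℤ) → ℝ) → ℝ → Prop
  | [], F, c => ∀ t, F t = c
  | i :: L, F, c => ∀ h : ℤ, Dc L (df i h F) (h * c)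

noncomputable def bx (a b : ι → ℤ) : Finset (ι → ℤ) := Fintype.piFinset fun j => Ico (a j) (b j)

lemma card_Ico_le {a b : ℤ} {T : ℕ} (h : b - a ≤ T) : (Ico a b).card ≤ T := by
  rw [Int.card_Ico]
  omega

lemma vdc (F : (ι → ℤ) → ℝ) (a b : ι → ℤ) (T : ℕ) (h : ∀ j, b j - a j ≤ T) (i : ι) :
    ‖∑ t ∈ bx a b, ee (F t)‖ ^ 2 * T ≤ (T : ℝ) ^ Fintype.card ι *
      ∑ k ∈ Icc (-T : ℤ) T, ‖∑ t ∈ bx (update a i (max (a i) (a i - k)))
        (update b i (min (b i) (b i - k))), ee (df i k F t)‖ := by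
  obtain ⟨Y, hY⟩ : ∃ Y, Y = Fintype.piFinset (update (fun j => Ico (a j) (b j)) i {0}) := ⟨_, rfl⟩
  have h1 : ‖∑ t ∈ bx a b, ee (F t)‖ ^ 2 ≤
      Y.card * ∑ y ∈ Y, ‖∑ s ∈ Ico (a i) (b i), ee (F (update y i s))‖ ^ 2 := by
    unfold bx
    rw [sum_box _ i, ← hY]
    refine le_trans ?_ sq_sum_le_card_mul_sum_sq
    exact pow_le_pow_left₀ (norm_nonneg _) (norm_sum_le _ _) 2
  have h2 : ((∑ y ∈ Y, ‖∑ s ∈ Ico (a i) (b i), ee (F (update y i s))‖ ^ 2 : ℝ) : ℂ) =
      ∑ k ∈ Icc (-T : ℤ) T, ∑ t ∈ bx (update a i (max (a i) (a i - k)))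
        (update b i (min (b i) (b i - k))), ee (df i k F t) := by
    rw [Complex.ofReal_sum]
    have e : ∀ k : ℤ, ∑ t ∈ bx (update a i (max (a i) (a i - k)))
        (update b i (min (b i) (b i - k))), ee (df i k F t) =
        ∑ y ∈ Y, ∑ s ∈ Ico (max (a i) (a i - k)) (min (b i) (b i - k)),
          ee (F (update y i (s + k)) - F (update y i s)) := by
      intro k
      unfold bx
      rw [sum_box _ i, hY]
      refine sum_congr ?_ fun y _ => ?_
      · refine congrArg Fintype.piFinset (funext fun j => ?_)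
        by_cases hj : j = i
        · subst hj
          simp
        · simp [hj]
      · simp [df]
    rw [sum_congr rfl fun k _ => e k, sum_comm]
    refine sum_congr rfl fun y _ => ?_
    rw [sq_sum]
    have e2 : ∀ s : ℤ, ∑ s' ∈ Ico (a i) (b i), ee (F (update y i s') - F (update y i s)) =
        ∑ k ∈ Ico (a i - s) (b i - s), ee (F (update y i (s + k)) - F (update y i s)) := by
      intro s
      refine sum_nbij' (fun s' => s' - s) (fun k => s + k) ?_ ?_ ?_ ?_ ?_
      · intro x hx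
        simp only [mem_Ico] at hx ⊢
        omega
      · intro x hx
        simp only [mem_Ico] at hx ⊢
        omega
      · intro x _
        simp
      · intro x _
        simp
      · intro x _
        simp
    rw [sum_congr rfl fun s _ => e2 s]
    refine sum_comm' fun s k => ?_
    have := h i
    simp only [mem_Ico, mem_Icc]
    omega
  have h3 : ∑ y ∈ Y, ‖∑ s ∈ Ico (a i) (b i), ee (F (update y i s))‖ ^ 2 ≤
      ∑ k ∈ Icc (-T : ℤ) T, ‖∑ t ∈ bx (update a i (max (a i) (a i - k)))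
        (update b i (min (b i) (b i - k))), ee (df i k F t)‖ := by
    refine le_trans ?_ (norm_sum_le _ _)
    rw [← h2, Complex.norm_real]
    exact le_abs_self _
  have h4 := card_box' (fun j => Ico (a j) (b j)) T (fun j => card_Ico_le (h j)) i
  rw [← hY] at h4
  calc _ ≤ (Y.card * ∑ y ∈ Y, ‖∑ s ∈ Ico (a i) (b i), ee (F (update y i s))‖ ^ 2) * T := by
        gcongr
    _ = (Y.card * T) * ∑ y ∈ Y, ‖∑ s ∈ Ico (a i) (b i), ee (F (update y i s))‖ ^ 2 := by ring
    _ ≤ _ := by gcongr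

lemma norm_bx (F : (ι → ℤ) → ℝ) (a b : ι → ℤ) (T : ℕ) (h : ∀ j, b j - a j ≤ T) :
    ‖∑ t ∈ bx a b, ee (F t)‖ ≤ (T : ℝ) ^ Fintype.card ι := by
  refine (norm_sum_le _ _).trans ?_
  simp only [norm_ee, sum_const, nsmul_eq_mul, mul_one]
  exact card_box _ T fun j => card_Ico_le (h j)

lemma step (β η : ℝ) (C D T : ℕ) (A : Finset ℤ) (hT : 1 ≤ T) (h0 : 0 < η) (h1 : η ≤ 1 / 2)
    (hc : η ^ 4 * T ≤ A.card) (hA : ∀ h ∈ A, |h| ≤ T ∧ ∃ q : ℕ, 1 ≤ q ∧
      (q : ℝ) ≤ (η ^ 4)⁻¹ ^ C ∧ nd (q * (h * β)) ≤ (η ^ 4)⁻¹ ^ C / (T : ℝ) ^ (D + 1)) :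
    ∃ q : ℕ, 1 ≤ q ∧ (q : ℝ) ≤ η⁻¹ ^ ((4 * C + 4) * (4 * D + 14)) ∧
      nd (q * β) ≤ η⁻¹ ^ ((4 * C + 4) * (4 * D + 14)) / (T : ℝ) ^ (D + 2) := by
  classical
  have hu : 2 ≤ η⁻¹ := by
    rw [le_inv_comm₀ (by norm_num) h0]
    linarith
  have hT' : (1 : ℝ) ≤ T := by exact_mod_cast hT
  have hW : 1 ≤ (η ^ 4)⁻¹ ^ C := one_le_pow₀ (by rw [← inv_pow]; exact one_le_pow₀ (by linarith))
  have h16 : 16 ≤ (η ^ 4)⁻¹ := by
    rw [← inv_pow]
    exact le_trans (by norm_num) (pow_le_pow_left₀ (by norm_num) hu 4)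
  have eX : η⁻¹ ^ (4 * C + 4) = (η ^ 4)⁻¹ ^ C * (η ^ 4)⁻¹ := by
    rw [← pow_succ, ← inv_pow, ← pow_mul]
    congr 1
  rw [pow_mul, eX]
  have hc' : (T : ℝ) ≤ (η ^ 4)⁻¹ * A.card := by
    rw [← div_eq_inv_mul, le_div_iff₀ (by positivity)]
    linarith
  generalize (η ^ 4)⁻¹ ^ C = W at *
  generalize (η ^ 4)⁻¹ = v at *
  obtain ⟨X, hX⟩ : ∃ X, X = W * v := ⟨_, rfl⟩
  rw [← hX]
  have hX1 : 16 ≤ X := by nlinarith
  have hX2 : W ≤ X := by nlinarith
  have hX0 : 1 ≤ X := by linarith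
  by_cases hTX : (T : ℝ) ≤ X ^ 4
  · refine ⟨1, le_rfl, by simpa using one_le_pow₀ hX0, (nd_le_half _).trans ?_⟩
    rw [le_div_iff₀ (by positivity)]
    calc _ ≤ (T : ℝ) ^ (D + 2) := by
          have : (0 : ℝ) ≤ (T : ℝ) ^ (D + 2) := by positivity
          linarith
      _ ≤ (X ^ 4) ^ (D + 2) := by gcongr
      _ ≤ _ := by
          rw [← pow_mul]
          exact pow_le_pow_right₀ hX0 (by omega)
  have hTX' := (not_le.1 hTX).le
  choose! f hf1 hf2 hf3 using fun h hh => (hA h hh).2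
  have hN : ∃ q ∈ Icc 1 ⌊W⌋₊, (T : ℝ) ≤ X * (A.filter fun h => f h = q).card := by
    by_contra hn
    push Not at hn
    obtain ⟨q, hq, hm⟩ := exists_max_image (Icc 1 ⌊W⌋₊)
      (fun q => ((A.filter fun h => f h = q).card : ℝ))
      ⟨1, mem_Icc.2 ⟨le_rfl, Nat.le_floor (by simpa using hW)⟩⟩
    have a1 := card_fib A (Icc 1 ⌊W⌋₊) f _
      (fun h hh => mem_Icc.2 ⟨hf1 h hh, Nat.le_floor (hf2 h hh)⟩) hm
    have a2 := hn q hq
    rw [Nat.card_Icc, Nat.add_sub_cancel] at a1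
    have a3 : (⌊W⌋₊ : ℝ) ≤ W := Nat.floor_le (by linarith)
    have a4 : (A.card : ℝ) ≤ W * (A.filter fun h => f h = q).card :=
      a1.trans (mul_le_mul_of_nonneg_right a3 (by positivity))
    have a5 : v * A.card ≤ v * (W * (A.filter fun h => f h = q).card) :=
      mul_le_mul_of_nonneg_left a4 (by linarith)
    rw [hX] at a2
    nlinarith
  obtain ⟨q, hq, hqc⟩ := hN
  have hq1 := (mem_Icc.1 hq).1
  have hq2 : (q : ℝ) ≤ X :=
    ((Nat.cast_le.2 (mem_Icc.1 hq).2).trans (Nat.floor_le (by linarith))).trans hX2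
  have hP : (T : ℝ) ≤ (T : ℝ) ^ (D + 1) := le_self_pow₀ hT' (by omega)
  have hXX : 256 ≤ X ^ 2 := by nlinarith
  have hX4 : 256 * X ^ 2 ≤ T := by nlinarith
  obtain ⟨q', a1, a2, a3⟩ := vino (q * β) (X / (T : ℝ) ^ (D + 1)) X T
    (A.filter fun h => f h = q) hX0 (by positivity) (fun h hh => by
      obtain ⟨b1, b2⟩ := mem_filter.1 hh
      refine ⟨(hA h b1).1, ?_⟩
      have := hf3 h b1
      rw [b2, mul_left_comm] at this
      exact this.trans (by gcongr)) hqc (by
      rw [show 32 * (X / (T : ℝ) ^ (D + 1)) * X = 32 * X ^ 2 / (T : ℝ) ^ (D + 1) by ring,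
        div_le_one (by positivity)]
      linarith) (by linarith)
  refine ⟨q' * q, Nat.mul_pos a1 hq1, ?_, ?_⟩
  · push_cast
    calc _ ≤ (17 * X) * X := by gcongr
      _ ≤ X ^ 4 := by nlinarith
      _ ≤ _ := pow_le_pow_right₀ hX0 (by omega)
  · push_cast
    rw [mul_assoc]
    refine a3.trans ?_
    rw [show 272 * (X / (T : ℝ) ^ (D + 1)) * X ^ 2 / T = 272 * X ^ 3 / (T : ℝ) ^ (D + 2) by
      field_simp; ring]
    gcongr
    calc _ ≤ X ^ 3 * X ^ 3 := by
          gcongr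
          nlinarith
      _ ≤ _ := by
          rw [← pow_add]
          exact pow_le_pow_right₀ hX0 (by omega)

theorem main (L : List ι) : ∃ C : ℕ, ∀ (i : ι) (F : (ι → ℤ) → ℝ) (c η : ℝ) (T : ℕ) (a b : ι → ℤ),
    Dc (i :: L) F c → 1 ≤ T → 0 < η → η ≤ 1 / 2 → (∀ j, b j - a j ≤ T) →
    η * (T : ℝ) ^ Fintype.card ι ≤ ‖∑ t ∈ bx a b, ee (F t)‖ →
    ∃ q : ℕ, 1 ≤ q ∧ (q : ℝ) ≤ η⁻¹ ^ C ∧ nd (q * c) ≤ η⁻¹ ^ C / (T : ℝ) ^ (L.length + 1) := by
  induction L with
  | nil =>
    refine ⟨1, fun i F c η T a b hF hT h0 h1 hab hS => ⟨1, le_rfl, ?_, ?_⟩⟩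
    · simp only [Nat.cast_one, pow_one]
      rw [le_inv_comm₀ (by norm_num) h0]
      linarith
    have hT' : (0 : ℝ) < T := by exact_mod_cast hT
    have h4 := card_box' (fun j => Ico (a j) (b j)) T (fun j => card_Ico_le (hab j)) i
    unfold bx at hS
    rw [sum_box _ i] at hS
    generalize Fintype.piFinset (update (fun j => Ico (a j) (b j)) i {0}) = Y at hS h4
    have e : ∀ y s, F (update y i s) = F (update y i 0) + s * c := by
      intro y s
      have : F (update (update y i 0) i (update y i 0 i + s)) - F (update y i 0) = s * c :=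
        hF s (update y i 0)
      rw [update_idem, update_self, zero_add] at this
      linarith
    have h5 : 2 * nd c * ‖∑ y ∈ Y, ∑ s ∈ Ico (a i) (b i), ee (F (update y i s))‖ ≤ Y.card := by
      refine (mul_le_mul_of_nonneg_left (norm_sum_le _ _)
        (mul_nonneg zero_le_two (nd_nonneg c))).trans ?_
      rw [mul_sum, card_eq_sum_ones]
      push_cast
      refine sum_le_sum fun y _ => ?_
      rw [sum_congr rfl fun s _ => by rw [e y s]]
      exact geom _ _ _ _
    have h6 := mul_le_mul_of_nonneg_left hS (mul_nonneg zero_le_two (nd_nonneg c))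
    have h7 := mul_le_mul_of_nonneg_right (h6.trans h5) hT'.le
    have h8 : (0 : ℝ) < (T : ℝ) ^ Fintype.card ι := by positivity
    have h9 : (2 * nd c * η * T) * (T : ℝ) ^ Fintype.card ι ≤ 1 * (T : ℝ) ^ Fintype.card ι := by
      linarith
    have h10 := le_of_mul_le_mul_right h9 h8
    simp only [Nat.cast_one, one_mul, pow_one, List.length_nil, zero_add]
    rw [le_div_iff₀ hT', ← one_div, le_div_iff₀ h0]
    have : 0 ≤ nd c * η * T := by
      have := nd_nonneg c
      positivity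
    linarith
  | cons i' L ih =>
    obtain ⟨C, ih⟩ := ih
    refine ⟨(4 * C + 4) * (4 * L.length + 14), fun i F c η T a b hF hT h0 h1 hab hS => ?_⟩
    classical
    have hT' : (1 : ℝ) ≤ T := by exact_mod_cast hT
    have hab' : ∀ (k : ℤ) j, update b i (min (b i) (b i - k)) j -
        update a i (max (a i) (a i - k)) j ≤ T := by
      intro k j
      by_cases hj : j = i
      · subst hj
        have := hab j
        simp only [update_self]
        omega
      · simpa [hj] using hab j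
    have hv := vdc F a b T hab i
    obtain ⟨S, hS'⟩ : ∃ S : ℤ → ℝ, S = fun k => ‖∑ t ∈ bx (update a i (max (a i) (a i - k)))
        (update b i (min (b i) (b i - k))), ee (df i k F t)‖ := ⟨_, rfl⟩
    have hv' : ‖∑ t ∈ bx a b, ee (F t)‖ ^ 2 * T ≤ (T : ℝ) ^ Fintype.card ι *
      ∑ k ∈ Icc (-T : ℤ) T, S k := by rw [hS']; exact hv
    have hb : ∀ k, S k ≤ (T : ℝ) ^ Fintype.card ι := fun k => by
      rw [hS']; exact norm_bx _ _ _ T (hab' k)
    have h2 : η ^ 2 ≤ 1 / 4 := by nlinarith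
    refine step c η C L.length T
      ((Icc (-T : ℤ) T).filter fun k => η ^ 4 * (T : ℝ) ^ Fintype.card ι ≤ S k) hT h0 h1 ?_ ?_
    · have h8 : (0 : ℝ) < (T : ℝ) ^ Fintype.card ι := by positivity
      generalize (T : ℝ) ^ Fintype.card ι = Z at *
      rw [← sum_filter_add_sum_filter_not _ fun k => η ^ 4 * Z ≤ S k] at hv'
      have a1 : ∑ k ∈ (Icc (-T : ℤ) T).filter fun k => η ^ 4 * Z ≤ S k, S k ≤
          ((Icc (-T : ℤ) T).filter fun k => η ^ 4 * Z ≤ S k).card * Z := by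
        rw [← nsmul_eq_mul]
        exact sum_le_card_nsmul _ _ _ fun k _ => hb k
      have a2 : ∑ k ∈ (Icc (-T : ℤ) T).filter fun k => ¬η ^ 4 * Z ≤ S k, S k ≤
          3 * T * (η ^ 4 * Z) := by
        refine (sum_le_card_nsmul _ _ _ fun k hk => (not_le.1 (mem_filter.1 hk).2).le).trans ?_
        rw [nsmul_eq_mul]
        refine mul_le_mul_of_nonneg_right ?_ (by positivity)
        have := card_filter_le (Icc (-T : ℤ) T) fun k => ¬η ^ 4 * Z ≤ S k
        rw [Int.card_Icc] at this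
        exact_mod_cast this.trans (by omega)
      generalize (((Icc (-T : ℤ) T).filter fun k => η ^ 4 * Z ≤ S k).card : ℝ) = n at *
      have a3 : (η * Z) ^ 2 * T ≤ Z * (n * Z + 3 * T * (η ^ 4 * Z)) :=
        calc _ ≤ ‖∑ t ∈ bx a b, ee (F t)‖ ^ 2 * T := by gcongr
          _ ≤ _ := hv'.trans (by gcongr)
      have a4 : (η ^ 2 * T) * Z ^ 2 ≤ (n + 3 * T * η ^ 4) * Z ^ 2 := by linarith
      have a5 := le_of_mul_le_mul_right a4 (by positivity)
      have a6 : 4 * η ^ 2 * (η ^ 2 * T) ≤ 1 * (η ^ 2 * T) :=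
        mul_le_mul_of_nonneg_right (by linarith) (by positivity)
      linarith
    · intro k hk
      obtain ⟨b1, b2⟩ := mem_filter.1 hk
      refine ⟨abs_le.2 (mem_Icc.1 b1), ?_⟩
      rw [hS'] at b2
      exact ih i' _ _ _ T _ _ (hF k) hT (by positivity) (by nlinarith) (hab' k) b2

lemma fin_mul {η θ Z : ℝ} {C : ℕ} (k : ℤ) (hk : k ≠ 0) (h0 : 0 < η) (h1 : η ≤ 1 / 2) (hZ : 0 < Z)
    (h : ∃ q : ℕ, 1 ≤ q ∧ (q : ℝ) ≤ η⁻¹ ^ C ∧ nd (q * (k * θ)) ≤ η⁻¹ ^ C / Z) :
    ∃ q : ℕ, 1 ≤ q ∧ (q : ℝ) ≤ η⁻¹ ^ (C + k.natAbs) ∧ nd (q * θ) ≤ η⁻¹ ^ (C + k.natAbs) / Z := by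
  obtain ⟨q, a1, a2, a3⟩ := h
  have hu : 2 ≤ η⁻¹ := by
    rw [le_inv_comm₀ (by norm_num) h0]
    linarith
  refine ⟨q * k.natAbs, Nat.mul_pos a1 (Int.natAbs_pos.2 hk), ?_, ?_⟩
  · rw [pow_add, Nat.cast_mul]
    refine mul_le_mul a2 ?_ (by positivity) (by positivity)
    refine le_trans ?_ (pow_le_pow_left₀ (by norm_num) hu _)
    exact_mod_cast Nat.lt_two_pow_self.le
  · have e : nd ((q * k.natAbs : ℕ) * θ) = nd (q * (k * θ)) := by
      rw [Nat.cast_mul, Nat.cast_natAbs]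
      rcases abs_choice k with h | h <;> rw [h]
      · rw [mul_assoc]
      · rw [← nd_neg]
        congr 1
        push_cast
        ring
    rw [e]
    refine a3.trans ?_
    gcongr
    · linarith
    · omega

/-- functions of degree below `n` -/
def Lw : ℕ → ((ι → ℤ) → ℝ) → Prop
  | 0, F => ∀ t, F t = 0
  | n + 1, F => ∀ (i : ι) (h : ℤ), Lw n (df i h F)

omit [Fintype ι] in
lemma Lw.congr {n : ℕ} {F G : (ι → ℤ) → ℝ} (h : Lw n F) (e : ∀ t, G t = F t) : Lw n G := by
  rwa [funext e]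

omit [Fintype ι] in
lemma Dc.congr {L : List ι} {F G : (ι → ℤ) → ℝ} {c c' : ℝ} (h : Dc L F c) (e : ∀ t, G t = F t)
    (e' : c' = c) : Dc L G c' := by
  rwa [funext e, e']

omit [Fintype ι] in
lemma Lw.add {n : ℕ} : ∀ {F G : (ι → ℤ) → ℝ}, Lw n F → Lw n G → Lw n fun t => F t + G t := by
  induction n with
  | zero =>
    intro F G h1 h2 t
    simp only [h1 t, h2 t, add_zero]
  | succ n ih =>
    intro F G h1 h2 i h
    exact (ih (h1 i h) (h2 i h)).congr fun t => by unfold df; ring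

omit [Fintype ι] in
lemma Lw.smul {n : ℕ} (c : ℝ) : ∀ {F : (ι → ℤ) → ℝ}, Lw n F → Lw n fun t => c * F t := by
  induction n with
  | zero =>
    intro F h1 t
    simp only [h1 t, mul_zero]
  | succ n ih =>
    intro F h1 i h
    exact (ih (h1 i h)).congr fun t => by unfold df; ring

omit [Fintype ι] in
lemma lw_zero (n : ℕ) : Lw n fun _ : ι → ℤ => (0 : ℝ) := by
  induction n with
  | zero => exact fun _ => rfl
  | succ n ih => exact fun i h => ih.congr fun t => by simp [df]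

omit [Fintype ι] in
lemma Lw.succ {n : ℕ} : ∀ {F : (ι → ℤ) → ℝ}, Lw n F → Lw (n + 1) F := by
  induction n with
  | zero =>
    intro F h1 i h t
    simp [df, h1 _]
  | succ n ih =>
    intro F h1 i h
    exact ih (h1 i h)

omit [Fintype ι] in
lemma Lw.mono {n m : ℕ} {F : (ι → ℤ) → ℝ} (h : Lw n F) (hm : n ≤ m) : Lw m F := by
  induction m, hm using Nat.le_induction with
  | base => exact h
  | succ m _ ih => exact ih.succ

omit [Fintype ι] in
lemma Lw.sum {κ : Type} {n : ℕ} (s : Finset κ) (F : κ → (ι → ℤ) → ℝ) (h : ∀ a ∈ s, Lw n (F a)) :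
    Lw n fun t => ∑ a ∈ s, F a t := by
  classical
  induction s using Finset.induction_on with
  | empty => exact (lw_zero n).congr fun t => by simp
  | insert a s ha ih =>
    exact ((h a (mem_insert_self _ _)).add (ih fun b hb => h b (mem_insert_of_mem hb))).congr
      fun t => by rw [sum_insert ha]

omit [Fintype ι] in
lemma df_mul (i j : ι) (h : ℤ) (G : (ι → ℤ) → ℝ) (t : ι → ℤ) :
    df i h (fun t => t j * G t) t =
      t j * df i h G t + (if j = i then (h : ℝ) else 0) * (df i h G t + G t) := by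
  unfold df
  by_cases hj : j = i
  · subst hj
    simp only [update_self, if_true]
    push_cast
    ring
  · simp only [update_of_ne hj, if_neg hj]
    ring

omit [Fintype ι] in
lemma Lw.mulX {n : ℕ} (j : ι) : ∀ {G : (ι → ℤ) → ℝ}, Lw n G → Lw (n + 1) fun t => t j * G t := by
  induction n with
  | zero =>
    intro G h1
    exact (lw_zero 1).congr fun t => by rw [h1 t, mul_zero]
  | succ n ih =>
    intro G h1 i h
    exact ((ih (h1 i h)).add (((h1 i h).succ.add h1).smul _)).congr (df_mul i j h G)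

omit [Fintype ι] in
lemma Lw.mulX' {n : ℕ} (j : ι) {G : (ι → ℤ) → ℝ} (h : Lw (n - 1) G) :
    Lw n fun t => t j * G t := by
  obtain _ | n := n
  · intro t
    simp only [h t, mul_zero]
  · exact h.mulX j

omit [Fintype ι] in
lemma Lw.dc : ∀ (L : List ι) {F : (ι → ℤ) → ℝ}, Lw L.length F → Dc L F 0
  | [], _, h => h
  | i :: L, _, h => fun k => (Lw.dc L (h i k)).congr (fun _ => rfl) (mul_zero _)

omit [Fintype ι] in
lemma Dc.add : ∀ (L : List ι) {F G : (ι → ℤ) → ℝ} {c c' : ℝ}, Dc L F c → Dc L G c' →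
    Dc L (fun t => F t + G t) (c + c')
  | [], _, _, _, _, h1, h2 => fun t => by simp only [h1 t, h2 t]
  | i :: L, _, _, _, _, h1, h2 => fun k =>
    (Dc.add L (h1 k) (h2 k)).congr (fun t => by unfold df; ring) (mul_add _ _ _)

omit [Fintype ι] in
lemma Dc.smul (a : ℝ) : ∀ (L : List ι) {F : (ι → ℤ) → ℝ} {c : ℝ}, Dc L F c →
    Dc L (fun t => a * F t) (a * c)
  | [], _, _, h1 => fun t => by simp only [h1 t]
  | i :: L, _, _, h1 => fun k =>
    (Dc.smul a L (h1 k)).congr (fun t => by unfold df; ring) (mul_left_comm _ _ _)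

omit [Fintype ι] in
lemma Dc.opt : ∀ (L : List ι) {F : (ι → ℤ) → ℝ} {c : ℝ}, Dc L F c →
    Dc (L.map some) (fun t => F fun j => t (some j)) c
  | [], _, _, h1 => fun _ => h1 _
  | i :: L, F, _, h1 => fun k => (Dc.opt L (h1 k)).congr (fun t => by
      have : (fun j => update t (some i) (t (some i) + k) (some j)) =
          update (fun j => t (some j)) i (t (some i) + k) := by
        funext j
        by_cases hj : j = i
        · subst hj
          simp
        · simp [hj]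
      unfold df
      simp only [this]) rfl

open MvPolynomial

/-- a polynomial as a real function on the lattice -/
noncomputable def ev (c : MvPolynomial ι ℤ) (t : ι → ℤ) : ℝ := ((eval t c : ℤ) : ℝ)

lemma taylor (n : ℕ) : ∀ c : MvPolynomial ι ℤ, c.IsHomogeneous n → Lw (n + 1) (ev c) ∧
    ∀ (i : ι) (h : ℤ), Lw (n - 1) fun t => df i h (ev c) t - h * ev (pderiv i c) t := by
  induction n with
  | zero =>
    intro c hc
    rw [← totalDegree_zero_iff_isHomogeneous, totalDegree_eq_zero_iff_eq_C] at hc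
    rw [hc]
    exact ⟨fun i h t => by simp [df, ev], fun i h t => by simp [df, ev]⟩
  | succ n ih =>
    intro c hc
    have hd : ∀ j, (pderiv j c).IsHomogeneous n := fun j => hc.pderiv
    have hn : ((n : ℝ) + 1) ≠ 0 := by positivity
    have e1 : ∀ t, ev c t = ((n : ℝ) + 1)⁻¹ * ∑ j, t j * ev (pderiv j c) t := by
      intro t
      have := congrArg (fun p => ev p t) hc.sum_X_mul_pderiv
      simp only [ev, map_sum, map_mul, eval_X, nsmul_eq_mul, map_natCast] at this
      push_cast at this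
      unfold ev
      rw [this, ← mul_assoc, inv_mul_cancel₀ hn, one_mul]
    have e2 : ∀ i t, ev (pderiv i c) t = ((n : ℝ) + 1)⁻¹ * ∑ j,
        (t j * ev (pderiv i (pderiv j c)) t +
          (if j = i then (1 : ℝ) else 0) * ev (pderiv j c) t) := by
      intro i t
      have := congrArg (fun p => ev (pderiv i p) t) hc.sum_X_mul_pderiv
      simp only [map_nsmul] at this
      simp only [ev, map_sum, Derivation.leibniz, smul_eq_mul, map_add, map_mul, eval_X,
        nsmul_eq_mul, map_natCast, pderiv_X] at this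
      push_cast at this
      unfold ev
      rw [eq_inv_mul_iff_mul_eq₀ hn, ← this]
      refine sum_congr rfl fun j _ => ?_
      by_cases hj : j = i
      · subst hj
        simp
      · simp [hj]
    refine ⟨((Lw.sum univ _ fun j _ => (ih _ (hd j)).1.mulX j).smul _).congr e1, fun i h => ?_⟩
    refine ((Lw.sum univ _ fun j _ => (((ih _ (hd j)).2 i h).mulX' j).add
      (((ih _ (hd j)).1 i h).smul (if j = i then (h : ℝ) else 0))).smul
      ((n : ℝ) + 1)⁻¹).congr fun t => ?_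
    have e3 : df i h (ev c) t =
        ((n : ℝ) + 1)⁻¹ * ∑ j, df i h (fun t => t j * ev (pderiv j c) t) t := by
      unfold df
      rw [e1, e1, sum_sub_distrib, mul_sub]
    rw [e3, e2, mul_left_comm, ← mul_sub, mul_sum, ← sum_sub_distrib]
    congr 1
    refine sum_congr rfl fun j _ => ?_
    rw [df_mul]
    split_ifs <;> ring

lemma dc_cons {n : ℕ} {c : MvPolynomial ι ℤ} (hc : c.IsHomogeneous (n + 1)) (i : ι) (L : List ι)
    (hL : L.length = n) {k : ℝ} (h : Dc L (ev (pderiv i c)) k) : Dc (i :: L) (ev c) k := by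
  intro a
  have h1 : Lw L.length _ := hL ▸ (taylor _ c hc).2 i a
  exact (Dc.add L (Lw.dc L h1) (Dc.smul a L h)).congr (fun t => by ring) (zero_add _).symm

lemma exists_dc (n : ℕ) : ∀ c : MvPolynomial ι ℤ, c ≠ 0 → c.IsHomogeneous n →
    ∃ (L : List ι) (k : ℤ), L.length = n ∧ k ≠ 0 ∧ Dc L (ev c) k := by
  induction n with
  | zero =>
    intro c h0 hc
    rw [← totalDegree_zero_iff_isHomogeneous, totalDegree_eq_zero_iff_eq_C] at hc
    refine ⟨[], c.coeff 0, rfl, fun h => h0 (by rw [hc, h, map_zero]), fun t => ?_⟩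
    generalize c.coeff 0 = k at hc
    rw [hc]
    simp [ev]
  | succ n ih =>
    intro c h0 hc
    obtain ⟨i, hi⟩ : ∃ i, pderiv i c ≠ 0 := by
      by_contra h
      push Not at h
      have := hc.sum_X_mul_pderiv
      simp only [h, mul_zero, sum_const_zero] at this
      exact h0 ((nsmul_eq_zero_iff.1 this.symm).resolve_right (by omega))
    obtain ⟨L, k, h1, h2, h3⟩ := ih _ hi hc.pderiv
    exact ⟨i :: L, k, by simp [h1], h2, dc_cons hc i L h1 h3⟩

lemma dc_pow (i : ι) (n : ℕ) : Dc (List.replicate n i) (ev (X i ^ n)) (n.factorial : ℕ) := by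
  induction n with
  | zero => exact fun t => by simp [ev]
  | succ n ih =>
    refine dc_cons (isHomogeneous_X_pow i (n + 1)) i _ (by simp) ?_
    refine (Dc.smul ((n : ℝ) + 1) _ ih).congr (fun t => ?_) (by push_cast [Nat.factorial_succ]; ring)
    simp [ev]

end Weyl

open Weyl in
theorem stCount : StCount := by
  intro M _ Q t ht
  classical
  have hM : (0 : ℝ) < M := by exact_mod_cast Nat.pos_of_ne_zero (NeZero.ne M)
  have key : ∀ q ∈ Icc 1 Q, ((univ.filter fun β : ZMod M => nd (q * (β.val : ℝ) / M) ≤ t).card : ℝ)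
      ≤ 2 * Q * (2 * t * M + 1) := by
    intro q hq
    obtain ⟨h1, h2⟩ := mem_Icc.1 hq
    have h3 : (1 : ℝ) ≤ q := by exact_mod_cast h1
    have h4 : (q : ℝ) ≤ Q := by exact_mod_cast h2
    rw [← card_image_of_injective _ (f := fun β : ZMod M => (β.val : ℤ))
      fun a b hab => ZMod.val_injective M (Nat.cast_injective (R := ℤ) hab)]
    refine (count_near _ (Icc 0 q) 0 (q / M) t (by positivity) ht fun k hk => ?_).trans ?_
    · obtain ⟨β, hβ, rfl⟩ := mem_image.1 hk
      have e : (0 : ℝ) + ((β.val : ℤ) : ℝ) * (q / M) = q * (β.val : ℝ) / M := by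
        push_cast
        ring
      rw [e]
      refine ⟨(mem_filter.1 hβ).2, ?_⟩
      have a1 := abs_le.1 (abs_sub_round (q * (β.val : ℝ) / M))
      have a2 : (0 : ℝ) ≤ q * (β.val : ℝ) / M := by positivity
      have a3 : q * (β.val : ℝ) / M ≤ q := by
        rw [div_le_iff₀ hM]
        have : (β.val : ℝ) ≤ M := by exact_mod_cast (ZMod.val_lt β).le
        gcongr
      obtain ⟨n, hn⟩ : ∃ n, n = round (q * (β.val : ℝ) / M) := ⟨_, rfl⟩
      rw [← hn] at a1 ⊢
      have a4 : ((-1 : ℤ) : ℝ) < n := by push_cast; linarith [a1.2]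
      have a5 : (n : ℝ) < ((q + 1 : ℤ) : ℝ) := by push_cast; linarith [a1.1]
      have a6 := Int.cast_lt.1 a4
      have a7 := Int.cast_lt.1 a5
      exact mem_Icc.2 ⟨by omega, by omega⟩
    · rw [Int.card_Icc, sub_zero, show ((q : ℤ) + 1).toNat = q + 1 by omega,
        abs_of_pos (by positivity : (0 : ℝ) < q / M)]
      push_cast
      have a1 : 2 * t / (q / M) ≤ 2 * t * M := by
        rw [div_div_eq_mul_div]
        exact div_le_self (by positivity) h3
      have a2 : (0 : ℝ) ≤ 2 * t / (q / M) := by positivity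
      gcongr
      linarith
  calc _ ≤ (((Icc 1 Q).biUnion fun q =>
        univ.filter fun β : ZMod M => nd ((q : ℕ) * (β.val : ℝ) / M) ≤ t).card : ℝ) := by
        refine Nat.cast_le.2 (card_le_card fun β hβ => ?_)
        obtain ⟨q, h1, h2, h3⟩ := (mem_filter.1 hβ).2
        exact mem_biUnion.2 ⟨q, mem_Icc.2 ⟨h1, h2⟩, mem_filter.2 ⟨mem_univ _, h3⟩⟩
    _ ≤ ∑ q ∈ Icc 1 Q, ((univ.filter fun β : ZMod M => nd (q * (β.val : ℝ) / M) ≤ t).card : ℝ) := by
        exact_mod_cast card_biUnion_le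
    _ ≤ ∑ q ∈ Icc 1 Q, 2 * (Q : ℝ) * (2 * t * M + 1) := sum_le_sum key
    _ = _ := by
        simp
        ring


open Weyl in
theorem stWeyl : StWeyl := by
  intro d hd
  obtain ⟨d, rfl⟩ : ∃ e, d = e + 1 := ⟨d - 1, by omega⟩
  obtain ⟨C, hC⟩ := main (List.replicate d ())
  refine ⟨C + (((d + 1).factorial : ℕ) : ℤ).natAbs, fun p T η hp hT h0 h1 hS => ?_⟩
  have hT' : (0 : ℝ) < T := by exact_mod_cast hT
  refine fin_mul _ (by exact_mod_cast (d + 1).factorial_ne_zero) h0 h1 (by positivity) ?_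
  have hF : Dc (() :: List.replicate d ()) (fun t => p.eval ((t () : ℤ) : ℝ))
      ((((d + 1).factorial : ℕ) : ℤ) * p.coeff (d + 1)) := by
    have a1 : Lw (List.replicate (d + 1) ()).length fun t : Unit → ℤ => ∑ k ∈ range (d + 1),
        p.coeff k * ev (MvPolynomial.X () ^ k) t := by
      rw [List.length_replicate]
      exact Lw.sum _ _ fun k hk => ((taylor k _ (MvPolynomial.isHomogeneous_X_pow () k)).1.mono
        (mem_range.1 hk)).smul _
    refine (Dc.add _ (Lw.dc _ a1) (Dc.smul (p.coeff (d + 1)) _ (dc_pow () (d + 1)))).congr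
      (fun t => ?_) (by push_cast; ring)
    rw [Polynomial.eval_eq_sum_range' (Nat.lt_succ_of_le hp), sum_range_succ]
    simp [ev]
  have := hC () _ _ η T (fun _ => 0) (fun _ => T) hF hT h0 h1 (by simp) (by
    have e : ∑ t ∈ bx (fun _ : Unit => (0 : ℤ)) (fun _ => T), ee (p.eval ((t () : ℤ) : ℝ)) =
        ∑ t ∈ range T, ee (p.eval (t : ℝ)) := by
      refine sum_nbij' (fun t => (t ()).toNat) (fun t _ => t) ?_ ?_ ?_ ?_ ?_
      · intro t ht
        have := mem_Ico.1 (Fintype.mem_piFinset.1 ht ())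
        simp only [mem_range] at this ⊢
        omega
      · intro t ht
        refine Fintype.mem_piFinset.2 fun _ => mem_Ico.2 ?_
        simp only [mem_range] at ht ⊢
        omega
      · intro t ht
        have := mem_Ico.1 (Fintype.mem_piFinset.1 ht ())
        funext u
        exact Int.toNat_of_nonneg this.1
      · intro t _
        simp
      · intro t ht
        have := mem_Ico.1 (Fintype.mem_piFinset.1 ht ())
        rw [← Int.cast_natCast, Int.toNat_of_nonneg this.1]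
    rw [e]
    unfold av at hS
    rw [norm_smul, norm_inv, Real.norm_natCast, ← div_eq_inv_mul, le_div_iff₀ hT'] at hS
    simpa using hS)
  rwa [List.length_replicate] at this

open Weyl in
theorem stMulti : StMulti := by
  intro m e c hc0 hc
  obtain ⟨L, k, hL, hk, hD⟩ := exists_dc e c hc0 hc
  obtain ⟨C, hC⟩ := main (L.map some)
  refine ⟨C + k.natAbs, fun H θ η hH h0 h1 hS => ?_⟩
  have hH' : (0 : ℝ) < H := by exact_mod_cast hH
  refine fin_mul _ hk h0 h1 (by positivity) ?_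
  obtain ⟨g, hg⟩ : ∃ g : (Fin m → Fin H) → ℝ, g = fun t => ev c fun i => ((t i : ℕ) : ℤ) :=
    ⟨_, rfl⟩
  have hS' : η * (H : ℝ) ^ m ≤ ∑ t : Fin m → Fin H, ‖av H fun u => ee (θ * g t * u)‖ ^ 2 := by
    rw [hg]
    exact hS
  have a1 : ((∑ t : Fin m → Fin H, ‖∑ u ∈ range H, ee (θ * g t * u)‖ ^ 2 : ℝ) : ℂ) =
      ∑ v ∈ range H, ∑ t : Fin m → Fin H, ∑ u ∈ range H, ee (θ * g t * u - θ * g t * v) := by
    rw [Complex.ofReal_sum, sum_comm]
    exact sum_congr rfl fun t _ => sq_sum _ _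
  have a2 : ∑ _v ∈ range H, η * (H : ℝ) ^ (m + 1) ≤
      ∑ v ∈ range H, ‖∑ t : Fin m → Fin H, ∑ u ∈ range H, ee (θ * g t * u - θ * g t * v)‖ := by
    refine le_trans ?_ (norm_sum_le _ _)
    rw [← a1, Complex.norm_real]
    refine le_trans ?_ (le_abs_self _)
    unfold av at hS'
    simp only [norm_smul, norm_inv, Real.norm_natCast, mul_pow] at hS'
    rw [← mul_sum, inv_pow, ← div_eq_inv_mul, le_div_iff₀ (by positivity)] at hS'
    refine le_trans (le_of_eq ?_) hS'
    simp only [sum_const, card_range, nsmul_eq_mul]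
    ring
  obtain ⟨v, _, hv⟩ := exists_le_of_sum_le ⟨0, mem_range.2 hH⟩ a2
  have hF : Dc (none :: L.map some)
      (fun t => θ * ev c (fun j => t (some j)) * t none - θ * ev c (fun j => t (some j)) * v)
      (k * θ) := fun h =>
    (Dc.smul (h * θ) _ (Dc.opt L hD)).congr (fun t => by simp [df]; ring) (by ring)
  have := hC none _ _ η H (fun _ => 0) (fun _ => H) hF hH h0 h1 (by simp) (by
    rw [Fintype.card_option, Fintype.card_fin]
    refine hv.trans (le_of_eq (congrArg _ ?_))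
    rw [← sum_product' (f := fun t (u : ℕ) => ee (θ * g t * u - θ * g t * v))]
    refine sum_bij (fun z _ o => o.elim (z.2 : ℤ) fun i => ((z.1 i : ℕ) : ℤ)) ?_ ?_ ?_ ?_
    · intro z hz
      have := mem_range.1 (mem_product.1 hz).2
      refine Fintype.mem_piFinset.2 fun o => mem_Ico.2 ?_
      obtain _ | i := o
      · simp only [Option.elim]
        omega
      · have := (z.1 i).2
        simp only [Option.elim]
        omega
    · intro z _ w _ h
      refine Prod.ext (funext fun i => Fin.ext ?_) ?_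
      · exact Nat.cast_injective (congrFun h (some i))
      · exact Nat.cast_injective (congrFun h none)
    · intro t ht
      have h : ∀ o, 0 ≤ t o ∧ t o < H := fun o => mem_Ico.1 (Fintype.mem_piFinset.1 ht o)
      refine ⟨(fun i => ⟨(t (some i)).toNat, by have := h (some i); omega⟩, (t none).toNat),
        mem_product.2 ⟨mem_univ _, mem_range.2 (by have := h none; omega)⟩, funext fun o => ?_⟩
      obtain _ | i := o
      · exact Int.toNat_of_nonneg (h _).1
      · exact Int.toNat_of_nonneg (h _).1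
    · intro z _
      simp [hg])
  rwa [List.length_map, hL] at this

end Pool.Agent.Lib.MP_10e396_an
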