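import Pool.Agent.Lib.MP_10e396_an.Asm3
import Pool.Agent.Lib.MP_10e396_an.Prob
import Pool.Agent.Lib.MP_10e396_an.Chaos
import Pool.Agent.Lib.MP_10e396_an.Weyl
import Pool.Agent.Lib.MP_10e396_an.Pet
import Pool.Agent.Lib.MP_10e396_an.Uctl
import Pool.Agent.Lib.MP_10e396_an.Inv
import Pool.Agent.Lib.MP_10e396_an.Mart
import Pool.Agent.Lib.MP_10e396_an.CZ
import Pool.Agent.Lib.MP_10e396_an.Lin
import Pool.Agent.Lib.MP_10e396_an.IW
import Pool.Agent.Lib.MP_10e396_an.SS
import Pool.Agent.Lib.MP_10e396_an.Apx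
import Pool.Agent.Lib.MP_10e396_an.LinM
import Pool.Agent.Lib.MP_10e396_an.T1
import Pool.Agent.Lib.MP_10e396_an.T2
import Pool.Agent.Lib.MP_10e396_an.Minor
import Pool.Agent.Lib.MP_10e396_an.Trans

/-! All parts together. -/

set_option autoImplicit false

namespace Pool.Agent.Lib.MP_10e396_an

theorem disc_holds : StDisc := by
  have hMT := stMT stLayer stDual
  have hRC := stRC stLayer stDual
  have hWS := stWS stBr stLayer
  have hA := stLinA hWS hMT hRC stSq
  have hB := stLinB hWS hMT hRC stSq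
  have hC := stLinC hMT hRC
  have hI := stIW stChaos stLayer stDual stRT
  have hS := stSS (stInv (stUctl stPet stMulti stCount) stWeyl stCount) hI stWeyl stCount
  have h3 := stR3 stSq
  have hD := stLinD hA hC hI h3
  exact stDisc stErrS stErrL hD (stLinL hA hI) (stT1S h3 hC) (stT1L (stR4 stKh) hB)
    (stT2 stErrS hD stWeyl) (stMinor hS hI) (fun _ => ssp_left hS) (fun _ => ssp_right hS)

theorem final_holds.{u} : StFinal.{u} := stFinal disc_holds

end Pool.Agent.Lib.MP_10e396_an
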