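import Pool.Agent.Lib.MP_10e396_an.Spec

/-! Elementary facts on the weak quadratic variation and on `lp`. -/

set_option autoImplicit false

namespace Pool.Agent.Lib.MP_10e396_an.Mart

open Finset

noncomputable section

theorem tele (g : ℕ → ℕ → ℝ) (φ : ℕ → ℝ) (h : ∀ u v, v ≤ u → g u v ≤ φ u - φ v) (J : ℕ)
    (c : ℕ → ℕ) (hc : Monotone c) : ∑ j ∈ range J, g (c (j + 1)) (c j) ≤ φ (c J) - φ (c 0) := by
  rw [← sum_range_sub (fun j => φ (c j)) J]
  exact sum_le_sum fun j _ => h _ _ (hc (Nat.le_succ j))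

section wb

variable {E : Type} [SeminormedAddCommGroup E]

theorem vr_nonneg (a : ℕ → E) (J : ℕ) (c : ℕ → ℕ) : 0 ≤ vr a J c :=
  sum_nonneg fun _ _ => norm_nonneg _

theorem wb_nonneg {a : ℕ → E} {w : ℝ} (h : Wb a w) : 0 ≤ w := (norm_nonneg _).trans (h.1 0)

theorem wb_mono {a : ℕ → E} {w w' : ℝ} (h : Wb a w) (hw : w ≤ w') : Wb a w' :=
  ⟨fun i => (h.1 i).trans hw, fun J c hc =>
    (h.2 J c hc).trans (mul_le_mul_of_nonneg_left hw (Real.sqrt_nonneg _))⟩

theorem wb_add {a b : ℕ → E} {w w' : ℝ} (h : Wb a w) (h' : Wb b w') :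
    Wb (fun i => a i + b i) (w + w') := by
  refine ⟨fun i => (norm_add_le _ _).trans (add_le_add (h.1 i) (h'.1 i)), fun J c hc => ?_⟩
  have h1 := h.2 J c hc
  have h2 := h'.2 J c hc
  have : vr (fun i => a i + b i) J c ≤ vr a J c + vr b J c := by
    unfold vr
    rw [← sum_add_distrib]
    refine sum_le_sum fun j _ => ?_
    rw [add_sub_add_comm]
    exact norm_add_le _ _
  linarith [mul_add (√J) w w']

theorem wb_comp {a : ℕ → E} {w : ℝ} (h : Wb a w) (φ : ℕ → ℕ) (hφ : Monotone φ) :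
    Wb (fun i => a (φ i)) w :=
  ⟨fun _ => h.1 _, fun J c hc => h.2 J (fun j => φ (c j)) (hφ.comp hc)⟩

theorem one_le_sqrt {J : ℕ} (hJ : J ≠ 0) : (1 : ℝ) ≤ √J := by
  rw [Real.one_le_sqrt]
  exact_mod_cast Nat.one_le_iff_ne_zero.2 hJ

/-- bound by total variation -/
theorem wb_of_bound {a : ℕ → E} {w : ℝ} (h1 : ∀ i, ‖a i‖ ≤ w)
    (h2 : ∀ (J : ℕ) (c : ℕ → ℕ), J ≠ 0 → Monotone c → vr a J c ≤ √J * w) : Wb a w := by
  refine ⟨h1, fun J c hc => ?_⟩
  rcases eq_or_ne J 0 with rfl | hJ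
  · simp [vr]
  · exact h2 J c hJ hc

/-- the optimal bound -/
def wopt (a : ℕ → E) : ℝ := sInf {w | Wb a w}

theorem wopt_le {a : ℕ → E} {w : ℝ} (h : Wb a w) : wopt a ≤ w :=
  csInf_le ⟨0, fun _ hw => wb_nonneg hw⟩ h

theorem wb_wopt {a : ℕ → E} {w : ℝ} (h : Wb a w) : Wb a (wopt a) := by
  refine wb_of_bound (fun i => le_csInf ⟨w, h⟩ fun w' hw' => hw'.1 i) fun J c hJ hc => ?_
  have h1 : (0 : ℝ) < √J := lt_of_lt_of_le one_pos (one_le_sqrt hJ)
  rw [← div_le_iff₀' h1]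
  exact le_csInf ⟨w, h⟩ fun w' hw' => (div_le_iff₀' h1).2 (hw'.2 J c hc)

/-- indicator of an interval: total variation at most two -/
theorem ind_var (U : ℕ → Prop) [DecidablePred U]
    (hU : ∀ a b d, a ≤ b → b ≤ d → U a → U d → U b) (J : ℕ) (c : ℕ → ℕ) (hc : Monotone c) :
    ∑ j ∈ range J, |(if U (c (j + 1)) then (1 : ℝ) else 0) - (if U (c j) then 1 else 0)| ≤ 2 := by
  classical
  let P : ℕ → Prop := fun u => ∃ a, a ≤ u ∧ U a
  let φ : ℕ → ℝ := fun u => (if P u then 1 else 0) + (if P u ∧ ¬ U u then 1 else 0)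
  have h := tele (fun u v => |(if U u then (1 : ℝ) else 0) - (if U v then 1 else 0)|) φ ?_ J c hc
  · refine h.trans ?_
    have h1 : φ (c J) ≤ 2 := by
      simp only [φ]
      split_ifs <;> norm_num
    have h2 : 0 ≤ φ (c 0) := by
      simp only [φ]
      split_ifs <;> norm_num
    linarith
  · intro u v hvu
    have a1 : U u → P u := fun h => ⟨u, le_rfl, h⟩
    have a2 : U v → P v := fun h => ⟨v, le_rfl, h⟩
    have a3 : P v → P u := fun ⟨a, ha, h⟩ => ⟨a, ha.trans hvu, h⟩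
    have a4 : P v → U u → U v := fun ⟨a, ha, h⟩ h' => hU a v u ha hvu h h'
    simp only [φ]
    by_cases b1 : U u <;> by_cases b2 : U v <;> by_cases b3 : P u <;> by_cases b4 : P v <;>
      simp_all

theorem wb_cut {a : ℕ → E} {w : ℝ} (h : Wb a w) (U : ℕ → Prop) [DecidablePred U]
    (hU : ∀ a b d, a ≤ b → b ≤ d → U a → U d → U b) :
    Wb (fun i => if U i then a i else 0) (3 * w) := by
  have hw := wb_nonneg h
  refine wb_of_bound (fun i => ?_) fun J c hJ hc => ?_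
  · have := h.1 i
    split_ifs
    · linarith
    · simp [hw]
  · have h1 := h.2 J c hc
    have h2 := ind_var U hU J c hc
    have h3 : vr (fun i => if U i then a i else 0) J c ≤ vr a J c + w *
        ∑ j ∈ range J, |(if U (c (j + 1)) then (1 : ℝ) else 0) - (if U (c j) then 1 else 0)| := by
      unfold vr
      rw [mul_sum, ← sum_add_distrib]
      refine sum_le_sum fun j _ => ?_
      have e1 := h.1 (c (j + 1))
      have e2 := h.1 (c j)
      have e3 := norm_nonneg (a (c (j + 1)) - a (c j))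
      by_cases b1 : U (c (j + 1)) <;> by_cases b2 : U (c j)
      · simp [b1, b2]
      · simp only [b1, b2, if_true, if_false, sub_zero, abs_one, mul_one]
        linarith
      · simp only [b1, b2, if_true, if_false, zero_sub, abs_neg, abs_one, mul_one, norm_neg]
        linarith
      · simp [b1, b2]
    have h4 := one_le_sqrt hJ
    nlinarith [mul_le_mul_of_nonneg_left h2 hw, mul_le_mul_of_nonneg_right h4 hw]

theorem wb_sq (b : ℕ → E) (s : Finset ℕ) (hb : ∀ i, i ∉ s → b i = 0) :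
    Wb b (2 * √(∑ i ∈ s, ‖b i‖ ^ 2)) := by
  set σ := ∑ i ∈ s, ‖b i‖ ^ 2 with hσ
  have hσ0 : 0 ≤ σ := sum_nonneg fun _ _ => sq_nonneg _
  let ψ : ℕ → ℝ := fun u => ∑ i ∈ range u, ‖b i‖ ^ 2
  have ψ0 : ∀ u, 0 ≤ ψ u := fun u => sum_nonneg fun _ _ => sq_nonneg _
  have ψ1 : ∀ u, ψ u ≤ σ := fun u => by
    have : ψ u = ∑ i ∈ range u ∩ s, ‖b i‖ ^ 2 := by
      refine (sum_subset inter_subset_left fun i h1 h2 => ?_).symm
      rw [hb i fun h => h2 (mem_inter.2 ⟨h1, h⟩)]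
      simp
    rw [this]
    exact sum_le_sum_of_subset_of_nonneg inter_subset_right fun _ _ _ => sq_nonneg _
  have ψm : Monotone ψ := fun u v huv =>
    sum_le_sum_of_subset_of_nonneg (range_mono huv) fun _ _ _ => sq_nonneg _
  have ψs : ∀ u, ψ (u + 1) = ψ u + ‖b u‖ ^ 2 := fun u => sum_range_succ _ _
  refine ⟨fun i => ?_, fun J c hc => ?_⟩
  · have h1 : ‖b i‖ ≤ √σ := Real.le_sqrt_of_sq_le (by linarith [ψs i, ψ0 i, ψ1 (i + 1)])
    linarith [Real.sqrt_nonneg σ]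
  · have h := tele (fun u v => ‖b u - b v‖ ^ 2) (fun u => 2 * ψ (u + 1) + 2 * ψ u) ?_ J c hc
    · have h2 : ∑ j ∈ range J, ‖b (c (j + 1)) - b (c j)‖ ^ 2 ≤ 4 * σ := by
        refine h.trans ?_
        linarith [ψ1 (c J + 1), ψ1 (c J), ψ0 (c 0 + 1), ψ0 (c 0)]
      have h3 := sq_sum_le_card_mul_sum_sq (s := range J) (f := fun j => ‖b (c (j + 1)) - b (c j)‖)
      rw [card_range] at h3
      have h4 : vr b J c ^ 2 ≤ (√J * (2 * √σ)) ^ 2 := by
        rw [mul_pow, mul_pow, Real.sq_sqrt (Nat.cast_nonneg _), Real.sq_sqrt hσ0]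
        refine h3.trans ?_
        have : (0 : ℝ) ≤ J := Nat.cast_nonneg _
        nlinarith
      exact (pow_le_pow_iff_left₀ (vr_nonneg _ _ _) (by positivity) two_ne_zero).1 h4
    · intro u v hvu
      rcases hvu.eq_or_lt with rfl | hlt
      · simp
      · have e1 : ψ (v + 1) ≤ ψ u := ψm hlt
        have e2 := ψs u
        have e3 := ψs v
        have e4 := norm_sub_le (b u) (b v)
        have e5 : ‖b u - b v‖ ^ 2 ≤ (‖b u‖ + ‖b v‖) ^ 2 := pow_le_pow_left₀ (norm_nonneg _) e4 2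
        nlinarith [sq_nonneg (‖b u‖ - ‖b v‖)]

end wb

section lp

variable {X A B D : Type} [Fintype X] [SeminormedAddCommGroup A] [SeminormedAddCommGroup B]
  [SeminormedAddCommGroup D]

theorem lp_nonneg (p : ℝ) (f : X → A) : 0 ≤ lp p f :=
  Real.rpow_nonneg (sum_nonneg fun _ _ => Real.rpow_nonneg (norm_nonneg _) _) _

theorem lp_mul {p : ℝ} (hp : 0 < p) (g : X → B) (a : ℝ) (ha : 0 ≤ a) :
    (∑ x, (a * ‖g x‖) ^ p) ^ p⁻¹ = a * lp p g := by
  unfold lp
  simp_rw [Real.mul_rpow ha (norm_nonneg _)]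
  rw [← mul_sum, Real.mul_rpow (Real.rpow_nonneg ha _)
    (sum_nonneg fun _ _ => Real.rpow_nonneg (norm_nonneg _) _), Real.rpow_rpow_inv ha hp.ne']

theorem lp_le_add {p : ℝ} (hp : 1 ≤ p) (f : X → A) (g : X → B) (h : X → D) (a b : ℝ) (ha : 0 ≤ a)
    (hb : 0 ≤ b) (hf : ∀ x, ‖f x‖ ≤ a * ‖g x‖ + b * ‖h x‖) :
    lp p f ≤ a * lp p g + b * lp p h := by
  have hp0 : 0 < p := lt_of_lt_of_le one_pos hp
  have h1 := Real.Lp_add_le_of_nonneg (s := univ) (f := fun x => a * ‖g x‖)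
    (g := fun x => b * ‖h x‖) hp (fun _ _ => by positivity) (fun _ _ => by positivity)
  rw [one_div, lp_mul hp0 g a ha, lp_mul hp0 h b hb] at h1
  refine le_trans ?_ h1
  exact Real.rpow_le_rpow (sum_nonneg fun _ _ => Real.rpow_nonneg (norm_nonneg _) _)
    (sum_le_sum fun x _ => Real.rpow_le_rpow (norm_nonneg _) (hf x) hp0.le) (inv_nonneg.2 hp0.le)

theorem lp_two (f : X → A) : lp 2 f = √(∑ x, ‖f x‖ ^ 2) := by
  unfold lp
  rw [Real.sqrt_eq_rpow, one_div]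
  simp only [Real.rpow_two]

end lp

end

end Pool.Agent.Lib.MP_10e396_an.Mart
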