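import Pool.Agent.Lib.MP_10e396_an.MartA

/-! Greedy anchors and the good lambda estimate for conditionally symmetric martingales. -/

set_option autoImplicit false

namespace Pool.Agent.Lib.MP_10e396_an.Mart

open Finset

noncomputable section

variable {E : Type} [NormedAddCommGroup E] [InnerProductSpace ℂ E]

/-- greedy anchors of the running sums -/
def anc (θ : ℝ) (d : ℕ → E) : ℕ → E
  | 0 => 0
  | k + 1 => if θ ≤ ‖∑ i ∈ range (k + 1), d i - anc θ d k‖ then ∑ i ∈ range (k + 1), d i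
      else anc θ d k

def mart (θ : ℝ) (d : ℕ → E) (k : ℕ) : ℝ :=
  RCLike.re (inner ℂ (∑ i ∈ range k, d i - anc θ d k) (d k))

omit [InnerProductSpace ℂ E] in
theorem anc_close {θ : ℝ} (hθ : 0 ≤ θ) (d : ℕ → E) (k : ℕ) :
    ‖∑ i ∈ range k, d i - anc θ d k‖ ≤ θ := by
  cases k with
  | zero => simpa [anc] using hθ
  | succ k =>
    rw [anc]
    split_ifs with h
    · simpa using hθ
    · exact (not_le.1 h).le

omit [InnerProductSpace ℂ E] in
theorem anc_jump (θ : ℝ) (d : ℕ → E) (k : ℕ) :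
    θ * ‖anc θ d (k + 1) - anc θ d k‖ ≤ ‖anc θ d (k + 1) - anc θ d k‖ ^ 2 := by
  rw [anc]
  split_ifs with h
  · rw [sq]
    exact mul_le_mul_of_nonneg_right h (norm_nonneg _)
  · simp

omit [InnerProductSpace ℂ E] in
theorem anc_congr (θ : ℝ) (d d' : ℕ → E) (k : ℕ) (h : ∀ i < k, d i = d' i) :
    anc θ d k = anc θ d' k := by
  induction k with
  | zero => rfl
  | succ k ih =>
    have e : ∑ i ∈ range (k + 1), d i = ∑ i ∈ range (k + 1), d' i :=
      sum_congr rfl fun i hi => h i (mem_range.1 hi)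
    rw [anc, anc, e, ih fun i hi => h i (hi.trans (Nat.lt_succ_self k))]

theorem anc_id (θ : ℝ) (d : ℕ → E) (k : ℕ) :
    ∑ i ∈ range k, ‖anc θ d (i + 1) - anc θ d i‖ ^ 2 + ‖∑ i ∈ range k, d i - anc θ d k‖ ^ 2 =
      ∑ i ∈ range k, ‖d i‖ ^ 2 + 2 * ∑ i ∈ range k, mart θ d i := by
  induction k with
  | zero => simp [anc]
  | succ k ih =>
    have e1 : ‖anc θ d (k + 1) - anc θ d k‖ ^ 2 +
        ‖∑ i ∈ range (k + 1), d i - anc θ d (k + 1)‖ ^ 2 =
        ‖∑ i ∈ range (k + 1), d i - anc θ d k‖ ^ 2 := by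
      rw [anc]
      split_ifs with h <;> simp
    have e2 : ∑ i ∈ range (k + 1), d i - anc θ d k = (∑ i ∈ range k, d i - anc θ d k) + d k := by
      rw [sum_range_succ]
      abel
    have e3 := norm_add_sq (𝕜 := ℂ) (∑ i ∈ range k, d i - anc θ d k) (d k)
    rw [← e2] at e3
    rw [sum_range_succ (fun i => ‖anc θ d (i + 1) - anc θ d i‖ ^ 2),
      sum_range_succ (fun i => ‖d i‖ ^ 2), sum_range_succ (fun i => mart θ d i)]
    have e4 : mart θ d k = RCLike.re (inner ℂ (∑ i ∈ range k, d i - anc θ d k) (d k)) := rfl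
    linarith

theorem mart_le {θ : ℝ} (hθ : 0 ≤ θ) (d : ℕ → E) (k : ℕ) : |mart θ d k| ≤ θ * ‖d k‖ :=
  (RCLike.abs_re_le_norm _).trans ((norm_inner_le_norm _ _).trans
    (mul_le_mul_of_nonneg_right (anc_close hθ d k) (norm_nonneg _)))

theorem anc_tv {θ t : ℝ} (hθ : 0 < θ) (d : ℕ → E) (n : ℕ) (h1 : ∑ i ∈ range n, ‖d i‖ ^ 2 ≤ t ^ 2)
    (h2 : |∑ i ∈ range n, mart θ d i| ≤ t ^ 2) :
    ∑ i ∈ range n, ‖anc θ d (i + 1) - anc θ d i‖ ≤ 3 * t ^ 2 / θ := by
  rw [le_div_iff₀' hθ, mul_sum]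
  refine (sum_le_sum fun i _ => anc_jump θ d i).trans ?_
  have := anc_id θ d n
  linarith [le_abs_self (∑ i ∈ range n, mart θ d i), sq_nonneg ‖∑ i ∈ range n, d i - anc θ d n‖]

omit [InnerProductSpace ℂ E] in
theorem norm_sub_le_tv (a : ℕ → E) {u v : ℕ} (h : u ≤ v) :
    ‖a u - a v‖ ≤ ∑ i ∈ range v, ‖a (i + 1) - a i‖ - ∑ i ∈ range u, ‖a (i + 1) - a i‖ := by
  induction v, h using Nat.le_induction with
  | base => simp
  | succ v _ ih =>
    rw [sum_range_succ]
    have := norm_sub_le_norm_sub_add_norm_sub (a u) (a v) (a (v + 1))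
    rw [norm_sub_rev (a v)] at this
    linarith

theorem det {t : ℝ} (ht : 0 < t) (m : E) (d : ℕ → E) (n : ℕ) (h0 : ‖m‖ ≤ t)
    (h1 : ∑ i ∈ range n, ‖d i‖ ^ 2 ≤ t ^ 2)
    (h2 : ∀ k : ℕ, |∑ i ∈ range n, mart (t / 2 ^ k) d i| ≤ t ^ 2) :
    Wb (fun j => m + ∑ i ∈ range (n - j), d i) (7 * t) := by
  have tvm : ∀ (θ : ℝ) (u : ℕ), u ≤ n → ∑ i ∈ range u, ‖anc θ d (i + 1) - anc θ d i‖ ≤
      ∑ i ∈ range n, ‖anc θ d (i + 1) - anc θ d i‖ := fun θ u hu =>
    sum_le_sum_of_subset_of_nonneg (range_mono hu) fun _ _ _ => norm_nonneg _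
  refine wb_of_bound (fun j => ?_) fun J c hJ hc => ?_
  · have e1 := anc_tv ht d n h1 (by simpa using h2 0)
    have e2 := anc_close ht.le d (n - j)
    have e3 := norm_sub_le_tv (anc t d) (Nat.zero_le (n - j))
    have e4 := tvm t (n - j) (Nat.sub_le _ _)
    have e5 : 3 * t ^ 2 / t = 3 * t := by field_simp
    simp only [anc, zero_sub, norm_neg, range_zero, sum_empty, sub_zero] at e3 e4 e1
    have e6 := norm_add_le (∑ i ∈ range (n - j), d i - anc t d (n - j)) (anc t d (n - j))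
    rw [sub_add_cancel] at e6
    linarith [norm_add_le m (∑ i ∈ range (n - j), d i)]
  · set k := Nat.log 4 J with hk
    have k1 : (4 : ℝ) ^ k ≤ J := by exact_mod_cast Nat.pow_log_le_self 4 hJ
    have k2 : (J : ℝ) ≤ 4 ^ (k + 1) := by
      exact_mod_cast (Nat.lt_pow_succ_log_self (by norm_num : 1 < 4) J).le
    have k0 : (4 : ℝ) ^ k = (2 ^ k) ^ 2 := by rw [← pow_mul, mul_comm, pow_mul]; norm_num
    have k3 : (2 : ℝ) ^ k ≤ √J := Real.le_sqrt_of_sq_le (k0 ▸ k1)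
    have k4 : √J ≤ 2 * (2 : ℝ) ^ k := by
      rw [Real.sqrt_le_iff]
      refine ⟨by positivity, ?_⟩
      rw [mul_pow, ← k0]
      rw [pow_succ] at k2
      linarith
    set θ := t / 2 ^ k with hθ
    have hθ0 : 0 < θ := by positivity
    have e1 := anc_tv hθ0 d n h1 (h2 k)
    have e2 := tele (fun u v => ‖anc θ d (n - u) - anc θ d (n - v)‖)
      (fun u => -∑ i ∈ range (n - u), ‖anc θ d (i + 1) - anc θ d i‖) (fun u v hvu => by
        have := norm_sub_le_tv (anc θ d) (Nat.sub_le_sub_left hvu n)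
        linarith) J c hc
    have e3 := tvm θ (n - c 0) (Nat.sub_le _ _)
    have e4 : 0 ≤ ∑ i ∈ range (n - c J), ‖anc θ d (i + 1) - anc θ d i‖ :=
      sum_nonneg fun _ _ => norm_nonneg _
    have e5 : vr (fun j => m + ∑ i ∈ range (n - j), d i) J c ≤ ∑ j ∈ range J,
        (2 * θ + ‖anc θ d (n - c (j + 1)) - anc θ d (n - c j)‖) := by
      refine sum_le_sum fun j _ => ?_
      have a1 := anc_close hθ0.le d (n - c (j + 1))
      have a2 := anc_close hθ0.le d (n - c j)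
      rw [norm_sub_rev] at a2
      have a3 := norm_sub_le_norm_sub_add_norm_sub (∑ i ∈ range (n - c (j + 1)), d i)
        (anc θ d (n - c (j + 1))) (∑ i ∈ range (n - c j), d i)
      have a4 := norm_sub_le_norm_sub_add_norm_sub (anc θ d (n - c (j + 1)))
        (anc θ d (n - c j)) (∑ i ∈ range (n - c j), d i)
      simp only [add_sub_add_left_eq_sub]
      linarith
    rw [sum_add_distrib, sum_const, card_range, nsmul_eq_mul] at e5
    have e6 : 3 * t ^ 2 / θ = 3 * t * 2 ^ k := by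
      rw [hθ]
      field_simp
    have e7 : (J : ℝ) * (2 * θ) ≤ √J * (4 * t) := by
      have a1 : (J : ℝ) = √J * √J := (Real.mul_self_sqrt (Nat.cast_nonneg _)).symm
      have a2 : √J * θ ≤ 2 * t := by
        rw [hθ, ← mul_div_assoc, div_le_iff₀ (by positivity)]
        nlinarith
      calc (J : ℝ) * (2 * θ) = √J * (2 * (√J * θ)) := by
            conv_lhs => rw [a1]
            ring
        _ ≤ √J * (4 * t) := mul_le_mul_of_nonneg_left (by linarith) (Real.sqrt_nonneg _)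
    nlinarith [mul_le_mul_of_nonneg_left k3 ht.le]

open Classical in
/-- increments stopped before the square function exceeds `t` -/
def stp (t : ℝ) (d : ℕ → E) (k : ℕ) : E :=
  if ∑ i ∈ range (k + 1), ‖d i‖ ^ 2 ≤ t ^ 2 then d k else 0

omit [InnerProductSpace ℂ E] in
theorem stp_le (t : ℝ) (d : ℕ → E) (n : ℕ) :
    ∑ i ∈ range n, ‖stp t d i‖ ^ 2 ≤ ∑ i ∈ range n, ‖d i‖ ^ 2 := by
  refine sum_le_sum fun i _ => ?_
  unfold stp
  split_ifs
  · exact le_rfl
  · simp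

omit [InnerProductSpace ℂ E] in
theorem stp_le' (t : ℝ) (d : ℕ → E) (n : ℕ) : ∑ i ∈ range n, ‖stp t d i‖ ^ 2 ≤ t ^ 2 := by
  induction n with
  | zero => simpa using sq_nonneg t
  | succ n ih =>
    by_cases h : ∑ i ∈ range (n + 1), ‖d i‖ ^ 2 ≤ t ^ 2
    · exact (stp_le t d _).trans h
    · rw [sum_range_succ, stp, if_neg h]
      simpa using ih

omit [InnerProductSpace ℂ E] in
theorem stp_eq {t : ℝ} {d : ℕ → E} {n : ℕ} (h : ∑ i ∈ range n, ‖d i‖ ^ 2 ≤ t ^ 2) (k : ℕ)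
    (hk : k < n) : stp t d k = d k :=
  if_pos ((sum_le_sum_of_subset_of_nonneg (range_mono hk) fun _ _ _ => sq_nonneg _).trans h)

theorem sum_pow_le (a : ℕ → ℝ) (s : Finset ℕ) (ha : ∀ i, 0 ≤ a i) (r : ℕ) (hr : 1 ≤ r) :
    ∑ i ∈ s, a i ^ r ≤ (∑ i ∈ s, a i) ^ r := by
  obtain ⟨q, rfl⟩ := Nat.exists_eq_add_of_le' hr
  rw [pow_succ, mul_sum]
  refine sum_le_sum fun i hi => ?_
  rw [pow_succ]
  exact mul_le_mul_of_nonneg_right
    (pow_le_pow_left₀ (ha i) (single_le_sum (fun j _ => ha j) hi) q) (ha i)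

theorem moment (hBr : StBr) (r : ℕ) (hr : 1 ≤ r) : ∃ C : ℝ, 0 < C ∧
    ∀ (X E : Type) [Fintype X] [NormedAddCommGroup E] [InnerProductSpace ℂ E] (n : ℕ)
      (s : ℕ → X → X) (D : X → ℕ → E) (θ : ℝ), 0 ≤ θ →
      (∀ k < n, Function.Bijective (s k)) → (∀ j k, j < k → k < n → ∀ x, D (s k x) j = D x j) →
      (∀ k < n, ∀ x, D (s k x) k = -D x k) →
      ∑ x, (∑ i ∈ range n, mart θ (D x) i) ^ (2 * r) ≤
        C * θ ^ (2 * r) * ∑ x, (∑ i ∈ range n, ‖D x i‖ ^ 2) ^ r := by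
  obtain ⟨C, hC, h⟩ := hBr r hr
  refine ⟨2 * C, by positivity, fun X E _ _ _ n s D θ hθ hs h1 h2 => ?_⟩
  have m1 : ∀ j k, j ≤ k → k < n → ∀ x,
      ∑ i ∈ range j, D (s k x) i - anc θ (D (s k x)) j = ∑ i ∈ range j, D x i - anc θ (D x) j := by
    intro j k hjk hk x
    rw [anc_congr θ _ (D x) j fun i hi => h1 i k (hi.trans_le hjk) hk x,
      sum_congr rfl fun i hi => h1 i k ((mem_range.1 hi).trans_le hjk) hk x]
  have m2 : ∀ k < n, ∀ x, mart θ (D (s k x)) k = -mart θ (D x) k := by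
    intro k hk x
    unfold mart
    rw [m1 k k le_rfl hk, h2 k hk, inner_neg_right, map_neg]
  have m3 : ∀ (x : X) (k : ℕ), mart θ (D x) k ^ 2 ≤ θ ^ 2 * ‖D x k‖ ^ 2 := fun x k => by
    rw [← mul_pow, ← sq_abs]
    exact pow_le_pow_left₀ (abs_nonneg _) (mart_le hθ _ k) 2
  have key := h X Bool ℝ n (fun k a x => if a then s k x else x) (fun k x => mart θ (D x) k)
    (fun k x => θ ^ 2 * ‖D x k‖ ^ 2) ?_ ?_ ?_ ?_ ?_
  · simp only [Real.norm_eq_abs, pow_mul, sq_abs] at key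
    simp only [pow_mul]
    refine key.trans ?_
    have a1 : ∑ k ∈ range n, ∑ x, (mart θ (D x) k ^ 2) ^ r ≤
        ∑ x, (∑ k ∈ range n, θ ^ 2 * ‖D x k‖ ^ 2) ^ r := by
      rw [sum_comm]
      refine sum_le_sum fun x _ => ?_
      refine le_trans ?_ (sum_pow_le _ _ (fun i => by positivity) r hr)
      exact sum_le_sum fun k _ => pow_le_pow_left₀ (sq_nonneg _) (m3 x k) r
    have a2 : ∑ x, (∑ k ∈ range n, θ ^ 2 * ‖D x k‖ ^ 2) ^ r =
        (θ ^ 2) ^ r * ∑ x, (∑ i ∈ range n, ‖D x i‖ ^ 2) ^ r := by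
      rw [mul_sum]
      refine sum_congr rfl fun x _ => ?_
      rw [← mul_sum, mul_pow]
    rw [a2] at a1 ⊢
    nlinarith
  · intro k hk φ
    simp only [Fintype.sum_bool, if_true, Bool.false_eq_true, if_false, Fintype.card_bool]
    rw [sum_add_distrib, (hs k hk).sum_comp φ]
    push_cast
    ring
  · intro j k hjk hk a x
    cases a
    · simp
    · simp only [if_true]
      unfold mart
      rw [m1 j k hjk.le hk, h1 j k hjk hk]
  · intro k hk x
    simp only [Fintype.sum_bool, if_true, Bool.false_eq_true, if_false]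
    rw [m2 k hk]
    ring
  · intro j k hjk hk a x
    cases a
    · simp
    · simp only [if_true]
      rcases hjk.eq_or_lt with rfl | hlt
      · rw [h2 j hk, norm_neg]
      · rw [h1 j k hlt hk]
  · intro k hk x
    simp only [Fintype.sum_bool, if_true, Bool.false_eq_true, if_false, Fintype.card_bool,
      Real.norm_eq_abs, sq_abs]
    rw [m2 k hk]
    have := m3 x k
    push_cast
    nlinarith

open Classical in
theorem core (hBr : StBr) (r : ℕ) (hr : 1 ≤ r) : ∃ A : ℝ, 0 < A ∧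
    ∀ (X E : Type) [Fintype X] [NormedAddCommGroup E] [InnerProductSpace ℂ E] (n : ℕ)
      (s : ℕ → X → X) (m : X → E) (D : X → ℕ → E) (t : ℝ), 0 < t →
      (∀ k < n, Function.Bijective (s k)) → (∀ j k, j < k → k < n → ∀ x, D (s k x) j = D x j) →
      (∀ k < n, ∀ x, D (s k x) k = -D x k) →
      ((univ.filter fun x => ¬ Wb (fun j => m x + ∑ i ∈ range (n - j), D x i) (7 * t)).card : ℝ) ≤
        A * ∑ x, min ((√(‖m x‖ ^ 2 + ∑ i ∈ range n, ‖D x i‖ ^ 2) / t) ^ (2 * r)) 1 := by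
  obtain ⟨C, hC, h⟩ := moment hBr r hr
  refine ⟨1 + 2 * C, by positivity, fun X E _ _ _ n s m D t ht hs h1 h2 => ?_⟩
  set S : X → ℝ := fun x => √(‖m x‖ ^ 2 + ∑ i ∈ range n, ‖D x i‖ ^ 2) with hS
  set Z := ∑ x, min ((S x / t) ^ (2 * r)) 1 with hZ
  have q0 : ∀ x, 0 ≤ ∑ i ∈ range n, ‖D x i‖ ^ 2 := fun x => sum_nonneg fun _ _ => sq_nonneg _
  have S2 : ∀ x, S x ^ 2 = ‖m x‖ ^ 2 + ∑ i ∈ range n, ‖D x i‖ ^ 2 := fun x =>
    Real.sq_sqrt (add_nonneg (sq_nonneg _) (q0 x))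
  have S0 : ∀ x, 0 ≤ S x := fun x => Real.sqrt_nonneg _
  have Z0 : 0 ≤ Z := sum_nonneg fun x _ => le_min (pow_nonneg (div_nonneg (S0 x) ht.le) _) one_pos.le
  let B : ℕ → X → Prop := fun k x => t ^ 2 < |∑ i ∈ range n, mart (t / 2 ^ k) (stp t (D x)) i|
  have nrm : ∀ j k, j ≤ k → k < n → ∀ x, ∑ i ∈ range (j + 1), ‖D (s k x) i‖ ^ 2 =
      ∑ i ∈ range (j + 1), ‖D x i‖ ^ 2 := by
    intro j k hjk hk x
    refine sum_congr rfl fun i hi => ?_
    rcases ((Nat.lt_succ_iff.1 (mem_range.1 hi)).trans hjk).eq_or_lt with rfl | hlt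
    · rw [h2 i hk, norm_neg]
    · rw [h1 i k hlt hk]
  have b1 : ∀ k, ((univ.filter (B k)).card : ℝ) ≤ C * Z * (1 / 2) ^ k := by
    intro k
    have a1 := h X E n s (fun x => stp t (D x)) (t / 2 ^ k) (by positivity) hs
      (fun j k hjk hk x => by
        unfold stp
        rw [nrm j k hjk.le hk, h1 j k hjk hk])
      (fun k hk x => by
        unfold stp
        rw [nrm k k le_rfl hk, h2 k hk]
        split_ifs <;> simp)
    have a2 : ((univ.filter (B k)).card : ℝ) * (t ^ 2) ^ (2 * r) ≤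
        ∑ x, (∑ i ∈ range n, mart (t / 2 ^ k) (stp t (D x)) i) ^ (2 * r) := by
      rw [← nsmul_eq_mul, ← sum_const]
      refine le_trans (sum_le_sum fun x hx => ?_) (sum_le_sum_of_subset_of_nonneg
        (filter_subset (B k) univ) fun _ _ _ => by rw [pow_mul]; positivity)
      have : B k x := (mem_filter.1 hx).2
      rw [← (even_two_mul r).pow_abs (∑ i ∈ range n, mart (t / 2 ^ k) (stp t (D x)) i)]
      exact pow_le_pow_left₀ (sq_nonneg _) this.le _
    have a3 : ∑ x, (∑ i ∈ range n, ‖stp t (D x) i‖ ^ 2) ^ r ≤ t ^ (2 * r) * Z := by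
      rw [hZ, mul_sum]
      refine sum_le_sum fun x _ => ?_
      have c0 : 0 ≤ ∑ i ∈ range n, ‖stp t (D x) i‖ ^ 2 := sum_nonneg fun _ _ => sq_nonneg _
      rw [mul_min_of_nonneg _ _ (by positivity), ← mul_pow, mul_div_cancel₀ _ ht.ne', mul_one,
        pow_mul, pow_mul]
      refine le_min (pow_le_pow_left₀ c0 ?_ r) (pow_le_pow_left₀ c0 (stp_le' t _ n) r)
      rw [S2]
      linarith [stp_le t (D x) n, sq_nonneg ‖m x‖]
    have a4 : (t / 2 ^ k) ^ (2 * r) ≤ t ^ (2 * r) * (1 / 2) ^ k := by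
      rw [div_eq_mul_one_div, mul_pow, ← one_div_pow]
      refine mul_le_mul_of_nonneg_left ?_ (by positivity)
      exact pow_le_of_le_one (by positivity) (pow_le_one₀ (by norm_num) (by norm_num)) (by omega)
    have a5 : (0 : ℝ) < (t ^ 2) ^ (2 * r) := by positivity
    refine le_of_mul_le_mul_right (a2.trans (a1.trans ?_)) a5
    calc C * (t / 2 ^ k) ^ (2 * r) * ∑ x, (∑ i ∈ range n, ‖stp t (D x) i‖ ^ 2) ^ r
        ≤ C * (t ^ (2 * r) * (1 / 2) ^ k) * (t ^ (2 * r) * Z) := by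
          refine mul_le_mul (mul_le_mul_of_nonneg_left a4 hC.le) a3 ?_ (by positivity)
          exact sum_nonneg fun x _ => pow_nonneg (sum_nonneg fun _ _ => sq_nonneg _) _
      _ = C * Z * (1 / 2) ^ k * (t ^ 2) ^ (2 * r) := by
          rw [sq, mul_pow]
          ring
  have b2 : ((univ.filter fun x => t < S x).card : ℝ) ≤ Z := by
    rw [card_eq_sum_ones, Nat.cast_sum, hZ]
    refine le_trans (sum_le_sum fun x hx => ?_) (sum_le_sum_of_subset_of_nonneg
      (filter_subset (fun x => t < S x) univ) fun x _ _ =>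
        le_min (pow_nonneg (div_nonneg (S0 x) ht.le) _) one_pos.le)
    have : t < S x := (mem_filter.1 hx).2
    rw [Nat.cast_one]
    exact le_min (one_le_pow₀ ((one_le_div ht).2 this.le)) le_rfl
  obtain ⟨K, hK⟩ : ∃ K, ∀ x, (∃ k, B k x) → ∃ k < K, B k x := by
    refine ⟨(univ.sup fun x => if h : ∃ k, B k x then h.choose else 0) + 1, fun x hx =>
      ⟨hx.choose, Nat.lt_succ_of_le ?_, hx.choose_spec⟩⟩
    have := le_sup (f := fun x => if h : ∃ k, B k x then h.choose else 0) (mem_univ x)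
    simpa only [dif_pos hx] using this
  have b3 : (univ.filter fun x => ¬ Wb (fun j => m x + ∑ i ∈ range (n - j), D x i) (7 * t)) ⊆
      (univ.filter fun x => t < S x) ∪ (range K).biUnion fun k => univ.filter (B k) := by
    intro x hx
    have hx' := (mem_filter.1 hx).2
    by_contra hn
    simp only [mem_union, mem_filter, mem_univ, true_and, mem_biUnion, mem_range, not_or,
      not_lt, not_exists, not_and] at hn
    have c1 : S x ^ 2 ≤ t ^ 2 := pow_le_pow_left₀ (S0 x) hn.1 2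
    rw [S2] at c1
    have c2 : ∑ i ∈ range n, ‖D x i‖ ^ 2 ≤ t ^ 2 := by linarith [sq_nonneg ‖m x‖]
    have c3 : ‖m x‖ ≤ t := (pow_le_pow_iff_left₀ (norm_nonneg _) ht.le two_ne_zero).1
      (by linarith [q0 x])
    have c4 := det ht (m x) (stp t (D x)) n c3 (stp_le' t _ n) fun k => by
      by_contra hb
      obtain ⟨k', hk', hb'⟩ := hK x ⟨k, not_le.1 hb⟩
      exact hn.2 k' hk' hb'
    refine hx' ?_
    have c5 : (fun j => m x + ∑ i ∈ range (n - j), D x i) =
        fun j => m x + ∑ i ∈ range (n - j), stp t (D x) i := by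
      funext j
      rw [sum_congr rfl fun i hi => stp_eq c2 i ((mem_range.1 hi).trans_le (Nat.sub_le _ _))]
    rw [c5]
    exact c4
  have b4 := (card_le_card b3).trans ((card_union_le _ _).trans
    (Nat.add_le_add_left card_biUnion_le _))
  have b5 : ∑ k ∈ range K, ((univ.filter (B k)).card : ℝ) ≤ C * Z * 2 := by
    refine (sum_le_sum fun k _ => b1 k).trans ?_
    rw [← mul_sum]
    exact mul_le_mul_of_nonneg_left (sum_geometric_two_le K) (by positivity)
  have b6 := (Nat.cast_le (α := ℝ)).2 b4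
  rw [Nat.cast_add, Nat.cast_sum] at b6
  linarith

end

end Pool.Agent.Lib.MP_10e396_an.Mart
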