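import Pool.Agent.Lib.MP_10e396_an.DBL

/-! Rademacher-Menshov type lemmas: `stR3`, `stR4`. -/

set_option autoImplicit false

namespace Pool.Agent.Lib.MP_10e396_an

open Finset DBL

noncomputable section

namespace RM

theorem sum_le_sqrt {ι : Type} (s : Finset ι) (f : ι → ℝ) :
    ∑ i ∈ s, f i ≤ √(s.card) * √(∑ i ∈ s, f i ^ 2) := by
  have h := Real.sum_mul_le_sqrt_mul_sqrt s (fun _ => 1) f
  simpa using h

theorem sum_sqrt_le {ι : Type} (s : Finset ι) (f : ι → ℝ) (hf : ∀ i, 0 ≤ f i) :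
    ∑ i ∈ s, √(f i) ≤ √(s.card) * √(∑ i ∈ s, f i) := by
  have h := sum_le_sqrt s fun i => √(f i)
  simpa only [Real.sq_sqrt (hf _)] using h

/-- a sequence that is constant on consecutive intervals -/
theorem pieces {E σ : Type} [SeminormedAddCommGroup E] (β : σ → E) (κ : ℕ → σ) (S : Finset σ)
    (J : ℕ) (hκ : ∀ i j k, i ≤ j → j ≤ k → κ i = κ k → κ j = κ i)
    (hS : ∀ j ≤ J, κ j ∉ S → β (κ j) = 0) :
    ∑ j ∈ range J, ‖β (κ (j + 1)) - β (κ j)‖ ≤ √J * (2 * √(∑ s ∈ S, ‖β s‖ ^ 2)) := by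
  classical
  set T := (range J).filter fun j => κ (j + 1) ≠ κ j with hT
  have key : ∀ f : ℕ → σ, (∀ j < J, f j ∉ S → β (f j) = 0) → Set.InjOn f T →
      ∑ j ∈ T, ‖β (f j)‖ ^ 2 ≤ ∑ s ∈ S, ‖β s‖ ^ 2 := by
    intro f hf hinj
    rw [← sum_filter_add_sum_filter_not T fun j => f j ∈ S]
    have h0 : ∑ j ∈ T.filter (fun j => ¬ f j ∈ S), ‖β (f j)‖ ^ 2 = 0 :=
      sum_eq_zero fun j hj => by
        rw [hf j (mem_range.1 (mem_filter.1 (mem_filter.1 hj).1).1) (mem_filter.1 hj).2]; simp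
    rw [h0, add_zero, ← sum_image (g := f) (f := fun s => ‖β s‖ ^ 2)
      (hinj.mono fun j hj => (mem_filter.1 hj).1)]
    refine sum_le_sum_of_subset_of_nonneg (fun s hs => ?_) fun _ _ _ => by positivity
    obtain ⟨j, hj, rfl⟩ := mem_image.1 hs
    exact (mem_filter.1 hj).2
  have h1 := key κ (fun j hj => hS j hj.le) fun i hi j hj hij => by
    have hi' := (mem_filter.1 hi).2
    have hj' := (mem_filter.1 hj).2
    rcases lt_trichotomy i j with h | h | h
    · exact absurd (hκ i (i + 1) j (by omega) h hij) hi'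
    · exact h
    · exact absurd (hκ j (j + 1) i (by omega) h hij.symm) hj'
  have h2 := key (fun j => κ (j + 1)) (fun j hj => hS _ hj) fun i hi j hj hij => by
    have hi' := (mem_filter.1 hi).2
    have hj' := (mem_filter.1 hj).2
    rcases lt_trichotomy i j with h | h | h
    · exact absurd ((hκ (i + 1) j (j + 1) h (by omega) hij).trans hij).symm hj'
    · exact h
    · exact absurd ((hκ (j + 1) i (i + 1) h (by omega) hij.symm).trans hij.symm).symm hi'
  have h3 : ∑ j ∈ range J, ‖β (κ (j + 1)) - β (κ j)‖ ^ 2 ≤ 4 * ∑ s ∈ S, ‖β s‖ ^ 2 := by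
    rw [← sum_filter_add_sum_filter_not (range J) fun j => κ (j + 1) ≠ κ j]
    have h0 : ∑ j ∈ (range J).filter (fun j => ¬ κ (j + 1) ≠ κ j),
        ‖β (κ (j + 1)) - β (κ j)‖ ^ 2 = 0 :=
      sum_eq_zero fun j hj => by rw [not_not.1 (mem_filter.1 hj).2]; simp
    rw [h0, add_zero]
    calc _ ≤ ∑ j ∈ T, (2 * ‖β (κ (j + 1))‖ ^ 2 + 2 * ‖β (κ j)‖ ^ 2) := by
          refine sum_le_sum fun j _ => ?_
          have a1 := norm_sub_le (β (κ (j + 1))) (β (κ j))
          have a2 := norm_nonneg (β (κ (j + 1)) - β (κ j))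
          nlinarith [sq_nonneg (‖β (κ (j + 1))‖ - ‖β (κ j)‖)]
      _ ≤ _ := by
          rw [sum_add_distrib, ← mul_sum, ← mul_sum]
          linarith
  refine (sum_le_sqrt _ _).trans ?_
  rw [card_range]
  refine mul_le_mul_of_nonneg_left ?_ (Real.sqrt_nonneg _)
  rw [Real.sqrt_le_left (by positivity), mul_pow, Real.sq_sqrt (by positivity)]
  linarith

theorem convex_pair {f g : ℕ → ℕ} (hf : Monotone f) (hg : Monotone g) (i j k : ℕ) (hij : i ≤ j)
    (hjk : j ≤ k) (h : (f i, g i) = (f k, g k)) : (f j, g j) = (f i, g i) := by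
  have h1 := congrArg Prod.fst h
  have h2 := congrArg Prod.snd h
  have := hf hij; have := hf hjk; have := hg hij; have := hg hjk
  simp only at h1 h2
  exact Prod.ext (by simp only; omega) (by simp only; omega)

theorem pieces_Wb {E : Type} [SeminormedAddCommGroup E] (β : ℕ × ℕ → E) {f g : ℕ → ℕ}
    (hf : Monotone f) (hg : Monotone g) (S : Finset (ℕ × ℕ))
    (hS : ∀ j, (f j, g j) ∉ S → β (f j, g j) = 0) :
    Wb (fun i => β (f i, g i)) (2 * √(∑ s ∈ S, ‖β s‖ ^ 2)) := by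
  refine ⟨fun i => ?_, fun J c hc => ?_⟩
  · by_cases h : (f i, g i) ∈ S
    · have h1 : ‖β (f i, g i)‖ ≤ √(∑ s ∈ S, ‖β s‖ ^ 2) :=
        Real.le_sqrt_of_sq_le (single_le_sum (f := fun s => ‖β s‖ ^ 2)
          (fun _ _ => by positivity) h)
      have := Real.sqrt_nonneg (∑ s ∈ S, ‖β s‖ ^ 2)
      linarith
    · simp only [hS i h, norm_zero]
      positivity
  · exact pieces β (fun j => (f (c j), g (c j))) S J
      (convex_pair (hf.comp hc) (hg.comp hc)) fun j _ => hS _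

theorem vr_add {E : Type} [SeminormedAddCommGroup E] (a b : ℕ → E) (J : ℕ) (c : ℕ → ℕ) :
    vr (fun i => a i + b i) J c ≤ vr a J c + vr b J c := by
  unfold vr
  rw [← sum_add_distrib]
  refine sum_le_sum fun j _ => ?_
  rw [add_sub_add_comm]
  exact norm_add_le _ _

theorem vr_sum {E ι : Type} [SeminormedAddCommGroup E] (s : Finset ι) (a : ι → ℕ → E) (J : ℕ)
    (c : ℕ → ℕ) : vr (fun i => ∑ k ∈ s, a k i) J c ≤ ∑ k ∈ s, vr (a k) J c := by
  unfold vr
  rw [sum_comm]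
  refine sum_le_sum fun j _ => ?_
  rw [← sum_sub_distrib]
  exact norm_sum_le _ _

theorem Wb_sum {E ι : Type} [SeminormedAddCommGroup E] (s : Finset ι) (a : ι → ℕ → E)
    (w : ι → ℝ) (h : ∀ k ∈ s, Wb (a k) (w k)) :
    Wb (fun i => ∑ k ∈ s, a k i) (∑ k ∈ s, w k) := by
  refine ⟨fun i => (norm_sum_le _ _).trans (sum_le_sum fun k hk => (h k hk).1 i),
    fun J c hc => (vr_sum s a J c).trans ?_⟩
  rw [mul_sum]
  exact sum_le_sum fun k hk => (h k hk).2 J c hc

theorem Wb_mono {E : Type} [SeminormedAddCommGroup E] {a : ℕ → E} {w w' : ℝ} (h : Wb a w)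
    (hw : w ≤ w') : Wb a w' :=
  ⟨fun i => (h.1 i).trans hw, fun J c hc =>
    (h.2 J c hc).trans (mul_le_mul_of_nonneg_left hw (Real.sqrt_nonneg _))⟩

/-- grid chain of level `u` -/
def gc (top K u j : ℕ) : ℕ := top - 2 ^ u * (K - j)

theorem gc_mono (top K u : ℕ) : Monotone (gc top K u) := fun _ _ h =>
  Nat.sub_le_sub_left (Nat.mul_le_mul_left _ (Nat.sub_le_sub_left h _)) _

/-- truncation point of level `u` -/
def tp (top n u : ℕ) : ℕ := top - 2 ^ u * (n / 2 ^ u)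

theorem tp_step (top K n u : ℕ) (hK : K % 2 = 0) (hn : n ≤ K) :
    gc top K u (K - n / 2 ^ u) = tp top n u ∧
    (if (K - n / 2 ^ u) % 2 = 1 then gc top K u (K - n / 2 ^ u + 1) = tp top n (u + 1)
      else tp top n (u + 1) = tp top n u) := by
  have h1 : n / 2 ^ u ≤ K := (Nat.div_le_self _ _).trans hn
  have h2 : tp top n (u + 1) = top - 2 ^ u * (2 * (n / 2 ^ u / 2)) := by
    unfold tp
    rw [pow_succ, Nat.div_div_eq_div_mul, mul_assoc]
  refine ⟨by unfold gc tp; rw [Nat.sub_sub_self h1], ?_⟩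
  rw [h2]
  split_ifs with h
  · unfold gc
    congr 2
    omega
  · unfold tp
    congr 2
    omega

end RM

open RM

theorem stR3 (hS : StSq) : StR3 := by
  obtain ⟨C, hC, hS⟩ := hS
  refine ⟨2 * C, by positivity, ?_⟩
  intro X _ p a ℓ i₀ V hp ha hV
  have hp0 : 0 < p := lt_of_lt_of_le one_pos hp
  set top := i₀ + 2 ^ ℓ with htop
  set K := 2 ^ (ℓ + 1) with hK
  have hK2 : K % 2 = 0 := by rw [hK, pow_succ]; omega
  let b : ℕ → ℕ → ℕ → ℕ → X → ℂ := fun u u' j k x =>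
    a (gc top K u (j + 1)) (gc top K u' (k + 1)) x - a (gc top K u (j + 1)) (gc top K u' k) x -
      a (gc top K u j) (gc top K u' (k + 1)) x + a (gc top K u j) (gc top K u' k) x
  let S : ℕ → ℕ → X → ℝ := fun u u' x => √(∑ j ∈ range K, ∑ k ∈ range K, ‖b u u' j k x‖ ^ 2)
  have h1 : ∀ u u', lp p (S u u') ≤ C * V := fun u u' =>
    hS X p (range K) (range K) (b u u') V hp fun ε ε' hε hε' =>
      hV K K _ _ ε ε' (gc_mono top K u) (gc_mono top K u') hε hε'
  let n : ℕ → ℕ := fun i => if i < i₀ then K else top - i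
  have hKl : 2 ^ ℓ < K := by rw [hK]; exact Nat.pow_lt_pow_right (by norm_num) (by omega)
  have hnK : ∀ i, n i ≤ K := fun i => by simp only [n]; split_ifs <;> omega
  have hn : Antitone n := fun i j h => by simp only [n]; split_ifs <;> omega
  have hf : ∀ u, Monotone fun i => K - n i / 2 ^ u := fun u i j h =>
    Nat.sub_le_sub_left (Nat.div_le_div_right (hn h)) _
  let β : ℕ → ℕ → X → ℕ × ℕ → ℂ := fun u u' x s =>
    if s.1 % 2 = 1 ∧ s.2 % 2 = 1 then b u u' s.1 s.2 x else 0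
  have h2 : ∀ u u' x, Wb (fun i => β u u' x (K - n i / 2 ^ u, K - n i / 2 ^ u')) (2 * S u u' x) := by
    intro u u' x
    refine Wb_mono (pieces_Wb (β u u' x) (hf u) (hf u') (range K ×ˢ range K) fun j hj => ?_) ?_
    · simp only [β]
      rw [if_neg]
      rintro ⟨e1, e2⟩
      apply hj
      rw [mem_product, mem_range, mem_range]
      have := Nat.sub_le K (n j / 2 ^ u)
      have := Nat.sub_le K (n j / 2 ^ u')
      constructor <;> simp only <;> omega
    · refine mul_le_mul_of_nonneg_left (Real.sqrt_le_sqrt ?_) (by norm_num)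
      rw [sum_product]
      refine sum_le_sum fun j _ => sum_le_sum fun k _ => ?_
      simp only [β]
      split_ifs
      · exact le_rfl
      · simp
  have h3 : ∀ u u' x i, β u u' x (K - n i / 2 ^ u, K - n i / 2 ^ u') =
      (a (tp top (n i) (u + 1)) (tp top (n i) (u' + 1)) x -
        a (tp top (n i) (u + 1)) (tp top (n i) u') x) -
      (a (tp top (n i) u) (tp top (n i) (u' + 1)) x - a (tp top (n i) u) (tp top (n i) u') x) := by
    intro u u' x i
    obtain ⟨e1, e2⟩ := tp_step top K (n i) u hK2 (hnK i)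
    obtain ⟨e3, e4⟩ := tp_step top K (n i) u' hK2 (hnK i)
    simp only [β, b]
    by_cases c1 : (K - n i / 2 ^ u) % 2 = 1
    · by_cases c2 : (K - n i / 2 ^ u') % 2 = 1
      · rw [if_pos c1] at e2
        rw [if_pos c2] at e4
        rw [if_pos ⟨c1, c2⟩, e1, e2, e3, e4]
        ring
      · rw [if_neg c2] at e4
        rw [if_neg (fun h => c2 h.2), e4]
        ring
    · rw [if_neg c1] at e2
      rw [if_neg (fun h => c1 h.1), e2]
      ring
  have h4 : ∀ x i, a i i x = ∑ u ∈ range (ℓ + 1), ∑ u' ∈ range (ℓ + 1),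
      β u u' x (K - n i / 2 ^ u, K - n i / 2 ^ u') := by
    intro x i
    simp only [h3, sum_sub_distrib]
    simp only [← sum_sub_distrib]
    have t1 : ∀ m, ∑ u' ∈ range (ℓ + 1), (a m (tp top (n i) (u' + 1)) x - a m (tp top (n i) u') x) =
        a m (tp top (n i) (ℓ + 1)) x - a m (tp top (n i) 0) x := fun m =>
      sum_range_sub (fun u' => a m (tp top (n i) u') x) _
    simp only [sum_sub_distrib (s := range (ℓ + 1)) (fun u' => a _ (tp top (n i) (u' + 1)) x -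
      a _ (tp top (n i) u') x), t1]
    rw [sum_range_sub (fun u => a (tp top (n i) u) (tp top (n i) (ℓ + 1)) x -
      a (tp top (n i) u) (tp top (n i) 0) x)]
    have htz : ∀ j, a top j = 0 ∧ a j top = 0 := fun j => ha top j (by simp)
    by_cases c1 : i < i₀
    · have e1 : tp top (n i) (ℓ + 1) = tp top (n i) 0 := by
        simp only [n, if_pos c1, tp, ← hK]
        rw [Nat.div_self (by omega)]
        simp
      rw [e1, (ha i i (by simp; omega)).1]
      simp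
    · have e1 : tp top (n i) (ℓ + 1) = top := by
        simp only [n, if_neg c1, tp, ← hK]
        rw [Nat.div_eq_of_lt (by omega)]
        simp
      rw [e1, (htz _).1, (htz _).1, (htz _).2]
      by_cases c2 : i ≤ top
      · have e2 : tp top (n i) 0 = i := by
          simp only [n, if_neg c1, tp]
          simp
          omega
        rw [e2]
        simp
      · have e2 : tp top (n i) 0 = top := by
          simp only [n, if_neg c1, tp]
          simp
          omega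
        rw [e2, (htz _).1, (ha i i (by simp; omega)).1]
        simp
  refine ⟨fun x => ∑ u ∈ range (ℓ + 1), ∑ u' ∈ range (ℓ + 1), 2 * S u u' x, fun x => ?_, ?_⟩
  · simp only [h4 x]
    exact Wb_sum _ _ _ fun u _ => Wb_sum _ _ _ fun u' _ => h2 u u' x
  · refine (lp_sum hp _ _).trans ?_
    calc _ ≤ ∑ _u ∈ range (ℓ + 1), ∑ _u' ∈ range (ℓ + 1), 2 * (C * V) := by
          refine sum_le_sum fun u _ => (lp_sum hp _ _).trans (sum_le_sum fun u' _ => ?_)
          rw [lp_mul hp0 (by norm_num)]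
          exact mul_le_mul_of_nonneg_left (h1 u u') (by norm_num)
      _ = _ := by
          simp only [sum_const, card_range, nsmul_eq_mul]
          push_cast
          ring

namespace RM

/-- greedy anchors -/
theorem anchor_aux {E : Type} [SeminormedAddCommGroup E] (H : ℕ → E) (τ : ℝ) (hτ : 0 ≤ τ)
    (I : ℕ) : ∃ (N : ℕ) (α σ : ℕ → ℕ), Monotone α ∧ Monotone σ ∧ (∀ i, σ i ≤ N) ∧ α N ≤ I ∧
      N * τ ≤ vr H N α ∧ ∀ i ≤ I, ‖H i - H (α (σ i))‖ ≤ τ := by
  induction I with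
  | zero =>
    refine ⟨0, fun _ => 0, fun _ => 0, monotone_const, monotone_const, fun _ => le_rfl, le_rfl,
      by simp [vr], fun i hi => ?_⟩
    rw [Nat.le_zero.1 hi]
    simpa using hτ
  | succ I ih =>
    obtain ⟨N, α, σ, hα, hσ, hN, hI, hv, hd⟩ := ih
    by_cases h : ‖H (I + 1) - H (α N)‖ ≤ τ
    · refine ⟨N, α, fun i => if i ≤ I then σ i else N, hα, fun i j hij => ?_, fun i => ?_,
        by omega, hv, fun i hi => ?_⟩
      · have := hσ hij
        have := hN i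
        simp only
        split_ifs <;> omega
      · have := hN i
        simp only
        split_ifs <;> omega
      · by_cases c : i ≤ I
        · simp only [if_pos c]
          exact hd i c
        · simp only [if_neg c]
          rw [show i = I + 1 by omega]
          exact h
    · refine ⟨N + 1, fun j => if j ≤ N then α j else I + 1, fun i => if i ≤ I then σ i else N + 1,
        fun i j hij => ?_, fun i j hij => ?_, fun i => ?_, by simp, ?_, fun i hi => ?_⟩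
      · have := hα hij
        have h2 : i ≤ N → α i ≤ α N := fun h => hα h
        simp only
        split_ifs <;> omega
      · have := hσ hij
        have := hN i
        simp only
        split_ifs <;> omega
      · have := hN i
        simp only
        split_ifs <;> omega
      · unfold vr at hv ⊢
        rw [sum_range_succ]
        have e : ∑ j ∈ range N, ‖H (if j + 1 ≤ N then α (j + 1) else I + 1) -
            H (if j ≤ N then α j else I + 1)‖ = ∑ j ∈ range N, ‖H (α (j + 1)) - H (α j)‖ :=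
          sum_congr rfl fun j hj => by
            have := mem_range.1 hj
            rw [if_pos (by omega), if_pos (by omega)]
        simp only [e, if_pos (le_refl N), if_neg (Nat.not_succ_le_self N)]
        push_cast
        linarith [not_le.1 h]
      · by_cases c : i ≤ I
        · simp only [if_pos c, if_pos (hN i)]
          exact hd i c
        · simp only [if_neg c, if_neg (Nat.not_succ_le_self N)]
          rw [show i = I + 1 by omega]
          simpa using hτ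

theorem anchor {E : Type} [SeminormedAddCommGroup E] {H : ℕ → E} {w : ℝ} (hH : Wb H w) (τ : ℝ)
    (hτ : 0 ≤ τ) (I : ℕ) : ∃ (N : ℕ) (α σ : ℕ → ℕ), Monotone α ∧ Monotone σ ∧ (∀ i, σ i ≤ N) ∧
      N * τ ^ 2 ≤ w ^ 2 ∧ ∀ i ≤ I, ‖H i - H (α (σ i))‖ ≤ τ := by
  obtain ⟨N, α, σ, hα, hσ, hN, -, hv, hd⟩ := anchor_aux H τ hτ I
  refine ⟨N, α, σ, hα, hσ, hN, ?_, hd⟩
  have h1 := hv.trans (hH.2 N α hα)
  rcases Nat.eq_zero_or_pos N with rfl | h0
  · simp; positivity
  have h2 : (0 : ℝ) < N := by exact_mod_cast h0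
  have h3 := pow_le_pow_left₀ (by positivity) h1 2
  rw [mul_pow, mul_pow, Real.sq_sqrt h2.le] at h3
  have : N * (N * τ ^ 2) ≤ N * w ^ 2 := by linarith
  exact le_of_mul_le_mul_left this h2

/-- variation along a monotone selection is at most the total variation -/
theorem tv_le {E : Type} [SeminormedAddCommGroup E] (A : ℕ → E) (m : ℕ → ℕ) (hm : Monotone m)
    (N : ℕ) (hN : ∀ j, m j ≤ N) (J : ℕ) :
    ∑ j ∈ range J, ‖A (m (j + 1)) - A (m j)‖ ≤ ∑ s ∈ range N, ‖A (s + 1) - A s‖ := by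
  have h1 : ∀ a b, a ≤ b → ‖A b - A a‖ + ∑ s ∈ range a, ‖A (s + 1) - A s‖ ≤
      ∑ s ∈ range b, ‖A (s + 1) - A s‖ := by
    intro a b hab
    induction b, hab using Nat.le_induction with
    | base => simp
    | succ b _ ih =>
      rw [sum_range_succ]
      have := norm_sub_le_norm_sub_add_norm_sub (A (b + 1)) (A b) (A a)
      linarith
  have h2 : ∀ J, ∑ j ∈ range J, ‖A (m (j + 1)) - A (m j)‖ ≤
      ∑ s ∈ range (m J), ‖A (s + 1) - A s‖ := by
    intro J
    induction J with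
    | zero => simpa using sum_nonneg fun _ _ => norm_nonneg _
    | succ J ih =>
      rw [sum_range_succ]
      have := h1 _ _ (hm (Nat.le_succ J))
      linarith
  exact (h2 J).trans (sum_le_sum_of_subset_of_nonneg (range_subset_range.2 (hN J))
    fun _ _ _ => norm_nonneg _)

theorem sign_sq {I E : Type} [Fintype I] [DecidableEq I] [NormedAddCommGroup E]
    [InnerProductSpace ℂ E] (u : I → E) (S : Finset I) :
    ∑ ε : I → Bool, ‖∑ i ∈ S, (sg (ε i) : ℂ) • u i‖ ^ 2 =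
      2 ^ Fintype.card I * ∑ i ∈ S, ‖u i‖ ^ 2 := by
  induction S using Finset.induction_on with
  | empty => simp
  | insert a S ha ih =>
    let φ : (I → Bool) ≃ (I → Bool) := Function.Involutive.toPerm
      (fun ε => Function.update ε a (!ε a)) fun ε => by
        funext i
        by_cases h : i = a
        · subst h; simp
        · simp [Function.update_of_ne h]
    have h1 : ∑ ε : I → Bool, ‖∑ i ∈ insert a S, (sg (ε i) : ℂ) • u i‖ ^ 2 =
        ∑ ε : I → Bool, ‖∑ i ∈ insert a S, (sg (φ ε i) : ℂ) • u i‖ ^ 2 :=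
      (φ.sum_comp fun ε => ‖∑ i ∈ insert a S, (sg (ε i) : ℂ) • u i‖ ^ 2).symm
    have h2 : ∀ ε : I → Bool, ‖∑ i ∈ insert a S, (sg (ε i) : ℂ) • u i‖ ^ 2 +
        ‖∑ i ∈ insert a S, (sg (φ ε i) : ℂ) • u i‖ ^ 2 =
        2 * (‖∑ i ∈ S, (sg (ε i) : ℂ) • u i‖ ^ 2 + ‖u a‖ ^ 2) := by
      intro ε
      have e1 : ∑ i ∈ S, (sg (φ ε i) : ℂ) • u i = ∑ i ∈ S, (sg (ε i) : ℂ) • u i :=
        sum_congr rfl fun i hi => by
          have : i ≠ a := fun h => ha (h ▸ hi)
          simp [φ, Function.update_of_ne this]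
      have e2 : φ ε a = !ε a := by simp [φ]
      rw [sum_insert ha, sum_insert ha, e1, e2]
      have hp := parallelogram_law_with_norm ℂ (∑ i ∈ S, (sg (ε i) : ℂ) • u i) (u a)
      cases ε a
      · simp only [sg, Bool.false_eq_true, if_false, Bool.not_false, if_true, Complex.ofReal_neg,
          Complex.ofReal_one, neg_smul, one_smul] at hp ⊢
        rw [neg_add_eq_sub, add_comm (u a)]
        nlinarith
      · simp only [sg, Bool.false_eq_true, if_false, Bool.not_true, if_true, Complex.ofReal_neg,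
          Complex.ofReal_one, neg_smul, one_smul] at hp ⊢
        rw [neg_add_eq_sub, add_comm (u a)]
        nlinarith
    have h3 := sum_congr rfl fun ε (_ : ε ∈ (univ : Finset (I → Bool))) => h2 ε
    rw [sum_add_distrib, ← h1, ← mul_sum, sum_add_distrib, ih, sum_const, card_univ,
      Fintype.card_fun, Fintype.card_bool, nsmul_eq_mul] at h3
    rw [sum_insert ha (f := fun i => ‖u i‖ ^ 2)]
    push_cast at h3
    linarith

theorem sign_le {I E : Type} [Fintype I] [DecidableEq I] [NormedAddCommGroup E]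
    [InnerProductSpace ℂ E] (u : I → E) :
    ∑ ε : I → Bool, ‖∑ i, (sg (ε i) : ℂ) • u i‖ ≤ 2 ^ Fintype.card I * √(∑ i, ‖u i‖ ^ 2) := by
  refine (sum_le_sqrt _ _).trans (le_of_eq ?_)
  rw [sign_sq, card_univ, Fintype.card_fun, Fintype.card_bool, Real.sqrt_mul (by positivity),
    ← mul_assoc]
  push_cast
  rw [Real.mul_self_sqrt (by positivity)]

/-- the vector valued extension of a linear map into `L¹` -/
theorem kh_ext (hK : StKh) : ∃ C : ℝ, 0 < C ∧ ∀ (Y E ι : Type) [Fintype Y] [NormedAddCommGroup E]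
    [InnerProductSpace ℂ E] (T : E → Y → ℂ) (A : ℝ) (S : Finset ι) (u : ι → E), 0 ≤ A →
    (∀ y, IsLinearMap ℂ fun u => T u y) → (∀ u, ∑ y, ‖T u y‖ ≤ A * ‖u‖) →
    ∑ y, √(∑ s ∈ S, ‖T (u s) y‖ ^ 2) ≤ C * A * √(∑ s ∈ S, ‖u s‖ ^ 2) := by
  classical
  obtain ⟨C, hC, hK⟩ := hK
  refine ⟨C, hC, ?_⟩
  intro Y E ι _ _ _ T A S u hA hT hb
  have h1 : ∀ y, 2 ^ (Fintype.card S + 1) * √(∑ s ∈ S, ‖T (u s) y‖ ^ 2) ≤
      C * (2 * ∑ ε : S → Bool, ‖T (∑ i : S, (sg (ε i) : ℂ) • u i) y‖) := by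
    intro y
    have h := hK S Unit fun i _ => T (u i) y
    simp only [Fintype.card_unit, univ_unique, sum_singleton] at h
    rw [sum_coe_sort S fun s => ‖T (u s) y‖ ^ 2] at h
    refine h.trans (le_of_eq ?_)
    congr 1
    rw [mul_sum]
    refine sum_congr rfl fun ε _ => ?_
    have e1 : T (∑ i : S, (sg (ε i) : ℂ) • u i) y = ∑ i : S, sg (ε i) • T (u i) y := by
      have := map_sum ((hT y).mk' _) (fun i : S => (sg (ε i) : ℂ) • u i) univ
      simp only [IsLinearMap.mk'_apply, (hT y).map_smul] at this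
      rw [this]
      simp
    have e2 : ∀ ε' : Unit → Bool, ‖∑ i : S, (sg (ε i) * sg (ε' default)) • T (u i) y‖ =
        ‖∑ i : S, sg (ε i) • T (u i) y‖ := fun ε' => by
      simp only [mul_comm (sg (ε _)), mul_smul, ← smul_sum, norm_smul]
      cases ε' default <;> simp [sg]
    rw [e1]
    simp only [e2, sum_const, card_univ, Fintype.card_fun, Fintype.card_bool, Fintype.card_unit,
      nsmul_eq_mul]
    norm_num
  have h2 := sum_le_sum fun y (_ : y ∈ (univ : Finset Y)) => h1 y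
  rw [← mul_sum, ← mul_sum, ← mul_sum, sum_comm] at h2
  have h3 : ∑ ε : S → Bool, ∑ y, ‖T (∑ i : S, (sg (ε i) : ℂ) • u i) y‖ ≤
      A * (2 ^ Fintype.card S * √(∑ s ∈ S, ‖u s‖ ^ 2)) := by
    refine (sum_le_sum fun ε _ => hb _).trans ?_
    rw [← mul_sum]
    refine mul_le_mul_of_nonneg_left ?_ hA
    have := sign_le fun i : S => u i
    rwa [sum_coe_sort S fun s => ‖u s‖ ^ 2] at this
  have h4 : (0 : ℝ) < 2 ^ (Fintype.card S + 1) := by positivity
  refine le_of_mul_le_mul_left (h2.trans ?_) h4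
  calc _ ≤ C * (2 * (A * (2 ^ Fintype.card S * √(∑ s ∈ S, ‖u s‖ ^ 2)))) := by gcongr
    _ = _ := by rw [pow_succ]; ring

/-- the key square function bound -/
theorem key (hK : StKh) : ∃ C : ℝ, 0 < C ∧ ∀ (Y E₁ E₂ ι : Type) [Fintype Y]
    [NormedAddCommGroup E₁] [InnerProductSpace ℂ E₁] [NormedAddCommGroup E₂] [Module ℂ E₂]
    (B : E₁ → E₂ → Y → ℂ) (κ U : ℝ) (G : ℕ → E₂) (S : Finset ι) (u : ι → E₁) (m : ι → ℕ),
    (∀ v y, IsLinearMap ℂ fun u => B u v y) → (∀ u y, IsLinearMap ℂ fun v => B u v y) →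
    0 < κ → κ ≤ 1 → (∀ u v, ∑ y, ‖B u v y‖ ≤ κ * Fintype.card Y * ‖u‖ * ‖v‖) →
    (∀ u v, ∑ y, ‖B u v y‖ ^ 2 ≤ Fintype.card Y * ‖u‖ ^ 2 * ‖v‖ ^ 2) → Wb G 1 → 0 ≤ U →
    ∑ s ∈ S, ‖u s‖ ^ 2 ≤ U ^ 2 →
    ∑ y, √(∑ s ∈ S, ‖B (u s) (G (m s)) y‖ ^ 2) ≤ C * √κ * Fintype.card Y * U := by
  classical
  obtain ⟨C, hC, hK⟩ := kh_ext hK
  refine ⟨2 + 4 * C, by positivity, ?_⟩
  intro Y E₁ E₂ ι _ _ _ _ _ B κ U G S u m hl hr hκ0 hκ1 h1 h2 hG hU hu
  obtain ⟨N, α, σ, -, -, hN, hNκ, hd⟩ := anchor hG (√κ) (Real.sqrt_nonneg _) (S.sup m)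
  rw [Real.sq_sqrt hκ0.le] at hNκ
  have hY : (0 : ℝ) ≤ Fintype.card Y := by positivity
  let St : ℕ → Finset ι := fun t => S.filter fun s => σ (m s) = t
  have hfib : ∀ f : ι → ℝ, ∑ s ∈ S, f s = ∑ t ∈ range (N + 1), ∑ s ∈ St t, f s := fun f =>
    (sum_fiberwise_of_maps_to (fun s _ => mem_range.2 (Nat.lt_succ_of_le (hN _))) f).symm
  have hpt : ∀ y, √(∑ s ∈ S, ‖B (u s) (G (m s)) y‖ ^ 2) ≤
      2 * √(∑ s ∈ S, ‖B (u s) (G (m s) - G (α (σ (m s)))) y‖ ^ 2) +
      2 * ∑ t ∈ range (N + 1), √(∑ s ∈ St t, ‖B (u s) (G (α t)) y‖ ^ 2) := by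
    intro y
    have a1 : √(∑ s ∈ S, ‖B (u s) (G (α (σ (m s)))) y‖ ^ 2) ≤
        ∑ t ∈ range (N + 1), √(∑ s ∈ St t, ‖B (u s) (G (α t)) y‖ ^ 2) := by
      refine le_trans (le_of_eq ?_) (sqrt_sum_le _ _ fun t => by positivity)
      rw [hfib]
      congr 1
      refine sum_congr rfl fun t _ => sum_congr rfl fun s hs => ?_
      rw [(mem_filter.1 hs).2]
    have a2 : ∑ s ∈ S, ‖B (u s) (G (m s)) y‖ ^ 2 ≤
        2 * ∑ s ∈ S, ‖B (u s) (G (m s) - G (α (σ (m s)))) y‖ ^ 2 +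
        2 * ∑ s ∈ S, ‖B (u s) (G (α (σ (m s)))) y‖ ^ 2 := by
      rw [mul_sum, mul_sum, ← sum_add_distrib]
      refine sum_le_sum fun s _ => ?_
      have e : B (u s) (G (m s)) y = B (u s) (G (m s) - G (α (σ (m s)))) y +
          B (u s) (G (α (σ (m s)))) y := by
        rw [← (hr (u s) y).map_add, sub_add_cancel]
      have b1 := norm_add_le (B (u s) (G (m s) - G (α (σ (m s)))) y) (B (u s) (G (α (σ (m s)))) y)
      rw [← e] at b1
      nlinarith [norm_nonneg (B (u s) (G (m s)) y), sq_nonneg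
        (‖B (u s) (G (m s) - G (α (σ (m s)))) y‖ - ‖B (u s) (G (α (σ (m s)))) y‖)]
    have p1 : 0 ≤ ∑ s ∈ S, ‖B (u s) (G (m s) - G (α (σ (m s)))) y‖ ^ 2 := by positivity
    have p2 : 0 ≤ ∑ s ∈ S, ‖B (u s) (G (α (σ (m s)))) y‖ ^ 2 := by positivity
    refine le_trans ?_ (add_le_add le_rfl (mul_le_mul_of_nonneg_left a1 (by norm_num)))
    rw [Real.sqrt_le_left (by positivity)]
    nlinarith [Real.sq_sqrt p1, Real.sq_sqrt p2, mul_nonneg (Real.sqrt_nonneg
      (∑ s ∈ S, ‖B (u s) (G (m s) - G (α (σ (m s)))) y‖ ^ 2)) (Real.sqrt_nonneg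
      (∑ s ∈ S, ‖B (u s) (G (α (σ (m s)))) y‖ ^ 2))]
  have hA : ∑ y, √(∑ s ∈ S, ‖B (u s) (G (m s) - G (α (σ (m s)))) y‖ ^ 2) ≤
      √κ * Fintype.card Y * U := by
    refine (sum_sqrt_le _ _ fun y => by positivity).trans ?_
    rw [card_univ, sum_comm, ← Real.sqrt_mul hY, Real.sqrt_le_left (by positivity), mul_pow,
      mul_pow, Real.sq_sqrt hκ0.le]
    have b1 : ∑ s ∈ S, ∑ y, ‖B (u s) (G (m s) - G (α (σ (m s)))) y‖ ^ 2 ≤
        ∑ s ∈ S, Fintype.card Y * κ * ‖u s‖ ^ 2 := by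
      refine sum_le_sum fun s hs => (h2 _ _).trans ?_
      have b2 := pow_le_pow_left₀ (norm_nonneg _) (hd (m s) (le_sup hs)) 2
      rw [Real.sq_sqrt hκ0.le] at b2
      calc _ ≤ Fintype.card Y * ‖u s‖ ^ 2 * κ := by gcongr
        _ = _ := by ring
    rw [← mul_sum] at b1
    calc _ ≤ Fintype.card Y * (Fintype.card Y * κ * U ^ 2) := by
          refine mul_le_mul_of_nonneg_left (b1.trans ?_) hY
          gcongr
      _ = _ := by ring
  have hB : ∑ y, ∑ t ∈ range (N + 1), √(∑ s ∈ St t, ‖B (u s) (G (α t)) y‖ ^ 2) ≤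
      2 * C * √κ * Fintype.card Y * U := by
    rw [sum_comm]
    have b1 : ∀ t, ∑ y, √(∑ s ∈ St t, ‖B (u s) (G (α t)) y‖ ^ 2) ≤
        C * (κ * Fintype.card Y) * √(∑ s ∈ St t, ‖u s‖ ^ 2) := fun t =>
      hK Y E₁ ι (fun u y => B u (G (α t)) y) (κ * Fintype.card Y) (St t) u (by positivity)
        (fun y => hl _ y) fun v => (h1 v _).trans
          (mul_le_of_le_one_right (by positivity) (hG.1 _))
    refine (sum_le_sum fun t _ => b1 t).trans ?_
    rw [← mul_sum]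
    have b2 := sum_sqrt_le (range (N + 1)) (fun t => ∑ s ∈ St t, ‖u s‖ ^ 2) fun t => by positivity
    rw [← hfib, card_range] at b2
    have b3 : √(∑ s ∈ S, ‖u s‖ ^ 2) ≤ U := Real.sqrt_le_left hU |>.2 hu
    have b4 : κ * √((N + 1 : ℕ) : ℝ) ≤ 2 * √κ := by
      refine (sq_le_sq₀ (by positivity) (by positivity)).1 ?_
      rw [mul_pow, mul_pow, Real.sq_sqrt hκ0.le, Real.sq_sqrt (by positivity)]
      push_cast
      nlinarith
    calc _ ≤ C * (κ * Fintype.card Y) * (√((N + 1 : ℕ) : ℝ) * U) := by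
          refine mul_le_mul_of_nonneg_left (b2.trans ?_) (by positivity)
          gcongr
      _ = C * Fintype.card Y * U * (κ * √((N + 1 : ℕ) : ℝ)) := by ring
      _ ≤ C * Fintype.card Y * U * (2 * √κ) := by gcongr
      _ = _ := by ring
  refine (sum_le_sum fun y _ => hpt y).trans ?_
  rw [sum_add_distrib, ← mul_sum, ← mul_sum]
  linarith

/-- one level of the chaining -/
theorem level (hK : StKh) : ∃ C : ℝ, 0 < C ∧ ∀ (Y E₁ E₂ : Type) [Fintype Y]
    [NormedAddCommGroup E₁] [InnerProductSpace ℂ E₁] [NormedAddCommGroup E₂] [Module ℂ E₂]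
    (B : E₁ → E₂ → Y → ℂ) (κ τ : ℝ) (G : ℕ → E₂) (u : ℕ × ℕ → E₁) (m : ℕ × ℕ → ℕ)
    (f g : ℕ → ℕ) (N₁ N₂ I J : ℕ) (c : Y → ℕ → ℕ),
    (∀ v y, IsLinearMap ℂ fun u => B u v y) → (∀ u y, IsLinearMap ℂ fun v => B u v y) →
    0 < κ → κ ≤ 1 → (∀ u v, ∑ y, ‖B u v y‖ ≤ κ * Fintype.card Y * ‖u‖ * ‖v‖) →
    (∀ u v, ∑ y, ‖B u v y‖ ^ 2 ≤ Fintype.card Y * ‖u‖ ^ 2 * ‖v‖ ^ 2) → Wb G 1 →
    Monotone f → Monotone g → (∀ i, f i ≤ N₁) → (∀ i, g i ≤ N₂) →
    (∀ i ≤ I, ‖u (f i, g i)‖ ≤ τ) → (N₁ + N₂ + 1) * τ ^ 2 ≤ 100 → (∀ y, Monotone (c y)) →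
    (∀ y, c y J ≤ I) →
    ∑ y, vr (fun i => B (u (f i, g i)) (G (m (f i, g i))) y) J (c y) ≤
      √J * (C * √κ * Fintype.card Y) := by
  classical
  obtain ⟨C, hC, hK⟩ := key hK
  refine ⟨20 * C, by positivity, ?_⟩
  intro Y E₁ E₂ _ _ _ _ _ B κ τ G u m f g N₁ N₂ I J c hl hr hκ0 hκ1 h1 h2 hG hf hg hfN hgN hu hN
    hc hI
  set S := (range (I + 1)).image fun i => (f i, g i) with hS
  have hcard : S.card ≤ N₁ + N₂ + 1 := by
    rw [← card_range (N₁ + N₂ + 1)]
    refine card_le_card_of_injOn (fun s => s.1 + s.2) (fun s hs => ?_) fun s hs t ht hst => ?_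
    · obtain ⟨i, -, rfl⟩ := mem_image.1 hs
      have := hfN i
      have := hgN i
      simp only [coe_range, Set.mem_Iio]
      omega
    · obtain ⟨i, -, rfl⟩ := mem_image.1 hs
      obtain ⟨j, -, rfl⟩ := mem_image.1 ht
      simp only at hst
      rcases le_total i j with h | h
      · have := hf h
        have := hg h
        exact Prod.ext (by simp only; omega) (by simp only; omega)
      · have := hf h
        have := hg h
        exact Prod.ext (by simp only; omega) (by simp only; omega)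
  have hU : ∑ s ∈ S, ‖u s‖ ^ 2 ≤ 10 ^ 2 := by
    have a1 : ∑ s ∈ S, ‖u s‖ ^ 2 ≤ S.card • τ ^ 2 := by
      refine sum_le_card_nsmul _ _ _ fun s hs => ?_
      obtain ⟨i, hi, rfl⟩ := mem_image.1 hs
      exact pow_le_pow_left₀ (norm_nonneg _) (hu i (Nat.lt_succ_iff.1 (mem_range.1 hi))) 2
    rw [nsmul_eq_mul] at a1
    have a2 : (S.card : ℝ) ≤ N₁ + N₂ + 1 := by exact_mod_cast hcard
    nlinarith [sq_nonneg τ]
  have h3 := hK Y E₁ E₂ (ℕ × ℕ) B κ 10 G S u m hl hr hκ0 hκ1 h1 h2 hG (by norm_num) hU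
  have h4 : ∀ y, vr (fun i => B (u (f i, g i)) (G (m (f i, g i))) y) J (c y) ≤
      √J * (2 * √(∑ s ∈ S, ‖B (u s) (G (m s)) y‖ ^ 2)) := fun y =>
    pieces (fun s => B (u s) (G (m s)) y) (fun j => (f (c y j), g (c y j))) S J
      (convex_pair (hf.comp (hc y)) (hg.comp (hc y))) fun j hj hn =>
        absurd (mem_image.2 ⟨c y j, mem_range.2 (Nat.lt_succ_of_le ((hc y hj).trans (hI y))),
          rfl⟩) hn
  refine (sum_le_sum fun y _ => h4 y).trans ?_
  rw [← mul_sum, ← mul_sum]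
  refine mul_le_mul_of_nonneg_left ?_ (Real.sqrt_nonneg _)
  linarith

theorem bil_sub {Y E₁ E₂ : Type} [AddCommGroup E₁] [Module ℂ E₁] [AddCommGroup E₂] [Module ℂ E₂]
    (B : E₁ → E₂ → Y → ℂ) (hl : ∀ v y, IsLinearMap ℂ fun u => B u v y)
    (hr : ∀ u y, IsLinearMap ℂ fun v => B u v y) (u u' : E₁) (v v' : E₂) (y : Y) :
    B u v y - B u' v' y = B (u - u') v y + B u' (v - v') y := by
  have a1 := (hl v y).map_sub u u'
  have a2 := (hr u' y).map_sub v v'
  rw [a1, a2]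
  ring

/-- the normalised form -/
theorem norm4 (hK : StKh) : ∃ C : ℝ, 0 < C ∧ ∀ (Y E₁ E₂ : Type) [Fintype Y]
    [NormedAddCommGroup E₁] [InnerProductSpace ℂ E₁] [NormedAddCommGroup E₂]
    [InnerProductSpace ℂ E₂] (B : E₁ → E₂ → Y → ℂ) (κ : ℝ) (ℓ : ℕ) (F : ℕ → E₁) (G : ℕ → E₂),
    (∀ v y, IsLinearMap ℂ fun u => B u v y) → (∀ u y, IsLinearMap ℂ fun v => B u v y) →
    0 < κ → κ ≤ 1 → (∀ u v, ∑ y, ‖B u v y‖ ≤ κ * Fintype.card Y * ‖u‖ * ‖v‖) →
    (∀ u v, ∑ y, ‖B u v y‖ ^ 2 ≤ Fintype.card Y * ‖u‖ ^ 2 * ‖v‖ ^ 2) →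
    (∀ u v y, ‖B u v y‖ ≤ 2 ^ ℓ * ‖u‖ * ‖v‖) → Wb F 1 → Wb G 1 →
    ∀ (J : ℕ) (c : Y → ℕ → ℕ), (∀ y, Monotone (c y)) →
      ∑ y, vr (fun i => B (F i) (G i) y) J (c y) ≤
        √J * (C * ((ℓ + 1) * √κ + (2 ^ ℓ)⁻¹) * Fintype.card Y) := by
  obtain ⟨C, hC, hK⟩ := level hK
  refine ⟨4 + 4 * C, by positivity, ?_⟩
  intro Y E₁ E₂ _ _ _ _ _ B κ ℓ F G hl hr hκ0 hκ1 h1 h2 h3 hF hG J c hc
  rcases Nat.eq_zero_or_pos J with rfl | hJ
  · simp [vr]
  have hJ1 : (1 : ℝ) ≤ J := by exact_mod_cast hJ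
  have hsJ : 0 < √(J : ℝ) := Real.sqrt_pos.2 (by linarith)
  have hJJ : √(J : ℝ) ^ 2 = J := Real.sq_sqrt (by linarith)
  have hY : (0 : ℝ) ≤ Fintype.card Y := by positivity
  have hH : Wb (fun i => (F i, G i)) 2 := by
    refine ⟨fun i => ?_, fun J c hc => ?_⟩
    · rw [Prod.norm_mk]
      exact max_le (by linarith [hF.1 i]) (by linarith [hG.1 i])
    · have a1 := hF.2 J c hc
      have a2 := hG.2 J c hc
      have a3 : vr (fun i => (F i, G i)) J c ≤ vr F J c + vr G J c := by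
        unfold vr
        rw [← sum_add_distrib]
        refine sum_le_sum fun j _ => ?_
        rw [Prod.mk_sub_mk, Prod.norm_mk]
        exact max_le (le_add_of_nonneg_right (norm_nonneg _))
          (le_add_of_nonneg_left (norm_nonneg _))
      linarith
  set I := univ.sup fun y => c y J with hIdef
  have hI : ∀ y, c y J ≤ I := fun y => le_sup (f := fun y => c y J) (mem_univ y)
  let τ : ℕ → ℝ := fun k => (2 ^ k)⁻¹ / √J
  have hτ : ∀ k, 0 < τ k := fun k => by simp only [τ]; positivity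
  have hτs : ∀ k, τ k = 2 * τ (k + 1) := fun k => by
    simp only [τ, pow_succ]
    field_simp
  have hτ1 : ∀ k, τ k ≤ 1 := fun k => by
    simp only [τ]
    rw [div_le_one hsJ]
    exact (inv_le_one_of_one_le₀ (one_le_pow₀ (by norm_num))).trans (Real.one_le_sqrt.2 hJ1)
  choose N α σ hα hσ hN hNτ hd using fun k => anchor hH (τ k) (hτ k).le I
  have hdF : ∀ k, ∀ i ≤ I, ‖F i - F (α k (σ k i))‖ ≤ τ k := fun k i hi =>
    (norm_fst_le _).trans (hd k i hi)
  have hdG : ∀ k, ∀ i ≤ I, ‖G i - G (α k (σ k i))‖ ≤ τ k := fun k i hi =>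
    (norm_snd_le _).trans (hd k i hi)
  have hNN : ∀ k, ((N (k + 1) : ℝ) + N k + 1) * (2 * τ k) ^ 2 ≤ 100 := fun k => by
    have a1 := hNτ k
    have a2 := hNτ (k + 1)
    have a3 := hτ1 k
    have a4 := hτ k
    have a5 : (N (k + 1) : ℝ) * τ k ^ 2 = 4 * (N (k + 1) * τ (k + 1) ^ 2) := by
      rw [hτs k]; ring
    nlinarith
  -- level zero
  have L0 : ∑ y, vr (fun i => B (F (α 0 (σ 0 i))) (G (α 0 (σ 0 i))) y) J (c y) ≤
      √J * (4 * √κ * Fintype.card Y) := by
    have a1 : ∀ y, vr (fun i => B (F (α 0 (σ 0 i))) (G (α 0 (σ 0 i))) y) J (c y) ≤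
        ∑ s ∈ range (N 0), ‖B (F (α 0 (s + 1))) (G (α 0 (s + 1))) y -
          B (F (α 0 s)) (G (α 0 s)) y‖ := fun y =>
      tv_le (fun s => B (F (α 0 s)) (G (α 0 s)) y) (fun j => σ 0 (c y j)) ((hσ 0).comp (hc y))
        (N 0) (fun j => hN 0 _) J
    refine (sum_le_sum fun y _ => a1 y).trans ?_
    rw [sum_comm]
    have a2 : ∀ s, ∑ y, ‖B (F (α 0 (s + 1))) (G (α 0 (s + 1))) y - B (F (α 0 s)) (G (α 0 s)) y‖ ≤
        κ * Fintype.card Y * (‖F (α 0 (s + 1)) - F (α 0 s)‖ + ‖G (α 0 (s + 1)) - G (α 0 s)‖) := by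
      intro s
      simp only [bil_sub B hl hr]
      refine (sum_le_sum fun y _ => norm_add_le _ _).trans ?_
      rw [sum_add_distrib, mul_add]
      refine add_le_add ((h1 _ _).trans (mul_le_of_le_one_right (by positivity) (hG.1 _)))
        ((h1 _ _).trans ?_)
      rw [mul_right_comm]
      exact mul_le_of_le_one_right (by positivity) (hF.1 _)
    refine (sum_le_sum fun s _ => a2 s).trans ?_
    rw [← mul_sum, sum_add_distrib]
    have a3 := hF.2 (N 0) (α 0) (hα 0)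
    have a4 := hG.2 (N 0) (α 0) (hα 0)
    have a5 : √(N 0 : ℝ) ≤ 2 * √J := by
      rw [Real.sqrt_le_left (by positivity), mul_pow, hJJ]
      have a6 := hNτ 0
      simp only [τ, pow_zero, inv_one, div_pow, hJJ, one_pow] at a6
      rw [mul_one_div, div_le_iff₀ (by linarith)] at a6
      exact a6
    have a6 : κ ≤ √κ := Real.le_sqrt_of_sq_le (by nlinarith)
    unfold vr at a3 a4
    calc _ ≤ κ * Fintype.card Y * (4 * √J) :=
          mul_le_mul_of_nonneg_left (by linarith) (by positivity)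
      _ ≤ √κ * Fintype.card Y * (4 * √J) := by gcongr
      _ = _ := by ring
  -- the levels
  have L1 : ∀ k, ∑ y, vr (fun i => B (F (α (k + 1) (σ (k + 1) i)) - F (α k (σ k i)))
      (G (α (k + 1) (σ (k + 1) i))) y) J (c y) ≤ √J * (C * √κ * Fintype.card Y) := fun k =>
    hK Y E₁ E₂ B κ (2 * τ k) G (fun s => F (α (k + 1) s.1) - F (α k s.2))
      (fun s => α (k + 1) s.1) (σ (k + 1)) (σ k) (N (k + 1)) (N k) I J c hl hr hκ0 hκ1 h1 h2 hG
      (hσ _) (hσ _) (hN _) (hN _) (fun i hi => by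
        have a1 := hdF k i hi
        have a2 := hdF (k + 1) i hi
        have a3 := norm_sub_le_norm_sub_add_norm_sub (F (α (k + 1) (σ (k + 1) i))) (F i)
          (F (α k (σ k i)))
        rw [norm_sub_rev] at a2
        have a4 := hτs k
        have a5 := hτ (k + 1)
        simp only
        linarith) (hNN k) hc hI
  have L2 : ∀ k, ∑ y, vr (fun i => B (F (α k (σ k i)))
      (G (α (k + 1) (σ (k + 1) i)) - G (α k (σ k i))) y) J (c y) ≤
      √J * (C * √κ * Fintype.card Y) := fun k =>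
    hK Y E₂ E₁ (fun v u y => B u v y) κ (2 * τ k) F (fun s => G (α (k + 1) s.1) - G (α k s.2))
      (fun s => α k s.2) (σ (k + 1)) (σ k) (N (k + 1)) (N k) I J c hr hl hκ0 hκ1
      (fun v u => (h1 u v).trans (le_of_eq (by ring))) (fun v u => (h2 u v).trans
        (le_of_eq (by ring))) hF
      (hσ _) (hσ _) (hN _) (hN _) (fun i hi => by
        have a1 := hdG k i hi
        have a2 := hdG (k + 1) i hi
        have a3 := norm_sub_le_norm_sub_add_norm_sub (G (α (k + 1) (σ (k + 1) i))) (G i)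
          (G (α k (σ k i)))
        rw [norm_sub_rev] at a2
        have a4 := hτs k
        have a5 := hτ (k + 1)
        simp only
        linarith) (hNN k) hc hI
  -- the remainder
  have L3 : ∀ y, vr (fun i => B (F i) (G i) y -
      B (F (α (2 * ℓ) (σ (2 * ℓ) i))) (G (α (2 * ℓ) (σ (2 * ℓ) i))) y) J (c y) ≤
      √J * (4 * (2 ^ ℓ)⁻¹) := by
    intro y
    have a1 : ∀ i ≤ I, ‖B (F i) (G i) y -
        B (F (α (2 * ℓ) (σ (2 * ℓ) i))) (G (α (2 * ℓ) (σ (2 * ℓ) i))) y‖ ≤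
        2 * (2 ^ ℓ * τ (2 * ℓ)) := by
      intro i hi
      rw [bil_sub B hl hr, two_mul (2 ^ ℓ * τ (2 * ℓ))]
      refine (norm_add_le _ _).trans (add_le_add ((h3 _ _ _).trans ?_) ((h3 _ _ _).trans ?_))
      · refine (mul_le_of_le_one_right (by positivity) (hG.1 _)).trans ?_
        exact mul_le_mul_of_nonneg_left (hdF _ i hi) (by positivity)
      · rw [mul_right_comm]
        refine (mul_le_of_le_one_right (by positivity) (hF.1 _)).trans ?_
        exact mul_le_mul_of_nonneg_left (hdG _ i hi) (by positivity)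
    unfold vr
    refine (sum_le_card_nsmul _ _ (4 * (2 ^ ℓ * τ (2 * ℓ))) fun j hj => ?_).trans (le_of_eq ?_)
    · have hj' := mem_range.1 hj
      have b1 := a1 _ ((hc y (show j + 1 ≤ J by omega)).trans (hI y))
      have b2 := a1 _ ((hc y (show j ≤ J by omega)).trans (hI y))
      exact (norm_sub_le _ _).trans (by linarith)
    · rw [card_range, nsmul_eq_mul]
      simp only [τ]
      rw [two_mul, pow_add]
      conv_lhs => rw [← hJJ]
      rw [Real.sqrt_sq hsJ.le]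
      field_simp
  have dec : ∀ y i, B (F i) (G i) y = (B (F (α 0 (σ 0 i))) (G (α 0 (σ 0 i))) y +
      ∑ k ∈ range (2 * ℓ), (B (F (α (k + 1) (σ (k + 1) i)) - F (α k (σ k i)))
        (G (α (k + 1) (σ (k + 1) i))) y + B (F (α k (σ k i)))
        (G (α (k + 1) (σ (k + 1) i)) - G (α k (σ k i))) y)) + (B (F i) (G i) y -
      B (F (α (2 * ℓ) (σ (2 * ℓ) i))) (G (α (2 * ℓ) (σ (2 * ℓ) i))) y) := by
    intro y i
    simp only [← bil_sub B hl hr]
    rw [sum_range_sub fun k => B (F (α k (σ k i))) (G (α k (σ k i))) y]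
    ring
  have hv : ∀ y, vr (fun i => B (F i) (G i) y) J (c y) ≤
      (vr (fun i => B (F (α 0 (σ 0 i))) (G (α 0 (σ 0 i))) y) J (c y) +
      ∑ k ∈ range (2 * ℓ), (vr (fun i => B (F (α (k + 1) (σ (k + 1) i)) - F (α k (σ k i)))
        (G (α (k + 1) (σ (k + 1) i))) y) J (c y) + vr (fun i => B (F (α k (σ k i)))
        (G (α (k + 1) (σ (k + 1) i)) - G (α k (σ k i))) y) J (c y))) + √J * (4 * (2 ^ ℓ)⁻¹) := by
    intro y
    rw [funext (dec y)]
    refine (vr_add _ _ _ _).trans (add_le_add ((vr_add _ _ _ _).trans (add_le_add le_rfl ?_))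
      (L3 y))
    exact (vr_sum _ _ _ _).trans (sum_le_sum fun k _ => vr_add _ _ _ _)
  refine (sum_le_sum fun y _ => hv y).trans ?_
  rw [sum_add_distrib, sum_add_distrib, sum_comm, sum_const, card_univ, nsmul_eq_mul]
  have L4 : ∑ k ∈ range (2 * ℓ), ∑ y,
      (vr (fun i => B (F (α (k + 1) (σ (k + 1) i)) - F (α k (σ k i)))
        (G (α (k + 1) (σ (k + 1) i))) y) J (c y) + vr (fun i => B (F (α k (σ k i)))
        (G (α (k + 1) (σ (k + 1) i)) - G (α k (σ k i))) y) J (c y)) ≤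
      (range (2 * ℓ)).card • (2 * (√J * (C * √κ * Fintype.card Y))) := by
    refine sum_le_card_nsmul _ _ _ fun k _ => ?_
    rw [sum_add_distrib]
    linarith [L1 k, L2 k]
  rw [card_range, nsmul_eq_mul] at L4
  push_cast at L4
  have p1 : 0 ≤ √(J : ℝ) * (√κ * Fintype.card Y) * ℓ := by positivity
  have p2 : 0 ≤ √(J : ℝ) * (C * √κ * Fintype.card Y) := by positivity
  have p3 : 0 ≤ √(J : ℝ) * (C * (2 ^ ℓ)⁻¹ * Fintype.card Y) := by positivity
  nlinarith

theorem Wb_smul {E : Type} [NormedAddCommGroup E] [NormedSpace ℂ E] {F : ℕ → E} {w : ℝ}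
    (h : Wb F w) (hw : 0 < w) : Wb (fun i => ((w⁻¹ : ℝ) : ℂ) • F i) 1 := by
  have e : ∀ v : E, ‖((w⁻¹ : ℝ) : ℂ) • v‖ = w⁻¹ * ‖v‖ := fun v => by
    rw [norm_smul, Complex.norm_real, Real.norm_of_nonneg (by positivity)]
  refine ⟨fun i => ?_, fun J c hc => ?_⟩
  · rw [e, inv_mul_le_iff₀ hw, mul_one]
    exact h.1 i
  · have := h.2 J c hc
    unfold vr at this ⊢
    simp only [← smul_sub, e, ← mul_sum]
    rw [inv_mul_le_iff₀ hw]
    linarith

end RM

theorem stR4 (hK : StKh) : StR4 := by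
  obtain ⟨C, hC, hK⟩ := norm4 hK
  refine ⟨C, hC, ?_⟩
  intro Y E₁ E₂ _ _ _ _ _ B κ ℓ F G w₁ w₂ hl hr hκ0 hκ1 h1 h2 h3 hF hG J c hc
  have hz : (∀ i y, B (F i) (G i) y = 0) → ∑ y, (√J)⁻¹ * vr (fun i => B (F i) (G i) y) J (c y) ≤
      C * ((ℓ + 1) * √κ + (2 ^ ℓ)⁻¹) * Fintype.card Y * w₁ * w₂ := fun h => by
    have := Wb_nonneg hF
    have := Wb_nonneg hG
    simp only [h, vr, sub_self, norm_zero, sum_const_zero, mul_zero]
    positivity
  rcases (Wb_nonneg hF).eq_or_lt with h0 | hw₁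
  · refine hz fun i y => norm_le_zero_iff.1 ((h3 _ _ _).trans (le_of_eq ?_))
    rw [norm_le_zero_iff.1 ((hF.1 i).trans h0.ge)]
    simp
  rcases (Wb_nonneg hG).eq_or_lt with h0 | hw₂
  · refine hz fun i y => norm_le_zero_iff.1 ((h3 _ _ _).trans (le_of_eq ?_))
    rw [norm_le_zero_iff.1 ((hG.1 i).trans h0.ge)]
    simp
  have main := hK Y E₁ E₂ B κ ℓ _ _ hl hr hκ0 hκ1 h1 h2 h3 (Wb_smul hF hw₁) (Wb_smul hG hw₂) J c hc
  have e : ∀ y, vr (fun i => B (((w₁⁻¹ : ℝ) : ℂ) • F i) (((w₂⁻¹ : ℝ) : ℂ) • G i) y) J (c y) =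
      (w₁ * w₂)⁻¹ * vr (fun i => B (F i) (G i) y) J (c y) := fun y => by
    unfold vr
    rw [mul_sum]
    refine sum_congr rfl fun j _ => ?_
    simp only [(hl _ y).map_smul, (hr _ y).map_smul, smul_eq_mul, ← mul_sub, norm_mul,
      Complex.norm_real, Real.norm_of_nonneg (inv_pos.2 hw₁).le,
      Real.norm_of_nonneg (inv_pos.2 hw₂).le]
    rw [mul_inv]
    ring
  simp only [e, ← mul_sum] at main ⊢
  rw [inv_mul_le_iff₀ (mul_pos hw₁ hw₂)] at main
  refine inv_mul_le (by positivity) (main.trans (le_of_eq ?_))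
  ring

end

end Pool.Agent.Lib.MP_10e396_an
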