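import Pool.Agent.Lib.MP_10e396_an.Par
import Pool.Agent.Lib.MP_10e396_an.MartA
import Pool.Agent.Lib.MP_10e396_an.RM
import Pool.Agent.Lib.MP_10e396_an.DBL

/-! Calculus of the variation bounds, and the estimates without decay. -/

set_option autoImplicit false

namespace Pool.Agent.Lib.MP_10e396_an

open Finset Polynomial

noncomputable section

namespace ND

theorem vr_neg (a : ℕ → ℂ) (J : ℕ) (c : ℕ → ℕ) : vr (fun i => -a i) J c = vr a J c :=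
  sum_congr rfl fun j _ => by rw [← norm_neg]; congr 1; ring

theorem vr_av (N : ℕ) (a : ℕ → ℕ → ℂ) (J : ℕ) (c : ℕ → ℕ) :
    vr (fun i => av N fun τ => a τ i) J c ≤ av N fun τ => vr (a τ) J c := by
  unfold vr
  rw [av_sum]
  exact sum_le_sum fun j _ => by rw [← av_sub]; exact norm_av_le _ _

theorem wb_neg {a : ℕ → ℂ} {w : ℝ} (h : Wb a w) : Wb (fun i => -a i) w :=
  ⟨fun i => by rw [norm_neg]; exact h.1 i, fun J c hc => by rw [vr_neg]; exact h.2 J c hc⟩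

theorem wb_av {N : ℕ} {a : ℕ → ℕ → ℂ} {w : ℕ → ℝ} (h : ∀ τ < N, Wb (a τ) (w τ)) :
    Wb (fun i => av N fun τ => a τ i) (av N w) :=
  ⟨fun i => (norm_av_le _ _).trans (av_mono fun τ hτ => (h τ hτ).1 i), fun J c hc =>
    (vr_av N a J c).trans (by
      rw [← av_rmul_left]; exact av_mono fun τ hτ => (h τ hτ).2 J c hc)⟩

theorem wb_mul {a b : ℕ → ℂ} {w w' : ℝ} (h : Wb a w) (h' : Wb b w') :
    Wb (fun i => a i * b i) (2 * (w * w')) := by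
  have h0 := Mart.wb_nonneg h
  have h0' := Mart.wb_nonneg h'
  refine ⟨fun i => ?_, fun J c hc => ?_⟩
  · rw [norm_mul]
    have := mul_le_mul (h.1 i) (h'.1 i) (norm_nonneg _) h0
    nlinarith [mul_nonneg h0 h0']
  · have e : vr (fun i => a i * b i) J c ≤ w * vr b J c + vr a J c * w' := by
      unfold vr
      rw [mul_sum, sum_mul, ← sum_add_distrib]
      refine sum_le_sum fun j _ => ?_
      have : a (c (j + 1)) * b (c (j + 1)) - a (c j) * b (c j) =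
          a (c (j + 1)) * (b (c (j + 1)) - b (c j)) + (a (c (j + 1)) - a (c j)) * b (c j) := by ring
      rw [this]
      refine (norm_add_le _ _).trans ?_
      rw [norm_mul, norm_mul]
      gcongr
      · exact h.1 _
      · exact h'.1 _
    have e1 := mul_le_mul_of_nonneg_left (h'.2 J c hc) h0
    have e2 := mul_le_mul_of_nonneg_right (h.2 J c hc) h0'
    linarith

theorem wb_l1 (b : ℕ → ℂ) (s : Finset ℕ) (hb : ∀ i, i ∉ s → b i = 0) :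
    Wb b (2 * ∑ i ∈ s, ‖b i‖) := by
  refine Mart.wb_mono (Mart.wb_sq b s hb) (mul_le_mul_of_nonneg_left ?_ two_pos.le)
  refine (DBL.sqrt_sum_le s _ fun i => sq_nonneg _).trans (le_of_eq ?_)
  simp

section db

variable {X X' Y : Type} [Fintype X'] [Fintype Y] {e : X' × Y ≃ X} {γ β : ℝ}

theorem DB_mono {a : ℕ → X → ℂ} {B B' : ℝ} (h : DB e γ β a B) (hB : B ≤ B') : DB e γ β a B' :=
  fun J c u v a1 a2 a3 a4 a5 => (h J c u v a1 a2 a3 a4 a5).trans hB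

theorem DB_add {a b : ℕ → X → ℂ} {B B' : ℝ} (h : DB e γ β a B) (h' : DB e γ β b B') :
    DB e γ β (fun i x => a i x + b i x) (B + B') := by
  intro J c u v a1 a2 a3 a4 a5
  refine le_trans ?_ (add_le_add (h J c u v a1 a2 a3 a4 a5) (h' J c u v a1 a2 a3 a4 a5))
  rw [← sum_add_distrib]
  refine sum_le_sum fun z _ => ?_
  rw [← mul_add, ← mul_add]
  have := a2 z.1
  have := a3 z
  gcongr
  exact RM.vr_add _ _ _ _

theorem DB_neg {a : ℕ → X → ℂ} {B : ℝ} (h : DB e γ β a B) : DB e γ β (fun i x => -a i x) B := by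
  intro J c u v a1 a2 a3 a4 a5
  simpa only [vr_neg] using h J c u v a1 a2 a3 a4 a5

theorem DB_sub {a b : ℕ → X → ℂ} {B B' : ℝ} (h : DB e γ β a B) (h' : DB e γ β b B') :
    DB e γ β (fun i x => a i x - b i x) (B + B') := by
  simpa only [sub_eq_add_neg] using DB_add h (DB_neg h')

theorem DB_av {N : ℕ} {a : ℕ → ℕ → X → ℂ} {B : ℝ} (hB : 0 ≤ B) (h : ∀ τ < N, DB e γ β (a τ) B) :
    DB e γ β (fun i x => av N fun τ => a τ i x) B := by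
  intro J c u v a1 a2 a3 a4 a5
  refine le_trans ?_ (av_le hB fun τ hτ => h τ hτ J c u v a1 a2 a3 a4 a5)
  rw [av_sum]
  refine sum_le_sum fun z _ => ?_
  rw [av_rmul_left, av_rmul_left]
  have := a2 z.1
  have := a3 z
  gcongr
  exact vr_av _ _ _ _

theorem DB_zero [Fintype X] {a : ℕ → X → ℂ} {w : X → ℝ} (h : ∀ x, Wb (fun i => a i x) (w x)) :
    DB e 0 0 a (lp 1 w) := by
  intro J c u v a1 _ _ _ _
  rw [lp_one, ← Equiv.sum_comp e]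
  refine sum_le_sum fun z _ => ?_
  rw [Real.rpow_zero, Real.rpow_zero, one_mul, one_mul]
  exact (DBL.Wb_le (h _) _ (a1 _)).trans (le_abs_self _)

end db

theorem DB_unit {X : Type} [Fintype X] {p q : ℝ} (hp : 1 ≤ p) (hq : 1 ≤ q) {a : ℕ → X → ℂ}
    {w : X → ℝ} (h : ∀ x, Wb (fun i => a i x) (w x)) :
    DB (Equiv.prodUnique X Unit) (1 - p⁻¹) (1 - q⁻¹) a (lp p w) := by
  have h0 : ∀ x, 0 ≤ w x := fun x => Mart.wb_nonneg (h x)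
  refine stDBW X X Unit _ p q a (fun z => w z.1) w _ hp hq (lp_nonneg _ _) h0 (fun z => h _)
    (fun x => by simp) ?_
  rw [lp_rpow (by linarith)]
  simp [abs_of_nonneg (h0 _)]

section jb

variable {X : Type} [Fintype X] {p : ℝ}

theorem JB_mono {a : ℕ → X → ℂ} {B B' : ℝ} (h : JB p a B) (hB : B ≤ B') : JB p a B' :=
  fun δ J a1 a2 => (h δ J a1 a2).trans hB

theorem JB_of_Wb (hp : 1 ≤ p) {a : ℕ → X → ℂ} {w : X → ℝ} (h : ∀ x, Wb (fun i => a i x) (w x)) :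
    JB p a (2 * lp p w) := by
  intro δ J hδ hJ
  refine lp_le_mul (by linarith) two_pos.le fun x => ?_
  obtain ⟨c, hc, hj⟩ := hJ x
  have h0 := Mart.wb_nonneg (h x)
  have h1 := (DBL.jmp_vr _ δ c _ hj).trans ((h x).2 _ c hc)
  rw [Real.norm_of_nonneg (by positivity), Real.norm_of_nonneg h0]
  rcases Nat.eq_zero_or_pos (J x) with h2 | h2
  · rw [h2]; simp [h0]
  · have h3 : (0 : ℝ) < √(J x) := Real.sqrt_pos.2 (by exact_mod_cast h2)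
    have h4 : √((2 * J x : ℕ) : ℝ) ≤ 2 * √(J x) := by
      rw [Real.sqrt_le_iff]
      refine ⟨by positivity, ?_⟩
      rw [mul_pow, Real.sq_sqrt (by positivity)]
      push_cast
      have : (0 : ℝ) ≤ J x := by positivity
      linarith
    refine le_of_mul_le_mul_left ?_ h3
    calc √(J x : ℝ) * (δ * √(J x)) = (√(J x : ℝ) * √(J x)) * δ := by ring
      _ = J x * δ := by rw [Real.mul_self_sqrt (by positivity)]
      _ ≤ 2 * √(J x) * w x := h1.trans (by gcongr)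
      _ = _ := by ring

theorem JB_zero (hp : 1 ≤ p) {a : ℕ → X → ℂ} (h : ∀ i x, a i x = 0) : JB p a 0 := by
  have := JB_of_Wb hp (a := a) (w := fun _ => 0) fun x =>
    ⟨fun i => by simp [h], fun J c _ => by simp [vr, h]⟩
  rwa [lp_zero (by linarith), mul_zero] at this

theorem JB_add (hp : 1 ≤ p) {a b : ℕ → X → ℂ} {B B' : ℝ} (h : JB p a B) (h' : JB p b B') :
    JB p (fun i x => a i x + b i x) (2 * B + 2 * B') := by
  have := stJSum X p (range 2) (fun k => if k = 0 then a else b) (fun _ => 1 / 2)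
    (fun k => if k = 0 then B else B') hp (fun _ _ => by norm_num) (by simp) (fun k _ => by
      split_ifs <;> assumption)
  simp only [sum_range_succ, range_zero, sum_empty, zero_add, if_true, one_ne_zero, if_false] at this
  refine JB_mono this (le_of_eq (by ring))

end jb

theorem av_mul_le {N : ℕ} (hN : 1 ≤ N) {p p₁ p₂ : ℝ} (hp : 1 ≤ p) (h₁ : 0 < p₁) (h₂ : 0 < p₂)
    (hpp : p₁⁻¹ + p₂⁻¹ = p⁻¹) {a b : ℕ → ℝ} (ha : ∀ m, 0 ≤ a m) (hb : ∀ m, 0 ≤ b m) :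
    av N (fun m => a m * b m) ≤
      (av N fun m => a m ^ p₁) ^ p₁⁻¹ * (av N fun m => b m ^ p₂) ^ p₂⁻¹ := by
  have hN' : (0 : ℝ) < (N : ℝ)⁻¹ := by positivity
  have h1 := sum_weight_le hp (u := fun _ : Fin N => (N : ℝ)⁻¹) (fun _ => hN'.le)
    (by simp [mul_inv_cancel₀ (show (N : ℝ) ≠ 0 by positivity)]) (fun m => a m * b m)
  have h2 := lp_mul_le h₁ h₂ hpp (f := fun m : Fin N => a m) (g := fun m : Fin N => b m)
    (w := fun m : Fin N => a m * b m) fun m => (norm_mul _ _).le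
  have h3 := h1.trans h2
  simp only [lp, Real.norm_of_nonneg (ha _), Real.norm_of_nonneg (hb _),
    Real.norm_of_nonneg (mul_nonneg (ha _) (hb _)), ← mul_sum] at h3
  rw [Fin.sum_univ_eq_sum_range (fun m => a m * b m), Fin.sum_univ_eq_sum_range (fun m => a m ^ p₁),
    Fin.sum_univ_eq_sum_range (fun m => b m ^ p₂)] at h3
  simp only [av, smul_eq_mul]
  have n1 : 0 ≤ ∑ m ∈ range N, a m ^ p₁ := sum_nonneg fun m _ => Real.rpow_nonneg (ha m) _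
  have n2 : 0 ≤ ∑ m ∈ range N, b m ^ p₂ := sum_nonneg fun m _ => Real.rpow_nonneg (hb m) _
  rw [Real.mul_rpow hN'.le n1, Real.mul_rpow hN'.le n2, mul_mul_mul_comm, ← Real.rpow_add hN', hpp]
  calc _ = (N : ℝ)⁻¹ ^ p⁻¹ * ((N : ℝ)⁻¹ ^ (1 - p⁻¹) * ∑ m ∈ range N, a m * b m) := by
        rw [← mul_assoc, ← Real.rpow_add hN']; simp
    _ ≤ _ := mul_le_mul_of_nonneg_left h3 (by positivity)

theorem DB_bil {X X' Y : Type} [Fintype X'] [Fintype Y] [Nonempty Y] (e : X' × Y ≃ X)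
    {p p₁ p₂ : ℝ} (hp : 1 ≤ p) (h₁ : 0 < p₁) (h₂ : 1 ≤ p₂) (hpp : p₁⁻¹ + p₂⁻¹ = p⁻¹)
    {a : ℕ → X → ℂ} {w₁ w₂ : X' × Y → ℝ} (n₁ : ∀ z, 0 ≤ w₁ z) (n₂ : ∀ z, 0 ≤ w₂ z) {N : ℕ}
    (hN : 1 ≤ N) (σ₁ σ₂ : ℕ → X' × Y → Y)
    (e₁ : ∀ z (ψ : Y → ℝ), av N (fun m => ψ (σ₁ m z)) = (Fintype.card Y : ℝ)⁻¹ * ∑ y, ψ y)
    (e₂ : ∀ m x (ψ : Y → ℝ), ∑ y, ψ (σ₂ m (x, y)) = ∑ y, ψ y)
    (hW : ∀ z, Wb (fun i => a i (e z))
      (av N fun m => 2 * (w₁ (z.1, σ₁ m z) * w₂ (z.1, σ₂ m z)))) :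
    DB e (1 - p⁻¹) (1 - p₂⁻¹) a (2 * (lp p₁ w₁ * lp p₂ w₂)) := by
  have h₂' : 0 < p₂ := by linarith
  have hp0 : 0 < p := by linarith
  have hQ : (0 : ℝ) < Fintype.card Y := by exact_mod_cast Fintype.card_pos
  set Q : ℝ := (Fintype.card Y : ℝ)
  let nr : ℝ → (X' × Y → ℝ) → X' → ℝ := fun s w x => (Q⁻¹ * ∑ y, w (x, y) ^ s) ^ s⁻¹
  have s0 : ∀ (s : ℝ) (w : X' × Y → ℝ), (∀ z, 0 ≤ w z) → ∀ x, 0 ≤ Q⁻¹ * ∑ y, w (x, y) ^ s :=
    fun s w hw x => mul_nonneg (by positivity) (sum_nonneg fun y _ => Real.rpow_nonneg (hw _) _)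
  have nr0 : ∀ (s : ℝ) (w : X' × Y → ℝ), (∀ z, 0 ≤ w z) → ∀ x, 0 ≤ nr s w x :=
    fun s w hw x => Real.rpow_nonneg (s0 s w hw x) _
  have nrl : ∀ (s : ℝ) (w : X' × Y → ℝ), 0 < s → (∀ z, 0 ≤ w z) →
      lp s (nr s w) = Q⁻¹ ^ s⁻¹ * lp s w := by
    intro s w hs hw
    unfold lp
    rw [← Real.mul_rpow (by positivity) (sum_rpow_nonneg _ _), Fintype.sum_prod_type, mul_sum]
    congr 1
    refine sum_congr rfl fun x _ => ?_
    rw [Real.norm_of_nonneg (nr0 s w hw x), Real.rpow_inv_rpow (s0 s w hw x) hs.ne']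
    simp only [Real.norm_of_nonneg (hw _)]
  have hB : 0 ≤ 2 * (lp p₁ w₁ * lp p₂ w₂) :=
    mul_nonneg two_pos.le (mul_nonneg (lp_nonneg _ _) (lp_nonneg _ _))
  refine stDBW X X' Y e p p₂ a _ (fun x => 2 * (nr p₁ w₁ x * nr p₂ w₂ x)) _ hp h₂ hB
    (fun x => mul_nonneg two_pos.le (mul_nonneg (nr0 _ _ n₁ x) (nr0 _ _ n₂ x))) hW
    (fun x => ?_) ?_
  · have a1 : ∀ y, (av N fun m => 2 * (w₁ (x, σ₁ m (x, y)) * w₂ (x, σ₂ m (x, y)))) ^ p₂ ≤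
        (2 * nr p₁ w₁ x) ^ p₂ * av N fun m => w₂ (x, σ₂ m (x, y)) ^ p₂ := by
      intro y
      have b0 : 0 ≤ av N fun m => w₂ (x, σ₂ m (x, y)) ^ p₂ :=
        av_nonneg fun m _ => Real.rpow_nonneg (n₂ _) _
      have b1 := av_mul_le hN hp h₁ h₂' hpp (a := fun m => w₁ (x, σ₁ m (x, y)))
        (b := fun m => w₂ (x, σ₂ m (x, y))) (fun m => n₁ _) (fun m => n₂ _)
      rw [e₁ (x, y) fun r => w₁ (x, r) ^ p₁] at b1
      rw [av_rmul_left, ← Real.rpow_inv_rpow b0 h₂'.ne', ← Real.mul_rpow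
        (mul_nonneg two_pos.le (nr0 _ _ n₁ x)) (Real.rpow_nonneg b0 _)]
      refine Real.rpow_le_rpow (mul_nonneg two_pos.le
        (av_nonneg fun m _ => mul_nonneg (n₁ _) (n₂ _))) ?_ h₂'.le
      rw [mul_assoc]
      exact mul_le_mul_of_nonneg_left b1 two_pos.le
    refine (sum_le_sum fun y _ => a1 y).trans (le_of_eq ?_)
    rw [← mul_sum, ← av_sum]
    simp only [e₂ _ x fun r => w₂ (x, r) ^ p₂]
    rw [av_const hN, ← mul_assoc 2, Real.mul_rpow (mul_nonneg two_pos.le (nr0 _ _ n₁ x))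
      (nr0 _ _ n₂ x), Real.rpow_inv_rpow (s0 _ _ n₂ x) h₂'.ne']
    field_simp
    rfl
  · have a1 := lp_mul_le h₁ h₂' hpp (f := nr p₁ w₁) (g := nr p₂ w₂)
      (w := fun x => nr p₁ w₁ x * nr p₂ w₂ x) fun x => (norm_mul _ _).le
    rw [nrl _ _ h₁ n₁, nrl _ _ h₂' n₂, mul_mul_mul_comm, ← Real.rpow_add (by positivity), hpp] at a1
    have a2 := lp_le_mul hp0 two_pos.le (f := fun x => nr p₁ w₁ x * nr p₂ w₂ x)
      (g := fun x => 2 * (nr p₁ w₁ x * nr p₂ w₂ x)) fun x => by rw [norm_mul]; simp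
    have a3 := a2.trans (mul_le_mul_of_nonneg_left a1 two_pos.le)
    rw [mul_left_comm, lp_le_iff hp0 _ (by positivity), Real.mul_rpow (by positivity) hB,
      Real.rpow_inv_rpow (by positivity) hp0.ne'] at a3
    rw [← le_div_iff₀' hQ, div_eq_inv_mul]
    refine le_trans (le_of_eq (sum_congr rfl fun x _ => ?_)) a3
    rw [Real.norm_of_nonneg (mul_nonneg two_pos.le (mul_nonneg (nr0 _ _ n₁ x) (nr0 _ _ n₂ x)))]

theorem sum_mod_shift (Q : ℕ) (ψ : ℕ → ℝ) (y : ℕ) :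
    ∑ m ∈ range Q, ψ ((y + m) % Q) = ∑ m ∈ range Q, ψ m := by
  induction y with
  | zero => exact sum_congr rfl fun m hm => by rw [zero_add, Nat.mod_eq_of_lt (mem_range.1 hm)]
  | succ y ih =>
    have h1 := sum_range_succ (fun m => ψ ((y + m) % Q)) Q
    have h2 := sum_range_succ' (fun m => ψ ((y + m) % Q)) Q
    rw [Nat.add_mod_right] at h1
    rw [← ih]
    simp only [add_zero] at h2
    have : ∀ m, y + 1 + m = y + (m + 1) := fun m => by ring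
    simp only [this]
    linarith

theorem sum_mod_mul (Q k : ℕ) (ψ : ℕ → ℝ) (y : ℕ) :
    ∑ m ∈ range (Q * k), ψ ((y + m) % Q) = k * ∑ m ∈ range Q, ψ m := by
  induction k with
  | zero => simp
  | succ k ih =>
    rw [mul_add, mul_one, sum_range_add, ih]
    simp only [← add_assoc]
    rw [sum_mod_shift]; push_cast; ring

theorem val_add_mod {M Q : ℕ} [NeZero M] (h : Q ∣ M) (x a : ZMod M) :
    (x + a).val % Q = (x.val % Q + a.val) % Q := by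
  rw [ZMod.val_add, Nat.mod_mod_of_dvd _ h, Nat.mod_add_mod]

theorem two_rpow_half (h : ℕ) (ε : ℝ) :
    ((2 : ℝ) ^ h) ^ (ε / 2) * ((2 : ℝ) ^ h) ^ (ε / 2) = ((2 : ℝ) ^ h) ^ ε := by
  rw [← Real.rpow_add (by positivity)]; simp

end ND

open ND

theorem nd_small (hD : StLinD) (P₁ P₂ : ℤ[X]) {p₁ p₂ p ε : ℝ} (d₁ : 1 ≤ P₁.natDegree)
    (d₂ : 1 ≤ P₂.natDegree) (h₁ : 1 < p₁) (h₂ : 1 < p₂) (hp : 1 ≤ p) (hpp : p₁⁻¹ + p₂⁻¹ = p⁻¹)
    (hε : 0 < ε) : ∃ c : ℕ, ∀ L L' : ℕ, ∃ C : ℝ, 0 < C ∧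
    ∀ (M : ℕ) [NeZero M] (i₀ i₁ h N₀ H₁ H₂ : ℕ) (N K₁ K₂ : ℕ → ℕ) (f g : ZMod M → ℂ),
      Par c M L i₀ i₁ h N₀ N → Rng M L' i₀ i₁ h N₀ → KF M i₀ i₁ h P₁.natDegree N K₁ →
      KF M i₀ i₁ h P₂.natDegree N K₂ → 1 ≤ H₁ → H₁ ≤ 2 ^ h → 1 ≤ H₂ → H₂ ≤ 2 ^ h →
      ∃ w : ZMod M → ℝ, (∀ x, Wb (fun i =>
          MS P₁ P₂ N₀ i₀ i₁ N (Sg M H₁) (Sg M H₂) K₁ K₂ f g i x) (w x)) ∧
        lp p w ≤ C * ((2 : ℝ) ^ h) ^ ε * lp p₁ f * lp p₂ g := by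
  obtain ⟨c₁, k₁⟩ := hD P₁ p₁ (ε / 2) d₁ h₁ (by linarith)
  obtain ⟨c₂, k₂⟩ := hD P₂ p₂ (ε / 2) d₂ h₂ (by linarith)
  refine ⟨max c₁ c₂, fun L L' => ?_⟩
  obtain ⟨C₁, hC₁, k₁⟩ := k₁ L L'
  obtain ⟨C₂, hC₂, k₂⟩ := k₂ L L'
  refine ⟨2 * (C₁ * C₂), by positivity, ?_⟩
  intro M _ i₀ i₁ h N₀ H₁ H₂ N K₁ K₂ f g hP hR hK₁ hK₂ a1 a2 b1 b2
  have m₁ := fun (τ : ℕ) (hτ : τ < M) => k₁ M i₀ i₁ h N₀ H₁ N K₁ _ f (hP.anti (le_max_left _ _)) hR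
    hK₁ (shf_sh hP P₁ hτ) a1 a2
  have m₂ := fun (τ : ℕ) (hτ : τ < M) => k₂ M i₀ i₁ h N₀ H₂ N K₂ _ g (hP.anti (le_max_right _ _)) hR
    hK₂ (shf_sh hP P₂ hτ) b1 b2
  choose! w₁ u₁ v₁ using m₁
  choose! w₂ u₂ v₂ using m₂
  refine ⟨fun x => av M fun τ => av N₀ fun m => 2 * (w₁ τ (x + pe P₁ m) * w₂ τ (x + pe P₂ m)),
    fun x => wb_av fun τ hτ => wb_av fun m _ => wb_mul (u₁ τ hτ _) (u₂ τ hτ _), ?_⟩
  have := lp_nonneg p₁ f
  have := lp_nonneg p₂ g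
  refine lp_av_le' hp (by positivity) fun τ hτ => lp_av_le' hp (by positivity) fun m _ => ?_
  refine (lp_le_mul (by linarith) two_pos.le
    (f := fun x => w₁ τ (x + pe P₁ m) * w₂ τ (x + pe P₂ m)) fun x => by rw [norm_mul]; simp).trans ?_
  have e := lp_mul_le (by linarith) (by linarith) hpp (f := fun x => w₁ τ (x + pe P₁ m))
    (g := fun x => w₂ τ (x + pe P₂ m)) (w := fun x => w₁ τ (x + pe P₁ m) * w₂ τ (x + pe P₂ m))
    fun x => (norm_mul _ _).le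
  rw [lp_shift, lp_shift] at e
  have e2 := mul_le_mul (v₁ τ hτ) (v₂ τ hτ) (lp_nonneg _ _) (by positivity)
  rw [← two_rpow_half h ε]
  linarith

theorem nd_large (hL : StLinL) (P : ℤ[X]) {p₁ p₂ p ε : ℝ} (d₂ : 1 ≤ P.natDegree) (h₁ : 1 < p₁)
    (h₂ : 1 < p₂) (hp : 1 ≤ p) (hpp : p₁⁻¹ + p₂⁻¹ = p⁻¹) (hε : 0 < ε) :
    ∃ c : ℕ, ∀ L : ℕ, ∃ C : ℝ, 0 < C ∧
    ∀ (M : ℕ) [NeZero M] (M' : ℕ) [NeZero M'] (Q i₀ i₁ h N₀ H₁ H₂ : ℕ) (N K₁ K₂ : ℕ → ℕ)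
      (f g : ZMod M → ℂ) (e : ZMod M' × Fin Q ≃ ZMod M),
      (∀ z, e z = up M Q z.1 + ((z.2 : ℕ) : ZMod M)) → (∀ z, (e z).val % Q = z.2) →
      Par c M L i₀ i₁ h N₀ N → Large M M' Q h N₀ → KF M i₀ i₁ h 1 N K₁ →
      KF M i₀ i₁ h P.natDegree N K₂ → 1 ≤ H₁ → H₁ ≤ 2 ^ h → 1 ≤ H₂ → H₂ ≤ 2 ^ h →
      DB e (1 - p⁻¹) (1 - p₂⁻¹) (ML X P Q N₀ i₀ i₁ N (Sg M H₁) (Sg M H₂) K₁ K₂ f g)
        (C * ((2 : ℝ) ^ h) ^ ε * lp p₁ f * lp p₂ g) := by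
  obtain ⟨c₁, k₁⟩ := hL X p₁ (ε / 2) (by simp) h₁ (by linarith)
  obtain ⟨c₂, k₂⟩ := hL P p₂ (ε / 2) d₂ h₂ (by linarith)
  refine ⟨max c₁ c₂, fun L => ?_⟩
  obtain ⟨C₁, hC₁, k₁⟩ := k₁ L
  obtain ⟨C₂, hC₂, k₂⟩ := k₂ L
  refine ⟨2 * (C₁ * C₂), by positivity, ?_⟩
  intro M _ M' _ Q i₀ i₁ h N₀ H₁ H₂ N K₁ K₂ f g e he hv hP hR hK₁ hK₂ a1 a2 b1 b2
  have := lp_nonneg p₁ f
  have := lp_nonneg p₂ g
  refine DB_av (by positivity) fun τ hτ => DB_av (by positivity) fun ρ hρ => ?_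
  obtain ⟨w₁, u₁, v₁⟩ := k₁ M M' Q i₀ i₁ h N₀ H₁ ρ N K₁ _ f (hP.anti (le_max_left _ _)) hR
    (by simpa using hK₁) (shf_sh hP X hτ) a1 a2 hρ
  obtain ⟨w₂, u₂, v₂⟩ := k₂ M M' Q i₀ i₁ h N₀ H₂ ρ N K₂ _ g (hP.anti (le_max_right _ _)) hR
    hK₂ (shf_sh hP P hτ) b1 b2 hρ
  have hQ : 0 < Q := by omega
  have hQM : Q ∣ M := ⟨M', hR.eq⟩
  have : Nonempty (Fin Q) := ⟨⟨0, hQ⟩⟩
  let σ : ℤ[X] → ℕ → ZMod M' × Fin Q → Fin Q := fun R m z =>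
    ⟨(e z + pe R m).val % Q, Nat.mod_lt _ hQ⟩
  have ext : ∀ ψ : Fin Q → ℝ, ∃ ψ' : ℕ → ℝ, ∀ y : Fin Q, ψ y = ψ' y := fun ψ =>
    ⟨fun n => if hn : n < Q then ψ ⟨n, hn⟩ else 0, fun y => by simp⟩
  have key := DB_bil e hp (by linarith) h₂.le hpp (w₁ := w₁) (w₂ := w₂)
    (a := fun i x => AA X P N₀ (Ad (Sg M H₁) (fm i₀ i₁ K₁ (sh X N τ) i) f (bp Q ρ x))
      (Ad (Sg M H₂) (fm i₀ i₁ K₂ (sh P N τ) i) g (bp Q ρ x)) x)
    (fun z => Mart.wb_nonneg (u₁ z (e z) (hv z))) (fun z => Mart.wb_nonneg (u₂ z (e z) (hv z)))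
    hP.N₀_pos (σ X) (σ P) (fun z ψ => ?_) (fun m x ψ => ?_) (fun z => ?_)
  · refine DB_mono key ?_
    have e2 := mul_le_mul v₁ v₂ (lp_nonneg _ _) (by positivity)
    rw [← two_rpow_half h ε]
    linarith
  · obtain ⟨ψ', hψ⟩ := ext ψ
    obtain ⟨k, hk⟩ := hR.dvd
    have e1 : ∀ m : ℕ, ψ (σ X m z) = ψ' (((z.2 : ℕ) + m) % Q) := fun m => by
      rw [hψ]
      simp only [σ, val_add_mod hQM, hv, pe, eval_X, Int.cast_natCast, ZMod.val_natCast]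
      rw [Nat.add_mod, Nat.mod_mod_of_dvd _ hQM, ← Nat.add_mod]
    have hk0 : (k : ℝ) ≠ 0 := by
      have := hP.N₀_pos
      rintro h0
      have : k = 0 := by exact_mod_cast h0
      simp_all
    simp only [e1, hψ, av, smul_eq_mul, Fintype.card_fin]
    rw [hk, sum_mod_mul, Fin.sum_univ_eq_sum_range ψ']
    push_cast
    field_simp
  · obtain ⟨ψ', hψ⟩ := ext ψ
    have e1 : ∀ y : Fin Q, ψ (σ P m (x, y)) = ψ' (((pe P m : ZMod M).val + (y : ℕ)) % Q) := fun y => by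
      rw [hψ]
      simp only [σ, val_add_mod hQM, hv]
      rw [add_comm]
    simp only [e1, hψ]
    rw [Fin.sum_univ_eq_sum_range fun y => ψ' (((pe P m : ZMod M).val + y) % Q), sum_mod_shift,
      Fin.sum_univ_eq_sum_range ψ']
  · have e1 : bp Q ρ (e z) = up M Q z.1 + (ρ : ZMod M) := by
      rw [bp, hv, he]; ring
    simp only [e1]
    exact wb_av fun m _ => wb_mul (u₁ (z.1, σ X m z) _ rfl) (u₂ (z.1, σ P m z) _ rfl)

end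

end Pool.Agent.Lib.MP_10e396_an
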