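import Pool.Agent.Lib.MP_10e396_an.Fej
import Pool.Agent.Lib.MP_10e396_an.Interp

/-! Parameters, model operators and the interfaces of the major arc analysis. -/

set_option autoImplicit false

namespace Pool.Agent.Lib.MP_10e396_an

open Finset Polynomial

noncomputable section

section defs

variable {M : ℕ} [NeZero M]

/-- shifted Fejer kernels, zero outside a range of indices -/
def fm (i₀ i₁ : ℕ) (K : ℕ → ℕ) (s : ℕ → ZMod M) (i : ℕ) : ZMod M → ℂ :=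
  cx fun t => if i ∈ Ico i₀ i₁ then fej (K i) (t + s i) else 0

/-- the shift at relative position `τ / M` -/
def sh (P : ℤ[X]) (N : ℕ → ℕ) (τ i : ℕ) : ZMod M := pe P (τ * N i / M)

/-- base point of the window of `x` -/
def bp (Q ρ : ℕ) (x : ZMod M) : ZMod M := x - ((x.val % Q : ℕ) : ZMod M) + (ρ : ZMod M)

/-- the actual averages of the major arc pieces -/
def AC (P₁ P₂ : ℤ[X]) (i₀ i₁ : ℕ) (N : ℕ → ℕ) (A₁ A₂ : Finset (ZMod M)) (K₁ K₂ : ℕ → ℕ)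
    (f g : ZMod M → ℂ) (i : ℕ) (x : ZMod M) : ℂ :=
  AA P₁ P₂ (N i) (TT A₁ (fm i₀ i₁ K₁ 0 i) f) (TT A₂ (fm i₀ i₁ K₂ 0 i) g) x

/-- the diagonal model -/
def MS (P₁ P₂ : ℤ[X]) (N₀ i₀ i₁ : ℕ) (N : ℕ → ℕ) (A₁ A₂ : Finset (ZMod M)) (K₁ K₂ : ℕ → ℕ)
    (f g : ZMod M → ℂ) (i : ℕ) (x : ZMod M) : ℂ :=
  av M fun τ => AA P₁ P₂ N₀ (TT A₁ (fm i₀ i₁ K₁ (sh P₁ N τ) i) f)
    (TT A₂ (fm i₀ i₁ K₂ (sh P₂ N τ) i) g) x

/-- the window model -/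
def ML (P₁ P₂ : ℤ[X]) (Q N₀ i₀ i₁ : ℕ) (N : ℕ → ℕ) (A₁ A₂ : Finset (ZMod M)) (K₁ K₂ : ℕ → ℕ)
    (f g : ZMod M → ℂ) (i : ℕ) (x : ZMod M) : ℂ :=
  av M fun τ => av Q fun ρ => AA P₁ P₂ N₀ (Ad A₁ (fm i₀ i₁ K₁ (sh P₁ N τ) i) f (bp Q ρ x))
    (Ad A₂ (fm i₀ i₁ K₂ (sh P₂ N τ) i) g (bp Q ρ x)) x

/-- admissible shifts -/
def Shf (P : ℤ[X]) (i₀ i₁ : ℕ) (N : ℕ → ℕ) (s : ℕ → ZMod M) : Prop :=
  ∀ i ∈ Ico i₀ i₁, s i = 0 ∨ ∃ n < N i, s i = pe P n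

/-- the large scale setting -/
structure Large (M : ℕ) [NeZero M] (M' Q h N₀ : ℕ) : Prop where
  eq : M = Q * M'
  per : ∀ θ ∈ Sg M (2 ^ h), (Q : ZMod M) * θ = 0
  dvd : Q ∣ N₀

end defs

structure Par (c M L i₀ i₁ h N₀ : ℕ) (N : ℕ → ℕ) : Prop where
  one : 1 ≤ L
  hpos : 1 ≤ h
  ne : i₀ < i₁
  mono : Monotone N
  lac : ∀ i, 2 * N i ≤ N (i + L)
  big : ∀ i ∈ Ico i₀ i₁, 2 ^ (c * h) * N₀ ≤ N i
  low : 2 ^ (c * h) ≤ N₀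
  dv : ∃ b, c ≤ b ∧ (∀ i ∈ Ico i₀ i₁, N i ≤ 2 ^ b) ∧ Dv M (2 ^ (b * c))

/-- admissible band widths -/
def KF (M i₀ i₁ h e : ℕ) (N K : ℕ → ℕ) : Prop :=
  ∃ a b, 1 ≤ a ∧ a ≤ 2 ^ h ∧ 1 ≤ b ∧ b ≤ 2 ^ h ∧ ∀ i ∈ Ico i₀ i₁, K i * (b * N i ^ e) = a * M

/-- small or large scales -/
def Rng (M : ℕ) [NeZero M] (L' i₀ i₁ h N₀ : ℕ) : Prop :=
  i₁ ≤ i₀ + L' * 4 ^ h ∨ ∃ M' Q, Large M M' Q h N₀

/-- the single scale estimate in the first slot -/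
def SSP (P₁ P₂ : ℤ[X]) : Prop :=
  ∃ (c : ℝ) (C₀ D : ℕ) (C : ℝ), 0 < c ∧ 0 < C ∧
    ∀ (M : ℕ) [NeZero M] (H N : ℕ) (f g : ZMod M → ℂ), 1 ≤ H → H ^ C₀ ≤ N → Dv M (2 * N ^ D) →
      Minor H (H * (M / N ^ P₁.natDegree)) f →
      lp 1 (AA P₁ P₂ N f g) ≤ C * (H : ℝ) ^ (-c) * lp 2 f * lp 2 g

theorem Dv.mono {M T T' : ℕ} (h : Dv M T) (hT : T' ≤ T) : Dv M T' :=
  fun k a b => h k a (b.trans hT)

theorem Par.anti {c c' M L i₀ i₁ h N₀ : ℕ} {N : ℕ → ℕ} (H : Par c M L i₀ i₁ h N₀ N) (hc : c' ≤ c) :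
    Par c' M L i₀ i₁ h N₀ N := by
  have e : 2 ^ (c' * h) ≤ 2 ^ (c * h) := Nat.pow_le_pow_right two_pos (Nat.mul_le_mul_right _ hc)
  obtain ⟨b, b1, b2, b3⟩ := H.dv
  exact ⟨H.one, H.hpos, H.ne, H.mono, H.lac,
    fun i hi => (Nat.mul_le_mul_right _ e).trans (H.big i hi), e.trans H.low,
    b, hc.trans b1, b2, b3.mono (Nat.pow_le_pow_right two_pos (Nat.mul_le_mul_left _ hc))⟩

theorem slot (P : ℤ[X]) (hP : 1 ≤ P.natDegree) : ∃ cP : ℕ,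
    (∀ n N : ℕ, n < N → (P.eval (n : ℤ)).natAbs ≤ 2 ^ cP * N ^ P.natDegree) ∧
    ∀ n m N N₀ : ℕ, n < N → m < N₀ → N₀ ≤ N →
      (P.eval ((n + m : ℕ) : ℤ) - P.eval (n : ℤ)).natAbs ≤ 2 ^ cP * N ^ (P.natDegree - 1) * N₀ := by
  set d := P.natDegree
  set A := ∑ j ∈ range (d + 1), (P.coeff j).natAbs with hA
  refine ⟨A + d + d, fun n N hn => ?_, fun n m N N₀ hn hm h0 => ?_⟩
  · rw [eval_eq_sum_range]
    refine (Int.natAbs_sum_le _ _).trans ?_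
    calc _ ≤ ∑ j ∈ range (d + 1), (P.coeff j).natAbs * N ^ d := sum_le_sum fun j hj => by
          rw [Int.natAbs_mul, Int.natAbs_pow, Int.natAbs_natCast]
          refine Nat.mul_le_mul_left _ ((Nat.pow_le_pow_left hn.le _).trans ?_)
          exact Nat.pow_le_pow_right (by omega) (by have := mem_range.1 hj; omega)
      _ = A * N ^ d := by rw [← sum_mul]
      _ ≤ _ := Nat.mul_le_mul_right _ (Nat.lt_two_pow_self.le.trans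
          (Nat.pow_le_pow_right two_pos (by omega)))
  · rw [eval_eq_sum_range, eval_eq_sum_range, ← sum_sub_distrib]
    refine (Int.natAbs_sum_le _ _).trans ?_
    have key : ∀ j, j ≤ d → (((n + m : ℕ) : ℤ) ^ j - (n : ℤ) ^ j).natAbs ≤
        d * (2 * N) ^ (d - 1) * N₀ := by
      intro j hj
      have h1 : ∀ k : ℕ, (n + m) ^ k ≤ n ^ k + k * (2 * N) ^ (k - 1) * m := by
        intro k
        induction k with
        | zero => simp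
        | succ k ih =>
          have a1 : n ^ k ≤ (2 * N) ^ k := Nat.pow_le_pow_left (by omega) _
          have a2 : k * (2 * N) ^ (k - 1) * (n + m) ≤ k * (2 * N) ^ k := by
            rcases k with _ | k
            · simp
            · rw [Nat.add_sub_cancel, mul_assoc, pow_succ]
              exact Nat.mul_le_mul_left _ (Nat.mul_le_mul_left _ (by omega))
          rw [pow_succ, pow_succ, Nat.add_sub_cancel]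
          calc (n + m) ^ k * (n + m) ≤ (n ^ k + k * (2 * N) ^ (k - 1) * m) * (n + m) :=
                Nat.mul_le_mul_right _ ih
            _ = n ^ k * n + n ^ k * m + k * (2 * N) ^ (k - 1) * (n + m) * m := by ring
            _ ≤ n ^ k * n + (2 * N) ^ k * m + k * (2 * N) ^ k * m := by gcongr
            _ = _ := by ring
      have h2 : n ^ j ≤ (n + m) ^ j := Nat.pow_le_pow_left (by omega) _
      have h3 : j * (2 * N) ^ (j - 1) * m ≤ d * (2 * N) ^ (d - 1) * N₀ :=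
        Nat.mul_le_mul (Nat.mul_le_mul hj (Nat.pow_le_pow_right (by omega) (by omega))) hm.le
      have h4 := h1 j
      rw [← Nat.cast_pow, ← Nat.cast_pow]
      omega
    calc _ ≤ ∑ j ∈ range (d + 1), (P.coeff j).natAbs * (d * (2 * N) ^ (d - 1) * N₀) :=
          sum_le_sum fun j hj => by
            rw [← mul_sub, Int.natAbs_mul]
            exact Nat.mul_le_mul_left _ (key j (by have := mem_range.1 hj; omega))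
      _ = (A * d * 2 ^ (d - 1)) * N ^ (d - 1) * N₀ := by rw [← sum_mul, mul_pow]; ring
      _ ≤ _ := by
          refine Nat.mul_le_mul_right _ (Nat.mul_le_mul_right _ ?_)
          rw [pow_add, pow_add]
          exact Nat.mul_le_mul (Nat.mul_le_mul Nat.lt_two_pow_self.le Nat.lt_two_pow_self.le)
            (Nat.pow_le_pow_right two_pos (by omega))

theorem av_tau {E : Type} [AddCommGroup E] [Module ℝ E] {M N : ℕ} (hM : 0 < M) (h : N ∣ M)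
    (φ : ℕ → E) : av M (fun τ => φ (τ * N / M)) = av N φ := by
  obtain ⟨k, rfl⟩ := h
  have hN : 0 < N := Nat.pos_of_mul_pos_right hM |> fun h => h
  have hk : 0 < k := Nat.pos_of_mul_pos_left hM |> fun h => h
  have e : ∀ τ, τ * N / (N * k) = τ / k := fun τ => by
    rw [mul_comm τ, Nat.mul_div_mul_left _ _ hN]
  have s : ∀ n : ℕ, ∑ τ ∈ range (n * k), φ (τ / k) = k • ∑ j ∈ range n, φ j := by
    intro n
    induction n with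
    | zero => simp
    | succ n ih =>
      rw [add_mul, one_mul, sum_range_add, ih, sum_range_succ, smul_add]
      congr 1
      rw [sum_congr rfl (g := fun _ => φ n), sum_const, card_range]
      intro x hx
      rw [add_comm, Nat.add_mul_div_right _ _ hk, Nat.div_eq_of_lt (mem_range.1 hx), zero_add]
  simp only [av, e, s]
  rw [← Nat.cast_smul_eq_nsmul ℝ, smul_smul]
  congr 1
  have : (k : ℝ) ≠ 0 := by positivity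
  push_cast
  field_simp

section par

variable {c M L i₀ i₁ h N₀ e : ℕ} {N K : ℕ → ℕ}

theorem Par.N₀_pos (H : Par c M L i₀ i₁ h N₀ N) : 1 ≤ N₀ := Nat.one_le_two_pow.trans H.low

theorem Par.N₀_le (H : Par c M L i₀ i₁ h N₀ N) {i : ℕ} (hi : i ∈ Ico i₀ i₁) : N₀ ≤ N i :=
  (Nat.le_mul_of_pos_left _ (by positivity)).trans (H.big i hi)

theorem Par.N_pos (H : Par c M L i₀ i₁ h N₀ N) {i : ℕ} (hi : i ∈ Ico i₀ i₁) : 1 ≤ N i :=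
  H.N₀_pos.trans (H.N₀_le hi)

theorem Par.mem₀ (H : Par c M L i₀ i₁ h N₀ N) : i₀ ∈ Ico i₀ i₁ := mem_Ico.2 ⟨le_rfl, H.ne⟩

/-- monomials in the parameters divide `M` -/
theorem Par.dv_pow (H : Par c M L i₀ i₁ h N₀ N) {i D : ℕ} (hi : i ∈ Ico i₀ i₁) (hD : D + 2 ≤ c) :
    Dv M (2 * (2 ^ h * N i ^ D)) := by
  obtain ⟨b, b1, b2, b3⟩ := H.dv
  refine b3.mono ?_
  have a1 : 2 ^ h ≤ 2 ^ b := by
    refine le_trans ?_ ((H.low.trans (H.N₀_le hi)).trans (b2 i hi))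
    exact Nat.pow_le_pow_right two_pos (Nat.le_mul_of_pos_left _ (by omega))
  have a2 : N i ^ D ≤ (2 ^ b) ^ D := Nat.pow_le_pow_left (b2 i hi) _
  have a3 : 2 ≤ 2 ^ b := by
    calc 2 = 2 ^ 1 := rfl
      _ ≤ _ := Nat.pow_le_pow_right two_pos (by omega)
  calc _ ≤ 2 ^ b * (2 ^ b * (2 ^ b) ^ D) := by gcongr
    _ = 2 ^ (b * (D + 2)) := by ring
    _ ≤ _ := Nat.pow_le_pow_right two_pos (Nat.mul_le_mul_left _ hD)

variable [NeZero M]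

theorem KF.pos (hK : KF M i₀ i₁ h e N K) {i : ℕ} (hi : i ∈ Ico i₀ i₁) : 1 ≤ K i := by
  obtain ⟨a, b, a1, _, _, _, H⟩ := hK
  have := H i hi
  have hM := NeZero.pos M
  rcases Nat.eq_zero_or_pos (K i) with h0 | h0
  · rw [h0, zero_mul] at this
    have := Nat.mul_pos a1 hM
    omega
  · exact h0

omit [NeZero M] in
theorem KF.le (hK : KF M i₀ i₁ h e N K) {i : ℕ} (hi : i ∈ Ico i₀ i₁) :
    K i * N i ^ e ≤ 2 ^ h * M := by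
  obtain ⟨a, b, _, a2, b1, _, H⟩ := hK
  calc _ ≤ K i * (b * N i ^ e) := Nat.mul_le_mul_left _ (Nat.le_mul_of_pos_left _ b1)
    _ = _ := H i hi
    _ ≤ _ := Nat.mul_le_mul_right _ a2

omit [NeZero M] in
theorem KF.ge (hK : KF M i₀ i₁ h e N K) {i : ℕ} (hi : i ∈ Ico i₀ i₁) :
    M ≤ K i * (2 ^ h * N i ^ e) := by
  obtain ⟨a, b, a1, _, _, b2, H⟩ := hK
  calc M ≤ a * M := Nat.le_mul_of_pos_left _ a1
    _ = _ := (H i hi).symm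
    _ ≤ _ := by gcongr

omit [NeZero M] in
theorem KF.anti (H : Par c M L i₀ i₁ h N₀ N) (hK : KF M i₀ i₁ h e N K) (i j : ℕ) (h0 : i₀ ≤ i)
    (hij : i ≤ j) (h1 : j < i₁) : K j ≤ K i := by
  obtain ⟨a, b, _, _, b1, _, E⟩ := hK
  have hi : i ∈ Ico i₀ i₁ := mem_Ico.2 ⟨h0, by omega⟩
  have hj : j ∈ Ico i₀ i₁ := mem_Ico.2 ⟨by omega, h1⟩
  have p := H.N_pos hi
  refine Nat.le_of_mul_le_mul_right ?_ (show 0 < b * N i ^ e by positivity)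
  rw [E i hi, ← E j hj]
  have := H.mono hij
  gcongr

omit [NeZero M] in
theorem KF.lac (H : Par c M L i₀ i₁ h N₀ N) (he : 1 ≤ e) (hK : KF M i₀ i₁ h e N K) (i : ℕ)
    (h0 : i₀ ≤ i) (h1 : i + L < i₁) : 2 * K (i + L) ≤ K i := by
  obtain ⟨a, b, _, _, b1, _, E⟩ := hK
  have hi : i ∈ Ico i₀ i₁ := mem_Ico.2 ⟨h0, by omega⟩
  have hj : i + L ∈ Ico i₀ i₁ := mem_Ico.2 ⟨by omega, h1⟩
  have p := H.N_pos hi
  refine Nat.le_of_mul_le_mul_right ?_ (show 0 < b * N i ^ e by positivity)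
  rw [E i hi, ← E _ hj]
  have a1 : 2 * N i ^ e ≤ N (i + L) ^ e := by
    calc 2 * N i ^ e ≤ 2 ^ e * N i ^ e := by
          gcongr
          calc 2 = 2 ^ 1 := rfl
            _ ≤ _ := Nat.pow_le_pow_right two_pos he
      _ = (2 * N i) ^ e := (mul_pow _ _ _).symm
      _ ≤ _ := Nat.pow_le_pow_left (H.lac i) _
  calc 2 * K (i + L) * (b * N i ^ e) = K (i + L) * (b * (2 * N i ^ e)) := by ring
    _ ≤ _ := by gcongr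

omit [NeZero M] in
/-- the bands are narrow -/
theorem KF.small (H : Par c M L i₀ i₁ h N₀ N) (he : 1 ≤ e) (hK : KF M i₀ i₁ h e N K) {i : ℕ}
    (hi : i ∈ Ico i₀ i₁) {k : ℕ} (hk : k + 1 ≤ c) : K i * (2 ^ (k * h) * N₀) ≤ M := by
  have a1 := hK.le hi
  have a2 : N i ≤ N i ^ e := Nat.le_self_pow (by omega) _
  have a3 : 2 ^ h * (2 ^ (k * h) * N₀) ≤ N i := by
    refine le_trans ?_ (H.big i hi)
    rw [← mul_assoc, ← pow_add]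
    refine Nat.mul_le_mul_right _ (Nat.pow_le_pow_right two_pos ?_)
    calc h + k * h = (k + 1) * h := by ring
      _ ≤ _ := Nat.mul_le_mul_right _ hk
  refine Nat.le_of_mul_le_mul_left ?_ (show 0 < 2 ^ h by positivity)
  calc 2 ^ h * (K i * (2 ^ (k * h) * N₀)) = K i * (2 ^ h * (2 ^ (k * h) * N₀)) := by ring
    _ ≤ K i * N i ^ e := Nat.mul_le_mul_left _ (a3.trans a2)
    _ ≤ _ := a1

theorem band_fm (H : Par c M L i₀ i₁ h N₀ N) (hc : 2 ≤ c) (he : 1 ≤ e) (hK : KF M i₀ i₁ h e N K)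
    (s : ℕ → ZMod M) (i : ℕ) : Band (K i₀) (fm i₀ i₁ K s i) := by
  unfold fm
  by_cases hi : i ∈ Ico i₀ i₁
  · simp only [if_pos hi]
    have a1 := hK.small H he hi (k := 1) hc
    have a2 : 2 ≤ 2 ^ (1 * h) * N₀ := by
      have := H.N₀_pos
      have : 2 ^ 1 ≤ 2 ^ (1 * h) := Nat.pow_le_pow_right two_pos (by have := H.hpos; omega)
      nlinarith
    refine ((band_fej (hK.pos hi) (by nlinarith)).shift (s i)).mono ?_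
    exact hK.anti H i₀ i le_rfl (mem_Ico.1 hi).1 (mem_Ico.1 hi).2
  · intro ξ hξ
    simp only [if_neg hi] at hξ
    simp [ft, cx] at hξ

theorem ker_par (H : Par c M L i₀ i₁ h N₀ N) (he : 1 ≤ e) (hK : KF M i₀ i₁ h e N K) {M' Q cP : ℕ}
    [NeZero M'] (hM : M = Q * M') (hQ : Q ≤ N₀) (h1 : cP + 4 ≤ c) (h2 : e + 4 ≤ c)
    {s : ℕ → ZMod M} (hs : ∀ i ∈ Ico i₀ i₁, ab (s i) ≤ 2 ^ (cP + 1) * N i ^ e) :
    ∃ τ, Ker L (h + cP + 3) i₀ i₁ τ (fun i => (M' : ℝ) / K i)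
      (fun i t => if i ∈ Ico i₀ i₁ then kf M' Q (K i) (s i) t else 0) := by
  obtain ⟨b, b1, b2, b3⟩ := H.dv
  have hQ0 : 0 < Q := by
    have := NeZero.pos M
    rw [hM] at this
    exact Nat.pos_of_mul_pos_right this |> fun h => h
  have hb : h ≤ b := by
    have := (H.low.trans (H.N₀_le H.mem₀)).trans (b2 _ H.mem₀)
    have := (Nat.pow_le_pow_iff_right one_lt_two).1 this
    nlinarith
  refine ⟨b * (e + 3), ker_kf (γ := h + cP + 1) hM H.one (fun i hi => hK.pos hi) (fun i hi => ?_)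
    (hK.anti H) (hK.lac H he) (fun i hi => ?_) ?_ (fun i hi => ?_)⟩
  · have a1 := hK.small H he hi (k := 0) (by omega)
    rw [zero_mul, pow_zero, one_mul, hM, mul_comm] at a1
    exact Nat.le_of_mul_le_mul_left ((Nat.mul_le_mul_right _ hQ).trans a1) hQ0
  · calc _ ≤ 2 ^ (cP + 1) * N i ^ e * K i := Nat.mul_le_mul_right _ (hs i hi)
      _ = 2 ^ (cP + 1) * (K i * N i ^ e) := by ring
      _ ≤ 2 ^ (cP + 1) * (2 ^ h * M) := Nat.mul_le_mul_left _ (hK.le hi)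
      _ = _ := by ring
  · have : Q * 2 ^ (b * (e + 3)) ∣ M := by
      refine b3 _ (Nat.mul_pos hQ0 (by positivity)) ?_
      calc _ ≤ 2 ^ b * 2 ^ (b * (e + 3)) :=
            Nat.mul_le_mul_right _ (hQ.trans ((H.N₀_le H.mem₀).trans (b2 _ H.mem₀)))
        _ = 2 ^ (b * (e + 4)) := by ring
        _ ≤ _ := Nat.pow_le_pow_right two_pos (Nat.mul_le_mul_left _ h2)
    rw [hM] at this
    exact Nat.dvd_of_mul_dvd_mul_left hQ0 this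
  · have a1 : M' ≤ M := by rw [hM]; exact Nat.le_mul_of_pos_left _ hQ0
    have a2 : N i ^ e ≤ (2 ^ b) ^ e := Nat.pow_le_pow_left (b2 i hi) _
    calc _ ≤ 2 ^ (h + cP + 1 + 2) * (K i * (2 ^ h * (2 ^ b) ^ e)) := by
          gcongr
          exact a1.trans ((hK.ge hi).trans (by gcongr))
      _ = 2 ^ (h + h + (cP + 3) + b * e) * K i := by ring
      _ ≤ _ := Nat.mul_le_mul_right _ (Nat.pow_le_pow_right two_pos (by nlinarith))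

theorem ker_fm (H : Par c M L i₀ i₁ h N₀ N) (he : 1 ≤ e) (hK : KF M i₀ i₁ h e N K) {cP : ℕ}
    (h1 : cP + 4 ≤ c) (h2 : e + 4 ≤ c) {s : ℕ → ZMod M}
    (hs : ∀ i ∈ Ico i₀ i₁, ab (s i) ≤ 2 ^ (cP + 1) * N i ^ e) :
    ∃ τ r k, Ker L (h + cP + 3) i₀ i₁ τ r k ∧ ∀ i, fm i₀ i₁ K s i = cx (k i) := by
  obtain ⟨τ, hτ⟩ := ker_par H he hK (M' := M) (Q := 1) (one_mul M).symm H.N₀_pos h1 h2 hs
  exact ⟨τ, _, _, hτ, fun i => by simp [fm, kf, up_self]⟩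

theorem Shf.ab_le {P : ℤ[X]} {cP : ℕ}
    (hP : ∀ n N : ℕ, n < N → (P.eval (n : ℤ)).natAbs ≤ 2 ^ cP * N ^ P.natDegree)
    {s : ℕ → ZMod M} (hs : Shf P i₀ i₁ N s) {i : ℕ} (hi : i ∈ Ico i₀ i₁) :
    ab (s i) ≤ 2 ^ cP * N i ^ P.natDegree := by
  rcases hs i hi with h0 | ⟨n, hn, h0⟩
  · rw [h0, ab_zero]; positivity
  · rw [h0]; exact (ab_intCast_le _).trans (hP n _ hn)

theorem shf_sh (H : Par c M L i₀ i₁ h N₀ N) (P : ℤ[X]) {τ : ℕ} (hτ : τ < M) :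
    Shf (M := M) P i₀ i₁ N (sh P N τ) := fun i hi => Or.inr ⟨_, by
  rw [Nat.div_lt_iff_lt_mul (NeZero.pos M), mul_comm]
  exact Nat.mul_lt_mul_of_pos_left hτ (H.N_pos hi), rfl⟩

theorem exists_win {M' Q : ℕ} [NeZero M'] (hM : M = Q * M') :
    ∃ e : ZMod M' × Fin Q ≃ ZMod M, (∀ z, e z = up M Q z.1 + ((z.2 : ℕ) : ZMod M)) ∧
      ∀ z, (e z).val % Q = z.2 := by
  have hv : ∀ z : ZMod M' × Fin Q, (up M Q z.1 + ((z.2 : ℕ) : ZMod M)).val = Q * z.1.val + z.2 := by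
    intro z
    rw [up, ← Nat.cast_add, ZMod.val_cast_of_lt]
    have := ZMod.val_lt z.1
    have := z.2.2
    rw [hM]; nlinarith
  have hm : ∀ z : ZMod M' × Fin Q, (Q * z.1.val + z.2) % Q = z.2 := fun z => by
    rw [Nat.mul_add_mod, Nat.mod_eq_of_lt z.2.2]
  refine ⟨Equiv.ofBijective (fun z => up M Q z.1 + ((z.2 : ℕ) : ZMod M)) ?_, fun _ => rfl,
    fun z => by rw [Equiv.ofBijective_apply, hv, hm]⟩
  rw [Fintype.bijective_iff_injective_and_card]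
  refine ⟨fun z w h => ?_, by simp [hM, mul_comm]⟩
  have a := congrArg ZMod.val h
  simp only [hv] at a
  have b : (z.2 : ℕ) = w.2 := by rw [← hm z, ← hm w, a]
  have hQ : 0 < Q := lt_of_le_of_lt (Nat.zero_le _) z.2.2
  refine Prod.ext (ZMod.val_injective _ ?_) (Fin.ext b)
  exact Nat.eq_of_mul_eq_mul_left hQ (by omega)

end par

/-- error of the diagonal model -/
def StErrS : Prop :=
  ∀ (P₁ P₂ : ℤ[X]), 1 ≤ P₁.natDegree → 1 ≤ P₂.natDegree → ∃ c : ℕ, ∀ L L' : ℕ, ∃ C : ℝ, 0 < C ∧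
    ∀ (p₁ p₂ p : ℝ) (M : ℕ) [NeZero M] (i₀ i₁ h N₀ : ℕ) (N K₁ K₂ : ℕ → ℕ)
      (A₁ A₂ : Finset (ZMod M)) (f g : ZMod M → ℂ), 0 < p₁ → 0 < p₂ → 1 ≤ p →
      p₁⁻¹ + p₂⁻¹ = p⁻¹ → Par c M L i₀ i₁ h N₀ N → Rng M L' i₀ i₁ h N₀ →
      KF M i₀ i₁ h P₁.natDegree N K₁ → KF M i₀ i₁ h P₂.natDegree N K₂ →
      A₁ ⊆ Sg M (2 ^ h) → A₂ ⊆ Sg M (2 ^ h) →
      ∑ i ∈ Ico i₀ i₁, lp p (fun x => AC P₁ P₂ i₀ i₁ N A₁ A₂ K₁ K₂ f g i x -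
        MS P₁ P₂ N₀ i₀ i₁ N A₁ A₂ K₁ K₂ f g i x) ≤ C * (2 ^ h)⁻¹ * lp p₁ f * lp p₂ g

/-- error of the window model -/
def StErrL : Prop :=
  ∀ (P₁ P₂ : ℤ[X]), 1 ≤ P₁.natDegree → 1 ≤ P₂.natDegree → ∃ c : ℕ, ∀ L : ℕ, ∃ C : ℝ, 0 < C ∧
    ∀ (p₁ p₂ p : ℝ) (M : ℕ) [NeZero M] (M' Q i₀ i₁ h N₀ : ℕ) (N K₁ K₂ : ℕ → ℕ)
      (A₁ A₂ : Finset (ZMod M)) (f g : ZMod M → ℂ), 0 < p₁ → 0 < p₂ → 1 ≤ p →
      p₁⁻¹ + p₂⁻¹ = p⁻¹ → Par c M L i₀ i₁ h N₀ N → Large M M' Q h N₀ →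
      KF M i₀ i₁ h P₁.natDegree N K₁ → KF M i₀ i₁ h P₂.natDegree N K₂ →
      A₁ ⊆ Sg M (2 ^ h) → A₂ ⊆ Sg M (2 ^ h) →
      ∑ i ∈ Ico i₀ i₁, lp p (fun x => AC P₁ P₂ i₀ i₁ N A₁ A₂ K₁ K₂ f g i x -
        ML P₁ P₂ Q N₀ i₀ i₁ N A₁ A₂ K₁ K₂ f g i x) ≤ C * (2 ^ h)⁻¹ * lp p₁ f * lp p₂ g

/-- multi-frequency weak variation bound, diagonal form -/
def StLinD : Prop :=
  ∀ (P : ℤ[X]) (p ε : ℝ), 1 ≤ P.natDegree → 1 < p → 0 < ε → ∃ c : ℕ, ∀ L L' : ℕ, ∃ C : ℝ, 0 < C ∧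
    ∀ (M : ℕ) [NeZero M] (i₀ i₁ h N₀ H : ℕ) (N K : ℕ → ℕ) (s : ℕ → ZMod M) (f : ZMod M → ℂ),
      Par c M L i₀ i₁ h N₀ N → Rng M L' i₀ i₁ h N₀ → KF M i₀ i₁ h P.natDegree N K →
      Shf P i₀ i₁ N s → 1 ≤ H → H ≤ 2 ^ h →
      ∃ w : ZMod M → ℝ, (∀ x, Wb (fun i => TT (Sg M H) (fm i₀ i₁ K s i) f x) (w x)) ∧
        lp p w ≤ C * ((2 : ℝ) ^ h) ^ ε * lp p f

/-- multi-frequency weak variation bound, window form -/
def StLinL : Prop :=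
  ∀ (P : ℤ[X]) (p ε : ℝ), 1 ≤ P.natDegree → 1 < p → 0 < ε → ∃ c : ℕ, ∀ L : ℕ, ∃ C : ℝ, 0 < C ∧
    ∀ (M : ℕ) [NeZero M] (M' : ℕ) [NeZero M'] (Q i₀ i₁ h N₀ H ρ : ℕ) (N K : ℕ → ℕ)
      (s : ℕ → ZMod M) (f : ZMod M → ℂ),
      Par c M L i₀ i₁ h N₀ N → Large M M' Q h N₀ → KF M i₀ i₁ h P.natDegree N K →
      Shf P i₀ i₁ N s → 1 ≤ H → H ≤ 2 ^ h → ρ < Q →
      ∃ w : ZMod M' × Fin Q → ℝ, (∀ (z : ZMod M' × Fin Q) (y : ZMod M), y.val % Q = z.2 →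
          Wb (fun i => Ad (Sg M H) (fm i₀ i₁ K s i) f (up M Q z.1 + (ρ : ZMod M)) y) (w z)) ∧
        lp p w ≤ C * ((2 : ℝ) ^ h) ^ ε * lp p f

/-- new denominators, small scales -/
def StT1S : Prop :=
  ∀ (P₁ P₂ : ℤ[X]), 1 ≤ P₁.natDegree → 1 ≤ P₂.natDegree → SSP P₁ P₂ →
    ∃ (c : ℕ) (δ : ℝ), 0 < δ ∧ ∀ L L' : ℕ, ∃ C : ℝ, 0 < C ∧
    ∀ (M : ℕ) [NeZero M] (i₀ i₁ h N₀ : ℕ) (N K₁ K₂ : ℕ → ℕ) (A₂ : Finset (ZMod M))
      (f g : ZMod M → ℂ), Par c M L i₀ i₁ h N₀ N → i₁ ≤ i₀ + L' * 4 ^ h →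
      KF M i₀ i₁ h P₁.natDegree N K₁ → KF M i₀ i₁ h P₂.natDegree N K₂ → A₂ ⊆ Sg M (2 ^ h) →
      ∃ w : ZMod M → ℝ, (∀ x, Wb (fun i =>
          MS P₁ P₂ N₀ i₀ i₁ N (Sg M (2 ^ h) \ Sg M (2 ^ (h - 1))) A₂ K₁ K₂ f g i x) (w x)) ∧
        lp 1 w ≤ C * ((2 : ℝ) ^ h) ^ (-δ) * lp 2 f * lp 2 g

/-- new denominators, large scales -/
def StT1L : Prop :=
  ∀ (P₁ P₂ : ℤ[X]), 1 ≤ P₁.natDegree → 1 ≤ P₂.natDegree → (P₁ = X ∨ P₂ = X) → SSP P₁ P₂ →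
    ∃ (c : ℕ) (δ : ℝ), 0 < δ ∧ ∀ L : ℕ, ∃ C : ℝ, 0 < C ∧
    ∀ (M : ℕ) [NeZero M] (M' : ℕ) [NeZero M'] (Q i₀ i₁ h N₀ : ℕ) (N K₁ K₂ : ℕ → ℕ)
      (A₂ : Finset (ZMod M)) (f g : ZMod M → ℂ) (e : ZMod M' × Fin Q ≃ ZMod M),
      (∀ z, e z = up M Q z.1 + ((z.2 : ℕ) : ZMod M)) → (∀ z, (e z).val % Q = z.2) →
      Par c M L i₀ i₁ h N₀ N → Large M M' Q h N₀ →
      KF M i₀ i₁ h P₁.natDegree N K₁ → KF M i₀ i₁ h P₂.natDegree N K₂ → A₂ ⊆ Sg M (2 ^ h) →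
      DB e 0 0 (ML P₁ P₂ Q N₀ i₀ i₁ N (Sg M (2 ^ h) \ Sg M (2 ^ (h - 1))) A₂ K₁ K₂ f g)
        (C * ((2 : ℝ) ^ h) ^ (-δ) * lp 2 f * lp 2 g)

/-- new frequency shell -/
def StT2 : Prop :=
  ∀ (P₁ P₂ : ℤ[X]), 1 ≤ P₁.natDegree → 1 ≤ P₂.natDegree → SSP P₁ P₂ →
    ∃ (c : ℕ) (δ : ℝ), 0 < δ ∧ ∀ L L' : ℕ, ∃ C : ℝ, 0 < C ∧
    ∀ (M : ℕ) [NeZero M] (i₀ i₁ h N₀ a : ℕ) (N K₁ K₁' K₂ : ℕ → ℕ) (f g : ZMod M → ℂ),
      Par c M L i₀ i₁ h N₀ N → Rng M L' i₀ i₁ h N₀ →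
      (∀ i ∈ Ico i₀ i₁, K₁ i * N i ^ P₁.natDegree = 2 ^ h * M) →
      (∀ i ∈ Ico i₀ i₁, K₁' i * N i ^ P₁.natDegree = 2 ^ (h - 1) * M) →
      1 ≤ a → a ≤ 2 ^ h → (∀ i ∈ Ico i₀ i₁, K₂ i * N i ^ P₂.natDegree = a * M) →
      lp 1 (fun x => √(∑ i ∈ Ico i₀ i₁,
        ‖AC P₁ P₂ i₀ i₁ N (Sg M (2 ^ (h - 1))) (Sg M (2 ^ (h - 1))) K₁ K₂ f g i x -
          AC P₁ P₂ i₀ i₁ N (Sg M (2 ^ (h - 1))) (Sg M (2 ^ (h - 1))) K₁' K₂ f g i x‖ ^ 2)) ≤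
        C * ((2 : ℝ) ^ h) ^ (-δ) * lp 2 f * lp 2 g

/-- the minor arc part at one scale -/
def StMinor : Prop :=
  ∀ (P : ℤ[X]) (p₁ p₂ p : ℝ), 2 ≤ P.natDegree → 1 < p₁ → 1 < p₂ → 1 ≤ p → p₁⁻¹ + p₂⁻¹ = p⁻¹ →
    ∃ (c : ℕ) (δ C : ℝ), 0 < δ ∧ 0 < C ∧
    ∀ (M : ℕ) [NeZero M] (h N : ℕ) (f g : ZMod M → ℂ), 1 ≤ h → 2 ^ (c * h) ≤ N →
      Dv M (2 * N ^ P.natDegree) →
      lp p (fun x => AA X P N f g x -
        AA X P N (TT (Sg M (2 ^ h)) (cx (fej (2 ^ h * (M / N)))) f)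
          (TT (Sg M (2 ^ h)) (cx (fej (2 ^ h * (M / N ^ P.natDegree)))) g) x) ≤
        C * ((2 : ℝ) ^ h) ^ (-δ) * lp p₁ f * lp p₂ g

end

end Pool.Agent.Lib.MP_10e396_an
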