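import Pool.Agent.Lib.MP_10e396_an.Spec

/-! Analytic lemmas for the PET induction: van der Corput and the linear case. -/

set_option autoImplicit false

namespace Pool.Agent.Lib.MP_10e396_an.Pet

open Finset ComplexConjugate

noncomputable section

theorem av_eq (N : ℕ) (φ : ℕ → ℂ) : av N φ = (N : ℂ)⁻¹ * ∑ n ∈ range N, φ n := by
  simp [av, Complex.real_smul]

theorem av_mul (N : ℕ) (c : ℂ) (φ : ℕ → ℂ) : av N (fun n => c * φ n) = c * av N φ := by
  rw [av_eq, av_eq, ← Finset.mul_sum]; ring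

theorem av_const (N : ℕ) (hN : 0 < N) (c : ℂ) : av N (fun _ => c) = c := by
  have : (N : ℂ) ≠ 0 := by exact_mod_cast hN.ne'
  rw [av_eq]; simp; field_simp

theorem sum_av {Z : Type} [Fintype Z] (N : ℕ) (Φ : Z → ℕ → ℂ) :
    ∑ z, av N (Φ z) = av N fun n => ∑ z, Φ z n := by
  simp only [av_eq]
  rw [← Finset.mul_sum, Finset.sum_comm]

theorem shift_le (N u : ℕ) (φ : ℕ → ℂ) (h : ∀ n, ‖φ n‖ ≤ 1) :
    ‖∑ n ∈ range N, φ n - ∑ n ∈ range N, φ (n + u)‖ ≤ 2 * u := by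
  have h1 := Finset.sum_range_add φ N u
  have h2 := Finset.sum_range_add φ u N
  rw [add_comm u N, h1] at h2
  have h3 : ∑ n ∈ range N, φ n - ∑ n ∈ range N, φ (n + u) =
      ∑ n ∈ range u, φ n - ∑ n ∈ range u, φ (N + n) := by
    have : ∑ n ∈ range N, φ (n + u) = ∑ n ∈ range N, φ (u + n) :=
      Finset.sum_congr rfl fun n _ => by rw [add_comm]
    rw [this]
    linear_combination h2
  have hb : ∀ ψ : ℕ → ℂ, (∀ n, ‖ψ n‖ ≤ 1) → ‖∑ n ∈ range u, ψ n‖ ≤ u := by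
    intro ψ hψ
    refine (norm_sum_le _ _).trans ?_
    calc ∑ n ∈ range u, ‖ψ n‖ ≤ ∑ _n ∈ range u, (1 : ℝ) := Finset.sum_le_sum fun n _ => hψ n
      _ = u := by simp
  rw [h3]
  refine (norm_sub_le _ _).trans ?_
  have a1 := hb φ h
  have a2 := hb (fun n => φ (N + n)) fun n => h _
  linarith

theorem vdc1 (N H : ℕ) (φ : ℕ → ℂ) (h : ∀ n, ‖φ n‖ ≤ 1) :
    (H : ℝ) * ‖∑ n ∈ range N, φ n‖ ≤
      ∑ n ∈ range N, ‖∑ u : Fin H, φ (n + u)‖ + 2 * (H : ℝ) ^ 2 := by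
  have e1 : (H : ℂ) * ∑ n ∈ range N, φ n = ∑ n ∈ range N, ∑ u : Fin H, φ (n + u) +
      ∑ u : Fin H, (∑ n ∈ range N, φ n - ∑ n ∈ range N, φ (n + u)) := by
    rw [Finset.sum_sub_distrib, Finset.sum_comm (s := range N)]
    simp
  have e2 : (H : ℝ) * ‖∑ n ∈ range N, φ n‖ = ‖(H : ℂ) * ∑ n ∈ range N, φ n‖ := by
    rw [norm_mul]; simp
  rw [e2, e1]
  refine (norm_add_le _ _).trans (add_le_add (norm_sum_le _ _) ?_)
  refine (norm_sum_le _ _).trans ?_
  calc ∑ u : Fin H, ‖∑ n ∈ range N, φ n - ∑ n ∈ range N, φ (n + u)‖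
      ≤ ∑ _u : Fin H, 2 * (H : ℝ) := by
        refine Finset.sum_le_sum fun u _ => (shift_le N u φ h).trans ?_
        have : ((u : ℕ) : ℝ) ≤ H := by exact_mod_cast u.2.le
        linarith
    _ = 2 * (H : ℝ) ^ 2 := by simp; ring

theorem normsq_sum (H : ℕ) (a : Fin H → ℂ) :
    ‖∑ u, a u‖ ^ 2 = ∑ u, ∑ v, (a u * conj (a v)).re := by
  have : ((∑ u, a u) * conj (∑ v, a v)).re = ‖∑ u, a u‖ ^ 2 := by
    rw [Complex.mul_conj, Complex.normSq_eq_norm_sq]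
    norm_cast
  rw [← this, map_sum, Finset.sum_mul_sum, Complex.re_sum]
  exact Finset.sum_congr rfl fun u _ => Complex.re_sum _ _

/-- van der Corput with Cauchy-Schwarz -/
theorem vdc {Z : Type} [Fintype Z] (N H : ℕ) (η : ℝ) (Φ : Z → ℕ → ℂ) (hΦ : ∀ z n, ‖Φ z n‖ ≤ 1)
    (hH : 1 ≤ H) (h0 : 0 < η) (h1 : η ≤ 1 / 2) (hN : (H : ℝ) ≤ η ^ 3 * N)
    (h : η * Fintype.card Z ≤ ∑ z, ‖av N (Φ z)‖) :
    η ^ 4 * Fintype.card Z * (H : ℝ) ^ 2 ≤ ∑ u : Fin H, ∑ v : Fin H,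
      (∑ z, av N fun n => Φ z (n + u) * conj (Φ z (n + v))).re := by
  have hH' : (1 : ℝ) ≤ H := by exact_mod_cast hH
  have hNp : (0 : ℝ) < N := by
    by_contra hc
    have : (N : ℝ) = 0 := le_antisymm (not_lt.1 hc) (Nat.cast_nonneg _)
    rw [this] at hN
    linarith
  have hη2 : η ^ 2 ≤ 1 / 4 := by nlinarith
  set K : ℝ := (Fintype.card Z : ℝ) with hK
  have hK0 : 0 ≤ K := Nat.cast_nonneg _
  set Y : Z → ℕ → ℝ := fun z n => ‖∑ u : Fin H, Φ z (n + u)‖ with hY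
  have a1 : η * K * N ≤ ∑ z, ‖∑ n ∈ range N, Φ z n‖ := by
    have : ∑ z, ‖av N (Φ z)‖ = (N : ℝ)⁻¹ * ∑ z, ‖∑ n ∈ range N, Φ z n‖ := by
      rw [Finset.mul_sum]
      refine Finset.sum_congr rfl fun z _ => ?_
      rw [av_eq, norm_mul]; simp
    rw [this] at h
    have := mul_le_mul_of_nonneg_right h hNp.le
    rwa [mul_comm (N : ℝ)⁻¹, mul_assoc _ (N : ℝ)⁻¹, inv_mul_cancel₀ hNp.ne', mul_one] at this
  have a2 : (H : ℝ) * ∑ z, ‖∑ n ∈ range N, Φ z n‖ ≤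
      ∑ z, ∑ n ∈ range N, Y z n + 2 * (H : ℝ) ^ 2 * K := by
    rw [Finset.mul_sum]
    refine (Finset.sum_le_sum fun z _ => vdc1 N H (Φ z) (hΦ z)).trans ?_
    rw [Finset.sum_add_distrib]
    simp [hK, hY, mul_comm]
  have a3 : H * η * K * N / 2 ≤ ∑ z, ∑ n ∈ range N, Y z n := by
    have b1 : (H : ℝ) ≤ η * N / 4 := by
      have : η ^ 3 * N = η ^ 2 * (η * N) := by ring
      have h5 : 0 ≤ η * N := by positivity
      nlinarith
    have b2 : 2 * (H : ℝ) ^ 2 * K ≤ H * η * K * N / 2 := by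
      have : 0 ≤ (H : ℝ) * K := by positivity
      nlinarith
    have b3 := mul_le_mul_of_nonneg_left a1 (by positivity : (0 : ℝ) ≤ H)
    nlinarith
  have a4 : (∑ z, ∑ n ∈ range N, Y z n) ^ 2 ≤ K * N * ∑ z, ∑ n ∈ range N, Y z n ^ 2 := by
    rw [← Finset.sum_product', ← Finset.sum_product']
    refine (sq_sum_le_card_mul_sum_sq).trans (le_of_eq ?_)
    simp [hK]
  have a5 : ∑ u : Fin H, ∑ v : Fin H,
      (∑ z, av N fun n => Φ z (n + u) * conj (Φ z (n + v))).re =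
      (N : ℝ)⁻¹ * ∑ z, ∑ n ∈ range N, Y z n ^ 2 := by
    have e : ∀ u v : Fin H, (∑ z, av N fun n => Φ z (n + u) * conj (Φ z (n + v))).re =
        (N : ℝ)⁻¹ * ∑ z, ∑ n ∈ range N, (Φ z (n + u) * conj (Φ z (n + v))).re := by
      intro u v
      rw [Complex.re_sum, Finset.mul_sum]
      refine Finset.sum_congr rfl fun z _ => ?_
      rw [av, Complex.smul_re, Complex.re_sum, smul_eq_mul]
    simp only [e, ← Finset.mul_sum, hY, normsq_sum]
    congr 1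
    symm
    calc ∑ z, ∑ n ∈ range N, ∑ u : Fin H, ∑ v : Fin H, (Φ z (n + u) * conj (Φ z (n + v))).re
        = ∑ z, ∑ u : Fin H, ∑ v : Fin H, ∑ n ∈ range N,
            (Φ z (n + u) * conj (Φ z (n + v))).re := by
          refine Finset.sum_congr rfl fun z _ => ?_
          rw [Finset.sum_comm]
          exact Finset.sum_congr rfl fun u _ => Finset.sum_comm
      _ = _ := by
          rw [Finset.sum_comm]
          exact Finset.sum_congr rfl fun u _ => Finset.sum_comm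
  rw [a5]
  set Q : ℝ := ∑ z, ∑ n ∈ range N, Y z n ^ 2 with hQ
  have hQ0 : 0 ≤ Q := Finset.sum_nonneg fun z _ => Finset.sum_nonneg fun n _ => sq_nonneg _
  rcases hK0.eq_or_lt with hz | hp
  · rw [← hz]; simp; positivity
  have a6 : (H * η * K * N / 2) ^ 2 ≤ K * N * Q :=
    (pow_le_pow_left₀ (by positivity) a3 2).trans a4
  have a7 : (H : ℝ) ^ 2 * η ^ 2 * K * N / 4 ≤ Q := by
    have hp' : 0 < K * N := by positivity
    refine le_of_mul_le_mul_left ?_ hp'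
    nlinarith
  rw [inv_mul_eq_div, le_div_iff₀ hNp]
  have a8 : η ^ 4 ≤ η ^ 2 / 4 := by nlinarith [sq_nonneg η]
  have a9 : 0 ≤ (H : ℝ) ^ 2 * K * N := by positivity
  nlinarith

section cyc

variable {M : ℕ} [NeZero M]

theorem shiftav (N : ℕ) (Ψ : ZMod M → ℕ → ℂ) (s : ℕ → ZMod M) :
    ∑ x, av N (Ψ x) = ∑ x, av N fun n => Ψ (x - s n) n := by
  rw [sum_av, sum_av]
  congr 1
  funext n
  exact ((Equiv.subRight (s n)).sum_comp fun x => Ψ x n).symm

theorem dirm_sum (H : ℕ) (c : ZMod M) (F : ZMod M → ℝ) :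
    ∑ a, dirm H c a * F a = (H : ℝ)⁻¹ * ∑ u : Fin H, F (c * ((u : ℕ) : ZMod M)) := by
  rw [Fin.sum_univ_eq_sum_range (fun u => F (c * (u : ZMod M))) H,
    ← Finset.sum_fiberwise (s := range H) (g := fun u : ℕ => c * (u : ZMod M)), Finset.mul_sum]
  refine Finset.sum_congr rfl fun a _ => ?_
  rw [Finset.sum_congr rfl (g := fun _ => F a) fun u hu => by rw [(Finset.mem_filter.1 hu).2]]
  simp [dirm]
  ring

theorem box_cons (H : ℕ) (hH : 1 ≤ H) (c : ZMod M) (L : List (ZMod M → ℝ)) (g : ZMod M → ℂ) :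
    (H : ℝ) ^ 2 * Box (dirm H c :: L) g = ∑ u : Fin H, ∑ v : Fin H,
      Box L fun x => g (x + c * ((u : ℕ) : ZMod M)) * conj (g (x + c * ((v : ℕ) : ZMod M))) := by
  have hH' : (H : ℝ) ≠ 0 := by
    have : 0 < H := hH
    exact_mod_cast this.ne'
  have e : ∀ a, ∑ b, dirm H c a * dirm H c b * Box L (fun x => g (x + a) * conj (g (x + b))) =
      dirm H c a * ((H : ℝ)⁻¹ * ∑ v : Fin H,
        Box L fun x => g (x + a) * conj (g (x + c * ((v : ℕ) : ZMod M)))) := by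
    intro a
    rw [← dirm_sum H c fun b => Box L (fun x => g (x + a) * conj (g (x + b))), Finset.mul_sum]
    exact Finset.sum_congr rfl fun b _ => by ring
  rw [Box]
  simp only [e]
  rw [dirm_sum H c fun a => (H : ℝ)⁻¹ * ∑ v : Fin H,
        Box L fun x => g (x + a) * conj (g (x + c * ((v : ℕ) : ZMod M))), ← Finset.mul_sum]
  field_simp

theorem box_shift (L : List (ZMod M → ℝ)) : ∀ (g : ZMod M → ℂ) (s : ZMod M),
    Box L (fun x => g (x + s)) = Box L g := by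
  induction L with
  | nil =>
    intro g s
    rw [Box, Box, ← Equiv.sum_comp (Equiv.addRight s) g]
    rfl
  | cons μ L ih =>
    intro g s
    rw [Box, Box]
    refine Finset.sum_congr rfl fun a _ => Finset.sum_congr rfl fun b _ => ?_
    rw [← ih (fun x => g (x + a) * conj (g (x + b))) s]
    congr 2
    funext x
    rw [add_right_comm x a s, add_right_comm x b s]

theorem vdc2 {T : Type} [Fintype T] (N H : ℕ) (δ : ℝ) (Φ : T → ZMod M → ℕ → ℂ)
    (hΦ : ∀ t x n, ‖Φ t x n‖ ≤ 1) (hH : 1 ≤ H) (h0 : 0 < δ) (h1 : δ ≤ 1 / 2)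
    (hN : (H : ℝ) ≤ δ ^ 3 * N)
    (h : δ * (Fintype.card T * M) ≤ ∑ t, ∑ x, ‖av N (Φ t x)‖)
    (s : Fin H × Fin H × T → ℕ → ZMod M) :
    δ ^ 4 * (Fintype.card (Fin H × Fin H × T) * M) ≤ ∑ p : Fin H × Fin H × T,
      (∑ x, av N fun n => Φ p.2.2 (x - s p n) (n + p.1) *
        conj (Φ p.2.2 (x - s p n) (n + p.2.1))).re := by
  have := vdc (Z := T × ZMod M) N H δ (fun z => Φ z.1 z.2) (fun z n => hΦ _ _ _) hH h0 h1 hN
    (by rw [Fintype.sum_prod_type]; simpa using h)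
  refine le_trans (le_of_eq ?_) (this.trans (le_of_eq ?_))
  · simp; ring
  · simp only [Fintype.sum_prod_type, Complex.re_sum (s := (univ : Finset T))]
    refine Finset.sum_congr rfl fun u _ => Finset.sum_congr rfl fun v _ =>
      Finset.sum_congr rfl fun t _ => ?_
    rw [shiftav N (fun x n => Φ t x (n + u) * conj (Φ t x (n + v))) (s (u, v, t))]

theorem re_le (N : ℕ) (b : ZMod M → ℂ) (Ψ : ZMod M → ℕ → ℂ) (hb : ∀ x, ‖b x‖ ≤ 1) :
    (∑ x, av N fun n => b x * Ψ x n).re ≤ ∑ x, ‖av N (Ψ x)‖ := by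
  refine (Complex.re_le_norm _).trans ((norm_sum_le _ _).trans (Finset.sum_le_sum fun x _ => ?_))
  rw [av_mul, norm_mul]
  exact mul_le_of_le_one_left (norm_nonneg _) (hb x)

end cyc

theorem nm_mul {a b : ℂ} (ha : ‖a‖ ≤ 1) (hb : ‖b‖ ≤ 1) : ‖a * b‖ ≤ 1 := by
  rw [norm_mul]; exact mul_le_one₀ ha (norm_nonneg _) hb

theorem nm_conj {a : ℂ} (ha : ‖a‖ ≤ 1) : ‖conj a‖ ≤ 1 := by rwa [Complex.norm_conj]

theorem nm_prod {ι : Type} (s : Finset ι) (a : ι → ℂ) (ha : ∀ i, ‖a i‖ ≤ 1) :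
    ‖∏ i ∈ s, a i‖ ≤ 1 := by
  rw [norm_prod]; exact Finset.prod_le_one (fun i _ => norm_nonneg _) fun i _ => ha i

theorem pw_le {δ : ℝ} (h0 : 0 < δ) (h1 : δ ≤ 1 / 2) {a b : ℕ} (h : a ≤ b) : δ ^ b ≤ δ ^ a :=
  pow_le_pow_of_le_one h0.le (by linarith) h

theorem pw4 {δ : ℝ} (h0 : 0 < δ) (h1 : δ ≤ 1 / 2) : δ ^ 4 ≤ 1 / 2 := by
  have := pw_le h0 h1 (show 1 ≤ 4 by norm_num)
  rw [pow_one] at this
  linarith

theorem hN_le {δ : ℝ} (h0 : 0 < δ) (h1 : δ ≤ 1 / 2) {a b H N : ℕ} (h : a ≤ b)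
    (hN : (H : ℝ) ≤ δ ^ b * N) : (H : ℝ) ≤ δ ^ a * N :=
  hN.trans (mul_le_mul_of_nonneg_right (pw_le h0 h1 h) (Nat.cast_nonneg _))

theorem box_back {M : ℕ} [NeZero M] {T : Type} [Fintype T] (H : ℕ) (hH : 1 ≤ H) (η : ℝ)
    (c0 : T → ZMod M) (L : T → List (ZMod M → ℝ)) (g : T → ZMod M → ℂ)
    (h : η * Fintype.card (Fin H × Fin H × T) ≤ ∑ p : Fin H × Fin H × T, Box (L p.2.2) fun x =>
      g p.2.2 (x + c0 p.2.2 * ((p.1 : ℕ) : ZMod M)) *
        conj (g p.2.2 (x + c0 p.2.2 * ((p.2.1 : ℕ) : ZMod M)))) :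
    η * Fintype.card T ≤ ∑ t, Box (dirm H (c0 t) :: L t) (g t) := by
  have hH' : (0 : ℝ) < (H : ℝ) ^ 2 := by
    have : (0 : ℝ) < H := by exact_mod_cast hH
    positivity
  refine le_of_mul_le_mul_left ?_ hH'
  refine le_trans (le_of_eq ?_) (h.trans (le_of_eq ?_))
  · simp; ring
  · rw [Finset.mul_sum]
    simp only [box_cons H hH, Fintype.sum_prod_type]
    symm
    rw [Finset.sum_comm]
    exact Finset.sum_congr rfl fun u _ => Finset.sum_comm

/-- the linear case -/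
theorem lin (k : ℕ) : ∃ C : ℕ, ∀ (M : ℕ) [NeZero M] (T : Type) [Fintype T] (N H : ℕ) (δ : ℝ)
    (c0 : T → ZMod M) (c : Fin k → T → ZMod M) (g : T → ZMod M → ℂ)
    (f : Fin k → T → ZMod M → ℂ), 1 ≤ H → 0 < δ → δ ≤ 1 / 2 → (H : ℝ) ≤ δ ^ C * N →
    (∀ t x, ‖g t x‖ ≤ 1) → (∀ i t x, ‖f i t x‖ ≤ 1) →
    δ * (Fintype.card T * M) ≤ ∑ t, ∑ x, ‖av N fun n => g t (x + c0 t * (n : ZMod M)) *
      ∏ i, f i t (x + c i t * (n : ZMod M))‖ →
    δ ^ C * Fintype.card T ≤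
      ∑ t, Box (dirm H (c0 t) :: List.ofFn fun i => dirm H (c0 t - c i t)) (g t) := by
  induction k with
  | zero =>
    refine ⟨4, fun M _ T _ N H δ c0 c g f hH h0 h1 hN hg hf h => ?_⟩
    have hM : (0 : ℝ) < M := by exact_mod_cast NeZero.pos M
    have hNp : 0 < N := by
      rcases Nat.eq_zero_or_pos N with rfl | hp
      · have : (1 : ℝ) ≤ H := by exact_mod_cast hH
        simp at hN
        omega
      · exact hp
    have := vdc2 N H δ (fun t x n => g t (x + c0 t * (n : ZMod M)) *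
      ∏ i, f i t (x + c i t * (n : ZMod M)))
      (fun t x n => nm_mul (hg _ _) (nm_prod _ _ fun i => hf _ _ _)) hH h0 h1
      (hN_le h0 h1 (by norm_num) hN) h fun p n => c0 p.2.2 * (n : ZMod M)
    refine box_back H hH _ c0 _ g ?_
    refine le_of_mul_le_mul_right ?_ hM
    rw [mul_assoc]
    refine this.trans (le_of_eq ?_)
    rw [Finset.sum_mul]
    refine Finset.sum_congr rfl fun p _ => ?_
    rw [List.ofFn_zero, Box, ZMod.card, div_mul_cancel₀ _ hM.ne']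
    congr 1
    refine Finset.sum_congr rfl fun x _ => ?_
    rw [← av_const N hNp (g p.2.2 _ * _)]
    congr 1
    funext n
    have e : ∀ u : ℕ, x - c0 p.2.2 * (n : ZMod M) + c0 p.2.2 * ((n + u : ℕ) : ZMod M) =
        x + c0 p.2.2 * (u : ZMod M) := by
      intro u
      push_cast
      ring
    simp only [Finset.univ_eq_empty, Finset.prod_empty, mul_one, e]
  | succ k ih =>
    obtain ⟨C, ih⟩ := ih
    refine ⟨4 * C + 3, fun M _ T _ N H δ c0 c g f hH h0 h1 hN hg hf h => ?_⟩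
    have := vdc2 N H δ (fun t x n => g t (x + c0 t * (n : ZMod M)) *
      ∏ i, f i t (x + c i t * (n : ZMod M)))
      (fun t x n => nm_mul (hg _ _) (nm_prod _ _ fun i => hf _ _ _)) hH h0 h1
      (hN_le h0 h1 (by omega) hN) h fun p n => c 0 p.2.2 * (n : ZMod M)
    have key := ih M (Fin H × Fin H × T) N H (δ ^ 4) (fun p => c0 p.2.2 - c 0 p.2.2)
      (fun i p => c i.succ p.2.2 - c 0 p.2.2)
      (fun p x => g p.2.2 (x + c0 p.2.2 * ((p.1 : ℕ) : ZMod M)) *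
        conj (g p.2.2 (x + c0 p.2.2 * ((p.2.1 : ℕ) : ZMod M))))
      (fun i p x => f i.succ p.2.2 (x + c i.succ p.2.2 * ((p.1 : ℕ) : ZMod M)) *
        conj (f i.succ p.2.2 (x + c i.succ p.2.2 * ((p.2.1 : ℕ) : ZMod M))))
      hH (by positivity) (pw4 h0 h1) (by rw [← pow_mul]; exact hN_le h0 h1 (by omega) hN)
      (fun p x => nm_mul (hg _ _) (nm_conj (hg _ _)))
      (fun i p x => nm_mul (hf _ _ _) (nm_conj (hf _ _ _))) (by
        refine this.trans (Finset.sum_le_sum fun p _ => ?_)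
        refine le_trans (le_of_eq ?_) (re_le N (fun x =>
          f 0 p.2.2 (x + c 0 p.2.2 * ((p.1 : ℕ) : ZMod M)) *
            conj (f 0 p.2.2 (x + c 0 p.2.2 * ((p.2.1 : ℕ) : ZMod M)))) _
          fun x => nm_mul (hf _ _ _) (nm_conj (hf _ _ _)))
        congr 1
        refine Finset.sum_congr rfl fun x _ => ?_
        congr 1
        funext n
        have e : ∀ (a : ZMod M) (u : ℕ), x - c 0 p.2.2 * (n : ZMod M) + a * ((n + u : ℕ) : ZMod M) =
            x + (a - c 0 p.2.2) * (n : ZMod M) + a * (u : ZMod M) := by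
          intro a u
          push_cast
          ring
        simp only [e, Fin.prod_univ_succ, map_mul, map_prod, Finset.prod_mul_distrib, sub_self,
          zero_mul, add_zero]
        ring)
    refine le_trans (mul_le_mul_of_nonneg_right ?_ (Nat.cast_nonneg _))
      (box_back H hH ((δ ^ 4) ^ C) c0 _ g (key.trans (le_of_eq ?_)))
    · rw [← pow_mul]; exact pw_le h0 h1 (by omega)
    · refine Finset.sum_congr rfl fun p _ => ?_
      rw [List.ofFn_succ]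
      simp only [sub_sub_sub_cancel_right]

end

end Pool.Agent.Lib.MP_10e396_an.Pet
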