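import Pool.Agent.Lib.MP_10e396_an.Fej

/-! Tools for the single scale estimate: windows, the dual function, the minor arc operator. -/

set_option autoImplicit false

namespace Pool.Agent.Lib.MP_10e396_an.SSJ

open Finset Polynomial ComplexConjugate

noncomputable section

variable {M : ℕ} [NeZero M]

omit [NeZero M] in
theorem pe_X (n : ℕ) : (pe X n : ZMod M) = n := by simp [pe]

theorem sum_av {Z : Type} (s : Finset Z) (N : ℕ) (Φ : Z → ℕ → ℂ) :
    ∑ z ∈ s, av N (Φ z) = av N fun n => ∑ z ∈ s, Φ z n := (av_sum N s Φ).symm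

theorem sum_avr {Z : Type} (s : Finset Z) (N : ℕ) (Φ : Z → ℕ → ℝ) :
    ∑ z ∈ s, av N (Φ z) = av N fun n => ∑ z ∈ s, Φ z n := (av_sum N s Φ).symm

/-- the dual function of the first slot -/
def phi (P : ℤ[X]) (N : ℕ) (h g : ZMod M → ℂ) (y : ZMod M) : ℂ :=
  av N fun n => h (y - (n : ZMod M)) * g (y - (n : ZMod M) + pe P n)

theorem tri (P : ℤ[X]) (N : ℕ) (h f g : ZMod M → ℂ) :
    ∑ x, h x * AA X P N f g x = ∑ y, f y * phi P N h g y := by
  simp only [AA, phi, ← av_mul_left]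
  rw [sum_av, sum_av]
  refine av_congr fun n _ => ?_
  rw [← Equiv.sum_comp (Equiv.addRight (n : ZMod M)) fun y =>
    f y * (h (y - (n : ZMod M)) * g (y - (n : ZMod M) + pe P n))]
  refine sum_congr rfl fun x _ => ?_
  simp only [Equiv.coe_addRight, pe_X, add_sub_cancel_right]
  ring

theorem dual {Z : Type} [Fintype Z] (F : Z → ℂ) :
    ∃ h : Z → ℂ, (∀ x, ‖h x‖ ≤ 1) ∧ lp 1 F = ‖∑ x, h x * F x‖ := by
  refine ⟨fun x => conj (F x) / ‖F x‖, fun x => ?_, ?_⟩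
  · rw [norm_div, Complex.norm_conj, Complex.norm_real, norm_norm]
    exact div_self_le_one _
  · have : ∀ x, conj (F x) / ‖F x‖ * F x = ((‖F x‖ : ℝ) : ℂ) := by
      intro x
      by_cases h : F x = 0
      · simp [h]
      · have h' : ((‖F x‖ : ℝ) : ℂ) ≠ 0 := by exact_mod_cast norm_ne_zero_iff.2 h
        rw [div_mul_eq_mul_div, Complex.conj_mul', div_eq_iff h']
        ring
    simp only [this]
    rw [lp_one, ← Complex.ofReal_sum, Complex.norm_real, Real.norm_of_nonneg]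
    exact sum_nonneg fun _ _ => norm_nonneg _

/-- restriction to a window -/
def win (W : ℕ) (a : ZMod M) (h : ZMod M → ℂ) (z : ZMod M) : ℂ :=
  if (z - a).val < W then h z else 0

theorem sum_win {E : Type} [AddCommMonoid E] {W : ℕ} (hW : W ≤ M) (a : ZMod M) (Φ : ZMod M → E) :
    ∑ z, (if (z - a).val < W then Φ z else 0) = ∑ x ∈ range W, Φ (a + x) := by
  rw [← sum_filter]
  symm
  refine sum_bij (fun x _ => a + (x : ZMod M)) ?_ ?_ ?_ fun _ _ => rfl
  · intro x hx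
    have := mem_range.1 hx
    simp only [mem_filter, mem_univ, true_and, add_sub_cancel_left]
    rw [ZMod.val_cast_of_lt (by omega)]
    exact this
  · intro x hx y hy hxy
    have h1 := mem_range.1 hx
    have h2 := mem_range.1 hy
    have := congrArg ZMod.val (add_left_cancel hxy)
    rwa [ZMod.val_cast_of_lt (by omega), ZMod.val_cast_of_lt (by omega)] at this
  · intro z hz
    refine ⟨(z - a).val, mem_range.2 (mem_filter.1 hz).2, ?_⟩
    simp

theorem sum_range_le {W : ℕ} (hW : W ≤ M) (a : ZMod M) {Φ : ZMod M → ℝ} (h : ∀ z, 0 ≤ Φ z) :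
    ∑ x ∈ range W, Φ (a + x) ≤ ∑ z, Φ z := by
  rw [← sum_win hW]
  refine sum_le_sum fun z _ => ?_
  split_ifs
  · exact le_rfl
  · exact h z

theorem sum_win_a {W : ℕ} (hW : W ≤ M) (h : ZMod M → ℂ) (z : ZMod M) :
    ∑ a, win W a h z = W * h z := by
  have := sum_win hW (0 : ZMod M) fun _ => h z
  simp only [sub_zero, sum_const, card_range, nsmul_eq_mul] at this
  rw [← this, ← Equiv.sum_comp (Equiv.subLeft z)]
  refine sum_congr rfl fun a _ => ?_
  simp [win]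

omit [NeZero M] in
theorem norm_win {W : ℕ} {a : ZMod M} {h : ZMod M → ℂ} (hh : ∀ x, ‖h x‖ ≤ 1) (z : ZMod M) :
    ‖win W a h z‖ ≤ 1 := by
  unfold win
  split_ifs
  · exact hh z
  · simp

theorem sum_norm_win {W : ℕ} (hW : W ≤ M) (a : ZMod M) {h : ZMod M → ℂ} (hh : ∀ x, ‖h x‖ ≤ 1) :
    ∑ z, ‖win W a h z‖ ≤ W := by
  have h1 := sum_win hW a fun _ => (1 : ℝ)
  simp only [sum_const, card_range, nsmul_eq_mul, mul_one] at h1
  rw [← h1]
  refine sum_le_sum fun z _ => ?_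
  unfold win
  split_ifs
  · exact hh z
  · simp

theorem ab_le_val (z : ZMod M) : ab z ≤ z.val := by
  have := ab_natCast_le (M := M) z.val
  rwa [ZMod.natCast_zmod_val] at this

theorem win_ab {W : ℕ} {a z : ZMod M} {h : ZMod M → ℂ} (hz : win W a h z ≠ 0) :
    ab (z - a) < W := by
  unfold win at hz
  split_ifs at hz with h1
  · exact (ab_le_val _).trans_lt h1
  · exact absurd rfl hz

omit [NeZero M] in
theorem norm_phi {P : ℤ[X]} {N : ℕ} {h g : ZMod M → ℂ} (hh : ∀ x, ‖h x‖ ≤ 1)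
    (hg : ∀ x, ‖g x‖ ≤ 1) (y : ZMod M) : ‖phi P N h g y‖ ≤ 1 :=
  norm_av_le' zero_le_one fun n _ => by
    rw [norm_mul]
    exact mul_le_one₀ (hh _) (norm_nonneg _) (hg _)

theorem sum_norm_phi {P : ℤ[X]} {N : ℕ} {h g : ZMod M → ℂ} (hg : ∀ x, ‖g x‖ ≤ 1) :
    ∑ y, ‖phi P N h g y‖ ≤ ∑ y, ‖h y‖ := by
  refine (sum_le_sum fun y _ => norm_av_le _ _).trans ?_
  rw [sum_avr]
  refine av_le (sum_nonneg fun _ _ => norm_nonneg _) fun n _ => ?_
  rw [← Equiv.sum_comp (Equiv.subRight (n : ZMod M)) fun y => ‖h y‖]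
  refine sum_le_sum fun y _ => ?_
  rw [norm_mul]
  exact mul_le_of_le_one_right (norm_nonneg _) (hg _)

theorem phi_ab {P : ℤ[X]} {N W : ℕ} {a y : ZMod M} {h g : ZMod M → ℂ}
    (hy : phi P N (win W a h) g y ≠ 0) : ab (y - a) ≤ W + N := by
  by_contra hc
  apply hy
  unfold phi
  rw [av_congr (ψ := fun _ => 0)]
  · simp [av]
  · intro n hn
    by_contra h0
    have h1 := win_ab (left_ne_zero_of_mul h0)
    have h2 := ab_add_le (y - (n : ZMod M) - a) (n : ZMod M)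
    have h3 := ab_natCast_le (M := M) n
    rw [show y - (n : ZMod M) - a + (n : ZMod M) = y - a by ring] at h2
    omega

/-- localisation near a point -/
def loc (R : ℕ) (a : ZMod M) (F : ZMod M → ℂ) (z : ZMod M) : ℂ :=
  if ab (z - a) ≤ R then F z else 0

theorem card_ab (R : ℕ) : ∑ t : ZMod M, (if ab t ≤ R then (1 : ℝ) else 0) ≤ 2 * (R + 1) := by
  refine (sum_ab_le (fun a => if a ≤ R then (1 : ℝ) else 0) fun a => by positivity).trans ?_
  rw [← sum_filter]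
  simp only [sum_const, nsmul_eq_mul, mul_one]
  have : ((range M).filter fun a => a ≤ R).card ≤ (range (R + 1)).card :=
    card_le_card fun a ha => mem_range.2 (Nat.lt_succ_of_le (mem_filter.1 ha).2)
  rw [card_range] at this
  have h2 : ((((range M).filter fun a => a ≤ R).card : ℕ) : ℝ) ≤ R + 1 := by exact_mod_cast this
  linarith

theorem sum_loc (R : ℕ) (F : ZMod M → ℂ) :
    ∑ a, lp 2 (loc R a F) ^ 2 ≤ 2 * (R + 1) * lp 2 F ^ 2 := by
  simp only [lp_two_sq]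
  rw [sum_comm, mul_sum]
  refine sum_le_sum fun z _ => ?_
  have : ∀ a, ‖loc R a F z‖ ^ 2 = (if ab (z - a) ≤ R then (1 : ℝ) else 0) * ‖F z‖ ^ 2 := by
    intro a
    unfold loc
    split_ifs <;> simp
  simp only [this]
  rw [← sum_mul]
  refine mul_le_mul_of_nonneg_right ?_ (sq_nonneg _)
  have h2 := Equiv.sum_comp (Equiv.subLeft z) fun t : ZMod M => if ab t ≤ R then (1 : ℝ) else 0
  simp only [Equiv.subLeft_apply] at h2
  rw [h2]
  exact card_ab R

theorem sum_loc_mul (R : ℕ) (F G : ZMod M → ℂ) :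
    ∑ a, lp 2 (loc R a F) * lp 2 (loc R a G) ≤ 2 * (R + 1) * lp 2 F * lp 2 G := by
  have h1 := sum_mul_sq_le_sq_mul_sq univ (fun a => lp 2 (loc R a F)) fun a => lp 2 (loc R a G)
  have h2 := sum_loc R F
  have h3 := sum_loc R G
  have hF := lp_nonneg 2 F
  have hG := lp_nonneg 2 G
  refine le_of_sq_le_sq (h1.trans ?_) (by positivity)
  calc _ ≤ (2 * (R + 1) * lp 2 F ^ 2) * (2 * (R + 1) * lp 2 G ^ 2) :=
        mul_le_mul h2 h3 (sum_nonneg fun _ _ => sq_nonneg _) (by positivity)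
    _ = _ := by ring

/-- the kernel of the major arc operator -/
def kk (H K : ℕ) (t : ZMod M) : ℂ := ∑ θ ∈ Sg M H, cx (fej K) t * ch (θ * t)

theorem TT_eq (H K : ℕ) (f : ZMod M → ℂ) (x : ZMod M) :
    TT (Sg M H) (cx (fej K)) f x = ∑ z, kk H K (x - z) * f z := by
  simp only [TT, Ad, kk, sum_mul]
  exact sum_comm

theorem kk_neg (H K : ℕ) (t : ZMod M) : kk H K (-t) = kk H K t := by
  unfold kk
  refine sum_bij (fun θ _ => -θ) (fun θ h => neg_mem_Sg.2 h) (fun _ _ _ _ h => neg_injective h)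
    (fun θ h => ⟨-θ, neg_mem_Sg.2 h, neg_neg θ⟩) fun θ _ => ?_
  simp only [cx, fej_neg, mul_neg, neg_mul]

theorem norm_kk (H K : ℕ) (t : ZMod M) : ‖kk H K t‖ ≤ (H : ℝ) ^ 2 * fej K t := by
  refine (norm_sum_le _ _).trans ?_
  have : ∀ θ : ZMod M, ‖cx (fej K) t * ch (θ * t)‖ = fej K t := by
    intro θ
    rw [norm_mul, norm_ch, mul_one, cx, Complex.norm_real, Real.norm_of_nonneg (fej_nonneg _ _)]
  simp only [this, sum_const, nsmul_eq_mul]
  refine mul_le_mul_of_nonneg_right ?_ (fej_nonneg _ _)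
  exact_mod_cast card_Sg H

theorem TT_symm (H K : ℕ) (f g : ZMod M → ℂ) :
    ∑ x, f x * TT (Sg M H) (cx (fej K)) g x = ∑ x, TT (Sg M H) (cx (fej K)) f x * g x := by
  simp only [TT_eq, mul_sum, sum_mul]
  rw [sum_comm]
  refine sum_congr rfl fun x _ => sum_congr rfl fun z _ => ?_
  rw [← kk_neg, neg_sub]
  ring

/-- the minor arc operator -/
def SO (H K : ℕ) (F : ZMod M → ℂ) (x : ZMod M) : ℂ := F x - TT (Sg M H) (cx (fej K)) F x

theorem SO_symm (H K : ℕ) (f g : ZMod M → ℂ) :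
    ∑ x, f x * SO H K g x = ∑ x, SO H K f x * g x := by
  simp only [SO, mul_sub, sub_mul, sum_sub_distrib, TT_symm]

/-- its symbol -/
def sy (H K : ℕ) (ξ : ZMod M) : ℂ := 1 - ∑ θ ∈ Sg M H, ft (cx (fej K)) (ξ - θ)

theorem ft_SO (H K : ℕ) (F : ZMod M → ℂ) (ξ : ZMod M) :
    ft (SO H K F) ξ = sy H K ξ * ft F ξ := by
  unfold SO sy
  rw [ft_sub, ft_TT]
  ring

theorem sy_le {H K : ℕ} (hH : 1 ≤ H) (h1 : 1 ≤ K) (hK : 2 * K * H ^ 2 ≤ M) (ξ : ZMod M) :
    ‖sy H K ξ‖ ≤ 1 ∧ ∀ θ ∈ Sg M H, ‖sy H K ξ‖ ≤ (ab (ξ - θ) : ℝ) / K := by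
  have h2 : 2 * K ≤ M := le_trans (Nat.le_mul_of_pos_right _ (by positivity)) hK
  obtain ⟨θ₀, h0⟩ := sym_unique hK ξ
  have e := sym_eq (Subset.refl _) h0 (band_fej h1 h2)
  have hKp : (0 : ℝ) < K := by exact_mod_cast h1
  have key : ∀ ζ : ZMod M, ‖1 - ft (cx (fej K)) ζ‖ ≤ 1 ∧
      ‖1 - ft (cx (fej K)) ζ‖ ≤ (ab ζ : ℝ) / K := by
    intro ζ
    have hp : (0 : ℝ) ≤ (ab ζ : ℝ) / K := by positivity
    rw [ft_fej h1 h2, ← Complex.ofReal_one, ← Complex.ofReal_sub, Complex.norm_real,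
      Real.norm_eq_abs]
    rcases le_total (1 - (ab ζ : ℝ) / K) 0 with h | h
    · rw [max_eq_right h, sub_zero, abs_one]
      exact ⟨le_rfl, by linarith⟩
    · rw [max_eq_left h, sub_sub_cancel, abs_of_nonneg hp]
      exact ⟨by linarith, le_rfl⟩
  have a1 : ‖sy H K ξ‖ ≤ 1 := by
    unfold sy
    rw [e]
    split_ifs
    · exact (key _).1
    · simp
  refine ⟨a1, fun θ hθ => ?_⟩
  by_cases hc : ab (ξ - θ) < K
  · have := h0 θ hθ hc
    subst this
    unfold sy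
    rw [e, if_pos hθ]
    exact (key _).2
  · refine a1.trans ?_
    rw [le_div_iff₀ hKp, one_mul]
    exact_mod_cast not_lt.1 hc

theorem lp_SO {H K : ℕ} (hH : 1 ≤ H) (h1 : 1 ≤ K) (hK : 2 * K * H ^ 2 ≤ M) (F : ZMod M → ℂ) :
    lp 2 (SO H K F) ≤ lp 2 F := by
  have := lp_le_of_ft (g := SO H K F) (f := F) zero_le_one fun ξ => by
    rw [ft_SO, norm_mul]
    exact mul_le_mul_of_nonneg_right (sy_le hH h1 hK ξ).1 (norm_nonneg _)
  rwa [one_mul] at this

theorem TT_minor {H K : ℕ} (h1 : 1 ≤ K) (h2 : 2 * K ≤ M) {f : ZMod M → ℂ} (hf : Minor H K f) :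
    TT (Sg M H) (cx (fej K)) f = fun _ => 0 := by
  refine ft_inj fun ξ => ?_
  have e : ft (fun _ : ZMod M => (0 : ℂ)) ξ = 0 := by simp [ft]
  rw [ft_TT, e]
  by_cases h : ∃ θ ∈ Sg M H, ab (ξ - θ) < K
  · obtain ⟨θ, hθ, hc⟩ := h
    rw [hf ξ θ hθ hc, mul_zero]
  · rw [sum_eq_zero, zero_mul]
    intro θ hθ
    by_contra h0
    exact h ⟨θ, hθ, band_fej h1 h2 _ h0⟩

/-- a frequency is close to a fraction with denominator `q` when `q ξ` is small -/
theorem near {q : ℕ} (hq : 1 ≤ q) (hd : q ∣ M) (ξ : ZMod M) :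
    ∃ θ : ZMod M, (q : ZMod M) * θ = 0 ∧ ab (ξ - θ) ≤ ab ((q : ZMod M) * ξ) := by
  obtain ⟨k, hk, hk'⟩ := ab_rep ((q : ZMod M) * ξ)
  obtain ⟨m, hm⟩ := hd
  have h1 : ((M : ℕ) : ℤ) ∣ (q : ℤ) * ξ.val - k := by
    rw [← ZMod.intCast_eq_intCast_iff_dvd_sub, hk]
    simp
  obtain ⟨j, hj⟩ := h1
  refine ⟨((m * j : ℤ) : ZMod M), ?_, ?_⟩
  · have : (q : ZMod M) * ((m * j : ℤ) : ZMod M) = (((M : ℕ) * j : ℤ) : ZMod M) := by
      rw [hm]
      push_cast
      ring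
    rw [this]
    simp
  · have e : ξ - ((m * j : ℤ) : ZMod M) = (((ξ.val : ℤ) - m * j : ℤ) : ZMod M) := by simp
    have e2 : k = q * ((ξ.val : ℤ) - m * j) := by
      have : ((M : ℕ) : ℤ) = q * m := by exact_mod_cast hm
      rw [this] at hj
      linear_combination -hj
    rw [e, ← hk', e2, Int.natAbs_mul, Int.natAbs_natCast]
    exact (ab_intCast_le _).trans (Nat.le_mul_of_pos_left _ hq)

theorem ab_le_nd (k : ℤ) : (ab (k : ZMod M) : ℝ) ≤ M * nd (k / M) := by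
  have hM := Mpos M
  have e : (k : ZMod M) = ((k - M * round ((k : ℝ) / M) : ℤ) : ZMod M) := by simp
  have h1 := ab_intCast_le (M := M) (k - M * round ((k : ℝ) / M))
  rw [← e] at h1
  have h2 : (ab (k : ZMod M) : ℝ) ≤ ((k - M * round ((k : ℝ) / M)).natAbs : ℝ) := by
    exact_mod_cast h1
  refine h2.trans (le_of_eq ?_)
  rw [Nat.cast_natAbs, Int.cast_abs, nd, ← abs_of_pos hM, ← abs_mul, abs_of_pos hM]
  congr 1
  push_cast
  field_simp

theorem nd_neg (x : ℝ) : nd (-x) = nd x := by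
  have key : ∀ y : ℝ, nd (-y) ≤ nd y := fun y => by
    have := round_le (-y) (-round y)
    unfold nd
    refine this.trans (le_of_eq ?_)
    rw [← abs_neg]
    congr 1
    push_cast
    ring
  exact le_antisymm (key x) (by simpa using key (-x))

/-- the Weyl inequality on the cyclic group -/
theorem weylZ (hW : StWeyl) {d : ℕ} (hd : 1 ≤ d) : ∃ C : ℕ, ∀ (M : ℕ) [NeZero M] (p : ℤ[X])
    (T : ℕ) (v : ℝ) (a : ℤ) (ξ : ZMod M), p.natDegree ≤ d → p.coeff d = ξ.val * a → 1 ≤ T → 2 ≤ v →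
    v⁻¹ ≤ ‖av T fun t => ch (pe p t : ZMod M)‖ →
    ∃ q : ℕ, 1 ≤ q ∧ (q : ℝ) ≤ v ^ C ∧
      nd ((q * a.natAbs : ℕ) * (ξ.val : ℝ) / M) ≤ v ^ C / (T : ℝ) ^ d := by
  obtain ⟨C, hC⟩ := hW d hd
  refine ⟨C, fun M _ p T v a ξ hp hc hT hv h => ?_⟩
  have hv0 : 0 < v := by linarith
  obtain ⟨q, h1, h2, h3⟩ := hC (Polynomial.C (M : ℝ)⁻¹ * p.map (Int.castRingHom ℝ)) T v⁻¹
    ((natDegree_C_mul_le _ _).trans (natDegree_map_le.trans hp)) hT (inv_pos.2 hv0)
    (by rw [one_div]; exact inv_anti₀ two_pos hv) (by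
      refine h.trans (le_of_eq ?_)
      congr 2
      funext t
      rw [pe, ch_intCast, eval_mul, eval_C, eval_natCast_map]
      congr 1
      simp [div_eq_inv_mul])
  rw [inv_inv] at h2 h3
  refine ⟨q, h1, h2, le_trans (le_of_eq ?_) h3⟩
  rw [coeff_C_mul, coeff_map, hc]
  obtain ⟨b, rfl | rfl⟩ := Int.eq_nat_or_neg a
  · congr 1
    simp only [Int.natAbs_natCast, eq_intCast]
    push_cast
    ring
  · rw [← nd_neg]
    congr 1
    simp only [Int.natAbs_neg, Int.natAbs_natCast, eq_intCast]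
    push_cast
    ring

end

end Pool.Agent.Lib.MP_10e396_an.SSJ
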