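import Pool.Agent.Lib.MP_10e396_an.SSA

/-! The local estimate: the dual function is small on the minor arcs. -/

set_option autoImplicit false

namespace Pool.Agent.Lib.MP_10e396_an.SSJ

open Finset Polynomial ComplexConjugate

noncomputable section

variable {M : ℕ} [NeZero M]

theorem setup {d N : ℕ} (hd : 1 ≤ d) (hN : 1 ≤ N) (hD : Dv M (2 * N ^ d)) :
    2 * N ^ d ≤ M ∧ N ≤ N ^ d ∧ M / N * N = M ∧ 1 ≤ M / N := by
  have h1 : N ≤ N ^ d := Nat.le_self_pow (by omega) N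
  have h2 : 2 * N ^ d ≤ M := Nat.le_of_dvd (NeZero.pos M) (hD _ (by omega) le_rfl)
  exact ⟨h2, h1, Nat.div_mul_cancel (hD N hN (by omega)), Nat.div_pos (by omega) hN⟩

omit [NeZero M] in
theorem Kle {H N j : ℕ} (h : H * j ≤ N) : H * (M / N) * j ≤ M :=
  calc H * (M / N) * j = M / N * (H * j) := by ring
    _ ≤ M / N * N := Nat.mul_le_mul_left _ h
    _ ≤ M := Nat.div_mul_le_self _ _

omit [NeZero M] in
theorem K2le {H N : ℕ} (hH : 2 ≤ H) (h : H ^ 4 ≤ N) : 2 * (H * (M / N)) * H ^ 2 ≤ M := by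
  have := Kle (M := M) (H := H) (N := N) (j := 2 * H ^ 2) (le_trans (by
    calc H * (2 * H ^ 2) ≤ H * (H * H ^ 2) := by gcongr
      _ = H ^ 4 := by ring) h)
  calc _ = H * (M / N) * (2 * H ^ 2) := by ring
    _ ≤ M := this

theorem avg_SO {H K q N' : ℕ} (h1 : 1 ≤ K) (hK : 2 * K * H ^ 2 ≤ M) (hq : 1 ≤ q) (hqH : q ≤ H)
    (hd : q ∣ M) (hN : 1 ≤ N') (F : ZMod M → ℂ) :
    lp 2 (fun x => av N' fun y => SO H K F (x + (q : ZMod M) * (y : ZMod M))) ≤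
      M / (2 * N' * K) * lp 2 F := by
  have hN' : (0 : ℝ) < N' := by exact_mod_cast hN
  have hK' : (0 : ℝ) < K := by exact_mod_cast h1
  refine lp_le_of_ft (by positivity) fun ξ => ?_
  rw [ft_av]
  simp only [ft_shift, ft_SO]
  rw [av_mul_right, norm_mul, norm_mul, ← mul_assoc]
  refine mul_le_mul_of_nonneg_right ?_ (norm_nonneg _)
  obtain ⟨θ, h2, h3⟩ := near hq hd ξ
  have h4 := (sy_le (hq.trans hqH) h1 hK ξ).2 θ (mem_Sg.2 ⟨q, hq, hqH, h2⟩)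
  have h5 := geom_le N' ((q : ZMod M) * ξ)
  have h6 : (ab (ξ - θ) : ℝ) ≤ ab ((q : ZMod M) * ξ) := by exact_mod_cast h3
  have e : ‖av N' fun y => ch (ξ * ((q : ZMod M) * (y : ZMod M)))‖ =
      ‖∑ j ∈ range N', ch ((j : ZMod M) * ((q : ZMod M) * ξ))‖ / N' := by
    rw [av, norm_smul, norm_inv, Real.norm_natCast, div_eq_inv_mul]
    congr 2
    exact sum_congr rfl fun j _ => by congr 1; ring
  rw [e]
  calc _ ≤ ‖∑ j ∈ range N', ch ((j : ZMod M) * ((q : ZMod M) * ξ))‖ / N' *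
        (ab ((q : ZMod M) * ξ) / K) := by
        gcongr
        exact h4.trans (by gcongr)
    _ = 2 * ab ((q : ZMod M) * ξ) * ‖∑ j ∈ range N', ch ((j : ZMod M) * ((q : ZMod M) * ξ))‖ /
        (2 * N' * K) := by field_simp
    _ ≤ _ := by gcongr

/-- truncation -/
def cut {Z : Type} (t : ℝ) (ψ : Z → ℂ) (x : Z) : ℂ := if ‖ψ x‖ ≤ t then ψ x else 0

theorem norm_cut {Z : Type} {t : ℝ} (ht : 0 ≤ t) (ψ : Z → ℂ) (x : Z) : ‖cut t ψ x‖ ≤ t := by
  unfold cut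
  split_ifs with h
  · exact h
  · simpa using ht

theorem norm_sub_cut {Z : Type} (t : ℝ) (ψ : Z → ℂ) (x : Z) : ‖ψ x - cut t ψ x‖ ≤ ‖ψ x‖ := by
  unfold cut
  split_ifs <;> simp

theorem sum_cut {Z : Type} [Fintype Z] {t : ℝ} (ht : 0 ≤ t) (k : ℕ) (ψ : Z → ℂ) :
    t ^ k * ∑ x, ‖ψ x - cut t ψ x‖ ≤ ∑ x, ‖ψ x‖ ^ (k + 1) := by
  rw [mul_sum]
  refine sum_le_sum fun x _ => ?_
  unfold cut
  split_ifs with h
  · simp only [sub_self, norm_zero, mul_zero]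
    positivity
  · rw [sub_zero, pow_succ]
    gcongr
    exact (not_le.1 h).le

theorem lp_nat {Z : Type} [Fintype Z] (k : ℕ) (F : Z → ℂ) :
    lp ((k + 1 : ℕ) : ℝ) F ^ (k + 1) = ∑ x, ‖F x‖ ^ (k + 1) := by
  have := lp_rpow (p := ((k + 1 : ℕ) : ℝ)) (by positivity) F
  simpa only [Real.rpow_natCast] using this

theorem sum_pow_le {Z : Type} [Fintype Z] (k : ℕ) {φ : Z → ℂ} (h : ∀ x, ‖φ x‖ ≤ 1) :
    ∑ x, ‖φ x‖ ^ (k + 1) ≤ ∑ x, ‖φ x‖ := sum_le_sum fun x _ => by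
  rw [pow_succ]
  exact mul_le_of_le_one_left (norm_nonneg _) (pow_le_one₀ (norm_nonneg _) (h x))

theorem win_sum {W : ℕ} (hW : W ≤ M) (a : ZMod M) (h Φ : ZMod M → ℂ) :
    ∑ z, win W a h z * Φ z = ∑ x ∈ range W, h (a + x) * Φ (a + x) := by
  rw [← sum_win hW a fun z => h z * Φ z]
  refine sum_congr rfl fun z _ => ?_
  unfold win
  split_ifs <;> simp

theorem ls (hI : StInv) (hQ : StIW) (P : ℤ[X]) (hP : 2 ≤ P.natDegree) :
    ∃ (m C₀ : ℕ) (u₀ : ℝ), 1 ≤ m ∧ 4 ≤ C₀ ∧ 2 ≤ u₀ ∧ ∀ (M : ℕ) [NeZero M] (H N : ℕ) (u : ℝ)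
      (a : ZMod M) (h g : ZMod M → ℂ), u₀ ≤ u → u ^ m = H → H ^ C₀ ≤ N →
      Dv M (2 * N ^ P.natDegree) → (∀ x, ‖h x‖ ≤ 1) → (∀ x, ‖g x‖ ≤ 1) →
      lp 2 (SO H (H * (M / N)) (phi P N (win (N ^ P.natDegree) a h) g)) ^ 2 ≤
        (N : ℝ) ^ P.natDegree / u ^ 5 := by
  obtain ⟨C, hC1, hC⟩ := hI P hP
  obtain ⟨a₀, R, C₂, ha₀, hC₂, hq⟩ := hQ ((11 * C + 1 : ℕ) : ℝ) (((22 * C + 1 : ℕ) : ℝ)⁻¹)
    (by exact_mod_cast (by omega)) (by positivity)
  refine ⟨22 * C + 1, 2 * R + 4, 2 + C₂, by omega, by omega, by linarith, ?_⟩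
  intro M _ H N u a h g hu hH hN hD hh hg
  have u2 : 2 ≤ u := by linarith
  have u1 : 1 ≤ u := by linarith
  have u0 : 0 < u := by linarith
  have H2 : 2 ≤ H := by
    have : (2 : ℝ) ≤ H := hH ▸ u2.trans (le_self_pow₀ u1 (by omega))
    exact_mod_cast this
  have hHN : H ^ 4 ≤ N := (Nat.pow_le_pow_right (by omega) (by omega)).trans hN
  have hHN1 : H ≤ N := (Nat.le_self_pow (by omega) H).trans hHN
  obtain ⟨s1, s2, s3, s4⟩ := setup (by omega) (by omega) hD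
  have hKN : ((H * (M / N) : ℕ) : ℝ) * N = H * M := by
    have : H * (M / N) * N = H * M := by rw [mul_assoc, s3]
    exact_mod_cast this
  have hK1 : 1 ≤ H * (M / N) := Nat.mul_pos (by omega) s4
  have hK2 := K2le (M := M) H2 hHN
  have hK4 : H * (M / N) * (2 * H) ^ R ≤ M := Kle (le_trans (by
    calc H * (2 * H) ^ R ≤ H ^ 4 * (H * H) ^ R := by
          gcongr
          exact Nat.le_self_pow (by omega) H
      _ = H ^ (2 * R + 4) := by ring) hN)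
  generalize H * (M / N) = K at hKN hK1 hK2 hK4 ⊢
  have hK3 : 2 * K ≤ M := le_trans (Nat.le_mul_of_pos_right _ (by positivity)) hK2
  have hS : ∀ F : ZMod M → ℂ,
      lp ((11 * C + 1 : ℕ) : ℝ) (SO H K F) ≤ u ^ 2 * lp ((11 * C + 1 : ℕ) : ℝ) F := by
    intro F
    have h1 := hq M H K (fej K) 1 (by omega) hK1 hK4 (band_fej hK1 hK3) (fun f => by
      refine (lp_conv_le ha₀.le _ f).trans (le_of_eq ?_)
      have := sum_norm_fej hK1 hK3 0
      simp only [add_zero] at this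
      rw [this]) F
    rw [← hH, Real.pow_rpow_inv_natCast u0.le (by omega)] at h1
    have h2 := lp_sub_le (p := ((11 * C + 1 : ℕ) : ℝ)) (by exact_mod_cast (by omega)) F
      (TT (Sg M H) (cx (fej K)) F)
    have h3 := lp_nonneg ((11 * C + 1 : ℕ) : ℝ) F
    refine h2.trans ?_
    have h4 : 1 + C₂ * u ≤ u ^ 2 := by nlinarith
    nlinarith
  have hW0 : (0 : ℝ) < (N : ℝ) ^ P.natDegree := by
    have : (0 : ℝ) < N := by exact_mod_cast (by omega)
    positivity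
  have hφ1 := norm_phi (P := P) (N := N) (norm_win (W := N ^ P.natDegree) (a := a) hh) hg
  have hφ2 := (sum_norm_phi (P := P) (N := N) hg).trans
    (sum_norm_win (W := N ^ P.natDegree) (by omega) a hh)
  have hφ3 := fun f => tri P N (win (N ^ P.natDegree) a h) f g
  rw [Nat.cast_pow] at hφ2
  generalize phi P N (win (N ^ P.natDegree) a h) g = φ at hφ1 hφ2 hφ3 ⊢
  obtain ⟨F, hF⟩ : ∃ F : ZMod M → ℂ, F = fun x => conj (SO H K φ x) := ⟨_, rfl⟩
  have hFn : ∀ p, lp p F = lp p (SO H K φ) := fun p => lp_congr fun x => by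
    rw [hF, Complex.norm_conj]
  have e1 : ‖∑ y, SO H K F y * φ y‖ = lp 2 (SO H K φ) ^ 2 := by
    rw [← SO_symm, lp_two_sq, hF]
    simp only [Complex.conj_mul']
    rw [← Real.norm_of_nonneg (sum_nonneg fun x _ => sq_nonneg ‖SO H K φ x‖), ← Complex.norm_real]
    push_cast
    rfl
  have e2 : lp 2 F ^ 2 ≤ (N : ℝ) ^ P.natDegree := by
    rw [hFn]
    refine (pow_le_pow_left₀ (lp_nonneg _ _) (lp_SO (by omega) hK1 hK2 φ) 2).trans ?_
    rw [lp_two_sq]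
    exact (sum_pow_le 1 hφ1).trans hφ2
  have hψ : ∑ x, ‖SO H K F x‖ ^ (11 * C + 1) ≤ (u ^ 4) ^ (11 * C + 1) * (N : ℝ) ^ P.natDegree := by
    have h1 : lp ((11 * C + 1 : ℕ) : ℝ) (SO H K F) ≤ u ^ 4 * lp ((11 * C + 1 : ℕ) : ℝ) φ := by
      refine (hS F).trans ?_
      rw [hFn, show u ^ 4 = u ^ 2 * u ^ 2 by ring, mul_assoc]
      exact mul_le_mul_of_nonneg_left (hS φ) (by positivity)
    rw [← lp_nat]
    refine (pow_le_pow_left₀ (lp_nonneg _ _) h1 _).trans ?_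
    rw [mul_pow, lp_nat]
    exact mul_le_mul_of_nonneg_left ((sum_pow_le _ hφ1).trans hφ2) (by positivity)
  have hE := (sum_cut (t := u ^ 5) (by positivity) (11 * C) (SO H K F)).trans hψ
  have hav := fun q N' h1 h2 h3 h4 => avg_SO (q := q) (N' := N') hK1 hK2 h1 h2 h3 h4 F
  generalize SO H K F = ψ at e1 hE hav
  clear hψ hS hq
  obtain ⟨v, hv⟩ : ∃ v, v = u ^ (11 * C) := ⟨_, rfl⟩
  have v0 : 0 < v := by rw [hv]; positivity
  have v1 : u ^ 11 ≤ v := by rw [hv]; exact pow_le_pow_right₀ u1 (by omega)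
  have hH' : (H : ℝ) = v ^ 2 * u := by rw [← hH, hv]; ring
  obtain ⟨E, hEd⟩ : ∃ E, E = ∑ x, ‖ψ x - cut (u ^ 5) ψ x‖ := ⟨_, rfl⟩
  have hE' : v * E ≤ u ^ 4 * (N : ℝ) ^ P.natDegree := by
    rw [← hEd, show (u ^ 5) ^ (11 * C) = v ^ 4 * v by rw [hv]; ring,
      show (u ^ 4) ^ (11 * C + 1) = v ^ 4 * u ^ 4 by rw [hv]; ring, mul_assoc, mul_assoc] at hE
    exact le_of_mul_le_mul_left hE (by positivity)
  have E0 : 0 ≤ E := by rw [hEd]; positivity
  obtain ⟨f₀, hf₀⟩ : ∃ f₀ : ZMod M → ℂ, ∀ x, f₀ x = (((u ^ 5)⁻¹ : ℝ) : ℂ) * cut (u ^ 5) ψ x :=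
    ⟨_, fun _ => rfl⟩
  have nrm : ∀ z : ℂ, ‖(((u ^ 5)⁻¹ : ℝ) : ℂ) * z‖ = ‖z‖ / u ^ 5 := fun z => by
    rw [norm_mul, Complex.norm_real, Real.norm_of_nonneg (by positivity), div_eq_inv_mul]
  have hδ : (u ^ 11)⁻¹⁻¹ ^ C = v := by rw [inv_inv, hv, pow_mul]
  have hδ' : (u ^ 11)⁻¹ ^ C = v⁻¹ := by rw [inv_pow, hv, pow_mul]
  have vH : v ≤ H := by
    rw [← hH, hv]
    exact pow_le_pow_right₀ u1 (by omega)
  have hHN' : (H : ℝ) ≤ N := by exact_mod_cast hHN1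
  by_contra hc
  rw [not_le, ← e1] at hc
  have e3 : (u ^ 11)⁻¹ * (N : ℝ) ^ P.natDegree ≤ ‖∑ y, f₀ y * φ y‖ := by
    have h1 : ∑ y, f₀ y * φ y = (((u ^ 5)⁻¹ : ℝ) : ℂ) *
        (∑ y, ψ y * φ y - ∑ y, (ψ y - cut (u ^ 5) ψ y) * φ y) := by
      rw [← sum_sub_distrib, mul_sum]
      refine sum_congr rfl fun y _ => ?_
      rw [hf₀]
      ring
    have h2 : ‖∑ y, (ψ y - cut (u ^ 5) ψ y) * φ y‖ ≤ E := by
      rw [hEd]
      refine (norm_sum_le _ _).trans (sum_le_sum fun y _ => ?_)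
      rw [norm_mul]
      exact mul_le_of_le_one_right (norm_nonneg _) (hφ1 y)
    have h3 := norm_sub_norm_le (∑ y, ψ y * φ y) (∑ y, (ψ y - cut (u ^ 5) ψ y) * φ y)
    rw [h1, nrm, le_div_iff₀ (by positivity)]
    generalize (N : ℝ) ^ P.natDegree = W at *
    have h4 : E ≤ W / u ^ 7 := by
      rw [le_div_iff₀ (by positivity)]
      refine le_of_mul_le_mul_left ?_ (by positivity : 0 < u ^ 4)
      calc u ^ 4 * (E * u ^ 7) = u ^ 11 * E := by ring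
        _ ≤ v * E := by gcongr
        _ ≤ _ := hE'
    have h5 : (u ^ 11)⁻¹ * W * u ^ 5 + W / u ^ 7 ≤ W / u ^ 5 := by
      rw [show (u ^ 11)⁻¹ * W * u ^ 5 + W / u ^ 7 = W / u ^ 7 * (u + 1) by field_simp,
        show W / u ^ 5 = W / u ^ 7 * u ^ 2 by field_simp]
      gcongr
      nlinarith
    linarith
  obtain ⟨q, N', q1, q2, q3, q4⟩ := hC N (u ^ 11)⁻¹ (fun x => h (a + (x : ZMod M)))
    (fun x => f₀ (a + (x : ZMod M))) (fun x => g (a + (x : ZMod M))) (by positivity)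
    (by rw [one_div]; exact inv_anti₀ two_pos (u2.trans (le_self_pow₀ u1 (by omega))))
    (by rw [hδ]; linarith) (fun _ => hh _)
    (fun _ => by rw [hf₀, nrm]; exact div_le_one_of_le₀ (norm_cut (by positivity) _ _) (by positivity))
    (fun _ => hg _) (by
      refine e3.trans (le_of_eq ?_)
      rw [← hφ3, win_sum (by omega)]
      simp only [AA, pe, eval_X, Int.cast_add, Int.cast_natCast, add_assoc])
  rw [hδ] at q2
  rw [hδ'] at q3 q4
  have qH : q ≤ H := by exact_mod_cast q2.trans vH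
  have N0 : (0 : ℝ) < N := by exact_mod_cast (by omega)
  have N'0 : (0 : ℝ) < N' := lt_of_lt_of_le (by positivity) q3
  have hA := hav q N' q1 qH (hD q q1 (by omega)) (by exact_mod_cast N'0)
  obtain ⟨A, hAd⟩ : ∃ A : ZMod M → ℂ,
      A = fun x => av N' fun y => ψ (x + (q : ZMod M) * (y : ZMod M)) := ⟨_, rfl⟩
  rw [← hAd] at hA
  obtain ⟨B, hBd⟩ : ∃ B : ZMod M → ℝ, B = fun x => av N' fun y =>
      ‖ψ (x + (q : ZMod M) * (y : ZMod M)) - cut (u ^ 5) ψ (x + (q : ZMod M) * (y : ZMod M))‖ :=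
    ⟨_, rfl⟩
  have hB : ∑ x ∈ range (2 * N ^ P.natDegree), B (a + x) ≤ E := by
    refine (sum_range_le s1 a fun z => ?_).trans ?_
    · rw [hBd]
      exact av_nonneg fun _ _ => norm_nonneg _
    · rw [hBd, sum_avr]
      refine av_le E0 fun y _ => le_of_eq ?_
      rw [hEd]
      exact Equiv.sum_comp (Equiv.addRight ((q : ZMod M) * (y : ZMod M)))
        fun x => ‖ψ x - cut (u ^ 5) ψ x‖
  have K0 : (0 : ℝ) < K := by exact_mod_cast hK1
  have hb : (M : ℝ) / (2 * N' * K) ≤ 1 / (2 * v * u) := by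
    rw [div_le_div_iff₀ (by positivity) (by positivity)]
    refine le_of_mul_le_mul_left ?_ v0
    have h1 : (N : ℝ) ≤ v * N' := by
      have := mul_le_mul_of_nonneg_left q3 v0.le
      rwa [mul_inv_cancel_left₀ v0.ne'] at this
    calc v * (M * (2 * v * u)) = 2 * (H * M) := by rw [hH']; ring
      _ = 2 * (K * N) := by rw [hKN]
      _ ≤ 2 * (K * (v * N')) := by gcongr
      _ = _ := by ring
  have hA2 : ∑ x ∈ range (2 * N ^ P.natDegree), ‖A (a + x)‖ ≤ (N : ℝ) ^ P.natDegree / (v * u) := by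
    refine le_of_sq_le_sq (sq_sum_le_card_mul_sum_sq.trans ?_) (by positivity)
    have h1 := sum_range_le s1 a (Φ := fun z => ‖A z‖ ^ 2) fun z => sq_nonneg _
    rw [← lp_two_sq] at h1
    have h2 : lp 2 A ^ 2 ≤ (1 / (2 * v * u)) ^ 2 * (N : ℝ) ^ P.natDegree := by
      refine (pow_le_pow_left₀ (lp_nonneg _ _) hA 2).trans ?_
      rw [mul_pow]
      gcongr
    rw [card_range]
    push_cast
    calc _ ≤ 2 * (N : ℝ) ^ P.natDegree * ((1 / (2 * v * u)) ^ 2 * (N : ℝ) ^ P.natDegree) := by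
          gcongr
          exact h1.trans h2
      _ = ((N : ℝ) ^ P.natDegree / (v * u)) ^ 2 / 2 := by field_simp
      _ ≤ _ := half_le_self (sq_nonneg _)
  have q5 : v⁻¹ * (N : ℝ) ^ P.natDegree ≤ ((N : ℝ) ^ P.natDegree / (v * u) + E) / u ^ 5 := by
    refine q4.trans (le_trans ?_ (div_le_div_of_nonneg_right (add_le_add hA2 hB) (by positivity)))
    rw [← sum_add_distrib, sum_div]
    refine sum_le_sum fun x _ => ?_
    simp only [hf₀, Int.cast_add, Int.cast_mul, Int.cast_natCast, ← add_assoc]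
    rw [av_mul_left, nrm]
    refine div_le_div_of_nonneg_right ?_ (by positivity)
    rw [av_congr (ψ := fun y => ψ (a + x + (q : ZMod M) * (y : ZMod M)) -
      (ψ (a + x + (q : ZMod M) * (y : ZMod M)) - cut (u ^ 5) ψ (a + x + (q : ZMod M) * (y : ZMod M))))
      fun y _ => by ring, av_sub, hAd, hBd]
    exact (norm_sub_le _ _).trans (add_le_add le_rfl (norm_av_le _ _))
  generalize (N : ℝ) ^ P.natDegree = W at *
  rw [le_div_iff₀ (by positivity)] at q5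
  have h1 := mul_le_mul_of_nonneg_left q5 v0.le
  rw [show v * (v⁻¹ * W * u ^ 5) = W * u ^ 5 by field_simp,
    show v * (W / (v * u) + E) = W / u + v * E by field_simp] at h1
  have h2 : W / u ≤ W := div_le_self hW0.le u1
  have h3 : 1 + u ^ 4 < u ^ 5 := by
    have : 2 ≤ u ^ 4 := u2.trans (le_self_pow₀ u1 (by omega))
    nlinarith
  nlinarith

end

end Pool.Agent.Lib.MP_10e396_an.SSJ
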