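import Pool.Agent.Lib.MP_10e396_an.SSB

/-! The single scale estimate when the first function lives on the minor arcs. -/

set_option autoImplicit false

namespace Pool.Agent.Lib.MP_10e396_an.SSJ

open Finset Polynomial ComplexConjugate

noncomputable section

variable {M : ℕ} [NeZero M]

theorem imp (hW : StWeyl) (hC : StCount) (R : ℤ[X]) (hR : 1 ≤ R.natDegree) :
    ∃ (C : ℕ) (A : ℝ), 0 ≤ A ∧ ∀ (M : ℕ) [NeZero M] (N : ℕ) (v : ℝ) (G : ZMod M → ℂ), 2 ≤ v →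
      1 ≤ N → N ^ R.natDegree ≤ M →
      lp 2 (fun y : ZMod M => av N fun n => G (y + pe R n)) ^ 2 ≤
        lp 2 G ^ 2 / v ^ 2 + A * v ^ (3 * C) / (N : ℝ) ^ R.natDegree * (∑ y, ‖G y‖) ^ 2 := by
  obtain ⟨C, hC'⟩ := weylZ hW hR
  refine ⟨C, 6 * (R.leadingCoeff.natAbs : ℝ) ^ 2, by positivity, ?_⟩
  intro M _ N v G hv hN hM
  have v0 : 0 < v := by linarith
  have hM0 := Mpos M
  have W0 : (0 : ℝ) < (N : ℝ) ^ R.natDegree := by
    have : (0 : ℝ) < N := by exact_mod_cast hN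
    positivity
  have hM' : (N : ℝ) ^ R.natDegree ≤ M := by exact_mod_cast hM
  have ha : 1 ≤ R.leadingCoeff.natAbs :=
    Int.natAbs_pos.2 (leadingCoeff_ne_zero.2 fun h => by simp [h] at hR)
  obtain ⟨bad, hb1, hb2⟩ : ∃ bad : Finset (ZMod M), (bad.card : ℝ) ≤
      2 * ((⌊v ^ C⌋₊ * R.leadingCoeff.natAbs : ℕ) : ℝ) ^ 2 *
        (2 * (v ^ C / (N : ℝ) ^ R.natDegree) * M + 1) ∧
      ∀ β : ZMod M, (∃ q : ℕ, 1 ≤ q ∧ q ≤ ⌊v ^ C⌋₊ * R.leadingCoeff.natAbs ∧
        nd (q * (β.val : ℝ) / M) ≤ v ^ C / (N : ℝ) ^ R.natDegree) → β ∈ bad := by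
    classical
    exact ⟨_, hC M _ _ (by positivity), fun β h => mem_filter.2 ⟨mem_univ _, h⟩⟩
  have hb3 : (bad.card : ℝ) ≤
      M * (6 * (R.leadingCoeff.natAbs : ℝ) ^ 2 * v ^ (3 * C) / (N : ℝ) ^ R.natDegree) := by
    refine hb1.trans ?_
    have h1 : ((⌊v ^ C⌋₊ : ℕ) : ℝ) ≤ v ^ C := Nat.floor_le (by positivity)
    have h2 : 1 ≤ v ^ C / (N : ℝ) ^ R.natDegree * M := by
      rw [div_mul_eq_mul_div, le_div_iff₀ W0, one_mul]
      exact hM'.trans (le_mul_of_one_le_left hM0.le (one_le_pow₀ (by linarith)))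
    push_cast [Nat.cast_mul]
    calc _ ≤ 2 * (v ^ C * (R.leadingCoeff.natAbs : ℝ)) ^ 2 *
          (3 * (v ^ C / (N : ℝ) ^ R.natDegree * M)) := by
          gcongr
          linarith
      _ = _ := by ring
  have key : ∀ ξ, ‖ft (fun y : ZMod M => av N fun n => G (y + pe R n)) ξ‖ ^ 2 ≤
      ‖ft G ξ‖ ^ 2 / v ^ 2 + if ξ ∈ bad then (∑ y, ‖G y‖) ^ 2 else 0 := by
    intro ξ
    rw [ft_av]
    simp only [ft_shift]
    rw [av_mul_right, norm_mul]
    have h1 : ‖av N fun n => ch (ξ * pe R n)‖ ≤ 1 :=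
      norm_av_le' zero_le_one fun n _ => (norm_ch _).le
    split_ifs with hξ
    · refine le_add_of_nonneg_of_le (by positivity) (pow_le_pow_left₀ (by positivity) ?_ 2)
      exact (mul_le_of_le_one_left (norm_nonneg _) h1).trans (norm_ft_le G ξ)
    · have h2 : ‖av N fun n => ch (ξ * pe R n)‖ ≤ v⁻¹ := by
        by_contra hc
        obtain ⟨q, q1, q2, q3⟩ := hC' M (Polynomial.C (ξ.val : ℤ) * R) N v R.leadingCoeff ξ
          (natDegree_C_mul_le _ _) (by rw [coeff_C_mul, coeff_natDegree]) hN hv (by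
            refine (not_le.1 hc).le.trans (le_of_eq ?_)
            congr 2
            funext t
            simp only [pe, eval_mul, eval_C, Int.cast_mul, Int.cast_natCast, ZMod.natCast_zmod_val])
        exact hξ (hb2 ξ ⟨_, Nat.mul_pos q1 ha, Nat.mul_le_mul_right _ (Nat.le_floor q2), q3⟩)
      rw [add_zero, ← div_pow, div_eq_inv_mul]
      gcongr
  refine le_of_mul_le_mul_left ?_ hM0
  rw [lp_two_sq, ← parseval]
  refine (sum_le_sum fun ξ _ => key ξ).trans ?_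
  rw [sum_add_distrib, ← sum_div, parseval, sum_ite_mem, univ_inter, sum_const, nsmul_eq_mul,
    lp_two_sq, mul_add, mul_div_assoc, ← mul_assoc]
  gcongr

theorem eval_le (P : ℤ[X]) :
    ∃ c : ℕ, ∀ N n : ℕ, n < N → (P.eval (n : ℤ)).natAbs ≤ c * N ^ P.natDegree := by
  refine ⟨∑ i ∈ range (P.natDegree + 1), (P.coeff i).natAbs, fun N n h => ?_⟩
  rw [eval_eq_sum_range, sum_mul]
  refine (Int.natAbs_sum_le _ _).trans (sum_le_sum fun i hi => ?_)
  rw [Int.natAbs_mul, Int.natAbs_pow, Int.natAbs_natCast]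
  refine Nat.mul_le_mul_left _ ((Nat.pow_le_pow_left h.le i).trans ?_)
  exact Nat.pow_le_pow_right (by omega) (Nat.lt_succ_iff.1 (mem_range.1 hi))

theorem phi_loc {P : ℤ[X]} {N W R c : ℕ} (hc : ∀ n < N, (P.eval (n : ℤ)).natAbs ≤ c)
    (hR : W + c ≤ R) (a : ZMod M) (h g : ZMod M → ℂ) :
    phi P N (win W a h) g = phi P N (win W a h) (loc R a g) := by
  funext y
  refine av_congr fun n hn => ?_
  by_cases h0 : win W a h (y - (n : ZMod M)) = 0
  · rw [h0, zero_mul, zero_mul]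
  · have h1 := win_ab h0
    have h2 := ab_add_le (y - (n : ZMod M) - a) (pe P n)
    have h3 := (ab_intCast_le (M := M) (P.eval (n : ℤ))).trans (hc n hn)
    rw [show y - (n : ZMod M) - a + pe P n = y - (n : ZMod M) + pe P n - a by ring] at h2
    rw [loc, if_pos (h2.trans (by unfold pe; omega))]

/-- the far part of the kernel -/
def far (H K W : ℕ) (t : ZMod M) : ℝ := if W ≤ ab t then (H : ℝ) ^ 2 * fej K t else 0

theorem far_nonneg (H K W : ℕ) (t : ZMod M) : 0 ≤ far H K W t := by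
  have := fej_nonneg K t
  unfold far
  split_ifs <;> positivity

def fF (H K W : ℕ) (f : ZMod M → ℂ) : ZMod M → ℂ :=
  conv (cx (far H K W)) fun z => ((‖f z‖ : ℝ) : ℂ)

theorem lp_fF {H K W : ℕ} (h1 : 1 ≤ K) (hK : K ≤ M) (hW : 1 ≤ W) (f : ZMod M → ℂ) :
    lp 2 (fF H K W f) ≤ (H : ℝ) ^ 2 * (4 * ((M : ℝ) / K) / W) * lp 2 f := by
  refine (lp_conv_le one_le_two _ _).trans ?_
  rw [lp_congr (g := f) fun x => by rw [Complex.norm_real, norm_norm]]
  refine mul_le_mul_of_nonneg_right ?_ (lp_nonneg _ _)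
  refine le_trans (le_of_eq ?_) (mul_le_mul_of_nonneg_left (tail_fej h1 hK hW) (sq_nonneg _))
  rw [mul_sum, sum_filter]
  refine sum_congr rfl fun t _ => ?_
  rw [cx, Complex.norm_real, Real.norm_of_nonneg (far_nonneg _ _ _ _), far]

theorem norm_fF (H K W : ℕ) (f : ZMod M → ℂ) (y : ZMod M) :
    ‖fF H K W f y‖ = ∑ z, far H K W (y - z) * ‖f z‖ := by
  have : fF H K W f y = ((∑ z, far H K W (y - z) * ‖f z‖ : ℝ) : ℂ) := by
    simp [fF, conv, cx]
  rw [this, Complex.norm_real, Real.norm_of_nonneg]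
  exact sum_nonneg fun z _ => mul_nonneg (far_nonneg _ _ _ _) (norm_nonneg _)

theorem cs2 (f g : ZMod M → ℂ) : ‖∑ x, f x * g x‖ ≤ lp 2 f * lp 2 g :=
  (norm_sum_le _ _).trans ((sum_congr rfl fun _ _ => norm_mul _ _).le.trans (sum_mul_le_two f g))

theorem loc_sum {R R' : ℕ} {a : ZMod M} {φ : ZMod M → ℂ} (hφ : ∀ y, φ y ≠ 0 → ab (y - a) ≤ R')
    (hR : R' ≤ R) (f : ZMod M → ℂ) : ∑ y, f y * φ y = ∑ y, loc R a f y * φ y := by
  refine sum_congr rfl fun y _ => ?_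
  by_cases h0 : φ y = 0
  · rw [h0, mul_zero, mul_zero]
  · rw [loc, if_pos ((hφ y h0).trans hR)]

theorem part1 {H K W R : ℕ} {a : ZMod M} {f φ : ZMod M → ℂ}
    (hf : TT (Sg M H) (cx (fej K)) f = fun _ => 0) (hφ : ∀ y, φ y ≠ 0 → ab (y - a) ≤ 2 * W)
    (hR : 3 * W ≤ R) :
    ‖∑ y, f y * φ y‖ ≤
      lp 2 (loc R a f) * lp 2 (SO H K φ) + lp 2 (loc R a (fF H K W f)) * lp 2 φ := by
  have e : ∑ y, f y * φ y = ∑ y, loc R a f y * SO H K φ y +
      ∑ y, TT (Sg M H) (cx (fej K)) (loc R a f) y * φ y := by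
    rw [loc_sum hφ (by omega : 2 * W ≤ R), ← TT_symm, ← sum_add_distrib]
    refine sum_congr rfl fun y _ => ?_
    unfold SO
    ring
  rw [e]
  refine (norm_add_le _ _).trans (add_le_add (cs2 _ _) ?_)
  refine (norm_sum_le _ _).trans (le_trans (sum_le_sum fun y _ => ?_) (sum_mul_le_two _ _))
  rw [norm_mul]
  by_cases h0 : φ y = 0
  · simp [h0]
  refine mul_le_mul_of_nonneg_right ?_ (norm_nonneg _)
  have h1 := hφ y h0
  have h2 := congrFun hf y
  rw [TT_eq] at h2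
  rw [loc, if_pos (by omega), norm_fF, TT_eq, ← sub_zero (∑ z, _), ← h2, ← sum_sub_distrib]
  refine (norm_sum_le _ _).trans (sum_le_sum fun z _ => ?_)
  unfold loc
  split_ifs with h3
  · rw [sub_self, norm_zero]
    exact mul_nonneg (far_nonneg _ _ _ _) (norm_nonneg _)
  · have h4 := ab_sub_le (y - a) (y - z)
    rw [show y - a - (y - z) = z - a by ring] at h4
    rw [mul_zero, zero_sub, norm_neg, norm_mul, far, if_pos (by omega)]
    exact mul_le_mul_of_nonneg_right (norm_kk _ _ _) (norm_nonneg _)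

omit [NeZero M] in
theorem norm_phi_le {P : ℤ[X]} {N : ℕ} {h : ZMod M → ℂ} (hh : ∀ x, ‖h x‖ ≤ 1) (g : ZMod M → ℂ)
    (y : ZMod M) :
    ‖phi P N h g y‖ ≤ ‖av N fun n => ((‖g (y + pe (P - X) n)‖ : ℝ) : ℂ)‖ := by
  have e : (av N fun n => ((‖g (y + pe (P - X) n)‖ : ℝ) : ℂ)) =
      ((av N fun n => ‖g (y + pe (P - X) n)‖ : ℝ) : ℂ) := by simp [av]
  rw [e, Complex.norm_real, Real.norm_of_nonneg (av_nonneg fun _ _ => norm_nonneg _)]
  refine (norm_av_le _ _).trans (av_mono fun n _ => ?_)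
  have : y - (n : ZMod M) + pe P n = y + pe (P - X) n := by
    simp only [pe, eval_sub, eval_X, Int.cast_sub, Int.cast_natCast]
    ring
  rw [norm_mul, this]
  exact mul_le_of_le_one_left (norm_nonneg _) (hh _)

theorem locl {P : ℤ[X]} {N H K W R C : ℕ} {a : ZMod M} {f h : ZMod M → ℂ} {v A : ℝ}
    (G : ZMod M → ℂ) (hv : 1 ≤ v) (hA : 0 ≤ A) (hW : 1 ≤ W) (hWM : W ≤ M) (hNW : N ≤ W)
    (hR : 3 * W ≤ R) (hh : ∀ x, ‖h x‖ ≤ 1) (hf : TT (Sg M H) (cx (fej K)) f = fun _ => 0)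
    (hL : ∀ g : ZMod M → ℂ, (∀ x, ‖g x‖ ≤ 1) →
      lp 2 (SO H K (phi P N (win W a h) g)) ^ 2 ≤ W / (v ^ (C + 1)) ^ 5)
    (hI : ∀ G : ZMod M → ℂ, lp 2 (fun y => av N fun n => G (y + pe (P - X) n)) ^ 2 ≤
      lp 2 G ^ 2 / v ^ 2 + A * v ^ (3 * C) / W * (∑ y, ‖G y‖) ^ 2) :
    ‖∑ y, f y * phi P N (win W a h) G y‖ ≤ lp 2 G *
      ((2 + A) / v * lp 2 (loc R a f) + v ^ (2 * C + 1) * lp 2 (loc R a (fF H K W f))) := by
  have v0 : 0 < v := by linarith
  have α0 := lp_nonneg 2 (loc R a f)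
  have β0 := lp_nonneg 2 (loc R a (fF H K W f))
  rcases (lp_nonneg 2 G).eq_or_lt with h0 | γ0
  · have : ∀ y, phi P N (win W a h) G y = 0 := by
      intro y
      have : ∀ x, G x = 0 := fun x => norm_le_zero_iff.1 (h0 ▸ norm_le_lp two_pos G x)
      simp [phi, this, av]
    simp [this, ← h0]
  have W0 : (0 : ℝ) < W := by exact_mod_cast hW
  obtain ⟨w, w0, hw⟩ : ∃ w : ℝ, 0 < w ∧ w ^ 2 = W := ⟨√W, Real.sqrt_pos.2 W0, Real.sq_sqrt W0.le⟩
  obtain ⟨τ, hτ⟩ : ∃ τ, τ = v ^ (2 * C + 1) * lp 2 G / w := ⟨_, rfl⟩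
  have τ0 : 0 < τ := by rw [hτ]; positivity
  have sup : ∀ g y, phi P N (win W a h) g y ≠ 0 → ab (y - a) ≤ 2 * W := fun g y hy =>
    (phi_ab hy).trans (by omega)
  obtain ⟨g₀, hg₀⟩ : ∃ g₀ : ZMod M → ℂ, ∀ x, g₀ x = ((τ⁻¹ : ℝ) : ℂ) * cut τ G x :=
    ⟨_, fun _ => rfl⟩
  have hg1 : ∀ x, ‖g₀ x‖ ≤ 1 := fun x => by
    rw [hg₀, norm_mul, Complex.norm_real, Real.norm_of_nonneg (by positivity), ← div_eq_inv_mul]
    exact div_le_one_of_le₀ (norm_cut τ0.le _ _) τ0.le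
  have e : ∑ y, f y * phi P N (win W a h) G y = (τ : ℂ) * ∑ y, f y * phi P N (win W a h) g₀ y +
      ∑ y, f y * phi P N (win W a h) (fun x => G x - cut τ G x) y := by
    rw [mul_sum, ← sum_add_distrib]
    refine sum_congr rfl fun y _ => ?_
    rw [mul_left_comm, ← mul_add]
    congr 1
    unfold phi
    rw [← av_mul_left, ← av_add]
    refine av_congr fun n _ => ?_
    have : (τ : ℂ) ≠ 0 := by exact_mod_cast τ0.ne'
    rw [hg₀]
    push_cast
    field_simp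
    ring
  have p1 := part1 (a := a) (R := R) hf (sup g₀) hR
  have a1 : lp 2 (SO H K (phi P N (win W a h) g₀)) ≤ w / v ^ (2 * C + 2) := by
    refine le_of_sq_le_sq ((hL g₀ hg1).trans ?_) (by positivity)
    rw [div_pow, hw, ← pow_mul, ← pow_mul]
    exact div_le_div_of_nonneg_left W0.le (by positivity) (pow_le_pow_right₀ hv (by omega))
  have a2 : lp 2 (phi P N (win W a h) g₀) ≤ w := by
    refine lp_two_le w0.le ?_
    rw [hw]
    exact (sum_pow_le 1 (norm_phi (norm_win hh) hg1)).trans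
      ((sum_norm_phi hg1).trans (sum_norm_win hWM a hh))
  have b1 : lp 2 (phi P N (win W a h) fun x => G x - cut τ G x) ≤ lp 2 G * ((1 + A) / v) := by
    refine (lp_mono two_pos (norm_phi_le (norm_win hh) _)).trans ?_
    have h1 := hI fun x => ((‖G x - cut τ G x‖ : ℝ) : ℂ)
    refine le_of_sq_le_sq (h1.trans ?_) (by positivity)
    have h2 : lp 2 (fun x => ((‖G x - cut τ G x‖ : ℝ) : ℂ)) ≤ lp 2 G :=
      lp_mono two_pos fun x => by
        rw [Complex.norm_real, norm_norm]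
        exact norm_sub_cut _ _ _
    have h3 : ∑ x, ‖((‖G x - cut τ G x‖ : ℝ) : ℂ)‖ ≤ lp 2 G * w / v ^ (2 * C + 1) := by
      simp only [Complex.norm_real, norm_norm]
      have := sum_cut τ0.le 1 G
      rw [← lp_two_sq, pow_one] at this
      refine le_of_mul_le_mul_left (this.trans (le_of_eq ?_)) τ0
      rw [hτ]
      field_simp
    have h4 := lp_nonneg 2 fun x => ((‖G x - cut τ G x‖ : ℝ) : ℂ)
    have h5 : v ^ (3 * C) ≤ v ^ (4 * C) := pow_le_pow_right₀ hv (by omega)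
    calc _ ≤ lp 2 G ^ 2 / v ^ 2 + A * v ^ (4 * C) / W * (lp 2 G * w / v ^ (2 * C + 1)) ^ 2 := by
          gcongr
      _ = lp 2 G ^ 2 / v ^ 2 * (1 + A) := by
          rw [← hw]
          field_simp
          ring
      _ ≤ lp 2 G ^ 2 / v ^ 2 * (1 + A) ^ 2 := by
          gcongr
          nlinarith
      _ = _ := by field_simp
  have p2 : ‖∑ y, f y * phi P N (win W a h) (fun x => G x - cut τ G x) y‖ ≤
      lp 2 (loc R a f) * (lp 2 G * ((1 + A) / v)) := by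
    rw [loc_sum (sup _) (by omega : 2 * W ≤ R)]
    exact (cs2 _ _).trans (mul_le_mul_of_nonneg_left b1 α0)
  rw [e]
  refine (norm_add_le _ _).trans ?_
  rw [norm_mul, Complex.norm_real, Real.norm_of_nonneg τ0.le]
  calc _ ≤ τ * (lp 2 (loc R a f) * (w / v ^ (2 * C + 2)) + lp 2 (loc R a (fF H K W f)) * w) +
        lp 2 (loc R a f) * (lp 2 G * ((1 + A) / v)) := by
        gcongr
        refine p1.trans ?_
        gcongr
    _ = _ := by
        rw [hτ]
        field_simp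
        ring

theorem triv (P : ℤ[X]) (N : ℕ) {h : ZMod M → ℂ} (hh : ∀ x, ‖h x‖ ≤ 1) (f g : ZMod M → ℂ) :
    ‖∑ x, h x * AA X P N f g x‖ ≤ lp 2 f * lp 2 g := by
  refine le_trans ?_ (lp_AA_le (p := 1) le_rfl two_pos two_pos (by norm_num) X P N f g)
  rw [lp_one]
  refine (norm_sum_le _ _).trans (sum_le_sum fun x _ => ?_)
  rw [norm_mul]
  exact mul_le_of_le_one_left (norm_nonneg _) (hh x)

theorem slotF0 (hI : StInv) (hQ : StIW) (hW : StWeyl) (hC : StCount) (P : ℤ[X])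
    (hP : 2 ≤ P.natDegree) : ∃ (m C₀ : ℕ) (v₀ C : ℝ), 1 ≤ m ∧ 4 ≤ C₀ ∧ 0 < v₀ ∧ 0 < C ∧
      ∀ (M : ℕ) [NeZero M] (H N : ℕ) (v : ℝ) (f g h : ZMod M → ℂ), v₀ ≤ v → v ^ m = H →
        H ^ C₀ ≤ N → Dv M (2 * N ^ P.natDegree) → Minor H (H * (M / N)) f → (∀ x, ‖h x‖ ≤ 1) →
        ‖∑ x, h x * AA X P N f g x‖ ≤ C / v * lp 2 f * lp 2 g := by
  obtain ⟨m, C₀, u₀, m1, c4, u2, hL⟩ := ls hI hQ P hP
  have hd : (P - X).natDegree = P.natDegree :=
    natDegree_sub_eq_left_of_natDegree_lt (by rw [natDegree_X]; omega)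
  obtain ⟨C, A, hA, hI'⟩ := imp hW hC (P - X) (by omega)
  rw [hd] at hI'
  obtain ⟨c, hc⟩ := eval_le P
  refine ⟨(C + 1) * m, C₀, u₀, 2 * (c + 4) * (6 + A), Nat.mul_pos (by omega) m1, c4, by linarith,
    by positivity, ?_⟩
  intro M _ H N v f g h hv hH hN hD hf hh
  have v2 : 2 ≤ v := u2.trans hv
  have v1 : 1 ≤ v := by linarith
  have v0 : 0 < v := by linarith
  have uv : v ≤ v ^ (C + 1) := le_self_pow₀ v1 (by omega)
  rw [pow_mul] at hH
  have uH : v ^ (C + 1) ≤ H := hH ▸ le_self_pow₀ (v1.trans uv) (by omega)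
  have H2 : 2 ≤ H := by exact_mod_cast v2.trans (uv.trans uH)
  have hHN : H ^ 4 ≤ N := (Nat.pow_le_pow_right (by omega) c4).trans hN
  have N1 : 1 ≤ N := (Nat.one_le_pow _ _ (by omega)).trans hHN
  obtain ⟨s1, s2, s3, s4⟩ := setup (by omega) N1 hD
  have hKN : ((H * (M / N) : ℕ) : ℝ) * N = H * M := by
    have : H * (M / N) * N = H * M := by rw [mul_assoc, s3]
    exact_mod_cast this
  have hK1 : 1 ≤ H * (M / N) := Nat.mul_pos (by omega) s4
  have hK2 := K2le (M := M) H2 hHN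
  have hL' := fun a g hg => hL M H N (v ^ (C + 1)) a h g (hv.trans uv) hH hN hD hh hg
  have hI'' := fun G => hI' M N v G v2 N1 (by omega)
  have hNW : N ^ 2 ≤ N ^ P.natDegree := Nat.pow_le_pow_right N1 hP
  have hc' := hc N
  rw [← Nat.cast_pow] at hL' hI''
  generalize N ^ P.natDegree = W at *
  generalize H * (M / N) = K at *
  have hK3 : 2 * K ≤ M := le_trans (Nat.le_mul_of_pos_right _ (by positivity)) hK2
  have hf0 := TT_minor hK1 hK3 hf
  have W0 : (0 : ℝ) < W := by exact_mod_cast (by omega)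
  have N0 : (0 : ℝ) < N := by exact_mod_cast N1
  have K0 : (0 : ℝ) < K := by exact_mod_cast hK1
  have H0 : (0 : ℝ) < H := by exact_mod_cast (by omega)
  have e : (W : ℂ) * ∑ x, h x * AA X P N f g x =
      ∑ a, ∑ y, f y * phi P N (win W a h) (loc ((c + 3) * W) a g) y := by
    simp only [← phi_loc hc' (by nlinarith : W + c * W ≤ (c + 3) * W), ← tri]
    rw [sum_comm, mul_sum]
    refine sum_congr rfl fun x _ => ?_
    rw [← sum_mul, sum_win_a (by omega), mul_assoc]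
  have hF : v ^ (2 * C + 1) * lp 2 (fF H K W f) ≤ 4 / v * lp 2 f := by
    refine (mul_le_mul_of_nonneg_left (lp_fF hK1 (by omega) (by omega) f) (by positivity)).trans ?_
    rw [← mul_assoc]
    refine mul_le_mul_of_nonneg_right ?_ (lp_nonneg _ _)
    have h1 : (M : ℝ) / K = N / H := by
      rw [div_eq_div_iff K0.ne' H0.ne']
      linarith
    have h2 : (N : ℝ) ^ 2 ≤ W := by exact_mod_cast hNW
    have h3 : (H : ℝ) ^ 3 ≤ N := by
      exact_mod_cast (Nat.pow_le_pow_right (by omega) (by omega)).trans hHN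
    rw [h1, le_div_iff₀ v0]
    calc _ = 4 * ((v ^ (C + 1)) ^ 2 * H * N) / W := by field_simp; ring
      _ ≤ 4 * ((H : ℝ) ^ 2 * H * N) / W := by gcongr
      _ ≤ 4 := by
          rw [div_le_iff₀ W0]
          nlinarith
  have f0 := lp_nonneg 2 f
  have g0 := lp_nonneg 2 g
  refine le_of_mul_le_mul_left ?_ W0
  rw [← Complex.norm_natCast, ← norm_mul, e, Complex.norm_natCast]
  refine (norm_sum_le _ _).trans ((sum_le_sum fun a _ => locl (R := (c + 3) * W) _ v1 hA (by omega)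
    (by omega) s2 (by nlinarith) hh hf0 (hL' a) hI'').trans ?_)
  simp only [mul_add, mul_left_comm (lp 2 (loc ((c + 3) * W) _ g))]
  rw [sum_add_distrib, ← mul_sum, ← mul_sum]
  have t1 := sum_loc_mul ((c + 3) * W) g f
  have t2 := sum_loc_mul ((c + 3) * W) g (fF H K W f)
  have t3 : (2 * ((((c + 3) * W : ℕ) : ℝ) + 1)) ≤ 2 * (c + 4) * W := by
    have : (1 : ℝ) ≤ W := by exact_mod_cast (by omega)
    push_cast
    linarith
  have t4 := lp_nonneg 2 (fF H K W f)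
  calc _ ≤ (2 + A) / v * (2 * (c + 4) * W * lp 2 g * lp 2 f) +
        v ^ (2 * C + 1) * (2 * (c + 4) * W * lp 2 g * lp 2 (fF H K W f)) := by
        gcongr
        · exact t1.trans (by gcongr)
        · exact t2.trans (by gcongr)
    _ = (2 + A) / v * (2 * (c + 4) * W * lp 2 g * lp 2 f) +
        2 * (c + 4) * W * lp 2 g * (v ^ (2 * C + 1) * lp 2 (fF H K W f)) := by ring
    _ ≤ (2 + A) / v * (2 * (c + 4) * W * lp 2 g * lp 2 f) +
        2 * (c + 4) * W * lp 2 g * (4 / v * lp 2 f) := by gcongr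
    _ = _ := by ring

theorem slotF (hI : StInv) (hQ : StIW) (hW : StWeyl) (hC : StCount) (P : ℤ[X])
    (hP : 2 ≤ P.natDegree) : ∃ (m C₀ : ℕ) (C : ℝ), 1 ≤ m ∧ 4 ≤ C₀ ∧ 0 < C ∧
      ∀ (M : ℕ) [NeZero M] (H N : ℕ) (v : ℝ) (f g h : ZMod M → ℂ), 0 < v → v ^ m ≤ H →
        H ^ C₀ ≤ N → Dv M (2 * N ^ P.natDegree) → Minor H (H * (M / N)) f → (∀ x, ‖h x‖ ≤ 1) →
        ‖∑ x, h x * AA X P N f g x‖ ≤ C / v * lp 2 f * lp 2 g := by
  obtain ⟨m, C₀, v₀, C, m1, c4, hv₀, hC0, key⟩ := slotF0 hI hQ hW hC P hP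
  refine ⟨m, C₀, C + v₀, m1, c4, by positivity, ?_⟩
  intro M _ H N v f g h v0 hH hN hD hf hh
  have e : ((H : ℝ) ^ (m : ℝ)⁻¹) ^ m = H := Real.rpow_inv_natCast_pow (by positivity) (by omega)
  have h1 : v ≤ (H : ℝ) ^ (m : ℝ)⁻¹ :=
    le_of_pow_le_pow_left₀ (by omega : m ≠ 0) (by positivity) (by rw [e]; exact hH)
  have f0 := lp_nonneg 2 f
  have g0 := lp_nonneg 2 g
  rcases le_total v₀ ((H : ℝ) ^ (m : ℝ)⁻¹) with h2 | h2
  · refine (key M H N _ f g h h2 e hN hD hf hh).trans ?_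
    gcongr
    linarith
  · refine (triv P N hh f g).trans ?_
    rw [mul_assoc]
    refine le_mul_of_one_le_left (by positivity) ?_
    rw [le_div_iff₀ v0]
    linarith

end

end Pool.Agent.Lib.MP_10e396_an.SSJ
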