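import Pool.Agent.Lib.MP_10e396_an.Par

/-! New denominators: common lemmas and the small scales. -/

set_option autoImplicit false

namespace Pool.Agent.Lib.MP_10e396_an

open Finset Polynomial

noncomputable section

namespace T1

theorem absorb (k : ℕ) {δ : ℝ} (hδ : 0 < δ) : ∃ C : ℝ, 0 < C ∧ ∀ h : ℕ,
    ((h : ℝ) + 1) ^ k * ((2 : ℝ) ^ h) ^ (-δ) ≤ C * ((2 : ℝ) ^ h) ^ (-(δ / 2)) := by
  have l2 : 0 < Real.log 2 := Real.log_pos one_lt_two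
  obtain ⟨a, ha⟩ : ∃ a, a = δ / 2 * Real.log 2 := ⟨_, rfl⟩
  have a0 : 0 < a := by rw [ha]; positivity
  refine ⟨k.factorial * Real.exp a / a ^ k, by positivity, fun h => ?_⟩
  have t0 : (0 : ℝ) < 2 ^ h := by positivity
  have e1 : ((2 : ℝ) ^ h) ^ (-(δ / 2)) = Real.exp (a * h) * ((2 : ℝ) ^ h) ^ (-δ) := by
    rw [Real.rpow_def_of_pos t0, Real.rpow_def_of_pos t0, ← Real.exp_add, Real.log_pow, ha]
    congr 1
    ring
  rw [e1, ← mul_assoc]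
  refine mul_le_mul_of_nonneg_right ?_ (by positivity)
  have := Real.pow_div_factorial_le_exp (a * (h + 1)) (by positivity) k
  rw [div_le_iff₀ (by positivity), mul_pow, mul_add, Real.exp_add, mul_one] at this
  rw [div_mul_eq_mul_div, le_div_iff₀ (by positivity)]
  linarith

theorem vr_av (N : ℕ) (φ : ℕ → ℕ → ℂ) (J : ℕ) (c : ℕ → ℕ) :
    vr (fun i => av N (φ i)) J c ≤ av N fun n => vr (fun i => φ i n) J c := by
  unfold vr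
  rw [av_sum]
  refine sum_le_sum fun j _ => ?_
  rw [← av_sub]
  exact norm_av_le _ _

theorem wb_av (N : ℕ) (φ : ℕ → ℕ → ℂ) (w : ℕ → ℝ) (h : ∀ n < N, Wb (fun i => φ i n) (w n)) :
    Wb (fun i => av N (φ i)) (av N w) := by
  refine ⟨fun i => (norm_av_le _ _).trans (av_mono fun n hn => (h n hn).1 i), fun J c hc => ?_⟩
  rw [← av_rmul_left]
  exact (vr_av N φ J c).trans (av_mono fun n hn => (h n hn).2 J c hc)

variable {M : ℕ} [NeZero M]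

def AL (P₁ P₂ : ℤ[X]) (N : ℕ) (x : ZMod M) : (ZMod M → ℂ) →ₗ[ℂ] (ZMod M → ℂ) →ₗ[ℂ] ℂ :=
  LinearMap.mk₂ ℂ (fun f g => AA P₁ P₂ N f g x)
    (fun f f' g => by simp only [AA, Pi.add_apply, add_mul, av_add])
    (fun c f g => by simp only [AA, Pi.smul_apply, smul_eq_mul, mul_assoc, av_mul_left])
    (fun f g g' => by simp only [AA, Pi.add_apply, mul_add, av_add])
    (fun c f g => by simp only [AA, Pi.smul_apply, smul_eq_mul, mul_left_comm _ c, av_mul_left])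

omit [NeZero M] in
theorem AL_apply (P₁ P₂ : ℤ[X]) (N : ℕ) (x : ZMod M) (f g : ZMod M → ℂ) :
    AL P₁ P₂ N x f g = AA P₁ P₂ N f g x := rfl

def TL (A : Finset (ZMod M)) (f : ZMod M → ℂ) : (ZMod M → ℂ) →ₗ[ℂ] ZMod M → ℂ where
  toFun κ := TT A κ f
  map_add' κ κ' := by
    funext x
    simp only [TT, Ad, Pi.add_apply, add_mul, sum_add_distrib]
  map_smul' c κ := by
    funext x
    simp only [TT, Ad, Pi.smul_apply, smul_eq_mul, mul_assoc, mul_sum, RingHom.id_apply]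

theorem TL_apply (A : Finset (ZMod M)) (f κ : ZMod M → ℂ) : TL A f κ = TT A κ f := rfl

def FL (ξ : ZMod M) : (ZMod M → ℂ) →ₗ[ℂ] ℂ where
  toFun f := ft f ξ
  map_add' f g := ft_add f g ξ
  map_smul' c f := ft_mul c f ξ

/-- signed sums of increments -/
def sgs {V : Type} [AddCommGroup V] [Module ℂ V] (u : ℕ → V) (J : ℕ) (c : ℕ → ℕ) (ε : ℕ → ℝ) : V :=
  ∑ j ∈ range J, (ε j : ℂ) • (u (c (j + 1)) - u (c j))

theorem bil_sgs {V W : Type} [AddCommGroup V] [Module ℂ V] [AddCommGroup W] [Module ℂ W]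
    (β : V →ₗ[ℂ] W →ₗ[ℂ] ℂ) (u : ℕ → V) (v : ℕ → W) (J J' : ℕ) (c c' : ℕ → ℕ) (ε ε' : ℕ → ℝ) :
    ∑ j ∈ range J, ∑ k ∈ range J', (ε j * ε' k) •
      (β (u (c (j + 1))) (v (c' (k + 1))) - β (u (c (j + 1))) (v (c' k)) -
        β (u (c j)) (v (c' (k + 1))) + β (u (c j)) (v (c' k))) =
      β (sgs u J c ε) (sgs v J' c' ε') := by
  rw [sgs, map_sum, LinearMap.sum_apply]
  refine sum_congr rfl fun j _ => ?_
  rw [sgs, map_sum]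
  refine sum_congr rfl fun k _ => ?_
  simp only [map_smul, map_sub, LinearMap.smul_apply, LinearMap.sub_apply, smul_eq_mul,
    Complex.real_smul, Complex.ofReal_mul]
  ring

theorem band_sgs {K : ℕ} {u : ℕ → ZMod M → ℂ} (h : ∀ i, Band K (u i)) (J : ℕ) (c : ℕ → ℕ)
    (ε : ℕ → ℝ) : Band K (sgs u J c ε) := by
  intro ξ hξ
  by_contra hc
  refine hξ ?_
  have e : ∀ i, FL ξ (u i) = 0 := fun i => by
    by_contra h0
    exact hc (h i ξ h0)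
  change FL ξ (sgs u J c ε) = 0
  simp only [sgs, map_sum, map_smul, map_sub, e, sub_self, smul_zero, sum_const_zero]

omit [NeZero M] in
theorem sgs_cx (k : ℕ → ZMod M → ℝ) (J : ℕ) (c : ℕ → ℕ) (ε : ℕ → ℝ) :
    sgs (fun i => cx (k i)) J c ε =
      cx fun t => ∑ j ∈ range J, ε j * (k (c (j + 1)) t - k (c j) t) := by
  funext t
  simp [sgs, cx, Finset.sum_apply]

omit [NeZero M] in
theorem narrow {c L i₀ i₁ h N₀ e : ℕ} {N K : ℕ → ℕ} (H : Par c M L i₀ i₁ h N₀ N) (he : 1 ≤ e)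
    (hK : KF M i₀ i₁ h e N K) (hc : 5 ≤ c) : 2 * (2 * K i₀) * (2 ^ h) ^ 2 ≤ M := by
  refine le_trans ?_ (hK.small H he H.mem₀ (k := 4) hc)
  have a1 : 2 ≤ 2 ^ h := by
    calc 2 = 2 ^ 1 := rfl
      _ ≤ _ := Nat.pow_le_pow_right two_pos H.hpos
  calc _ = K i₀ * (2 * 2 * (2 ^ h) ^ 2 * 1) := by ring
    _ ≤ K i₀ * (2 ^ h * 2 ^ h * (2 ^ h) ^ 2 * N₀) := by
        have := H.N₀_pos
        gcongr
    _ = _ := by ring

theorem ssp_new {P₁ P₂ : ℤ[X]} (h1 : 1 ≤ P₁.natDegree) (hS : SSP P₁ P₂) :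
    ∃ (c : ℕ) (δ C : ℝ), 0 < δ ∧ δ ≤ 1 ∧ 1 ≤ C ∧
    ∀ (M : ℕ) [NeZero M] (L i₀ i₁ h N₀ K : ℕ) (N : ℕ → ℕ) (F G : ZMod M → ℂ),
      Par c M L i₀ i₁ h N₀ N → 2 * K * (2 ^ h) ^ 2 ≤ M →
      (∀ ξ, ft F ξ ≠ 0 → ∃ θ ∈ Sg M (2 ^ h) \ Sg M (2 ^ (h - 1)), ab (ξ - θ) < K) →
      lp 1 (AA P₁ P₂ N₀ F G) ≤ (C * ((2 : ℝ) ^ h) ^ (-δ)) ^ 2 * lp 2 F * lp 2 G := by
  obtain ⟨γ, C₀, D, C, γ0, C0, hS⟩ := hS
  have hp : 0 < C * 2 ^ γ := by positivity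
  refine ⟨C₀ + D + 3, min (γ / 2) 1, 1 + C * 2 ^ γ, by positivity, min_le_right _ _, by linarith,
    fun M _ L i₀ i₁ h N₀ K N F G H hK hF => ?_⟩
  obtain ⟨k, rfl⟩ : ∃ k, h = k + 1 := ⟨h - 1, by have := H.hpos; omega⟩
  rw [Nat.add_sub_cancel] at hF
  have a1 : (2 ^ k) ^ C₀ ≤ N₀ := by
    refine le_trans ?_ H.low
    rw [← pow_mul]
    exact Nat.pow_le_pow_right two_pos (by nlinarith)
  have a2 : Dv M (2 * N₀ ^ D) := by
    refine (H.dv_pow H.mem₀ (D := D) (by omega)).mono (Nat.mul_le_mul_left _ ?_)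
    exact (Nat.pow_le_pow_left (H.N₀_le H.mem₀) _).trans (Nat.le_mul_of_pos_left _ (by positivity))
  have a3 : 2 * (2 ^ k * (M / N₀ ^ P₁.natDegree)) * (2 ^ (k + 1)) ^ 2 ≤ M := by
    have b1 : 2 ^ (3 * (k + 1)) ≤ N₀ ^ P₁.natDegree :=
      ((Nat.pow_le_pow_right two_pos (Nat.mul_le_mul_right _ (by omega))).trans H.low).trans
        (Nat.le_self_pow (by omega) _)
    calc _ = 2 ^ (3 * (k + 1)) * (M / N₀ ^ P₁.natDegree) := by ring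
      _ ≤ N₀ ^ P₁.natDegree * (M / N₀ ^ P₁.natDegree) := Nat.mul_le_mul_right _ b1
      _ ≤ M := Nat.mul_div_le _ _
  have a4 : Minor (2 ^ k) (2 ^ k * (M / N₀ ^ P₁.natDegree)) F := by
    intro ξ θ' hθ' hlt
    by_contra h0
    obtain ⟨θ, hθ, hl⟩ := hF ξ h0
    obtain ⟨b1, b2⟩ := mem_sdiff.1 hθ
    have b3 := Sg_sep b1 (Sg_mono (Nat.pow_le_pow_right two_pos (Nat.le_succ k)) hθ')
      fun e => b2 (e ▸ hθ')
    have b4 := ab_sub_le (ξ - θ') (ξ - θ)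
    rw [sub_sub_sub_cancel_left] at b4
    have b5 : 0 < (2 ^ (k + 1)) ^ 2 := by positivity
    nlinarith
  refine (hS M (2 ^ k) N₀ F G Nat.one_le_two_pow a1 a2 a4).trans ?_
  refine mul_le_mul_of_nonneg_right (mul_le_mul_of_nonneg_right ?_ (lp_nonneg _ _)) (lp_nonneg _ _)
  have t1 : (1 : ℝ) ≤ 2 ^ (k + 1) := one_le_pow₀ one_le_two
  have e1 : ((2 ^ k : ℕ) : ℝ) ^ (-γ) = 2 ^ γ * ((2 : ℝ) ^ (k + 1)) ^ (-γ) := by
    rw [pow_succ, Real.mul_rpow (by positivity) two_pos.le, Real.rpow_neg two_pos.le]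
    push_cast
    field_simp
  have e2 : ((2 : ℝ) ^ (k + 1)) ^ (-γ) ≤ (((2 : ℝ) ^ (k + 1)) ^ (-min (γ / 2) 1)) ^ 2 := by
    rw [← Real.rpow_natCast, ← Real.rpow_natCast _ 2, Real.rpow_natCast, ← Real.rpow_mul (by positivity)]
    refine Real.rpow_le_rpow_of_exponent_le t1 ?_
    have := min_le_left (γ / 2) 1
    push_cast
    linarith
  rw [e1, mul_pow, ← mul_assoc]
  exact mul_le_mul (by nlinarith) e2 (by positivity) (by positivity)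

theorem fm_out {i₀ i₁ i : ℕ} (K : ℕ → ℕ) (s : ℕ → ZMod M) (hi : i ∉ Ico i₀ i₁) :
    fm i₀ i₁ K s i = 0 := by
  funext t
  simp only [fm, cx, if_neg hi, Complex.ofReal_zero, Pi.zero_apply]

theorem ker_sh {c L i₀ i₁ h N₀ cP : ℕ} {N K : ℕ → ℕ} {P : ℤ[X]} (H : Par c M L i₀ i₁ h N₀ N)
    (he : 1 ≤ P.natDegree) (hK : KF M i₀ i₁ h P.natDegree N K) (h1 : cP + 4 ≤ c)
    (h2 : P.natDegree + 4 ≤ c)
    (hP : ∀ n N : ℕ, n < N → (P.eval (n : ℤ)).natAbs ≤ 2 ^ cP * N ^ P.natDegree) {τ : ℕ}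
    (hτ : τ < M) : ∃ τ' r k, Ker L (h + cP + 3) i₀ i₁ τ' r k ∧
      ∀ i, fm (M := M) i₀ i₁ K (sh P N τ) i = cx (k i) :=
  ker_fm H he hK h1 h2 fun _ hi => ((shf_sh H P hτ).ab_le hP hi).trans
    (Nat.mul_le_mul_right _ (Nat.pow_le_pow_right two_pos (Nat.le_succ _)))

theorem gam_le (h cP : ℕ) : ((h + cP + 3 : ℕ) : ℝ) + 1 ≤ (cP + 4) * (h + 1) := by
  have : (0 : ℝ) ≤ (cP + 3) * h := by positivity
  push_cast
  linarith

end T1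

open T1 in
theorem stT1S (hR : StR3) (hC : StLinC) : StT1S := by
  intro P₁ P₂ e1 e2 hS
  obtain ⟨c, δ, C, δ0, -, C1, hS⟩ := ssp_new e1 hS
  obtain ⟨c₁, p1, -⟩ := slot P₁ e1
  obtain ⟨c₂, p2, -⟩ := slot P₂ e2
  obtain ⟨CR, R0, hR⟩ := hR
  obtain ⟨CC, C0, hC⟩ := hC 2 one_lt_two
  obtain ⟨CA, A0, hA⟩ := absorb 6 δ0
  refine ⟨c + c₁ + c₂ + P₁.natDegree + P₂.natDegree + 5, δ / 2, by positivity, fun L L' =>
    ⟨CR * (L' + 2) ^ 2 * C ^ 2 * (CC * (L + 1) * (c₁ + 4) ^ 2) * (CC * (L + 1) * (c₂ + 4) ^ 2) * CA,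
      by positivity, fun M _ i₀ i₁ h N₀ N K₁ K₂ A₂ f g H hI k1 k2 hA₂ => ?_⟩⟩
  have n1 : 2 * K₁ i₀ * (2 ^ h) ^ 2 ≤ M :=
    le_trans (Nat.mul_le_mul_right _ (by omega)) (narrow H e1 k1 (by omega))
  have n2 : 2 * K₂ i₀ * (2 ^ h) ^ 2 ≤ M :=
    le_trans (Nat.mul_le_mul_right _ (by omega)) (narrow H e2 k2 (by omega))
  have f0 := lp_nonneg 2 f
  have g0 := lp_nonneg 2 g
  have key : ∀ τ, τ < M → ∃ w : ZMod M → ℝ, (∀ x, Wb (fun i => AA P₁ P₂ N₀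
      (TT (Sg M (2 ^ h) \ Sg M (2 ^ (h - 1))) (fm i₀ i₁ K₁ (sh P₁ N τ) i) f)
      (TT A₂ (fm i₀ i₁ K₂ (sh P₂ N τ) i) g) x) (w x)) ∧
      lp 1 w ≤ CR * ((L' + 2 * h : ℕ) + 1) ^ 2 * ((C * ((2 : ℝ) ^ h) ^ (-δ)) ^ 2 *
        (CC * L * ((h + c₁ + 3 : ℕ) + 1) ^ 2 * lp 2 f) *
        (CC * L * ((h + c₂ + 3 : ℕ) + 1) ^ 2 * lp 2 g)) := by
    intro τ hτ
    obtain ⟨τ₁, r₁, κ₁, q1, q1'⟩ := ker_sh H e1 k1 (by omega) (by omega) p1 hτ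
    obtain ⟨τ₂, r₂, κ₂, q2, q2'⟩ := ker_sh H e2 k2 (by omega) (by omega) p2 hτ
    refine hR (ZMod M) 1 (fun i j x => (AL P₁ P₂ N₀ x).compl₁₂
      (TL (Sg M (2 ^ h) \ Sg M (2 ^ (h - 1))) f) (TL A₂ g) (fm i₀ i₁ K₁ (sh P₁ N τ) i)
      (fm i₀ i₁ K₂ (sh P₂ N τ) j)) (L' + 2 * h) i₀ _ le_rfl (fun i j hi => ?_)
      fun J J' a a' ε ε' ha ha' hε hε' => ?_
    · have : i ∉ Ico i₀ i₁ := fun h0 => hi <| mem_Ico.2 ⟨(mem_Ico.1 h0).1,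
        (mem_Ico.1 h0).2.trans_le (hI.trans (Nat.add_le_add_left (by
          rw [pow_add, pow_mul]
          exact Nat.mul_le_mul_right _ Nat.lt_two_pow_self.le) _))⟩
      simp only [fm_out _ _ this, map_zero, LinearMap.zero_apply]
      exact ⟨rfl, rfl⟩
    · simp only [bil_sgs]
      change lp 1 (AA P₁ P₂ N₀ (TT _ (sgs (fm i₀ i₁ K₁ (sh P₁ N τ)) J a ε) f)
        (TT A₂ (sgs (fm i₀ i₁ K₂ (sh P₂ N τ)) J' a' ε') g)) ≤ _
      have b1 := band_sgs (band_fm H (by omega) e1 k1 (sh P₁ N τ)) J a ε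
      have b2 := band_sgs (band_fm H (by omega) e2 k2 (sh P₂ N τ)) J' a' ε'
      refine (hS M L i₀ i₁ h N₀ (K₁ i₀) N _ _ (H.anti (by omega)) n1 fun ξ hξ => ?_).trans ?_
      · rw [ft_TT] at hξ
        obtain ⟨θ, hθ, h0⟩ := exists_ne_zero_of_sum_ne_zero (left_ne_zero_of_mul hξ)
        exact ⟨θ, hθ, b1 _ h0⟩
      · refine mul_le_mul (mul_le_mul_of_nonneg_left (lp_TT_le n1 sdiff_subset b1
          (norm_ft_le_of_conv two_pos fun F => ?_) f) (by positivity))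
          (lp_TT_le n2 hA₂ b2 (norm_ft_le_of_conv two_pos fun F => ?_) g) (lp_nonneg _ _)
          (by positivity)
        · rw [funext q1', sgs_cx]
          exact hC M L _ i₀ i₁ τ₁ r₁ κ₁ J a ε F q1 ha hε
        · rw [funext q2', sgs_cx]
          exact hC M L _ i₀ i₁ τ₂ r₂ κ₂ J' a' ε' F q2 ha' hε'
  choose! w hw hw' using key
  refine ⟨fun x => av M fun τ => w τ x, fun x => wb_av M _ _ fun τ hτ => hw τ hτ x, ?_⟩
  refine (lp_av_le' le_rfl (by positivity) hw').trans ?_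
  have t0 : (0 : ℝ) < ((2 : ℝ) ^ h) ^ (-δ) := by positivity
  have t1 : ((2 : ℝ) ^ h) ^ (-δ) ≤ 1 :=
    Real.rpow_le_one_of_one_le_of_nonpos (one_le_pow₀ one_le_two) (by linarith)
  have g1 := gam_le h c₁
  have g2 := gam_le h c₂
  have g3 : ((L' + 2 * h : ℕ) : ℝ) + 1 ≤ (L' + 2) * (h + 1) := by
    have : (0 : ℝ) ≤ L' * h := by positivity
    push_cast
    linarith
  have g4 := hA h
  calc _ ≤ CR * ((L' + 2) * (h + 1)) ^ 2 * (C ^ 2 * (((2 : ℝ) ^ h) ^ (-δ) * 1) *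
        (CC * (L + 1) * ((c₁ + 4) * (h + 1)) ^ 2 * lp 2 f) *
        (CC * (L + 1) * ((c₂ + 4) * (h + 1)) ^ 2 * lp 2 g)) := by
        rw [mul_pow C, sq (((2 : ℝ) ^ h) ^ (-δ))]
        gcongr <;> linarith
    _ = CR * (L' + 2) ^ 2 * C ^ 2 * (CC * (L + 1) * (c₁ + 4) ^ 2) * (CC * (L + 1) * (c₂ + 4) ^ 2) *
        (((h : ℝ) + 1) ^ 6 * ((2 : ℝ) ^ h) ^ (-δ)) * lp 2 f * lp 2 g := by ring
    _ ≤ _ := by
        rw [mul_assoc _ CA]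
        gcongr

end

end Pool.Agent.Lib.MP_10e396_an
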