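import Pool.Agent.Lib.MP_10e396_an.Par

/-! Tools for the new frequency shell. -/

set_option autoImplicit false
set_option linter.unusedSectionVars false

namespace Pool.Agent.Lib.MP_10e396_an.T2

open Finset Polynomial

noncomputable section

theorem sq_eq (s : Finset ℕ) (a : ℕ → ℂ) :
    √(∑ i ∈ s, ‖a i‖ ^ 2) = lp 2 (fun i : s => a i) := by
  rw [lp_two, Finset.sum_coe_sort s (fun i => ‖a i‖ ^ 2)]

theorem sq_split (s : Finset ℕ) (u v : ℕ → ℂ) :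
    √(∑ i ∈ s, ‖u i + v i‖ ^ 2) ≤ ∑ i ∈ s, ‖u i‖ + √(∑ i ∈ s, ‖v i‖ ^ 2) := by
  rw [sq_eq s fun i => u i + v i, sq_eq s v]
  refine (lp_add_le one_le_two _ _).trans (add_le_add ?_ le_rfl)
  rw [← sq_eq s u]
  exact Real.sqrt_le_iff.2 ⟨sum_nonneg fun _ _ => norm_nonneg _,
    sum_sq_le_sq_sum_of_nonneg fun _ _ => norm_nonneg _⟩

theorem sq_av (s : Finset ℕ) (N : ℕ) (a : ℕ → ℕ → ℂ) :
    √(∑ i ∈ s, ‖av N (a i)‖ ^ 2) ≤ av N fun m => √(∑ i ∈ s, ‖a i m‖ ^ 2) := by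
  rw [sq_eq s fun i => av N (a i)]
  refine (lp_av_le one_le_two N fun m (i : s) => a i m).trans (le_of_eq ?_)
  exact av_congr fun m _ => (sq_eq s fun i => a i m).symm

theorem cs (s : Finset ℕ) {a b : ℕ → ℝ} {A B x y : ℝ} (hx : 0 ≤ x) (hy : 0 ≤ y)
    (ha : ∑ i ∈ s, a i ^ 2 ≤ A * x ^ 2) (hb : ∑ i ∈ s, b i ^ 2 ≤ B * y ^ 2) :
    ∑ i ∈ s, a i * b i ≤ √A * √B * x * y := by
  refine (Real.sum_mul_le_sqrt_mul_sqrt s a b).trans ?_
  have h1 := Real.sqrt_le_sqrt ha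
  have h2 := Real.sqrt_le_sqrt hb
  rw [Real.sqrt_mul' _ (sq_nonneg _), Real.sqrt_sq hx] at h1
  rw [Real.sqrt_mul' _ (sq_nonneg _), Real.sqrt_sq hy] at h2
  calc _ ≤ (√A * x) * (√B * y) := mul_le_mul h1 h2 (Real.sqrt_nonneg _) (by positivity)
    _ = _ := by ring

theorem lac0 {L i₀ i₁ : ℕ} (hL : 1 ≤ L) {x : ℕ → ℝ} {q t : ℝ} (q0 : 0 ≤ q) (q1 : q < 1) (ht : 0 ≤ t)
    (h0 : ∀ i, 0 ≤ x i) (mono : ∀ i j, i₀ ≤ i → i ≤ j → j < i₁ → x i ≤ x j)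
    (lac : ∀ i, i₀ ≤ i → i + L < i₁ → x i ≤ q * x (i + L)) :
    ∑ i ∈ (Ico i₀ i₁).filter (fun i => x i ≤ t), x i ≤ L * t / (1 - q) := by
  classical
  set J := (Ico i₀ i₁).filter (fun i => x i ≤ t) with hJ
  have mem : ∀ i, i ∈ J ↔ (i₀ ≤ i ∧ i < i₁) ∧ x i ≤ t := fun i => by simp [hJ]
  have e := sum_filter_add_sum_filter_not J (fun i => i + L ∈ J) x
  have a1 : ∑ i ∈ J.filter (fun i => i + L ∈ J), x i ≤ q * ∑ i ∈ J, x i := by
    calc _ ≤ ∑ i ∈ J.filter (fun i => i + L ∈ J), q * x (i + L) := sum_le_sum fun i hi => by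
          rw [mem_filter, mem, mem] at hi
          exact lac i hi.1.1.1 hi.2.1.2
      _ = q * ∑ j ∈ (J.filter (fun i => i + L ∈ J)).image (· + L), x j := by
          rw [← mul_sum, sum_image fun a _ b _ h => by simpa using h]
      _ ≤ _ := by
          refine mul_le_mul_of_nonneg_left (sum_le_sum_of_subset_of_nonneg (fun j hj => ?_)
            fun j _ _ => h0 j) q0
          obtain ⟨i, hi, rfl⟩ := mem_image.1 hj
          exact (mem_filter.1 hi).2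
  have a2 : (J.filter (fun i => ¬ i + L ∈ J)).card ≤ L := by
    have key : ∀ i ∈ J.filter (fun i => ¬ i + L ∈ J), ∀ j ∈ J.filter (fun i => ¬ i + L ∈ J),
        j < i + L := by
      intro i hi j hj
      rw [mem_filter, mem, mem] at hi hj
      by_contra hn
      exact hi.2 ⟨⟨by omega, by omega⟩, (mono _ j (by omega) (by omega) hj.1.1.2).trans hj.1.2⟩
    refine (card_le_card_of_injOn (t := range L) (· % L) (fun i _ => ?_)
      fun i hi j hj hij => ?_).trans_eq (card_range L)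
    · exact mem_coe.2 (mem_range.2 (Nat.mod_lt _ hL))
    · have b1 := key i hi j hj
      have b2 := key j hj i hi
      rcases le_total i j with h | h
      · have := (Nat.modEq_iff_dvd' h).1 hij
        have := Nat.eq_zero_of_dvd_of_lt this (by omega)
        omega
      · have := (Nat.modEq_iff_dvd' h).1 hij.symm
        have := Nat.eq_zero_of_dvd_of_lt this (by omega)
        omega
  have a3 : ∑ i ∈ J.filter (fun i => ¬ i + L ∈ J), x i ≤ L * t := by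
    refine (sum_le_card_nsmul _ _ t fun i hi => ((mem i).1 (mem_filter.1 hi).1).2).trans ?_
    rw [nsmul_eq_mul]
    exact mul_le_mul_of_nonneg_right (by exact_mod_cast a2) ht
  rw [le_div_iff₀ (by linarith)]
  linarith

variable {M : ℕ} [NeZero M] {c L i₀ i₁ h N₀ e : ℕ} {N K K' : ℕ → ℕ}

theorem lac (H : Par c M L i₀ i₁ h N₀ N) (he : 1 ≤ e) (hK : KF M i₀ i₁ h e N K) (r : ℕ)
    {t s B : ℝ} (ht : 0 ≤ t) (hs : 0 < s) (hB : 0 ≤ B) {φ : ℕ → ℝ}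
    (h1 : ∀ i ∈ Ico i₀ i₁, φ i ≤ B * ((r : ℝ) / K i) ^ s)
    (h2 : ∀ i ∈ Ico i₀ i₁, t < (r : ℝ) / K i → φ i ≤ 0) :
    ∑ i ∈ Ico i₀ i₁, φ i ≤ B * (L * t ^ s / (1 - 2⁻¹ ^ s)) := by
  have pos : ∀ i, i₀ ≤ i → i < i₁ → (0 : ℝ) < K i := fun i a b => by
    exact_mod_cast hK.pos (mem_Ico.2 ⟨a, b⟩)
  have := lac0 (i₀ := i₀) (i₁ := i₁) H.one (x := fun i => ((r : ℝ) / K i) ^ s) (q := 2⁻¹ ^ s)
    (t := t ^ s) (by positivity) (Real.rpow_lt_one (by norm_num) (by norm_num) hs) (by positivity)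
    (fun i => by positivity) (fun i j a b d => ?_) (fun i a b => ?_)
  · refine le_trans ?_ (mul_le_mul_of_nonneg_left this hB)
    rw [sum_filter, mul_sum]
    refine sum_le_sum fun i hi => ?_
    split_ifs with hh
    · exact h1 i hi
    · rw [mul_zero]
      refine h2 i hi (lt_of_not_ge fun hn => hh ?_)
      exact Real.rpow_le_rpow (by positivity) hn hs.le
  · refine Real.rpow_le_rpow (by positivity) ?_ hs.le
    exact div_le_div_of_nonneg_left (by positivity) (pos j (by omega) d)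
      (by exact_mod_cast hK.anti H i j a b d)
  · rw [← Real.mul_rpow (by norm_num) (by positivity)]
    refine Real.rpow_le_rpow (by positivity) ?_ hs.le
    have p1 := pos i a (by omega)
    have p2 := pos (i + L) (by omega) b
    have p3 : (2 : ℝ) * K (i + L) ≤ K i := by exact_mod_cast hK.lac H he i a b
    calc (r : ℝ) / K i ≤ r / (2 * K (i + L)) :=
          div_le_div_of_nonneg_left (by positivity) (by positivity) p3
      _ = _ := by field_simp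

theorem lac1 (H : Par c M L i₀ i₁ h N₀ N) (he : 1 ≤ e) (hK : KF M i₀ i₁ h e N K) (r : ℕ)
    {t B : ℝ} (ht : 0 ≤ t) (hB : 0 ≤ B) {φ : ℕ → ℝ}
    (h1 : ∀ i ∈ Ico i₀ i₁, φ i ≤ B * ((r : ℝ) / K i))
    (h2 : ∀ i ∈ Ico i₀ i₁, t < (r : ℝ) / K i → φ i ≤ 0) :
    ∑ i ∈ Ico i₀ i₁, φ i ≤ 2 * L * (B * t) := by
  refine (lac H he hK r ht one_pos hB (by simpa using h1) h2).trans (le_of_eq ?_)
  rw [Real.rpow_one, Real.rpow_one]
  ring

def tri (K : ℕ) (ζ : ZMod M) : ℝ := max (1 - (ab ζ : ℝ) / K) 0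

theorem tri_zero {K : ℕ} (hK : 1 ≤ K) {ζ : ZMod M} (h : (K : ℝ) ≤ ab ζ) : tri K ζ = 0 := by
  have : (0 : ℝ) < K := by exact_mod_cast hK
  refine max_eq_right ?_
  rw [sub_nonpos, one_le_div this]
  exact h

theorem tri_abs (K : ℕ) (ζ : ZMod M) : |tri K ζ| ≤ 1 := by
  rw [abs_of_nonneg (le_max_right _ _)]
  exact max_le (sub_le_self _ (by positivity)) zero_le_one

theorem tri_sub {K K' : ℕ} (h1 : 1 ≤ K') (h2 : K' ≤ K) (ζ : ZMod M) :
    |tri K ζ - tri K' ζ| ≤ (ab ζ : ℝ) / K' ∧ |tri K ζ - tri K' ζ| ≤ 1 ∧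
      ((K : ℝ) ≤ ab ζ → tri K ζ - tri K' ζ = 0) := by
  have p1 : (0 : ℝ) < K' := by exact_mod_cast h1
  have p2 : (K' : ℝ) ≤ K := by exact_mod_cast h2
  have p3 : (ab ζ : ℝ) / K ≤ ab ζ / K' := div_le_div_of_nonneg_left (by positivity) p1 p2
  have p4 : (0 : ℝ) ≤ ab ζ / K := by positivity
  refine ⟨?_, ?_, fun h => by rw [tri_zero (h1.trans h2) h, tri_zero h1 (p2.trans h), sub_zero]⟩ <;>
  · unfold tri
    rw [abs_le]
    rcases le_total (1 - (ab ζ : ℝ) / K) 0 with a | a <;>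
    rcases le_total (1 - (ab ζ : ℝ) / K') 0 with b | b <;>
    simp only [max_eq_left, max_eq_right, a, b] <;> constructor <;> linarith

theorem two_le (H : Par c M L i₀ i₁ h N₀ N) (hc : 3 ≤ c) (he : 1 ≤ e) (hK : KF M i₀ i₁ h e N K)
    {i : ℕ} (hi : i ∈ Ico i₀ i₁) : 2 * K i * (2 ^ (h - 1)) ^ 2 ≤ M := by
  refine le_trans ?_ (hK.small H he hi (k := 2) hc)
  have a1 := H.N₀_pos
  have a2 : 2 * (2 ^ (h - 1)) ^ 2 ≤ 2 ^ (2 * h) := by
    rw [← pow_mul, ← pow_succ']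
    exact Nat.pow_le_pow_right two_pos (by have := H.hpos; omega)
  calc _ = K i * (2 * (2 ^ (h - 1)) ^ 2 * 1) := by ring
    _ ≤ _ := by gcongr

theorem ft_fm (H : Par c M L i₀ i₁ h N₀ N) (hc : 3 ≤ c) (he : 1 ≤ e) (hK : KF M i₀ i₁ h e N K)
    (s : ℕ → ZMod M) {i : ℕ} (hi : i ∈ Ico i₀ i₁) (ζ : ZMod M) :
    ft (fm i₀ i₁ K s i) ζ = ch (ζ * s i) * (tri (K i) ζ : ℝ) := by
  unfold fm
  simp only [if_pos hi]
  rw [ft_cx_shift, ft_fej (hK.pos hi) ((Nat.le_mul_of_pos_right _ (by positivity)).trans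
    (two_le H hc he hK hi))]
  rfl

/-- difference of two kernels -/
def dk (i₀ i₁ : ℕ) (K K' : ℕ → ℕ) (s : ℕ → ZMod M) (i : ℕ) (t : ZMod M) : ℂ :=
  fm i₀ i₁ K s i t - fm i₀ i₁ K' s i t

theorem ft_dk (H : Par c M L i₀ i₁ h N₀ N) (hc : 3 ≤ c) (he : 1 ≤ e) (hK : KF M i₀ i₁ h e N K)
    (hK' : KF M i₀ i₁ h e N K') (s : ℕ → ZMod M) {i : ℕ} (hi : i ∈ Ico i₀ i₁) (ζ : ZMod M) :
    ft (dk i₀ i₁ K K' s i) ζ = ch (ζ * s i) * (tri (K i) ζ - tri (K' i) ζ : ℝ) := by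
  unfold dk
  rw [ft_sub, ft_fm H hc he hK s hi, ft_fm H hc he hK' s hi]
  push_cast
  ring

theorem norm_dk (H : Par c M L i₀ i₁ h N₀ N) (hc : 3 ≤ c) (he : 1 ≤ e) (hK : KF M i₀ i₁ h e N K)
    (hK' : KF M i₀ i₁ h e N K') (s : ℕ → ZMod M) {i : ℕ} (hi : i ∈ Ico i₀ i₁) (ζ : ZMod M) :
    ‖ft (dk i₀ i₁ K K' s i) ζ‖ = |tri (K i) ζ - tri (K' i) ζ| := by
  rw [ft_dk H hc he hK hK' s hi, norm_mul, norm_ch, one_mul, Complex.norm_real, Real.norm_eq_abs]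

theorem band_dk (H : Par c M L i₀ i₁ h N₀ N) (hc : 3 ≤ c) (he : 1 ≤ e) (hK : KF M i₀ i₁ h e N K)
    (hK' : KF M i₀ i₁ h e N K') (s : ℕ → ZMod M) {i : ℕ} (hi : i ∈ Ico i₀ i₁) (hle : K' i ≤ K i) :
    Band (K i) (dk i₀ i₁ K K' s i) := by
  intro ζ hζ
  by_contra hn
  rw [ft_dk H hc he hK hK' s hi, (tri_sub (hK'.pos hi) hle ζ).2.2 (by exact_mod_cast not_lt.1 hn)] at hζ
  simp at hζ

/-- square sums over the scales -/
theorem sq_TT (H : Par c M L i₀ i₁ h N₀ N) (hc : 3 ≤ c) (he : 1 ≤ e) (hK : KF M i₀ i₁ h e N K)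
    {A : Finset (ZMod M)} (hA : A ⊆ Sg M (2 ^ (h - 1))) {κ : ℕ → ZMod M → ℂ}
    (hκ : ∀ i ∈ Ico i₀ i₁, Band (K i) (κ i)) {B : ℝ}
    (hB : ∀ ζ, ∑ i ∈ Ico i₀ i₁, ‖ft (κ i) ζ‖ ^ 2 ≤ B) (f : ZMod M → ℂ) :
    ∑ i ∈ Ico i₀ i₁, lp 2 (TT A (κ i) f) ^ 2 ≤ B * lp 2 f ^ 2 :=
  sum_sq_TT _ (two_le H hc he hK H.mem₀) hA (fun i hi => (hκ i hi).mono
    (hK.anti H i₀ i le_rfl (mem_Ico.1 hi).1 (mem_Ico.1 hi).2)) hB f

theorem TT_sub (A : Finset (ZMod M)) (κ κ' f : ZMod M → ℂ) (x : ZMod M) :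
    TT A κ f x - TT A κ' f x = TT A (fun t => κ t - κ' t) f x := by
  simp only [TT, Ad, ← sum_sub_distrib, sub_mul]

theorem TT_av (A : Finset (ZMod M)) (n : ℕ) (κ : ℕ → ZMod M → ℂ) (f : ZMod M → ℂ) (x : ZMod M) :
    av n (fun τ => TT A (κ τ) f x) = TT A (fun t => av n fun τ => κ τ t) f x := by
  simp only [TT, Ad, av_sum, av_mul_right]

theorem AA_four (P₁ P₂ : ℤ[X]) (n : ℕ) (f f' g g' : ZMod M → ℂ) (x : ZMod M) :
    AA P₁ P₂ n f g x - AA P₁ P₂ n f' g x - (AA P₁ P₂ n f g' x - AA P₁ P₂ n f' g' x) =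
      AA P₁ P₂ n (fun y => f y - f' y) (fun y => g y - g' y) x := by
  simp only [AA, ← av_sub]
  exact av_congr fun _ _ => by ring

theorem AA_split (P₁ P₂ : ℤ[X]) (n : ℕ) (f f' g : ZMod M → ℂ) (x : ZMod M) :
    AA P₁ P₂ n f g x = AA P₁ P₂ n (fun y => f y - f' y) g x + AA P₁ P₂ n f' g x := by
  simp only [AA, ← av_add]
  exact av_congr fun _ _ => by ring

theorem MS_split (P₁ P₂ : ℤ[X]) (n m : ℕ) (F F' G : ℕ → ZMod M → ℂ) (G₀ : ZMod M → ℂ) (x : ZMod M) :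
    av m (fun τ => AA P₁ P₂ n (F τ) (G τ) x) - av m (fun τ => AA P₁ P₂ n (F' τ) (G τ) x) =
      av m (fun τ => AA P₁ P₂ n (fun y => F τ y - F' τ y) (fun y => G τ y - G₀ y) x) +
        AA P₁ P₂ n (fun y => av m fun τ => F τ y - F' τ y) G₀ x := by
  simp only [AA, ← av_mul_right]
  rw [← av_comm m n, ← av_add, ← av_sub]
  refine av_congr fun τ _ => ?_
  rw [← av_add, ← av_sub]
  exact av_congr fun _ _ => by ring

/-- one Weyl sum -/
theorem weyl (hW : StWeyl) (P : ℤ[X]) (hP : 1 ≤ P.natDegree) : ∃ C : ℕ,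
    ∀ (M : ℕ) [NeZero M] (n : ℕ) (η : ℝ) (ζ : ZMod M), 1 ≤ n → 0 < η → η ≤ 1 / 2 →
      η ≤ ‖av n fun t => ch (ζ * pe P t)‖ →
      η⁻¹ ^ C * (P.leadingCoeff.natAbs * ab ζ) < (M : ℝ) / 2 →
      (ab ζ : ℝ) * (n : ℝ) ^ P.natDegree ≤ η⁻¹ ^ C * M := by
  obtain ⟨C, hC⟩ := hW _ hP
  refine ⟨C, fun M _ n η ζ hn h0 h1 h2 h3 => ?_⟩
  obtain ⟨k, rfl, hk⟩ := ab_rep ζ
  have hM := Mpos M
  obtain ⟨q, q1, q2, q3⟩ := hC (Polynomial.C ((k : ℝ) / M) * P.map (Int.castRingHom ℝ)) n η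
    ((natDegree_C_mul_le _ _).trans natDegree_map_le) hn h0 h1 (by
      refine h2.trans (le_of_eq (congrArg _ (av_congr fun t _ => ?_)))
      rw [pe, ← Int.cast_mul, ch_intCast, eval_mul, eval_C, ← Int.cast_natCast (R := ℝ) t,
        eval_intCast_map]
      congr 1
      simp only [eq_intCast, Int.cast_id]
      push_cast
      ring)
  rw [coeff_C_mul, coeff_map, eq_intCast, coeff_natDegree] at q3
  have a0 : P.leadingCoeff ≠ 0 := by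
    rw [Ne, leadingCoeff_eq_zero]
    rintro rfl
    simp at hP
  have a1 : (1 : ℝ) ≤ P.leadingCoeff.natAbs := by exact_mod_cast Int.natAbs_pos.2 a0
  have a2 : |(q : ℝ) * ((k : ℝ) / M * P.leadingCoeff)| =
      q * (P.leadingCoeff.natAbs * ab (k : ZMod M)) / M := by
    rw [← hk, Nat.cast_natAbs, Nat.cast_natAbs, Int.cast_abs, Int.cast_abs, abs_mul, abs_mul, abs_div,
      Nat.abs_cast, Nat.abs_cast]
    ring
  have a3 : |(q : ℝ) * ((k : ℝ) / M * P.leadingCoeff)| < 1 / 2 := by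
    rw [a2, div_lt_iff₀ hM]
    refine lt_of_le_of_lt (mul_le_mul_of_nonneg_right q2 (by positivity)) (by linarith)
  rw [nd, round_eq_zero_iff.2 ⟨by linarith [(abs_lt.1 a3).1], (abs_lt.1 a3).2⟩, Int.cast_zero,
    sub_zero, a2, div_le_div_iff₀ hM (by positivity)] at q3
  refine le_trans (mul_le_mul_of_nonneg_right ?_ (by positivity)) q3
  have q4 : (1 : ℝ) ≤ q := by exact_mod_cast q1
  calc (ab (k : ZMod M) : ℝ) = 1 * (1 * ab (k : ZMod M)) := by ring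
    _ ≤ _ := by gcongr

end

end Pool.Agent.Lib.MP_10e396_an.T2
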